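import Pool.Agent.MP_c2f0e4_an.Iface

open Set Filter Topology Real Asymptotics

namespace Pool.Agent.MP_c2f0e4_an

/-- Extension of a continuous function on the unit interval to the line. -/
noncomputable def afE (g : C(unitInterval, ℝ)) (s : ℝ) : ℝ := g (projIcc 0 1 zero_le_one s)

lemma afE_cont (g : C(unitInterval, ℝ)) : Continuous (afE g) :=
  g.continuous.comp continuous_projIcc

lemma afE_mem (g : C(unitInterval, ℝ)) {s : ℝ} (hs : s ∈ Icc (0 : ℝ) 1) :
    afE g s = g ⟨s, hs⟩ := by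
  rw [afE, projIcc_of_mem _ hs]

/-- The primitive vanishing at zero, as a linear map. -/
noncomputable def afK0 : C(unitInterval, ℝ) →ₗ[ℝ] C(unitInterval, ℝ) where
  toFun g := ⟨fun t => ∫ s in (0 : ℝ)..(t : ℝ), afE g s,
    (intervalIntegral.continuous_primitive (fun a b => (afE_cont g).intervalIntegrable a b) 0).comp
      continuous_subtype_val⟩
  map_add' g g' := by
    ext t
    exact intervalIntegral.integral_add ((afE_cont g).intervalIntegrable _ _)
      ((afE_cont g').intervalIntegrable _ _)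
  map_smul' a g := by
    ext t
    exact intervalIntegral.integral_const_mul a (afE g)

/-- The primitive vanishing at zero. -/
noncomputable def afK : C(unitInterval, ℝ) →L[ℝ] C(unitInterval, ℝ) :=
  afK0.mkContinuous 1 fun g => by
    rw [one_mul]
    refine (ContinuousMap.norm_le _ (norm_nonneg g)).2 fun t => ?_
    have h := intervalIntegral.norm_integral_le_of_norm_le_const (a := 0) (b := (t : ℝ))
      (f := afE g) (C := ‖g‖) fun s _ => g.norm_coe_le_norm _
    refine h.trans ?_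
    rw [sub_zero, abs_of_nonneg t.2.1]
    exact mul_le_of_le_one_right (norm_nonneg g) t.2.2

lemma afK_apply (g : C(unitInterval, ℝ)) (t : unitInterval) :
    afK g t = ∫ s in (0 : ℝ)..(t : ℝ), afE g s := rfl

/-- The linear data `(h, h (1 - t))`. -/
noncomputable def afL : (ℝ × ℝ) →L[ℝ] C(unitInterval, ℝ × ℝ) :=
  (ContinuousLinearMap.fst ℝ ℝ ℝ).smulRight
    ⟨fun t => (1, 1 - (t : ℝ)), continuous_const.prodMk (continuous_const.sub continuous_subtype_val)⟩

lemma afL_apply (p : ℝ × ℝ) (t : unitInterval) : afL p t = (p.1, p.1 * (1 - (t : ℝ))) := by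
  simp [afL]

/-- The initial value. -/
noncomputable def afC : (ℝ × ℝ) →L[ℝ] C(unitInterval, ℝ) :=
  (ContinuousLinearMap.snd ℝ ℝ ℝ).smulRight (ContinuousMap.const unitInterval (1 : ℝ))

lemma afC_apply (p : ℝ × ℝ) (t : unitInterval) : afC p t = p.2 := by
  simp [afC]

lemma af_mem {r t : ℝ} (hr : r ∈ Icc (0 : ℝ) 1) (ht : t ∈ Icc (0 : ℝ) 1) :
    r + (1 - r) * t ∈ Icc (0 : ℝ) 1 := by
  constructor
  · nlinarith [hr.1, hr.2, ht.1, ht.2]
  · nlinarith [hr.1, hr.2, ht.1, ht.2]

/-- Affine reparametrisation onto `[r, 1]`. -/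
noncomputable def afR (r : unitInterval) : C(unitInterval, unitInterval) :=
  ⟨fun t => ⟨r + (1 - r) * t, af_mem r.2 t.2⟩, by fun_prop⟩

lemma afR_coe (r t : unitInterval) : (afR r t : ℝ) = r + (1 - r) * t := rfl

lemma af_restart (F : ℝ × ℝ → ℝ) (x0 y0 : ℝ) (Z : ℝ × ℝ → C(unitInterval, ℝ)) (η : ℝ)
    (hU : ∀ (p : ℝ × ℝ) (z g : C(unitInterval, ℝ)), ‖p‖ < η →
      ‖z - ContinuousMap.const unitInterval y0‖ < η →
      (∀ t, g t = -(afL p t).1 * F (x0 + (afL p t).2, z t)) →
      z = ContinuousMap.const unitInterval y0 + afC p + afK g → z = Z p)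
    (p : ℝ × ℝ) (hp : ‖p‖ < η) (hz : ‖Z p - ContinuousMap.const unitInterval y0‖ < η)
    (g : C(unitInterval, ℝ)) (hg : ∀ t, g t = -(afL p t).1 * F (x0 + (afL p t).2, Z p t))
    (hZ : Z p = ContinuousMap.const unitInterval y0 + afC p + afK g) (r : unitInterval) :
    Z (p.1 * (1 - r), Z p r - y0) 1 = Z p 1 := by
  have hval : ∀ t : unitInterval, Z p t = y0 + p.2 + ∫ s in (0 : ℝ)..(t : ℝ), afE g s := by
    intro t
    have := congrArg (fun u : C(unitInterval, ℝ) => u t) hZ
    simpa [afC_apply, afK_apply] using this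
  have hpt : ∀ t : unitInterval, |Z p t - y0| < η := fun t =>
    lt_of_le_of_lt ((Z p - ContinuousMap.const unitInterval y0).norm_coe_le_norm t) hz
  have key := hU (p.1 * (1 - r), Z p r - y0) ((Z p).comp (afR r))
    ((1 - (r : ℝ)) • g.comp (afR r)) ?_ ?_ ?_ ?_
  · rw [← key]
    have : afR r 1 = 1 := Subtype.ext (by simp [afR_coe])
    simp [this]
  · rw [Prod.norm_def]
    refine max_lt ?_ (hpt r)
    refine lt_of_le_of_lt ?_ (lt_of_le_of_lt (norm_fst_le p) hp)
    rw [norm_mul]
    refine mul_le_of_le_one_right (norm_nonneg _) ?_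
    rw [Real.norm_eq_abs, abs_le]
    constructor <;> linarith [r.2.1, r.2.2]
  · have hη : 0 < η := lt_of_le_of_lt (norm_nonneg _) hp
    rw [ContinuousMap.norm_lt_iff _ hη]
    intro t
    exact hpt _
  · intro t
    simp only [ContinuousMap.smul_apply, ContinuousMap.comp_apply, hg, afL_apply, afR_coe,
      smul_eq_mul]
    rw [show p.1 * (1 - ((r : ℝ) + (1 - r) * t)) = p.1 * (1 - r) * (1 - t) by ring]
    ring
  · ext t
    simp only [ContinuousMap.comp_apply, ContinuousMap.add_apply, ContinuousMap.const_apply,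
      afC_apply, afK_apply]
    have h1 : ∫ s in (0 : ℝ)..(t : ℝ), afE ((1 - (r : ℝ)) • g.comp (afR r)) s =
        ∫ s in (0 : ℝ)..(t : ℝ), (1 - (r : ℝ)) • afE g (r + (1 - r) * s) := by
      refine intervalIntegral.integral_congr fun s hs => ?_
      rw [uIcc_of_le t.2.1] at hs
      have hs' : s ∈ Icc (0 : ℝ) 1 := ⟨hs.1, hs.2.trans t.2.2⟩
      rw [afE_mem _ hs', afE_mem _ (af_mem r.2 hs')]
      rfl
    rw [h1, intervalIntegral.integral_smul, intervalIntegral.smul_integral_comp_add_mul,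
      hval, hval r, afR_coe, mul_zero, add_zero,
      ← intervalIntegral.integral_add_adjacent_intervals (b := (r : ℝ))
        ((afE_cont g).intervalIntegrable _ _) ((afE_cont g).intervalIntegrable _ _)]
    ring

theorem afS (hFP : FPStmt) : AFStmt := by
  intro F p0 hF
  obtain ⟨x0, y0⟩ := p0
  have hG : AnalyticAt ℝ (fun q : (ℝ × ℝ) × ℝ => -q.1.1 * F (x0 + q.1.2, q.2)) (0, y0) := by
    refine (analyticAt_fst.comp analyticAt_fst).neg.mul ?_
    refine AnalyticAt.comp (g := F) (f := fun q : (ℝ × ℝ) × ℝ => (x0 + q.1.2, q.2)) ?_ ?_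
    · simpa using hF
    · exact (analyticAt_const.add (analyticAt_snd.comp analyticAt_fst)).prod analyticAt_snd
  obtain ⟨Z, hZa, hZ0, hZe, η, hη, hU⟩ := hFP afK afL afC (ContinuousMap.const unitInterval y0)
    (fun q => -q.1.1 * F (x0 + q.1.2, q.2)) y0 hG
    (by simpa using hasDerivAt_const y0 (0 : ℝ))
    (by
      have : ContinuousMap.const unitInterval (-(0 : ℝ × ℝ).1 * F (x0 + (0 : ℝ × ℝ).2, y0)) = 0 := by
        ext t; simp
      simp only [this, map_zero, add_zero])
  let H : ℝ × ℝ → ℝ := fun q => Z (q - (x0, y0)) 1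
  have hsub : Tendsto (fun q : ℝ × ℝ => q - (x0, y0)) (𝓝 (x0, y0)) (𝓝 0) := by
    have : Continuous fun q : ℝ × ℝ => q - (x0, y0) := by fun_prop
    simpa using this.tendsto (x0, y0)
  have hH : AnalyticAt ℝ H (x0, y0) := by
    refine ((ContinuousMap.evalCLM ℝ (1 : unitInterval)).analyticAt _).comp
      (f := fun q : ℝ × ℝ => Z (q - (x0, y0))) ?_
    refine AnalyticAt.comp (g := Z) (f := fun q : ℝ × ℝ => q - (x0, y0)) ?_ ?_
    · simpa using hZa
    · exact analyticAt_id.sub analyticAt_const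
  have hval : ∀ (p : ℝ × ℝ) (g : C(unitInterval, ℝ)),
      Z p = ContinuousMap.const unitInterval y0 + afC p + afK g →
      ∀ t : unitInterval, Z p t = y0 + p.2 + ∫ s in (0 : ℝ)..(t : ℝ), afE g s := by
    intro p g hZ t
    have := congrArg (fun u : C(unitInterval, ℝ) => u t) hZ
    simpa [afC_apply, afK_apply] using this
  refine ⟨H, hH, ?_, ?_⟩
  · have hc : HasDerivAt (fun y : ℝ => ((x0, y) : ℝ × ℝ)) (0, 1) y0 :=
      (hasDerivAt_const y0 x0).prodMk (hasDerivAt_id y0)
    have h1 : HasDerivAt (fun y : ℝ => H (x0, y)) (fderiv ℝ H (x0, y0) (0, 1)) y0 :=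
      hH.differentiableAt.hasFDerivAt.comp_hasDerivAt y0 hc
    have h2 : (fun y : ℝ => H (x0, y)) =ᶠ[𝓝 y0] fun y => y := by
      have ht : Tendsto (fun y : ℝ => ((x0, y) : ℝ × ℝ) - (x0, y0)) (𝓝 y0) (𝓝 0) :=
        hsub.comp hc.continuousAt
      filter_upwards [ht.eventually hZe] with y hy
      obtain ⟨g, hg, hZ⟩ := hy
      have hg0 : afE g = fun _ => 0 := by
        funext s
        rw [afE, hg, afL_apply]
        simp
      simp only [H]
      rw [hval _ g hZ, hg0]
      simp
    have h3 : HasDerivAt (fun y : ℝ => H (x0, y)) 1 y0 :=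
      (hasDerivAt_id y0).congr_of_eventuallyEq h2
    rw [h1.unique h3]
    exact one_ne_zero
  · have hzc : ∀ᶠ p in 𝓝 (0 : ℝ × ℝ), ‖Z p - ContinuousMap.const unitInterval y0‖ < η := by
      have := hZa.continuousAt.eventually (Metric.ball_mem_nhds (Z 0) hη)
      filter_upwards [this] with p hp
      rwa [dist_eq_norm, hZ0] at hp
    have hpc : ∀ᶠ p in 𝓝 (0 : ℝ × ℝ), ‖p‖ < η := by
      filter_upwards [Metric.ball_mem_nhds (0 : ℝ × ℝ) hη] with p hp
      simpa using hp
    have hmain : ∀ᶠ q in 𝓝 ((x0, y0) : ℝ × ℝ), q.1 ≠ x0 → fderiv ℝ H q (1, F q) = 0 := by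
      filter_upwards [hsub.eventually hZe, hsub.eventually hzc, hsub.eventually hpc,
        hH.eventually_analyticAt] with q h1 h2 h3 h4 hq
      obtain ⟨g, hg, hZ⟩ := h1
      set p : ℝ × ℝ := q - (x0, y0) with hp
      have hp1 : p.1 = q.1 - x0 := rfl
      have hp2 : p.2 = q.2 - y0 := rfl
      let γ : ℝ → ℝ × ℝ := fun r => (x0 + p.1 * (1 - r), y0 + p.2 + ∫ s in (0 : ℝ)..r, afE g s)
      have hγ0 : γ 0 = q := by
        simp only [γ, hp1, hp2]
        ext <;> simp
      have hg0 : afE g 0 = -p.1 * F q := by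
        rw [afE_mem g (left_mem_Icc.2 zero_le_one), hg, afL_apply, hval p g hZ]
        simp [hp1, hp2]
      have hγ : HasDerivAt γ (-p.1, -p.1 * F q) 0 := by
        refine HasDerivAt.prodMk ?_ ?_
        · simpa using (((hasDerivAt_id (0 : ℝ)).const_sub 1).const_mul p.1).const_add x0
        · rw [← hg0]
          exact (intervalIntegral.integral_hasDerivAt_right ((afE_cont g).intervalIntegrable _ _)
            ((afE_cont g).stronglyMeasurableAtFilter _ _) (afE_cont g).continuousAt).const_add _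
      have h5 : HasDerivAt (H ∘ γ) (fderiv ℝ H q (-p.1, -p.1 * F q)) 0 := by
        refine HasFDerivAt.comp_hasDerivAt 0 ?_ hγ
        rw [hγ0]
        exact h4.differentiableAt.hasFDerivAt
      have h6 : HasDerivWithinAt (H ∘ γ) 0 (Icc 0 1) 0 := by
        refine (hasDerivWithinAt_const (0 : ℝ) (Icc (0 : ℝ) 1) (Z p 1)).congr_of_mem ?_
          (left_mem_Icc.2 zero_le_one)
        intro r hr
        have := af_restart F x0 y0 Z η hU p h3 h2 g hg hZ ⟨r, hr⟩
        rw [← this, hval p g hZ ⟨r, hr⟩]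
        simp [H, γ]
      have h7 := (uniqueDiffOn_Icc zero_lt_one 0 (left_mem_Icc.2 zero_le_one)).eq_deriv _
        h5.hasDerivWithinAt h6
      have h8 : ((-p.1, -p.1 * F q) : ℝ × ℝ) = (-p.1) • ((1, F q) : ℝ × ℝ) := by simp
      rw [h8, map_smul, smul_eq_zero] at h7
      refine h7.resolve_left ?_
      rw [hp1, neg_eq_zero, sub_eq_zero]
      exact hq
    filter_upwards [hmain.eventually_nhds, hH.eventually_analyticAt, hF.eventually_analyticAt]
      with q h1 h2 h3
    by_cases hq : q.1 = x0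
    · have hcont : ContinuousAt (fun q : ℝ × ℝ => fderiv ℝ H q (1, F q)) q :=
        h2.fderiv.continuousAt.clm_apply (continuousAt_const.prodMk h3.continuousAt)
      have hl : Tendsto (fun s : ℝ => ((s, q.2) : ℝ × ℝ)) (𝓝[≠] x0) (𝓝 q) := by
        have : Continuous fun s : ℝ => ((s, q.2) : ℝ × ℝ) := by fun_prop
        have h := this.tendsto x0
        rw [show ((x0, q.2) : ℝ × ℝ) = q from Prod.ext hq.symm rfl] at h
        exact h.mono_left nhdsWithin_le_nhds
      have h4 := hcont.tendsto.comp hl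
      have h5 : Tendsto ((fun q : ℝ × ℝ => fderiv ℝ H q (1, F q)) ∘ fun s : ℝ => ((s, q.2) : ℝ × ℝ))
          (𝓝[≠] x0) (𝓝 0) := by
        refine tendsto_const_nhds.congr' ?_
        filter_upwards [hl.eventually h1, self_mem_nhdsWithin] with s hs hs'
        exact (hs hs').symm
      exact tendsto_nhds_unique h4 h5
    · exact h1.self_of_nhds hq

end Pool.Agent.MP_c2f0e4_an
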