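import Pool.Agent.MP_c2f0e4_an.Iface

open Set Filter Topology Real Asymptotics

namespace Pool.Agent.MP_c2f0e4_an

theorem asycomp_bdd {u : ℕ → ℝ} {a : ℝ} (hu : Tendsto u atTop (𝓝 a)) :
    u =O[atTop] fun _ => (1 : ℝ) := hu.isBigO_one ℝ

theorem asycomp_pow {z : ℕ → ℝ} (hz : Tendsto z atTop (𝓝 0)) {a b : ℕ} (h : a ≤ b) :
    (fun n => z n ^ b) =O[atTop] fun n => z n ^ a := by
  obtain ⟨c, rfl⟩ := Nat.exists_eq_add_of_le h
  have := (isBigO_refl (fun n => z n ^ a) atTop).mul (asycomp_bdd (hz.pow c))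
  simpa [pow_add] using this

theorem asycomp_lip {H : ℝ → ℝ} {a : ℝ} (hH : AnalyticAt ℝ H a) {x y : ℕ → ℝ}
    (hx : Tendsto x atTop (𝓝 a)) (hy : Tendsto y atTop (𝓝 a)) :
    (fun n => H (x n) - H (y n)) =O[atTop] fun n => x n - y n :=
  hH.hasStrictFDerivAt.isBigO_sub.comp_tendsto (hx.prodMk_nhds hy)

theorem asycomp_taylor {F : ℝ → ℝ} (hF : AnalyticAt ℝ F 0) {z : ℕ → ℝ}
    (hz : Tendsto z atTop (𝓝 0)) : ∃ c : ℕ → ℝ, c 0 = F 0 ∧
      (fun n => F (z n) - ∑ i ∈ Finset.range 7, c i * z n ^ i) =O[atTop] fun n => z n ^ 7 := by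
  obtain ⟨G, hG, h⟩ := hF.exists_eq_sum_add_pow_mul 7
  refine ⟨fun i => iteratedDeriv i F 0 / i.factorial, by simp, ?_⟩
  have h1 := (isBigO_refl (fun n => z n ^ 7) atTop).mul
    (asycomp_bdd (hG.continuousAt.tendsto.comp hz))
  refine (h1.congr_left fun n => ?_).congr_right fun n => mul_one _
  rw [h (z n), Finset.sum_congr rfl fun i _ => (by
    rw [smul_eq_mul]; ring : (z n ^ i / (i.factorial : ℝ)) • iteratedDeriv i F 0 =
      iteratedDeriv i F 0 / i.factorial * z n ^ i)]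
  simp

theorem asycomp_core (z L u : ℕ → ℝ) (l1 : ℝ) (e e' : ℕ → ℝ) (hz : Tendsto z atTop (𝓝 0))
    (hL : (fun n => z n * L n) =O[atTop] fun _ => (1 : ℝ))
    (hr : (fun n => u n - (1 + z n * ∑ i ∈ Finset.range 7, e i * z n ^ i)) =O[atTop]
      fun n => z n ^ 6) :
    Tendsto u atTop (𝓝 1) ∧
    (∃ c : ℕ → ℝ, c 0 = e' 0 ∧
      (fun n => ∑ i ∈ Finset.range 7, e' i * (z n * l1⁻¹ * (u n)⁻¹) ^ i
        - ∑ i ∈ Finset.range 7, c i * z n ^ i) =O[atTop] fun n => z n ^ 7) ∧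
    ((fun n => (z n * (u n)⁻¹) ^ 6 * (L n + Real.log l1 + Real.log (u n))
      - (z n ^ 6 * L n * (1 - 6 * e 0 * z n) + z n ^ 6 * Real.log l1)) =O[atTop]
        fun n => z n ^ 7) ∧
    ((fun n => (z n * (u n)⁻¹) ^ 7 * (L n + Real.log l1 + Real.log (u n))
      - z n ^ 7 * L n) =O[atTop] fun n => z n ^ 7) := by
  set E : ℝ → ℝ := fun t => ∑ i ∈ Finset.range 7, e i * t ^ i with hE
  set E' : ℝ → ℝ := fun t => ∑ i ∈ Finset.range 7, e' i * t ^ i with hE'
  have hEa : AnalyticAt ℝ E 0 := Finset.analyticAt_fun_sum _ fun i _ => by fun_prop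
  have hEa' : AnalyticAt ℝ E' 0 := Finset.analyticAt_fun_sum _ fun i _ => by fun_prop
  have hE0 : E 0 = e 0 := by simp [hE, Finset.sum_range_succ]
  have hE0' : E' 0 = e' 0 := by simp [hE', Finset.sum_range_succ]
  have hva : AnalyticAt ℝ (fun t => 1 + t * E t) 0 := by fun_prop
  have hv : Tendsto (fun n => 1 + z n * E (z n)) atTop (𝓝 1) := by
    simpa [Function.comp_def] using hva.continuousAt.tendsto.comp hz
  have hr0 : Tendsto (fun n => u n - (1 + z n * E (z n))) atTop (𝓝 0) :=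
    hr.trans_tendsto (by simpa using hz.pow 6)
  have hu : Tendsto u atTop (𝓝 1) := by simpa using hr0.add hv
  have hui : Tendsto (fun n => (u n)⁻¹) atTop (𝓝 1) := by simpa using hu.inv₀ one_ne_zero
  have h1 : (fun n => u n - 1 - e 0 * z n) =O[atTop] fun n => z n ^ 2 := by
    have h2 := (isBigO_refl z atTop).mul (asycomp_lip hEa hz tendsto_const_nhds)
    have h3 := (hr.trans (asycomp_pow hz (by norm_num : 2 ≤ 6))).add
      (h2.congr_right fun n => (by ring : z n * (z n - 0) = z n ^ 2))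
    refine h3.congr_left fun n => ?_
    rw [hE0]
    ring
  have h2 : (fun n => u n - 1) =O[atTop] z := by
    have h3 := (h1.trans (asycomp_pow hz (by norm_num : 1 ≤ 2))).congr_right fun n => pow_one _
    have h4 := h3.add ((isBigO_refl z atTop).const_mul_left (e 0))
    exact h4.congr_left fun n => by ring
  refine ⟨hu, ?_, ?_, ?_⟩
  · have hfa : AnalyticAt ℝ (fun t => t * l1⁻¹ * (1 + t * E t)⁻¹) 0 :=
      (analyticAt_id.mul analyticAt_const).mul (hva.inv (by simp))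
    have hF : AnalyticAt ℝ (fun t => E' (t * l1⁻¹ * (1 + t * E t)⁻¹)) 0 :=
      AnalyticAt.comp_of_eq (g := E') hEa' hfa (by simp)
    obtain ⟨c, hc0, hc⟩ := asycomp_taylor hF hz
    refine ⟨c, by simpa [hE0'] using hc0, ?_⟩
    have hw : Tendsto (fun n => z n * l1⁻¹ * (u n)⁻¹) atTop (𝓝 0) := by
      simpa using (hz.mul_const l1⁻¹).mul hui
    have hf : Tendsto (fun n => z n * l1⁻¹ * (1 + z n * E (z n))⁻¹) atTop (𝓝 0) := by
      simpa [Function.comp_def] using hfa.continuousAt.tendsto.comp hz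
    have h3 := asycomp_lip hEa' hw hf
    have h4 := (asycomp_lip (H := fun t => t⁻¹) (analyticAt_inv (by norm_num)) hu hv).trans hr
    have h5 := (((isBigO_refl z atTop).mul h4).const_mul_left l1⁻¹).congr_right
      fun n => (by ring : z n * z n ^ 6 = z n ^ 7)
    have h6 := (h3.trans (h5.congr_left fun n => by ring)).add hc
    exact h6.congr_left fun n => by ring
  · have hq : Tendsto (fun n => (6 * u n ^ 5 + 5 * u n ^ 4 + 4 * u n ^ 3 + 3 * u n ^ 2 + 2 * u n + 1)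
        * (u n)⁻¹ ^ 6) atTop (𝓝 _) :=
      (((((((hu.pow 5).const_mul 6).add ((hu.pow 4).const_mul 5)).add
        ((hu.pow 3).const_mul 4)).add ((hu.pow 2).const_mul 3)).add (hu.const_mul 2)).add_const
          1).mul (hui.pow 6)
    have h3 : (fun n => (u n)⁻¹ ^ 6 - 1 + 6 * (u n - 1)) =O[atTop] fun n => z n ^ 2 := by
      refine (((h2.pow 2).mul (asycomp_bdd hq)).congr_right fun n => mul_one _).congr' ?_
        EventuallyEq.rfl
      filter_upwards [hu.eventually_ne one_ne_zero] with n hn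
      field_simp
      ring
    have h4 : (fun n => (u n)⁻¹ ^ 6 - (1 - 6 * e 0 * z n)) =O[atTop] fun n => z n ^ 2 :=
      (h3.sub (h1.const_mul_left 6)).congr_left fun n => by ring
    have h5 := (((isBigO_refl (fun n => z n ^ 5) atTop).mul hL).mul h4).congr_right
      fun n => (by ring : z n ^ 5 * 1 * z n ^ 2 = z n ^ 7)
    have ha : AnalyticAt ℝ (fun t : ℝ => t⁻¹ ^ 6 * (Real.log l1 + Real.log t)) 1 :=
      ((analyticAt_inv (by norm_num)).pow 6).mul
        (analyticAt_const.add (analyticAt_log (by norm_num)))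
    have h6 := ((isBigO_refl (fun n => z n ^ 6) atTop).mul
      ((asycomp_lip ha hu tendsto_const_nhds).trans h2)).congr_right
        fun n => (by ring : z n ^ 6 * z n = z n ^ 7)
    refine (h5.add h6).congr_left fun n => ?_
    simp only [Real.log_one, inv_one]
    ring
  · have ha : AnalyticAt ℝ (fun t : ℝ => t⁻¹ ^ 7) 1 := (analyticAt_inv (by norm_num)).pow 7
    have h5 := (((isBigO_refl (fun n => z n ^ 6) atTop).mul hL).mul
      ((asycomp_lip ha hu tendsto_const_nhds).trans h2)).congr_right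
        fun n => (by ring : z n ^ 6 * 1 * z n = z n ^ 7)
    have hq := (hui.pow 7).mul ((hu.log one_ne_zero).const_add (Real.log l1))
    have h6 := ((isBigO_refl (fun n => z n ^ 7) atTop).mul (asycomp_bdd hq)).congr_right
      fun n => mul_one _
    refine (h5.add h6).congr_left fun n => ?_
    simp only [inv_one]
    ring

theorem asyCompS : AsyCompStmt := by
  rintro Ta Tb Tc l1 m1 k7 k8 l2 m2 j7 j8 hT hl ⟨e, rfl, A1⟩ ⟨e', rfl, A2⟩
  have hz : Tendsto (fun n => (Ta n)⁻¹) atTop (𝓝 0) := hT.inv_tendsto_atTop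
  have hpos : ∀ᶠ n in atTop, 0 < Ta n := hT.eventually_gt_atTop 0
  have hL : (fun n => (Ta n)⁻¹ * Real.log (Ta n)) =O[atTop] fun _ => (1 : ℝ) := by
    have h := (Real.isLittleO_log_id_atTop.tendsto_div_nhds_zero).comp hT
    exact (asycomp_bdd h).congr_left fun n => by simp [div_eq_inv_mul]
  unfold AsyP at A1 A2
  have hr : (fun n => Tb n * (Ta n)⁻¹ * l1⁻¹ -
      (1 + (Ta n)⁻¹ * ∑ i ∈ Finset.range 7, e i * (Ta n)⁻¹ ^ i)) =O[atTop]
      fun n => (Ta n)⁻¹ ^ 6 := by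
    have h1 := ((((isBigO_refl (fun n => (Ta n)⁻¹) atTop).mul A1).const_mul_left l1⁻¹).congr_right
      fun n => (by ring : (Ta n)⁻¹ * (Ta n)⁻¹ ^ 7 = (Ta n)⁻¹ ^ 8)).trans
        (asycomp_pow hz (by norm_num : 6 ≤ 8))
    have h2 := (((isBigO_refl (fun n => (Ta n)⁻¹ ^ 6) atTop).mul hL).mul
      (asycomp_bdd ((hz.const_mul k8).const_add k7))).congr_right
        fun n => (by ring : (Ta n)⁻¹ ^ 6 * 1 * 1 = (Ta n)⁻¹ ^ 6)
    refine (h1.add h2).congr' ?_ EventuallyEq.rfl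
    filter_upwards [hpos] with n hn
    generalize (∑ i ∈ Finset.range 7, e i * (Ta n)⁻¹ ^ i) = S
    field_simp
    ring
  obtain ⟨hu, ⟨c, hc0, A3⟩, A4, A5⟩ := asycomp_core (fun n => (Ta n)⁻¹) (fun n => Real.log (Ta n))
    (fun n => Tb n * (Ta n)⁻¹ * l1⁻¹) l1 e e' hz hL hr
  have hui : Tendsto (fun n => (Tb n * (Ta n)⁻¹ * l1⁻¹)⁻¹) atTop (𝓝 1) := by
    simpa only [inv_one] using hu.inv₀ one_ne_zero
  have hw : ∀ᶠ n in atTop, (Ta n)⁻¹ * l1⁻¹ * (Tb n * (Ta n)⁻¹ * l1⁻¹)⁻¹ = (Tb n)⁻¹ := by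
    filter_upwards [hpos] with n hn
    field_simp
  have hlog : ∀ᶠ n in atTop, Real.log (Ta n) + Real.log l1 + Real.log (Tb n * (Ta n)⁻¹ * l1⁻¹) =
      Real.log (Tb n) := by
    filter_upwards [hpos, hu.eventually_ne one_ne_zero] with n hn hn'
    rw [← Real.log_mul hn.ne' hl.ne', ← Real.log_mul (by positivity) hn']
    congr 1
    field_simp
  have hw7 : (fun n => (Tb n)⁻¹ ^ 7) =O[atTop] fun n => (Ta n)⁻¹ ^ 7 := by
    have h1 : (fun n => (Tb n)⁻¹) =O[atTop] fun n => (Ta n)⁻¹ := by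
      have h2 := (((isBigO_refl (fun n => (Ta n)⁻¹) atTop).mul
        (asycomp_bdd hui)).const_mul_left l1⁻¹).congr_right fun n => mul_one _
      refine h2.congr' ?_ EventuallyEq.rfl
      filter_upwards [hw] with n hn
      rw [← hn]
      ring
    exact h1.pow 7
  refine ⟨fun i => e i + c i / l1 + if i = 6 then j7 * Real.log l1 / l1 ^ 7 else 0,
    by simp [hc0], ?_⟩
  have h := ((((A2.trans hw7).add (A1.const_mul_left l2)).add (A3.const_mul_left l2)).add
    (A4.const_mul_left (l2 * j7 * l1⁻¹ ^ 6))).add (A5.const_mul_left (l2 * j8 * l1⁻¹ ^ 7))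
  refine h.congr' ?_ EventuallyEq.rfl
  filter_upwards [hw, hlog] with n h1 h2
  have h3 : (Ta n)⁻¹ * (Tb n * (Ta n)⁻¹ * l1⁻¹)⁻¹ = l1 * (Tb n)⁻¹ := by
    rw [← h1]
    generalize (Tb n * (Ta n)⁻¹ * l1⁻¹)⁻¹ = y
    field_simp
  rw [h1, h2, h3]
  generalize (∑ i ∈ Finset.range 7, e' i * (Tb n)⁻¹ ^ i) = S
  generalize (Tb n)⁻¹ = w
  generalize (Ta n)⁻¹ = z
  simp only [Finset.sum_range_succ, Finset.sum_range_zero]
  norm_num
  field_simp
  ring

end Pool.Agent.MP_c2f0e4_an
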