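import Pool.Agent.MP_c2f0e4_an.Iface

open Set Filter Topology Real Asymptotics

namespace Pool.Agent.MP_c2f0e4_an

lemma asyid_peel {ι : Type*} {l : Filter ι} [l.NeBot] (g : ℕ → ι → ℝ) (c : ℕ → ℝ) (m : ℕ)
    (ho : ∀ j < m, g (j + 1) =o[l] g j) (hne : ∀ j < m, ∀ᶠ n in l, g j n ≠ 0)
    (h : (fun n => ∑ j ∈ Finset.range m, c j * g j n) =O[l] g m) : ∀ j < m, c j = 0 := by
  induction m with
  | zero => exact fun j hj => absurd hj (Nat.not_lt_zero j)
  | succ m ih =>
    have h1 := h.trans_isLittleO (ho m m.lt_succ_self)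
    simp only [Finset.sum_range_succ] at h1
    have h2 := ih (fun j hj => ho j (hj.trans m.lt_succ_self))
      (fun j hj => hne j (hj.trans m.lt_succ_self))
      ((h1.isBigO.sub ((isBigO_refl (g m) l).const_mul_left (c m))).congr_left fun n =>
        add_sub_cancel_right _ _)
    intro j hj
    rcases Nat.lt_succ_iff_lt_or_eq.1 hj with hj | rfl
    · exact h2 j hj
    by_contra hc
    refine isLittleO_irrefl (hne j hj).frequently ((isLittleO_const_mul_left_iff hc).1
      (h1.congr_left fun n => ?_))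
    rw [Finset.sum_eq_zero fun i hi => by rw [h2 i (Finset.mem_range.1 hi), zero_mul], zero_add]

/-- The asymptotic scale. -/
noncomputable def asyidG : ℕ → ℝ → ℝ
  | 0 => fun t => t
  | 7 => fun t => t⁻¹ ^ 6 * Real.log t
  | 8 => fun t => t⁻¹ ^ 6
  | 9 => fun t => t⁻¹ ^ 7 * Real.log t
  | 10 => fun t => t⁻¹ ^ 7
  | j + 1 => fun t => t⁻¹ ^ j

lemma asyid_o (j : ℕ) (hj : j < 10) : asyidG (j + 1) =o[atTop] asyidG j := by
  have a : ∀ {f g u : ℝ → ℝ}, Tendsto u atTop (𝓝 0) → (∀ t, 1 < t → f t = u t * g t) →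
      f =o[atTop] g := fun hu h =>
    isLittleO_iff_exists_eq_mul.2 ⟨_, hu, (eventually_gt_atTop 1).mono h⟩
  have u1 : Tendsto (fun t : ℝ => t⁻¹) atTop (𝓝 0) := tendsto_inv_atTop_zero
  have u2 : Tendsto (fun t : ℝ => Real.log t / t) atTop (𝓝 0) :=
    Real.isLittleO_log_id_atTop.tendsto_div_nhds_zero
  have u3 : Tendsto (fun t : ℝ => (Real.log t)⁻¹) atTop (𝓝 0) :=
    tendsto_inv_atTop_zero.comp Real.tendsto_log_atTop
  have b : ∀ t : ℝ, 1 < t → ∀ x, x = (Real.log t)⁻¹ * (x * Real.log t) := fun t ht x => by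
    have := (Real.log_pos ht).ne'
    field_simp
  interval_cases j
  · exact a u1 fun t ht => by simp only [asyidG]; rw [pow_zero, inv_mul_cancel₀ (by linarith)]
  iterate 5 exact a u1 fun t _ => by simp only [asyidG]; ring
  · exact a u2 fun t _ => by simp only [asyidG]; ring
  · exact a u3 fun t ht => b t ht _
  · exact a u2 fun t _ => by simp only [asyidG]; ring
  · exact a u3 fun t ht => b t ht _

lemma asyid_ne (j : ℕ) (hj : j < 10) : ∀ᶠ t in atTop, asyidG j t ≠ 0 := by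
  filter_upwards [eventually_gt_atTop 1] with t ht
  have h1 := Real.log_pos ht
  have h2 : 0 < t := zero_lt_one.trans ht
  interval_cases j <;> simp only [asyidG] <;> positivity

theorem asyIdS : AsyIdStmt := by
  intro T lam e k7 k8 hT h
  have key := asyid_peel (l := atTop) (fun j n => asyidG j (T n))
    (fun j => match j with
      | 0 => 1 - lam
      | 7 => -(lam * k7)
      | 8 => -(lam * e 6)
      | 9 => -(lam * k8)
      | j + 1 => -(lam * e j)) 10
    (fun j hj => (asyid_o j hj).comp_tendsto hT) (fun j hj => hT.eventually (asyid_ne j hj))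
    (IsBigO.congr_left h fun n => by
      simp only [Finset.sum_range_succ, Finset.sum_range_zero, asyidG]
      ring)
  obtain rfl : lam = 1 := (sub_eq_zero.1 (key 0 (by norm_num))).symm
  refine ⟨rfl, fun i hi => ?_, by simpa using key 7 (by norm_num),
    by simpa using key 9 (by norm_num)⟩
  interval_cases i
  · simpa using key 1 (by norm_num)
  · simpa using key 2 (by norm_num)
  · simpa using key 3 (by norm_num)
  · simpa using key 4 (by norm_num)
  · simpa using key 5 (by norm_num)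
  · simpa using key 6 (by norm_num)
  · simpa using key 8 (by norm_num)

theorem asyBTrS : AsyBTrStmt := by
  intro Ta Tb l1 l2 c e hT hl h1 he h2
  have hz : Tendsto (fun n => (Ta n)⁻¹) atTop (𝓝 0) := tendsto_inv_atTop_zero.comp hT
  have hp : ∀ k : ℕ, (fun n => (Ta n)⁻¹ ^ (k + 1)) =O[atTop] fun n => (Ta n)⁻¹ := fun k => by
    simpa only [pow_succ, one_mul] using
      ((hz.pow k).isBigO_one ℝ).mul (isBigO_refl (fun n => (Ta n)⁻¹) atTop)
  have h3 : (fun n => Tb n - l1 * Ta n) =O[atTop] fun n => (Ta n)⁻¹ := by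
    refine ((h1.trans (hp 6)).add ((IsBigO.fun_sum (s := Finset.range 6) fun i _ =>
      (hp i).const_mul_left (e (i + 1))).const_mul_left l1)).congr_left fun n => ?_
    rw [Finset.sum_range_succ' _ 6, he]
    ring
  have h4 : Tendsto Tb atTop atTop :=
    ((hT.const_mul_atTop hl).atTop_add (h3.trans_tendsto hz)).congr fun n => by ring
  have h5 : (fun n => (Ta n)⁻¹ * (Tb n - l1 * Ta n)) =O[atTop] fun n => (Ta n)⁻¹ ^ 2 := by
    simpa only [pow_two] using (isBigO_refl (fun n => (Ta n)⁻¹) atTop).mul h3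
  have h6 : (fun n => (Tb n)⁻¹) =O[atTop] fun n => (Ta n)⁻¹ := by
    have e1 := ((h5.trans_tendsto (by simpa using hz.pow 2)).add_const l1).inv₀
      (by simpa using hl.ne')
    refine ((e1.isBigO_one ℝ).mul (isBigO_refl (fun n => (Ta n)⁻¹) atTop)).congr' ?_
      (Eventually.of_forall fun n => one_mul _)
    filter_upwards [hT.eventually_gt_atTop 0, h4.eventually_gt_atTop 0] with n ha hb
    rw [show (Ta n)⁻¹ * (Tb n - l1 * Ta n) + l1 = (Ta n)⁻¹ * Tb n by field_simp; ring]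
    field_simp
  have h7 : (fun n => (Tb n)⁻¹ - l1⁻¹ * (Ta n)⁻¹) =O[atTop] fun n => (Ta n)⁻¹ ^ 3 := by
    refine ((h5.mul h6).const_mul_left (-l1⁻¹)).congr' ?_ (Eventually.of_forall fun n => by ring)
    filter_upwards [hT.eventually_gt_atTop 0, h4.eventually_gt_atTop 0] with n ha hb
    field_simp
    ring
  have h8 : (fun n => ∑ i ∈ Finset.range 5, (Tb n)⁻¹ ^ i * (l1⁻¹ * (Ta n)⁻¹) ^ (5 - 1 - i))
      =O[atTop] fun n => (Ta n)⁻¹ ^ 4 := by
    refine IsBigO.fun_sum fun i hi => ((h6.pow i).mul (((isBigO_refl (fun n => (Ta n)⁻¹)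
      atTop).const_mul_left l1⁻¹).pow (5 - 1 - i))).congr_right fun n => ?_
    rw [← pow_add, show i + (5 - 1 - i) = 4 by have := Finset.mem_range.1 hi; omega]
  have h9 : (fun n => (Tb n)⁻¹ ^ 5 - (l1⁻¹ * (Ta n)⁻¹) ^ 5) =O[atTop] fun n => (Ta n)⁻¹ ^ 7 :=
    (h8.mul h7).congr (fun n => geom_sum₂_mul _ _ 5) fun n => by ring
  have h10 := (asyIdS Ta (l1 * l2) (fun i => e i + if i = 5 then c * l1⁻¹ ^ 6 else 0) 0 0 hT
    ((((h2.trans (h6.pow 7)).add (IsBigO.const_mul_left h1 l2)).add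
      (h9.const_mul_left (l2 * c))).congr_left fun n => ?_)).2.1 6 (by norm_num)
  · simpa using h10
  · obtain ⟨k, hk⟩ : ∃ k, k = l1⁻¹ := ⟨_, rfl⟩
    have hk' : l1 * k = 1 := by rw [hk, mul_inv_cancel₀ hl.ne']
    simp only [Finset.sum_range_succ, Finset.sum_range_zero, ← hk]
    generalize (Ta n)⁻¹ = z
    generalize (Tb n)⁻¹ = w
    norm_num
    linear_combination l2 * c * k ^ 5 * z ^ 5 * hk'

theorem asyScaleS : AsyScaleStmt := by
  intro Ya Yb μ ν lam e k7 k8 hT hμ hν h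
  have h1 : (fun n => (μ * Ya n)⁻¹ ^ 7) =O[atTop] fun n => (Ya n)⁻¹ ^ 7 :=
    ((isBigO_refl (fun n => (Ya n)⁻¹ ^ 7) atTop).const_mul_left (μ⁻¹ ^ 7)).congr_left fun n => by
      rw [mul_inv, mul_pow]
  refine (((IsBigO.trans h h1).const_mul_left ν⁻¹).add ((isBigO_refl (fun n => (Ya n)⁻¹ ^ 7)
    atTop).const_mul_left (lam / ν * k8 * Real.log μ / μ ^ 7))).congr' ?_ EventuallyEq.rfl
  filter_upwards [hT.eventually_gt_atTop 0] with n hn
  rw [Real.log_mul hμ.ne' hn.ne']
  obtain ⟨z, hz⟩ : ∃ z, z = (Ya n)⁻¹ := ⟨_, rfl⟩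
  simp only [Finset.sum_range_succ, Finset.sum_range_zero, mul_inv, ← hz]
  norm_num
  field_simp
  ring

end Pool.Agent.MP_c2f0e4_an
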