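import Pool.Agent.MP_c2f0e4_an.Iface

open Set Filter Topology Real Asymptotics

namespace Pool.Agent.MP_c2f0e4_an

theorem bb_cont {ν : ℝ} (hν : 1 ≤ ν) (g : C(unitInterval, ℝ)) :
    Continuous fun ρ : unitInterval =>
      ∫ r in (0 : ℝ)..1, r ^ (ν - 1) * g (projIcc 0 1 zero_le_one (ρ * r)) := by
  refine intervalIntegral.continuous_parametric_intervalIntegral_of_continuous'
    (f := fun (ρ : unitInterval) (r : ℝ) => r ^ (ν - 1) * g (projIcc 0 1 zero_le_one (ρ * r))) ?_ 0 1
  refine ((Real.continuous_rpow_const (by linarith)).comp continuous_snd).mul ?_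
  exact g.continuous.comp (continuous_projIcc.comp
    ((continuous_subtype_val.comp continuous_fst).mul continuous_snd))

theorem bb_integrable {ν : ℝ} (hν : 1 ≤ ν) (g : C(unitInterval, ℝ)) (ρ : ℝ) :
    IntervalIntegrable (fun r : ℝ => r ^ (ν - 1) * g (projIcc 0 1 zero_le_one (ρ * r)))
      MeasureTheory.volume 0 1 :=
  ((Real.continuous_rpow_const (by linarith)).mul (g.continuous.comp (continuous_projIcc.comp
    (continuous_const.mul continuous_id)))).intervalIntegrable _ _

/-- the averaging operator, as a linear map -/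
noncomputable def bbL {ν : ℝ} (hν : 1 ≤ ν) : C(unitInterval, ℝ) →ₗ[ℝ] C(unitInterval, ℝ) where
  toFun g := ⟨_, bb_cont hν g⟩
  map_add' g h := by
    ext ρ
    simp only [ContinuousMap.coe_mk, ContinuousMap.add_apply, mul_add]
    exact intervalIntegral.integral_add (bb_integrable hν g ρ) (bb_integrable hν h ρ)
  map_smul' a g := by
    ext ρ
    simp only [ContinuousMap.coe_mk, ContinuousMap.smul_apply, smul_eq_mul, RingHom.id_apply]
    rw [← intervalIntegral.integral_const_mul]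
    congr 1
    funext r
    ring

/-- the averaging operator -/
noncomputable def bbK {ν : ℝ} (hν : 1 ≤ ν) : C(unitInterval, ℝ) →L[ℝ] C(unitInterval, ℝ) :=
  (bbL hν).mkContinuous 1 fun g => by
    rw [one_mul]
    refine (ContinuousMap.norm_le _ (norm_nonneg g)).2 fun ρ => ?_
    have h := intervalIntegral.norm_integral_le_of_norm_le_const (a := 0) (b := 1) (C := ‖g‖)
      (f := fun r : ℝ => r ^ (ν - 1) * g (projIcc 0 1 zero_le_one (ρ * r))) fun r hr => by
        rw [uIoc_of_le zero_le_one] at hr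
        rw [norm_mul, Real.norm_of_nonneg (Real.rpow_nonneg hr.1.le _)]
        exact (mul_le_of_le_one_left (norm_nonneg _)
          (Real.rpow_le_one hr.1.le hr.2 (by linarith))).trans (g.norm_coe_le_norm _)
    rw [sub_zero, abs_one, mul_one] at h
    exact h

theorem bbK_eq {ν : ℝ} (hν : 1 ≤ ν) (g : C(unitInterval, ℝ)) (ρ : unitInterval) (ψ : ℝ → ℝ)
    (h : ∀ x : unitInterval, g x = ψ x) :
    bbK hν g ρ = ∫ r in (0 : ℝ)..1, r ^ (ν - 1) * ψ (ρ * r) := by
  change ∫ r in (0 : ℝ)..1, r ^ (ν - 1) * g (projIcc 0 1 zero_le_one (ρ * r)) = _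
  refine intervalIntegral.integral_congr fun r hr => ?_
  rw [uIcc_of_le zero_le_one] at hr
  have h1 : (ρ : ℝ) * r ∈ Icc (0 : ℝ) 1 :=
    ⟨mul_nonneg ρ.2.1 hr.1, mul_le_one₀ ρ.2.2 hr.1 hr.2⟩
  simp only [h, projIcc_of_mem _ h1]

theorem bb_ftc {ν : ℝ} (hν : 1 ≤ ν) (w ψ : ℝ → ℝ) (hw : ContinuousOn w (Icc 0 1))
    (hψ : ContinuousOn ψ (Icc 0 1))
    (hd : ∀ r ∈ Ioo (0 : ℝ) 1, ∃ d, HasDerivAt w d r ∧ r * d + ν * w r = ψ r) :
    ∫ r in (0 : ℝ)..1, r ^ (ν - 1) * ψ r = w 1 := by
  have h := intervalIntegral.integral_eq_sub_of_hasDerivAt_of_le (f := fun r : ℝ => r ^ ν * w r)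
    (f' := fun r : ℝ => r ^ (ν - 1) * ψ r) zero_le_one
    ((Real.continuous_rpow_const (by linarith)).continuousOn.mul hw) (fun r hr => by
      obtain ⟨d, h1, h2⟩ := hd r hr
      have h3 := (Real.hasDerivAt_rpow_const (x := r) (p := ν) (Or.inr hν)).mul h1
      have h4 : r ^ ν = r ^ (ν - 1) * r := by
        rw [← Real.rpow_add_one hr.1.ne', sub_add_cancel]
      refine h3.congr_deriv ?_
      rw [← h2, h4]; ring)
    (ContinuousOn.intervalIntegrable_of_Icc zero_le_one
      ((Real.continuous_rpow_const (by linarith)).continuousOn.mul hψ))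
  rw [h, Real.one_rpow, Real.zero_rpow (by linarith), one_mul, zero_mul, sub_zero]

/-- from the integral equation to the differential equation -/
theorem bb_ode {ν : ℝ} (hν : 1 ≤ ν) (Y φ : ℝ → ℝ) (hY : AnalyticAt ℝ Y 0) (hφ : AnalyticAt ℝ φ 0)
    (h : ∀ᶠ t in 𝓝 (0 : ℝ), Y t = ∫ r in (0 : ℝ)..1, r ^ (ν - 1) * φ (t * r)) :
    ∀ᶠ t in 𝓝 (0 : ℝ), t * deriv Y t + ν * Y t = φ t := by
  have hf : AnalyticAt ℝ (fun t => t * deriv Y t + ν * Y t) 0 :=
    (analyticAt_id.mul hY.deriv).add (analyticAt_const.mul hY)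
  refine (hf.frequently_eq_iff_eventually_eq hφ).1 ?_
  obtain ⟨δ, hδ, hb⟩ := Metric.eventually_nhds_iff.1
    (h.and (hY.eventually_analyticAt.and hφ.eventually_analyticAt))
  have hb' : ∀ t, 0 ≤ t → t < δ → (Y t = ∫ r in (0 : ℝ)..1, r ^ (ν - 1) * φ (t * r)) ∧
      AnalyticAt ℝ Y t ∧ AnalyticAt ℝ φ t := fun t h0 h1 =>
    hb (by rwa [Real.dist_eq, sub_zero, abs_of_nonneg h0])
  have hc := Real.continuous_rpow_const (show 0 ≤ ν - 1 by linarith)
  have key : ∀ t ∈ Ioo 0 δ, t * deriv Y t + ν * Y t = φ t := by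
    intro t ht
    have h4 : ∀ x : ℝ, 0 < x → x ^ ν = x ^ (ν - 1) * x := fun x hx => by
      rw [← Real.rpow_add_one hx.ne', sub_add_cancel]
    have e : (fun x : ℝ => x ^ ν * Y x) =ᶠ[𝓝 t] fun x => ∫ s in (0 : ℝ)..x, s ^ (ν - 1) * φ s := by
      filter_upwards [Ioo_mem_nhds ht.1 ht.2] with x hx
      have h5 := intervalIntegral.smul_integral_comp_mul_left (a := 0) (b := 1)
        (fun s : ℝ => s ^ (ν - 1) * φ s) x
      rw [mul_zero, mul_one] at h5
      rw [← h5, (hb' x hx.1.le hx.2).1, smul_eq_mul, h4 x hx.1, mul_comm _ x, mul_assoc,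
        ← intervalIntegral.integral_const_mul]
      congr 1
      refine intervalIntegral.integral_congr fun r hr => ?_
      rw [uIcc_of_le zero_le_one] at hr
      simp only [Real.mul_rpow hx.1.le hr.1, mul_assoc]
    have hca : ∀ s ∈ Ioo 0 δ, ContinuousAt (fun s : ℝ => s ^ (ν - 1) * φ s) s := fun s hs =>
      hc.continuousAt.mul (hb' s hs.1.le hs.2).2.2.continuousAt
    have d1 := intervalIntegral.integral_hasDerivAt_right (a := 0) (b := t)
      (f := fun s : ℝ => s ^ (ν - 1) * φ s)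
      (ContinuousOn.intervalIntegrable_of_Icc ht.1.le fun s hs =>
        (hc.continuousAt.mul (hb' s hs.1 (hs.2.trans_lt ht.2)).2.2.continuousAt).continuousWithinAt)
      (ContinuousAt.stronglyMeasurableAtFilter isOpen_Ioo hca t ht) (hca t ht)
    have d2 := (Real.hasDerivAt_rpow_const (x := t) (p := ν) (Or.inr hν)).mul
      (hb' t ht.1.le ht.2).2.1.differentiableAt.hasDerivAt
    have d3 := (d1.congr_of_eventuallyEq e).unique d2
    refine mul_left_cancel₀ (Real.rpow_pos_of_pos ht.1 (ν - 1)).ne' ?_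
    rw [d3, h4 t ht.1]; ring
  have h6 : ∀ᶠ t in 𝓝[>] (0 : ℝ), t * deriv Y t + ν * Y t = φ t := by
    filter_upwards [Ioo_mem_nhdsGT hδ] with t ht using key t ht
  exact h6.frequently.filter_mono (nhdsWithin_mono _ fun x hx => ne_of_gt hx)

/-- the linear substitution -/
noncomputable def bbl : (ℝ × ℝ) →L[ℝ] C(unitInterval, ℝ × ℝ) :=
  (ContinuousLinearMap.fst ℝ ℝ ℝ).smulRight
    ⟨fun ρ : unitInterval => ((ρ : ℝ), (0 : ℝ)), continuous_subtype_val.prodMk continuous_const⟩

theorem bbl_apply (p : ℝ × ℝ) (ρ : unitInterval) : (bbl p ρ).1 = p.1 * ρ := rfl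

theorem bb_abs_le (t : ℝ) {r : ℝ} (hr : r ∈ Icc (0 : ℝ) 1) : |t * r| ≤ |t| := by
  rw [abs_mul, abs_of_nonneg hr.1]
  exact mul_le_of_le_one_right (abs_nonneg _) hr.2

theorem bbS (hFP : FPStmt) : BBStmt := by
  intro Ψ ν y0 hν hΨ h0 hd
  have hG : AnalyticAt ℝ (fun e : (ℝ × ℝ) × ℝ => Ψ (e.1.1, e.2)) (0, y0) :=
    AnalyticAt.comp (g := Ψ) (f := fun e : (ℝ × ℝ) × ℝ => (e.1.1, e.2)) hΨ
      ((analyticAt_fst.comp analyticAt_fst).prod analyticAt_snd)
  obtain ⟨Z, hZ, hZ0, hfix, η, hη, huniq⟩ := hFP (bbK hν) bbl 0 0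
    (fun e : (ℝ × ℝ) × ℝ => Ψ (e.1.1, e.2)) y0 hG hd (by
      ext ρ
      rw [zero_add, bbK_eq hν _ ρ (fun _ => Ψ (0, y0)) fun _ => rfl]
      exact bb_ftc hν (fun _ => y0) (fun _ => Ψ (0, y0)) continuousOn_const continuousOn_const
        fun r _ => ⟨0, hasDerivAt_const _ _, by rw [h0]; ring⟩)
  have hι : AnalyticAt ℝ (fun t : ℝ => ((t, 0) : ℝ × ℝ)) 0 := analyticAt_id.prod analyticAt_const
  have hιt : Tendsto (fun t : ℝ => ((t, 0) : ℝ × ℝ)) (𝓝 0) (𝓝 0) := hι.continuousAt
  have hZι : AnalyticAt ℝ (fun t : ℝ => Z (t, 0)) 0 :=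
    AnalyticAt.comp (g := Z) (f := fun t : ℝ => ((t, 0) : ℝ × ℝ)) hZ hι
  have hY : AnalyticAt ℝ (fun t : ℝ => Z (t, 0) 1) 0 :=
    AnalyticAt.comp (g := ContinuousMap.evalCLM ℝ (1 : unitInterval))
      (f := fun t : ℝ => Z (t, 0)) (ContinuousLinearMap.analyticAt _ _) hZι
  have hY0 : Z (0, 0) 1 = y0 := by
    change Z 0 1 = y0
    rw [hZ0]; rfl
  have hn : ∀ s : ℝ, ‖((s, 0) : ℝ × ℝ)‖ = |s| := fun s => by
    rw [Prod.norm_def, norm_zero, Real.norm_eq_abs, max_eq_left (abs_nonneg _)]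
  refine ⟨fun t => Z (t, 0) 1, hY, hY0, ?_, fun y hy hode => ?_⟩
  · have hφ : AnalyticAt ℝ (fun t : ℝ => Ψ (t, Z (t, 0) 1)) 0 :=
      AnalyticAt.comp (g := Ψ) (f := fun t : ℝ => (t, Z (t, 0) 1)) (by rwa [hY0])
        (analyticAt_id.prod hY)
    refine bb_ode hν _ _ hY hφ ?_
    have h1 : ∀ᶠ t in 𝓝 (0 : ℝ), ‖Z (t, 0) - ContinuousMap.const unitInterval y0‖ < η := by
      have h2 : Tendsto (fun t : ℝ => Z (t, 0)) (𝓝 0) (𝓝 (ContinuousMap.const unitInterval y0)) := by
        rw [← hZ0]; exact hZι.continuousAt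
      simpa only [dist_eq_norm] using Metric.tendsto_nhds.1 h2 η hη
    have h3 : ∀ᶠ t in 𝓝 (0 : ℝ), |t| < η := by
      simpa only [Real.dist_eq, sub_zero] using Metric.eventually_nhds_iff.2
        ⟨η, hη, fun (t : ℝ) (h : dist t 0 < η) => h⟩
    filter_upwards [hιt.eventually hfix, h1, h3] with t ⟨g, hg, hz⟩ ht1 ht3
    rw [_root_.zero_apply, add_zero, zero_add] at hz
    have hsc : ∀ a : unitInterval, Z (t, 0) a = Z (t * a, 0) 1 := by
      intro a
      let m : C(unitInterval, unitInterval) := ⟨fun ρ => a * ρ, continuous_const.mul continuous_id⟩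
      have h4 := huniq (t * a, 0) ((Z (t, 0)).comp m) (g.comp m)
        (by rw [hn]; exact (bb_abs_le t a.2).trans_lt ht3)
        (by
          refine lt_of_le_of_lt ((ContinuousMap.norm_le _ (norm_nonneg _)).2 fun ρ => ?_) ht1
          exact (Z (t, 0) - ContinuousMap.const unitInterval y0).norm_coe_le_norm (a * ρ))
        (fun ρ => by
          change g (a * ρ) = Ψ (t * a * ρ, Z (t, 0) (a * ρ))
          rw [hg, bbl_apply, mul_assoc]; rfl)
        (by
          rw [_root_.zero_apply, add_zero, zero_add]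
          ext ρ
          rw [bbK_eq hν _ ρ (fun x => g (projIcc 0 1 zero_le_one (a * x))) fun x => by
            change g (a * x) = g (projIcc 0 1 zero_le_one ((a * x : unitInterval) : ℝ))
            rw [projIcc_val]]
          change Z (t, 0) (a * ρ) = _
          rw [hz]
          change ∫ r in (0 : ℝ)..1,
            r ^ (ν - 1) * g (projIcc 0 1 zero_le_one ((a : ℝ) * (ρ : ℝ) * r)) = _
          simp only [mul_assoc])
      rw [← h4]
      change _ = Z (t, 0) (a * 1)
      rw [mul_one]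
    have h5 := bbK_eq hν g 1 (fun x => Ψ (t * x, Z (t * x, 0) 1)) fun x => by
      rw [hg, bbl_apply, hsc]
    rw [← hz] at h5
    simpa only [Icc.coe_one, one_mul] using h5
  · classical
    have hu : ContinuousAt (Function.update y 0 y0) 0 := continuousAt_update_same.2 hy
    have hu0 : Function.update y 0 y0 0 = y0 := Function.update_self ..
    have hp : Tendsto (fun s : ℝ => (s, Function.update y 0 y0 s)) (𝓝 0) (𝓝 (0, y0)) := by
      have := continuousAt_id.prodMk hu
      rw [ContinuousAt] at this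
      simpa only [id, hu0] using this
    have h1 : ∀ᶠ s in 𝓝 (0 : ℝ), |Function.update y 0 y0 s - y0| < η / 2 := by
      have h2 := Metric.tendsto_nhds.1 hu (η / 2) (half_pos hη)
      simpa only [Real.dist_eq, hu0] using h2
    obtain ⟨δ, hδ, hb⟩ := Metric.eventually_nhds_iff.1 ((eventually_nhdsWithin_iff.1 hode).and
      (h1.and (hp.eventually hΨ.eventually_analyticAt)))
    simp only [Real.dist_eq, sub_zero, mem_compl_iff, mem_singleton_iff] at hb
    have hdu : ∀ s, |s| < δ → s ≠ 0 → ∃ y', HasDerivAt (Function.update y 0 y0) y' s ∧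
        s * y' + ν * Function.update y 0 y0 s = Ψ (s, Function.update y 0 y0 s) := by
      intro s h3 h4
      obtain ⟨y', h5, h6⟩ := (hb h3).1 h4
      refine ⟨y', h5.congr_of_eventuallyEq ?_, by rwa [Function.update_of_ne h4]⟩
      filter_upwards [isOpen_ne.mem_nhds h4] with x hx using Function.update_of_ne hx _ _
    have hcu : ∀ s, |s| < δ → ContinuousAt (Function.update y 0 y0) s := by
      intro s h3
      by_cases h4 : s = 0
      · rwa [h4]
      · obtain ⟨y', h5, -⟩ := hdu s h3 h4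
        exact h5.continuousAt
    have hcΨ : ∀ s, |s| < δ → ContinuousAt (fun s => Ψ (s, Function.update y 0 y0 s)) s :=
      fun s h3 => ContinuousAt.comp (g := Ψ) (f := fun s => (s, Function.update y 0 y0 s))
        (hb h3).2.2.continuousAt (continuousAt_id.prodMk (hcu s h3))
    have hcomp : ∀ (f : ℝ → ℝ), (∀ s, |s| < δ → ContinuousAt f s) → ∀ s, |s| < δ →
        ContinuousOn (fun r => f (s * r)) (Icc 0 1) := fun f hf s hs r hr =>
      (ContinuousAt.comp (g := f) (f := fun r => s * r) (hf _ ((bb_abs_le s hr).trans_lt hs))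
        (continuous_const.mul continuous_id).continuousAt).continuousWithinAt
    have hint : ∀ s, |s| < δ → ∫ r in (0 : ℝ)..1,
        r ^ (ν - 1) * Ψ (s * r, Function.update y 0 y0 (s * r)) = Function.update y 0 y0 s := by
      intro s hs
      have h3 := bb_ftc hν (fun r => Function.update y 0 y0 (s * r))
        (fun r => Ψ (s * r, Function.update y 0 y0 (s * r))) (hcomp _ hcu s hs) (hcomp _ hcΨ s hs)
        fun r hr => by
          by_cases h4 : s = 0
          · refine ⟨0, ?_, ?_⟩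
            · simp only [h4, zero_mul]; exact hasDerivAt_const _ _
            · simp only [h4, zero_mul, hu0, h0]; ring
          · obtain ⟨y', h5, h6⟩ := hdu (s * r) ((bb_abs_le s (Ioo_subset_Icc_self hr)).trans_lt hs)
              (mul_ne_zero h4 hr.1.ne')
            refine ⟨y' * s, ?_, by rw [← h6]; ring⟩
            have h7 := HasDerivAt.comp r h5 ((hasDerivAt_id r).const_mul s)
            rw [mul_one] at h7
            exact h7
      rwa [mul_one] at h3
    have h3 : ∀ᶠ t in 𝓝 (0 : ℝ), |t| < min δ η := by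
      simpa only [Real.dist_eq, sub_zero] using Metric.eventually_nhds_iff.2
        ⟨min δ η, lt_min hδ hη, fun (t : ℝ) (h : dist t 0 < min δ η) => h⟩
    filter_upwards [mem_nhdsWithin_of_mem_nhds h3, self_mem_nhdsWithin] with t ht ht0
    have ht1 : |t| < δ := lt_of_lt_of_le ht (min_le_left _ _)
    have ht2 : |t| < η := lt_of_lt_of_le ht (min_le_right _ _)
    have h4 := huniq (t, 0)
      ⟨fun ρ => Function.update y 0 y0 (t * ρ), (hcomp _ hcu t ht1).domRestrict⟩
      ⟨fun ρ => Ψ (t * ρ, Function.update y 0 y0 (t * ρ)), (hcomp _ hcΨ t ht1).domRestrict⟩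
      (by rwa [hn])
      (by
        refine lt_of_le_of_lt ((ContinuousMap.norm_le _ (half_pos hη).le).2 fun ρ => ?_)
          (half_lt_self hη)
        exact (hb ((bb_abs_le t ρ.2).trans_lt ht1)).2.1.le)
      (fun ρ => rfl)
      (by
        rw [_root_.zero_apply, add_zero, zero_add]
        ext ρ
        rw [bbK_eq hν _ ρ (fun x => Ψ (t * x, Function.update y 0 y0 (t * x))) fun x => rfl]
        simp only [← mul_assoc]
        exact (hint _ ((bb_abs_le t ρ.2).trans_lt ht1)).symm)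
    rw [← h4]
    change y t = Function.update y 0 y0 (t * 1)
    rw [mul_one, Function.update_of_ne ht0]

end Pool.Agent.MP_c2f0e4_an
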