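import Pool.Agent.MP_c2f0e4_an.Iface

open Set Filter Topology Real Asymptotics

namespace Pool.Agent.MP_c2f0e4_an

lemma boot_int {f f' : ℝ → ℝ} {n : ℕ} (hf : ∀ x, HasDerivAt f (f' x) x) (h0 : f 0 = 0)
    (h : f' =O[𝓝 0] fun t : ℝ => t ^ n) : f =O[𝓝 0] fun t : ℝ => t ^ (n + 1) := by
  obtain ⟨c, hc, h⟩ := h.exists_pos
  obtain ⟨δ, hδ, h⟩ := Metric.eventually_nhds_iff.1 h.bound
  refine IsBigO.of_bound c ?_
  filter_upwards [Metric.ball_mem_nhds 0 hδ] with x hx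
  have := (convex_closedBall (0 : ℝ) ‖x‖).norm_image_sub_le_of_norm_hasDerivWithin_le
    (C := c * ‖x‖ ^ n) (fun y _ => (hf y).hasDerivWithinAt) (fun y hy => by
      rw [mem_closedBall_zero_iff] at hy
      refine (h (y := y) ?_).trans ?_
      · rw [dist_zero_right]; exact hy.trans_lt (mem_ball_zero_iff.1 hx)
      · rw [norm_pow]; gcongr)
    (Metric.mem_closedBall_self (norm_nonneg x)) (mem_closedBall_zero_iff.2 le_rfl)
  rw [h0, sub_zero, sub_zero] at this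
  rwa [norm_pow, pow_succ, ← mul_assoc]

lemma boot_pow {a b : ℕ} (h : b ≤ a) : (fun t : ℝ => t ^ a) =O[𝓝 0] fun t : ℝ => t ^ b := by
  refine IsBigO.of_bound 1 ?_
  filter_upwards [Metric.closedBall_mem_nhds 0 one_pos] with t ht
  rw [one_mul, norm_pow, norm_pow]
  exact pow_le_pow_of_le_one (norm_nonneg t) (mem_closedBall_zero_iff.1 ht) h

lemma boot_root {v : ℝ → ℝ} {p q : ℕ} (hpq : q * 3 ≤ p * 2)
    (h : (fun t => v t ^ 3) =O[𝓝 0] fun t : ℝ => t ^ p) :
    (fun t => v t ^ 2) =O[𝓝 0] fun t : ℝ => t ^ q := by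
  refine IsBigO.of_pow (n := 3) (by norm_num) ?_
  refine ((h.pow 2).congr (fun t => ?_) fun t => (pow_mul t p 2).symm).trans
    ((boot_pow hpq).congr_right fun t => pow_mul t q 3)
  simp only [Pi.pow_apply]; ring

lemma boot_G {A : ℝ → ℝ} (hA : AnalyticAt ℝ A 0) (h0 : A 0 = 0) :
    ∃ G : ℝ → ℝ, AnalyticAt ℝ G 0 ∧ G 0 = deriv A 0 ∧ ∀ x, A x = x * G x := by
  obtain ⟨p, hp⟩ := hA
  refine ⟨dslope A 0, hp.has_fpower_series_dslope_fslope.analyticAt, dslope_same _ _, fun x => ?_⟩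
  simpa [h0] using (sub_smul_dslope A 0 x).symm

lemma boot_cube : Tendsto (fun t : ℝ => t ^ 3) (𝓝 0) (𝓝 0) :=
  (continuous_pow 3).tendsto' 0 0 (by norm_num)

lemma boot_der {A B V : ℝ → ℝ} (h : Sol A B V) (t : ℝ) : HasDerivAt (fun t => V (t ^ 3) ^ 3)
    (-9 * (t ^ 2 * (A (t ^ 3) + B (t ^ 3) * V (t ^ 3) ^ 2))) t := by
  have h1 := (h.2 (t ^ 3)).comp t (hasDerivAt_pow 3 t)
  refine HasDerivAt.congr_deriv (f' := _) h1 ?_
  norm_num; ring

theorem bootS : BootStmt := by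
  intro A B V hA hB hV hA0 hV0
  obtain ⟨G, hG, hG0, hAG⟩ := boot_G (hA 0) hA0
  have hb : (fun t : ℝ => B (t ^ 3)) =O[𝓝 0] fun _ => (1 : ℝ) :=
    ((hB.tendsto 0).comp boot_cube).isBigO_one ℝ
  have hg : (fun t : ℝ => G (t ^ 3)) =O[𝓝 0] fun _ => (1 : ℝ) :=
    (hG.continuousAt.tendsto.comp boot_cube).isBigO_one ℝ
  have ha : (fun t : ℝ => A (t ^ 3)) =O[𝓝 0] fun t : ℝ => t ^ 3 :=
    ((isBigO_refl (fun t : ℝ => t ^ 3) _).mul hg).congr (fun t => (hAG _).symm) fun t => mul_one _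
  have step : ∀ q ≤ 3, ((fun t : ℝ => V (t ^ 3) ^ 2) =O[𝓝 0] fun t : ℝ => t ^ q) →
      (fun t : ℝ => V (t ^ 3) ^ 3) =O[𝓝 0] fun t : ℝ => t ^ (2 + q + 1) := fun q hq h =>
    boot_int (boot_der hV) (by simp [hV0]) ((((isBigO_refl (fun t : ℝ => t ^ 2) _).mul
      ((ha.trans (boot_pow hq)).add ((hb.mul h).congr_right fun t => one_mul _))).const_mul_left
        _).congr_right fun t => (pow_add t 2 q).symm)
  have h0 : (fun t : ℝ => V (t ^ 3) ^ 2) =O[𝓝 0] fun t : ℝ => t ^ 0 :=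
    ((((hV.1.tendsto 0).comp boot_cube).pow 2).isBigO_one ℝ).congr_right fun t => (pow_zero t).symm
  have h4 : (fun t : ℝ => V (t ^ 3) ^ 2) =O[𝓝 0] fun t : ℝ => t ^ 4 :=
    boot_root (by norm_num) (step 3 le_rfl (boot_root (by norm_num) (step 2 (by norm_num)
      (boot_root (by norm_num) (step 0 (by norm_num) h0)))))
  have h6 : (fun t : ℝ => t ^ 3 * (G (t ^ 3) - G 0)) =O[𝓝 0] fun t : ℝ => t ^ 4 :=
    (((isBigO_refl (fun t : ℝ => t ^ 3) _).mul
      (hG.differentiableAt.isBigO_sub.comp_tendsto boot_cube)).congr_right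
        (g₂ := fun t : ℝ => t ^ 6) fun t => by simp only [Function.comp]; ring).trans
      (boot_pow (by norm_num))
  refine boot_int (f' := fun t => -9 * (t ^ 2 * (t ^ 3 * (G (t ^ 3) - G 0) +
    B (t ^ 3) * V (t ^ 3) ^ 2))) (fun t => ((boot_der hV t).add
      ((hasDerivAt_pow 6 t).const_mul _)).congr_deriv ?_) (by simp [hV0]) ?_
  · rw [hAG, hG0]; norm_num; ring
  · exact (((isBigO_refl (fun t : ℝ => t ^ 2) _).mul
      (h6.add ((hb.mul h4).congr_right fun t => one_mul _))).const_mul_left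
        _).congr_right fun t => (pow_add t 2 4).symm

theorem signS : SignStmt := by
  intro A B V hA hB hV z hz ha
  have h1 := bootS (fun x => A (x + z)) (fun x => B (x + z)) (fun x => V (x + z))
    (by simpa using hA.affine 1 z 1) (hB.comp (by fun_prop)) (hV.shift z) (by simpa using hz.1)
    (by simpa using hz.2)
  rw [deriv_comp_add_const, zero_add] at h1
  have h2 := (h1.trans_isLittleO (isLittleO_pow_pow (by norm_num : 6 < 7))).bound (abs_pos.2 ha)
  have h3 : Tendsto (fun x => cb (x - z)) (𝓝 z) (𝓝 0) :=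
    (cb_continuous.comp (continuous_sub_right z)).tendsto' z 0 (by simp [cb_zero])
  filter_upwards [nhdsWithin_le_nhds (h3.eventually h2), self_mem_nhdsWithin] with x hx hxz
  have h4 : 0 < cb (x - z) ^ 6 :=
    Even.pow_pos (by decide) fun h => hxz (sub_eq_zero.1 (cb_eq_zero.1 h))
  rw [cb_pow, sub_add_cancel, Real.norm_eq_abs, Real.norm_of_nonneg h4.le] at hx
  have h5 : deriv A z * V x ^ 3 < 0 := by
    have h6 := (le_abs_self _).trans ((abs_mul (deriv A z) _).le.trans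
      (mul_le_mul_of_nonneg_left hx (abs_nonneg (deriv A z))))
    rw [← mul_assoc, abs_mul_abs_self] at h6
    nlinarith [mul_pos (mul_self_pos.2 ha) h4]
  by_contra h
  have := mul_nonneg (not_lt.1 h) (sq_nonneg (V x))
  nlinarith

theorem cuspWS (hBB : BBStmt) : CuspWStmt := by
  intro ε A B V hε hA hB hV hA0 ha hV0
  obtain ⟨G, hG, hG0, hAG⟩ := boot_G (hA 0) hA0
  have hε0 : ε ≠ 0 := by rcases hε with h | h <;> simp [h]
  have hε3 : cb ε = ε := cb_eq_iff.2 (by rcases hε with h | h <;> norm_num [h])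
  have h3 : AnalyticAt ℝ (fun p : ℝ × ℝ => p.1 ^ 3) (0, ε) := analyticAt_fst.pow 3
  have hΨ : AnalyticAt ℝ (fun p : ℝ × ℝ => -9 * (G (p.1 ^ 3) + p.1 * B (p.1 ^ 3) * cb p.2 ^ 2))
      (0, ε) :=
    analyticAt_const.mul ((hG.comp_of_eq h3 (by simp)).add ((analyticAt_fst.mul
      ((hB 0).comp_of_eq h3 (by simp))).mul
        (((cb_analyticAt hε0).comp_of_eq analyticAt_snd rfl).pow 2)))
  obtain ⟨Y, hY, hY0, -, hu⟩ := hBB _ 6 ε (by norm_num) hΨ
    (by simp only [hG0, ha, ne_eq, OfNat.ofNat_ne_zero, not_false_eq_true, zero_pow]; ring)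
    (by simpa using hasDerivAt_const ε _)
  have hcb : ∀ t : ℝ, t ≠ 0 → cb (V (t ^ 3) ^ 3 / t ^ 6) = V (t ^ 3) / t ^ 2 := fun t _ =>
    cb_eq_iff.2 (by ring)
  have h1 := ((bootS A B V hA hB.continuous hV hA0 hV0).trans_isLittleO
    (isLittleO_pow_pow (by norm_num : 6 < 7))).tendsto_div_nhds_zero
  have h2 := hu (fun t => V (t ^ 3) ^ 3 / t ^ 6) (by
    have := (h1.mono_left (nhdsWithin_le_nhds (s := {0}ᶜ))).add_const ε
    rw [zero_add] at this
    refine this.congr' ?_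
    filter_upwards [self_mem_nhdsWithin] with t ht
    have ht' : t ≠ 0 := ht
    rw [ha]; field_simp; ring) (by
    filter_upwards [self_mem_nhdsWithin] with t ht
    have ht' : t ≠ 0 := ht
    refine ⟨_, (boot_der hV t).div (hasDerivAt_pow 6 t) (pow_ne_zero 6 ht'), ?_⟩
    simp only [hcb t ht', hAG (t ^ 3)]
    norm_num
    field_simp
    ring)
  refine ⟨fun t => cb (Y t), (cb_analyticAt hε0).comp_of_eq hY hY0, by simp only [hY0, hε3], ?_⟩
  filter_upwards [eventually_nhdsWithin_iff.1 h2] with t ht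
  by_cases h : t = 0
  · simp [h, hV0]
  · rw [← ht h, hcb t h]; field_simp

end Pool.Agent.MP_c2f0e4_an
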