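import Pool.Agent.MP_c2f0e4_an.Iface

open Set Filter Topology Real Asymptotics

namespace Pool.Agent.MP_c2f0e4_an

theorem c123_id (T : ℕ → ℝ) : Asy T T 1 0 0 0 :=
  ⟨fun _ => 0, rfl, by
    unfold AsyP
    simp only [zero_mul, Finset.sum_const_zero, add_zero, one_mul, sub_self]
    exact isBigO_zero _ _⟩

/-- composition with a cusp and a regular transit -/
theorem c123_step (hC : AsyCompStmt) {T0 T1 T2 T3 : ℕ → ℝ} {L S K7 K8 lam g l c : ℝ} {e : ℕ → ℝ}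
    (hT : Tendsto T0 atTop atTop) (hL : 0 < L) (hlam : 0 < lam) (h1 : Asy T0 T1 L S K7 K8)
    (h2 : AsyP T1 T2 lam e (-5 * g * e 0 ^ 7) (15 * g * e 0 ^ 8))
    (h3 : AsyP T2 T3 l (fun i => if i = 5 then c else 0) 0 0) :
    Asy T0 T3 (L * lam * l) (S + e 0 / L) (K7 - 5 * g * (e 0 / L) ^ 7)
      (K8 + 15 * g * (e 0 / L) ^ 8 + 30 * S * g * (e 0 / L) ^ 7) := by
  have h4 := hC _ _ _ _ _ _ _ _ _ _ _ hT hL h1 ⟨e, rfl, h2⟩
  have h5 := hC _ _ _ _ _ _ _ _ 0 _ _ hT (mul_pos hL hlam) h4 ⟨_, by simp, h3⟩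
  have e1 : S + e 0 / L + 0 / (L * lam) = S + e 0 / L := by ring
  have e2 : K7 + -5 * g * e 0 ^ 7 / L ^ 7 + 0 / (L * lam) ^ 7 = K7 - 5 * g * (e 0 / L) ^ 7 := by
    ring
  have e3 : K8 + 15 * g * e 0 ^ 8 / L ^ 8 - 6 * S * (-5 * g * e 0 ^ 7) / L ^ 7 + 0 / (L * lam) ^ 8 -
      6 * (S + e 0 / L) * 0 / (L * lam) ^ 7 =
      K8 + 15 * g * (e 0 / L) ^ 8 + 30 * S * g * (e 0 / L) ^ 7 := by ring
  rwa [e1, e2, e3] at h5

theorem c123_fin (hI : AsyIdStmt) {T : ℕ → ℝ} {L S K7 K8 : ℝ} (hT : Tendsto T atTop atTop)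
    (h : Asy T T L S K7 K8) : S = 0 ∧ K7 = 0 ∧ K8 = 0 := by
  obtain ⟨e, he, h1⟩ := h
  obtain ⟨-, h2, h3, h4⟩ := hI T L e K7 K8 hT h1
  exact ⟨he ▸ h2 0 (by norm_num), h3, h4⟩

theorem c123_alg {m1 m2 m3 k1 k2 k3 : ℝ} (h0 : m1 + m2 + m3 = 0)
    (h1 : k1 * m1 + k2 * m2 + k3 * m3 = 0)
    (h2 : k1 * m1 ^ 2 + k2 * (m2 ^ 2 + 2 * m1 * m2) + k3 * (m3 ^ 2 + 2 * (m1 + m2) * m3) = 0) :
    (m1 ≠ 0 → m2 ≠ 0 → k1 = k2) ∧ (m1 ≠ 0 → m3 ≠ 0 → k1 = k3) ∧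
      (m2 ≠ 0 → m3 ≠ 0 → k2 = k3) := by
  have h3 : m3 = -(m1 + m2) := by linarith
  subst h3
  have h4 : m1 ≠ 0 → m2 ≠ 0 → k1 = k2 := fun a b =>
    mul_left_cancel₀ (mul_ne_zero a b) (by linear_combination (m1 + m2) * h1 - h2)
  refine ⟨h4, fun a c => ?_, fun b c => ?_⟩
  · by_cases b : m2 = 0
    · subst b
      exact mul_left_cancel₀ a (by linear_combination h1)
    · have h5 := h4 a b
      subst h5
      exact mul_left_cancel₀ c (by linear_combination -h1)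
  · by_cases a : m1 = 0
    · subst a
      exact mul_left_cancel₀ b (by linear_combination h1)
    · have h5 := h4 a b
      subst h5
      exact mul_left_cancel₀ c (by linear_combination -h1)

theorem c1S (hCusp : CuspStmt) (hTr : TrStmt) (hAsyComp : AsyCompStmt) (hAsyId : AsyIdStmt) (hAsyBTr : AsyBTrStmt) : C1Stmt := by
  intro A B V U z hA hB hT h1 hper hz
  obtain ⟨ε, hε, hεz⟩ : ∃ ε : ℝ, (ε = 1 ∨ ε = -1) ∧ ε * deriv A z < 0 := by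
    rcases lt_or_gt_of_ne hz with h | h
    · exact ⟨1, Or.inl rfl, by linarith⟩
    · exact ⟨-1, Or.inr rfl, by linarith⟩
  have hε0 : ε ≠ 0 := by rcases hε with h | h <;> rw [h] <;> norm_num
  obtain ⟨C, hC, hc⟩ := hCusp ε hε
  obtain ⟨a, b, a1, a2, b1, b2, va, vb, lam, w, e, hlam, hw, he, hP, hfin⟩ :=
    hc A B V U z hA hB hT.toTop0 h1.1 hεz π pi_pos
  obtain ⟨⟨l, c, hl, hQ⟩, -⟩ := hTr A B V U b (a + 2 * π) hA hB hT.toTop0 (by linarith)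
    (fun x hx hx1 hx2 => h1.2 x ⟨by linarith [hx.1], by linarith [hx.2]⟩ ⟨hx1, hx2⟩) vb
    (by rwa [hT.perV])
  rw [hT.Yv_per] at hQ
  have hY := hT.toTop0.Yv_tendsto a
  have h2 := (c123_fin hAsyId hY (c123_step hAsyComp hY one_pos hlam (c123_id _) hP hQ)).1
  rw [zero_add, div_one] at h2
  have hBz : B z = 0 := by
    rw [h2] at he
    exact (mul_eq_zero.1 he.symm).resolve_left (mul_ne_zero (neg_ne_zero.2 hε0) hw.ne')
  refine ⟨hBz, hfin hBz (hAsyBTr _ _ lam l c e hY hlam ?_ h2 hQ)⟩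
  rw [h2] at hP
  simpa using hP

theorem c2S (hCusp : CuspStmt) (hTr : TrStmt) (hAsyComp : AsyCompStmt) (hAsyId : AsyIdStmt) : C2Stmt := by
  intro A B V U z1 z2 hA hB hT hper ⟨h12, h21, t1, t2, d1, d2, hu⟩
  obtain ⟨η, hη, g1, g2⟩ : ∃ η : ℝ, 0 < η ∧ 2 * η ≤ z2 - z1 ∧ 2 * η ≤ z1 + 2 * π - z2 :=
    ⟨min (z2 - z1) (z1 + 2 * π - z2) / 2, half_pos (lt_min (by linarith) (by linarith)),
      by linarith [min_le_left (z2 - z1) (z1 + 2 * π - z2)],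
      by linarith [min_le_right (z2 - z1) (z1 + 2 * π - z2)]⟩
  obtain ⟨C, hC, hc⟩ := hCusp 1 (Or.inl rfl)
  obtain ⟨a1, b1, p1, q1, r1, s1, va1, vb1, lam1, w1, e1, hlam1, hw1, he1, hP1, -⟩ :=
    hc A B V U z1 hA hB hT.toTop0 t1 (by linarith) η hη
  obtain ⟨a2, b2, p2, q2, r2, s2, va2, vb2, lam2, w2, e2, hlam2, hw2, he2, hP2, -⟩ :=
    hc A B V U z2 hA hB hT.toTop0 t2 (by linarith) η hη
  obtain ⟨⟨l1, c1, hl1, hQ1⟩, -⟩ := hTr A B V U b1 a2 hA hB hT.toTop0 (by linarith)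
    (fun x hx hx1 hx2 => by
      have := hu x ⟨by linarith [hx.1], by linarith [hx.2]⟩ ⟨hx1, hx2⟩
      linarith [hx.2]) vb1 va2
  obtain ⟨⟨l2, c2, hl2, hQ2⟩, -⟩ := hTr A B V U b2 (a1 + 2 * π) hA hB hT.toTop0 (by linarith)
    (fun x hx hx1 hx2 => by
      have := hu x ⟨by linarith [hx.1], by linarith [hx.2]⟩ ⟨hx1, hx2⟩
      linarith [hx.1]) vb2 (by rwa [hT.perV])
  rw [hT.Yv_per] at hQ2
  have hY := hT.toTop0.Yv_tendsto a1
  have hL : 0 < 1 * lam1 * l1 := by positivity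
  obtain ⟨h1, h2, -⟩ := c123_fin hAsyId hY (c123_step hAsyComp hY hL hlam2
    (c123_step hAsyComp hY one_pos hlam1 (c123_id _) hP1 hQ1) hP2 hQ2)
  have m1 : e1 0 / 1 = -(w1 * B z1) := by rw [he1]; ring
  have m2 : e2 0 / (1 * lam1 * l1) = -(w2 / (1 * lam1 * l1) * B z2) := by rw [he2]; ring
  rw [m1, m2] at h1 h2
  refine ⟨w1, _, hw1, div_pos hw2 hL, by linarith, fun hb => ?_⟩
  have h3 : w2 / (1 * lam1 * l1) * B z2 = -(w1 * B z1) := by linarith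
  rw [h3] at h2
  exact mul_left_cancel₀ (mul_ne_zero hC (pow_ne_zero 7 (mul_ne_zero hw1.ne' hb)))
    (by linear_combination h2 / 5)

theorem c3S (hCusp : CuspStmt) (hTr : TrStmt) (hAsyComp : AsyCompStmt) (hAsyId : AsyIdStmt) : C3Stmt := by
  intro A B V U z1 z2 z3 hA hB hT hper ⟨h12, h23, h31, t1, t2, t3, d1, d2, d3, hu⟩
  obtain ⟨η, hη, g1, g2, g3⟩ : ∃ η : ℝ, 0 < η ∧ 2 * η ≤ z2 - z1 ∧ 2 * η ≤ z3 - z2 ∧
      2 * η ≤ z1 + 2 * π - z3 :=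
    ⟨min (min (z2 - z1) (z3 - z2)) (z1 + 2 * π - z3) / 2,
      half_pos (lt_min (lt_min (by linarith) (by linarith)) (by linarith)),
      by linarith [min_le_left (min (z2 - z1) (z3 - z2)) (z1 + 2 * π - z3),
        min_le_left (z2 - z1) (z3 - z2)],
      by linarith [min_le_left (min (z2 - z1) (z3 - z2)) (z1 + 2 * π - z3),
        min_le_right (z2 - z1) (z3 - z2)],
      by linarith [min_le_right (min (z2 - z1) (z3 - z2)) (z1 + 2 * π - z3)]⟩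
  obtain ⟨C, hC, hc⟩ := hCusp 1 (Or.inl rfl)
  obtain ⟨a1, b1, p1, q1, r1, s1, va1, vb1, lam1, w1, e1, hlam1, hw1, he1, hP1, -⟩ :=
    hc A B V U z1 hA hB hT.toTop0 t1 (by linarith) η hη
  obtain ⟨a2, b2, p2, q2, r2, s2, va2, vb2, lam2, w2, e2, hlam2, hw2, he2, hP2, -⟩ :=
    hc A B V U z2 hA hB hT.toTop0 t2 (by linarith) η hη
  obtain ⟨a3, b3, p3, q3, r3, s3, va3, vb3, lam3, w3, e3, hlam3, hw3, he3, hP3, -⟩ :=
    hc A B V U z3 hA hB hT.toTop0 t3 (by linarith) η hη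
  obtain ⟨⟨l1, c1, hl1, hQ1⟩, -⟩ := hTr A B V U b1 a2 hA hB hT.toTop0 (by linarith)
    (fun x hx hx1 hx2 => by
      rcases hu x ⟨by linarith [hx.1], by linarith [hx.2]⟩ ⟨hx1, hx2⟩ with h | h <;>
        linarith [hx.2]) vb1 va2
  obtain ⟨⟨l2, c2, hl2, hQ2⟩, -⟩ := hTr A B V U b2 a3 hA hB hT.toTop0 (by linarith)
    (fun x hx hx1 hx2 => by
      rcases hu x ⟨by linarith [hx.1], by linarith [hx.2]⟩ ⟨hx1, hx2⟩ with h | h <;>
        linarith [hx.1, hx.2]) vb2 va3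
  obtain ⟨⟨l3, c3, hl3, hQ3⟩, -⟩ := hTr A B V U b3 (a1 + 2 * π) hA hB hT.toTop0 (by linarith)
    (fun x hx hx1 hx2 => by
      rcases hu x ⟨by linarith [hx.1], by linarith [hx.2]⟩ ⟨hx1, hx2⟩ with h | h <;>
        linarith [hx.1]) vb3 (by rwa [hT.perV])
  rw [hT.Yv_per] at hQ3
  have hY := hT.toTop0.Yv_tendsto a1
  have hL : 0 < 1 * lam1 * l1 := by positivity
  have hL' : 0 < 1 * lam1 * l1 * lam2 * l2 := by positivity
  obtain ⟨h1, h2, h3⟩ := c123_fin hAsyId hY (c123_step hAsyComp hY hL' hlam3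
    (c123_step hAsyComp hY hL hlam2
      (c123_step hAsyComp hY one_pos hlam1 (c123_id _) hP1 hQ1) hP2 hQ2) hP3 hQ3)
  have m1 : e1 0 / 1 = -(w1 * B z1) := by rw [he1]; ring
  have m2 : e2 0 / (1 * lam1 * l1) = -(w2 / (1 * lam1 * l1) * B z2) := by rw [he2]; ring
  have m3 : e3 0 / (1 * lam1 * l1 * lam2 * l2) = -(w3 / (1 * lam1 * l1 * lam2 * l2) * B z3) := by
    rw [he3]; ring
  rw [m1, m2, m3] at h1 h2 h3
  have hw2' := div_pos hw2 hL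
  have hw3' := div_pos hw3 hL'
  generalize w2 / (1 * lam1 * l1) = v2 at h1 h2 h3 hw2'
  generalize w3 / (1 * lam1 * l1 * lam2 * l2) = v3 at h1 h2 h3 hw3'
  obtain ⟨k1, k2, k3⟩ := c123_alg (m1 := w1 * B z1) (m2 := v2 * B z2) (m3 := v3 * B z3)
    (k1 := gam A B z1 * (w1 * B z1) ^ 6) (k2 := gam A B z2 * (v2 * B z2) ^ 6)
    (k3 := gam A B z3 * (v3 * B z3) ^ 6) (by linarith)
    (mul_left_cancel₀ hC (by linear_combination h2 / 5))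
    (mul_left_cancel₀ hC (by linear_combination h3 / 15))
  exact ⟨w1, v2, v3, hw1, hw2', hw3', by linarith,
    fun a b => k1 (mul_ne_zero hw1.ne' a) (mul_ne_zero hw2'.ne' b),
    fun a b => k2 (mul_ne_zero hw1.ne' a) (mul_ne_zero hw3'.ne' b),
    fun a b => k3 (mul_ne_zero hw2'.ne' a) (mul_ne_zero hw3'.ne' b)⟩

end Pool.Agent.MP_c2f0e4_an
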