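import Pool.Agent.MP_c2f0e4_an.Iface

open Set Filter Topology Real Asymptotics

namespace Pool.Agent.MP_c2f0e4_an

lemma chi_den_pos {x c s : ℝ} (hs : s = 1 ∨ s = -1) (hc : c ^ 3 = x ^ 3 + s) :
    0 < x ^ 2 + x * c + c ^ 2 := by
  by_contra h
  have h1 : x = 0 := by nlinarith [sq_nonneg (x + c), sq_nonneg x, sq_nonneg c]
  have h2 : c = 0 := by nlinarith [sq_nonneg (x + c), sq_nonneg x, sq_nonneg c]
  rw [h1, h2] at hc
  rcases hs with rfl | rfl <;> norm_num at hc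

lemma chi_alg {x c s : ℝ} (hs : s = 1 ∨ s = -1) (hc : c ^ 3 = x ^ 3 + s) (hx : 4 ≤ x) :
    |x * (x + c) / (x ^ 2 + x * c + c ^ 2) - 2 / 3| * x ^ 3 ≤ 4 ∧
      |x ^ 3 * (x * (x + c) / (x ^ 2 + x * c + c ^ 2) - 2 / 3) - -s / 9| * x ^ 3 ≤ 4 := by
  have hN := chi_den_pos hs hc
  have hx0 : 0 < x := by linarith
  have hx3 : 64 ≤ x ^ 3 := by
    have := pow_le_pow_left₀ (by norm_num : (0 : ℝ) ≤ 4) hx 3
    linarith
  have hs1 : -1 ≤ s ∧ s ≤ 1 := by rcases hs with rfl | rfl <;> norm_num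
  have hs2 : s * s = 1 := by rcases hs with rfl | rfl <;> norm_num
  have habs : |s| = 1 := by rcases hs with rfl | rfl <;> norm_num
  have hc0 : 0 ≤ c := cube_le.1 (by rw [hc]; linarith [hs1.1])
  have hc2 : c ≤ 2 * x := cube_le.1 (by rw [hc, mul_pow]; linarith [hs1.2])
  set N := x ^ 2 + x * c + c ^ 2 with hNdef
  have hNx : x ^ 2 ≤ N := by rw [hNdef]; nlinarith [mul_nonneg hx0.le hc0, sq_nonneg c]
  have hd : c - x = s / N := by
    rw [eq_div_iff hN.ne', hNdef]; linarith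
  have h1 : x * (x + c) / N - 2 / 3 = -s * ((x + 2 * c) / (3 * N ^ 2)) := by
    have : x * (x + c) / N - 2 / 3 = -(c - x) * (x + 2 * c) / (3 * N) := by
      field_simp
      rw [hNdef]; ring
    rw [this, hd]; field_simp
  have h2 : x ^ 3 * (-s * ((x + 2 * c) / (3 * N ^ 2))) - -s / 9 =
      (c ^ 3 + 3 * c ^ 2 * x + 6 * c * x ^ 2 + 2 * x ^ 3) / (9 * N ^ 3) := by
    have : x ^ 3 * (-s * ((x + 2 * c) / (3 * N ^ 2))) - -s / 9 =
        s * ((c - x) * (c ^ 3 + 3 * c ^ 2 * x + 6 * c * x ^ 2 + 2 * x ^ 3)) / (9 * N ^ 2) := by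
      field_simp
      rw [hNdef]; ring
    rw [this, hd]
    field_simp
    rw [sq, hs2]
  rw [h1, h2]
  constructor
  · rw [abs_mul, abs_neg, habs, one_mul, abs_of_nonneg (by positivity), div_mul_eq_mul_div,
      div_le_iff₀ (by positivity)]
    have h3 : (x ^ 2) ^ 2 ≤ N ^ 2 := pow_le_pow_left₀ (by positivity) hNx 2
    have h4 : (x + 2 * c) * x ^ 3 ≤ 5 * x * x ^ 3 :=
      mul_le_mul_of_nonneg_right (by linarith) (by positivity)
    have h5 : 0 ≤ x ^ 4 := by positivity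
    nlinarith
  · rw [abs_of_nonneg (by positivity), div_mul_eq_mul_div, div_le_iff₀ (by positivity)]
    have h3 : (x ^ 2) ^ 3 ≤ N ^ 3 := pow_le_pow_left₀ (by positivity) hNx 3
    have h4 : c ^ 3 ≤ (2 * x) ^ 3 := pow_le_pow_left₀ hc0 hc2 3
    have h5 : c ^ 2 * x ≤ (2 * x) ^ 2 * x :=
      mul_le_mul_of_nonneg_right (pow_le_pow_left₀ hc0 hc2 2) hx0.le
    have h6 : c * x ^ 2 ≤ 2 * x * x ^ 2 := mul_le_mul_of_nonneg_right hc2 (by positivity)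
    have h7 : (c ^ 3 + 3 * c ^ 2 * x + 6 * c * x ^ 2 + 2 * x ^ 3) * x ^ 3 ≤ 34 * x ^ 3 * x ^ 3 :=
      mul_le_mul_of_nonneg_right (by nlinarith) (by positivity)
    have h8 : 0 ≤ x ^ 6 := by positivity
    nlinarith

lemma chi_cube (s ρ : ℝ) : cb (ρ ^ 6 + s) ^ 3 = (ρ ^ 2) ^ 3 + s := by rw [cb_pow]; ring

lemma chi_eq (s ρ : ℝ) : chi s ρ = ρ ^ 2 * (ρ ^ 2 + cb (ρ ^ 6 + s)) /
    ((ρ ^ 2) ^ 2 + ρ ^ 2 * cb (ρ ^ 6 + s) + cb (ρ ^ 6 + s) ^ 2) - 2 / 3 := by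
  rw [chi, ← pow_mul]

lemma chi_cont {s : ℝ} (hs : s = 1 ∨ s = -1) : Continuous (chi s) := by
  have h1 : Continuous fun ρ : ℝ => cb (ρ ^ 6 + s) := cb_continuous.comp (by fun_prop)
  rw [show chi s = _ from funext (chi_eq s)]
  refine Continuous.sub (Continuous.div (by fun_prop) (by fun_prop) fun ρ => ?_) continuous_const
  exact (chi_den_pos hs (chi_cube s ρ)).ne'

lemma chi_bd {f : ℝ → ℝ} (hf : Continuous f) (h : ∀ ρ, 2 ≤ |ρ| → |f ρ| * ρ ^ 6 ≤ 4) :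
    ∃ C : ℝ, ∀ ρ, |f ρ| * (1 + |ρ|) ^ 6 ≤ C := by
  obtain ⟨C, hC⟩ := (isCompact_Icc (a := (-2 : ℝ)) (b := 2)).exists_bound_of_continuousOn
    (f := fun ρ => |f ρ| * (1 + |ρ|) ^ 6) (by fun_prop)
  refine ⟨max C 256, fun ρ => ?_⟩
  rcases le_total |ρ| 2 with h1 | h1
  · exact ((le_abs_self _).trans (hC ρ (abs_le.1 h1))).trans (le_max_left _ _)
  · refine le_trans ?_ (le_max_right _ _)
    have h2 : (1 + |ρ|) ^ 6 ≤ (2 * |ρ|) ^ 6 := pow_le_pow_left₀ (by positivity) (by linarith) 6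
    rw [mul_pow, Even.pow_abs (by decide)] at h2
    have h3 := mul_le_mul_of_nonneg_left h2 (abs_nonneg (f ρ))
    have h4 := h ρ h1
    nlinarith

theorem chiS : ChiStmt := by
  intro s hs
  have hc := chi_cont hs
  have key : ∀ ρ : ℝ, 2 ≤ |ρ| →
      |chi s ρ| * ρ ^ 6 ≤ 4 ∧ |ρ ^ 6 * chi s ρ - -s / 9| * ρ ^ 6 ≤ 4 := by
    intro ρ hρ
    have h1 : 4 ≤ ρ ^ 2 := by
      rw [← sq_abs]; nlinarith
    have h2 := chi_alg hs (chi_cube s ρ) h1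
    rw [← chi_eq, ← pow_mul] at h2
    exact h2
  refine ⟨hc, fun ρ => ?_, ?_⟩
  · simp only [chi, Even.neg_pow (show Even 2 by decide), Even.neg_pow (show Even 4 by decide),
      Even.neg_pow (show Even 6 by decide)]
  · obtain ⟨C1, h1⟩ := chi_bd hc fun ρ hρ => (key ρ hρ).1
    obtain ⟨C2, h2⟩ := chi_bd (f := fun ρ => ρ ^ 6 * chi s ρ - -s / 9) (by fun_prop)
      fun ρ hρ => (key ρ hρ).2
    exact ⟨max C1 C2, fun ρ => ⟨(h1 ρ).trans (le_max_left _ _), (h2 ρ).trans (le_max_right _ _)⟩⟩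

end Pool.Agent.MP_c2f0e4_an
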