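import Pool.Agent.MP_c2f0e4_an.Iface

open Set Filter Topology Real Asymptotics

namespace Pool.Agent.MP_c2f0e4_an

open MeasureTheory in
lemma chiint_int {f : ℝ → ℝ} (hf : Continuous f) (C : ℝ) (h : ∀ r, |f r| * (1 + |r|) ^ 6 ≤ C) :
    Integrable f := by
  refine (integrable_inv_one_add_sq.const_mul C).mono' hf.aestronglyMeasurable
    (Eventually.of_forall fun r => ?_)
  have h1 : 1 + r ^ 2 ≤ (1 + |r|) ^ 6 := by
    have h2 := abs_nonneg r
    calc 1 + r ^ 2 ≤ (1 + |r|) ^ 2 := by rw [← sq_abs r]; nlinarith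
      _ ≤ (1 + |r|) ^ 6 := pow_le_pow_right₀ (by linarith) (by norm_num)
  rw [Real.norm_eq_abs, ← div_eq_mul_inv, le_div_iff₀ (by positivity)]
  exact (mul_le_mul_of_nonneg_left h1 (abs_nonneg _)).trans (h r)

open MeasureTheory in
lemma chiint_bound {f : ℝ → ℝ} (hf : Integrable f) (he : ∀ r, f (-r) = f r) (a A B C : ℝ)
    (h0 : 0 ≤ a) (ha : a ≤ 1) (h1 : ∀ r ∈ Icc 0 a, f r ≤ A) (h2 : ∀ r ∈ Icc a 1, f r ≤ B)
    (h3 : ∀ r, 1 < r → f r * r ^ 6 ≤ C) : ∫ r, f r ≤ 2 * (a * A + (1 - a) * B + C / 5) := by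
  have e0 : ∫ r, f r = 2 * ∫ r in Ioi (0 : ℝ), f r := by
    rw [← integral_comp_abs]
    refine integral_congr_ae (Eventually.of_forall fun r => ?_)
    rcases abs_choice r with h | h <;> simp only [h, he]
  have e1 := intervalIntegral.integral_interval_add_Ioi (a := 0) (b := 1) (μ := volume)
    hf.integrableOn hf.integrableOn
  have e2 := intervalIntegral.integral_add_adjacent_intervals (a := 0) (b := a) (c := 1)
    hf.intervalIntegrable hf.intervalIntegrable
  have e3 := intervalIntegral.integral_mono_on h0 hf.intervalIntegrable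
    intervalIntegrable_const h1
  have e4 := intervalIntegral.integral_mono_on ha hf.intervalIntegrable
    intervalIntegrable_const h2
  have e5 : ∫ r in Ioi (1 : ℝ), f r ≤ ∫ r in Ioi (1 : ℝ), C * r ^ (-6 : ℝ) := by
    refine setIntegral_mono_on hf.integrableOn
      ((integrableOn_Ioi_rpow_of_lt (by norm_num) one_pos).const_mul C) measurableSet_Ioi
      fun r hr => ?_
    have hr0 : 0 < r := one_pos.trans hr
    rw [Real.rpow_neg hr0.le, ← div_eq_mul_inv, le_div_iff₀ (by positivity),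
      show (6 : ℝ) = ((6 : ℕ) : ℝ) by norm_num, Real.rpow_natCast]
    exact h3 r hr
  rw [integral_const_mul, integral_Ioi_rpow_of_lt (by norm_num) one_pos, Real.one_rpow] at e5
  simp only [intervalIntegral.integral_const, smul_eq_mul] at e3 e4
  linarith

lemma chiint_N {R c : ℝ} (h : c ^ 3 ≠ R ^ 3) : 0 < R ^ 2 + R * c + c ^ 2 := by
  rcases eq_or_ne c 0 with rfl | hc
  · have : R ≠ 0 := by rintro rfl; exact h rfl
    have := sq_pos_of_ne_zero this
    linarith
  · have := sq_pos_of_ne_zero hc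
    nlinarith [sq_nonneg (R + c / 2)]

lemma chiint_form (s r : ℝ) : ∃ R c : ℝ, R = r ^ 2 ∧ c ^ 3 = R ^ 3 + s ∧ r ^ 6 = R ^ 3 ∧
    chi s r = R * (R + c) / (R ^ 2 + R * c + c ^ 2) - 2 / 3 := by
  refine ⟨r ^ 2, cb (r ^ 6 + s), rfl, by rw [cb_pow]; ring, by ring, ?_⟩
  rw [chi, show (r ^ 2) ^ 2 = r ^ 4 by ring]

lemma chiint_one (r : ℝ) : chi 1 r < 0 ∧ 0 < r ^ 6 * chi 1 r - -1 / 9 := by
  obtain ⟨R, c, hR, hc, h6, e⟩ := chiint_form 1 r
  have hR0 : 0 ≤ R := by rw [hR]; positivity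
  have hN := chiint_N (R := R) (c := c) (by linarith)
  have h1 : R < c := cube_lt.1 (by linarith)
  have h2 : 0 < c - R := by linarith
  have h3 : 0 < c := by linarith
  rw [h6, e]
  constructor
  · rw [sub_neg, div_lt_iff₀ hN]
    nlinarith
  · have e1 : R ^ 3 * (R * (R + c) / (R ^ 2 + R * c + c ^ 2) - 2 / 3) - -(c ^ 3 - R ^ 3) / 9 =
        (c - R) ^ 2 * (c ^ 3 + 3 * c ^ 2 * R + 6 * c * R ^ 2 + 2 * R ^ 3) /
          (9 * (R ^ 2 + R * c + c ^ 2)) := by
      field_simp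
      ring
    rw [show c ^ 3 - R ^ 3 = 1 by linarith] at e1
    rw [e1]
    positivity

lemma chiint_a {r : ℝ} (hr : r ∈ Icc (0 : ℝ) (89 / 100)) : chi (-1) r ≤ -2 / 3 := by
  obtain ⟨R, c, hR, hc, h6, e⟩ := chiint_form (-1) r
  have hR0 : 0 ≤ R := by rw [hR]; positivity
  have hN := chiint_N (R := R) (c := c) (by linarith)
  have h1 : r ^ 6 ≤ (89 / 100) ^ 6 := pow_le_pow_left₀ hr.1 hr.2 6
  have h2 : c ≤ -R := cube_le.1 (by nlinarith)
  have h3 : R * (R + c) / (R ^ 2 + R * c + c ^ 2) ≤ 0 :=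
    div_nonpos_of_nonpos_of_nonneg (by nlinarith) hN.le
  linarith

lemma chiint_b (r : ℝ) : chi (-1) r ≤ 1 / 3 := by
  obtain ⟨R, c, hR, hc, h6, e⟩ := chiint_form (-1) r
  have hN := chiint_N (R := R) (c := c) (by linarith)
  have h3 : R * (R + c) / (R ^ 2 + R * c + c ^ 2) ≤ 1 := by
    rw [div_le_one hN]; nlinarith
  linarith

lemma chiint_c {r : ℝ} (hr : 1 < r) :
    chi (-1) r * r ^ 6 ≤ 1 / 3 ∧ (r ^ 6 * chi (-1) r - - -1 / 9) * r ^ 6 ≤ 2 / 9 := by
  obtain ⟨R, c, hR, hc, h6, e⟩ := chiint_form (-1) r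
  have hR0 : 0 ≤ R := by rw [hR]; positivity
  have hN := chiint_N (R := R) (c := c) (by linarith)
  have h1 : 1 ≤ r ^ 6 := one_le_pow₀ hr.le
  have h2 : 0 ≤ c := cube_le.1 (by linarith)
  have h4 : (R - c) * (R ^ 2 + R * c + c ^ 2) = 1 := by linarith
  set N := R ^ 2 + R * c + c ^ 2 with hNd
  have h5 : R - c = 1 / N := by rw [eq_div_iff hN.ne']; exact h4
  have e1 : R * (R + c) / N - 2 / 3 = (R - c) * (R + 2 * c) / (3 * N) := by
    field_simp
    rw [hNd]; ring
  have e2 : R ^ 3 * (R * (R + c) / N - 2 / 3) - (R - c) * N / 9 =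
      (R - c) ^ 2 * (c ^ 3 + 3 * c ^ 2 * R + 6 * c * R ^ 2 + 2 * R ^ 3) / (9 * N) := by
    field_simp
    rw [hNd]; ring
  rw [h4, h5] at e2
  rw [h6, e, neg_neg, e2, e1, h5]
  constructor
  · have e3 : 1 / N * (R + 2 * c) / (3 * N) * R ^ 3 = (R + 2 * c) * R ^ 3 / (3 * N ^ 2) := by
      field_simp
    rw [e3, div_le_iff₀ (by positivity), hNd]
    have : 0 ≤ 3 * R ^ 2 * c ^ 2 + 2 * R * c ^ 3 + c ^ 4 := by positivity
    nlinarith
  · have e3 : (1 / N) ^ 2 * (c ^ 3 + 3 * c ^ 2 * R + 6 * c * R ^ 2 + 2 * R ^ 3) / (9 * N) * R ^ 3 =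
        (c ^ 3 + 3 * c ^ 2 * R + 6 * c * R ^ 2 + 2 * R ^ 3) * R ^ 3 / (9 * N ^ 3) := by
      field_simp
    rw [e3, div_le_iff₀ (by positivity), hNd]
    have : 0 ≤ 9 * R ^ 4 * c ^ 2 + 13 * R ^ 3 * c ^ 3 + 12 * R ^ 2 * c ^ 4 + 6 * R * c ^ 5 +
      2 * c ^ 6 := by positivity
    nlinarith

theorem chiIntS (hChi : ChiStmt) : ChiIntStmt := by
  intro s hs
  obtain ⟨hc, he, C, hC⟩ := hChi s hs
  have hc2 : Continuous fun ρ => ρ ^ 6 * chi s ρ - -s / 9 := by fun_prop
  have i1 := chiint_int hc C fun r => (hC r).1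
  have i2 := chiint_int hc2 C fun r => (hC r).2
  rcases hs with rfl | rfl
  · constructor
    · have := MeasureTheory.integral_pos_of_integrable_nonneg_nonzero (x := 0) hc.neg i1.neg
        (fun r => by simpa using (chiint_one r).1.le) (by simpa using (chiint_one 0).1.ne)
      simp only [Pi.neg_apply, MeasureTheory.integral_neg] at this
      linarith
    · exact (MeasureTheory.integral_pos_of_integrable_nonneg_nonzero (x := 0) hc2 i2
        (fun r => (chiint_one r).2.le) (chiint_one 0).2.ne').ne'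
  · constructor
    · have := chiint_bound i1 he (89 / 100) _ _ _ (by norm_num) (by norm_num)
        (fun r hr => chiint_a hr) (fun r _ => chiint_b r) fun r hr => (chiint_c hr).1
      linarith
    · have := chiint_bound i2 (fun r => by rw [he]; ring) (89 / 100) (-1 / 9) (2 / 9) _
        (by norm_num) (by norm_num) (fun r hr => ?_) (fun r hr => ?_) fun r hr => (chiint_c hr).2
      · exact (show _ < _ by linarith).ne
      · have h1 := chiint_a hr
        have h2 : 0 ≤ r ^ 6 := by positivity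
        nlinarith
      · have h1 := chiint_b r
        have h2 : 0 ≤ r ^ 6 := by positivity
        have h3 : r ^ 6 ≤ 1 := pow_le_one₀ (by linarith [hr.1]) hr.2
        nlinarith

end Pool.Agent.MP_c2f0e4_an
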