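import Pool.Agent.MP_c2f0e4_an.Iface

open Set Filter Topology Real Asymptotics

namespace Pool.Agent.MP_c2f0e4_an

lemma class_cot {x : ℝ} (hx : x ∈ Ioo 0 π) : ∃ t, π / 2 - arctan t = x ∧ cos x = t * sin x := by
  have hs := sin_pos_of_mem_Ioo hx
  refine ⟨tan (π / 2 - x), ?_, ?_⟩
  · rw [arctan_tan (by linarith [hx.2]) (by linarith [hx.1])]
    ring
  · rw [tan_eq_sin_div_cos, sin_pi_div_two_sub, cos_pi_div_two_sub]
    field_simp

lemma class_mem (t : ℝ) : π / 2 - arctan t ∈ Ioo 0 π :=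
  ⟨by linarith [arctan_lt_pi_div_two t], by linarith [neg_pi_div_two_lt_arctan t]⟩

lemma class_lt {s t : ℝ} : π / 2 - arctan t < π / 2 - arctan s ↔ s < t := by
  rw [sub_lt_sub_iff_left, arctan_strictMono.lt_iff_lt]

lemma class_cub (b0 b1 b2 b3 t : ℝ) : Cub b0 b1 b2 b3 (π / 2 - arctan t) =
    sin (π / 2 - arctan t) ^ 3 * (b0 * t ^ 3 + b1 * t ^ 2 + b2 * t + b3) := by
  obtain ⟨s, h1, h2⟩ := class_cot (class_mem t)
  have : s = t := arctan_injective (by linarith)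
  rw [Cub, h2, this]
  ring

lemma class_zero (a1 a2 a3 : ℝ) (h1 : a1 ≠ 0) (hs : Simple (Cub 0 a1 a2 a3)) :
    (∀ x ∈ Ioo 0 π, 0 < a1 * Cub 0 a1 a2 a3 x) ∨
      ∃ z' z'' : ℝ, 0 < z' ∧ z' < z'' ∧ z'' < π ∧ Cub 0 a1 a2 a3 z' = 0 ∧ Cub 0 a1 a2 a3 z'' = 0 ∧
        a1 * deriv (Cub 0 a1 a2 a3) z' < 0 ∧ 0 < a1 * deriv (Cub 0 a1 a2 a3) z'' ∧
        (∀ x ∈ Ioo 0 z', 0 < a1 * Cub 0 a1 a2 a3 x) ∧
        (∀ x ∈ Ioo z' z'', a1 * Cub 0 a1 a2 a3 x < 0) ∧
        ∀ x ∈ Ioo z'' π, 0 < a1 * Cub 0 a1 a2 a3 x := by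
  have hp : ∀ t, 0 < sin (π / 2 - arctan t) ^ 3 := fun t =>
    pow_pos (sin_pos_of_mem_Ioo (class_mem t)) 3
  have h2 : 0 < a1 ^ 2 := by positivity
  rcases lt_or_ge (a2 ^ 2 - 4 * a1 * a3) 0 with hD | hD
  · refine Or.inl fun x hx => ?_
    obtain ⟨t, rfl, -⟩ := class_cot hx
    rw [class_cub, mul_left_comm]
    exact mul_pos (hp t) (by nlinarith [sq_nonneg (2 * a1 * t + a2)])
  obtain ⟨t1, t2, h12, rfl, rfl⟩ : ∃ t1 t2 : ℝ, t2 ≤ t1 ∧ a2 = -(a1 * (t1 + t2)) ∧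
      a3 = a1 * t1 * t2 := by
    have hq := Real.sq_sqrt hD
    set s := √(a2 ^ 2 - 4 * a1 * a3)
    have e1 : a2 = -(a1 * ((-a2 + s) / (2 * a1) + (-a2 - s) / (2 * a1))) := by
      field_simp
      ring
    have e2 : a3 = a1 * ((-a2 + s) / (2 * a1)) * ((-a2 - s) / (2 * a1)) := by
      field_simp
      linarith
    rcases le_total ((-a2 - s) / (2 * a1)) ((-a2 + s) / (2 * a1)) with h | h
    · exact ⟨_, _, h, e1, e2⟩
    · exact ⟨_, _, h, by rwa [add_comm], by rwa [mul_right_comm]⟩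
  have hv : ∀ t, a1 * Cub 0 a1 (-(a1 * (t1 + t2))) (a1 * t1 * t2) (π / 2 - arctan t) =
      sin (π / 2 - arctan t) ^ 3 * a1 ^ 2 * ((t - t1) * (t - t2)) := fun t => by
    rw [class_cub]
    ring
  have z1 : Cub 0 a1 (-(a1 * (t1 + t2))) (a1 * t1 * t2) (π / 2 - arctan t1) = 0 := by
    rw [class_cub]
    ring
  have z2 : Cub 0 a1 (-(a1 * (t1 + t2))) (a1 * t1 * t2) (π / 2 - arctan t2) = 0 := by
    rw [class_cub]
    ring
  have d1 : a1 * deriv (Cub 0 a1 (-(a1 * (t1 + t2))) (a1 * t1 * t2)) (π / 2 - arctan t1) =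
      -(sin (π / 2 - arctan t1) ^ 3 * a1 ^ 2 * (t1 ^ 2 + 1) * (t1 - t2)) := by
    rw [Cub.deriv, class_cub]
    ring
  have d2 : a1 * deriv (Cub 0 a1 (-(a1 * (t1 + t2))) (a1 * t1 * t2)) (π / 2 - arctan t2) =
      sin (π / 2 - arctan t2) ^ 3 * a1 ^ 2 * (t2 ^ 2 + 1) * (t1 - t2) := by
    rw [Cub.deriv, class_cub]
    ring
  have hlt : t2 < t1 := by
    refine lt_of_le_of_ne h12 fun h => hs _ z2 ?_
    rw [h, sub_self, mul_zero] at d2
    rw [h]
    exact (mul_eq_zero.1 d2).resolve_left h1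
  have h3 : 0 < t1 - t2 := sub_pos.2 hlt
  refine Or.inr ⟨π / 2 - arctan t1, π / 2 - arctan t2, (class_mem _).1, class_lt.2 hlt,
    (class_mem _).2, z1, z2, ?_, ?_, fun x hx => ?_, fun x hx => ?_, fun x hx => ?_⟩
  · rw [d1, neg_lt_zero]
    have := hp t1
    positivity
  · rw [d2]
    have := hp t2
    positivity
  · obtain ⟨t, rfl, -⟩ := class_cot ⟨hx.1, hx.2.trans (class_mem _).2⟩
    have := class_lt.1 hx.2
    rw [hv]
    exact mul_pos (mul_pos (hp t) h2) (mul_pos (by linarith) (by linarith))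
  · obtain ⟨t, rfl, -⟩ := class_cot ⟨(class_mem _).1.trans hx.1, hx.2.trans (class_mem _).2⟩
    have := class_lt.1 hx.1
    have := class_lt.1 hx.2
    rw [hv]
    exact mul_neg_of_pos_of_neg (mul_pos (hp t) h2)
      (mul_neg_of_neg_of_pos (by linarith) (by linarith))
  · obtain ⟨t, rfl, -⟩ := class_cot ⟨(class_mem _).1.trans hx.1, hx.2⟩
    have := class_lt.1 hx.1
    rw [hv]
    exact mul_pos (mul_pos (hp t) h2) (mul_pos_of_neg_of_neg (by linarith) (by linarith))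

theorem classS : ClassStmt := by
  intro A z hA hs hz
  obtain ⟨a3, h⟩ := hA.shift_eq z
  rw [hz] at h
  set a2 := (deriv (deriv A) z + 3 * 0) / 2
  have hv : ∀ x, Cub 0 (deriv A z) a2 a3 x = A (x + z) := fun x => (congrFun h x).symm
  have hd : ∀ x, deriv (Cub 0 (deriv A z) a2 a3) x = deriv A (x + z) := fun x => by
    rw [← h, deriv_comp_add_const]
  have hs' : Simple (Cub 0 (deriv A z) a2 a3) := fun x hx => by
    rw [hd]
    exact hs _ (by rwa [← hv])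
  rcases class_zero _ a2 a3 (hs z hz) hs' with h1 | ⟨p, q, h1, h2, h3, h4, h5, h6, h7, h8, h9, h10⟩
  · refine Or.inl fun x hx => ?_
    have := h1 (x - z) ⟨by linarith [hx.1], by linarith [hx.2]⟩
    rwa [hv, sub_add_cancel] at this
  · rw [hv] at h4 h5
    rw [hd] at h6 h7
    refine Or.inr ⟨p + z, q + z, by linarith, by linarith, by linarith, h4, h5, h6, h7,
      fun x hx => ?_, fun x hx => ?_, fun x hx => ?_⟩
    · have := h8 (x - z) ⟨by linarith [hx.1], by linarith [hx.2]⟩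
      rwa [hv, sub_add_cancel] at this
    · have := h9 (x - z) ⟨by linarith [hx.1], by linarith [hx.2]⟩
      rwa [hv, sub_add_cancel] at this
    · have := h10 (x - z) ⟨by linarith [hx.1], by linarith [hx.2]⟩
      rwa [hv, sub_add_cancel] at this

theorem gamS : GamStmt := by
  intro a0 a1 a2 a3 b z hb hc h0
  have hs : sin z = tan z * cos z := by
    rw [tan_eq_sin_div_cos]
    field_simp
  have h1 : cos z ^ 2 * (1 + tan z ^ 2) = 1 := by
    have := sin_sq_add_cos_sq z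
    rw [hs] at this
    linarith
  generalize tan z = t at hs h1 ⊢
  have h2 : a0 + a1 * t + a2 * t ^ 2 + a3 * t ^ 3 = 0 := by
    have : cos z ^ 3 * (a0 + a1 * t + a2 * t ^ 2 + a3 * t ^ 3) = 0 := by
      rw [← h0, Cub, hs]
      ring
    exact (mul_eq_zero.1 this).resolve_left (pow_ne_zero 3 hc)
  obtain rfl : a0 = -(a1 * t + a2 * t ^ 2 + a3 * t ^ 3) := by linarith
  refine ⟨?_, h2, ?_⟩
  · simp only [gam, Cub.deriv, Lin.deriv, Cub, Lin, Gp, hs, zero_mul, add_zero, zero_add]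
    congr 1
    field_simp
    ring
  · rw [Cub.deriv, Cub, hs]
    linear_combination (cos z * (a1 + 2 * a2 * t + 3 * a3 * t ^ 2)) * h1

lemma class_dl {a0 a1 a2 a3 b : ℝ} {V : ℝ → ℝ} (h : Sol (Cub a0 a1 a2 a3) (Lin b 0) V) {x : ℝ}
    (hx : V x ^ 3 - V (π - x) ^ 3 = 0) : HasDerivAt (fun y => V y ^ 3 - V (π - y) ^ 3)
      (-6 * sin x * (a1 * cos x ^ 2 + a3 * sin x ^ 2)) x := by
  have he : V (π - x) = V x := cube_inj (by linarith)
  refine ((h.2 x).sub ((h.refl π).2 x)).congr_deriv ?_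
  simp only [he, Cub, Lin, cos_pi_sub, sin_pi_sub]
  ring

theorem deltaS : DeltaStmt := by
  intro a0 a1 a2 a3 b V h1 h3 hV hper x hx hx0
  have hc : Continuous fun y => V y ^ 3 - V (π - y) ^ 3 :=
    (hV.1.pow 3).sub ((hV.1.comp (by fun_prop)).pow 3)
  have hq : ∀ y, sin y ≠ 0 → 0 < a1 * cos y ^ 2 + a3 * sin y ^ 2 := fun y hy => by positivity
  rw [← cube_lt, ← sub_pos]
  rcases lt_or_gt_of_ne hx0 with h | h
  · refine pos_of_deriv_pos_at_zeros (f := fun y => V y ^ 3 - V (π - y) ^ 3) (a := -(π / 2))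
      (b := x) hc.continuousOn ?_ (fun y hy h0 => ⟨_, class_dl hV h0, ?_⟩) x ⟨hx.1, le_rfl⟩
    · rw [show π - -(π / 2) = -(π / 2) + 2 * π by ring, hper, sub_self]
    · have hs : sin y < 0 := sin_neg_of_neg_of_neg_pi_lt (hy.2.trans_lt h)
        (by linarith [hy.1, pi_pos])
      exact mul_pos (by linarith) (hq y hs.ne)
  · have := pos_of_deriv_pos_at_zeros (f := fun y => V (-y) ^ 3 - V (π - -y) ^ 3)
      (a := -(π / 2)) (b := -x) (hc.comp continuous_neg).continuousOn ?_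
      (fun y hy h0 => ⟨_, (class_dl hV h0).comp y (hasDerivAt_neg y), ?_⟩) (-x)
      ⟨by linarith [hx.2], le_rfl⟩
    · simpa only [neg_neg] using this
    · rw [neg_neg, show π - π / 2 = π / 2 by ring, sub_self]
    · have hs : 0 < sin (-y) := sin_pos_of_pos_of_lt_pi (by linarith [hy.2])
        (by linarith [hy.1, pi_pos])
      have := mul_pos hs (hq _ hs.ne')
      linarith

end Pool.Agent.MP_c2f0e4_an
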