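import Pool.Agent.MP_c2f0e4_an.Iface

open Set Filter Topology Real Asymptotics

namespace Pool.Agent.MP_c2f0e4_an

lemma coref_mvt {f : ℝ → ℝ} {S : Set ℝ} (hS : S.Finite) {c a b : ℝ} (hab : a ≤ b)
    (hf : ContinuousOn f (Icc a b))
    (hd : ∀ x ∈ Ioo a b, x ∉ S → ∃ f', HasDerivAt f f' x ∧ |f'| ≤ c) :
    |f b - f a| ≤ c * (b - a) := by
  have h1 := sub_le_of_deriv_le (c := c) hS hab hf fun x hx hxS => by
    obtain ⟨f', h1, h2⟩ := hd x hx hxS
    exact ⟨f', h1, (abs_le.1 h2).2⟩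
  have h2 := le_sub_of_le_deriv (c := -c) hS hab hf fun x hx hxS => by
    obtain ⟨f', h1, h2⟩ := hd x hx hxS
    exact ⟨f', h1, (abs_le.1 h2).1⟩
  rw [abs_le]
  constructor <;> linarith

lemma coref_le_exp {x y k : ℝ} (hx : 0 < x) (hy : 0 < y) (h : log x ≤ log y + k) :
    x ≤ exp k * y := by
  have := exp_le_exp.2 h
  rwa [exp_log hx, exp_add, exp_log hy, mul_comm] at this

lemma coref_size (p k : ℝ) (hp : 0 < p) (hk : 0 ≤ k) : ∃ C : ℝ, 0 < C ∧ ∀ s s0 ξ : ℝ, 0 < s →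
    0 < s0 → |log s + p * log (ξ ^ 2 + s ^ 2) - (1 + 2 * p) * log s0| ≤ k →
    s ≤ C * s0 ∧ (|ξ| ≤ s0 → s0 ≤ C * s) ∧ s * |ξ| ^ (2 * p) ≤ C * s0 ^ (1 + 2 * p) ∧
      (s0 ≤ |ξ| → s0 ^ (1 + 2 * p) ≤ C * (s * |ξ| ^ (2 * p))) := by
  set E := exp k with hE
  have hE0 : 0 < E := exp_pos k
  have hL : 0 ≤ log (1 + E ^ 2) := log_nonneg (by nlinarith)
  set L := log (1 + E ^ 2) with hLdef
  have hpL : 0 ≤ p * L := mul_nonneg hp.le hL
  refine ⟨exp (k + p * L), exp_pos _, fun s s0 ξ hs hs0 h => ?_⟩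
  obtain ⟨h1, h2⟩ := abs_le.1 h
  have hQ : 0 < ξ ^ 2 + s ^ 2 := by positivity
  have hq1 : 2 * log s ≤ log (ξ ^ 2 + s ^ 2) := by
    have := log_le_log (pow_pos hs 2) (show s ^ 2 ≤ ξ ^ 2 + s ^ 2 by nlinarith)
    rwa [log_pow, Nat.cast_ofNat] at this
  have ha : log s ≤ log s0 + k := by
    have h3 : p * (2 * log s) ≤ p * log (ξ ^ 2 + s ^ 2) := mul_le_mul_of_nonneg_left hq1 hp.le
    by_contra hc
    push Not at hc
    have h4 : 0 < log s - log s0 - k := by linarith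
    nlinarith [mul_pos hp h4, mul_nonneg hp.le hk]
  have hsE : s ≤ E * s0 := coref_le_exp hs hs0 ha
  -- upper bound for the quadratic form
  have hup : ∀ t : ℝ, 0 < t → |ξ| ≤ t → s0 ≤ t → log (ξ ^ 2 + s ^ 2) ≤ L + 2 * log t := by
    intro t ht h3 h4
    have h5 : ξ ^ 2 ≤ t ^ 2 := by rw [← sq_abs]; exact pow_le_pow_left₀ (abs_nonneg _) h3 2
    have h6 : s ^ 2 ≤ (E * t) ^ 2 :=
      pow_le_pow_left₀ hs.le (hsE.trans (mul_le_mul_of_nonneg_left h4 hE0.le)) 2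
    have h7 := log_le_log hQ (show ξ ^ 2 + s ^ 2 ≤ (1 + E ^ 2) * t ^ 2 by nlinarith)
    rwa [log_mul (by positivity) (by positivity), log_pow, Nat.cast_ofNat] at h7
  refine ⟨coref_le_exp hs hs0 (by linarith), fun h3 => coref_le_exp hs0 hs ?_, ?_, fun h3 => ?_⟩
  · have := mul_le_mul_of_nonneg_left (hup s0 hs0 h3 le_rfl) hp.le
    linarith
  · rcases eq_or_ne ξ 0 with h0 | h0
    · rw [h0, abs_zero, zero_rpow (by positivity), mul_zero]
      positivity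
    · have hx : 0 < |ξ| := abs_pos.2 h0
      refine coref_le_exp (by positivity) (by positivity) ?_
      rw [log_mul hs.ne' (by positivity), log_rpow hx, log_rpow hs0]
      have h4 : 2 * log |ξ| ≤ log (ξ ^ 2 + s ^ 2) := by
        have := log_le_log (pow_pos hx 2) (show |ξ| ^ 2 ≤ ξ ^ 2 + s ^ 2 by rw [sq_abs]; nlinarith)
        rwa [log_pow, Nat.cast_ofNat] at this
      have := mul_le_mul_of_nonneg_left h4 hp.le
      linarith
  · have hx : 0 < |ξ| := hs0.trans_le h3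
    refine coref_le_exp (by positivity) (by positivity) ?_
    rw [log_mul hs.ne' (by positivity), log_rpow hx, log_rpow hs0]
    have := mul_le_mul_of_nonneg_left (hup |ξ| hx le_rfl h3) hp.le
    linarith

lemma coref_theta (m0 : ℝ) : ∃ k : ℝ, ∀ w, |Theta m0 w| ≤ k := by
  refine ⟨|2 / √((3 - m0) * (1 + m0))| * (π / 2), fun w => ?_⟩
  unfold Theta
  rw [abs_mul]
  refine mul_le_mul_of_nonneg_left ?_ (abs_nonneg _)
  exact abs_le.2 ⟨(neg_pi_div_two_lt_arctan _).le, (arctan_lt_pi_div_two _).le⟩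

/-- two bounds for the derivative of the corrected first integral -/
lemma coref_bd {μ M ν c D u ξ : ℝ} (hμ : |μ| ≤ M) (hν : 1 ≤ ν) (hc : 0 < c) (hu : u < ξ)
    (hD : c * (ξ ^ 2 + (ξ - u) ^ 2) ≤ D) :
    |-μ * (ξ - u) * (2 * u + ξ) / (ν * D)| ≤ 4 * M / c ∧
      ∀ η ε : ℝ, 0 < η → η ≤ |ξ| → ξ - u ≤ ε →
        |-μ * (ξ - u) * (2 * u + ξ) / (ν * D)| ≤ 4 * M / c * (ε / η) := by
  have hs : 0 < ξ - u := sub_pos.2 hu
  have hM : 0 ≤ M := (abs_nonneg _).trans hμ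
  set s := ξ - u with hsdef
  have hQ : 0 < ξ ^ 2 + s ^ 2 := by positivity
  have hD0 : 0 < D := (mul_pos hc hQ).trans_le hD
  have h1 : |2 * u + ξ| ≤ 3 * |ξ| + 2 * s := by
    rw [show 2 * u + ξ = 3 * ξ - 2 * s by rw [hsdef]; ring, abs_le]
    constructor <;> linarith [le_abs_self ξ, neg_abs_le ξ]
  have h2 : |-μ * s * (2 * u + ξ) / (ν * D)|
      ≤ M / c * (s * (3 * |ξ| + 2 * s) / (ξ ^ 2 + s ^ 2)) := by
    rw [abs_div, abs_mul, abs_mul, abs_neg, abs_of_pos hs, abs_of_pos (by positivity : 0 < ν * D),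
      div_mul_div_comm]
    refine div_le_div₀ (by positivity) ?_ (by positivity) (hD.trans (by nlinarith))
    rw [mul_assoc]
    exact mul_le_mul hμ (mul_le_mul_of_nonneg_left h1 hs.le) (by positivity) hM
  have hx := abs_nonneg ξ
  have hsq := sq_abs ξ
  have hMc : 0 ≤ M / c := by positivity
  refine ⟨h2.trans ?_, fun η ε hη h3 h4 => h2.trans ?_⟩
  · rw [show 4 * M / c = M / c * 4 by ring]
    refine mul_le_mul_of_nonneg_left ?_ hMc
    rw [div_le_iff₀ hQ]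
    nlinarith [sq_nonneg (|ξ| - s)]
  · rw [show 4 * M / c * (ε / η) = M / c * (4 * ε / η) by ring]
    refine mul_le_mul_of_nonneg_left ?_ hMc
    rw [div_le_div_iff₀ hQ hη]
    have h5 : (3 * |ξ| + 2 * s) * η ≤ 4 * (ξ ^ 2 + s ^ 2) := by
      have := mul_le_mul_of_nonneg_left h3 (by positivity : 0 ≤ 3 * |ξ| + 2 * s)
      nlinarith [sq_nonneg (|ξ| - s)]
    calc s * (3 * |ξ| + 2 * s) * η = s * ((3 * |ξ| + 2 * s) * η) := by ring
      _ ≤ ε * (4 * (ξ ^ 2 + s ^ 2)) := mul_le_mul h4 h5 (by positivity) (hs.le.trans h4)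
      _ = 4 * ε * (ξ ^ 2 + s ^ 2) := by ring

/-- the choice of the interval and of a primitive of `mu` -/
lemma coref_setup {m mu : ℝ → ℝ} {m0 d0 : ℝ} (hd0 : 0 < d0) (h1 : -1 < m0)
    (hmu : AnalyticAt ℝ mu 0) (hm : ∀ ξ, m ξ = m0 + ξ * mu ξ) :
    ∃ (d1 M : ℝ) (Mu : ℝ → ℝ), 0 < d1 ∧ d1 ≤ d0 ∧ ∀ ξ ∈ Icc (-d1) d1,
      0 < 1 + m ξ ∧ |mu ξ| ≤ M ∧ HasDerivAt Mu (mu ξ) ξ := by
  have hc : ContinuousAt mu 0 := hmu.continuousAt
  have e1 : ∀ᶠ ξ in 𝓝 (0 : ℝ), ContinuousAt mu ξ :=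
    hmu.eventually_analyticAt.mono fun ξ h => h.continuousAt
  have e2 : ∀ᶠ ξ in 𝓝 (0 : ℝ), 0 < 1 + m ξ := by
    have : ContinuousAt (fun ξ : ℝ => 1 + (m0 + ξ * mu ξ)) 0 := by fun_prop
    have := this.eventually (lt_mem_nhds (show 0 < 1 + (m0 + 0 * mu 0) by linarith))
    simpa only [hm] using this
  have e3 : ∀ᶠ ξ in 𝓝 (0 : ℝ), |mu ξ| ≤ |mu 0| + 1 :=
    hc.abs.eventually (ge_mem_nhds (lt_add_one _))
  obtain ⟨r, hr, h⟩ := Metric.eventually_nhds_iff_ball.1 (e1.and (e2.and e3))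
  have hco : ContinuousOn mu (Metric.ball 0 r) := fun ξ hξ => (h ξ hξ).1.continuousWithinAt
  refine ⟨min d0 (r / 2), |mu 0| + 1, fun ξ => ∫ t in (0 : ℝ)..ξ, mu t, by positivity,
    min_le_left _ _, fun ξ hξ => ?_⟩
  have hb : ξ ∈ Metric.ball (0 : ℝ) r := by
    rw [mem_ball_zero_iff, Real.norm_eq_abs, abs_lt]
    constructor <;> linarith [hξ.1, hξ.2, min_le_right d0 (r / 2)]
  refine ⟨(h ξ hb).2.1, (h ξ hb).2.2, intervalIntegral.integral_hasDerivAt_right ?_ ?_ (h ξ hb).1⟩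
  · refine (hco.mono ?_).intervalIntegrable
    exact (convex_ball (0 : ℝ) r).ordConnected.uIcc_subset (Metric.mem_ball_self hr) hb
  · exact hco.stronglyMeasurableAtFilter Metric.isOpen_ball ξ hb

theorem coreS (hLLder : LLderStmt) (hLLbd : LLbdStmt) : CoreStmt := by
  intro m mu m0 d0 u hmod htr h1 h3 hmu hm
  obtain ⟨d1, M, Mu, hd1, hd10, hset⟩ := coref_setup hmod.dpos h1 hmu hm
  obtain ⟨⟨c, C, hc, hDh⟩, hLc, hLd⟩ := hLLder m0 h1 h3
  refine ⟨d1, hd1, hd10, fun d hd => ?_⟩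
  have hν : 1 ≤ 3 + 2 * m0 := by linarith
  have hs1 : Icc (-d) d ⊆ Icc (-d1) d1 := Icc_subset_Icc (by linarith [hd.2]) hd.2
  have hs0 : Icc (-d) d ⊆ Icc (-d0) d0 := Icc_subset_Icc (by linarith [hd.2]) (hd.2.trans hd10)
  have hz : (0 : ℝ) ∈ Icc (-d) d := ⟨by linarith [hd.1], hd.1.le⟩
  have hM : 0 ≤ M := (abs_nonneg _).trans (hset 0 (hs1 hz)).2.1
  set K : ℕ → ℝ → ℝ := fun n ξ => LL m0 (u n ξ) ξ + 2 / (3 + 2 * m0) * Mu ξ with hK
  have hlt : ∀ n, ∀ ξ ∈ Icc (-d) d, u n ξ < ξ := fun n ξ hξ => hmod.lt n ξ (hs0 hξ)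
  have hMuc : ContinuousOn Mu (Icc (-d) d) := fun ξ hξ =>
    (hset ξ (hs1 hξ)).2.2.continuousAt.continuousWithinAt
  have hcont : ∀ n, ContinuousOn (K n) (Icc (-d) d) := fun n => by
    have hu : ContinuousOn (u n) (Icc (-d) d) := fun ξ hξ =>
      (continuousAt_of_cube (hmod.ode n ξ (hs0 hξ)).continuousAt).continuousWithinAt
    have h4 := hLc.comp (f := fun ξ : ℝ => (u n ξ, ξ)) (hu.prodMk continuousOn_id)
      fun ξ hξ => hlt n ξ hξ
    exact h4.add (hMuc.const_mul _)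
  have hDpos : ∀ n, ∀ ξ ∈ Icc (-d) d, 0 < Dh m0 (u n ξ) ξ := fun n ξ hξ => by
    have := sub_pos.2 (hlt n ξ hξ)
    exact lt_of_lt_of_le (by positivity) (hDh (u n ξ) ξ).1
  have hder : ∀ n, ∀ ξ ∈ Ioo (-d) d, u n ξ ≠ 0 → HasDerivAt (K n)
      (-mu ξ * (ξ - u n ξ) * (2 * u n ξ + ξ) / ((3 + 2 * m0) * Dh m0 (u n ξ) ξ)) ξ := by
    intro n ξ hξ hu
    have hξ' := Ioo_subset_Icc_self hξ
    have h4 := hLd (u n) _ ξ (m ξ) (hasDerivAt_of_cube (hmod.ode n ξ (hs0 hξ')) hu) (hlt n ξ hξ')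
      hu (by field_simp)
    have h5 := h4.add ((hset ξ (hs1 hξ')).2.2.const_mul (2 / (3 + 2 * m0)))
    refine HasDerivAt.congr_deriv (f' := _) h5 ?_
    have h6 := (hDpos n ξ hξ').ne'
    have h7 : 3 + 2 * m0 ≠ 0 := by linarith
    have h8 : Dh m0 (u n ξ) ξ = u n ξ ^ 2 + (1 + m0) * ξ * (u n ξ + ξ) := rfl
    rw [hm ξ, div_mul_eq_mul_div, div_add_div _ _ h6 h7,
      div_eq_div_iff (mul_ne_zero h6 h7) (mul_ne_zero h7 h6), h8]
    ring
  have hfin : ∀ n, {ξ ∈ Icc (-d) d | u n ξ = 0}.Finite := fun n => by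
    have key : ∀ x ∈ Icc (-d) d, ∀ y ∈ Icc (-d) d, u n x = 0 → u n y = 0 → ¬ x < y := by
      intro x hx y hy h4 h5 hxy
      have hsub : Icc x y ⊆ Icc (-d) d := Icc_subset_Icc hx.1 hy.2
      have := pos_of_deriv_pos_at_zeros (f := fun t => u n t ^ 3) (a := x) (b := y)
        (fun t ht => (hmod.ode n t (hs0 (hsub ht))).continuousAt.continuousWithinAt)
        (by simp [h4]) (fun t ht h0 => by
          have h6 : u n t = 0 := pow_eq_zero_iff (by norm_num) |>.1 h0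
          refine ⟨_, hmod.ode n t (hs0 (hsub ht)), ?_⟩
          have h7 := hlt n t (hsub ht)
          rw [h6] at h7 ⊢
          have h8 := (hset t (hs1 (hsub ht))).1
          have : 0 < (1 + m t) * t ^ 2 := by positivity
          linarith) y ⟨hxy, le_rfl⟩
      simp [h5] at this
    refine Set.Subsingleton.finite fun x hx y hy => ?_
    exact le_antisymm (not_lt.1 (key y hy.1 x hx.1 hy.2 hx.2))
      (not_lt.1 (key x hx.1 y hy.1 hx.2 hy.2))
  -- variation of `K` over a subinterval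
  have hvar : ∀ n, ∀ a b k : ℝ, a ≤ b → Icc a b ⊆ Icc (-d) d → (∀ ξ ∈ Ioo a b,
      |-mu ξ * (ξ - u n ξ) * (2 * u n ξ + ξ) / ((3 + 2 * m0) * Dh m0 (u n ξ) ξ)| ≤ k) →
      |K n b - K n a| ≤ k * (b - a) := by
    intro n a b k hab hsub hk
    refine coref_mvt (hfin n) hab ((hcont n).mono hsub) fun x hx hxS => ⟨_, hder n x ?_ ?_, hk x hx⟩
    · exact ⟨(hsub (left_mem_Icc.2 hab)).1.trans_lt hx.1, hx.2.trans_le (hsub (right_mem_Icc.2 hab)).2⟩
    · exact fun h0 => hxS ⟨hsub (Ioo_subset_Icc_self hx), h0⟩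
  have hbd := fun n ξ (hξ : ξ ∈ Icc (-d) d) =>
    coref_bd (hset ξ (hs1 hξ)).2.1 hν hc (hlt n ξ hξ) (hDh (u n ξ) ξ).1
  set C1 := 4 * M / c with hC1
  have hC10 : 0 ≤ C1 := by positivity
  have hvar1 : ∀ n, ∀ a b : ℝ, a ≤ b → Icc a b ⊆ Icc (-d) d → |K n b - K n a| ≤ C1 * (b - a) :=
    fun n a b hab hsub =>
      hvar n a b C1 hab hsub fun ξ hξ => (hbd n ξ (hsub (Ioo_subset_Icc_self hξ))).1
  refine ⟨K, hcont, hder, hfin, ?_, ?_⟩
  · obtain ⟨kT, hT⟩ := coref_theta m0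
    obtain ⟨kM, hkM⟩ := isCompact_Icc.exists_bound_of_continuousOn hMuc
    have hp : 0 < 1 + m0 := by linarith
    have hcC : 0 < C := by
      have h4 := hDh 0 1
      norm_num at h4
      linarith [h4.1, h4.2]
    have hkT : 0 ≤ kT := (abs_nonneg _).trans (hT 0)
    have hkM0 : 0 ≤ kM := (norm_nonneg _).trans (hkM 0 hz)
    obtain ⟨C2, hC2, hsz⟩ := coref_size (1 + m0) ((3 + 2 * m0) * (C1 * d) + 4 * kM
      + (1 + m0) * |m0| * (2 * kT) + (1 + m0) * (|log c| + |log C|)) hp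
      (by have := hd.1; positivity)
    refine ⟨C2, hC2, fun n ξ hξ => ?_⟩
    have hs : 0 < ξ - u n ξ := sub_pos.2 (hlt n ξ hξ)
    have hs' : 0 < -u n 0 := neg_pos.2 (hlt n 0 hz)
    have h4 := hsz (ξ - u n ξ) (-u n 0) ξ hs hs' ?_
    · rwa [show 2 * (1 + m0) = 2 + 2 * m0 by ring, show 1 + (2 + 2 * m0) = 3 + 2 * m0 by ring] at h4
    have hK1 : |K n ξ - K n 0| ≤ C1 * d := by
      rcases le_total 0 ξ with h5 | h5
      · refine (hvar1 n 0 ξ h5 (Icc_subset_Icc hz.1 hξ.2)).trans ?_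
        exact mul_le_mul_of_nonneg_left (by linarith [hξ.2]) hC10
      · rw [abs_sub_comm]
        refine (hvar1 n ξ 0 h5 (Icc_subset_Icc hξ.1 hz.2)).trans ?_
        exact mul_le_mul_of_nonneg_left (by linarith [hξ.1]) hC10
    have hK2 : |(3 + 2 * m0) * (K n ξ - K n 0)| ≤ (3 + 2 * m0) * (C1 * d) := by
      rw [abs_mul, abs_of_pos (by linarith : 0 < 3 + 2 * m0)]
      exact mul_le_mul_of_nonneg_left hK1 (by linarith)
    have hQ : 0 < ξ ^ 2 + (ξ - u n ξ) ^ 2 := by positivity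
    have hl : |log (Dh m0 (u n ξ) ξ) - log (ξ ^ 2 + (ξ - u n ξ) ^ 2)| ≤ |log c| + |log C| := by
      have h5 := log_le_log (by positivity) (hDh (u n ξ) ξ).1
      have h6 := log_le_log (hDpos n ξ hξ) (hDh (u n ξ) ξ).2
      rw [log_mul hc.ne' hQ.ne'] at h5
      rw [log_mul hcC.ne' hQ.ne'] at h6
      rw [abs_le]
      constructor <;> linarith [neg_abs_le (log c), le_abs_self (log C), abs_nonneg (log c),
        abs_nonneg (log C)]
    have hl2 : |(1 + m0) * (log (Dh m0 (u n ξ) ξ) - log (ξ ^ 2 + (ξ - u n ξ) ^ 2))|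
        ≤ (1 + m0) * (|log c| + |log C|) := by
      rw [abs_mul, abs_of_pos hp]
      exact mul_le_mul_of_nonneg_left hl hp.le
    have hT2 : |(1 + m0) * m0 * (Theta m0 (ξ / (ξ - u n ξ)) - Theta m0 (0 / (0 - u n 0)))|
        ≤ (1 + m0) * |m0| * (2 * kT) := by
      rw [abs_mul, abs_mul, abs_of_pos hp]
      refine mul_le_mul_of_nonneg_left ?_ (by positivity)
      refine (abs_sub _ _).trans ?_
      linarith [hT (ξ / (ξ - u n ξ)), hT (0 / (0 - u n 0))]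
    have hM1 := abs_le.1 (show |Mu ξ| ≤ kM from hkM ξ hξ)
    have hM2 := abs_le.1 (show |Mu 0| ≤ kM from hkM 0 hz)
    have hD0 : log (Dh m0 (u n 0) 0) = 2 * log (-u n 0) := by
      rw [show Dh m0 (u n 0) 0 = (-u n 0) ^ 2 by unfold Dh; ring, log_pow, Nat.cast_ofNat]
    have hid : log (ξ - u n ξ) + (1 + m0) * log (ξ ^ 2 + (ξ - u n ξ) ^ 2)
        - (1 + 2 * (1 + m0)) * log (-u n 0)
        = (3 + 2 * m0) * (K n ξ - K n 0) - 2 * (Mu ξ - Mu 0)
          + (1 + m0) * m0 * (Theta m0 (ξ / (ξ - u n ξ)) - Theta m0 (0 / (0 - u n 0)))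
          - (1 + m0) * (log (Dh m0 (u n ξ) ξ) - log (ξ ^ 2 + (ξ - u n ξ) ^ 2)) := by
      have h7 : 3 + 2 * m0 ≠ 0 := by linarith
      have h8 : (3 + 2 * m0) * (3 + 2 * m0)⁻¹ = 1 := mul_inv_cancel₀ h7
      simp only [hK, LL, hD0, zero_sub, div_eq_mul_inv _ (3 + 2 * m0)]
      linear_combination (-(log (ξ - u n ξ) + (1 + m0) * log (Dh m0 (u n ξ) ξ)
        - (1 + m0) * m0 * Theta m0 (ξ / (ξ - u n ξ)) + 2 * Mu ξ
        - (log (-u n 0) + (1 + m0) * (2 * log (-u n 0))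
        - (1 + m0) * m0 * Theta m0 (0 / -u n 0) + 2 * Mu 0))) * h8
    rw [hid, abs_le]
    have h8 := abs_le.1 hK2
    have h9 := abs_le.1 hl2
    have h10 := abs_le.1 hT2
    constructor <;> linarith [h8.1, h8.2, h9.1, h9.2, h10.1, h10.2, hM1.1, hM1.2, hM2.1, hM2.2]
  · obtain ⟨Φ, hΦ, hΦ0, hΦ', hev⟩ := htr d ⟨hd.1, hd.2.trans hd10⟩
    obtain ⟨c0, c1, C3, hb⟩ := hLLbd m0 d Φ h1 h3 hd.1 hΦ hΦ0 hΦ'
    have hl : -d ∈ Icc (-d) d := left_mem_Icc.2 (by linarith [hd.1])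
    have hs : Tendsto (fun n => -d - u n (-d)) atTop (𝓝 0) := by
      have := (hmod.unif.tendsto_at (hs0 hl)).const_sub (-d)
      rwa [sub_self] at this
    have hs' : Tendsto (fun n => -d - u n (-d)) atTop (𝓝[>] 0) :=
      tendsto_nhdsWithin_iff.2 ⟨hs, Eventually.of_forall fun n => sub_pos.2 (hlt n _ hl)⟩
    set c0' := c0 + 2 / (3 + 2 * m0) * (Mu d - Mu (-d)) with hc0'
    have hev2 : ∀ᶠ n in atTop, |K n d - K n (-d) - c0' - c1 * (-d - u n (-d))|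
        ≤ C3 * (-d - u n (-d)) ^ 2 := by
      filter_upwards [hev, hs'.eventually hb] with n h4 h5
      rw [← h4, sub_sub_cancel, sub_sub_cancel] at h5
      refine le_of_eq_of_le ?_ h5
      congr 1
      simp only [hK, hc0']
      ring
    have hc0 : ∀ η ∈ Ioc 0 d, |c0'| ≤ (2 * C1 + 2 * d * C1) * η := by
      intro η hη
      have ht : Tendsto (fun n => (2 * C1 + 2 * d * C1) * η + (|c1 * (-d - u n (-d))|
          + C3 * (-d - u n (-d)) ^ 2)) atTop (𝓝 ((2 * C1 + 2 * d * C1) * η + (|c1 * 0|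
          + C3 * 0 ^ 2))) :=
        ((hs.const_mul c1).abs.add ((hs.pow 2).const_mul C3)).const_add _
      simp only [mul_zero, abs_zero, ne_eq, OfNat.ofNat_ne_zero, not_false_eq_true, zero_pow,
        add_zero] at ht
      refine ge_of_tendsto ht ?_
      have hη0 := hη.1
      filter_upwards [hev2, Metric.tendstoUniformlyOn_iff.1 hmod.unif (η ^ 2) (by positivity)]
        with n h4 h5
      have h6 : ∀ ξ ∈ Icc (-d) d, η ≤ |ξ| → |-mu ξ * (ξ - u n ξ) * (2 * u n ξ + ξ)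
          / ((3 + 2 * m0) * Dh m0 (u n ξ) ξ)| ≤ C1 * η := fun ξ hξ h7 => by
        have h8 := (hbd n ξ hξ).2 η (η ^ 2) hη0 h7
          ((le_abs_self _).trans (by simpa only [Real.dist_eq] using (h5 ξ (hs0 hξ)).le))
        rwa [show η ^ 2 / η = η by field_simp] at h8
      have a1 : Icc (-d) (-η) ⊆ Icc (-d) d := Icc_subset_Icc le_rfl (by linarith [hd.1])
      have a2 : Icc η d ⊆ Icc (-d) d := Icc_subset_Icc (by linarith [hd.1]) le_rfl
      have b1 := abs_le.1 (hvar n (-d) (-η) _ (by linarith [hη.2]) a1 fun ξ hξ =>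
        h6 ξ (a1 (Ioo_subset_Icc_self hξ)) (by linarith [hξ.2, neg_le_abs ξ]))
      have b2 := abs_le.1 (hvar n η d _ hη.2 a2 fun ξ hξ =>
        h6 ξ (a2 (Ioo_subset_Icc_self hξ)) (by linarith [hξ.1, le_abs_self ξ]))
      have b3 := abs_le.1 (hvar1 n (-η) η (by linarith)
        (Icc_subset_Icc (by linarith [hη.2]) hη.2))
      have b4 := abs_le.1 h4
      have b5 : 0 ≤ C1 * η * η := by positivity
      rw [abs_le]
      constructor <;> nlinarith [b1.1, b1.2, b2.1, b2.2, b3.1, b3.2, b4.1, b4.2,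
        le_abs_self (c1 * (-d - u n (-d))), neg_abs_le (c1 * (-d - u n (-d)))]
    have hc00 : c0' = 0 := by
      have ht : Tendsto (fun η : ℝ => (2 * C1 + 2 * d * C1) * η) (𝓝[>] 0) (𝓝 0) := by
        have : Tendsto (fun η : ℝ => (2 * C1 + 2 * d * C1) * η) (𝓝 0)
            (𝓝 ((2 * C1 + 2 * d * C1) * 0)) := tendsto_id.const_mul _
        rw [mul_zero] at this
        exact this.mono_left nhdsWithin_le_nhds
      have := ge_of_tendsto ht (mem_of_superset (Ioc_mem_nhdsGT hd.1) hc0)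
      exact abs_nonpos_iff.1 this
    refine ⟨c1, C3, ?_⟩
    simpa only [hc00, sub_zero] using hev2

end Pool.Agent.MP_c2f0e4_an
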