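import Pool.Agent.MP_c2f0e4_an.Iface

open Set Filter Topology Real Asymptotics

namespace Pool.Agent.MP_c2f0e4_an

lemma cuspode_chi {ε u v Y ρ : ℝ} (hε : ε = 1 ∨ ε = -1) (hY : 0 < Y)
    (h1 : (v ^ 3 - u ^ 3) * Y ^ 6 = 1) (hρ : ρ ^ 2 = ε * v * Y ^ 2) :
    chi (-ε) ρ = v * (v + u) / (v ^ 2 + v * u + u ^ 2) - 2 / 3 := by
  have h6 : ρ ^ 6 = (ε * v * Y ^ 2) ^ 3 := by rw [← hρ]; ring
  have h4 : ρ ^ 4 = (ε * v * Y ^ 2) ^ 2 := by rw [← hρ]; ring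
  have hc : cb (ρ ^ 6 + -ε) = ε * u * Y ^ 2 := by
    rw [cb_eq_iff, h6]
    rcases hε with rfl | rfl
    · linear_combination h1
    · linear_combination -h1
  have hY0 := hY.ne'
  rw [chi, hc, h4, hρ]
  congr 1
  have e1 : (ε * v * Y ^ 2) ^ 2 + ε * v * Y ^ 2 * (ε * u * Y ^ 2) + (ε * u * Y ^ 2) ^ 2 =
      Y ^ 4 * (v ^ 2 + v * u + u ^ 2) := by
    rcases hε with rfl | rfl <;> ring
  have e2 : ε * v * Y ^ 2 * (ε * v * Y ^ 2 + ε * u * Y ^ 2) = Y ^ 4 * (v * (v + u)) := by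
    rcases hε with rfl | rfl <;> ring
  rw [e1, e2, mul_div_mul_left _ _ (pow_ne_zero 4 hY0)]

theorem cuspODES : CuspODEStmt := by
  intro ε A B V U X D τ X' D' hε hV hU hX hD hD0 hv hB hlt
  have hx : HasDerivAt (fun σ => σ ^ 3 * X σ) (τ ^ 2 * (3 * X τ + τ * X')) τ := by
    refine (((hasDerivAt_id' τ).pow 3).mul hX).congr_deriv ?_
    simp only [Pi.pow_apply]
    push_cast
    ring
  have hs0 : 0 < V (τ ^ 3 * X τ) ^ 3 - U (τ ^ 3 * X τ) ^ 3 := sub_pos.2 (cube_lt.2 hlt)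
  have hs : HasDerivAt (fun σ => V (σ ^ 3 * X σ) ^ 3 - U (σ ^ 3 * X σ) ^ 3)
      (-3 * (A (τ ^ 3 * X τ) + B (τ ^ 3 * X τ) * V (τ ^ 3 * X τ) ^ 2) *
          (τ ^ 2 * (3 * X τ + τ * X')) -
        -3 * (A (τ ^ 3 * X τ) + B (τ ^ 3 * X τ) * U (τ ^ 3 * X τ) ^ 2) *
          (τ ^ 2 * (3 * X τ + τ * X'))) τ := by
    have k1 := (hV.2 (τ ^ 3 * X τ)).comp τ hx
    have k2 := (hU.2 (τ ^ 3 * X τ)).comp τ hx
    exact k1.sub k2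
  have h := (hD.sqrt hD0.ne').mul (hs.rpow_const (p := -(1 / 6 : ℝ)) (Or.inl hs0.ne'))
  refine HasDerivAt.congr_deriv (f' := _) h ?_
  rw [Real.rpow_sub_one hs0.ne']
  have hY : 0 < (V (τ ^ 3 * X τ) ^ 3 - U (τ ^ 3 * X τ) ^ 3) ^ (-(1 / 6) : ℝ) :=
    Real.rpow_pos_of_pos hs0 _
  have h1 : (V (τ ^ 3 * X τ) ^ 3 - U (τ ^ 3 * X τ) ^ 3) *
      ((V (τ ^ 3 * X τ) ^ 3 - U (τ ^ 3 * X τ) ^ 3) ^ (-(1 / 6) : ℝ)) ^ 6 = 1 := by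
    rw [← Real.rpow_mul_natCast hs0.le, show (-(1 / 6) : ℝ) * ((6 : ℕ) : ℝ) = -1 by norm_num,
      Real.rpow_neg_one]
    exact mul_inv_cancel₀ hs0.ne'
  have hr : 0 < √(D τ) := Real.sqrt_pos.2 hD0
  have hr2 : √(D τ) ^ 2 = D τ := Real.sq_sqrt hD0.le
  generalize (V (τ ^ 3 * X τ) ^ 3 - U (τ ^ 3 * X τ) ^ 3) ^ (-(1 / 6) : ℝ) = Y at hY h1 ⊢
  generalize √(D τ) = r at hr hr2 ⊢
  generalize V (τ ^ 3 * X τ) = v at hv hlt hs0 h1 ⊢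
  generalize U (τ ^ 3 * X τ) = u at hlt hs0 h1 ⊢
  generalize B (τ ^ 3 * X τ) = b at hB ⊢
  generalize A (τ ^ 3 * X τ) = a
  have hε2 : ε ^ 2 = 1 := by rcases hε with rfl | rfl <;> norm_num
  have hf : v ^ 3 - u ^ 3 = (v - u) * (v ^ 2 + v * u + u ^ 2) := by ring
  have hvu : v - u ≠ 0 := (sub_pos.2 hlt).ne'
  have hN : v ^ 2 + v * u + u ^ 2 ≠ 0 := by
    intro h0
    rw [hf, h0, mul_zero] at hs0
    exact lt_irrefl _ hs0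
  have hρ : (τ * (r * Y)) ^ 2 = ε * v * Y ^ 2 := by
    rw [hv, ← hr2]
    linear_combination -(τ ^ 2 * r ^ 2 * Y ^ 2) * hε2
  rw [cuspode_chi hε hY h1 hρ]
  have e1 : -3 * (a + b * v ^ 2) * (τ ^ 2 * (3 * X τ + τ * X')) -
      -3 * (a + b * u ^ 2) * (τ ^ 2 * (3 * X τ + τ * X')) =
      9 / 2 * (v / r ^ 2) * D' * ((v - u) * (v + u)) := by
    have e2 : v / r ^ 2 = ε * τ ^ 2 := by
      rw [div_eq_iff (pow_ne_zero 2 hr.ne'), hr2]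
      exact hv
    rw [e2]
    linear_combination (-3 * τ ^ 2 * (v ^ 2 - u ^ 2)) * hB
  rw [e1, hf, ← hr2]
  have hr0 := hr.ne'
  field_simp
  ring

end Pool.Agent.MP_c2f0e4_an
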