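import Pool.Agent.MP_c2f0e4_an.Iface

open Set Filter Topology Real Asymptotics

namespace Pool.Agent.MP_c2f0e4_an

lemma cuspxd_inv {h : ℝ → ℝ} (hh : AnalyticAt ℝ h 0) (h0 : h 0 = 0) :
    ∃ s : ℝ → ℝ, AnalyticAt ℝ s 0 ∧ s 0 = 0 ∧ ∀ᶠ x in 𝓝 (0 : ℝ), s x = x * exp (-h (s x)) := by
  have hτ : AnalyticAt ℝ (fun t => t * exp (h t)) 0 := analyticAt_id.mul hh.rexp
  have hd : HasDerivAt (fun t => t * exp (h t)) 1 0 :=
    ((hasDerivAt_id' (0 : ℝ)).mul hh.differentiableAt.hasDerivAt.exp).congr_deriv (by simp [h0])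
  have hne : deriv (fun t => t * exp (h t)) 0 ≠ 0 := by rw [hd.deriv]; exact one_ne_zero
  have h1 := hτ.analyticAt_localInverse hne
  have h2 : hτ.hasStrictDerivAt.localInverse _ _ _ hne ((fun t => t * exp (h t)) 0) = 0 :=
    HasStrictFDerivAt.localInverse_apply_image ..
  have h3 := HasStrictDerivAt.eventually_right_inverse hτ.hasStrictDerivAt hne
  simp only [zero_mul] at h1 h2 h3
  refine ⟨_, h1, h2, h3.mono fun x hx => ?_⟩
  generalize hτ.hasStrictDerivAt.localInverse _ _ _ hne x = y at hx ⊢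
  rw [← hx, mul_assoc, ← exp_add, add_neg_cancel, exp_zero, mul_one]

theorem cuspXDS (hCuspW : CuspWStmt) (hBB : BBStmt) : CuspXDStmt := by
  intro ε A B V hε hA hB hV hA0 hA1 hV0
  obtain ⟨W, hW, hW0, hVW⟩ := hCuspW ε A B V hε hA hB hV hA0 hA1 hV0
  have hεε : ε * ε = 1 := by rcases hε with h | h <;> rw [h] <;> norm_num
  have hε0 : ε ≠ 0 := by rintro rfl; norm_num at hεε
  have hg : AnalyticAt ℝ (fun t : ℝ => B (t ^ 3) / W t) 0 :=
    ((hB _).comp (f := fun t : ℝ => t ^ 3) (analyticAt_id.pow 3)).div hW (by rwa [hW0])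
  obtain ⟨Y, hY, -, hode, -⟩ := hBB (fun p => B (p.1 ^ 3) / W p.1) 1 (B (0 ^ 3) / W 0) le_rfl
    (hg.comp (f := Prod.fst) (x := ((0 : ℝ), B (0 ^ 3) / W 0)) analyticAt_fst) (one_mul _).symm
    (hasDerivAt_const _ (B (0 ^ 3) / W 0))
  have hεW : AnalyticAt ℝ (fun t => ε * W t) 0 := analyticAt_const.mul hW
  have hpos0 : 0 < ε * W 0 := by rw [hW0, hεε]; exact one_pos
  have hh : AnalyticAt ℝ (fun t => log (ε * W t) / 2 + t * Y t) 0 :=
    (((analyticAt_log hpos0).comp (f := fun t => ε * W t) hεW).div analyticAt_const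
      two_ne_zero).add (analyticAt_id.mul hY)
  obtain ⟨s, hs, hs0, hsx⟩ := cuspxd_inv hh (by rw [hW0, hεε]; simp)
  set κ : ℝ → ℝ := fun x => exp (-(log (ε * W (s x)) / 2 + s x * Y (s x))) with hκ
  set D : ℝ → ℝ := fun x => exp (-2 * (s x * Y (s x))) with hD
  have hκa : AnalyticAt ℝ κ 0 := (hh.comp_of_eq hs hs0).neg.rexp
  have hDa : AnalyticAt ℝ D 0 := (analyticAt_const.mul (hs.mul (hY.comp_of_eq hs hs0))).rexp
  have ht : Tendsto s (𝓝 0) (𝓝 0) := by simpa only [ContinuousAt, hs0] using hs.continuousAt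
  have hpos : ∀ᶠ x in 𝓝 (0 : ℝ), 0 < ε * W (s x) :=
    ht.eventually (hεW.continuousAt.eventually (lt_mem_nhds hpos0))
  have hkW : ∀ᶠ x in 𝓝 (0 : ℝ), κ x ^ 2 * W (s x) = ε * D x := by
    filter_upwards [hpos] with x hx
    have h1 : κ x ^ 2 * (ε * W (s x)) = D x := by
      conv_lhs => rw [← exp_log hx]
      simp only [hκ, hD]
      rw [← exp_nat_mul, ← exp_add]
      congr 1
      push_cast
      ring
    linear_combination ε * h1 - κ x ^ 2 * W (s x) * hεε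
  have hF : ∀ᶠ x in 𝓝 (0 : ℝ), V (x ^ 3 * κ x ^ 3) = ε * x ^ 2 * D x := by
    filter_upwards [hkW, hsx, ht.eventually hVW] with x h1 h2 h3
    have h2' : s x = x * κ x := h2
    rw [← mul_pow, ← h2', h3]
    conv_lhs => rw [h2', mul_pow, ← h2']
    linear_combination x ^ 2 * h1
  refine ⟨fun x => κ x ^ 3, D, hκa.pow 3, hDa, by simp [hκ, hs0, hW0, hεε], by simp [hD, hs0], ?_⟩
  filter_upwards [hF.eventually_nhds, hsx.eventually_nhds, hkW, hpos, hκa.eventually_analyticAt,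
    ht.eventually hY.eventually_analyticAt, ht.eventually hode] with x h1 h2 h3 h4 h5 h6 h7
  have h2' : s =ᶠ[𝓝 x] fun y => y * κ y := h2
  have hx : s x = x * κ x := h2'.eq_of_nhds
  have dκ := h5.differentiableAt.hasDerivAt
  have dY := h6.differentiableAt.hasDerivAt
  have ds : HasDerivAt s (κ x + x * deriv κ x) x :=
    (((hasDerivAt_id' x).mul dκ).congr_deriv (by ring)).congr_of_eventuallyEq h2'
  have dX : HasDerivAt (fun y => κ y ^ 3) (3 * κ x ^ 2 * deriv κ x) x :=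
    (dκ.pow 3).congr_deriv (by norm_num)
  have hW' : W (s x) ≠ 0 := fun h => by rw [h, mul_zero] at h4; exact lt_irrefl _ h4
  have h7' : s x * deriv Y (s x) + Y (s x) = B (s x ^ 3) / W (s x) := by simpa using h7
  have dD : HasDerivAt D (-2 * (B (s x ^ 3) / W (s x)) * (κ x + x * deriv κ x) * D x) x := by
    refine ((ds.mul (dY.comp x ds)).const_mul (-2)).exp.congr_deriv ?_
    rw [← h7']
    simp only [hD, Function.comp_apply, Pi.mul_apply]
    ring
  have e2 : B (x ^ 3 * κ x ^ 3) * (3 * κ x ^ 3 + x * deriv (fun y => κ y ^ 3) x) =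
      -(3 / 2) * ε * deriv D x := by
    rw [dX.deriv, dD.deriv, ← mul_pow, ← hx]
    field_simp
    linear_combination B (s x ^ 3) * (κ x + x * deriv κ x) * h3
  refine ⟨h1.self_of_nhds, e2, ?_⟩
  by_cases hx0 : x = 0
  · subst hx0
    simp [hA0]
  rw [dX.deriv] at e2 ⊢
  have d1 : HasDerivAt (fun y => y ^ 3 * κ y ^ 3)
      (x ^ 2 * (3 * κ x ^ 3 + x * (3 * κ x ^ 2 * deriv κ x))) x :=
    (((hasDerivAt_id' x).pow 3).mul dX).congr_deriv (by simp; ring)
  have d2 := (hV.2 (x ^ 3 * κ x ^ 3)).comp x d1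
  have dD' := dD.differentiableAt.hasDerivAt
  have d3 : HasDerivAt (fun y => (ε * y ^ 2 * D y) ^ 3)
      (3 * (ε * x ^ 2 * D x) ^ 2 * (ε * (2 * x) * D x + ε * x ^ 2 * deriv D x)) x :=
    (((((hasDerivAt_id' x).pow 2).const_mul ε).mul dD').pow 3).congr_deriv (by simp)
  have d4 := d2.unique (d3.congr_of_eventuallyEq (h1.mono fun y hy => by
    simp only [Function.comp_apply]; rw [hy]))
  rw [h1.self_of_nhds] at d4
  apply mul_left_cancel₀ (pow_ne_zero 2 hx0)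
  linear_combination (-1 / 3) * d4 - x ^ 6 * D x ^ 2 * e2 -
    (x ^ 6 * D x ^ 2 * B (x ^ 3 * κ x ^ 3) * (3 * κ x ^ 3 + x * (3 * κ x ^ 2 * deriv κ x)) +
      ε * x ^ 4 * D x ^ 2 * (2 * x * D x + x ^ 2 * deriv D x)) * hεε

end Pool.Agent.MP_c2f0e4_an
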