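import Pool.Agent.MP_c2f0e4_an.Iface

open Set Filter Topology Real Asymptotics

namespace Pool.Agent.MP_c2f0e4_an

lemma d1_lin {A B V : ℝ → ℝ} {δ C : ℝ} (hB : Continuous B) (hV : Sol A B V)
    (hA : ∀ x ∈ Icc 0 δ, A x ≤ C * x ^ 2) (h0 : V 0 = 0) :
    ∃ K : ℝ, 0 < K ∧ ∀ x ∈ Ioc 0 δ, -V x ≤ K * x := by
  obtain ⟨M, hM⟩ := isCompact_Icc.exists_bound_of_continuousOn (hB.continuousOn (s := Icc 0 δ))
  refine ⟨|M| + |C| + 1, by positivity, fun x hx => le_of_forall_pos_lt_add fun ε hε => ?_⟩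
  set K := |M| + |C| + 1 with hK
  have hK1 : 1 ≤ K := by have := abs_nonneg M; have := abs_nonneg C; linarith
  have := pos_of_deriv_pos_at_zeros (f := fun y => K * y + ε + V y) (a := 0) (b := δ)
    (((continuous_const.mul continuous_id).add continuous_const).add hV.1).continuousOn
    (by simp [h0, hε.le]) (fun y hy hy0 => by
      have hVy : V y = -(K * y + ε) := by linarith
      have hKy : y ≤ K * y := le_mul_of_one_le_left hy.1 hK1
      have hlt : V y < 0 := by rw [hVy]; linarith [hy.1]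
      have hd := hV.hasDerivAt hlt.ne
      have hd2 : HasDerivAt (fun y => K * y + ε) K y := by
        simpa using ((hasDerivAt_id y).const_mul K).add_const ε
      refine ⟨_, hd2.add hd, ?_⟩
      have hB1 : B y ≤ |M| := (le_abs_self _).trans ((hM y hy).trans (le_abs_self _))
      have hV2 : 0 < V y ^ 2 := sq_pos_of_neg hlt
      have hy2 : y ^ 2 ≤ V y ^ 2 := by
        rw [hVy, neg_sq]
        exact pow_le_pow_left₀ hy.1 (by linarith) 2
      have hA1 : A y / V y ^ 2 ≤ |C| := by
        rw [div_le_iff₀ hV2]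
        calc A y ≤ C * y ^ 2 := hA y hy
          _ ≤ |C| * y ^ 2 := mul_le_mul_of_nonneg_right (le_abs_self _) (sq_nonneg _)
          _ ≤ |C| * V y ^ 2 := mul_le_mul_of_nonneg_left hy2 (abs_nonneg _)
      linarith) x hx
  linarith

lemma d1_deriv {A B V U : ℝ → ℝ} (hV : Sol A B V) (hU : Sol A B U) {x : ℝ} (h1 : V x ≠ 0)
    (h2 : U x ≠ 0) : HasDerivAt (fun y => V y - U y)
      ((V x - U x) * (A x * (U x + V x) / (U x ^ 2 * V x ^ 2))) x :=
  ((hV.hasDerivAt h1).sub (hU.hasDerivAt h2)).congr_deriv (by field_simp; ring)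

theorem d1S : D1Stmt := by
  intro A B V U δ c C _ hB hT hδ hc hA h0 hneg a ha b hb
  obtain ⟨K, hK, hKx⟩ := d1_lin (δ := δ) (C := C) hB hT.solV
    (fun x hx => (hA x ⟨by linarith [hx.1], hx.2⟩).2) h0
  have hs : ∀ n x, 0 < V x - U n x := fun n x => sub_pos.2 (hT.lt n x)
  have hcont : ∀ n, Continuous fun y => V y - U n y := fun n => hT.solV.1.sub (hT.solU n).1
  set k := c / (2 * K ^ 3) with hk
  have hkpos : 0 < k := by positivity
  rw [tendsto_order]
  refine ⟨fun e he => Eventually.of_forall fun n => he.trans (div_pos (hs n b) (hs n a)),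
    fun e he => ?_⟩
  set L := |Real.log e| + 1 with hL
  have hLpos : 0 < L := by positivity
  set η := b * Real.exp (-(L / k)) with hη
  have hη0 : 0 < η := mul_pos hb.1 (Real.exp_pos _)
  have hηb : η ≤ b := mul_le_of_le_one_right hb.1.le
    (Real.exp_le_one_iff.2 (neg_nonpos.2 (div_pos hLpos hkpos).le))
  have hlog : Real.log η = Real.log b - L / k := by
    rw [hη, Real.log_mul hb.1.ne' (Real.exp_pos _).ne', Real.log_exp]; ring
  have hin : ∀ x ∈ Icc η b, x ∈ Icc (-δ) δ := fun x hx =>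
    ⟨by linarith [hx.1], hx.2.trans hb.2⟩
  obtain ⟨x0, hx0, hmax⟩ := (isCompact_Icc (a := η) (b := b)).exists_isMaxOn
    (nonempty_Icc.2 hηb) hT.solV.1.continuousOn
  have hm : 0 < -V x0 := neg_pos.2 (hneg x0 (hin x0 hx0) (hη0.trans_le hx0.1).ne')
  filter_upwards [Metric.tendstoUniformly_iff.1 hT.unif _ hm] with n hn
  have h1 : (V η - U n η) - (V a - U n a) ≤ 0 * (η - a) := by
    refine sub_le_of_deriv_le (f := fun y => V y - U n y) (finite_singleton (0 : ℝ))
      (ha.2.le.trans hη0.le) (hcont n).continuousOn fun x hx hx0 => ?_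
    have hxI : x ∈ Icc (-δ) δ := ⟨ha.1.trans hx.1.le, hx.2.le.trans (hηb.trans hb.2)⟩
    have hVx : V x < 0 := hneg x hxI hx0
    have hUx : U n x < 0 := (hT.lt n x).trans hVx
    refine ⟨_, d1_deriv hT.solV (hT.solU n) hVx.ne hUx.ne, ?_⟩
    have hAx : 0 ≤ A x := le_trans (by positivity) (hA x hxI).1
    exact mul_nonpos_of_nonneg_of_nonpos (hs n x).le (div_nonpos_of_nonpos_of_nonneg
      (mul_nonpos_of_nonneg_of_nonpos hAx (by linarith)) (by positivity))
  have h2 : (Real.log (V b - U n b) + k * Real.log b) -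
      (Real.log (V η - U n η) + k * Real.log η) ≤ 0 * (b - η) := by
    refine sub_le_of_deriv_le (f := fun y => Real.log (V y - U n y) + k * Real.log y)
      finite_empty hηb ?_ fun x hx _ => ?_
    · refine (((hcont n).log fun x => (hs n x).ne').continuousOn).add
        (continuousOn_const.mul (continuousOn_id.log fun x hx => (hη0.trans_le hx.1).ne'))
    · have hx' : x ∈ Icc η b := Ioo_subset_Icc_self hx
      have hxpos : 0 < x := hη0.trans hx.1
      have hxI := hin x hx'
      have hVx : V x < 0 := hneg x hxI hxpos.ne'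
      have hUV := hT.lt n x
      have hUx : U n x < 0 := hUV.trans hVx
      refine ⟨_, ((d1_deriv hT.solV (hT.solU n) hVx.ne hUx.ne).log (hs n x).ne').add
        ((Real.hasDerivAt_log hxpos.ne').const_mul k), ?_⟩
      rw [mul_div_cancel_left₀ _ (hs n x).ne']
      have hd := hn x
      rw [Real.dist_eq, abs_of_pos (hs n x)] at hd
      have hmx : V x ≤ V x0 := hmax hx'
      have hu2 : -U n x ≤ 2 * -V x := by linarith
      have hv : -V x ≤ K * x := hKx x ⟨hxpos, hxI.2⟩
      have hAx : c * x ^ 2 ≤ A x := (hA x hxI).1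
      obtain ⟨u, hU'⟩ : ∃ u, U n x = -u := ⟨_, (neg_neg _).symm⟩
      obtain ⟨v, hV'⟩ : ∃ v, V x = -v := ⟨_, (neg_neg _).symm⟩
      have hupos : 0 < u := by linarith
      have hvpos : 0 < v := by linarith
      rw [hU', hV', neg_neg, neg_neg] at hu2
      rw [hV', neg_neg] at hv
      rw [hU', hV', neg_sq, neg_sq]
      have e1 : k * x⁻¹ ≤ A x * (u + v) / (u ^ 2 * v ^ 2) := by
        rw [le_div_iff₀ (by positivity)]
        have e2 : u * v ^ 2 ≤ 2 * (K * x) ^ 3 := by
          calc u * v ^ 2 ≤ (2 * v) * v ^ 2 := mul_le_mul_of_nonneg_right hu2 (sq_nonneg _)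
            _ = 2 * v ^ 3 := by ring
            _ ≤ 2 * (K * x) ^ 3 := by gcongr
        calc k * x⁻¹ * (u ^ 2 * v ^ 2) = k * x⁻¹ * u * (u * v ^ 2) := by ring
          _ ≤ k * x⁻¹ * u * (2 * (K * x) ^ 3) :=
            mul_le_mul_of_nonneg_left e2 (by positivity)
          _ = c * x ^ 2 * u := by rw [hk]; field_simp
          _ ≤ A x * (u + v) := mul_le_mul hAx (by linarith) hupos.le
            (le_trans (by positivity) hAx)
      have e3 : A x * (-u + -v) / (u ^ 2 * v ^ 2) = -(A x * (u + v) / (u ^ 2 * v ^ 2)) := by ring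
      rw [e3]
      linarith
  have h3 : Real.log (V b - U n b) < Real.log (e * (V η - U n η)) := by
    rw [Real.log_mul he.ne' (hs n η).ne']
    have e4 : k * Real.log η = k * Real.log b - L := by rw [hlog]; field_simp
    have := neg_abs_le (Real.log e)
    linarith
  have h4 := (Real.log_lt_log_iff (hs n b) (mul_pos he (hs n η))).1 h3
  rw [div_lt_iff₀ (hs n a)]
  exact h4.trans_le (mul_le_mul_of_nonneg_left (by linarith) he.le)

end Pool.Agent.MP_c2f0e4_an
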