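import Pool.Agent.MP_c2f0e4_an.Iface

open Set Filter Topology Real Asymptotics

namespace Pool.Agent.MP_c2f0e4_an

lemma dblcore_an {f : ℝ → ℝ} (hf : AnalyticAt ℝ f 0) : AnalyticAt ℝ (dslope f 0) 0 := by
  obtain ⟨p, hp⟩ := hf
  exact hp.has_fpower_series_dslope_fslope.analyticAt

lemma dblcore_eq (f : ℝ → ℝ) (x : ℝ) : f x = f 0 + x * dslope f 0 x := by
  have := sub_smul_dslope f 0 x
  rw [sub_zero, smul_eq_mul] at this
  linarith

lemma dblcore_G (a a' : ℝ) : ∃ G : ℝ → ℝ, AnalyticAt ℝ G 0 ∧ G 0 = a ∧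
    ∀ x, Cub 0 0 a a' x = x ^ 2 * G x := by
  have h : AnalyticAt ℝ (dslope sin 0) 0 := dblcore_an (by fun_prop)
  refine ⟨fun x => dslope sin 0 x ^ 2 * (a * cos x + a' * sin x), (h.pow 2).mul (by fun_prop),
    by simp, fun x => ?_⟩
  have h1 := dblcore_eq sin x
  rw [sin_zero, zero_add] at h1
  simp only [Cub]
  rw [← mul_assoc, ← mul_pow, ← h1]
  ring

/-- the regular transit around the circle -/
lemma dblcore_tr (hTr : TrStmt) {A B V : ℝ → ℝ} {U : ℕ → ℝ → ℝ} (hA : An A) (hB : An B)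
    (T : Top A B V U) (O : One A V 0) {x y : ℝ} (hx : 0 < x) (hx1 : x < 1) (hy : y < 0)
    (hy1 : -1 < y) (hVx : V x ≠ 0) (hVy : V y ≠ 0) :
    ∃ Φ : ℝ → ℝ, AnalyticAt ℝ Φ 0 ∧ Φ 0 = 0 ∧ 0 < deriv Φ 0 ∧
      ∀ᶠ n in atTop, V y - U n y = Φ (V x - U n x) := by
  have := two_le_pi
  obtain ⟨-, Φ, h1, h2, h3, h4⟩ := hTr A B V U x (y + 2 * π) hA hB T.toTop0 (by linarith)
    (fun z hz h0 h1 => O.2 z ⟨by linarith [hz.1], by linarith [hz.2]⟩ ⟨h0, h1⟩) hVx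
    (by rwa [T.perV y])
  refine ⟨Φ, h1, h2, h3, h4.mono fun n hn => ?_⟩
  rwa [T.perV y, T.perU n y] at hn

lemma dblcore_left (hD1 : D1Stmt) (hTr : TrStmt) {A B V : ℝ → ℝ} {U : ℕ → ℝ → ℝ} (hA : An A)
    (hB : An B) (T : Top A B V U) (O : One A V 0) {δ c C : ℝ} (hδ : 0 < δ) (hδ1 : δ < 1)
    (hc : 0 < c) (hb : ∀ x ∈ Icc (-δ) δ, c * x ^ 2 ≤ A x ∧ A x ≤ C * x ^ 2) :
    ¬ ∀ x ∈ Icc (-δ) δ, x ≠ 0 → V x < 0 := by
  intro hV
  have h1 := hD1 A B V U δ c C hA.continuous hB.continuous T.toTop0 hδ hc hb O.1.2 hV (-δ)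
    ⟨le_rfl, by linarith⟩ δ ⟨hδ, le_rfl⟩
  obtain ⟨Φ, p1, p2, -, p4⟩ := dblcore_tr hTr hA hB T O hδ hδ1 (y := -δ) (by linarith)
    (by linarith) (hV δ ⟨by linarith, le_rfl⟩ hδ.ne').ne
    (hV (-δ) ⟨le_rfl, by linarith⟩ (by linarith)).ne
  have h2 : Tendsto (fun n => V δ - U n δ) atTop (𝓝 0) := by
    have := (T.toTop0.tendsto δ).const_sub (V δ)
    rwa [sub_self] at this
  have h3 := h1.mul ((dblcore_an p1).continuousAt.tendsto.comp h2)
  rw [zero_mul] at h3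
  refine zero_ne_one (tendsto_nhds_unique h3 (tendsto_const_nhds.congr' ?_))
  filter_upwards [p4] with n hn
  have h4 : V (-δ) - U n (-δ) ≠ 0 := (sub_pos.2 (T.lt n _)).ne'
  rw [dblcore_eq Φ, p2, zero_add] at hn
  simp only [Function.comp_def]
  rw [div_mul_eq_mul_div, ← hn, div_self h4]

theorem dblCoreS (hD1 : D1Stmt) (hKappa : KappaStmt) (hModel : ModelStmt) (hBar : BarStmt) (hCore : CoreStmt) (hJ1 : J1Stmt) (hJ2a : J2aStmt) (hJ2b : J2bStmt) (hJ2c : J2cStmt) (hTrig : TrigStmt) (hTr : TrStmt) : DblCoreStmt := by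
  intro a a' b0 b1 V U ha T O
  have hA := Cub.an 0 0 a a'
  have hB := Lin.an b0 b1
  have V0 : V 0 = 0 := O.1.2
  obtain ⟨G, G1, G2, G3⟩ := dblcore_G a a'
  obtain ⟨δ, hδ, hδ1, hG⟩ : ∃ δ : ℝ, 0 < δ ∧ δ < 1 ∧ ∀ x ∈ Icc (-δ) δ, a / 2 < G x ∧ G x < 2 * a := by
    have e1 : ∀ᶠ x in 𝓝 (0 : ℝ), a / 2 < G x ∧ G x < 2 * a :=
      G1.continuousAt.eventually (Ioo_mem_nhds (by linarith) (by linarith))
    obtain ⟨ε, hε, e2⟩ := Metric.eventually_nhds_iff.1 e1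
    have m1 := min_le_left (ε / 2) (1 / 2)
    have m2 := min_le_right (ε / 2) (1 / 2)
    refine ⟨min (ε / 2) (1 / 2), by positivity, by linarith, fun x hx => e2 ?_⟩
    rw [Real.dist_eq, sub_zero, abs_lt]
    exact ⟨by linarith [hx.1], by linarith [hx.2]⟩
  have hb : ∀ x ∈ Icc (-δ) δ, a / 2 * x ^ 2 ≤ Cub 0 0 a a' x ∧ Cub 0 0 a a' x ≤ 2 * a * x ^ 2 :=
    fun x hx => by
      rw [G3, mul_comm (x ^ 2)]
      exact ⟨mul_le_mul_of_nonneg_right (hG x hx).1.le (sq_nonneg x),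
        mul_le_mul_of_nonneg_right (hG x hx).2.le (sq_nonneg x)⟩
  have hpos : ∀ x ∈ Icc (-δ) δ, x ≠ 0 → 0 < Cub 0 0 a a' x := fun x hx h0 =>
    lt_of_lt_of_le (by positivity) (hb x hx).1
  have hR0 : ∀ x ∈ Ico 0 δ, V x ≤ 0 := fun x hx => T.toTop0.nonpos fun n =>
    (T.solU n).neg_of_neg_left (fun y hy => hpos y ⟨by linarith [hy.1], hy.2.le⟩ hy.1.ne')
      ((T.lt n 0).trans_eq V0) x hx
  have hR : ∀ x ∈ Ioo 0 δ, V x < 0 := fun x hx => not_le.1 fun h0 => by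
    have h1 := T.solV.pos_backward (a := x / 2) (b := x) (fun y hy _ => hpos y
      ⟨by linarith [hy.1, hx.1], by linarith [hy.2, hx.2]⟩ (by linarith [hy.1, hx.1])) h0 (x / 2)
      ⟨le_rfl, by linarith [hx.1]⟩
    exact absurd (hR0 (x / 2) ⟨by linarith [hx.1], by linarith [hx.1, hx.2]⟩) (not_le.2 h1)
  have hL : ∀ x ∈ Ioo (-δ) 0, 0 < V x := fun x hx => not_le.1 fun h0 => by
    obtain ⟨x1, x2⟩ := hx
    refine dblcore_left hD1 hTr hA hB T O (δ := -x / 2) (by linarith) (by linarith) (half_pos ha)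
      (fun y hy => hb y ⟨by linarith [hy.1], by linarith [hy.2]⟩) fun y hy y0 => ?_
    rcases lt_or_gt_of_ne y0 with h | h
    · exact T.solV.neg_forward (a := x) (b := y) (fun z hz _ => hpos z
        ⟨by linarith [hz.1], by linarith [hz.2]⟩ (by linarith [hz.2])) h0 y
        ⟨by linarith [hy.1], le_rfl⟩
    · exact hR y ⟨h, by linarith [hy.2]⟩
  have hS : ∀ᶠ x in 𝓝[≠] (0 : ℝ), x * V x < 0 := by
    filter_upwards [nhdsWithin_le_nhds (Ioo_mem_nhds (neg_lt_zero.2 hδ) hδ), self_mem_nhdsWithin]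
      with x hx x0
    rcases lt_or_gt_of_ne (show x ≠ 0 from x0) with h | h
    · exact mul_neg_of_neg_of_pos h (hL x ⟨hx.1, h⟩)
    · exact mul_neg_of_pos_of_neg h (hR x ⟨h, hx.2⟩)
  obtain ⟨κ, k1, k2, k3, k4⟩ := hKappa _ _ G V G1 (hB 0) (G2 ▸ ha) (Eventually.of_forall G3) T.solV
    V0 hS
  obtain ⟨m, h, d0, M, hh, hBm⟩ := hModel _ _ V κ U (hB 0) T.toTop0 k1 k2 k4
  have k5 : (fun x => x * κ x) =ᶠ[𝓝 0] V := k4.mono fun x hx => hx.symm
  have aV : AnalyticAt ℝ V 0 := (analyticAt_id.mul k1).congr k5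
  have dV : deriv V 0 = κ 0 := by
    have := ((hasDerivAt_id' (0 : ℝ)).mul k1.differentiableAt.hasDerivAt).congr_of_eventuallyEq
      k5.symm
    rw [this.deriv]; ring
  have m1 : -1 < m 0 := by
    have e1 := hBm.self_of_nhds
    rw [V0, dV] at e1
    rw [e1, G2] at k3
    have e2 : κ 0 ^ 3 < 0 := Odd.pow_neg (by decide) k2
    by_contra hn
    nlinarith [mul_nonneg_of_nonpos_of_nonpos e2.le (show 1 + m 0 ≤ 0 by linarith)]
  have m3 := hBar m d0 _ M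
  have MT : ModelTr d0 fun n ξ => U n (h ξ) := fun d hd => by
    obtain ⟨p1, p2, p3⟩ := hh d ⟨by linarith [hd.1, hd.2], hd.2⟩
    obtain ⟨q1, q2, q3⟩ := hh (-d) ⟨by linarith [hd.2], by linarith [hd.1, hd.2]⟩
    have p4 := p3 hd.1.ne'
    have q4 := q3 (neg_ne_zero.2 hd.1.ne')
    have := dblcore_tr hTr hA hB T O (x := h (-d)) (y := h d) (by nlinarith [hd.1])
      (abs_lt.1 q2).2 (by nlinarith [hd.1]) (abs_lt.1 p2).1
      (by rw [q1]; exact neg_ne_zero.2 hd.1.ne') (by rw [p1]; exact hd.1.ne')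
    rwa [p1, q1] at this
  have amu := dblcore_an M.an
  have C1 := hCore m _ (m 0) d0 _ M MT m1 m3 amu (dblcore_eq m)
  have J1 := hJ1 m _ (m 0) d0 _ M m1 m3 amu (dblcore_eq m) C1
  have amt := dblcore_an amu
  have emu : dslope m 0 = fun ξ => ξ * dslope (dslope m 0) 0 ξ := funext fun ξ => by
    rw [dblcore_eq (dslope m 0) ξ, J1, zero_add]
  have em : ∀ ξ, m ξ = m 0 + ξ * (ξ * dslope (dslope m 0) 0 ξ) := fun ξ => by
    rw [← congrFun emu ξ]; exact dblcore_eq m ξ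
  rw [emu] at C1
  refine hTrig a a' b0 b1 (m 0) V m _ ha.ne' aV V0 (dV ▸ k2.ne) ?_ hBm amt em fun m0 => ?_
  · filter_upwards [aV.eventually_analyticAt] with x hx
    have := (hx.differentiableAt.hasDerivAt.pow 3).unique (T.solV.2 x)
    norm_num at this
    linarith
  · rcases lt_trichotomy (m 0) (-1 / 2) with e | e | e
    · exact hJ2c m _ (m 0) d0 _ M MT m1 e amt em C1
    · exact hJ2b m _ d0 _ M amt (e ▸ C1)
    · exact hJ2a m _ (m 0) d0 _ M e m3 m0 amt em C1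

end Pool.Agent.MP_c2f0e4_an
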