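import Pool.Agent.MP_c2f0e4_an.Iface

open Set Filter Topology Real Asymptotics

namespace Pool.Agent.MP_c2f0e4_an

/-- mean value inequality on an open interval -/
lemma exist_mvt {f d : ℝ → ℝ} {a b C x y : ℝ} (hd : ∀ z ∈ Ioo a b, HasDerivAt f (d z) z)
    (hC : ∀ z ∈ Ioo a b, |d z| ≤ C) (hx : x ∈ Ioo a b) (hy : y ∈ Ioo a b) :
    |f y - f x| ≤ C * |y - x| :=
  (convex_Ioo a b).norm_image_sub_le_of_norm_hasDerivWithin_le
    (fun z hz => (hd z hz).hasDerivWithinAt) hC hx hy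

/-- limit of approximate solutions along an ultrafilter -/
lemma exist_limit {F : ℝ × ℝ → ℝ} (hF : Continuous F) {w d : ℕ → ℝ → ℝ} {x0 w0 : ℝ}
    (h0 : ∀ k, w k x0 = w0)
    (hb : ∀ T : ℝ, ∃ R : ℝ, ∀ᶠ k in atTop, ∀ z ∈ Ioo (x0 - T) (x0 + T),
      HasDerivAt (w k) (d k z) z ∧ |w k z| ≤ R ∧ |d k z| ≤ R)
    (he : ∀ T ε : ℝ, 0 < ε → ∀ᶠ k in atTop, ∀ z ∈ Ioo (x0 - T) (x0 + T),
      |d k z - F (z, w k z)| ≤ ε) :
    ∃ v : ℝ → ℝ, v x0 = w0 ∧ ∀ x, HasDerivAt v (F (x, v x)) x := by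
  have hU : (hyperfilter ℕ : Filter ℕ) ≤ atTop := by
    rw [← Nat.cofinite_eq_atTop]; exact hyperfilter_le_cofinite
  have hmem : ∀ x : ℝ, x ∈ Ioo (x0 - (|x - x0| + 1)) (x0 + (|x - x0| + 1)) := fun x =>
    ⟨by linarith [neg_abs_le (x - x0)], by linarith [le_abs_self (x - x0)]⟩
  have hlim : ∀ x : ℝ, ∃ y : ℝ, Tendsto (fun k => w k x) (hyperfilter ℕ) (𝓝 y) := by
    intro x
    obtain ⟨R, hR⟩ := hb (|x - x0| + 1)
    have h1 : ((hyperfilter ℕ).map (fun k => w k x) : Filter ℝ) ≤ 𝓟 (Icc (-R) R) := by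
      rw [le_principal_iff, Ultrafilter.coe_map, mem_map]
      filter_upwards [hU hR] with k hk
      exact abs_le.1 (hk x (hmem x)).2.1
    obtain ⟨y, -, hy⟩ := isCompact_Icc.ultrafilter_le_nhds _ h1
    exact ⟨y, hy⟩
  choose v hv using hlim
  refine ⟨v, ?_, fun x => ?_⟩
  · have h1 := hv x0
    simp only [h0] at h1
    exact tendsto_nhds_unique h1 tendsto_const_nhds
  · rw [hasDerivAt_iff_isLittleO, isLittleO_iff]
    intro c hc
    obtain ⟨R, hR⟩ := hb (|x - x0| + 1)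
    obtain ⟨η, hη, hFη⟩ := Metric.continuousAt_iff.1 (hF.continuousAt (x := (x, v x))) (c / 2)
      (by positivity)
    have hR1 : 0 < |R| + 1 := by positivity
    obtain ⟨δ, hδ, hδ1, hδ2, hδ3⟩ : ∃ δ : ℝ, 0 < δ ∧ δ ≤ 1 ∧ δ ≤ η ∧ (|R| + 1) * δ ≤ η / 2 :=
      ⟨min (min 1 η) (η / 2 / (|R| + 1)), by positivity, (min_le_left _ _).trans (min_le_left _ _),
        (min_le_left _ _).trans (min_le_right _ _), by
          rw [← le_div_iff₀' hR1]; exact min_le_right _ _⟩
    have hsub : Ioo (x - δ) (x + δ) ⊆ Ioo (x0 - (|x - x0| + 1)) (x0 + (|x - x0| + 1)) :=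
      Ioo_subset_Ioo (by linarith [neg_abs_le (x - x0)]) (by linarith [le_abs_self (x - x0)])
    have hx : x ∈ Ioo (x - δ) (x + δ) := ⟨by linarith, by linarith⟩
    filter_upwards [Ioo_mem_nhds hx.1 hx.2] with y hy
    have hk : ∀ᶠ k in (hyperfilter ℕ : Filter ℕ),
        |(w k y - F (x, v x) * y) - (w k x - F (x, v x) * x)| ≤ c * |y - x| := by
      filter_upwards [hU hR, hU (he (|x - x0| + 1) (c / 2) (by positivity)),
        (hv x).eventually (Metric.ball_mem_nhds (v x) (half_pos hη))] with k h1 h2 h3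
      refine exist_mvt (f := fun z => w k z - F (x, v x) * z) (d := fun z => d k z - F (x, v x))
        (fun z hz => ?_) (fun z hz => ?_) hx hy
      · exact ((h1 z (hsub hz)).1.sub ((hasDerivAt_id z).const_mul (F (x, v x)))).congr_deriv
          (by rw [mul_one])
      · have h4 : |w k z - w k x| ≤ R * |z - x| :=
          exist_mvt (fun t ht => (h1 t (hsub ht)).1) (fun t ht => (h1 t (hsub ht)).2.2) hx hz
        have h5 : |z - x| < δ := abs_lt.2 ⟨by linarith [hz.1], by linarith [hz.2]⟩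
        have h6 : R * |z - x| ≤ η / 2 := by
          have : R * |z - x| ≤ (|R| + 1) * δ :=
            mul_le_mul (by linarith [le_abs_self R]) h5.le (abs_nonneg _) hR1.le
          linarith
        have h7 : |w k x - v x| < η / 2 := by simpa [Real.dist_eq] using h3
        have h8 : dist (z, w k z) (x, v x) < η := by
          rw [Prod.dist_eq, max_lt_iff, Real.dist_eq, Real.dist_eq]
          refine ⟨by linarith, ?_⟩
          have := abs_sub_le (w k z) (w k x) (v x)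
          linarith
        have h9 := hFη h8
        rw [Real.dist_eq] at h9
        have := abs_sub_le (d k z) (F (z, w k z)) (F (x, v x))
        linarith [h2 z (hsub hz)]
    have ht : Tendsto (fun k => |(w k y - F (x, v x) * y) - (w k x - F (x, v x) * x)|)
        (hyperfilter ℕ) (𝓝 |(v y - F (x, v x) * y) - (v x - F (x, v x) * x)|) :=
      (((hv y).sub_const _).sub ((hv x).sub_const _)).abs
    have := le_of_tendsto ht hk
    rw [Real.norm_eq_abs, Real.norm_eq_abs, smul_eq_mul]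
    have e : v y - v x - (y - x) * F (x, v x)
        = v y - F (x, v x) * y - (v x - F (x, v x) * x) := by ring
    rw [e]
    exact this

/-- bounded, locally Lipschitz approximations of `cb w ^ 2` -/
noncomputable def existG (k : ℕ) (w : ℝ) : ℝ := min (cb (w ^ 2 + 1 / ((k : ℝ) + 1))) ((k : ℝ) + 1)

lemma exist_cb_sq (w : ℝ) : cb (w ^ 2) = cb w ^ 2 := by rw [sq, cb_mul, sq]

lemma exist_cb_nonneg {x : ℝ} (hx : 0 ≤ x) : 0 ≤ cb x := by
  rw [← cb_zero]; exact cb_strictMono.monotone hx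

lemma exist_cb_add {x y : ℝ} (hx : 0 ≤ x) (hy : 0 ≤ y) : cb (x + y) ≤ cb x + cb y := by
  have h1 := exist_cb_nonneg hx
  have h2 := exist_cb_nonneg hy
  rw [← cube_le, cb_pow]
  have h3 : (cb x + cb y) ^ 3 = cb x ^ 3 + cb y ^ 3 + 3 * (cb x * cb y) * (cb x + cb y) := by ring
  rw [h3, cb_pow, cb_pow]
  have : 0 ≤ 3 * (cb x * cb y) * (cb x + cb y) := by positivity
  linarith

lemma exist_inv_le (k : ℕ) : 1 / ((k : ℝ) + 1) ≤ 1 := by
  rw [div_le_one (by positivity)]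
  linarith [Nat.cast_nonneg (α := ℝ) k]

lemma exist_cb_le (k : ℕ) (w : ℝ) : cb (w ^ 2 + 1 / ((k : ℝ) + 1)) ≤ 1 + |w| := by
  rw [← cube_le, cb_pow, ← sq_abs w]
  have h := abs_nonneg w
  have := exist_inv_le k
  nlinarith [mul_nonneg h h, mul_nonneg (mul_nonneg h h) h]

lemma existG_nonneg (k : ℕ) (w : ℝ) : 0 ≤ existG k w :=
  le_min (exist_cb_nonneg (by positivity)) (by positivity)

lemma existG_le (k : ℕ) (w : ℝ) : existG k w ≤ 1 + |w| := (min_le_left _ _).trans (exist_cb_le k w)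

lemma existG_err (k : ℕ) {w : ℝ} (hw : |w| ≤ k) :
    |existG k w - cb w ^ 2| ≤ cb (1 / ((k : ℝ) + 1)) := by
  have h1 : existG k w = cb (w ^ 2 + 1 / ((k : ℝ) + 1)) :=
    min_eq_left ((exist_cb_le k w).trans (by linarith))
  have h2 := exist_cb_add (x := w ^ 2) (y := 1 / ((k : ℝ) + 1)) (by positivity) (by positivity)
  have h3 : cb (w ^ 2) ≤ cb (w ^ 2 + 1 / ((k : ℝ) + 1)) :=
    cb_strictMono.monotone (le_add_of_nonneg_right (by positivity))
  rw [h1, ← exist_cb_sq, abs_le]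
  constructor <;> linarith [exist_cb_nonneg (x := 1 / ((k : ℝ) + 1)) (by positivity)]

lemma existG_lip (k : ℕ) (w0 a : ℝ) :
    ∃ K : ℝ, 0 ≤ K ∧ ∀ x ∈ Metric.closedBall w0 a, ∀ y ∈ Metric.closedBall w0 a,
      |existG k x - existG k y| ≤ K * |x - y| := by
  have h1 : ContDiff ℝ 1 fun w : ℝ => cb (w ^ 2 + 1 / ((k : ℝ) + 1)) := by
    rw [contDiff_iff_contDiffAt]
    intro w
    exact ((cb_analyticAt (x := w ^ 2 + 1 / ((k : ℝ) + 1)) (by positivity)).comp
      (f := fun w : ℝ => w ^ 2 + 1 / ((k : ℝ) + 1)) (by fun_prop)).contDiffAt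
  obtain ⟨K, hK⟩ := h1.contDiffOn.exists_lipschitzOnWith (s := Metric.closedBall w0 a) one_ne_zero
    (convex_closedBall _ _) (isCompact_closedBall _ _)
  refine ⟨K, K.2, fun x hx y hy => ?_⟩
  have h2 := hK.dist_le_mul x hx y hy
  rw [Real.dist_eq, Real.dist_eq] at h2
  exact (abs_min_sub_min_le_max _ _ _ _).trans (by simpa using h2)

lemma exist_bound {A B : ℝ → ℝ} (hA : Continuous A) (hB : Continuous B) (a b : ℝ) :
    ∃ M : ℝ, 0 ≤ M ∧ ∀ z ∈ Icc a b, |A z| ≤ M ∧ |B z| ≤ M := by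
  obtain ⟨M1, h1⟩ := isCompact_Icc.exists_bound_of_continuousOn (hA.continuousOn (s := Icc a b))
  obtain ⟨M2, h2⟩ := isCompact_Icc.exists_bound_of_continuousOn (hB.continuousOn (s := Icc a b))
  refine ⟨|M1| + |M2|, by positivity, fun z hz => ⟨?_, ?_⟩⟩
  · have := h1 z hz
    rw [Real.norm_eq_abs] at this
    linarith [le_abs_self M1, abs_nonneg M2]
  · have := h2 z hz
    rw [Real.norm_eq_abs] at this
    linarith [le_abs_self M2, abs_nonneg M1]

lemma exist_rhs {a b g M G : ℝ} (ha : |a| ≤ M) (hb : |b| ≤ M) (hg : 0 ≤ g) (hG : g ≤ G) :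
    |-3 * (a + b * g)| ≤ 3 * M * (1 + G) := by
  have h1 : |b * g| ≤ M * G := by
    rw [abs_mul, abs_of_nonneg hg]
    exact mul_le_mul hb hG hg ((abs_nonneg _).trans hb)
  have h2 := abs_add_le a (b * g)
  rw [abs_mul, abs_neg, abs_of_pos (by norm_num : (0 : ℝ) < 3)]
  linarith

/-- solutions of the approximate equations -/
lemma exist_approx {A B : ℝ → ℝ} (hA : Continuous A) (hB : Continuous B) (x0 w0 : ℝ) (k : ℕ) :
    ∃ w : ℝ → ℝ, w x0 = w0 ∧ ∀ z ∈ Ioo (x0 - k) (x0 + k),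
      HasDerivAt w (-3 * (A z + B z * existG k (w z))) z := by
  obtain ⟨M, hM, hMb⟩ := exist_bound hA hB (x0 - k) (x0 + k)
  have hk : (0 : ℝ) ≤ k := Nat.cast_nonneg k
  obtain ⟨L, hL⟩ : ∃ L : NNReal, (L : ℝ) = 3 * M * (1 + ((k : ℝ) + 1)) :=
    ⟨⟨_, by positivity⟩, rfl⟩
  obtain ⟨K, hK, hKb⟩ := existG_lip k w0 (L * k)
  have hP : IsPicardLindelof (fun z w => -3 * (A z + B z * existG k w))
      (⟨x0, by constructor <;> linarith⟩ : Icc (x0 - k) (x0 + k)) w0 (L * k) 0 L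
      ⟨3 * M * K, by positivity⟩ := by
    refine ⟨fun t ht => LipschitzOnWith.of_dist_le_mul fun x hx y hy => ?_, fun x _ => ?_,
      fun t ht x _ => ?_, ?_⟩
    · have h1 := hKb x (by simpa using hx) y (by simpa using hy)
      have h2 : -3 * (A t + B t * existG k x) - -3 * (A t + B t * existG k y)
          = -3 * B t * (existG k x - existG k y) := by ring
      rw [Real.dist_eq, Real.dist_eq, h2, abs_mul, abs_mul, abs_neg,
        abs_of_pos (by norm_num : (0 : ℝ) < 3)]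
      have h3 : |B t| * |existG k x - existG k y| ≤ M * (K * |x - y|) :=
        mul_le_mul (hMb t ht).2 h1 (abs_nonneg _) hM
      show _ ≤ 3 * M * K * |x - y|
      nlinarith
    · fun_prop
    · rw [hL, Real.norm_eq_abs]
      exact exist_rhs (hMb t ht).1 (hMb t ht).2 (existG_nonneg _ _) (min_le_right _ _)
    · simp
  obtain ⟨w, h0, hw⟩ := hP.exists_eq_forall_mem_Icc_hasDerivWithinAt₀
  exact ⟨w, h0, fun z hz => (hw z (Ioo_subset_Icc_self hz)).hasDerivAt (Icc_mem_nhds hz.1 hz.2)⟩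

/-- a priori bound -/
lemma exist_apriori {w d : ℝ → ℝ} {x0 T C : ℝ} (hC : 0 ≤ C)
    (hd : ∀ z ∈ Ioo (x0 - T) (x0 + T), HasDerivAt w (d z) z)
    (hb : ∀ z ∈ Ioo (x0 - T) (x0 + T), |d z| ≤ C * (2 + |w z|)) :
    ∀ z ∈ Ioo (x0 - T) (x0 + T), |w z| ≤ exp (log (1 + w x0 ^ 2) + 4 * C * T) := by
  intro z hz
  have hx : x0 ∈ Ioo (x0 - T) (x0 + T) := ⟨by linarith [hz.1, hz.2], by linarith [hz.1, hz.2]⟩
  have h1 := exist_mvt (f := fun t => log (1 + w t ^ 2))
    (d := fun t => 2 * w t * d t / (1 + w t ^ 2)) (C := 4 * C) (fun t ht => ?_) (fun t ht => ?_) hx hz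
  · have h2 : |z - x0| ≤ T := abs_le.2 ⟨by linarith [hz.1], by linarith [hz.2]⟩
    have h3 : log (1 + w z ^ 2) ≤ log (1 + w x0 ^ 2) + 4 * C * T := by
      have := mul_le_mul_of_nonneg_left h2 (by positivity : 0 ≤ 4 * C)
      linarith [le_abs_self (log (1 + w z ^ 2) - log (1 + w x0 ^ 2))]
    have h4 := (log_le_iff_le_exp (by positivity)).1 h3
    have h5 : |w z| ≤ 1 + w z ^ 2 := by
      rw [← sq_abs]; nlinarith [sq_nonneg (|w z| - 1)]
    linarith
  · have h2 : HasDerivAt (fun t => 1 + w t ^ 2) (2 * w t * d t) t :=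
      (((hd t ht).pow 2).const_add 1).congr_deriv (by simp)
    exact h2.log (by positivity)
  · have h2 := hb t ht
    have h3 := abs_nonneg (w t)
    rw [abs_div, abs_of_pos (by positivity : (0 : ℝ) < 1 + w t ^ 2), div_le_iff₀ (by positivity),
      abs_mul, abs_mul, abs_of_pos (by norm_num : (0 : ℝ) < 2), ← sq_abs]
    have h4 : |w t| * |d t| ≤ |w t| * (C * (2 + |w t|)) := mul_le_mul_of_nonneg_left h2 h3
    nlinarith [mul_nonneg hC (sq_nonneg (|w t| - 1))]

theorem existS : ExistStmt := by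
  intro A B hA hB x0 u0
  choose w h0 hw using exist_approx hA hB x0 (u0 ^ 3)
  have key : ∀ T : ℝ, ∃ M R : ℝ, 0 ≤ M ∧ (∀ z ∈ Ioo (x0 - T) (x0 + T), |A z| ≤ M ∧ |B z| ≤ M) ∧
      ∀ᶠ k : ℕ in atTop, ∀ z ∈ Ioo (x0 - T) (x0 + T),
        HasDerivAt (w k) (-3 * (A z + B z * existG k (w k z))) z ∧ |w k z| ≤ R := by
    intro T
    obtain ⟨M, hM, hMb⟩ := exist_bound hA hB (x0 - T) (x0 + T)
    refine ⟨M, exp (log (1 + (u0 ^ 3) ^ 2) + 4 * (3 * M) * T), hM,
      fun z hz => hMb z (Ioo_subset_Icc_self hz), ?_⟩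
    filter_upwards [tendsto_natCast_atTop_atTop.eventually_ge_atTop T] with k hk
    have hsub : Ioo (x0 - T) (x0 + T) ⊆ Ioo (x0 - k) (x0 + k) :=
      Ioo_subset_Ioo (by linarith) (by linarith)
    intro z hz
    refine ⟨hw k z (hsub hz), ?_⟩
    rw [← h0 k]
    refine exist_apriori (by positivity) (fun t ht => hw k t (hsub ht)) (fun t ht => ?_) z hz
    have h1 := hMb t (Ioo_subset_Icc_self ht)
    have := exist_rhs h1.1 h1.2 (existG_nonneg k (w k t)) (existG_le k (w k t))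
    linarith
  obtain ⟨v, hv0, hv⟩ := exist_limit (F := fun p => -3 * (A p.1 + B p.1 * cb p.2 ^ 2))
    (by have := cb_continuous; fun_prop) (w := w)
    (d := fun k z => -3 * (A z + B z * existG k (w k z))) (x0 := x0) h0 (fun T => by
      obtain ⟨M, R, hM, hMb, h⟩ := key T
      refine ⟨|R| + 3 * M * (1 + (1 + |R|)), ?_⟩
      filter_upwards [h] with k hk z hz
      have h1 := (hk z hz).2.trans (le_abs_self R)
      have h2 := exist_rhs (hMb z hz).1 (hMb z hz).2 (existG_nonneg k (w k z))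
        ((existG_le k (w k z)).trans (by linarith : 1 + |w k z| ≤ 1 + |R|))
      have h3 : 0 ≤ 3 * M * (1 + (1 + |R|)) := by positivity
      exact ⟨(hk z hz).1, by linarith, by linarith [abs_nonneg R]⟩) (fun T ε hε => by
      obtain ⟨M, R, hM, hMb, h⟩ := key T
      have h1 : Tendsto (fun k : ℕ => 3 * M * cb (1 / ((k : ℝ) + 1))) atTop (𝓝 (3 * M * cb 0)) :=
        ((cb_continuous.tendsto 0).comp tendsto_one_div_add_atTop_nhds_zero_nat).const_mul _
      rw [cb_zero, mul_zero] at h1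
      filter_upwards [h, h1.eventually (gt_mem_nhds hε),
        tendsto_natCast_atTop_atTop.eventually_ge_atTop R] with k hk h2 h3 z hz
      have h4 := existG_err k ((hk z hz).2.trans h3)
      have h5 : -3 * (A z + B z * existG k (w k z)) - -3 * (A z + B z * cb (w k z) ^ 2)
          = -3 * B z * (existG k (w k z) - cb (w k z) ^ 2) := by ring
      show |-3 * (A z + B z * existG k (w k z)) - -3 * (A z + B z * cb (w k z) ^ 2)| ≤ ε
      rw [h5, abs_mul, abs_mul, abs_neg, abs_of_pos (by norm_num : (0 : ℝ) < 3)]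
      have h6 := mul_le_mul (hMb z hz).2 h4 (abs_nonneg _) hM
      nlinarith)
  refine ⟨fun x => cb (v x), ⟨cb_continuous.comp
    (continuous_iff_continuousAt.2 fun x => (hv x).continuousAt), fun x => ?_⟩, ?_⟩
  · simpa only [cb_pow] using hv x
  · simp only [hv0, cb_cube]

end Pool.Agent.MP_c2f0e4_an
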