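import Pool.Agent.MP_c2f0e4_an.Iface

open Set Filter Topology Real Asymptotics

namespace Pool.Agent.MP_c2f0e4_an

/-- The pair of functions `(l p, z)` as one function. -/
noncomputable def fpL (l : (ℝ × ℝ) →L[ℝ] C(unitInterval, ℝ × ℝ)) :
    ((ℝ × ℝ) × C(unitInterval, ℝ)) →L[ℝ] C(unitInterval, (ℝ × ℝ) × ℝ) :=
  ((ContinuousLinearMap.inl ℝ (ℝ × ℝ) ℝ).compLeftContinuous ℝ unitInterval).comp
      (l.comp (ContinuousLinearMap.fst ℝ _ _)) +
    ((ContinuousLinearMap.inr ℝ (ℝ × ℝ) ℝ).compLeftContinuous ℝ unitInterval).comp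
      (ContinuousLinearMap.snd ℝ _ _)

lemma fpL_apply (l : (ℝ × ℝ) →L[ℝ] C(unitInterval, ℝ × ℝ))
    (v : (ℝ × ℝ) × C(unitInterval, ℝ)) (t : unitInterval) : fpL l v t = (l v.1 t, v.2 t) := by
  simp [fpL]

theorem fpS (hSup : SupStmt) : FPStmt := by
  intro K l c c0 G y0 hG hd h0
  obtain ⟨N, hN, hev⟩ := hSup G (0, y0) hG
  set u : (ℝ × ℝ) × C(unitInterval, ℝ) := (0, ContinuousMap.const unitInterval y0) with hu
  have hLu : fpL l u = ContinuousMap.const unitInterval ((0 : ℝ × ℝ), y0) := by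
    ext1 t; rw [fpL_apply]; simp [hu]
  rw [← hLu] at hN hev
  have hev' : ∀ᶠ v in 𝓝 u, ∀ t, N (fpL l v) t = G (l v.1 t, v.2 t) := by
    filter_upwards [(fpL l).continuous.continuousAt.eventually hev] with v hv t
    rw [hv t, fpL_apply]
  have hNu : N (fpL l u) = ContinuousMap.const unitInterval (G (0, y0)) := by
    ext1 t; rw [hev'.self_of_nhds t]; simp [hu]
  set Φ : (ℝ × ℝ) × C(unitInterval, ℝ) → C(unitInterval, ℝ) :=
    fun v => v.2 - c0 - c v.1 - K (N (fpL l v)) with hΦ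
  have hNL : AnalyticAt ℝ (fun v => N (fpL l v)) u := hN.comp ((fpL l).analyticAt u)
  have hΦa : AnalyticAt ℝ Φ u :=
    ((analyticAt_snd.sub analyticAt_const).sub
      ((c.comp (ContinuousLinearMap.fst ℝ _ _)).analyticAt u)).sub ((K.analyticAt _).comp hNL)
  have hΦu : Φ u = 0 := by
    simp only [hΦ, hNu]
    rw [hu, map_zero, sub_zero, sub_sub, h0, sub_self]
  set D := fderiv ℝ (fun v => N (fpL l v)) u with hD
  have hD1 : HasFDerivAt (fun v => N (fpL l v)) D u := hNL.differentiableAt.hasFDerivAt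
  have hD0 : ∀ h : C(unitInterval, ℝ), D (0, h) = 0 := by
    intro h
    ext1 t
    have hin : HasFDerivAt (fun z : C(unitInterval, ℝ) => ((0 : ℝ × ℝ), z))
        (ContinuousLinearMap.inr ℝ (ℝ × ℝ) C(unitInterval, ℝ))
        (ContinuousMap.const unitInterval y0) :=
      (ContinuousLinearMap.inr ℝ (ℝ × ℝ) C(unitInterval, ℝ)).hasFDerivAt
    have h1 := (ContinuousMap.evalCLM ℝ t : C(unitInterval, ℝ) →L[ℝ] ℝ).hasFDerivAt.comp _
      (hD1.comp (ContinuousMap.const unitInterval y0) hin)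
    have h2 := hd.comp_hasFDerivAt_of_eq (ContinuousMap.const unitInterval y0)
      (ContinuousMap.evalCLM ℝ t : C(unitInterval, ℝ) →L[ℝ] ℝ).hasFDerivAt rfl
    have h3 := hin.continuousAt.eventually hev'
    have h4 := h1.unique (h2.congr_of_eventuallyEq (by
      filter_upwards [h3] with z hz
      simpa using hz t))
    simpa using congrArg (fun A => A h) h4
  have hΦd : HasFDerivAt Φ (ContinuousLinearMap.snd ℝ _ _ - c.comp (ContinuousLinearMap.fst ℝ _ _)
      - K.comp D) u :=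
    ((hasFDerivAt_snd.sub_const c0).sub
      (c.comp (ContinuousLinearMap.fst ℝ _ _)).hasFDerivAt).sub (K.hasFDerivAt.comp u hD1)
  have hinv : (fderiv ℝ Φ u ∘L ContinuousLinearMap.inr ℝ (ℝ × ℝ) C(unitInterval, ℝ)).IsInvertible := by
    refine ⟨ContinuousLinearEquiv.refl ℝ _, ?_⟩
    rw [hΦd.fderiv]
    ext1 h
    simp [hD0]
  have hc : ContDiffAt ℝ ⊤ Φ u := hΦa.contDiffAt
  have hn : (⊤ : WithTop ℕ∞) ≠ 0 := by simp
  have hZa : AnalyticAt ℝ (hc.implicitFunction hn hinv) 0 :=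
    (hc.contDiffAt_implicitFunction hn hinv).analyticAt
  have hZ0 : hc.implicitFunction hn hinv 0 = ContinuousMap.const unitInterval y0 :=
    hc.implicitFunction_apply_self hn hinv
  refine ⟨hc.implicitFunction hn hinv, hZa, hZ0, ?_, ?_⟩
  · have h1 : Tendsto (fun p => (p, hc.implicitFunction hn hinv p)) (𝓝 0) (𝓝 u) := by
      have := (continuousAt_id.prodMk hZa.continuousAt).tendsto
      rw [hZ0] at this
      exact this
    filter_upwards [h1.eventually hev', hc.eventually_apply_implicitFunction hn hinv] with p hp hq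
    refine ⟨N (fpL l (p, hc.implicitFunction hn hinv p)), hp, ?_⟩
    rw [hΦu] at hq
    simp only [hΦ] at hq
    rw [sub_sub, sub_sub, sub_eq_zero, ← add_assoc] at hq
    exact hq
  · obtain ⟨η, hη, hb⟩ := Metric.eventually_nhds_iff.1
      (hev'.and (hc.eventually_apply_eq_iff_implicitFunction hn hinv))
    refine ⟨η, hη, fun p z g hp hz hg he => ?_⟩
    have h1 : dist (p, z) u < η := by
      rw [Prod.dist_eq, max_lt_iff, dist_eq_norm, dist_eq_norm]
      exact ⟨by simpa [hu] using hp, hz⟩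
    obtain ⟨h2, h3⟩ := hb h1
    have h4 : N (fpL l (p, z)) = g := by ext1 t; rw [h2 t, hg t]
    refine (h3.1 ?_).symm
    rw [hΦu]
    simp only [hΦ, h4]
    rw [sub_sub, sub_sub, sub_eq_zero, ← add_assoc]
    exact he

end Pool.Agent.MP_c2f0e4_an
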