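import Pool.Agent.MP_c2f0e4_an.Iface

open Set Filter Topology Real Asymptotics

namespace Pool.Agent.MP_c2f0e4_an

theorem singleS (hC1 : C1Stmt) : SingleStmt := by
  intro A B V U z hA hB hT h1 hd
  have hs := sys_of hA hB
  obtain ⟨e1, e2⟩ := hC1 A B V U z hs.anA hs.anB hT h1 hs.perA hd
  have e3 : deriv (deriv B) z = -B z := by
    obtain ⟨b1, b2, rfl⟩ := hB
    simp only [Lin.deriv, Lin]; ring
  rw [e3, e1, neg_zero, mul_zero] at e2
  obtain ⟨a3, e4⟩ := hA.shift_eq z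
  refine Concl.of_shift (c := z) ?_
  rw [e4, hB.shift_eq z, e1, h1.1.1]
  rcases mul_eq_zero.1 e2 with h | h
  · rw [h]
    exact Or.inr ⟨0, by simpa using rev_zero (deriv A z) a3 (deriv B z)⟩
  · rw [h]
    exact Or.inl fun x => by simp [Lin]

section
variable {A B V : ℝ → ℝ} {U : ℕ → ℝ → ℝ}

lemma fin_fwd (h : Top A B V U) {p q : ℝ} (hpq : p < q) (hA : ∀ x ∈ Ioo p q, 0 < A x)
    (hq : A q = 0) (hp : U 0 p < 0) : U 0 q < 0 := by
  refine lt_of_le_of_ne ?_ (h.good 0 q (mem_univ _) hq)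
  refine le_of_tendsto ((h.solU 0).1.continuousAt.tendsto.mono_left
    (nhdsWithin_le_nhds (s := Iio q))) ?_
  filter_upwards [Ioo_mem_nhdsLT hpq] with x hx
  exact ((h.solU 0).neg_of_neg_left hA hp x ⟨hx.1.le, hx.2⟩).le

lemma fin_bwd (h : Top A B V U) {p q : ℝ} (hpq : p < q) (hA : ∀ x ∈ Ioo p q, A x < 0)
    (hp : A p = 0) (hq : U 0 q < 0) : U 0 p < 0 := by
  refine lt_of_le_of_ne ?_ (h.good 0 p (mem_univ _) hp)
  refine le_of_tendsto ((h.solU 0).1.continuousAt.tendsto.mono_left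
    (nhdsWithin_le_nhds (s := Ioi p))) ?_
  filter_upwards [Ioo_mem_nhdsGT hpq] with x hx
  exact ((h.solU 0).neg_of_neg_right hA hq x ⟨hx.1, hx.2.le⟩).le

lemma fin_touch (h : Top A B V U) {z : ℝ} (hz : Touch A V z) : U 0 z < 0 := hz.2 ▸ h.lt 0 z

lemma fin_window (h : Top A B V U) (hA : Function.Periodic A (2 * π)) (z : ℝ) :
    ∃ y ∈ Ico z (z + 2 * π), Touch A V y := by
  obtain ⟨y, hy⟩ := h.touch
  refine ⟨toIcoMod two_pi_pos z y, toIcoMod_mem_Ico _ _ _, ?_⟩
  rw [Touch, ← self_sub_toIcoDiv_zsmul, hA.sub_zsmul_eq, h.perV.sub_zsmul_eq]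
  exact hy

lemma fin_one (h : Top A B V U) (hA : Function.Periodic A (2 * π)) {z : ℝ}
    (hz : ∀ x ∈ Ioo z (z + 2 * π), ¬ Touch A V x) : One A V z := by
  obtain ⟨y, hy, ht⟩ := fin_window h hA z
  rcases hy.1.eq_or_lt with e | e
  · exact ⟨e ▸ ht, hz⟩
  · exact absurd ht (hz y ⟨e, hy.2⟩)

end

lemma fin_sin {x : ℝ} (h : sin x = 0) (h0 : 0 < x) (h3 : x < 3 * π) : x = π ∨ x = 2 * π := by
  rcases lt_or_ge x (2 * π) with h1 | h1
  · have := (sin_eq_zero_iff_of_lt_of_lt (x := x - π) (by linarith) (by linarith)).1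
      (by rw [sin_sub_pi, h, neg_zero])
    exact Or.inl (by linarith)
  · have := (sin_eq_zero_iff_of_lt_of_lt (x := x - 2 * π) (by linarith [pi_pos]) (by linarith)).1
      (by rw [sin_sub_two_pi, h])
    exact Or.inr (by linarith)

lemma fin_dbl (hSign : SignStmt) (hSingle : SingleStmt) (hDblCore : DblCoreStmt) {a a' b0 b1 : ℝ}
    (ha : 0 < a) (hC : Conf (Cub 0 0 a a') (Lin b0 b1)) : Concl (Cub 0 0 a a') (Lin b0 b1) := by
  obtain ⟨V, U, V2, U2, T, T2, hm⟩ := hC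
  have hpi := pi_pos
  obtain ⟨s, ⟨s0, s1⟩, hs⟩ : ∃ s ∈ Ioo 0 π, a * cos s + a' * sin s = 0 :=
    intermediate_value_Ioo' (f := fun x => a * cos x + a' * sin x) hpi.le (by fun_prop)
      (by simpa using ha)
  have hsin : 0 < sin s := sin_pos_of_pos_of_lt_pi s0 s1
  have hS := sys_cub 0 0 a a' b0 b1
  have hF : ∀ x, Cub 0 0 a a' x = sin x ^ 2 * (a * sin (s - x)) / sin s := fun x => by
    rw [eq_div_iff hsin.ne', Cub, sin_sub]
    linear_combination sin x ^ 3 * hs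
  have hd : deriv (Cub 0 0 a a') s < 0 := by
    have : deriv (Cub 0 0 a a') s = -(a * sin s) := by
      rw [Cub.deriv, Cub]
      linear_combination 3 * cos s * sin s * hs - a * sin s * sin_sq_add_cos_sq s
    rw [this, neg_lt_zero]; positivity
  set A := Cub 0 0 a a' with hAdef
  have z0 : A 0 = 0 := by simp [hF]
  have zs : A s = 0 := by simp [hF]
  have zp : A π = 0 := by simp [hF]
  have z2 : A (2 * π) = 0 := by simp [hF]
  have hz : ∀ x, A x = 0 → 0 < x → x < 3 * π →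
      x = π ∨ x = 2 * π ∨ x = s ∨ x = s + π ∨ x = s + 2 * π := by
    intro x hx h0 h3
    rw [hF] at hx
    have h1 : sin x = 0 ∨ sin (s - x) = 0 := by simpa [hsin.ne', ha.ne'] using hx
    rcases h1 with h1 | h1
    · rcases fin_sin h1 h0 h3 with h | h <;> simp [h]
    · rcases lt_or_ge s x with h2 | h2
      · rcases fin_sin (x := x - s) (by rw [← neg_sub, sin_neg, h1, neg_zero]) (by linarith)
          (by linarith) with h | h
        · exact Or.inr (Or.inr (Or.inr (Or.inl (by linarith))))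
        · exact Or.inr (Or.inr (Or.inr (Or.inr (by linarith))))
      · have := (sin_eq_zero_iff_of_lt_of_lt (by linarith) (by linarith)).1 h1
        exact Or.inr (Or.inr (Or.inl (by linarith)))
  have hne : ∀ x, 0 < x → x < 2 * π → x ≠ π → sin x ≠ 0 := fun x h0 h2 h1 h => by
    rcases fin_sin h h0 (by linarith) with h | h
    · exact h1 h
    · exact h2.ne h
  have A1 : ∀ x ∈ Ioo 0 s, 0 < A x := fun x hx => by
    have h1 := hne x hx.1 (by linarith [hx.2]) (by linarith [hx.2])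
    have h2 := sin_pos_of_pos_of_lt_pi (x := s - x) (by linarith [hx.2]) (by linarith [hx.1])
    rw [hF]; positivity
  have A23 : ∀ x ∈ Ioo s (s + π), x ≠ π → A x < 0 := fun x hx hp => by
    have h1 := hne x (by linarith [hx.1]) (by linarith [hx.2]) hp
    have h2 := sin_pos_of_pos_of_lt_pi (x := x - s) (by linarith [hx.1]) (by linarith [hx.2])
    rw [hF, ← neg_sub, sin_neg, mul_neg, mul_neg, neg_div, neg_lt_zero]; positivity
  have A2 : ∀ x ∈ Ioo s π, A x < 0 := fun x hx => A23 x ⟨hx.1, by linarith [hx.2]⟩ hx.2.ne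
  have A3 : ∀ x ∈ Ioo π (s + π), A x < 0 := fun x hx => A23 x ⟨by linarith [hx.1], hx.2⟩ hx.1.ne'
  have A4 : ∀ x ∈ Ioo (s + π) (2 * π), 0 < A x := fun x hx => by
    have := A2 (x - π) ⟨by linarith [hx.1], by linarith [hx.2]⟩
    have h1 := hS.antiA (x - π)
    rw [sub_add_cancel] at h1
    linarith
  have u2 : U 0 (2 * π) = U 0 0 := by simpa using T.perU 0 0
  have i1 : U 0 0 < 0 → U 0 s < 0 := fin_fwd T s0 A1 zs
  have i2 : U 0 π < 0 → U 0 s < 0 := fin_bwd T s1 A2 zs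
  have i3 : U 0 (s + π) < 0 → U 0 π < 0 := fin_bwd T (by linarith) A3 zp
  have i4 : U 0 (s + π) < 0 → U 0 0 < 0 := fun h => u2 ▸ fin_fwd T (by linarith) A4 z2 h
  have t2 : ∀ y, Touch A V2 y → 0 < U 0 (y + π) := fun y hy => (hm y hy.1).1 (fin_touch T2 hy)
  have us : U 0 (s + π + π) = U 0 s := by rw [add_assoc, ← two_mul, T.perU 0]
  have up : U 0 (π + π) = U 0 0 := by rw [← two_mul, u2]
  have us2 : U 0 (s + 2 * π) = U 0 s := T.perU 0 s
  have Ps : U 0 s < 0 := by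
    obtain ⟨y, hy, ht⟩ := fin_window T hS.perA 0
    have h1 := fin_touch T ht
    rcases hy.1.eq_or_lt with rfl | h0
    · exact i1 h1
    · rcases hz y ht.1 h0 (by linarith [hy.2]) with rfl | rfl | rfl | rfl | rfl
      exacts [i2 h1, i1 (u2 ▸ h1), h1, i2 (i3 h1), us2 ▸ h1]
  have Q : ¬ U 0 (s + π) < 0 := fun h => by
    obtain ⟨y, hy, ht⟩ := fin_window T2 hS.perA 0
    have h1 := t2 y ht
    rcases hy.1.eq_or_lt with rfl | h0
    · rw [zero_add] at h1; linarith [i3 h]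
    · rcases hz y ht.1 h0 (by linarith [hy.2]) with rfl | rfl | rfl | rfl | rfl <;>
        linarith [hy.2, i4 h]
  have hV : Touch A V s → ∀ᶠ x in 𝓝[≠] s, 0 < V x := fun ht =>
    (hSign A _ V hS.anA hS.anB.continuous T.solV s ht hd.ne).mono fun x hx =>
      pos_of_mul_neg_right hx hd.le
  have hA : IsCub A := ⟨_, _, _, _, rfl⟩
  have hB : IsLin (Lin b0 b1) := ⟨_, _, rfl⟩
  have fin : (b0 = 0 ∧ b1 = 0) ∨ (b1 = 0 ∧ a' = 0) → Concl A (Lin b0 b1) := by
    rintro (⟨rfl, rfl⟩ | ⟨rfl, rfl⟩)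
    · exact Or.inl fun x => by simp [Lin]
    · exact Or.inr ⟨_, rev_pi_div_two 0 a b0⟩
  by_cases P0 : U 0 0 < 0 <;> by_cases Pp : U 0 π < 0
  · refine hSingle A _ V2 U2 s hA hB T2 (fin_one T2 hS.perA fun x hx ht => ?_) hd.ne
    have h1 := t2 x ht
    have h2 : U 0 (2 * π + π) = U 0 π := by rw [add_comm, T.perU 0]
    rcases hz x ht.1 (by linarith [hx.1]) (by linarith [hx.2]) with rfl | rfl | rfl | rfl | rfl <;>
      linarith [hx.1, hx.2]
  · refine fin (hDblCore a a' b0 b1 V U ha T (fin_one T hS.perA fun x hx ht => ?_))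
    have h1 := fin_touch T ht
    rcases hz x ht.1 hx.1 (by linarith [hx.2]) with rfl | rfl | rfl | rfl | rfl
    · exact Pp h1
    · linarith [hx.2]
    · obtain ⟨y, h2, h3⟩ := (((hV ht).filter_mono (nhdsLT_le_nhdsNE x)).and (Ioo_mem_nhdsLT s0)).exists
      exact (T.nonpos fun n => (T.solU n).neg_of_neg_left A1 ((T.sgn 0 z0 n).2 P0) y
        ⟨h3.1.le, h3.2⟩).not_gt h2
    · exact Q h1
    · linarith [hx.2]
  · have h0 : One A V π := fin_one T hS.perA fun x hx ht => by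
      have h1 := fin_touch T ht
      rcases hz x ht.1 (by linarith [hx.1]) (by linarith [hx.2]) with rfl | rfl | rfl | rfl | rfl
      · exact hx.1.false
      · exact P0 (u2 ▸ h1)
      · linarith [hx.1]
      · exact Q h1
      · have ht' : Touch A V s := ⟨zs, T.perV s ▸ ht.2⟩
        obtain ⟨y, h2, h3⟩ := (((hV ht').filter_mono (nhdsGT_le_nhdsNE s)).and
          (Ioo_mem_nhdsGT s1)).exists
        exact (T.nonpos fun n => (T.solU n).neg_of_neg_right A2 ((T.sgn π zp n).2 Pp) y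
          ⟨h3.1, h3.2.le⟩).not_gt h2
    have h1 := T.refl π
    have h2 := h0.refl hS.perA T.perV π
    rw [hAdef, Cub.refl_pi, neg_zero] at h1 h2
    rw [Lin.refl_pi] at h1
    rw [sub_self] at h2
    exact fin (by simpa using hDblCore a (-a') b0 (-b1) _ _ ha h1 h2)
  · refine hSingle A _ V U s hA hB T (fin_one T hS.perA fun x hx ht => ?_) hd.ne
    have h1 := fin_touch T ht
    rcases hz x ht.1 (by linarith [hx.1]) (by linarith [hx.2]) with rfl | rfl | rfl | rfl | rfl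
    exacts [Pp h1, P0 (u2 ▸ h1), hx.1.false, Q h1, hx.2.false]

theorem dblFinS (hSign : SignStmt) (hSingle : SingleStmt) (hDblCore : DblCoreStmt) : DblFinStmt := by
  intro a a' b0 b1 ha hC
  rcases lt_or_gt_of_ne ha with h | h
  · have h1 := hC.shift π
    refine Concl.of_shift (c := π) ?_
    rw [Cub.shift_pi, Lin.shift_pi, neg_zero] at h1 ⊢
    exact fin_dbl hSign hSingle hDblCore (neg_pos.2 h) h1
  · exact fin_dbl hSign hSingle hDblCore h hC

lemma fin_tpl (hTplCore : TplCoreStmt) {K b0 b1 : ℝ} (hK : K < 0) (hb : b0 ≠ 0)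
    (hC : Conf (Cub 0 0 0 K) (Lin b0 b1)) : False := by
  obtain ⟨V, U, V2, U2, T, T2, hm⟩ := hC
  have hpi := pi_pos
  have hS := sys_cub 0 0 0 K b0 b1
  have hF : ∀ x, Cub 0 0 0 K x = K * sin x ^ 3 := fun x => by simp [Cub]
  have hz : ∀ x, Cub 0 0 0 K x = 0 → 0 < x → x < 0 + 2 * π → x = π := fun x hx h0 h2 =>
    (fin_sin (by simpa [hF, hK.ne] using hx) h0 (by linarith)).resolve_right (by linarith)
  have i1 : U 0 π < 0 → U 0 0 < 0 := fin_bwd T hpi (fun x hx => by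
    rw [hF]
    exact mul_neg_of_neg_of_pos hK (pow_pos (sin_pos_of_pos_of_lt_pi hx.1 hx.2) 3)) (by simp [hF])
  have Q : ¬ U 0 π < 0 := fun h => by
    obtain ⟨y, hy, ht⟩ := fin_window T2 hS.perA 0
    have h1 := (hm y ht.1).1 (fin_touch T2 ht)
    rcases hy.1.eq_or_lt with rfl | h0
    · rw [zero_add] at h1; linarith
    · rw [hz y ht.1 h0 hy.2, ← two_mul, ← zero_add (2 * π), T.perU 0] at h1
      linarith [i1 h]
  have h0 : One (Cub 0 0 0 K) V 0 := fin_one T hS.perA fun x hx ht =>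
    Q (hz x ht.1 hx.1 hx.2 ▸ fin_touch T ht)
  rcases lt_or_gt_of_ne hb with h | h
  · exact hTplCore K b0 b1 V U hK h T h0
  · have h1 := T.refl 0
    have h2 := h0.refl hS.perA T.perV 0
    rw [Cub.refl_zero, neg_zero] at h1 h2
    rw [Lin.refl_zero] at h1
    rw [sub_self] at h2
    exact hTplCore K (-b0) b1 _ _ hK (neg_lt_zero.2 h) h1 h2

theorem tplFinS (hTplCore : TplCoreStmt) : TplFinStmt := by
  intro K b0 b1 hK hC
  by_cases hb : b0 = 0
  · subst hb
    exact Or.inr ⟨0, rev_zero 0 K b1⟩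
  · rcases lt_or_gt_of_ne hK with h | h
    · exact (fin_tpl hTplCore h hb hC).elim
    · have h1 := hC.shift π
      rw [Cub.shift_pi, Lin.shift_pi, neg_zero] at h1
      exact (fin_tpl hTplCore (neg_lt_zero.2 h) (neg_ne_zero.2 hb) h1).elim

end Pool.Agent.MP_c2f0e4_an
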