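import Pool.Agent.MP_c2f0e4_an.Iface

open Set Filter Topology Real Asymptotics

namespace Pool.Agent.MP_c2f0e4_an

/-- uniqueness for global solutions of a `C^1` field -/
lemma glob_unique {V : Type} [NormedAddCommGroup V] [NormedSpace ℝ V] {X : V → V}
    (hX : ContDiff ℝ 1 X) {α β : ℝ → V} (hα : ∀ t, HasDerivAt α (X (α t)) t)
    (hβ : ∀ t, HasDerivAt β (X (β t)) t) (h0 : α 0 = β 0) : α = β := by
  funext t
  have hαc : ContinuousOn α (Icc (-(|t| + 1)) (|t| + 1)) := fun s _ =>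
    (hα s).continuousAt.continuousWithinAt
  have hβc : ContinuousOn β (Icc (-(|t| + 1)) (|t| + 1)) := fun s _ =>
    (hβ s).continuousAt.continuousWithinAt
  have hK : IsCompact (α '' Icc (-(|t| + 1)) (|t| + 1) ∪ β '' Icc (-(|t| + 1)) (|t| + 1)) :=
    (isCompact_Icc.image_of_continuousOn hαc).union (isCompact_Icc.image_of_continuousOn hβc)
  obtain ⟨K, hK'⟩ := (hX.locallyLipschitz.locallyLipschitzOn).exists_lipschitzOnWith_of_compact hK
  have h1 : (0 : ℝ) ∈ Ioo (-(|t| + 1)) (|t| + 1) :=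
    ⟨by have := abs_nonneg t; linarith, by have := abs_nonneg t; linarith⟩
  have h2 : t ∈ Icc (-(|t| + 1)) (|t| + 1) :=
    ⟨by have := neg_abs_le t; linarith, by have := le_abs_self t; linarith⟩
  exact ODE_solution_unique_of_mem_Icc (v := fun _ => X)
    (s := fun _ => α '' Icc (-(|t| + 1)) (|t| + 1) ∪ β '' Icc (-(|t| + 1)) (|t| + 1)) (K := K)
    (fun _ _ => hK') h1 hαc (fun s _ => hα s)
    (fun s hs => Or.inl ⟨s, Ioo_subset_Icc_self hs, rfl⟩) hβc (fun s _ => hβ s)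
    (fun s hs => Or.inr ⟨s, Ioo_subset_Icc_self hs, rfl⟩) h0 h2

lemma glob_contDiff (b1 b2 a1 a2 a3 : ℝ) : ContDiff ℝ 1 (fieldS b1 b2 a1 a2 a3) := by
  unfold fieldS polyG
  fun_prop

/-- a convergent function whose derivative converges has limit derivative zero -/
lemma glob_deriv_lim {f f' : ℝ → ℝ} {L M : ℝ} (hf : ∀ t, HasDerivAt f (f' t) t)
    (h1 : Tendsto f atTop (𝓝 L)) (h2 : Tendsto f' atTop (𝓝 M)) : M = 0 := by
  have h3 : ∀ t : ℝ, ∃ c ∈ Ioo t (t + 1), f' c = (f (t + 1) - f t) / (t + 1 - t) := fun t =>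
    exists_hasDerivAt_eq_slope f f' (by linarith)
      (fun s _ => (hf s).continuousAt.continuousWithinAt) (fun s _ => hf s)
  choose c hc hc' using h3
  have h4 : Tendsto c atTop atTop := tendsto_atTop_mono (fun t => (hc t).1.le) tendsto_id
  have h5 : Tendsto (fun t => f (t + 1) - f t) atTop (𝓝 (L - L)) :=
    (h1.comp (tendsto_atTop_add_const_right _ 1 tendsto_id)).sub h1
  have h6 : (fun t => f (t + 1) - f t) = f' ∘ c := funext fun t => by
    simp only [Function.comp, hc', add_sub_cancel_left, div_one]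
  rw [h6, sub_self] at h5
  exact tendsto_nhds_unique (h2.comp h4) h5

lemma glob_core {φ z z' : ℝ → ℝ} {C : ℝ} (hφ : ∀ t, HasDerivAt φ (z t ^ 2) t)
    (hz : ∀ t, HasDerivAt z (z' t) t) (hC : ∀ t, |z' t| ≤ C) (h1 : ∀ t, |z t| ≤ 1)
    (hb : BddAbove (range φ)) :
    ∃ p, Tendsto φ atTop (𝓝 p) ∧ Tendsto z atTop (𝓝 0) := by
  have hC0 : 0 ≤ C := (abs_nonneg _).trans (hC 0)
  have hm : Monotone φ := monotone_of_deriv_nonneg (fun t => (hφ t).differentiableAt)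
    fun t => by rw [(hφ t).deriv]; positivity
  have hp := tendsto_atTop_ciSup hm hb
  have hw : ∀ t, HasDerivAt (fun t => z t ^ 3 + 3 * C * φ t)
      (3 * z t ^ 2 * (z' t + C)) t := fun t => by
    refine HasDerivAt.congr_deriv (f' := _) (((hz t).pow 3).add ((hφ t).const_mul (3 * C))) ?_
    push_cast; ring
  have hwm : Monotone fun t => z t ^ 3 + 3 * C * φ t :=
    monotone_of_deriv_nonneg (fun t => (hw t).differentiableAt) fun t => by
      rw [(hw t).deriv]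
      have := (abs_le.1 (hC t)).1
      exact mul_nonneg (by positivity) (by linarith)
  obtain ⟨M, hM⟩ := hb
  have hwb : BddAbove (range fun t => z t ^ 3 + 3 * C * φ t) := by
    refine ⟨1 + 3 * C * M, ?_⟩
    rintro _ ⟨t, rfl⟩
    have h2 : φ t ≤ M := hM ⟨t, rfl⟩
    have h3 : z t ^ 3 ≤ 1 := by
      have := cube_le.2 (abs_le.1 (h1 t)).2
      simpa using this
    have := mul_le_mul_of_nonneg_left h2 (by positivity : 0 ≤ 3 * C)
    simp only
    linarith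
  have hq := tendsto_atTop_ciSup hwm hwb
  have h3 := hq.sub (hp.const_mul (3 * C))
  simp only [add_sub_cancel_right] at h3
  have h4 := (cb_continuous.tendsto _).comp h3
  have h5 : (cb ∘ fun t => z t ^ 3) = z := funext fun t => cb_cube _
  rw [h5] at h4
  have h6 := glob_deriv_lim hφ hp (h4.pow 2)
  rw [pow_eq_zero_iff (by norm_num)] at h6
  rw [h6] at h4
  exact ⟨_, hp, h4⟩

lemma glob_polyG_bd (b1 b2 a1 a2 a3 : ℝ) {w : ℝ × ℝ × ℝ} (hx : |w.1| ≤ 1) (hy : |w.2.1| ≤ 1)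
    (hz : |w.2.2| ≤ 1) :
    |polyG b1 b2 a1 a2 a3 w| ≤ |b1| + |b2| + |a1| + |a2| + |a3| := by
  have key : ∀ c p q r : ℝ, |p| ≤ 1 → |q| ≤ 1 → |r| ≤ 1 → |c * p * q * r| ≤ |c| := by
    intro c p q r hp hq hr
    rw [abs_mul, abs_mul, abs_mul]
    have h1 := mul_le_of_le_one_right (abs_nonneg c) hp
    have h2 := mul_le_of_le_one_right (mul_nonneg (abs_nonneg c) (abs_nonneg p)) hq
    have h3 := mul_le_of_le_one_right
      (mul_nonneg (mul_nonneg (abs_nonneg c) (abs_nonneg p)) (abs_nonneg q)) hr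
    linarith
  have h1 := abs_le.1 (key b1 _ _ _ hx hz hz)
  have h2 := abs_le.1 (key b2 _ _ _ hy hz hz)
  have h3 := abs_le.1 (key a1 _ _ _ hx hx hx)
  have h4 := abs_le.1 (key a2 _ _ _ hx hx hy)
  have h5 := abs_le.1 (key a3 _ _ _ hx hy hy)
  have h6 : polyG b1 b2 a1 a2 a3 w = b1 * w.1 * w.2.2 * w.2.2 + b2 * w.2.1 * w.2.2 * w.2.2
      + a1 * w.1 * w.1 * w.1 + a2 * w.1 * w.1 * w.2.1 + a3 * w.1 * w.2.1 * w.2.1 := by
    unfold polyG; ring
  rw [h6, abs_le]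
  constructor <;> linarith [h1.1, h1.2, h2.1, h2.2, h3.1, h3.2, h4.1, h4.2, h5.1, h5.2]

lemma glob_sq (u : ℝ) : (u / √(1 + u ^ 2)) ^ 2 = u ^ 2 / (1 + u ^ 2) := by
  rw [div_pow, sq_sqrt (by positivity)]

lemma glob_inv (u : ℝ) : √(1 - (u / √(1 + u ^ 2)) ^ 2) = 1 / √(1 + u ^ 2) := by
  have h : (0 : ℝ) < 1 + u ^ 2 := by positivity
  rw [glob_sq, show 1 - u ^ 2 / (1 + u ^ 2) = 1 / (1 + u ^ 2) by field_simp; ring,
    sqrt_div zero_le_one, sqrt_one]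

lemma glob_Pt (θ u : ℝ) : Pt θ u = (cos θ * √(1 - (Pt θ u).2.2 ^ 2),
    sin θ * √(1 - (Pt θ u).2.2 ^ 2), (Pt θ u).2.2) := by
  simp only [Pt, glob_inv, mul_one_div]

lemma glob_Pt_z (θ u : ℝ) : |(Pt θ u).2.2| ≤ 1 := by
  have h : (0 : ℝ) < 1 + u ^ 2 := by positivity
  rw [← sq_le_one_iff_abs_le_one]
  simp only [Pt, glob_sq]
  rw [div_le_one h]; linarith

/-- an orbit with bounded longitude tends to an equilibrium on the equator -/
lemma glob_end (b1 b2 a1 a2 a3 s : ℝ) (hs : |s| = 1) {g : ℝ → ℝ × ℝ × ℝ} {φ : ℝ → ℝ}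
    (hg : ∀ t, HasDerivAt (fun t => (g t).2.2)
      (s * (((g t).2.2 ^ 2 - 1) * polyG b1 b2 a1 a2 a3 (g t))) t)
    (hφ : ∀ t, HasDerivAt φ ((g t).2.2 ^ 2) t) (hb : BddAbove (range φ))
    (hz : ∀ t, |(g t).2.2| ≤ 1)
    (hpt : ∀ t, g t = (cos (s * φ t) * √(1 - (g t).2.2 ^ 2),
      sin (s * φ t) * √(1 - (g t).2.2 ^ 2), (g t).2.2)) :
    ∃ e, Tendsto g atTop (𝓝 e) ∧ e.2.2 = 0 ∧ fieldS b1 b2 a1 a2 a3 e = 0 := by
  have hr : ∀ t, |√(1 - (g t).2.2 ^ 2)| ≤ 1 := fun t => by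
    rw [abs_of_nonneg (sqrt_nonneg _)]
    exact sqrt_le_one.2 (by nlinarith [sq_nonneg (g t).2.2])
  have hC : ∀ t, |s * (((g t).2.2 ^ 2 - 1) * polyG b1 b2 a1 a2 a3 (g t))|
      ≤ |b1| + |b2| + |a1| + |a2| + |a3| := fun t => by
    have hx : |(g t).1| ≤ 1 := by
      rw [hpt t, abs_mul]
      exact mul_le_one₀ (abs_cos_le_one _) (abs_nonneg _) (hr t)
    have hy : |(g t).2.1| ≤ 1 := by
      rw [hpt t, abs_mul]
      exact mul_le_one₀ (abs_sin_le_one _) (abs_nonneg _) (hr t)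
    have h1 : |(g t).2.2 ^ 2 - 1| ≤ 1 := by
      have := (sq_le_one_iff_abs_le_one _).2 (hz t)
      rw [abs_le]
      constructor <;> nlinarith [sq_nonneg (g t).2.2]
    rw [abs_mul, hs, one_mul, abs_mul]
    exact (mul_le_of_le_one_left (abs_nonneg _) h1).trans (glob_polyG_bd _ _ _ _ _ hx hy (hz t))
  obtain ⟨p, hp, h0⟩ := glob_core hφ hg hC hz hb
  have hc : Continuous fun w : ℝ × ℝ =>
      ((cos (s * w.1) * √(1 - w.2 ^ 2), sin (s * w.1) * √(1 - w.2 ^ 2), w.2) : ℝ × ℝ × ℝ) := by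
    fun_prop
  have h1 := (hc.tendsto (p, 0)).comp (hp.prodMk_nhds h0)
  have h2 : Tendsto g atTop (𝓝 (cos (s * p) * √(1 - 0 ^ 2), sin (s * p) * √(1 - 0 ^ 2), 0)) :=
    h1.congr fun t => (hpt t).symm
  refine ⟨_, h2, rfl, ?_⟩
  have hc2 : Continuous fun w : ℝ × ℝ × ℝ =>
      s * ((w.2.2 ^ 2 - 1) * polyG b1 b2 a1 a2 a3 w) := by
    unfold polyG; fun_prop
  have h3 := glob_deriv_lim hg h0 ((hc2.tendsto _).comp h2)
  have hs0 : s ≠ 0 := fun h => by rw [h] at hs; simp at hs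
  have h4 := (mul_eq_zero.1 h3).resolve_left hs0
  simp only [fieldS, h4, zero_mul, Prod.mk_zero_zero]

lemma glob_polar {w : ℝ × ℝ × ℝ} (hw : w ∈ sph) (h : ¬ (w.1 = 0 ∧ w.2.1 = 0)) :
    ∃ θ u, w = Pt θ u := by
  obtain ⟨x, y, z⟩ := w
  change x ^ 2 + y ^ 2 + z ^ 2 = 1 at hw
  simp only at h
  have h1 := Complex.norm_mul_cos_arg ⟨x, y⟩
  have h2 := Complex.norm_mul_sin_arg ⟨x, y⟩
  have h3 : ‖(⟨x, y⟩ : ℂ)‖ ^ 2 = x ^ 2 + y ^ 2 := by
    rw [Complex.sq_norm, Complex.normSq_mk]; ring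
  have h4 : 0 < ‖(⟨x, y⟩ : ℂ)‖ := by
    refine norm_pos_iff.2 fun h0 => h ?_
    exact ⟨congrArg Complex.re h0, congrArg Complex.im h0⟩
  generalize ‖(⟨x, y⟩ : ℂ)‖ = r at h1 h2 h3 h4
  have h5 : √(1 + (z / r) ^ 2) = 1 / r := by
    rw [show 1 + (z / r) ^ 2 = (1 / r) ^ 2 by field_simp; linarith, sqrt_sq (by positivity)]
  generalize Complex.arg ⟨x, y⟩ = θ at h1 h2
  refine ⟨θ, z / r, ?_⟩
  simp only [Pt, h5] at h1 h2 ⊢
  refine Prod.ext ?_ (Prod.ext ?_ ?_)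
  · simp only; rw [← h1]; field_simp
  · simp only; rw [← h2]; field_simp
  · simp only; field_simp

theorem globS (hSphCore : SphCoreStmt) (hRatio : RatioStmt) (hPer : PerStmt) : GlobStmt := by
  intro b1 b2 a1 a2 a3 hcon γ hγ h0
  have hX := glob_contDiff b1 b2 a1 a2 a3
  by_cases hpole : (γ 0).1 = 0 ∧ (γ 0).2.1 = 0
  · have h1 : (γ 0).2.2 ^ 2 - 1 = 0 := by
      have : (γ 0).1 ^ 2 + (γ 0).2.1 ^ 2 + (γ 0).2.2 ^ 2 = 1 := h0
      rw [hpole.1, hpole.2] at this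
      linarith
    have h2 : fieldS b1 b2 a1 a2 a3 (γ 0) = 0 := by
      simp only [fieldS, hpole.1, hpole.2, h1, zero_mul, neg_zero, add_zero, mul_zero,
        Prod.mk_zero_zero]
    have h3 : γ = fun _ => γ 0 :=
      glob_unique hX hγ (fun t => by rw [h2]; exact hasDerivAt_const t _) rfl
    exact Or.inl ⟨1, one_pos, fun t => by rw [h3]⟩
  obtain ⟨θ0, u0, hw⟩ := glob_polar h0 hpole
  by_cases heq : Cub a1 a2 a3 0 θ0 = 0 ∧ u0 = 0
  · refine Or.inr ⟨γ 0, subset_closure ⟨0, rfl⟩, by rw [hw, heq.2]; simp [Pt], ?_⟩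
    have h1 : polyG b1 b2 a1 a2 a3 (cos θ0, sin θ0, 0) = 0 := by
      have := heq.1
      simp only [polyG, Cub] at this ⊢
      linear_combination this
    have h2 : γ 0 = (cos θ0, sin θ0, 0) := by rw [hw, heq.2]; simp [Pt]
    rw [h2]
    simp only [fieldS, h1, zero_mul, mul_zero, Prod.mk_zero_zero]
  obtain ⟨θ, u, hθ0, hu0, hmono, hpt, hgood, hθ, hu⟩ :=
    hSphCore b1 b2 a1 a2 a3 γ θ0 u0 hγ hw fun h1 h2 => heq ⟨h1, h2⟩
  have hz : ∀ t, HasDerivAt (fun t => (γ t).2.2)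
      (((γ t).2.2 ^ 2 - 1) * polyG b1 b2 a1 a2 a3 (γ t)) t := fun t => (hγ t).snd.snd
  have hθ' : ∀ t, HasDerivAt θ ((γ t).2.2 ^ 2) t := fun t => by
    rw [hpt t]; simp only [Pt, glob_sq]; exact hθ t
  have hz1 : ∀ t, |(γ t).2.2| ≤ 1 := fun t => by rw [hpt t]; exact glob_Pt_z _ _
  have hpt' : ∀ t, γ t = (cos (θ t) * √(1 - (γ t).2.2 ^ 2), sin (θ t) * √(1 - (γ t).2.2 ^ 2),
      (γ t).2.2) := fun t => by rw [hpt t]; exact glob_Pt _ _
  by_cases hab : BddAbove (range θ)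
  · obtain ⟨e, he, he1, he2⟩ := glob_end b1 b2 a1 a2 a3 1 abs_one (g := γ) (φ := θ)
      (fun t => by rw [one_mul]; exact hz t) hθ' hab hz1
      (fun t => by rw [one_mul]; exact hpt' t)
    exact Or.inr ⟨e, mem_closure_of_tendsto he (Eventually.of_forall fun t => ⟨t, rfl⟩), he1, he2⟩
  by_cases hbe : BddBelow (range θ)
  · obtain ⟨e, he, he1, he2⟩ := glob_end b1 b2 a1 a2 a3 (-1) (by simp) (g := fun t => γ (-t))
      (φ := fun t => -θ (-t))
      (fun t => ((hz (-t)).comp t (hasDerivAt_neg t)).congr_deriv (by ring))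
      (fun t => ((hθ' (-t)).comp t (hasDerivAt_neg t)).neg.congr_deriv (by ring))
      (by
        obtain ⟨M, hM⟩ := hbe
        refine ⟨-M, ?_⟩
        rintro _ ⟨t, rfl⟩
        exact neg_le_neg (hM ⟨-t, rfl⟩))
      (fun t => hz1 _)
      (fun t => by rw [neg_mul_neg, one_mul]; exact hpt' _)
    exact Or.inr ⟨e, mem_closure_of_tendsto he (Eventually.of_forall fun t => ⟨-t, rfl⟩), he1, he2⟩
  have hsurj : Function.Surjective θ := fun y => by
    have hc : Continuous θ := continuous_iff_continuousAt.2 fun t => (hθ t).continuousAt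
    obtain ⟨_, ⟨t1, rfl⟩, h1⟩ := not_bddAbove_iff.1 hab y
    obtain ⟨_, ⟨t2, rfl⟩, h2⟩ := not_bddBelow_iff.1 hbe y
    exact mem_range_of_exists_le_of_exists_ge hc ⟨t2, h2.le⟩ ⟨t1, h1.le⟩
  obtain ⟨U, hU, hUu⟩ := hRatio _ _ θ u (Cub.an a1 a2 a3 0).continuous (Lin.an b1 b2).continuous
    hmono hsurj hθ hu
  have hGP := hPer _ _ U (sys_cub a1 a2 a3 0 b1 b2) hcon hU 0 fun x _ hx => by
    obtain ⟨t, rfl⟩ := hsurj x
    rw [hUu]; exact hgood t hx
  obtain ⟨T, hT⟩ := hsurj (θ 0 + 2 * π)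
  have hT0 : 0 < T := hmono.lt_iff_lt.1 (by rw [hT]; linarith [pi_pos])
  have hγT : γ T = γ 0 := by
    rw [hpt T, hpt 0, ← hUu T, ← hUu 0, hT, hGP.2.2]
    simp only [Pt, cos_add_two_pi, sin_add_two_pi]
  have h1 : (fun t => γ (t + T)) = γ :=
    glob_unique hX (fun t => (hγ (t + T)).comp_add_const t T) hγ (by rw [zero_add, hγT])
  exact Or.inl ⟨T, hT0, fun t => congrFun h1 t⟩

end Pool.Agent.MP_c2f0e4_an
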