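import Pool.Agent.MP_c2f0e4_an.Iface

open Set Filter Topology Real Asymptotics

namespace Pool.Agent.MP_c2f0e4_an

lemma j2a_div {x y y' z : ℝ} (hy' : 0 < y') (hy : y' ≤ y) (hz : 0 ≤ z) (h : |x| ≤ z * y') :
    |x / y| ≤ z := by
  have h0 : 0 < y := hy'.trans_le hy
  rw [abs_div, abs_of_pos h0, div_le_iff₀ h0]
  exact h.trans (mul_le_mul_of_nonneg_left hy hz)

lemma j2a_cub (a0 a1 a2 a3 : ℝ) {u ξ T : ℝ} (hu : |u| ≤ T) (hξ : |ξ| ≤ T) :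
    |a0 * ξ ^ 3 + a1 * u * ξ ^ 2 + a2 * u ^ 2 * ξ + a3 * u ^ 3|
      ≤ (|a0| + |a1| + |a2| + |a3|) * T ^ 3 := by
  have hT : 0 ≤ T := (abs_nonneg _).trans hu
  have h0 : |a0 * ξ ^ 3| ≤ |a0| * T ^ 3 := by
    rw [abs_mul, abs_pow]; gcongr
  have h1 : |a1 * u * ξ ^ 2| ≤ |a1| * T * T ^ 2 := by
    rw [abs_mul, abs_mul, abs_pow]; gcongr
  have h2 : |a2 * u ^ 2 * ξ| ≤ |a2| * T ^ 2 * T := by
    rw [abs_mul, abs_mul, abs_pow]; gcongr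
  have h3 : |a3 * u ^ 3| ≤ |a3| * T ^ 3 := by
    rw [abs_mul, abs_pow]; gcongr
  have h4 := abs_add_le (a0 * ξ ^ 3 + a1 * u * ξ ^ 2 + a2 * u ^ 2 * ξ) (a3 * u ^ 3)
  have h5 := abs_add_le (a0 * ξ ^ 3 + a1 * u * ξ ^ 2) (a2 * u ^ 2 * ξ)
  have h6 := abs_add_le (a0 * ξ ^ 3) (a1 * u * ξ ^ 2)
  nlinarith

lemma j2a_basic {u ξ : ℝ} (h : u < ξ) :
    |u| ≤ |ξ| + (ξ - u) ∧ |ξ| ≤ |ξ| + (ξ - u) ∧ 0 < ξ ^ 2 + (ξ - u) ^ 2 ∧
      (|ξ| + (ξ - u)) ^ 2 ≤ 2 * (ξ ^ 2 + (ξ - u) ^ 2) := by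
  refine ⟨abs_le.2 ⟨by linarith [neg_abs_le ξ], by linarith [le_abs_self ξ]⟩, by linarith, ?_, ?_⟩
  · have : 0 < (ξ - u) ^ 2 := by have := sub_pos.2 h; positivity
    positivity
  · rw [← sq_abs ξ]; nlinarith [sq_nonneg (|ξ| - (ξ - u))]

lemma j2a_pi2 {m0 c : ℝ} (hm : -1 / 2 < m0) (hc : 0 < c) :
    ∃ C : ℝ, 0 ≤ C ∧ ∀ u ξ : ℝ, u < ξ → c * (ξ ^ 2 + (ξ - u) ^ 2) ≤ Dh m0 u ξ → |ξ| ≤ 1 →
      ξ - u ≤ 1 → |Pi2 m0 u ξ| ≤ C * (ξ - u) := by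
  obtain ⟨B, hB⟩ : ∃ B, B = (1 + m0) * (3 + 2 * m0) * (1 + 2 * m0) * (10 + 9 * m0) := ⟨_, rfl⟩
  have hB0 : 0 < B := by
    have h1 : 0 < 1 + m0 := by linarith
    have h2 : 0 < 3 + 2 * m0 := by linarith
    have h3 : 0 < 1 + 2 * m0 := by linarith
    have h4 : 0 < 10 + 9 * m0 := by linarith
    rw [hB]; positivity
  obtain ⟨A, hA⟩ : ∃ A, A = |(1 + m0) * (4 + 5 * m0)| + |2 * (1 + m0) * (4 + 5 * m0)|
    + |(4 + 5 * m0) * (3 + 2 * m0)| + |(2 + m0) * (3 + 2 * m0)| := ⟨_, rfl⟩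
  have hA0 : 0 ≤ A := by rw [hA]; positivity
  refine ⟨4 * A / (B * c), by positivity, fun u ξ h hD h1 h2 => ?_⟩
  obtain ⟨b1, b2, b3, b4⟩ := j2a_basic h
  have hs : 0 < ξ - u := sub_pos.2 h
  have h3 := j2a_cub ((1 + m0) * (4 + 5 * m0)) (2 * (1 + m0) * (4 + 5 * m0))
    ((4 + 5 * m0) * (3 + 2 * m0)) ((2 + m0) * (3 + 2 * m0)) b1 b2
  rw [← hA] at h3
  unfold Pi2
  rw [← hB]
  refine j2a_div (y' := B * (c * (ξ ^ 2 + (ξ - u) ^ 2))) (by positivity) (by gcongr)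
    (by positivity) ?_
  rw [abs_mul, abs_sub_comm, abs_of_pos hs]
  have h4 : 4 * A / (B * c) * (ξ - u) * (B * (c * (ξ ^ 2 + (ξ - u) ^ 2)))
      = (ξ - u) * (A * (2 * (2 * (ξ ^ 2 + (ξ - u) ^ 2)))) := by field_simp; ring
  rw [h4]
  refine mul_le_mul_of_nonneg_left (h3.trans (mul_le_mul_of_nonneg_left ?_ hA0)) hs.le
  rw [pow_succ']
  exact mul_le_mul (by linarith) b4 (by positivity) (by norm_num)

lemma j2a_gam {m0 c : ℝ} (hm : -1 / 2 < m0) (hc : 0 < c) :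
    ∃ C : ℝ, 0 ≤ C ∧ ∀ u ξ : ℝ, u < ξ → c * (ξ ^ 2 + (ξ - u) ^ 2) ≤ Dh m0 u ξ →
      |Gam2 m0 u ξ * (ξ ^ 2 - u ^ 2)| ≤ C * (ξ - u) := by
  obtain ⟨B, hB⟩ : ∃ B, B = (1 + m0) * (1 + 2 * m0) * (10 + 9 * m0) := ⟨_, rfl⟩
  have hB0 : 0 < B := by
    have h1 : 0 < 1 + m0 := by linarith
    have h3 : 0 < 1 + 2 * m0 := by linarith
    have h4 : 0 < 10 + 9 * m0 := by linarith
    rw [hB]; positivity
  obtain ⟨A, hA⟩ : ∃ A, A = |6 * (1 + m0) * (1 + 2 * m0)| + |12 * (1 + m0) ^ 2|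
    + |8 + 13 * m0 + 3 * m0 ^ 2| + |2 * (2 + m0)| := ⟨_, rfl⟩
  have hA0 : 0 ≤ A := by rw [hA]; positivity
  refine ⟨8 * A / (B * c ^ 2), by positivity, fun u ξ h hD => ?_⟩
  obtain ⟨b1, b2, b3, b4⟩ := j2a_basic h
  have hs : 0 < ξ - u := sub_pos.2 h
  have h3 := j2a_cub (6 * (1 + m0) * (1 + 2 * m0)) (12 * (1 + m0) ^ 2)
    (8 + 13 * m0 + 3 * m0 ^ 2) (2 * (2 + m0)) b1 b2
  rw [← hA] at h3
  unfold Gam2
  rw [← hB, div_mul_eq_mul_div]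
  refine j2a_div (y' := B * (c * (ξ ^ 2 + (ξ - u) ^ 2)) ^ 2) (by positivity) (by gcongr)
    (by positivity) ?_
  have h4 : 8 * A / (B * c ^ 2) * (ξ - u) * (B * (c * (ξ ^ 2 + (ξ - u) ^ 2)) ^ 2)
      = 2 * A * (ξ - u) * (2 * (ξ ^ 2 + (ξ - u) ^ 2)) ^ 2 := by field_simp; ring
  have h5 : |ξ ^ 2 - u ^ 2| ≤ (ξ - u) * (2 * (|ξ| + (ξ - u))) := by
    rw [show ξ ^ 2 - u ^ 2 = (ξ - u) * (ξ + u) by ring, abs_mul, abs_of_pos hs]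
    exact mul_le_mul_of_nonneg_left ((abs_add_le _ _).trans (by linarith)) hs.le
  rw [h4, abs_mul]
  refine (mul_le_mul h3 h5 (abs_nonneg _) (by positivity)).trans ?_
  have h6 : ((|ξ| + (ξ - u)) ^ 2) ^ 2 ≤ (2 * (ξ ^ 2 + (ξ - u) ^ 2)) ^ 2 := by gcongr
  calc A * (|ξ| + (ξ - u)) ^ 3 * ((ξ - u) * (2 * (|ξ| + (ξ - u))))
      = 2 * A * (ξ - u) * ((|ξ| + (ξ - u)) ^ 2) ^ 2 := by ring
    _ ≤ _ := by gcongr

lemma j2a_err {m0 c L M : ℝ} (μ : ℝ) (hm : -1 / 2 < m0) (hc : 0 < c) (hL : 0 ≤ L) (hM : 0 ≤ M) :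
    ∃ C : ℝ, 0 ≤ C ∧ ∀ u ξ b : ℝ, u < ξ → c * (ξ ^ 2 + (ξ - u) ^ 2) ≤ Dh m0 u ξ → |ξ| ≤ 1 →
      |b - μ| ≤ L * |ξ| → |b| ≤ M →
      |-(b - μ) * ξ * (ξ - u) * (2 * u + ξ) / ((3 + 2 * m0) * Dh m0 u ξ)
        + μ * (ξ * (ξ * b)) * (Gam2 m0 u ξ * (ξ ^ 2 - u ^ 2))| ≤ C * (|ξ| * (ξ - u)) := by
  obtain ⟨G, hG0, hG⟩ := j2a_gam hm hc
  have hν : 0 < 3 + 2 * m0 := by linarith
  refine ⟨6 * L / ((3 + 2 * m0) * c) + |μ| * M * G, by positivity, fun u ξ b h hD h1 h2 h3 => ?_⟩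
  obtain ⟨b1, b2, b3, b4⟩ := j2a_basic h
  have hs : 0 < ξ - u := sub_pos.2 h
  have e1 : |-(b - μ) * ξ * (ξ - u) * (2 * u + ξ) / ((3 + 2 * m0) * Dh m0 u ξ)|
      ≤ 6 * L / ((3 + 2 * m0) * c) * (|ξ| * (ξ - u)) := by
    refine j2a_div (y' := (3 + 2 * m0) * (c * (ξ ^ 2 + (ξ - u) ^ 2))) (by positivity) (by gcongr)
      (by positivity) ?_
    have h4 : 6 * L / ((3 + 2 * m0) * c) * (|ξ| * (ξ - u))
        * ((3 + 2 * m0) * (c * (ξ ^ 2 + (ξ - u) ^ 2)))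
        = 3 * L * |ξ| * (ξ - u) * (2 * (ξ ^ 2 + (ξ - u) ^ 2)) := by field_simp; ring
    have h5 : |2 * u + ξ| ≤ 3 * (|ξ| + (ξ - u)) := by
      refine (abs_add_le _ _).trans ?_
      rw [abs_mul, abs_two]; linarith
    rw [h4, abs_mul, abs_mul, abs_mul, abs_neg, abs_of_pos hs]
    calc |b - μ| * |ξ| * (ξ - u) * |2 * u + ξ|
        ≤ L * |ξ| * (|ξ| + (ξ - u)) * (ξ - u) * (3 * (|ξ| + (ξ - u))) := by gcongr
      _ = 3 * L * |ξ| * (ξ - u) * (|ξ| + (ξ - u)) ^ 2 := by ring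
      _ ≤ _ := by gcongr
  have e2 : |μ * (ξ * (ξ * b)) * (Gam2 m0 u ξ * (ξ ^ 2 - u ^ 2))|
      ≤ |μ| * M * G * (|ξ| * (ξ - u)) := by
    rw [abs_mul, abs_mul, abs_mul, abs_mul]
    calc |μ| * (|ξ| * (|ξ| * |b|)) * |Gam2 m0 u ξ * (ξ ^ 2 - u ^ 2)|
        ≤ |μ| * (|ξ| * (1 * M)) * (G * (ξ - u)) := by gcongr; exact hG u ξ h hD
      _ = _ := by ring
  refine (abs_add_le _ _).trans ?_
  linarith

/-- `|ξ| s ≤ C s0 ^ 2` -/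
lemma j2a_size {C s s0 ξ ν : ℝ} (hC : 0 < C) (hs : 0 < s) (hs0 : 0 < s0) (hν : 0 ≤ ν)
    (h1 : s ≤ C * s0) (h3 : s * |ξ| ^ (1 + ν) ≤ C * s0 ^ (2 + ν)) : |ξ| * s ≤ C * s0 ^ 2 := by
  rcases le_total |ξ| s0 with h | h
  · calc |ξ| * s ≤ s0 * (C * s0) := by gcongr
      _ = _ := by ring
  · have hξ : 0 < |ξ| := hs0.trans_le h
    have h4 : s0 ^ ν ≤ |ξ| ^ ν := Real.rpow_le_rpow hs0.le h hν
    have h5 : 0 < s0 ^ ν := Real.rpow_pos_of_pos hs0 ν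
    rw [Real.rpow_add hξ, Real.rpow_add hs0, Real.rpow_one, Real.rpow_two] at h3
    have h6 : |ξ| * s * s0 ^ ν ≤ C * s0 ^ 2 * s0 ^ ν :=
      calc |ξ| * s * s0 ^ ν ≤ |ξ| * s * |ξ| ^ ν := by gcongr
        _ = s * (|ξ| * |ξ| ^ ν) := by ring
        _ ≤ _ := by linarith
    exact le_of_mul_le_mul_right h6 h5

/-- the main term near the origin -/
lemma j2a_main {C C1 s s0 ξ D : ℝ} (hC : 0 < C) (hs : 0 < s) (hs0 : 0 < s0) (hD : 0 < D)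
    (hD1 : D ≤ C1 * (ξ ^ 2 + s ^ 2)) (h1 : |ξ| ≤ s0) (h2 : s0 ≤ C * s) :
    1 / (C * (|C1| + 1) * (C ^ 2 + 1)) * s0 ≤ s ^ 3 / D := by
  have h3 : ξ ^ 2 ≤ (C * s) ^ 2 := by
    rw [← sq_abs ξ]; gcongr; exact h1.trans h2
  have h4 : D ≤ (|C1| + 1) * ((C ^ 2 + 1) * s ^ 2) := by
    refine hD1.trans (mul_le_mul (by linarith [le_abs_self C1]) (by nlinarith) (by positivity)
      (by positivity))
  rw [le_div_iff₀ hD]
  calc 1 / (C * (|C1| + 1) * (C ^ 2 + 1)) * s0 * D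
      ≤ 1 / (C * (|C1| + 1) * (C ^ 2 + 1)) * (C * s) * ((|C1| + 1) * ((C ^ 2 + 1) * s ^ 2)) := by
        gcongr
    _ = s ^ 3 := by field_simp

lemma j2a_three {F : ℝ → ℝ} {S : Set ℝ} (hS : S.Finite) {d s0 a b : ℝ} (h0 : 0 ≤ s0)
    (hd : s0 ≤ d) (hF : ContinuousOn F (Icc (-d) d))
    (h : ∀ x ∈ Ioo (-d) d, x ∉ S → ∃ f', HasDerivAt F f' x ∧ -b ≤ f' ∧ (|x| ≤ s0 → a - b ≤ f')) :
    2 * a * s0 - 2 * b * d ≤ F d - F (-d) := by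
  have h1 := le_sub_of_le_deriv (c := -b) (a := -d) (b := -s0) hS (by linarith)
    (hF.mono (Icc_subset_Icc_right (by linarith))) fun x hx hxS => by
      obtain ⟨f', e1, e2, -⟩ := h x ⟨hx.1, by linarith [hx.2]⟩ hxS
      exact ⟨f', e1, e2⟩
  have h2 := le_sub_of_le_deriv (c := a - b) (a := -s0) (b := s0) hS (by linarith)
    (hF.mono (Icc_subset_Icc (by linarith) hd)) fun x hx hxS => by
      obtain ⟨f', e1, -, e2⟩ := h x ⟨by linarith [hx.1], by linarith [hx.2]⟩ hxS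
      exact ⟨f', e1, e2 (abs_le.2 ⟨hx.1.le, hx.2.le⟩)⟩
  have h3 := le_sub_of_le_deriv (c := -b) (a := s0) (b := d) hS hd
    (hF.mono (Icc_subset_Icc_left (by linarith))) fun x hx hxS => by
      obtain ⟨f', e1, e2, -⟩ := h x ⟨by linarith [hx.1], hx.2⟩ hxS
      exact ⟨f', e1, e2⟩
  linarith

lemma j2a_mt {mt : ℝ → ℝ} (h : AnalyticAt ℝ mt 0) :
    ∃ L r : ℝ, 0 ≤ L ∧ 0 < r ∧ r ≤ 1 ∧ ∀ ξ, |ξ| ≤ r → |mt ξ - mt 0| ≤ L * |ξ| := by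
  obtain ⟨L, hL, h1⟩ := h.differentiableAt.isBigO_sub.exists_pos
  obtain ⟨r, hr, h2⟩ := Metric.eventually_nhds_iff.1 h1.bound
  refine ⟨L, min (r / 2) 1, hL.le, by positivity, min_le_right _ _, fun ξ hξ => ?_⟩
  have := h2 (y := ξ) (by
    rw [Real.dist_eq, sub_zero]; linarith [min_le_left (r / 2) 1])
  simpa using this

theorem j2aS (hLLder : LLderStmt) (hPi2 : Pi2Stmt) : J2aStmt := by
  intro m mt m0 d0 u hM hm hm3 hm0 hmt hmm ⟨d1, hd1, hd10, hK⟩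
  by_contra hμ
  obtain ⟨⟨c, C1, hc, hDh⟩, -, -⟩ := hLLder m0 (by linarith) hm3
  obtain ⟨L, r, hL, hr, hr1, hLr⟩ := j2a_mt hmt
  obtain ⟨E, hE0, hE⟩ := j2a_err (L := L) (M := |mt 0| + L) (mt 0) hm hc hL (by positivity)
  obtain ⟨P, hP0, hP⟩ := j2a_pi2 hm hc
  obtain ⟨K1, hK1⟩ := hK d1 ⟨hd1, le_rfl⟩
  obtain ⟨C, hC, hsz⟩ := hK1.size
  obtain ⟨C2, hC2⟩ : ∃ C2, C2 = 3 * m0 / ((1 + 2 * m0) * (10 + 9 * m0)) := ⟨_, rfl⟩
  have hC20 : C2 ≠ 0 := by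
    have h3 : 0 < 1 + 2 * m0 := by linarith
    have h4 : 0 < 10 + 9 * m0 := by linarith
    rw [hC2]; positivity
  obtain ⟨g, hg1, hg⟩ : ∃ g : ℝ, |g| = 1 ∧ 0 < g * (mt 0 * C2) := by
    rcases (mul_ne_zero hμ hC20).lt_or_gt with h | h
    · exact ⟨-1, by simp, by linarith⟩
    · exact ⟨1, by simp, by linarith⟩
  obtain ⟨a, ha⟩ : ∃ a, a = g * (mt 0 * C2) * (1 / (C * (|C1| + 1) * (C ^ 2 + 1))) := ⟨_, rfl⟩
  have ha0 : 0 < a := by rw [ha]; positivity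
  obtain ⟨d, hd, hdr, hdd, hda⟩ : ∃ d : ℝ, 0 < d ∧ d ≤ r ∧ d ≤ d1 ∧ (E * C + 1) * d ≤ a / 2 :=
    ⟨min (min r d1) (a / 2 / (E * C + 1)), by positivity,
      (min_le_left _ _).trans (min_le_left _ _), (min_le_left _ _).trans (min_le_right _ _), by
        rw [← le_div_iff₀' (by positivity)]; exact min_le_right _ _⟩
  obtain ⟨K, hKd⟩ := hK d ⟨hd, hdd⟩
  obtain ⟨c1, C3, hbd⟩ := hKd.bdry
  have sub1 : Icc (-d) d ⊆ Icc (-d1) d1 := Icc_subset_Icc (by linarith) hdd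
  have sub0 : Icc (-d) d ⊆ Icc (-d0) d0 := Icc_subset_Icc (by linarith) (by linarith)
  have hz : (0 : ℝ) ∈ Icc (-d) d := ⟨by linarith, hd.le⟩
  have hs0 : ∀ n, 0 < -u n 0 := fun n => by linarith [hM.lt n 0 (sub0 hz)]
  have hlim : Tendsto (fun n => -u n 0) atTop (𝓝 0) := by
    simpa using (hM.unif.tendsto_at (sub0 hz)).neg
  have hDpos : ∀ n, ∀ ξ ∈ Icc (-d) d, 0 < Dh m0 (u n ξ) ξ := fun n ξ hξ =>
    (mul_pos hc (j2a_basic (hM.lt n ξ (sub0 hξ))).2.2.1).trans_le (hDh _ _).1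
  have e1 : 2 + 2 * m0 = 1 + (1 + 2 * m0) := by ring
  have e2 : 3 + 2 * m0 = 2 + (1 + 2 * m0) := by ring
  have hν : 0 < 1 + 2 * m0 := by linarith
  -- lower bound
  have low : ∀ n, -u n 0 ≤ d → a * (-u n 0) ^ 2 ≤
      g * (K n d + mt 0 * Pi2 m0 (u n d) d) - g * (K n (-d) + mt 0 * Pi2 m0 (u n (-d)) (-d)) := by
    intro n hn
    have hu : ContinuousOn (u n) (Icc (-d) d) := fun ξ hξ =>
      (continuousAt_of_cube (hM.ode n ξ (sub0 hξ)).continuousAt).continuousWithinAt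
    have hPc : ContinuousOn (fun ξ => Pi2 m0 (u n ξ) ξ) (Icc (-d) d) := by
      unfold Pi2
      refine ContinuousOn.div (by fun_prop) (by unfold Dh; fun_prop) fun ξ hξ => ?_
      have h1 : 0 < 1 + m0 := by linarith
      have h2 : 0 < 3 + 2 * m0 := by linarith
      have h4 : 0 < 10 + 9 * m0 := by linarith
      have := hDpos n ξ hξ
      positivity
    have h := j2a_three (F := fun ξ => g * (K n ξ + mt 0 * Pi2 m0 (u n ξ) ξ)) (hKd.fin n)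
      (a := a * (-u n 0)) (b := E * (C * (-u n 0) ^ 2)) (hs0 n).le hn
      (continuousOn_const.mul ((hKd.cont n).add (continuousOn_const.mul hPc))) fun ξ hξ hS => by
        have hξ' := Ioo_subset_Icc_self hξ
        have hu0 : u n ξ ≠ 0 := fun h => hS ⟨hξ', h⟩
        have hlt := hM.lt n ξ (sub0 hξ')
        have hD := hDpos n ξ hξ'
        have hξr : |ξ| ≤ r := (abs_le.2 hξ').trans hdr
        have h1 := hPi2 m0 (u n) _ ξ (m ξ) (by linarith) (by linarith) hD.ne'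
          (hasDerivAt_of_cube (hM.ode n ξ (sub0 hξ')) hu0) hu0 (by field_simp)
        have h2 := ((hKd.der n ξ hξ hu0).add (h1.const_mul (mt 0))).const_mul g
        have h3 := hE (u n ξ) ξ (mt ξ) hlt (hDh _ _).1 (hξr.trans hr1) (hLr ξ hξr) (by
          have h4 := hLr ξ hξr
          have h5 := mul_le_mul_of_nonneg_left (hξr.trans hr1) hL
          have := abs_sub_abs_le_abs_sub (mt ξ) (mt 0)
          linarith)
        obtain ⟨z1, z2, z3, -⟩ := hsz n ξ (sub1 hξ')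
        rw [e1, e2] at z3
        have h4 := j2a_size hC (sub_pos.2 hlt) (hs0 n) hν.le z1 z3
        obtain ⟨er, her⟩ : ∃ er, er = -(mt ξ - mt 0) * ξ * (ξ - u n ξ) * (2 * u n ξ + ξ)
          / ((3 + 2 * m0) * Dh m0 (u n ξ) ξ)
          + mt 0 * (ξ * (ξ * mt ξ)) * (Gam2 m0 (u n ξ) ξ * (ξ ^ 2 - u n ξ ^ 2)) := ⟨_, rfl⟩
        rw [← her] at h3
        have h5 : -(E * (C * (-u n 0) ^ 2)) ≤ g * er := by
          have h6 : |g * er| ≤ E * (C * (-u n 0) ^ 2) := by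
            rw [abs_mul, hg1, one_mul]
            exact h3.trans (mul_le_mul_of_nonneg_left h4 hE0)
          exact (abs_le.1 h6).1
        have hs := sub_pos.2 hlt
        refine ⟨g * (mt 0 * C2) * ((ξ - u n ξ) ^ 3 / Dh m0 (u n ξ) ξ) + g * er,
          h2.congr_deriv ?_, ?_, fun h6 => ?_⟩
        · rw [her, hmm ξ, ← hC2]; ring
        · have : 0 ≤ g * (mt 0 * C2) * ((ξ - u n ξ) ^ 3 / Dh m0 (u n ξ) ξ) := by positivity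
          linarith
        · have h7 := mul_le_mul_of_nonneg_left
            (j2a_main hC hs (hs0 n) hD (hDh _ _).2 h6 (z2 h6)) hg.le
          rw [← mul_assoc, ← ha] at h7
          linarith
    have h2 : E * C * d * (-u n 0) ^ 2 ≤ a / 2 * (-u n 0) ^ 2 :=
      mul_le_mul_of_nonneg_right (by nlinarith) (sq_nonneg _)
    nlinarith
  -- upper bound
  obtain ⟨Q, hQ⟩ : ∃ Q, Q = C / d ^ (2 + 2 * m0) := ⟨_, rfl⟩
  have hdp : 0 < d ^ (2 + 2 * m0) := Real.rpow_pos_of_pos hd _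
  have hQ0 : 0 < Q := by rw [hQ]; positivity
  have hend : ∀ n, ∀ ξ ∈ Icc (-d) d, |ξ| = d →
      ξ - u n ξ ≤ Q * ((-u n 0) ^ 2 * (-u n 0) ^ (1 + 2 * m0)) := fun n ξ hξ hξd => by
    have z3 := (hsz n ξ (sub1 hξ)).2.2.1
    rw [hξd, e2, Real.rpow_add (hs0 n), Real.rpow_two] at z3
    rw [hQ, div_mul_eq_mul_div, le_div_iff₀ hdp]
    exact z3
  obtain ⟨R, hR⟩ : ∃ R, R = (|c1| + |C3| + 2 * (|mt 0| * P)) * Q := ⟨_, rfl⟩
  have hlim2 : Tendsto (fun n => R * (-u n 0) ^ (1 + 2 * m0)) atTop (𝓝 0) := by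
    have := (hlim.rpow_const (p := 1 + 2 * m0) (Or.inr hν.le)).const_mul R
    rwa [Real.zero_rpow hν.ne', mul_zero] at this
  have hlim3 : Tendsto (fun n => C * (-u n 0)) atTop (𝓝 0) := by
    simpa using hlim.const_mul C
  obtain ⟨n, h1, h2, h3, h4⟩ := (hbd.and ((hlim.eventually (gt_mem_nhds hd)).and
    ((hlim2.eventually (gt_mem_nhds ha0)).and (hlim3.eventually (gt_mem_nhds one_pos))))).exists
  have hdm : d ∈ Icc (-d) d := ⟨by linarith, le_rfl⟩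
  have hdm' : -d ∈ Icc (-d) d := ⟨le_rfl, by linarith⟩
  have l1 := hM.lt n d (sub0 hdm)
  have l2 := hM.lt n (-d) (sub0 hdm')
  have s1 : d - u n d ≤ 1 := (hsz n d (sub1 hdm)).1.trans h4.le
  have s2 : -d - u n (-d) ≤ 1 := (hsz n (-d) (sub1 hdm')).1.trans h4.le
  have ad : |d| = d := abs_of_pos hd
  have ad' : |-d| = d := by rw [abs_neg, ad]
  have p1 := hP _ _ l1 (hDh _ _).1 (by rw [ad]; linarith) s1
  have p2 := hP _ _ l2 (hDh _ _).1 (by rw [ad']; linarith) s2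
  have t1 := hend n d hdm ad
  have t2 := hend n (-d) hdm' ad'
  obtain ⟨Z, hZ⟩ : ∃ Z, Z = Q * ((-u n 0) ^ 2 * (-u n 0) ^ (1 + 2 * m0)) := ⟨_, rfl⟩
  rw [← hZ] at t1 t2
  have hs2 := sub_pos.2 l2
  have q1 : |mt 0 * Pi2 m0 (u n d) d| ≤ |mt 0| * (P * Z) := by
    rw [abs_mul]; gcongr; exact p1.trans (by gcongr)
  have q2 : |mt 0 * Pi2 m0 (u n (-d)) (-d)| ≤ |mt 0| * (P * Z) := by
    rw [abs_mul]; gcongr; exact p2.trans (by gcongr)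
  have q3 : |c1 * (-d - u n (-d))| ≤ |c1| * Z := by
    rw [abs_mul, abs_of_pos hs2]; gcongr
  have q4 : C3 * (-d - u n (-d)) ^ 2 ≤ |C3| * Z :=
    mul_le_mul (le_abs_self _) (by nlinarith) (sq_nonneg _) (abs_nonneg _)
  have q5 : |(K n d + mt 0 * Pi2 m0 (u n d) d) - (K n (-d) + mt 0 * Pi2 m0 (u n (-d)) (-d))|
      ≤ (|c1| + |C3| + 2 * (|mt 0| * P)) * Z := by
    have a1 := abs_le.1 (h1.trans q4)
    have a2 := abs_le.1 q1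
    have a3 := abs_le.1 q2
    have a4 := abs_le.1 q3
    rw [abs_le]
    constructor <;> linarith [a1.1, a1.2, a2.1, a2.2, a3.1, a3.2, a4.1, a4.2]
  have q6 := low n h2.le
  rw [← mul_sub] at q6
  have q7 := (q6.trans (le_abs_self _))
  rw [abs_mul, hg1, one_mul] at q7
  have q8 : (|c1| + |C3| + 2 * (|mt 0| * P)) * Z
      = R * (-u n 0) ^ (1 + 2 * m0) * (-u n 0) ^ 2 := by rw [hR, hZ]; ring
  have q9 := mul_lt_mul_of_pos_right h3 (pow_pos (hs0 n) 2)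
  linarith

end Pool.Agent.MP_c2f0e4_an
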