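import Pool.Agent.MP_c2f0e4_an.Iface

open Set Filter Topology Real Asymptotics

namespace Pool.Agent.MP_c2f0e4_an

lemma j2b_form (g a u ξ : ℝ) :
    -g * (-(ξ * a) * (ξ - u) * (2 * u + ξ) / ((3 + 2 * (-1 / 2 : ℝ)) * Dh (-1 / 2) u ξ)) =
      g * a * (ξ - u) * ((3 * ξ ^ 2 - 2 * ξ * (ξ - u)) /
        (4 * ξ ^ 2 - 5 * ξ * (ξ - u) + 2 * (ξ - u) ^ 2)) := by
  have : (3 + 2 * (-1 / 2 : ℝ)) * Dh (-1 / 2) u ξ =
      4 * ξ ^ 2 - 5 * ξ * (ξ - u) + 2 * (ξ - u) ^ 2 := by unfold Dh; ring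
  rw [this]; ring

lemma j2b_den {ξ s : ℝ} (hs : 0 < s) : 0 < 4 * ξ ^ 2 - 5 * ξ * s + 2 * s ^ 2 := by
  nlinarith [sq_nonneg (8 * ξ - 5 * s), mul_pos hs hs]

lemma j2b_low {ξ s : ℝ} (hs : 0 < s) :
    -7 ≤ (3 * ξ ^ 2 - 2 * ξ * s) / (4 * ξ ^ 2 - 5 * ξ * s + 2 * s ^ 2) := by
  rw [le_div_iff₀ (j2b_den hs)]
  nlinarith [sq_nonneg (62 * ξ - 37 * s), mul_pos hs hs]

lemma j2b_big {ξ s : ℝ} (hs : 0 < s) (h : s ≤ |ξ|) :
    1 / 11 ≤ (3 * ξ ^ 2 - 2 * ξ * s) / (4 * ξ ^ 2 - 5 * ξ * s + 2 * s ^ 2) := by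
  rw [le_div_iff₀ (j2b_den hs)]
  rcases le_total 0 ξ with h0 | h0
  · rw [abs_of_nonneg h0] at h; nlinarith
  · rw [abs_of_nonpos h0] at h; nlinarith

theorem j2bS (hLLder : LLderStmt) : J2bStmt := by
  intro m mt d0 u hM hmt ⟨d1, hd1, hd10, hcore⟩
  by_contra hne
  obtain ⟨g, hg1, hg⟩ : ∃ g : ℝ, |g| = 1 ∧ 0 < g * mt 0 := by
    rcases lt_or_gt_of_ne hne with h | h
    · exact ⟨-1, by simp, by linarith⟩
    · exact ⟨1, by simp, by linarith⟩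
  obtain ⟨c, hc⟩ : ∃ c, c = g * mt 0 / 2 := ⟨_, rfl⟩
  have hc0 : 0 < c := by linarith
  have hev : ∀ᶠ ξ in 𝓝 (0 : ℝ), g * mt ξ ∈ Ioo c (3 * c) :=
    (hmt.continuousAt.const_mul g).eventually (Ioo_mem_nhds (by linarith) (by linarith))
  obtain ⟨ε, hε, hball⟩ := Metric.eventually_nhds_iff.1 hev
  obtain ⟨d, hd0, hdd1, hdε⟩ : ∃ d, 0 < d ∧ d ≤ d1 ∧ d < ε :=
    ⟨min d1 (ε / 2), by positivity, min_le_left _ _, (min_le_right _ _).trans_lt (by linarith)⟩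
  have hgm : ∀ ξ ∈ Icc (-d) d, c < g * mt ξ ∧ g * mt ξ < 3 * c := fun ξ hξ =>
    hball (by rw [Real.dist_eq, sub_zero]; exact (abs_le.2 hξ).trans_lt hdε)
  obtain ⟨K, hK⟩ := hcore d ⟨hd0, hdd1⟩
  obtain ⟨C0, hC0, hsize0⟩ := hK.size
  obtain ⟨c1, C2, hb⟩ := hK.bdry
  have hsub : Icc (-d) d ⊆ Icc (-d0) d0 := Icc_subset_Icc (by linarith) (by linarith)
  have hs : ∀ n, ∀ ξ ∈ Icc (-d) d, 0 < ξ - u n ξ := fun n ξ hξ => sub_pos.2 (hM.lt n ξ (hsub hξ))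
  have h0mem : (0 : ℝ) ∈ Icc (-d) d := ⟨by linarith, hd0.le⟩
  have hs0 : ∀ n, 0 < -u n 0 := fun n => by simpa using hs n 0 h0mem
  obtain ⟨C, hCe⟩ : ∃ C, C = C0 + 1 := ⟨_, rfl⟩
  have hC1 : 1 ≤ C := by linarith
  have hsize : ∀ n, ∀ ξ ∈ Icc (-d) d, ξ - u n ξ ≤ C * (-u n 0) ∧
      (ξ - u n ξ) * |ξ| ≤ C * (-u n 0) ^ 2 ∧
      (-u n 0 ≤ |ξ| → (-u n 0) ^ 2 ≤ C * ((ξ - u n ξ) * |ξ|)) := fun n ξ hξ => by
    obtain ⟨h1, -, h3, h4⟩ := hsize0 n ξ hξ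
    have e1 : (2 + 2 * (-1 / 2) : ℝ) = 1 := by norm_num
    have e2 : (3 + 2 * (-1 / 2) : ℝ) = (2 : ℕ) := by norm_num
    rw [e1, e2, Real.rpow_one, Real.rpow_natCast] at h3 h4
    have := hs0 n
    have h5 : 0 ≤ (ξ - u n ξ) * |ξ| := mul_nonneg (hs n ξ hξ).le (abs_nonneg _)
    refine ⟨by nlinarith, by nlinarith [sq_nonneg (-u n 0)], fun h => by nlinarith [h4 h]⟩
  have hlim : Tendsto (fun n => -u n 0) atTop (𝓝[>] 0) := by
    refine tendsto_nhdsWithin_iff.2 ⟨?_, Eventually.of_forall hs0⟩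
    simpa using (hM.unif.tendsto_at (hsub h0mem)).neg
  obtain ⟨κ, hκ⟩ : ∃ κ, κ = c / (11 * C) := ⟨_, rfl⟩
  have hκ0 : 0 < κ := by rw [hκ]; positivity
  obtain ⟨C3, hC3⟩ : ∃ C3, C3 = |c1| * (C / d) + |C2| * (C / d) ^ 2 := ⟨_, rfl⟩
  have hlog : ∀ᶠ n in atTop,
      Real.log (-u n 0) < Real.log d - Real.log C - (C3 + 42 * c * C ^ 2) / κ :=
    (Real.tendsto_log_nhdsGT_zero.comp hlim).eventually (eventually_lt_atBot _)
  have hsm : ∀ᶠ n in atTop, -u n 0 < min 1 (d / C) :=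
    (tendsto_nhds_of_tendsto_nhdsWithin hlim).eventually (gt_mem_nhds (by positivity))
  obtain ⟨n, hb, hlog, hsm⟩ := (hb.and (hlog.and hsm)).exists
  obtain ⟨s0, hs0e⟩ : ∃ s0, s0 = -u n 0 := ⟨_, rfl⟩
  have hs0p : 0 < s0 := hs0e ▸ hs0 n
  have hsz := hsize n
  rw [← hs0e] at hlog hsm hsz
  have hs1 : s0 < 1 := hsm.trans_le (min_le_left _ _)
  have hCd : C * s0 < d := by
    have := hsm.trans_le (min_le_right _ _)
    rw [lt_div_iff₀ (by linarith)] at this; linarith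
  have hCs : 0 < C * s0 := by positivity
  have hder : ∀ ξ ∈ Ioo (-d) d, ξ ∉ {ξ ∈ Icc (-d) d | u n ξ = 0} →
      HasDerivAt (fun y => -g * K n y) (g * mt ξ * (ξ - u n ξ) *
        ((3 * ξ ^ 2 - 2 * ξ * (ξ - u n ξ)) /
          (4 * ξ ^ 2 - 5 * ξ * (ξ - u n ξ) + 2 * (ξ - u n ξ) ^ 2))) ξ := fun ξ hξ hS => by
    rw [← j2b_form]
    exact (hK.der n ξ hξ fun h => hS ⟨Ioo_subset_Icc_self hξ, h⟩).const_mul (-g)
  have hcont : ContinuousOn (fun y => -g * K n y) (Icc (-d) d) :=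
    continuousOn_const.mul (hK.cont n)
  have A1 := le_sub_of_le_deriv (hK.fin n) (c := 0) (a := -d) (b := -(C * s0)) (by linarith)
    (hcont.mono (Icc_subset_Icc_right (by linarith))) fun ξ hξ hS => by
      have hξ' : ξ ∈ Ioo (-d) d := ⟨hξ.1, by linarith [hξ.2]⟩
      have hI := Ioo_subset_Icc_self hξ'
      refine ⟨_, hder ξ hξ' hS, ?_⟩
      have h1 := j2b_big (ξ := ξ) (hs n ξ hI) ((hsz ξ hI).1.trans
        (by rw [abs_of_neg (by linarith [hξ.2])]; linarith [hξ.2]))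
      have h2 := (hgm ξ hI).1
      have h3 := hs n ξ hI
      exact mul_nonneg (mul_nonneg (by linarith) h3.le) (by linarith)
  have A2 := le_sub_of_le_deriv (hK.fin n) (c := -(21 * c * (C * s0))) (a := -(C * s0))
    (b := C * s0) (by linarith)
    (hcont.mono (Icc_subset_Icc (by linarith) hCd.le)) fun ξ hξ hS => by
      have hξ' : ξ ∈ Ioo (-d) d := ⟨by linarith [hξ.1], by linarith [hξ.2]⟩
      have hI := Ioo_subset_Icc_self hξ'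
      refine ⟨_, hder ξ hξ' hS, ?_⟩
      have h1 := j2b_low (ξ := ξ) (hs n ξ hI)
      obtain ⟨h2, h2'⟩ := hgm ξ hI
      have h3 := hs n ξ hI
      have h4 := (hsz ξ hI).1
      have h5 : 0 ≤ g * mt ξ * (ξ - u n ξ) := mul_nonneg (by linarith) h3.le
      have h6 : g * mt ξ * (ξ - u n ξ) ≤ 3 * c * (C * s0) :=
        mul_le_mul h2'.le h4 h3.le (by positivity)
      nlinarith [mul_le_mul_of_nonneg_left h1 h5]
  have A3 := le_sub_of_le_deriv (hK.fin n) (c := 0) (a := C * s0) (b := d) hCd.le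
    (f := fun y => -g * K n y - κ * s0 ^ 2 * Real.log y)
    ((hcont.mono (Icc_subset_Icc_left (by linarith))).sub (continuousOn_const.mul
      (Real.continuousOn_log.mono fun y hy => (hCs.trans_le hy.1).ne'))) fun ξ hξ hS => by
      have hξ0 : 0 < ξ := hCs.trans hξ.1
      have hξ' : ξ ∈ Ioo (-d) d := ⟨by linarith, hξ.2⟩
      have hI := Ioo_subset_Icc_self hξ'
      refine ⟨_, (hder ξ hξ' hS).sub ((Real.hasDerivAt_log hξ0.ne').const_mul _), ?_⟩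
      have h1 := j2b_big (ξ := ξ) (hs n ξ hI) ((hsz ξ hI).1.trans
        (by rw [abs_of_pos hξ0]; exact hξ.1.le))
      have h2 := (hgm ξ hI).1
      have h3 := hs n ξ hI
      have h4 := (hsz ξ hI).2.2 (by rw [abs_of_pos hξ0]; nlinarith [hξ.1])
      rw [abs_of_pos hξ0] at h4
      have h5 : κ * s0 ^ 2 * ξ⁻¹ ≤ c * (ξ - u n ξ) * (1 / 11) := by
        rw [hκ, ← div_eq_mul_inv, div_le_iff₀ hξ0, div_mul_eq_mul_div, div_le_iff₀ (by positivity)]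
        nlinarith [mul_le_mul_of_nonneg_left h4 hc0.le]
      have h6 : c * (ξ - u n ξ) * (1 / 11) ≤ g * mt ξ * (ξ - u n ξ) *
          ((3 * ξ ^ 2 - 2 * ξ * (ξ - u n ξ)) /
            (4 * ξ ^ 2 - 5 * ξ * (ξ - u n ξ) + 2 * (ξ - u n ξ) ^ 2)) :=
        mul_le_mul (mul_le_mul_of_nonneg_right h2.le h3.le) h1 (by norm_num)
          (mul_nonneg (by linarith) h3.le)
      linarith
  have hI : -d ∈ Icc (-d) d := ⟨le_rfl, by linarith⟩
  have t0 := hs n _ hI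
  have t1 : -d - u n (-d) ≤ C / d * s0 ^ 2 := by
    have := (hsz _ hI).2.1
    rw [abs_neg, abs_of_pos hd0] at this
    rw [div_mul_eq_mul_div, le_div_iff₀ hd0]; exact this
  have t2 : (-d - u n (-d)) ^ 2 ≤ (C / d) ^ 2 * s0 ^ 2 := by
    have h1 : s0 ^ 2 ≤ s0 := by nlinarith
    have h2 : -d - u n (-d) ≤ C / d * s0 := t1.trans (by gcongr)
    rw [← mul_pow]; gcongr
  have t3 : |K n d - K n (-d)| ≤ C3 * s0 ^ 2 := by
    have h1 := abs_sub_abs_le_abs_sub (K n d - K n (-d)) (c1 * (-d - u n (-d)))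
    rw [abs_mul, abs_of_pos t0] at h1
    have h2 : C2 * (-d - u n (-d)) ^ 2 ≤ |C2| * ((C / d) ^ 2 * s0 ^ 2) :=
      mul_le_mul (le_abs_self _) t2 (sq_nonneg _) (abs_nonneg _)
    have h3 : |c1| * (-d - u n (-d)) ≤ |c1| * (C / d * s0 ^ 2) := by gcongr
    rw [hC3]; linarith
  have t4 : -g * (K n d - K n (-d)) ≤ C3 * s0 ^ 2 := by
    refine (le_abs_self _).trans ?_
    rwa [abs_mul, abs_neg, hg1, one_mul]
  rw [Real.log_mul (by linarith) hs0p.ne'] at A3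
  have t5 : C3 + 42 * c * C ^ 2 < κ * (Real.log d - Real.log C - Real.log s0) := by
    rw [← div_lt_iff₀' hκ0]; linarith
  have t6 := mul_lt_mul_of_pos_right t5 (pow_pos hs0p 2)
  nlinarith

end Pool.Agent.MP_c2f0e4_an
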