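import Pool.Agent.MP_c2f0e4_an.Iface

open Set Filter Topology Real Asymptotics

namespace Pool.Agent.MP_c2f0e4_an

lemma j2c_dslope {f : ℝ → ℝ} (hf : AnalyticAt ℝ f 0) : AnalyticAt ℝ (dslope f 0) 0 := by
  obtain ⟨p, hp⟩ := hf
  exact ⟨_, hp.has_fpower_series_dslope_fslope⟩

lemma j2c_dslope_eq (f : ℝ → ℝ) (x : ℝ) : f x = f 0 + x * dslope f 0 x := by
  have := sub_smul_dslope f 0 x
  rw [sub_zero, smul_eq_mul] at this
  linarith

lemma j2c_bd {f : ℝ → ℝ} (hf : AnalyticAt ℝ f 0) : ∀ᶠ x in 𝓝 (0 : ℝ), |f x| ≤ |f 0| + 1 := by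
  have h1 : ContinuousAt (fun x => |f x|) 0 := hf.continuousAt.abs
  exact h1.eventually (ge_mem_nhds (by simp))

lemma j2c_taylor {F : ℝ → ℝ} (hF : AnalyticAt ℝ F 0) (h0 : F 0 = 0) :
    ∃ c C : ℝ, ∀ᶠ s in 𝓝 (0 : ℝ), |F s - c * s| ≤ C * s ^ 2 := by
  have h2 := j2c_dslope (j2c_dslope hF)
  refine ⟨dslope F 0 0, |dslope (dslope F 0) 0 0| + 1, ?_⟩
  filter_upwards [j2c_bd h2] with s hs
  have e : F s - dslope F 0 0 * s = dslope (dslope F 0) 0 s * s ^ 2 := by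
    rw [j2c_dslope_eq F s, h0, j2c_dslope_eq (dslope F 0) s]; ring
  rw [e, abs_mul, abs_of_nonneg (sq_nonneg s)]
  exact mul_le_mul_of_nonneg_right hs (sq_nonneg s)

lemma j2c_up {f : ℝ → ℝ} {S : Set ℝ} (hS : S.Finite) {d s0 A : ℝ} (hd : 0 < d) (hs : 0 < s0)
    (hA : 0 ≤ A) (hf : ContinuousOn f (Icc (-d) d))
    (hder : ∀ ξ ∈ Ioo (-d) d, ξ ∉ S → ∃ f', HasDerivAt f f' ξ ∧
      f' ≤ A * (s0 ^ 3 / (ξ ^ 2 + s0 ^ 2)) + A * s0 ^ 2) :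
    f d - f (-d) ≤ A * (π + 2 * d) * s0 ^ 2 := by
  have hc : Continuous fun ξ : ℝ => A * s0 ^ 2 * arctan (ξ / s0) :=
    continuous_const.mul (continuous_arctan.comp (continuous_id.div_const _))
  have h := sub_le_of_deriv_le (f := fun ξ => f ξ - A * s0 ^ 2 * arctan (ξ / s0))
    (c := A * s0 ^ 2) hS (show -d ≤ d by linarith) (hf.sub hc.continuousOn) (by
      intro ξ hξ hξS
      obtain ⟨f', h1, h2⟩ := hder ξ hξ hξS
      have h3 : HasDerivAt (fun ξ : ℝ => A * s0 ^ 2 * arctan (ξ / s0))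
          (A * s0 ^ 2 * (1 / (1 + (ξ / s0) ^ 2) * (1 / s0))) ξ :=
        (((hasDerivAt_id' ξ).div_const s0).arctan).const_mul _
      refine ⟨_, h1.sub h3, ?_⟩
      have e : A * s0 ^ 2 * (1 / (1 + (ξ / s0) ^ 2) * (1 / s0))
          = A * (s0 ^ 3 / (ξ ^ 2 + s0 ^ 2)) := by
        field_simp
        ring
      rw [e]; linarith)
  have a1 := arctan_lt_pi_div_two (d / s0)
  have a2 := neg_pi_div_two_lt_arctan (-d / s0)
  have a3 : 0 ≤ A * s0 ^ 2 := by positivity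
  have a4 : A * s0 ^ 2 * (arctan (d / s0) - arctan (-d / s0)) ≤ A * s0 ^ 2 * π :=
    mul_le_mul_of_nonneg_left (by linarith) a3
  nlinarith

lemma j2c_low {f : ℝ → ℝ} {S : Set ℝ} (hS : S.Finite) {d η s0 c B B' : ℝ} (hs : 0 < s0)
    (h1 : s0 ≤ η) (h2 : η ≤ d) (hB' : 0 ≤ B') (hf : ContinuousOn f (Icc (-d) d))
    (hder : ∀ ξ ∈ Ioo (-d) d, ξ ∉ S → ∃ f', HasDerivAt f f' ξ ∧ -B ≤ f' ∧
      (|ξ| ≤ s0 → c - B ≤ f') ∧ (η ≤ |ξ| → -B' ≤ f')) :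
    2 * c * s0 - 2 * η * B - 2 * d * B' ≤ f d - f (-d) := by
  have key : ∀ a b k : ℝ, -d ≤ a → a ≤ b → b ≤ d →
      (∀ ξ ∈ Ioo a b, ∀ f', -B ≤ f' → (|ξ| ≤ s0 → c - B ≤ f') → (η ≤ |ξ| → -B' ≤ f') → k ≤ f') →
      k * (b - a) ≤ f b - f a := by
    intro a b k ha hab hb hk
    refine le_sub_of_le_deriv hS hab (hf.mono (Icc_subset_Icc ha hb)) ?_
    intro ξ hξ hξS
    obtain ⟨f', e1, e2, e3, e4⟩ := hder ξ ⟨ha.trans_lt hξ.1, hξ.2.trans_le hb⟩ hξS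
    exact ⟨f', e1, hk ξ hξ f' e2 e3 e4⟩
  have p1 := key (-d) (-η) (-B') le_rfl (by linarith) (by linarith) fun ξ hξ f' _ _ e =>
    e (by rw [abs_of_neg (by linarith [hξ.2])]; linarith [hξ.2])
  have p2 := key (-η) (-s0) (-B) (by linarith) (by linarith) (by linarith) fun ξ _ f' e _ _ => e
  have p3 := key (-s0) s0 (c - B) (by linarith) (by linarith) (by linarith) fun ξ hξ f' _ e _ =>
    e (abs_le.2 ⟨hξ.1.le, hξ.2.le⟩)
  have p4 := key s0 η (-B) (by linarith) (by linarith) (by linarith) fun ξ _ f' e _ _ => e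
  have p5 := key η d (-B') (by linarith) (by linarith) le_rfl fun ξ hξ f' _ _ e =>
    e (by rw [abs_of_pos (by linarith [hξ.1])]; linarith [hξ.1])
  nlinarith [mul_nonneg hB' (show 0 ≤ η by linarith)]

lemma j2c_rpow_tendsto {s0 : ℕ → ℝ} (ht : Tendsto s0 atTop (𝓝 0)) {p : ℝ} (hp : 0 < p) :
    Tendsto (fun n => s0 n ^ p) atTop (𝓝 0) := by
  have h := (Real.continuousAt_rpow_const 0 p (Or.inr hp.le)).tendsto.comp ht
  rwa [Real.zero_rpow hp.ne'] at h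

lemma j2c_fin {s0 sm Δ : ℕ → ℝ} {ν c1 C A c B K : ℝ} (hν1 : 1 < ν) (hν2 : ν < 2)
    (hs0 : ∀ n, 0 < s0 n) (hsm : ∀ n, 0 < sm n) (ht : Tendsto s0 atTop (𝓝 0)) (hc : 0 < c)
    (h1 : ∀ᶠ n in atTop, |Δ n - c1 * sm n| ≤ C * sm n ^ 2)
    (h2 : ∀ᶠ n in atTop, Δ n ≤ A * s0 n ^ 2)
    (h3 : ∀ᶠ n in atTop, c * s0 n ^ 2 - B * (s0 n ^ ν) ^ 2 ≤ Δ n)
    (h4 : ∀ᶠ n in atTop, s0 n ^ ν ≤ K * sm n ∧ sm n ≤ K * s0 n ^ ν) : False := by
  have tw := j2c_rpow_tendsto ht (show 0 < ν by linarith)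
  have ta := j2c_rpow_tendsto ht (show 0 < ν - 1 by linarith)
  have tb := j2c_rpow_tendsto ht (show 0 < 2 - ν by linarith)
  have ea : ∀ n, s0 n ^ ν = s0 n * s0 n ^ (ν - 1) := fun n => by
    rw [Real.rpow_sub_one (hs0 n).ne']; field_simp [(hs0 n).ne']
  have eb : ∀ n, s0 n ^ 2 = s0 n ^ ν * s0 n ^ (2 - ν) := fun n => by
    rw [← Real.rpow_add (hs0 n)]; norm_num
  have hc1 : c1 ≤ 0 := by
    have t1 : Tendsto (fun n => |A| * K * s0 n ^ (2 - ν) + |C| * K * s0 n ^ ν) atTop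
        (𝓝 (|A| * K * 0 + |C| * K * 0)) := (tb.const_mul _).add (tw.const_mul _)
    rw [mul_zero, mul_zero, add_zero] at t1
    refine ge_of_tendsto t1 ?_
    filter_upwards [h1, h2, h4] with n e1 e2 e4
    have hb : 0 < s0 n ^ (2 - ν) := Real.rpow_pos_of_pos (hs0 n) _
    have p := hsm n
    have f1 : A * s0 n ^ 2 ≤ |A| * (K * sm n * s0 n ^ (2 - ν)) := by
      calc A * s0 n ^ 2 ≤ |A| * s0 n ^ 2 :=
            mul_le_mul_of_nonneg_right (le_abs_self A) (sq_nonneg _)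
        _ = |A| * (s0 n ^ ν * s0 n ^ (2 - ν)) := by rw [← eb]
        _ ≤ _ := by gcongr; exact e4.1
    have f2 : C * sm n ^ 2 ≤ |C| * (sm n * (K * s0 n ^ ν)) := by
      calc C * sm n ^ 2 ≤ |C| * sm n ^ 2 :=
            mul_le_mul_of_nonneg_right (le_abs_self C) (sq_nonneg _)
        _ = |C| * (sm n * sm n) := by ring
        _ ≤ _ := by gcongr; exact e4.2
    have f3 := (abs_le.1 e1).1
    refine le_of_mul_le_mul_right ?_ p
    nlinarith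
  have t2 : Tendsto (fun n => (|B| + |C| * K ^ 2) * (s0 n ^ (ν - 1)) ^ 2) atTop
      (𝓝 ((|B| + |C| * K ^ 2) * 0 ^ 2)) := (ta.pow 2).const_mul _
  have hle : c ≤ (|B| + |C| * K ^ 2) * 0 ^ 2 := by
    refine ge_of_tendsto t2 ?_
    filter_upwards [h1, h3, h4] with n e1 e3 e4
    have p := hsm n
    have p0 := hs0 n
    have f1 : B * (s0 n ^ ν) ^ 2 ≤ |B| * (s0 n ^ ν) ^ 2 :=
      mul_le_mul_of_nonneg_right (le_abs_self B) (sq_nonneg _)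
    have f2 : C * sm n ^ 2 ≤ |C| * (K * s0 n ^ ν) ^ 2 := by
      calc C * sm n ^ 2 ≤ |C| * sm n ^ 2 :=
            mul_le_mul_of_nonneg_right (le_abs_self C) (sq_nonneg _)
        _ ≤ _ := by gcongr; exact e4.2
    have f3 := (abs_le.1 e1).2
    have f4 : c1 * sm n ≤ 0 := mul_nonpos_of_nonpos_of_nonneg hc1 p.le
    have f5 : c * s0 n ^ 2 ≤ (|B| + |C| * K ^ 2) * (s0 n ^ ν) ^ 2 := by nlinarith
    rw [ea n] at f5
    refine le_of_mul_le_mul_right ?_ (pow_pos p0 2)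
    nlinarith
  norm_num at hle
  linarith

end Pool.Agent.MP_c2f0e4_an
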