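import Pool.Agent.MP_c2f0e4_an.J2c_1
import Pool.Agent.MP_c2f0e4_an.J2c_2

open Set Filter Topology Real Asymptotics

namespace Pool.Agent.MP_c2f0e4_an

lemma j2c_qup {s s0 ξ c C0 D : ℝ} (hs : 0 < s) (hs0 : 0 < s0) (hc : 0 < c) (hC0 : 0 < C0)
    (h : s ≤ C0 * s0) (hD : c * (ξ ^ 2 + s ^ 2) ≤ D) :
    s ^ 3 / D ≤ (C0 ^ 3 + C0) / c * (s0 ^ 3 / (ξ ^ 2 + s0 ^ 2)) := by
  have hQ : 0 < ξ ^ 2 + s ^ 2 := by positivity
  have hD0 : 0 < D := (mul_pos hc hQ).trans_le hD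
  have a1 : s ^ 3 ≤ (C0 * s0) ^ 3 := by gcongr
  have a2 : s ^ 3 * ξ ^ 2 ≤ (C0 * s0) ^ 3 * ξ ^ 2 := by gcongr
  have a3 : s * (s ^ 2 * s0 ^ 2) ≤ C0 * s0 * (s ^ 2 * s0 ^ 2) := by gcongr
  have a4 : s ^ 3 * (ξ ^ 2 + s0 ^ 2) ≤ (C0 ^ 3 + C0) * s0 ^ 3 * (ξ ^ 2 + s ^ 2) := by
    have b1 : 0 ≤ C0 ^ 3 * s0 ^ 3 * s ^ 2 := by positivity
    have b2 : 0 ≤ C0 * s0 ^ 3 * ξ ^ 2 := by positivity
    nlinarith
  rw [div_mul_div_comm, div_le_div_iff₀ hD0 (by positivity)]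
  calc s ^ 3 * (c * (ξ ^ 2 + s0 ^ 2)) = c * (s ^ 3 * (ξ ^ 2 + s0 ^ 2)) := by ring
    _ ≤ c * ((C0 ^ 3 + C0) * s0 ^ 3 * (ξ ^ 2 + s ^ 2)) := by gcongr
    _ = (C0 ^ 3 + C0) * s0 ^ 3 * (c * (ξ ^ 2 + s ^ 2)) := by ring
    _ ≤ _ := by gcongr

lemma j2c_qlow {s s0 ξ C C0 D : ℝ} (hs : 0 < s) (hC : 0 < C) (hC0 : 0 < C0)
    (h : s0 ≤ C0 * s) (hξ : |ξ| ≤ s0) (hD0 : 0 < D) (hD : D ≤ C * (ξ ^ 2 + s ^ 2)) :
    1 / (C0 * C * (C0 ^ 2 + 1)) * s0 ≤ s ^ 3 / D := by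
  have a1 : ξ ^ 2 ≤ (C0 * s) ^ 2 := by
    rw [← sq_abs ξ]
    exact pow_le_pow_left₀ (abs_nonneg ξ) (hξ.trans h) 2
  have a2 : D ≤ C * ((C0 * s) ^ 2 + s ^ 2) := hD.trans (by gcongr)
  rw [div_mul_eq_mul_div, one_mul, div_le_div_iff₀ (by positivity) hD0]
  calc s0 * D ≤ (C0 * s) * (C * ((C0 * s) ^ 2 + s ^ 2)) := by gcongr
    _ = _ := by ring

lemma j2c_data (hBB : BBStmt) {m0 : ℝ} {mt : ℝ → ℝ} (h2 : m0 < -1 / 2) (hmt : AnalyticAt ℝ mt 0) :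
    ∃ (th : ℝ → ℝ) (M ε : ℝ), 0 ≤ M ∧ 0 < ε ∧ ∀ ξ : ℝ, |ξ| < ε →
      |mt ξ| ≤ M ∧ |dslope mt 0 ξ| ≤ M ∧ |th ξ| ≤ M ∧ |deriv th ξ| ≤ M ∧
      HasDerivAt th (deriv th ξ) ξ ∧
      ξ * deriv th ξ + -2 * m0 * th ξ
        = 2 * ξ ^ 2 * mt ξ * th ξ - j2cE m0 (mt 0) ξ (dslope mt 0 ξ) (mt ξ) / 3 := by
  have hr := j2c_dslope hmt
  set y0 : ℝ := j2cE m0 (mt 0) 0 (dslope mt 0 0) (mt 0) / (6 * m0) with hy0
  have a1 : AnalyticAt ℝ (fun p : ℝ × ℝ => mt p.1) (0, y0) :=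
    AnalyticAt.comp (g := mt) (f := Prod.fst) (x := ((0 : ℝ), y0)) hmt analyticAt_fst
  have a2 : AnalyticAt ℝ (fun p : ℝ × ℝ => dslope mt 0 p.1) (0, y0) :=
    AnalyticAt.comp (g := dslope mt 0) (f := Prod.fst) (x := ((0 : ℝ), y0)) hr analyticAt_fst
  have a3 : AnalyticAt ℝ (fun p : ℝ × ℝ => p.1) (0, y0) := analyticAt_fst
  have a4 : AnalyticAt ℝ (fun p : ℝ × ℝ => p.2) (0, y0) := analyticAt_snd
  have a5 : AnalyticAt ℝ (fun p : ℝ × ℝ => 2 * p.1 ^ 2 * mt p.1 * p.2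
      - j2cE m0 (mt 0) p.1 (dslope mt 0 p.1) (mt p.1) / 3) (0, y0) := by
    unfold j2cE
    exact (((analyticAt_const.mul (a3.pow 2)).mul a1).mul a4).sub
      (((analyticAt_const.mul a2).add ((analyticAt_const.mul a3).mul a1)).div_const)
  have hm0 : m0 ≠ 0 := by linarith
  obtain ⟨th, hth, -, hode, -⟩ := hBB _ (-2 * m0) y0 (by linarith) a5
    (by simp only [hy0]; field_simp; ring)
    (by simpa using hasDerivAt_const y0 (-(j2cE m0 (mt 0) 0 (dslope mt 0 0) (mt 0) / 3)))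
  have b1 := j2c_bd hmt
  have b2 := j2c_bd hr
  have b3 := j2c_bd hth
  have b4 := j2c_bd hth.deriv
  have b5 := hth.eventually_analyticAt
  obtain ⟨ε, hε, hall⟩ := Metric.eventually_nhds_iff.1
    (b1.and (b2.and (b3.and (b4.and (b5.and hode)))))
  refine ⟨th, |mt 0| + |dslope mt 0 0| + |th 0| + |deriv th 0| + 1, ε, by positivity, hε, ?_⟩
  intro ξ hξ
  obtain ⟨c1, c2, c3, c4, c5, c6⟩ := hall (y := ξ) (by simpa using hξ)
  have := abs_nonneg (mt 0)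
  have := abs_nonneg (dslope mt 0 0)
  have := abs_nonneg (th 0)
  have := abs_nonneg (deriv th 0)
  exact ⟨by linarith, by linarith, by linarith, by linarith, c5.differentiableAt.hasDerivAt, c6⟩

lemma j2c_pi2_an {m0 x : ℝ} {v : ℝ → ℝ} (h1 : -1 < m0) (h2 : m0 < -1 / 2) (hx : x ≠ 0)
    (hv : AnalyticAt ℝ v 0) (h0 : v 0 = x) : AnalyticAt ℝ (fun s => Pi2 m0 (v s) x) 0 := by
  unfold Pi2 Dh
  refine AnalyticAt.div (by fun_prop) (by fun_prop) ?_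
  rw [h0]
  have ha : (1 + m0) ≠ 0 := by linarith
  have hν : (3 + 2 * m0) ≠ 0 := by linarith
  have hb : (1 + 2 * m0) ≠ 0 := by linarith
  have hc : (10 + 9 * m0) ≠ 0 := by linarith
  have e : x ^ 2 + (1 + m0) * x * (x + x) = (3 + 2 * m0) * x ^ 2 := by ring
  rw [e]
  positivity

lemma j2c_ends {m0 d μ t1 t2 : ℝ} {Φ : ℝ → ℝ} (h1 : -1 < m0) (h2 : m0 < -1 / 2) (hd : 0 < d)
    (hΦ : AnalyticAt ℝ Φ 0) (h0 : Φ 0 = 0) : ∃ c C : ℝ, ∀ᶠ s in 𝓝 (0 : ℝ),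
      |μ * Pi2 m0 (d - Φ s) d + (d ^ 3 - (d - Φ s) ^ 3) * t1
        - (μ * Pi2 m0 (-d - s) (-d) + ((-d) ^ 3 - (-d - s) ^ 3) * t2) - c * s| ≤ C * s ^ 2 := by
  have a1 := j2c_pi2_an (x := d) (v := fun s => d - Φ s) h1 h2 hd.ne' (by fun_prop) (by simp [h0])
  have a2 := j2c_pi2_an (x := -d) (v := fun s => -d - s) h1 h2 (by linarith) (by fun_prop)
    (by simp)
  refine j2c_taylor (F := fun s => μ * Pi2 m0 (d - Φ s) d + (d ^ 3 - (d - Φ s) ^ 3) * t1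
        - (μ * Pi2 m0 (-d - s) (-d) + ((-d) ^ 3 - (-d - s) ^ 3) * t2)) (by fun_prop) ?_
  simp [h0, Pi2]

lemma j2c_pi2_cont {m0 : ℝ} {v : ℝ → ℝ} {S : Set ℝ} (h1 : -1 < m0) (h2 : m0 < -1 / 2)
    (hv : ContinuousOn v S) (hD : ∀ x ∈ S, Dh m0 (v x) x ≠ 0) :
    ContinuousOn (fun x => Pi2 m0 (v x) x) S := by
  have ha : (1 + m0) ≠ 0 := by linarith
  have hν : (3 + 2 * m0) ≠ 0 := by linarith
  have hb : (1 + 2 * m0) ≠ 0 := by linarith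
  have hc : (10 + 9 * m0) ≠ 0 := by linarith
  unfold Pi2
  refine ContinuousOn.div (by fun_prop) (by unfold Dh; fun_prop) fun x hx => ?_
  have := hD x hx
  positivity

theorem j2cS (hLLder : LLderStmt) (hPi2 : Pi2Stmt) (hBB : BBStmt) : J2cStmt := by
  intro m mt m0 d0 u hM hTr h1 h2 hmt hm hCore
  by_contra hne
  obtain ⟨d1, hd1, hd10, hK⟩ := hCore
  obtain ⟨⟨c, C, hc, hDh⟩, -, -⟩ := hLLder m0 h1 (by linarith)
  have hC : 0 < C := by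
    have := hDh 0 1
    norm_num at this
    linarith [this.1, this.2]
  obtain ⟨th, M, ε, hM0, hε, hdat⟩ := j2c_data hBB h2 hmt
  obtain ⟨B, hB, hT⟩ := j2c_Tbd hM0 h1 h2 hc fun u ξ => (hDh u ξ).1
  obtain ⟨d, hd, hdd1, hd1', hdε⟩ : ∃ d : ℝ, 0 < d ∧ d ≤ d1 ∧ d ≤ 1 ∧ d < ε :=
    ⟨min d1 (min 1 (ε / 2)), by positivity, min_le_left _ _,
      (min_le_right _ _).trans (min_le_left _ _),
      ((min_le_right _ _).trans (min_le_right _ _)).trans_lt (by linarith)⟩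
  have hdd0 : d ≤ d0 := hdd1.trans hd10
  obtain ⟨K, hcore⟩ := hK d ⟨hd, hdd1⟩
  obtain ⟨C0, hC0, hsize⟩ := hcore.size
  obtain ⟨c1, C1, hbd⟩ := hcore.bdry
  obtain ⟨Φ, hΦ, hΦ0, -, hΦe⟩ := hTr d ⟨hd, hdd0⟩
  have hsub : Icc (-d) d ⊆ Icc (-d0) d0 := Icc_subset_Icc (by linarith) hdd0
  have habs : ∀ ξ ∈ Icc (-d) d, |ξ| ≤ d := fun ξ hξ => abs_le.2 hξ
  set μ := mt 0 with hμ
  set a := μ * (3 * m0 / ((1 + 2 * m0) * (10 + 9 * m0))) with ha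
  have ha0 : a ≠ 0 := by
    have hb : (1 + 2 * m0) ≠ 0 := by linarith
    have hc : (10 + 9 * m0) ≠ 0 := by linarith
    have hm0 : m0 ≠ 0 := by linarith
    positivity
  have hlt : ∀ n, ∀ ξ ∈ Icc (-d) d, 0 < ξ - u n ξ := fun n ξ hξ => sub_pos.2 (hM.lt n ξ (hsub hξ))
  have hDpos : ∀ n, ∀ ξ ∈ Icc (-d) d, 0 < Dh m0 (u n ξ) ξ := fun n ξ hξ => by
    have := hlt n ξ hξ
    exact lt_of_lt_of_le (by positivity) (hDh (u n ξ) ξ).1
  have h0mem : (0 : ℝ) ∈ Icc (-d) d := ⟨by linarith, hd.le⟩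
  have hmmem : -d ∈ Icc (-d) d := ⟨le_rfl, by linarith⟩
  have hs0 : ∀ n, 0 < -u n 0 := fun n => by simpa using hlt n 0 h0mem
  have ht0 : Tendsto (fun n => -u n 0) atTop (𝓝 0) := by
    simpa using (hM.unif.tendsto_at (hsub h0mem)).neg
  have htm : Tendsto (fun n => -d - u n (-d)) atTop (𝓝 0) := by
    simpa using (hM.unif.tendsto_at (hsub hmmem)).const_sub (-d)
  -- the corrected first integral
  set f : ℕ → ℝ → ℝ := fun n ξ =>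
    a * (K n ξ + μ * Pi2 m0 (u n ξ) ξ + (ξ ^ 3 - u n ξ ^ 3) * th ξ) with hf
  have hucont : ∀ n, ContinuousOn (u n) (Icc (-d) d) := fun n ξ hξ =>
    (continuousAt_of_cube (hM.ode n ξ (hsub hξ)).continuousAt).continuousWithinAt
  have hthcont : ContinuousOn th (Icc (-d) d) := fun ξ hξ =>
    (hdat ξ ((habs ξ hξ).trans_lt hdε)).2.2.2.2.1.continuousAt.continuousWithinAt
  have hfcont : ∀ n, ContinuousOn (f n) (Icc (-d) d) := fun n => by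
    have p1 := hcore.cont n
    have p2 := j2c_pi2_cont h1 h2 (hucont n) fun x hx => (hDpos n x hx).ne'
    have p3 := hucont n
    simp only [hf]
    fun_prop
  have hfder : ∀ n, C0 * -u n 0 ≤ 1 → ∀ ξ ∈ Ioo (-d) d, u n ξ ≠ 0 → ∃ e : ℝ,
      HasDerivAt (f n) (a ^ 2 * ((ξ - u n ξ) ^ 3 / Dh m0 (u n ξ) ξ) + e) ξ ∧
        |e| ≤ |a| * B * (ξ - u n ξ) ^ 2 := by
    intro n hn ξ hξ hu
    have hξ' : ξ ∈ Icc (-d) d := Ioo_subset_Icc_self hξ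
    obtain ⟨q1, q2, q3, q4, q5, q6⟩ := hdat ξ ((habs ξ hξ').trans_lt hdε)
    have hD := (hDpos n ξ hξ').ne'
    have o1 := hM.ode n ξ (hsub hξ')
    have o2 := hasDerivAt_of_cube o1 hu
    have o3 := hPi2 m0 (u n) _ ξ (m ξ) h1 (by linarith) hD o2 hu (by field_simp)
    have o4 := hcore.der n ξ hξ hu
    have o5 : HasDerivAt (fun y : ℝ => y ^ 3) (3 * ξ ^ 2) ξ := by simpa using hasDerivAt_pow 3 ξ
    have o6 := (((o4.add (o3.const_mul μ)).add ((o5.sub o1).mul q5))).const_mul a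
    refine ⟨a * ((ξ - u n ξ) ^ 2 * j2cT m0 μ ξ (u n ξ) (dslope mt 0 ξ) (mt ξ) (th ξ) (deriv th ξ)),
      ?_, ?_⟩
    · refine HasDerivAt.congr_deriv o6 ?_
      have alg := j2c_alg h1 h2 hD (j2c_dslope_eq mt ξ) q6
      rw [hm ξ]
      simp only [Pi.sub_apply]
      rw [alg, ← hμ, ← ha]
      ring
    · have hTb := hT μ ξ (u n ξ) _ _ _ _ ((habs ξ hξ').trans hd1') (hM.lt n ξ (hsub hξ'))
        ((hsize n ξ hξ').1.trans hn) (hdat 0 (by simpa using hε)).1 q2 q1 q3 q4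
      rw [abs_mul a, abs_mul ((ξ - u n ξ) ^ 2), abs_of_nonneg (sq_nonneg (ξ - u n ξ)),
        mul_assoc |a|, mul_comm B]
      gcongr
  have hsmall : ∀ x : ℝ, 0 < x → ∀ᶠ n in atTop, -u n 0 ≤ x := fun x hx =>
    ht0.eventually (ge_mem_nhds hx)
  have hone : ∀ᶠ n in atTop, C0 * -u n 0 ≤ 1 := by
    filter_upwards [hsmall (1 / C0) (by positivity)] with n hn
    rwa [le_div_iff₀' hC0] at hn
  obtain ⟨c2, C2, hends⟩ := j2c_ends (μ := μ) (t1 := th d) (t2 := th (-d)) h1 h2 hd hΦ hΦ0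
  -- constants
  set k := a ^ 2 * (1 / (C0 * C * (C0 ^ 2 + 1))) with hk
  have hkpos : 0 < k := by positivity
  set B1 := |a| * B * C0 ^ 2 with hB1
  have hB1pos : 0 < B1 := by positivity
  obtain ⟨η, hη, hηd, hηk⟩ : ∃ η : ℝ, 0 < η ∧ η ≤ d ∧ 2 * η * B1 ≤ k :=
    ⟨min d (k / (2 * B1)), by positivity, min_le_left _ _, by
      have := min_le_right d (k / (2 * B1))
      rw [le_div_iff₀ (by positivity)] at this
      linarith⟩
  have hp : 0 < 2 + 2 * m0 := by linarith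
  have hηp : 0 < η ^ (2 + 2 * m0) := Real.rpow_pos_of_pos hη _
  have hdp : 0 < d ^ (2 + 2 * m0) := Real.rpow_pos_of_pos hd _
  refine j2c_fin (s0 := fun n => -u n 0) (sm := fun n => -d - u n (-d))
    (Δ := fun n => f n d - f n (-d)) (ν := 3 + 2 * m0) (c1 := a * (c1 + c2))
    (C := |a| * (C1 + C2)) (A := (a ^ 2 * ((C0 ^ 3 + C0) / c) + B1) * (π + 2 * d)) (c := k)
    (B := 2 * d * (|a| * B * (C0 / η ^ (2 + 2 * m0)) ^ 2))
    (K := C0 * d ^ (2 + 2 * m0) + C0 / d ^ (2 + 2 * m0)) (by linarith) (by linarith) hs0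
    (fun n => hlt n _ hmmem) ht0 hkpos ?_ ?_ ?_ ?_
  · filter_upwards [hbd, hΦe, htm.eventually hends] with n e1 e2 e3
    have e4 : d - Φ (-d - u n (-d)) = u n d := by linarith
    have e5 : -d - (-d - u n (-d)) = u n (-d) := by ring
    rw [e4, e5] at e3
    have e6 : f n d - f n (-d) - a * (c1 + c2) * (-d - u n (-d))
        = a * ((K n d - K n (-d) - c1 * (-d - u n (-d)))
          + (μ * Pi2 m0 (u n d) d + (d ^ 3 - u n d ^ 3) * th d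
            - (μ * Pi2 m0 (u n (-d)) (-d) + ((-d) ^ 3 - u n (-d) ^ 3) * th (-d))
            - c2 * (-d - u n (-d)))) := by
      simp only [hf]; ring
    rw [e6, abs_mul, mul_assoc, add_mul]
    gcongr
    exact (abs_add_le _ _).trans (add_le_add e1 e3)
  · filter_upwards [hone] with n hn
    refine j2c_up (hcore.fin n) hd (hs0 n) (by positivity) (hfcont n) ?_
    intro ξ hξ hξS
    have hξ' : ξ ∈ Icc (-d) d := Ioo_subset_Icc_self hξ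
    obtain ⟨e, e1, e2⟩ := hfder n hn ξ hξ fun h => hξS ⟨hξ', h⟩
    refine ⟨_, e1, ?_⟩
    have s1 := (hsize n ξ hξ').1
    have p := hlt n ξ hξ'
    have p0 := hs0 n
    have q1 := j2c_qup p p0 hc hC0 s1 (hDh (u n ξ) ξ).1
    have q2 : |a| * B * (ξ - u n ξ) ^ 2 ≤ |a| * B * (C0 * -u n 0) ^ 2 := by gcongr
    have q3 := mul_le_mul_of_nonneg_left q1 (sq_nonneg a)
    have q4 : 0 ≤ B1 * ((-u n 0) ^ 3 / (ξ ^ 2 + (-u n 0) ^ 2)) := by positivity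
    have q5 : 0 ≤ a ^ 2 * ((C0 ^ 3 + C0) / c) * (-u n 0) ^ 2 := by positivity
    have q6 := (abs_le.1 e2).2
    have q7 : |a| * B * (C0 * -u n 0) ^ 2 = B1 * (-u n 0) ^ 2 := by rw [hB1]; ring
    nlinarith
  · filter_upwards [hone, hsmall η hη] with n hn hn'
    have p0 := hs0 n
    have hw : 0 < (-u n 0) ^ (3 + 2 * m0) := Real.rpow_pos_of_pos p0 _
    have key := j2c_low (f := f n) (c := k * -u n 0) (B := B1 * (-u n 0) ^ 2)
      (B' := |a| * B * (C0 / η ^ (2 + 2 * m0)) ^ 2 * ((-u n 0) ^ (3 + 2 * m0)) ^ 2)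
      (hcore.fin n) p0 hn' hηd (by positivity) (hfcont n) (by
        intro ξ hξ hξS
        have hξ' : ξ ∈ Icc (-d) d := Ioo_subset_Icc_self hξ
        obtain ⟨e, e1, e2⟩ := hfder n hn ξ hξ fun h => hξS ⟨hξ', h⟩
        obtain ⟨s1, s2, s3, -⟩ := hsize n ξ hξ'
        have p := hlt n ξ hξ'
        have pD := hDpos n ξ hξ'
        have q1 : 0 ≤ a ^ 2 * ((ξ - u n ξ) ^ 3 / Dh m0 (u n ξ) ξ) := by positivity
        have q2 : |a| * B * (ξ - u n ξ) ^ 2 ≤ |a| * B * (C0 * -u n 0) ^ 2 := by gcongr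
        have q6 := (abs_le.1 e2).1
        have q7 : |a| * B * (C0 * -u n 0) ^ 2 = B1 * (-u n 0) ^ 2 := by rw [hB1]; ring
        refine ⟨_, e1, by linarith, fun hx => ?_, fun hx => ?_⟩
        · have q3 := j2c_qlow p hC hC0 (s2 hx) hx pD (hDh (u n ξ) ξ).2
          have q4 := mul_le_mul_of_nonneg_left q3 (sq_nonneg a)
          have q5 : a ^ 2 * (1 / (C0 * C * (C0 ^ 2 + 1)) * -u n 0) = k * -u n 0 := by
            rw [hk]; ring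
          linarith
        · have q3 : η ^ (2 + 2 * m0) ≤ |ξ| ^ (2 + 2 * m0) := Real.rpow_le_rpow hη.le hx hp.le
          have q4 : ξ - u n ξ ≤ C0 / η ^ (2 + 2 * m0) * (-u n 0) ^ (3 + 2 * m0) := by
            rw [div_mul_eq_mul_div, le_div_iff₀ hηp]
            exact (mul_le_mul_of_nonneg_left q3 p.le).trans s3
          have q5 : |a| * B * (ξ - u n ξ) ^ 2
              ≤ |a| * B * (C0 / η ^ (2 + 2 * m0) * (-u n 0) ^ (3 + 2 * m0)) ^ 2 := by gcongr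
          rw [mul_pow] at q5
          linarith)
    have q8 := mul_le_mul_of_nonneg_right hηk (sq_nonneg (-u n 0))
    nlinarith
  · filter_upwards [hsmall d hd] with n hn
    obtain ⟨-, -, s3, s4⟩ := hsize n (-d) hmmem
    rw [abs_neg, abs_of_pos hd] at s3 s4
    have p := hlt n (-d) hmmem
    have hw : 0 < (-u n 0) ^ (3 + 2 * m0) := Real.rpow_pos_of_pos (hs0 n) _
    have q1 := s4 hn
    have q2 : -d - u n (-d) ≤ C0 / d ^ (2 + 2 * m0) * (-u n 0) ^ (3 + 2 * m0) := by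
      rw [div_mul_eq_mul_div, le_div_iff₀ hdp]
      exact s3
    have q3 : 0 ≤ C0 / d ^ (2 + 2 * m0) * (-d - u n (-d)) := by positivity
    have q4 : 0 ≤ C0 * d ^ (2 + 2 * m0) * (-u n 0) ^ (3 + 2 * m0) := by positivity
    constructor <;> nlinarith

end Pool.Agent.MP_c2f0e4_an
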