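import Pool.Agent.MP_c2f0e4_an.Iface

open Set Filter Topology Real Asymptotics

namespace Pool.Agent.MP_c2f0e4_an

/-- The Taylor series at the origin. -/
noncomputable def jetT (f : ℝ → ℝ) : PowerSeries ℝ :=
  PowerSeries.mk fun n => iteratedDeriv n f 0 / n.factorial

/-- `f` is analytic at the origin with Taylor series `φ`. -/
def Jet (f : ℝ → ℝ) (φ : PowerSeries ℝ) : Prop := AnalyticAt ℝ f 0 ∧ jetT f = φ

lemma jet_coeff (f : ℝ → ℝ) (n : ℕ) :
    PowerSeries.coeff n (jetT f) = iteratedDeriv n f 0 / n.factorial := PowerSeries.coeff_mk _ _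

lemma jet_cm (φ ψ : PowerSeries ℝ) (n : ℕ) : PowerSeries.coeff n (φ * ψ) =
    ∑ i ∈ Finset.range (n + 1), PowerSeries.coeff i φ * PowerSeries.coeff (n - i) ψ := by
  rw [PowerSeries.coeff_mul, Finset.Nat.sum_antidiagonal_eq_sum_range_succ_mk]

lemma jet_self {f : ℝ → ℝ} (hf : AnalyticAt ℝ f 0) : Jet f (jetT f) := ⟨hf, rfl⟩

lemma Jet.unique {f g : ℝ → ℝ} {φ ψ : PowerSeries ℝ} (hf : Jet f φ) (hg : Jet g ψ)
    (h : ∀ᶠ τ in 𝓝 (0 : ℝ), f τ = g τ) : φ = ψ := by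
  rw [← hf.2, ← hg.2]
  ext n
  rw [jet_coeff, jet_coeff, Filter.EventuallyEq.iteratedDeriv_eq n h]

lemma Jet.add {f g : ℝ → ℝ} {φ ψ : PowerSeries ℝ} (hf : Jet f φ) (hg : Jet g ψ) :
    Jet (fun τ => f τ + g τ) (φ + ψ) := by
  refine ⟨hf.1.add hg.1, ?_⟩
  rw [← hf.2, ← hg.2]
  ext n
  rw [map_add, jet_coeff, jet_coeff, jet_coeff,
    iteratedDeriv_fun_add hf.1.contDiffAt hg.1.contDiffAt, add_div]

lemma Jet.mul {f g : ℝ → ℝ} {φ ψ : PowerSeries ℝ} (hf : Jet f φ) (hg : Jet g ψ) :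
    Jet (fun τ => f τ * g τ) (φ * ψ) := by
  refine ⟨hf.1.mul hg.1, ?_⟩
  rw [← hf.2, ← hg.2]
  ext n
  rw [jet_cm, jet_coeff, iteratedDeriv_fun_mul hf.1.contDiffAt hg.1.contDiffAt, Finset.sum_div]
  refine Finset.sum_congr rfl fun i hi => ?_
  have h := Nat.choose_mul_factorial_mul_factorial (Nat.lt_succ_iff.1 (Finset.mem_range.1 hi))
  have h' : (n.factorial : ℝ) = n.choose i * i.factorial * (n - i).factorial := by
    exact_mod_cast h.symm
  have h1 : (n.choose i : ℝ) ≠ 0 := by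
    exact_mod_cast (Nat.choose_pos (Nat.lt_succ_iff.1 (Finset.mem_range.1 hi))).ne'
  rw [jet_coeff, jet_coeff, h']
  field_simp

lemma jet_const (c : ℝ) : Jet (fun _ => c) (PowerSeries.C c) := by
  refine ⟨analyticAt_const, ?_⟩
  ext n
  rw [jet_coeff, iteratedDeriv_const, PowerSeries.coeff_C]
  split_ifs with h
  · simp [h]
  · simp

lemma jet_id : Jet (fun τ => τ) PowerSeries.X := by
  refine ⟨analyticAt_id, ?_⟩
  ext n
  rw [jet_coeff, iteratedDeriv_fun_id_zero, PowerSeries.coeff_X]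
  split_ifs with h
  · simp [h]
  · simp

lemma Jet.pow {f : ℝ → ℝ} {φ : PowerSeries ℝ} (hf : Jet f φ) (k : ℕ) :
    Jet (fun τ => f τ ^ k) (φ ^ k) := by
  induction k with
  | zero => simpa using jet_const 1
  | succ k ih => simpa only [pow_succ] using ih.mul hf

lemma Jet.der {f : ℝ → ℝ} {φ : PowerSeries ℝ} (hf : Jet f φ) :
    Jet (deriv f) (PowerSeries.derivative ℝ φ) := by
  refine ⟨hf.1.deriv, ?_⟩
  rw [← hf.2]
  ext n
  rw [PowerSeries.coeff_derivative, jet_coeff, jet_coeff, iteratedDeriv_succ', Nat.factorial_succ]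
  have : (n.factorial : ℝ) ≠ 0 := by exact_mod_cast n.factorial_ne_zero
  push_cast
  field_simp

/-- Substitution of a function that vanishes at the origin. -/
lemma Jet.comp3 {A x : ℝ → ℝ} {ξ : PowerSeries ℝ} (hA : AnalyticAt ℝ A 0) (hx : Jet x ξ)
    (h0 : x 0 = 0) : ∃ W, Jet (fun τ => A (x τ)) (PowerSeries.C (A 0) +
      PowerSeries.C (deriv A 0) * ξ + PowerSeries.C (deriv (deriv A) 0 / 2) * ξ ^ 2 +
      ξ ^ 3 * W) := by
  obtain ⟨R, hR, h⟩ := hA.exists_eq_sum_add_pow_mul 3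
  have hR' : AnalyticAt ℝ (fun τ => R (x τ)) 0 := AnalyticAt.comp (h0.symm ▸ hR) hx.1
  refine ⟨jetT fun τ => R (x τ), ?_⟩
  have := (((jet_const (A 0)).add ((jet_const (deriv A 0)).mul hx)).add
    ((jet_const (deriv (deriv A) 0 / 2)).mul (hx.pow 2))).add ((hx.pow 3).mul (jet_self hR'))
  convert this using 2 with τ
  rw [h (x τ)]
  simp [Finset.sum_range_succ, iteratedDeriv_succ, Nat.factorial]
  ring

lemma jet_real {ε a2 b0 b1 b2 x1 x2 x3 x4 x5 x6 d1 d2 d3 d4 d5 d6 d7 q0 q1 q2 q3 q4 q5 q6 : ℝ}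
    (hε : ε = 1 ∨ ε = -1)
    (e0 : b0 * 3 = -(3 / 2) * ε * d1)
    (e1 : b0 * (4 * x1) = -(3 / 2) * ε * (d2 * 2))
    (e2 : b0 * (5 * x2) = -(3 / 2) * ε * (d3 * 3))
    (e3 : b0 * (6 * x3) + b1 * 3 = -(3 / 2) * ε * (d4 * 4))
    (e4 : b0 * (7 * x4) + b1 * (7 * x1) = -(3 / 2) * ε * (d5 * 5))
    (e5 : b0 * (8 * x5) + b1 * (8 * x2 + 4 * x1 ^ 2) = -(3 / 2) * ε * (d6 * 6))
    (e6 : b0 * (9 * x6) + b1 * (9 * x3 + 9 * x1 * x2) + b2 * 3 = -(3 / 2) * ε * (d7 * 7))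
    (f1 : -2 * ε / 3 * (7 * x1) = -ε * (11 / 2 * d1))
    (f2 : -2 * ε / 3 * (8 * x2 + 4 * x1 ^ 2) = -ε * (5 * d2 + 5 * d1 ^ 2))
    (f3 : -2 * ε / 3 * (9 * x3 + 9 * x1 * x2) + a2 * 3 =
      -ε * (9 / 2 * d3 + 9 * d1 * d2 + 3 / 2 * d1 ^ 3))
    (f4 : -2 * ε / 3 * (10 * x4 + 10 * x1 * x3 + 5 * x2 ^ 2) + a2 * (10 * x1) =
      -ε * (4 * d4 + 8 * d1 * d3 + 4 * d2 ^ 2 + 4 * d1 ^ 2 * d2))
    (f5 : -2 * ε / 3 * (11 * x5 + 11 * x1 * x4 + 11 * x2 * x3) + a2 * (11 * x2 + 11 * x1 ^ 2) =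
      -ε * (7 / 2 * d5 + 7 * d1 * d4 + 7 * d2 * d3 + 7 / 2 * d1 ^ 2 * d3 + 7 / 2 * d1 * d2 ^ 2))
    (g0 : q0 = -(3 / 4) * d1)
    (g1 : q0 * d1 + q1 = -(3 / 4) * (d2 * 2))
    (g2 : q0 * d2 + q1 * d1 + q2 = -(3 / 4) * (d3 * 3))
    (g3 : q0 * d3 + q1 * d2 + q2 * d1 + q3 = -(3 / 4) * (d4 * 4))
    (g4 : q0 * d4 + q1 * d3 + q2 * d2 + q3 * d1 + q4 = -(3 / 4) * (d5 * 5))
    (g5 : q0 * d5 + q1 * d4 + q2 * d3 + q3 * d2 + q4 * d1 + q5 = -(3 / 4) * (d6 * 6))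
    (g6 : q0 * d6 + q1 * d5 + q2 * d4 + q3 * d3 + q4 * d2 + q5 * d1 + q6 = -(3 / 4) * (d7 * 7)) :
    q0 = 3 / 2 * ε * b0 ∧ q5 = 23328 / 1925 * b0 ^ 2 * (a2 * b0 + ε * b1 + 36 / 343 * b0 ^ 4) ∧
      (b0 = 0 → q1 = 0 ∧ q2 = 0 ∧ q6 = 9 / 4 * a2 * b1 + 3 / 2 * ε * b2) := by
  obtain rfl : d1 = -2 * ε * b0 := by rcases hε with rfl | rfl <;> linarith only [e0]
  obtain rfl : x1 = -(33 / 14) * ε * b0 := by rcases hε with rfl | rfl <;> linarith only [f1]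
  obtain rfl : d2 = 22 / 7 * b0 ^ 2 := by rcases hε with rfl | rfl <;> linarith only [e1]
  obtain rfl : x2 = 192 / 49 * b0 ^ 2 := by rcases hε with rfl | rfl <;> linarith only [f2]
  obtain rfl : d3 = -(640 / 147) * ε * b0 ^ 3 := by rcases hε with rfl | rfl <;> linarith only [e2]
  obtain rfl : x3 = ε * a2 / 2 - 1872 / 343 * ε * b0 ^ 3 := by
    rcases hε with rfl | rfl <;> linarith only [f3]
  obtain rfl : d4 = -a2 * b0 / 2 + 1872 / 343 * b0 ^ 4 - ε * b1 / 2 := by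
    rcases hε with rfl | rfl <;> linarith only [e3]
  obtain rfl : x4 = -(93 / 35) * a2 * b0 + 79852 / 12005 * b0 ^ 4 - 3 / 10 * ε * b1 := by
    rcases hε with rfl | rfl <;> linarith only [f4]
  obtain rfl : d5 = 62 / 25 * (ε * a2 * b0 ^ 2 + b0 * b1) - 159704 / 25725 * ε * b0 ^ 5 := by
    rcases hε with rfl | rfl <;> linarith only [e4]
  obtain rfl : x5 = 125163 / 15400 * ε * a2 * b0 ^ 2 + 11019 / 7700 * b0 * b1 -
      4700954 / 660275 * ε * b0 ^ 5 := by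
    rcases hε with rfl | rfl <;> linarith only [f5]
  obtain rfl : d6 = -(13907 / 1925) * (a2 * b0 ^ 3 + ε * b0 ^ 2 * b1) +
      37607632 / 5942475 * b0 ^ 6 := by
    rcases hε with rfl | rfl <;> linarith only [e5]
  obtain rfl : q0 = 3 / 2 * ε * b0 := by linarith only [g0]
  obtain rfl : q1 = -(12 / 7) * b0 ^ 2 := by rcases hε with rfl | rfl <;> linarith only [g1]
  obtain rfl : q2 = 81 / 49 * ε * b0 ^ 3 := by rcases hε with rfl | rfl <;> linarith only [g2]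
  obtain rfl : q3 = 3 / 2 * (a2 * b0 + ε * b1) - 394 / 343 * b0 ^ 4 := by
    rcases hε with rfl | rfl <;> linarith only [g3]
  obtain rfl : q4 = -(111 / 20) * (ε * a2 * b0 ^ 2 + b0 * b1) + 236 / 1715 * ε * b0 ^ 5 := by
    rcases hε with rfl | rfl <;> linarith only [g4]
  refine ⟨rfl, by rcases hε with rfl | rfl <;> linarith only [g5], ?_⟩
  rintro rfl
  refine ⟨by ring, by ring, ?_⟩
  rcases hε with rfl | rfl <;> linarith only [e6, g6]

open PowerSeries in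
lemma jet_alg {ε a2 b0 b1 b2 : ℝ} (hε : ε = 1 ∨ ε = -1) {x d q WA WB : PowerSeries ℝ}
    (hx : coeff 0 x = 1) (hd : coeff 0 d = 1)
    (h1 : (C b0 + C b1 * (X ^ 3 * x) + C b2 * (X ^ 3 * x) ^ 2 + (X ^ 3 * x) ^ 3 * WB) *
      (C 3 * x + X * derivative ℝ x) = C (-(3 / 2) * ε) * derivative ℝ d)
    (h2 : (C 0 + C (-2 * ε / 3) * (X ^ 3 * x) + C a2 * (X ^ 3 * x) ^ 2 + (X ^ 3 * x) ^ 3 * WA) *
      (C 3 * x + X * derivative ℝ x) =
      C (-ε) * X ^ 3 * d ^ 2 * (C 2 * d + C (-1 / 2) * (X * derivative ℝ d)))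
    (h3 : q * d = C (-(3 / 4)) * derivative ℝ d) :
    coeff 0 q = 3 / 2 * ε * b0 ∧
      coeff 5 q = 23328 / 1925 * b0 ^ 2 * (a2 * b0 + ε * b1 + 36 / 343 * b0 ^ 4) ∧
      (b0 = 0 → coeff 1 q = 0 ∧ coeff 2 q = 0 ∧
        coeff 6 q = 9 / 4 * a2 * b1 + 3 / 2 * ε * b2) := by
  have hXd : ∀ (φ : PowerSeries ℝ) (k : ℕ), coeff k (X * derivative ℝ φ) = k * coeff k φ := by
    intro φ k
    cases k with
    | zero => simp
    | succ k =>
      rw [coeff_succ_X_mul, coeff_derivative]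
      push_cast
      ring
  obtain ⟨Y, hY⟩ : ∃ Y, Y = C 3 * x + X * derivative ℝ x := ⟨_, rfl⟩
  obtain ⟨Z, hZ⟩ : ∃ Z, Z = C 2 * d + C (-1 / 2) * (X * derivative ℝ d) := ⟨_, rfl⟩
  have cY : ∀ k, coeff k Y = (3 + k) * coeff k x := fun k => by
    rw [hY, map_add, coeff_C_mul, hXd]
    ring
  have cZ : ∀ k, coeff k Z = (2 - k / 2) * coeff k d := fun k => by
    rw [hZ, map_add, coeff_C_mul, coeff_C_mul, hXd]
    ring
  rw [← hY] at h1 h2
  rw [← hZ] at h2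
  have k1 : C b0 * Y + C b1 * (X ^ 3 * (x * Y)) + C b2 * (X ^ 6 * (x * (x * Y))) +
      X ^ 9 * (x ^ 3 * WB * Y) = C (-(3 / 2) * ε) * derivative ℝ d := by
    rw [← h1]
    ring
  have k2 : C (-2 * ε / 3) * (x * Y) + C a2 * (X ^ 3 * (x * (x * Y))) +
      X ^ 6 * (x ^ 3 * WA * Y) = C (-ε) * (d * (d * Z)) := by
    refine mul_left_cancel₀ (pow_ne_zero 3 (X_ne_zero (R := ℝ))) ?_
    rw [map_zero] at h2
    linear_combination h2
  have E := fun k => congrArg (coeff k) k1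
  have F := fun k => congrArg (coeff k) k2
  have G := fun k => congrArg (coeff k) h3
  simp only [map_add, coeff_C_mul, coeff_X_pow_mul', coeff_derivative] at E F G
  have e0 := E 0
  have e1 := E 1
  have e2 := E 2
  have e3 := E 3
  have e4 := E 4
  have e5 := E 5
  have e6 := E 6
  have f1 := F 1
  have f2 := F 2
  have f3 := F 3
  have f4 := F 4
  have f5 := F 5
  have g0 := G 0
  have g1 := G 1
  have g2 := G 2
  have g3 := G 3
  have g4 := G 4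
  have g5 := G 5
  have g6 := G 6
  simp only [jet_cm, Finset.sum_range_succ, Finset.sum_range_zero, cY, cZ, hx, hd, Nat.reduceSub,
    Nat.reduceAdd, Nat.reduceLeDiff, if_true, if_false, le_refl, tsub_self, tsub_zero, zero_add,
    Nat.cast_ofNat, Nat.cast_zero, Nat.cast_one] at e0 e1 e2 e3 e4 e5 e6 f1 f2 f3 f4 f5 g0 g1 g2 g3 g4 g5 g6
  refine jet_real (x1 := coeff 1 x) (x2 := coeff 2 x) (x3 := coeff 3 x) (x4 := coeff 4 x)
    (x5 := coeff 5 x) (x6 := coeff 6 x) (d1 := coeff 1 d) (d2 := coeff 2 d) (d3 := coeff 3 d)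
    (d4 := coeff 4 d) (d5 := coeff 5 d) (d6 := coeff 6 d) (d7 := coeff 7 d) (q3 := coeff 3 q)
    (q4 := coeff 4 q) hε ?_ ?_ ?_ ?_ ?_ ?_ ?_ ?_ ?_ ?_ ?_ ?_ ?_ ?_ ?_ ?_ ?_ ?_ ?_
  · linear_combination e0
  · linear_combination e1
  · linear_combination e2
  · linear_combination e3
  · linear_combination e4
  · linear_combination e5
  · linear_combination e6
  · linear_combination f1
  · linear_combination f2
  · linear_combination f3
  · linear_combination f4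
  · linear_combination f5
  · linear_combination g0
  · linear_combination g1
  · linear_combination g2
  · linear_combination g3
  · linear_combination g4
  · linear_combination g5
  · linear_combination g6

theorem jetS : JetStmt := by
  intro ε A B X D hε hA hB hX hD hA0 hA1 hX0 hD0 heq
  have jX := jet_self hX
  have jD := jet_self hD
  have jx := (jet_id.pow 3).mul jX
  obtain ⟨WA, jA⟩ := Jet.comp3 hA jx (by simp)
  obtain ⟨WB, jB⟩ := Jet.comp3 hB jx (by simp)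
  have jY := ((jet_const 3).mul jX).add (jet_id.mul jX.der)
  have hD1 : D 0 ≠ 0 := by rw [hD0]; exact one_ne_zero
  have hQ : AnalyticAt ℝ (fun τ => -(3 / 4) * deriv D τ / D τ) 0 :=
    (analyticAt_const.mul hD.deriv).div hD hD1
  have h1 := (jB.mul jY).unique ((jet_const (-(3 / 2) * ε)).mul jD.der) (heq.mono fun τ h => h.1)
  have h2 := (jA.mul jY).unique ((((jet_const (-ε)).mul (jet_id.pow 3)).mul (jD.pow 2)).mul
    (((jet_const 2).mul jD).add ((jet_const (-1 / 2)).mul (jet_id.mul jD.der))))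
    (heq.mono fun τ h => by rw [h.2]; ring)
  have h3 := ((jet_self hQ).mul jD).unique ((jet_const (-(3 / 4))).mul jD.der)
    ((hD.continuousAt.eventually_ne hD1).mono fun τ h => by field_simp)
  rw [hA0, hA1] at h2
  obtain ⟨k0, k5, k6⟩ := jet_alg hε (by simp [jet_coeff, hX0]) (by simp [jet_coeff, hD0]) h1 h2 h3
  obtain ⟨F, hF, hQF⟩ := hQ.exists_eq_sum_add_pow_mul 7
  refine ⟨fun n => PowerSeries.coeff n (jetT fun τ => -(3 / 4) * deriv D τ / D τ),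
    fun τ => PowerSeries.coeff 6 (jetT fun τ => -(3 / 4) * deriv D τ / D τ) + τ * F τ,
    analyticAt_const.add (analyticAt_id.mul hF), by simp, Eventually.of_forall fun τ => ?_,
    k0, k5, fun h => ⟨(k6 h).1, (k6 h).2.1, ?_⟩⟩
  · refine (hQF τ).trans ?_
    rw [Finset.sum_range_succ]
    simp only [jet_coeff, smul_eq_mul]
    rw [add_assoc]
    congr 1
    · exact Finset.sum_congr rfl fun i _ => by ring
    · ring
  · exact (k6 h).2.2.trans (by ring)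

end Pool.Agent.MP_c2f0e4_an
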