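import Pool.Agent.MP_c2f0e4_an.Iface

open Set Filter Topology Real Asymptotics

namespace Pool.Agent.MP_c2f0e4_an

lemma kappa_bar {f : ℝ → ℝ} {b : ℝ} (hb : 0 ≤ b) (hf : Continuous f) (h0 : f 0 ≤ 0)
    (hd : ∀ x ∈ Ioo 0 b, 0 < f x → ∃ f', HasDerivAt f f' x ∧ f' ≤ 0) : f b ≤ 0 := by
  obtain ⟨c, ⟨hc, hc'⟩, hm⟩ := (isCompact_Icc.inter_right (isClosed_le hf continuous_const)
    ).exists_isGreatest ⟨0, left_mem_Icc.2 hb, h0⟩
  have := sub_le_of_deriv_le (c := 0) finite_empty hc.2 hf.continuousOn fun x hx _ =>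
    hd x ⟨hc.1.trans_lt hx.1, hx.2⟩ (not_le.1 fun h =>
      hx.1.not_ge (hm ⟨⟨hc.1.trans hx.1.le, hx.2.le⟩, h⟩))
  have hc' : f c ≤ 0 := hc'
  linarith

lemma kappa_lim {A B G V : ℝ → ℝ} (hG : ContinuousAt G 0) (hB : ContinuousAt B 0) (h0 : 0 < G 0)
    (hA : ∀ᶠ x in 𝓝 (0 : ℝ), A x = x ^ 2 * G x) (hV : Sol A B V) (V0 : V 0 = 0)
    (hs : ∀ᶠ x in 𝓝[>] (0 : ℝ), V x < 0) {k : ℝ} (hk : k < 0) (e : k + B 0 + G 0 / k ^ 2 = 0) :
    Tendsto (fun x => V x / x) (𝓝[>] 0) (𝓝 k) := by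
  have c0 : ∀ c : ℝ, ContinuousAt (fun x => c + B x + G x / c ^ 2) 0 := fun c =>
    (continuousAt_const.add hB).add (hG.div_const _)
  have ev := hs.and (((hG.eventually (lt_mem_nhds h0)).and hA).filter_mono nhdsWithin_le_nhds)
  have d : ∀ c x, V x < 0 → HasDerivAt (fun x => V x - c * x) (-B x - A x / V x ^ 2 - c) x :=
    fun c x h => (hV.hasDerivAt h.ne).sub (by simpa using (hasDerivAt_id x).const_mul c)
  refine tendsto_order.2 ⟨fun a ha => ?_, fun a ha => ?_⟩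
  · obtain ⟨c, c1, c2⟩ := exists_between ha
    have h1 : c + B 0 + G 0 / c ^ 2 < 0 := by
      have : G 0 / c ^ 2 ≤ G 0 / k ^ 2 :=
        div_le_div_of_nonneg_left h0.le (by nlinarith) (by nlinarith)
      linarith
    obtain ⟨r, r0, hr⟩ := (nhdsGT_basis 0).eventually_iff.1 (ev.and
      (((c0 c).eventually (gt_mem_nhds h1)).filter_mono nhdsWithin_le_nhds))
    filter_upwards [Ioo_mem_nhdsGT r0] with x hx
    have := kappa_bar (f := fun x => -(V x - c * x)) hx.1.le (by have := hV.1; fun_prop)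
      (by simp [V0]) fun y hy h => by
      obtain ⟨⟨a1, a2, a3⟩, a4⟩ := hr ⟨hy.1, hy.2.trans hx.2⟩
      refine ⟨_, (d c y a1).neg, ?_⟩
      have c3 : 0 < c ^ 2 := by nlinarith
      have : A y / V y ^ 2 ≤ G y / c ^ 2 := by
        rw [a3, div_le_div_iff₀ (by nlinarith) c3]
        have : (c * y) ^ 2 ≤ V y ^ 2 := by nlinarith [mul_neg_of_neg_of_pos (c2.trans hk) hy.1]
        nlinarith
      linarith
    exact c1.trans_le ((le_div_iff₀ hx.1).2 (by linarith))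
  · obtain ⟨c, c1, c2⟩ := exists_between (lt_min ha hk)
    have c3 := c2.trans_le (min_le_right _ _)
    have h1 : 0 < c + B 0 + G 0 / c ^ 2 := by
      have : G 0 / k ^ 2 ≤ G 0 / c ^ 2 :=
        div_le_div_of_nonneg_left h0.le (by nlinarith) (by nlinarith)
      linarith
    obtain ⟨r, r0, hr⟩ := (nhdsGT_basis 0).eventually_iff.1 (ev.and
      (((c0 c).eventually (lt_mem_nhds h1)).filter_mono nhdsWithin_le_nhds))
    filter_upwards [Ioo_mem_nhdsGT r0] with x hx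
    have := kappa_bar (f := fun x => V x - c * x) hx.1.le (by have := hV.1; fun_prop)
      (by simp [V0]) fun y hy h => by
      obtain ⟨⟨a1, a2, a3⟩, a4⟩ := hr ⟨hy.1, hy.2.trans hx.2⟩
      refine ⟨_, d c y a1, ?_⟩
      have : G y / c ^ 2 ≤ A y / V y ^ 2 := by
        rw [a3, div_le_div_iff₀ (by nlinarith) (by nlinarith)]
        have : V y ^ 2 ≤ (c * y) ^ 2 := by nlinarith [mul_neg_of_neg_of_pos c3 hy.1]
        nlinarith
      linarith
    exact ((div_le_iff₀ hx.1).2 (by linarith)).trans_lt (c2.trans_le (min_le_left _ _))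

theorem kappaS (hBB : BBStmt) : KappaStmt := by
  intro A B G V hG hB h0 hA hV V0 hs
  obtain ⟨k, hk, e⟩ : ∃ k < 0, k ^ 3 + B 0 * k ^ 2 + G 0 = 0 := by
    have T1 : 1 ≤ |B 0| + G 0 + 1 := by linarith [abs_nonneg (B 0)]
    obtain ⟨k, hk, e⟩ := intermediate_value_Ico (a := -(|B 0| + G 0 + 1)) (b := 0)
      (f := fun k => k ^ 3 + B 0 * k ^ 2 + G 0) (by linarith) (by fun_prop)
      (show (0 : ℝ) ∈ _ from ⟨by
        have := le_abs_self (B 0)
        generalize hT : |B 0| + G 0 + 1 = T at *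
        have : B 0 - T ≤ -(G 0 + 1) := by linarith
        have h2 : 1 ≤ T ^ 2 := by nlinarith
        show (-T) ^ 3 + B 0 * (-T) ^ 2 + G 0 ≤ 0
        nlinarith [mul_le_mul_of_nonneg_left this (sq_nonneg T)], by simpa using h0⟩)
    exact ⟨k, hk.2, e⟩
  have k0 := hk.ne
  have e' : k + B 0 + G 0 / k ^ 2 = 0 := by
    field_simp
    linarith
  have n0 : Tendsto (fun x : ℝ => 0 - x) (𝓝 0) (𝓝 0) := Continuous.tendsto' (by fun_prop) _ _ (by simp)
  have l1 := kappa_lim hG.continuousAt hB.continuousAt h0 hA hV V0 (by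
    filter_upwards [nhdsGT_le_nhdsNE 0 hs, self_mem_nhdsWithin] with x h1 h2
    exact neg_of_mul_neg_right h1 (le_of_lt h2)) hk e'
  have n1 : Tendsto (fun x : ℝ => 0 - x) (𝓝[>] 0) (𝓝[<] 0) := by
    simpa using tendsto_neg_nhdsGT (a := (0 : ℝ))
  have n2 : Tendsto (fun x : ℝ => 0 - x) (𝓝[<] 0) (𝓝[>] 0) := by
    simpa using tendsto_neg_nhdsLT (a := (0 : ℝ))
  have l2 := kappa_lim (G := fun x => G (0 - x)) (ContinuousAt.comp_of_eq hG.continuousAt
    (by fun_prop) (by simp)) (ContinuousAt.comp_of_eq hB.continuousAt (f := fun x : ℝ => 0 - x)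
      (by fun_prop) (by simp)).neg.neg (by simpa using h0) ((n0.eventually hA).mono fun x h => by
      simp only [h]; ring) (hV.refl 0).neg (by simp [V0]) (by
    filter_upwards [n1.eventually (nhdsLT_le_nhdsNE 0 hs), self_mem_nhdsWithin] with x h1 h2
    have h2 : 0 < x := h2
    nlinarith) hk (by simpa using e')
  have l3 : Tendsto (fun x => V x / x) (𝓝[≠] 0) (𝓝 k) := by
    rw [← nhdsLT_sup_nhdsGT, tendsto_sup]
    exact ⟨(l2.comp n2).congr fun x => by simp, l1⟩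
  have k3 : k ^ 3 < 0 := Odd.pow_neg (by decide) hk
  obtain ⟨Y, y1, y2, -, y3⟩ := hBB (fun p => (1 - 2 * G 0 / k ^ 3) * p.2 - p.2 - B p.1 -
    G p.1 / p.2 ^ 2) (1 - 2 * G 0 / k ^ 3) k
    (by linarith [div_neg_of_pos_of_neg (mul_pos two_pos h0) k3])
    ((((analyticAt_const.mul analyticAt_snd).sub analyticAt_snd).sub
      (hB.comp_of_eq analyticAt_fst rfl)).sub ((hG.comp_of_eq analyticAt_fst rfl).div
        (analyticAt_snd.pow 2) (pow_ne_zero 2 k0))) (by simp only; linarith) (by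
      refine (((((hasDerivAt_id' k).const_mul (1 - 2 * G 0 / k ^ 3)).fun_sub
        (hasDerivAt_id' k)).sub_const (B 0)).fun_sub ((hasDerivAt_const k (G 0)).fun_div
          (hasDerivAt_pow 2 k) (pow_ne_zero 2 k0))).congr_deriv ?_
      field_simp
      ring)
  refine ⟨Y, y1, y2 ▸ hk, y2 ▸ e, ?_⟩
  have := y3 _ l3 (by
    filter_upwards [hs, hA.filter_mono nhdsWithin_le_nhds, self_mem_nhdsWithin] with t h1 h2 h3
    have h4 : V t ≠ 0 := fun h => by simp [h] at h1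
    have h3 : t ≠ 0 := h3
    refine ⟨_, (hV.hasDerivAt h4).div (hasDerivAt_id' t) h3, ?_⟩
    simp only [h2]
    field_simp
    ring)
  rw [eventually_nhdsWithin_iff] at this
  refine this.mono fun x hx => ?_
  rcases eq_or_ne x 0 with rfl | h
  · simp [V0]
  · rw [← hx h, mul_div_cancel₀ _ h]

end Pool.Agent.MP_c2f0e4_an
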