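import Pool.Agent.MP_c2f0e4_an.Iface

open Set Filter Topology Real Asymptotics

namespace Pool.Agent.MP_c2f0e4_an

lemma llbd_dslope {f : ℝ → ℝ} (h : AnalyticAt ℝ f 0) : AnalyticAt ℝ (dslope f 0) 0 := by
  obtain ⟨p, hp⟩ := h
  exact ⟨_, hp.has_fpower_series_dslope_fslope⟩

lemma llbd_eq (f : ℝ → ℝ) (s : ℝ) : f s = f 0 + s * dslope f 0 s := by
  have := sub_smul_dslope f 0 s
  simp only [sub_zero, smul_eq_mul] at this
  linarith

lemma llbd_taylor {f : ℝ → ℝ} (h : AnalyticAt ℝ f 0) :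
    ∃ c0 c1 C : ℝ, ∀ᶠ s in 𝓝 (0 : ℝ), |f s - c0 - c1 * s| ≤ C * s ^ 2 := by
  have h2 := (llbd_dslope (llbd_dslope h)).continuousAt.abs
  set r := dslope (dslope f 0) 0 with hr
  refine ⟨f 0, dslope f 0 0, |r 0| + 1, ?_⟩
  filter_upwards [h2.eventually (gt_mem_nhds (lt_add_one _))] with s hs
  have e1 := llbd_eq f s
  have e2 := llbd_eq (dslope f 0) s
  have e : f s - f 0 - dslope f 0 0 * s = r s * s ^ 2 := by
    rw [e1, e2]
    ring
  rw [e, abs_mul, abs_of_nonneg (sq_nonneg s)]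
  exact mul_le_mul_of_nonneg_right hs.le (sq_nonneg s)

lemma llbd_arctan {f : ℝ → ℝ} (h : AnalyticAt ℝ f 0) :
    AnalyticAt ℝ (fun s => arctan (f s)) 0 :=
  (Real.contDiff_arctan.contDiffAt.analyticAt).comp h

theorem llbdS : LLbdStmt := by
  intro m0 d Φ hm1 hm3 hd hΦ h0 hder
  set ν := 3 + 2 * m0 with hν
  set R := √((3 - m0) * (1 + m0)) with hR
  have hν0 : 0 < ν := by rw [hν]; linarith
  have hR0 : 0 < R := Real.sqrt_pos.2 (mul_pos (by linarith) (by linarith))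
  have hνd : 0 < ν * d := mul_pos hν0 hd
  set g := dslope Φ 0 with hg
  have ga : AnalyticAt ℝ g 0 := llbd_dslope hΦ
  have g0 : 0 < g 0 := by rwa [hg, dslope_same]
  have hΦg : ∀ s, Φ s = s * g s := fun s => by
    have := llbd_eq Φ s
    rwa [h0, zero_add] at this
  have a1 : AnalyticAt ℝ (fun s => Real.log (g s)) 0 := ga.log g0
  have a2 : AnalyticAt ℝ (fun s => Real.log (Dh m0 (d - Φ s) d)) 0 := by
    refine AnalyticAt.log (by unfold Dh; fun_prop) ?_
    simp only [Dh, h0]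
    nlinarith [mul_pos hνd hd]
  have a3 : AnalyticAt ℝ (fun s => Real.log (Dh m0 (-d - s) (-d))) 0 := by
    refine AnalyticAt.log (by unfold Dh; fun_prop) ?_
    simp only [Dh]
    nlinarith [mul_pos hνd hd]
  have b1 : AnalyticAt ℝ (fun s => 2 * ν * d - (3 + m0) * Φ s) 0 := by fun_prop
  have b2 : AnalyticAt ℝ (fun s => -(2 * ν * d) - (3 + m0) * s) 0 := by fun_prop
  have c1 : 0 < 2 * ν * d - (3 + m0) * Φ 0 := by rw [h0]; linarith
  have c2 : -(2 * ν * d) - (3 + m0) * 0 < 0 := by linarith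
  have a4 : AnalyticAt ℝ (fun s => arctan (R * Φ s / (2 * ν * d - (3 + m0) * Φ s))) 0 :=
    llbd_arctan ((analyticAt_const.mul hΦ).div b1 c1.ne')
  have a5 : AnalyticAt ℝ (fun s => arctan (R * s / (-(2 * ν * d) - (3 + m0) * s))) 0 :=
    llbd_arctan ((analyticAt_const.mul analyticAt_id).div b2 c2.ne)
  have ha : AnalyticAt ℝ (fun s => 1 / ν * Real.log (g s)
      + (1 + m0) / ν * (Real.log (Dh m0 (d - Φ s) d) - Real.log (Dh m0 (-d - s) (-d)))
      - (1 + m0) * m0 / ν * (2 / R * (π - arctan (R * Φ s / (2 * ν * d - (3 + m0) * Φ s))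
        + arctan (R * s / (-(2 * ν * d) - (3 + m0) * s))))) 0 :=
    ((analyticAt_const.mul a1).add (analyticAt_const.mul (a2.sub a3))).sub
      (analyticAt_const.mul (analyticAt_const.mul ((analyticAt_const.sub a4).add a5)))
  obtain ⟨k0, k1, C, hC⟩ := llbd_taylor ha
  refine ⟨k0, k1, C, ?_⟩
  have e1 := ga.continuousAt.eventually (lt_mem_nhds g0)
  have e2 := b1.continuousAt.eventually (lt_mem_nhds c1)
  have e3 := b2.continuousAt.eventually (gt_mem_nhds c2)
  filter_upwards [nhdsWithin_le_nhds hC, nhdsWithin_le_nhds e1, nhdsWithin_le_nhds e2,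
    nhdsWithin_le_nhds e3, self_mem_nhdsWithin] with s s0 s1 s2 s3 hs
  have hs : 0 < s := hs
  have s1 : 0 < g s := s1
  have s2 : 0 < 2 * ν * d - (3 + m0) * Φ s := s2
  have s3 : -(2 * ν * d) - (3 + m0) * s < 0 := s3
  have hp : 0 < Φ s := by rw [hΦg]; exact mul_pos hs s1
  have l1 : Real.log (Φ s) = Real.log s + Real.log (g s) := by
    rw [hΦg, Real.log_mul hs.ne' s1.ne']
  have y1 : (2 * ν * (d / Φ s) - (3 + m0)) / R =
      (R * Φ s / (2 * ν * d - (3 + m0) * Φ s))⁻¹ := by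
    rw [inv_div]
    field_simp
  have y2 : (2 * ν * (-d / s) - (3 + m0)) / R =
      (R * s / (-(2 * ν * d) - (3 + m0) * s))⁻¹ := by
    rw [inv_div]
    field_simp
  have t1 := arctan_inv_of_pos (div_pos (mul_pos hR0 hp) s2)
  have t2 := arctan_inv_of_neg (div_neg_of_pos_of_neg (mul_pos hR0 hs) s3)
  have r1 : d - (d - Φ s) = Φ s := by ring
  have r2 : -d - (-d - s) = s := by ring
  refine le_of_eq_of_le (congrArg abs ?_) s0
  simp only [LL, Theta, r1, r2, ← hν, ← hR, y1, y2, t1, t2, l1]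
  ring

end Pool.Agent.MP_c2f0e4_an
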