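import Pool.Agent.MP_c2f0e4_an.Iface

open Set Filter Topology Real Asymptotics

namespace Pool.Agent.MP_c2f0e4_an

lemma llder_low {m0 : ℝ} (h1 : -1 < m0) (h2 : m0 < 3) (u ξ : ℝ) :
    (1 + m0) * (3 - m0) / 76 * (ξ ^ 2 + (ξ - u) ^ 2) ≤ Dh m0 u ξ := by
  have k0 : 0 < (1 + m0) * (3 - m0) := mul_pos (by linarith) (by linarith)
  have k1 : (1 + m0) * (3 - m0) ≤ 4 := by nlinarith [sq_nonneg (m0 - 1)]
  have k2 : ((3 + m0) / 2) ^ 2 ≤ 9 := by nlinarith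
  have k3 : (ξ - u) ^ 2 ≤ 18 * ξ ^ 2 + 2 * (u + (1 + m0) * ξ / 2) ^ 2 := by
    nlinarith [sq_nonneg ((3 + m0) / 2 * ξ + (u + (1 + m0) * ξ / 2)),
      mul_le_mul_of_nonneg_right k2 (sq_nonneg ξ)]
  have e : Dh m0 u ξ = (1 + m0) * (3 - m0) / 4 * ξ ^ 2 + (u + (1 + m0) * ξ / 2) ^ 2 := by
    unfold Dh; ring
  rw [e]
  generalize (1 + m0) * (3 - m0) = k at k0 k1
  nlinarith [mul_le_mul_of_nonneg_left k3 k0.le,
    mul_le_mul_of_nonneg_right k1 (sq_nonneg (u + (1 + m0) * ξ / 2)),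
    sq_nonneg (u + (1 + m0) * ξ / 2)]

lemma llder_pos {m0 : ℝ} (h1 : -1 < m0) (h2 : m0 < 3) {u ξ : ℝ} (h : u < ξ) : 0 < Dh m0 u ξ := by
  have k0 : 0 < (1 + m0) * (3 - m0) := mul_pos (by linarith) (by linarith)
  have k1 := pow_pos (sub_pos.2 h) 2
  exact lt_of_lt_of_le (by positivity) (llder_low h1 h2 u ξ)

lemma llder_theta {m0 : ℝ} (h1 : -1 < m0) (h2 : m0 < 3) (w : ℝ) :
    HasDerivAt (Theta m0) (1 / ((3 + 2 * m0) * w ^ 2 - (3 + m0) * w + 1)) w := by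
  have k0 : 0 < (3 - m0) * (1 + m0) := mul_pos (by linarith) (by linarith)
  have k1 := Real.sqrt_pos.2 k0
  have k2 := Real.sq_sqrt k0.le
  unfold Theta
  generalize √((3 - m0) * (1 + m0)) = D at k1 k2
  have k3 : HasDerivAt (fun w : ℝ => (2 * (3 + 2 * m0) * w - (3 + m0)) / D)
      (2 * (3 + 2 * m0) / D) w := by
    simpa using (((hasDerivAt_id w).const_mul (2 * (3 + 2 * m0))).sub_const (3 + m0)).div_const D
  have k4 : D ^ 2 + (2 * (3 + 2 * m0) * w - (3 + m0)) ^ 2 =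
      4 * (3 + 2 * m0) * ((3 + 2 * m0) * w ^ 2 - (3 + m0) * w + 1) := by rw [k2]; ring
  have k5 : 0 < 3 + 2 * m0 := by linarith
  have k6 : (3 + 2 * m0) * w ^ 2 - (3 + m0) * w + 1 ≠ 0 := fun k => by
    rw [k] at k4
    nlinarith [sq_nonneg (2 * (3 + 2 * m0) * w - (3 + m0)), pow_pos k1 2]
  refine (k3.arctan.const_mul (2 / D)).congr_deriv ?_
  generalize (3 + 2 * m0) * w ^ 2 - (3 + m0) * w + 1 = E at k4 k6
  generalize 2 * (3 + 2 * m0) * w - (3 + m0) = z at k4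
  field_simp
  linear_combination -k4

lemma llder_dh (m0 : ℝ) {u : ℝ → ℝ} {u' ξ : ℝ} (h : HasDerivAt u u' ξ) :
    HasDerivAt (fun y => Dh m0 (u y) y)
      (2 * u ξ * u' + (1 + m0) * (u ξ + ξ) + (1 + m0) * ξ * (u' + 1)) ξ := by
  unfold Dh
  refine ((h.pow 2).add (((hasDerivAt_id ξ).const_mul (1 + m0)).mul
    (h.add (hasDerivAt_id ξ)))).congr_deriv ?_
  simp only [id, Pi.add_apply]
  push_cast
  ring

theorem llderS : LLderStmt := by
  intro m0 h1 h2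
  refine ⟨⟨(1 + m0) * (3 - m0) / 76, 12, div_pos (mul_pos (by linarith) (by linarith)) (by norm_num),
    fun u ξ => ⟨llder_low h1 h2 u ξ, ?_⟩⟩, ?_, fun u u' ξ m hu hlt h0 he => ?_⟩
  · unfold Dh
    nlinarith [mul_nonneg (show 0 ≤ 3 - m0 by linarith) (sq_nonneg (2 * ξ + u)),
      mul_nonneg (show 0 ≤ 1 + m0 by linarith) (sq_nonneg (ξ - u)),
      mul_nonneg (show 0 ≤ 3 - m0 by linarith) (sq_nonneg ξ),
      mul_nonneg (show 0 ≤ 3 - m0 by linarith) (sq_nonneg (ξ + u)),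
      mul_nonneg (show 0 ≤ 1 + m0 by linarith) (sq_nonneg (2 * ξ - u)),
      sq_nonneg (3 * ξ - 2 * u), sq_nonneg (2 * ξ - u), sq_nonneg (ξ - u), sq_nonneg ξ]
  · have c1 : Continuous (Theta m0) :=
      continuous_iff_continuousAt.2 fun w => (llder_theta h1 h2 w).continuousAt
    have c2 : Continuous fun p : ℝ × ℝ => Dh m0 p.1 p.2 := by unfold Dh; fun_prop
    have c3 : Continuous fun p : ℝ × ℝ => p.2 - p.1 := by fun_prop
    unfold LL
    exact ((continuousOn_const.mul (c3.continuousOn.log fun p hp => (sub_pos.2 hp).ne')).add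
      (continuousOn_const.mul (c2.continuousOn.log fun p hp => (llder_pos h1 h2 hp).ne'))).sub
      (continuousOn_const.mul (c1.comp_continuousOn
        (continuous_snd.continuousOn.div c3.continuousOn fun p hp => (sub_pos.2 hp).ne')))
  · have s0 : ξ - u ξ ≠ 0 := (sub_pos.2 hlt).ne'
    have d0 := (llder_pos h1 h2 hlt).ne'
    have n0 : 3 + 2 * m0 ≠ 0 := by linarith
    have k1 : HasDerivAt (fun y => y - u y) (1 - u') ξ := (hasDerivAt_id ξ).sub hu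
    have k2 := (llder_theta h1 h2 (ξ / (ξ - u ξ))).comp ξ ((hasDerivAt_id' ξ).div k1 s0)
    have k3 : (3 + 2 * m0) * (ξ / (ξ - u ξ)) ^ 2 - (3 + m0) * (ξ / (ξ - u ξ)) + 1 =
        Dh m0 (u ξ) ξ / (ξ - u ξ) ^ 2 := by
      unfold Dh; field_simp; ring
    rw [k3] at k2
    unfold LL
    refine ((((k1.log s0).const_mul _).add (((llder_dh m0 hu).log d0).const_mul _)).sub
      (k2.const_mul _)).congr_deriv ?_
    have e : u' = ((1 + m) * ξ ^ 2 - m * u ξ ^ 2) / u ξ ^ 2 := by rw [← he]; field_simp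
    have e2 : Dh m0 (u ξ) ξ = u ξ ^ 2 + (1 + m0) * ξ * (u ξ + ξ) := rfl
    rw [e]
    field_simp
    rw [e2]
    ring

theorem pi2S : Pi2Stmt := by
  intro m0 u u' ξ m h1 h2 d0 hu h0 he
  have n0 : 3 + 2 * m0 ≠ 0 := by linarith
  have n1 : 1 + m0 ≠ 0 := by linarith
  have n2 : 1 + 2 * m0 ≠ 0 := fun k => h2 (by linarith)
  have n3 : 10 + 9 * m0 ≠ 0 := by linarith
  have n4 : 3 + m0 * 2 ≠ 0 := by linarith
  have n5 : 1 + m0 * 2 ≠ 0 := fun k => h2 (by linarith)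
  have n6 : 10 + m0 * 9 ≠ 0 := by linarith
  have i := hasDerivAt_id' ξ
  have k1 := (hu.sub i).mul (((((i.pow 3).const_mul ((1 + m0) * (4 + 5 * m0))).add
    ((hu.const_mul (2 * (1 + m0) * (4 + 5 * m0))).mul (i.pow 2))).add
    (((hu.pow 2).const_mul ((4 + 5 * m0) * (3 + 2 * m0))).mul i)).add
    ((hu.pow 3).const_mul ((2 + m0) * (3 + 2 * m0))))
  have k2 := (llder_dh m0 hu).const_mul ((1 + m0) * (3 + 2 * m0) * (1 + 2 * m0) * (10 + 9 * m0))
  unfold Pi2 Gam2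
  refine (k1.div k2 (mul_ne_zero (by positivity) d0)).congr_deriv ?_
  have e : u' = ((1 + m) * ξ ^ 2 - m * u ξ ^ 2) / u ξ ^ 2 := by rw [← he]; field_simp
  have e2 : Dh m0 (u ξ) ξ = u ξ ^ 2 + (1 + m0) * ξ * (u ξ + ξ) := rfl
  simp only [Pi.add_apply, Pi.mul_apply, Pi.sub_apply, Pi.pow_apply]
  rw [e]
  push_cast
  field_simp
  rw [e2]
  ring

end Pool.Agent.MP_c2f0e4_an
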