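import Pool.Agent.MP_c2f0e4_an.Iface

open Set Filter Topology Real Asymptotics

namespace Pool.Agent.MP_c2f0e4_an

lemma lim_bd {A B : ℝ → ℝ} (hA : Continuous A) (hB : Continuous B) (a b : ℝ) :
    ∃ C : ℝ, 0 ≤ C ∧ ∀ x ∈ Icc a b, |A x| ≤ C ∧ |B x| ≤ C := by
  obtain ⟨C1, h1⟩ := isCompact_Icc.exists_bound_of_continuousOn (hA.continuousOn (s := Icc a b))
  obtain ⟨C2, h2⟩ := isCompact_Icc.exists_bound_of_continuousOn (hB.continuousOn (s := Icc a b))
  exact ⟨max 0 (max C1 C2), le_max_left _ _, fun x hx =>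
    ⟨(h1 x hx).trans ((le_max_left _ _).trans (le_max_right _ _)),
      (h2 x hx).trans ((le_max_right _ _).trans (le_max_right _ _))⟩⟩

lemma lim_der {p q u C : ℝ} (hp : |p| ≤ C) (hq : |q| ≤ C) :
    |-3 * (p + q * u ^ 2)| ≤ 3 * C * (1 + u ^ 2) := by
  have h1 : |q * u ^ 2| ≤ C * u ^ 2 := by
    rw [abs_mul, abs_of_nonneg (sq_nonneg u)]
    exact mul_le_mul_of_nonneg_right hq (sq_nonneg u)
  have h2 := abs_add_le p (q * u ^ 2)
  rw [abs_mul, show |(-3 : ℝ)| = 3 by norm_num]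
  linarith

lemma lim_pow {t : ℝ} (ht : 0 ≤ t) {k : ℕ} (hk : k ≤ 6) : t ^ k ≤ 1 + t ^ 6 := by
  rcases le_total t 1 with h | h
  · exact (pow_le_one₀ ht h).trans (le_add_of_nonneg_right (by positivity))
  · exact (pow_le_pow_right₀ h hk).trans (le_add_of_nonneg_left zero_le_one)

theorem boundS : BoundStmt := by
  intro A B hA hB a b M
  obtain ⟨C, hC, hb⟩ := lim_bd hA hB a b
  refine ⟨exp (log (1 + M ^ 6) + 12 * C * (b - a)), fun U hU x0 hx0 hM x hx => ?_⟩
  have hd : ∀ y ∈ Icc a b, HasDerivWithinAt (fun y => log (1 + (U y ^ 3) ^ 2))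
      (2 * U y ^ 3 * (-3 * (A y + B y * U y ^ 2)) / (1 + (U y ^ 3) ^ 2)) (Icc a b) y := by
    intro y _
    have h1 := (((hU.2 y).pow 2).const_add 1).log (by positivity : 1 + (U y ^ 3) ^ 2 ≠ 0)
    refine (h1.congr_deriv ?_).hasDerivWithinAt
    simp
  have h1 := (convex_Icc a b).norm_image_sub_le_of_norm_hasDerivWithin_le (C := 12 * C) hd
    (fun y hy => by
      rw [Real.norm_eq_abs, abs_div, abs_of_pos (by positivity : 0 < 1 + (U y ^ 3) ^ 2),
        div_le_iff₀ (by positivity), abs_mul]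
      have h2 := lim_der (u := U y) (hb y hy).1 (hb y hy).2
      have h3 := lim_pow (abs_nonneg (U y)) (k := 3) (by norm_num)
      have h4 := lim_pow (abs_nonneg (U y)) (k := 5) (by norm_num)
      have h5 : |U y| ^ 6 = (U y ^ 3) ^ 2 := by rw [Even.pow_abs (by decide)]; ring
      have h6 : |2 * U y ^ 3| = 2 * |U y| ^ 3 := by rw [abs_mul, abs_pow]; norm_num
      rw [h6]
      refine (mul_le_mul_of_nonneg_left h2 (by positivity)).trans ?_
      rw [← sq_abs (U y), ← h5]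
      nlinarith [mul_le_mul_of_nonneg_left (add_le_add h3 h4) hC]) hx0 hx
  have h2 : ‖x - x0‖ ≤ b - a := abs_sub_le_of_le_of_le hx.1 hx.2 hx0.1 hx0.2
  have h3 := mul_le_mul_of_nonneg_left h2 (by positivity : 0 ≤ 12 * C)
  have h4 : log (1 + (U x0 ^ 3) ^ 2) ≤ log (1 + M ^ 6) := by
    refine log_le_log (by positivity) ?_
    have := pow_le_pow_left₀ (abs_nonneg _) hM 6
    rw [Even.pow_abs (by decide)] at this
    linarith [show (U x0 ^ 3) ^ 2 = U x0 ^ 6 by ring]
  have h5 := lim_pow (abs_nonneg (U x)) (k := 1) (by norm_num)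
  rw [pow_one, Even.pow_abs (by decide), show U x ^ 6 = (U x ^ 3) ^ 2 by ring] at h5
  refine h5.trans ?_
  rw [← log_le_iff_le_exp (by positivity)]
  linarith [(abs_le.1 (h1.trans h3)).2]

lemma lim_unif {l : Filter ℕ} [l.NeBot] {w : ℕ → ℝ → ℝ} {W : ℝ → ℝ} {a b K : ℝ} (hK : 0 ≤ K)
    (hl : ∀ᶠ n in l, ∀ x ∈ Icc a b, ∀ y ∈ Icc a b, |w n y - w n x| ≤ K * |y - x|)
    (hp : ∀ x, Tendsto (fun n => w n x) l (𝓝 (W x))) : TendstoUniformlyOn w W l (Icc a b) := by
  have hW : ∀ x ∈ Icc a b, ∀ y ∈ Icc a b, |W y - W x| ≤ K * |y - x| := fun x hx y hy =>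
    le_of_tendsto ((hp y).sub (hp x)).abs (hl.mono fun n hn => hn x hx y hy)
  rw [Metric.tendstoUniformlyOn_iff]
  intro ε hε
  obtain ⟨t, ht, hfin, hcov⟩ := finite_cover_balls_of_compact (isCompact_Icc (a := a) (b := b))
    (e := ε / (3 * (K + 1))) (by positivity)
  have h1 : ∀ᶠ n in l, ∀ x ∈ t, dist (w n x) (W x) < ε / 3 :=
    (eventually_all_finite hfin).2 fun x _ => Metric.tendsto_nhds.1 (hp x) _ (by positivity)
  filter_upwards [hl, h1] with n h2 h3 y hy
  obtain ⟨x, hx, hxy⟩ := mem_iUnion₂.1 (hcov hy)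
  rw [Metric.mem_ball, Real.dist_eq, lt_div_iff₀ (by positivity)] at hxy
  have h4 := abs_le.1 (h2 x (ht hx) y hy)
  have h5 := abs_le.1 (hW x (ht hx) y hy)
  have h6 := abs_lt.1 (h3 x hx)
  have h7 := abs_nonneg (y - x)
  rw [Real.dist_eq, abs_lt]
  constructor <;> nlinarith

lemma lim_cube {u v ε : ℝ} (hε : 0 < ε) (h : |u ^ 3 - v ^ 3| < ε ^ 3 / 4) : |u - v| < ε := by
  by_contra hc
  have h1 := pow_le_pow_left₀ hε.le (not_lt.1 hc) 3
  have h2 : |u ^ 3 - v ^ 3| = |u - v| * (u ^ 2 + u * v + v ^ 2) := by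
    rw [← abs_of_nonneg (show 0 ≤ u ^ 2 + u * v + v ^ 2 by nlinarith [sq_nonneg (u + v)]),
      ← abs_mul]
    congr 1; ring
  have h3 : |u - v| ^ 3 = |u - v| * (u - v) ^ 2 := by rw [← sq_abs (u - v)]; ring
  have h4 : (u - v) ^ 2 ≤ 4 * (u ^ 2 + u * v + v ^ 2) := by nlinarith [sq_nonneg (u + v)]
  nlinarith [mul_le_mul_of_nonneg_left h4 (abs_nonneg (u - v))]

theorem limS : LimStmt := by
  intro A B hA hB l U V hl hU hp
  have hbd : ∀ a b : ℝ, ∃ M : ℝ, 0 ≤ M ∧ ∀ᶠ n in l, ∀ x ∈ Icc a b, |U n x| ≤ M := by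
    intro a b
    obtain ⟨M, hM⟩ := boundS A B hA hB a b (|V a| + 1)
    refine ⟨max 0 M, le_max_left _ _, ?_⟩
    filter_upwards [(hp a).abs.eventually_le_const (lt_add_one _)] with n hn x hx
    exact (hM _ (hU n) a ⟨le_rfl, hx.1.trans hx.2⟩ hn x hx).trans (le_max_right _ _)
  have hun : ∀ a b : ℝ, TendstoUniformlyOn U V l (Icc a b) := by
    intro a b
    obtain ⟨C, hC, hb⟩ := lim_bd hA hB a b
    obtain ⟨M, hM0, hM⟩ := hbd a b
    have h1 := lim_unif (w := fun n x => U n x ^ 3) (W := fun x => V x ^ 3) (a := a) (b := b)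
      (K := 3 * C * (1 + M ^ 2)) (by positivity) (hM.mono fun n hn x hx y hy =>
        (convex_Icc a b).norm_image_sub_le_of_norm_hasDerivWithin_le
          (fun z _ => ((hU n).2 z).hasDerivWithinAt) (fun z hz =>
            (lim_der (hb z hz).1 (hb z hz).2).trans (by
              have := pow_le_pow_left₀ (abs_nonneg _) (hn z hz) 2
              rw [sq_abs] at this
              gcongr)) hx hy) fun x => (hp x).pow 3
    rw [Metric.tendstoUniformlyOn_iff] at h1 ⊢
    intro ε hε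
    filter_upwards [h1 (ε ^ 3 / 4) (by positivity)] with n hn x hx
    exact lim_cube hε (hn x hx)
  refine ⟨⟨continuous_iff_continuousAt.2 fun x => ?_, fun x => ?_⟩, hun⟩
  · exact ((hun (x - 1) (x + 1)).continuousOn (Frequently.of_forall fun n =>
      (hU n).1.continuousOn)).continuousAt (Icc_mem_nhds (by linarith) (by linarith))
  · obtain ⟨C, hC, hb⟩ := lim_bd hA hB (x - 1) (x + 1)
    obtain ⟨M, hM0, hM⟩ := hbd (x - 1) (x + 1)
    refine hasDerivAt_of_tendstoUniformlyOn (l := l) (f := fun n y => U n y ^ 3)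
      (f' := fun n y => -3 * (A y + B y * U n y ^ 2))
      (g' := fun y => -3 * (A y + B y * V y ^ 2)) (s := Ioo (x - 1) (x + 1)) isOpen_Ioo ?_
      (Eventually.of_forall fun n y _ => (hU n).2 y) (fun y _ => (hp y).pow 3)
      ⟨by linarith, by linarith⟩
    have h1 := hun (x - 1) (x + 1)
    rw [Metric.tendstoUniformlyOn_iff] at h1 ⊢
    intro ε hε
    filter_upwards [h1 (ε / (6 * C * M + 1)) (by positivity), hM] with n h2 h3 y hy
    have hy' := Ioo_subset_Icc_self hy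
    have h4 : |V y| ≤ M := le_of_tendsto (hp y).abs (hM.mono fun m hm => hm y hy')
    have h5 := h2 y hy'
    rw [Real.dist_eq, lt_div_iff₀ (by positivity)] at h5
    have h6 : |V y + U n y| ≤ 2 * M := (abs_add_le _ _).trans (by linarith [h3 y hy'])
    have h7 := mul_le_mul (hb y hy').2 h6 (abs_nonneg _) hC
    rw [Real.dist_eq, show -3 * (A y + B y * V y ^ 2) - -3 * (A y + B y * U n y ^ 2) =
      -3 * (B y * (V y + U n y) * (V y - U n y)) by ring, abs_mul, abs_mul, abs_mul,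
      show |(-3 : ℝ)| = 3 by norm_num]
    nlinarith [mul_le_mul_of_nonneg_right h7 (abs_nonneg (V y - U n y)), abs_nonneg (V y - U n y)]

theorem depS (hUniq : UniqStmt) : DepStmt := by
  intro A B V hA hB hV a b x0 hx0 hg η hη
  by_contra hc
  push Not at hc
  choose U hU h0 y hy hfar using fun n : ℕ => hc (1 / ((n : ℝ) + 1)) (by positivity)
  let l : Ultrafilter ℕ := Ultrafilter.of atTop
  have hl : (l : Filter ℕ) ≤ atTop := Ultrafilter.of_le _
  have hlim : ∀ x, ∃ w, Tendsto (fun n => U n x) l (𝓝 w) := by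
    intro x
    obtain ⟨M, hM⟩ := boundS A B hA.continuous hB.continuous (min x x0) (max x x0) (|V x0| + 1)
    obtain ⟨w, -, hw⟩ := (isCompact_Icc (a := -M) (b := M)).ultrafilter_le_nhds
      (l.map fun n => U n x) (le_principal_iff.2 (mem_map.2 (univ_mem' fun n : ℕ => abs_le.1
        (hM _ (hU n) x0 ⟨min_le_right _ _, le_max_right _ _⟩ (by
          have h1 : 1 / ((n : ℝ) + 1) ≤ 1 := by
            rw [div_le_one (by positivity)]; linarith [Nat.cast_nonneg (α := ℝ) n]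
          linarith [abs_sub_abs_le_abs_sub (U n x0) (V x0), h0 n]) x
          ⟨min_le_left _ _, le_max_left _ _⟩))))
    exact ⟨w, hw⟩
  choose W hW using hlim
  obtain ⟨hWs, hun⟩ := limS A B hA.continuous hB.continuous l U W inferInstance hU hW
  have h1 : Tendsto (fun n => U n x0) atTop (𝓝 (V x0)) :=
    tendsto_iff_norm_sub_tendsto_zero.2 (squeeze_zero (fun _ => norm_nonneg _)
      (fun n => (h0 n).le) tendsto_one_div_add_atTop_nhds_zero_nat)
  have h2 := hUniq A B W V hA hB hWs hV a b x0 hx0 hg (tendsto_nhds_unique (hW x0) (h1.mono_left hl))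
  obtain ⟨n, hn⟩ := (Metric.tendstoUniformlyOn_iff.1 (hun a b) η hη).exists
  have h3 := hn _ (hy n)
  rw [h2 _ (hy n), Real.dist_eq, abs_sub_comm] at h3
  exact absurd h3 (not_lt.2 (hfar n))

end Pool.Agent.MP_c2f0e4_an
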