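import Pool.Agent.MP_c2f0e4_an.Iface

open Set Filter Topology Real Asymptotics

namespace Pool.Agent.MP_c2f0e4_an

lemma loc_lt {g : ℝ → ℝ} {u v : ℝ} (huv : u < v) (hc : ContinuousOn g (Icc u v))
    (hd : ∀ y ∈ Ioo u v, y ≠ 0 → 0 < deriv g y) : g u < g v := by
  have key : ∀ a b, u ≤ a → a < b → b ≤ v → (0 : ℝ) ∉ Ioo a b → g a < g b := by
    intro a b ha hab hb h0
    refine strictMonoOn_of_deriv_pos (convex_Icc a b) (hc.mono (Icc_subset_Icc ha hb)) ?_
      (left_mem_Icc.2 hab.le) (right_mem_Icc.2 hab.le) hab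
    intro y hy
    rw [interior_Icc] at hy
    exact hd y ⟨ha.trans_lt hy.1, hy.2.trans_le hb⟩ fun h => h0 (h ▸ hy)
  by_cases h0 : (0 : ℝ) ∈ Ioo u v
  · exact (key u 0 le_rfl h0.1 h0.2.le fun h => lt_irrefl _ h.2).trans
      (key 0 v h0.1.le h0.2 le_rfl fun h => lt_irrefl _ h.1)
  · exact key u v le_rfl huv le_rfl h0

lemma loc_core {A B : ℝ → ℝ} {x0 u0 s : ℝ} {H : ℝ × ℝ → ℝ}
    (h : ∀ᶠ p in 𝓝 (x0, u0), AnalyticAt ℝ H p ∧ (p.2 ≠ 0 → 0 < s * fderiv ℝ H p (0, 1)) ∧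
      (p.2 ≠ 0 → fderiv ℝ H p (1, -B p.1 - A p.1 / p.2 ^ 2) = 0) ∧ (p.2 = 0 → 0 < A x0 * A p.1)) :
    ∃ r : ℝ, 0 < r ∧
      (∀ x u, |x - x0| < r → |u - u0| < r →
        AnalyticAt ℝ H (x, u) ∧ (u ≠ 0 → fderiv ℝ H (x, u) (0, 1) ≠ 0)) ∧
      (∀ x, |x - x0| < r → InjOn (fun u => H (x, u)) (Ioo (u0 - r) (u0 + r))) ∧
      ∀ U, Sol A B U → ∀ a b, a ≤ b → (∀ x ∈ Icc a b, |x - x0| < r ∧ |U x - u0| < r) →
        H (a, U a) = H (b, U b) := by
  obtain ⟨r, hr, hb⟩ := Metric.eventually_nhds_iff.1 h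
  have hb' := fun (x u : ℝ) (hx : |x - x0| < r) (hu : |u - u0| < r) =>
    hb (y := (x, u)) (by rw [Prod.dist_eq]; exact max_lt hx hu)
  refine ⟨r, hr, fun x u hx hu => ⟨(hb' x u hx hu).1, fun h0 h1 => ?_⟩, fun x hx => ?_,
    fun U hU a b hab hbox => ?_⟩
  · have := (hb' x u hx hu).2.1 h0
    rw [h1, mul_zero] at this
    exact lt_irrefl _ this
  · have hd : ∀ u, |u - u0| < r →
        HasDerivAt (fun y => s * H (x, y)) (s * fderiv ℝ H (x, u) (0, 1)) u := fun u hu =>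
      ((hb' x u hx hu).1.differentiableAt.hasFDerivAt.comp_hasDerivAt u
        ((hasDerivAt_const u x).prodMk (hasDerivAt_id u))).const_mul s
    have hlt : ∀ u ∈ Ioo (u0 - r) (u0 + r), ∀ v ∈ Ioo (u0 - r) (u0 + r), u < v →
        s * H (x, u) < s * H (x, v) := by
      intro u hu v hv huv
      have hin : ∀ y ∈ Icc u v, |y - u0| < r := fun y hy =>
        abs_lt.2 ⟨by linarith [hu.1, hy.1], by linarith [hv.2, hy.2]⟩
      refine loc_lt (g := fun y => s * H (x, y)) huv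
        (fun y hy => (hd y (hin y hy)).continuousAt.continuousWithinAt) fun y hy h0 => ?_
      rw [(hd y (hin y (Ioo_subset_Icc_self hy))).deriv]
      exact (hb' x y hx (hin y (Ioo_subset_Icc_self hy))).2.1 h0
    intro u hu v hv huv
    have e : s * H (x, u) = s * H (x, v) := congrArg (s * ·) huv
    rcases lt_trichotomy u v with h1 | h1 | h1
    · exact absurd e (hlt u hu v hv h1).ne
    · exact h1
    · exact absurd e (hlt v hv u hu h1).ne'
  · have hz : ∀ x ∈ Icc a b, U x = 0 → 0 < A x0 * A x := fun x hx h0 =>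
      (hb' x (U x) (hbox x hx).1 (hbox x hx).2).2.2.2 h0
    have two : ∀ x ∈ Icc a b, ∀ y ∈ Icc a b, x < y → U x = 0 → U y ≠ 0 := by
      intro x hx y hy hxy h0
      have hsub : Icc x y ⊆ Icc a b := Icc_subset_Icc hx.1 hy.2
      rcases lt_or_ge 0 (A x0) with h1 | h1
      · exact (hU.neg_forward (a := x) (b := y)
          (fun z hz' h2 => (mul_pos_iff_of_pos_left h1).1 (hz z (hsub hz') h2)) h0.le y ⟨hxy, le_rfl⟩).ne
      · refine (hU.pos_forward (a := x) (b := y) (fun z hz' h2 => ?_) h0.ge y ⟨hxy, le_rfl⟩).ne'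
        by_contra h3
        exact absurd (hz z (hsub hz') h2) (not_lt.2 (mul_nonpos_of_nonpos_of_nonneg h1 (not_lt.1 h3)))
    have hS : {x ∈ Icc a b | U x = 0}.Finite := by
      refine Set.Subsingleton.finite fun x hx y hy => ?_
      rcases lt_trichotomy x y with h1 | h1 | h1
      · exact absurd hy.2 (two x hx.1 y hy.1 h1 hx.2)
      · exact h1
      · exact absurd hx.2 (two y hy.1 x hx.1 h1 hy.2)
    have hc : ContinuousOn (fun x => H (x, U x)) (Icc a b) := fun x hx =>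
      (ContinuousAt.comp (f := fun x => (x, U x))
        (hb' x (U x) (hbox x hx).1 (hbox x hx).2).1.continuousAt
        (continuousAt_id.prodMk hU.1.continuousAt)).continuousWithinAt
    have hd : ∀ x ∈ Ioo a b, x ∉ {x ∈ Icc a b | U x = 0} → HasDerivAt (fun x => H (x, U x)) 0 x := by
      intro x hx hxS
      have hx' := Ioo_subset_Icc_self hx
      have h0 : U x ≠ 0 := fun h => hxS ⟨hx', h⟩
      have h1 := hb' x (U x) (hbox x hx').1 (hbox x hx').2
      have h2 := h1.1.differentiableAt.hasFDerivAt.comp_hasDerivAt (f := fun x => (x, U x)) x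
        ((hasDerivAt_id x).prodMk (hU.hasDerivAt h0))
      rw [h1.2.2.1 h0] at h2
      exact h2
    have h1 := sub_le_of_deriv_le (c := 0) hS hab hc fun x hx hxS => ⟨0, hd x hx hxS, le_rfl⟩
    have h2 := le_sub_of_le_deriv (c := 0) hS hab hc fun x hx hxS => ⟨0, hd x hx hxS, le_rfl⟩
    linarith

lemma loc_sign {X : Type} [TopologicalSpace X] {f : X → ℝ} {p : X} (hf : ContinuousAt f p)
    (h : f p ≠ 0) : ∀ᶠ q in 𝓝 p, 0 < f p * f q :=
  (continuousAt_const.mul hf).eventually (lt_mem_nhds (mul_self_pos.2 h))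

lemma loc_cont {H : ℝ × ℝ → ℝ} {p : ℝ × ℝ} (h : AnalyticAt ℝ H p) (v : ℝ × ℝ) :
    ContinuousAt (fun q => fderiv ℝ H q v) p :=
  h.fderiv.continuousAt.clm_apply continuousAt_const

lemma loc_lin (L : ℝ × ℝ →L[ℝ] ℝ) (a b : ℝ) : L (a, b) = a * L (1, 0) + b * L (0, 1) := by
  have : (a, b) = a • ((1 : ℝ), (0 : ℝ)) + b • ((0 : ℝ), (1 : ℝ)) := by simp
  rw [this, map_add, map_smul, map_smul, smul_eq_mul, smul_eq_mul]

theorem locS (hAF : AFStmt) : LocStmt := by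
  intro A B hA hB x0 u0 h0
  by_cases hu : u0 = 0
  · subst hu
    have hA0 : A x0 ≠ 0 := fun h => h0 h rfl
    have hA2 : AnalyticAt ℝ (fun p : ℝ × ℝ => A p.2) (0, x0) :=
      (hA x0).comp_of_eq (f := Prod.snd) analyticAt_snd rfl
    have hB2 : AnalyticAt ℝ (fun p : ℝ × ℝ => B p.2) (0, x0) :=
      (hB x0).comp_of_eq (f := Prod.snd) analyticAt_snd rfl
    have hden : AnalyticAt ℝ (fun p : ℝ × ℝ => A p.2 + B p.2 * p.1 ^ 2) (0, x0) :=
      hA2.add (hB2.mul (analyticAt_fst.pow 2))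
    obtain ⟨G, hG, hG1, hG2⟩ := hAF (fun p => -p.1 ^ 2 / (A p.2 + B p.2 * p.1 ^ 2)) (0, x0)
      ((analyticAt_fst.pow 2).neg.div hden (by simpa using hA0))
    have hall := hG.eventually_analyticAt.and (hG2.and ((loc_sign (loc_cont hG (0, 1)) hG1).and
      ((loc_sign hden.continuousAt (by simpa using hA0)).and (loc_sign hA2.continuousAt hA0))))
    have hsw : Tendsto Prod.swap (𝓝 (x0, (0 : ℝ))) (𝓝 ((0 : ℝ), x0)) :=
      continuous_swap.continuousAt
    refine ⟨fun p => G p.swap, loc_core (s := fderiv ℝ G (0, x0) (0, 1) * A x0) ?_⟩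
    filter_upwards [hsw.eventually hall] with p hp
    obtain ⟨x, u⟩ := p
    obtain ⟨h1, h2, h3, h4, h5⟩ := hp
    simp only [Prod.swap_prod_mk] at h1 h2 h3 h4 h5
    have hf : ∀ a b : ℝ, fderiv ℝ (fun p : ℝ × ℝ => G p.swap) (x, u) (a, b) =
        fderiv ℝ G (u, x) (b, a) := by
      intro a b
      have := (h1.differentiableAt.hasFDerivAt.comp (f := fun p : ℝ × ℝ => (p.2, p.1)) (x, u)
        (hasFDerivAt_snd.prodMk hasFDerivAt_fst)).fderiv
      exact congrArg (· (a, b)) this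
    have h4' : 0 < A x0 * (A x + B x * u ^ 2) := by simpa using h4
    have hd : A x + B x * u ^ 2 ≠ 0 := fun h => by
      rw [h, mul_zero] at h4'; exact lt_irrefl _ h4'
    rw [loc_lin] at h2
    have h6 : fderiv ℝ G (u, x) (1, 0) =
        u ^ 2 / (A x + B x * u ^ 2) * fderiv ℝ G (u, x) (0, 1) := by
      rw [neg_div] at h2; linarith
    refine ⟨h1.comp_of_eq (f := fun p : ℝ × ℝ => (p.2, p.1))
      (analyticAt_snd.prod analyticAt_fst) rfl, fun hu => ?_, fun hu => ?_, fun _ => h5⟩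
    · have hu' : u ≠ 0 := hu
      rw [hf, h6]
      have e : fderiv ℝ G (0, x0) (0, 1) * A x0 *
          (u ^ 2 / (A x + B x * u ^ 2) * fderiv ℝ G (u, x) (0, 1)) =
          u ^ 2 * (fderiv ℝ G (0, x0) (0, 1) * fderiv ℝ G (u, x) (0, 1)) *
            (A x0 * (A x + B x * u ^ 2)) / (A x + B x * u ^ 2) ^ 2 := by
        field_simp
      rw [e]
      positivity
    · have hu' : u ≠ 0 := hu
      rw [hf, loc_lin, h6]
      field_simp
      ring
  · have hA1 : AnalyticAt ℝ (fun p : ℝ × ℝ => A p.1) (x0, u0) :=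
      (hA x0).comp_of_eq (f := Prod.fst) analyticAt_fst rfl
    have hB1 : AnalyticAt ℝ (fun p : ℝ × ℝ => B p.1) (x0, u0) :=
      (hB x0).comp_of_eq (f := Prod.fst) analyticAt_fst rfl
    obtain ⟨H, hH, hH1, hH2⟩ := hAF (fun p => -B p.1 - A p.1 / p.2 ^ 2) (x0, u0)
      (hB1.neg.sub (hA1.div (analyticAt_snd.pow 2) (pow_ne_zero 2 hu)))
    refine ⟨H, loc_core (s := fderiv ℝ H (x0, u0) (0, 1)) ?_⟩
    have hne : ∀ᶠ p : ℝ × ℝ in 𝓝 (x0, u0), p.2 ≠ 0 := continuousAt_snd.eventually_ne hu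
    filter_upwards [hH.eventually_analyticAt, hH2, loc_sign (loc_cont hH (0, 1)) hH1, hne]
      with p h1 h2 h3 h4
    exact ⟨h1, fun _ => h3, fun _ => h2, fun h => absurd h h4⟩

end Pool.Agent.MP_c2f0e4_an
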