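import Pool.Agent.MP_c2f0e4_an.Iface

open Set Filter Topology Real Asymptotics

namespace Pool.Agent.MP_c2f0e4_an

lemma main_concl_zero (a0 a2 b : ℝ) : Concl (Cub a0 0 a2 0) (Lin b 0) :=
  Or.inr ⟨_, rev_pi_div_two a0 a2 b⟩

/-- the normalised frame `B = b cos`, `a3 ≥ 0` -/
lemma main_frame (hMax : MaxStmt) (hPole : PoleStmt) (hRed : RedStmt) (hSingle : SingleStmt)
    (hDbl : DblFinStmt) (hTpl : TplFinStmt) (hC2 : C2Stmt) (hC3 : C3Stmt) (hM2 : Mono2Stmt)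
    (hM3 : Mono3Stmt) (hN2 : Non2Stmt) (hN3 : Non3Stmt) (a0 a1 a2 a3 b : ℝ) (hb : b ≠ 0)
    (h3 : 0 ≤ a3) (hA : ∃ x, Cub a0 a1 a2 a3 x ≠ 0) (hF : Fam (Cub a0 a1 a2 a3) (Lin b 0)) :
    Concl (Cub a0 a1 a2 a3) (Lin b 0) := by
  have hc : IsCub (Cub a0 a1 a2 a3) := ⟨_, _, _, _, rfl⟩
  have hl : IsLin (Lin b 0) := ⟨_, _, rfl⟩
  have hS := sys_of hc hl
  by_cases h0 : a1 = 0 ∧ a3 = 0
  · obtain ⟨rfl, rfl⟩ := h0
    exact main_concl_zero a0 a2 b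
  rcases hMax _ _ hS hF with hP | hC
  · exact absurd (hPole a0 a1 a2 a3 b hb hP) h0
  by_cases hs : Simple (Cub a0 a1 a2 a3)
  · obtain ⟨V, U, hT, h⟩ := hRed _ _ hc hl hs hC
    have hcase : ((0 < a3 ∧ a1 ≤ 2 * a3) ∨ (a3 = 0 ∧ a1 ≠ 0)) ∨ (0 < a3 ∧ 2 * a3 < a1) := by
      rcases h3.eq_or_lt with h | h
      · exact Or.inl (Or.inr ⟨h.symm, fun h1 => h0 ⟨h1, h.symm⟩⟩)
      · rcases le_or_gt a1 (2 * a3) with h1 | h1
        · exact Or.inl (Or.inl ⟨h, h1⟩)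
        · exact Or.inr ⟨h, h1⟩
    rcases h with ⟨z, hz⟩ | ⟨z1, z2, hz⟩ | ⟨z1, z2, z3, hz⟩
    · exact hSingle _ _ V U z hc hl hT hz (hs z hz.1.1)
    · have hR := hC2 _ _ V U z1 z2 hS.anA hS.anB hT hS.perA hz
      rcases hcase with h | h
      · exact absurd hR (hM2 a0 a1 a2 a3 b z1 z2 V hb h hz)
      · exact absurd hR (hN2 a0 a1 a2 a3 b z1 z2 V hb h.1 h.2 hT.solV hT.perV hz)
    · have hR := hC3 _ _ V U z1 z2 z3 hS.anA hS.anB hT hS.perA hz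
      rcases hcase with h | h
      · exact absurd hR (hM3 a0 a1 a2 a3 b z1 z2 z3 V hb h hz)
      · exact absurd hz (hN3 a0 a1 a2 a3 b z1 z2 z3 V h.1 (by linarith [h.1, h.2]) hT.solV hT.perV)
  · simp only [Simple, not_forall, not_not] at hs
    obtain ⟨d, hd0, hd1⟩ := hs
    obtain ⟨K, hK⟩ := hc.shift_eq d
    rw [hd0, hd1] at hK
    have hB := hl.shift_eq d
    have hC' := hC.shift d
    refine Concl.of_shift (c := d) ?_
    rw [hK, hB] at hC' ⊢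
    generalize (deriv (deriv (Cub a0 a1 a2 a3)) d + 3 * 0) / 2 = a at hK hC' ⊢
    by_cases ha : a = 0
    · subst ha
      refine hTpl K _ _ (fun h => ?_) hC'
      subst h
      obtain ⟨x, hx⟩ := hA
      have := congrFun hK (x - d)
      simp only [sub_add_cancel] at this
      exact hx (by rw [this]; simp [Cub])
    · exact hDbl a K _ _ ha hC'

theorem mainS (hMax : MaxStmt) (hPole : PoleStmt) (hRed : RedStmt) (hSingle : SingleStmt)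
    (hDbl : DblFinStmt) (hTpl : TplFinStmt) (hC2 : C2Stmt) (hC3 : C3Stmt) (hM2 : Mono2Stmt)
    (hM3 : Mono3Stmt) (hN2 : Non2Stmt) (hN3 : Non3Stmt) : MainStmt := by
  intro A B hA hB hne hF
  by_cases hB0 : ∀ x, B x = 0
  · exact Or.inl hB0
  -- rotate so that `B = b cos`
  obtain ⟨c, hc1, hc2⟩ : ∃ c, deriv B c = 0 ∧ B c ≠ 0 := by
    obtain ⟨b1, b2, rfl⟩ := hB
    have hne' : (⟨b1, b2⟩ : ℂ) ≠ 0 := by
      intro h
      have h1 : b1 = 0 := congrArg Complex.re h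
      have h2 : b2 = 0 := congrArg Complex.im h
      exact hB0 fun x => by simp [Lin, h1, h2]
    have hn : ‖(⟨b1, b2⟩ : ℂ)‖ ≠ 0 := norm_ne_zero_iff.2 hne'
    have hcos := Complex.cos_arg hne'
    have hsin := Complex.sin_arg (⟨b1, b2⟩ : ℂ)
    have hsq : ‖(⟨b1, b2⟩ : ℂ)‖ ^ 2 = b1 * b1 + b2 * b2 := by
      rw [Complex.sq_norm, Complex.normSq_mk]
    refine ⟨Complex.arg ⟨b1, b2⟩, ?_, ?_⟩
    · rw [Lin.deriv, Lin, hcos, hsin]; ring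
    · rw [Lin, hcos, hsin]
      have : b1 * (b1 / ‖(⟨b1, b2⟩ : ℂ)‖) + b2 * (b2 / ‖(⟨b1, b2⟩ : ℂ)‖) = ‖(⟨b1, b2⟩ : ℂ)‖ := by
        field_simp
        linarith
      simpa only [this] using hn
  refine Concl.of_shift (c := c) ?_
  have hF' := hF.shift c
  have hB' := hB.shift_eq c
  obtain ⟨a0, a1, a2, a3, hA'⟩ := hA.shift c
  have hne' : ∃ x, Cub a0 a1 a2 a3 x ≠ 0 := by
    obtain ⟨x, hx⟩ := hne
    refine ⟨x - c, ?_⟩
    rw [← hA']; simpa using hx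
  rw [hc1] at hB'
  rw [hA', hB'] at hF' ⊢
  rcases le_total 0 a3 with h3 | h3
  · exact main_frame hMax hPole hRed hSingle hDbl hTpl hC2 hC3 hM2 hM3 hN2 hN3 _ _ _ _ _ hc2 h3
      hne' hF'
  · refine Concl.of_refl (c := π) ?_
    have hF2 := hF'.refl π
    rw [Cub.refl_pi, Lin.refl_pi, neg_zero] at hF2 ⊢
    refine main_frame hMax hPole hRed hSingle hDbl hTpl hC2 hC3 hM2 hM3 hN2 hN3 _ _ _ _ _ hc2
      (by linarith) ?_ hF2
    obtain ⟨x, hx⟩ := hne'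
    refine ⟨π - x, ?_⟩
    rw [← Cub.refl_pi]; simpa using hx

end Pool.Agent.MP_c2f0e4_an
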