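import Pool.Agent.MP_c2f0e4_an.Iface

open Set Filter Topology Real Asymptotics

namespace Pool.Agent.MP_c2f0e4_an

variable {A B : ℝ → ℝ}

lemma max_uniq (hUniq : UniqStmt) (hs : Sys A B) {U V : ℝ → ℝ} (hU : Sol A B U) (hV : GP A B V)
    {x0 : ℝ} (h : U x0 = V x0) (x : ℝ) : U x = V x :=
  hUniq A B U V hs.anA hs.anB hU hV.1 (min x x0) (max x x0) x0
    ⟨min_le_right _ _, le_max_right _ _⟩ (fun y _ => hV.2.1 y (mem_univ _)) h x
    ⟨min_le_left _ _, le_max_left _ _⟩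

lemma max_lt (hUniq : UniqStmt) (hs : Sys A B) {U V : ℝ → ℝ} (hU : Sol A B U) (hV : GP A B V)
    {x0 : ℝ} (h : U x0 < V x0) (x : ℝ) : U x < V x := by
  by_contra hc
  obtain ⟨y, hy⟩ := intermediate_value_univ₂ hU.1 hV.1.1 h.le (not_lt.1 hc)
  exact h.ne (max_uniq hUniq hs hU hV hy x0)

lemma max_sign (hDep : DepStmt) (hs : Sys A B) {S : ℝ → ℝ → ℝ} {x0 p Q : ℝ}
    (hS : ∀ u ∈ Ioo p Q, GP A B (S u)) (hS0 : ∀ u ∈ Ioo p Q, S u x0 = u) {z : ℝ} (hz : A z = 0)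
    {u u' : ℝ} (hu : u ∈ Ioo p Q) (hu' : u' ∈ Ioo p Q) (h : S u z < 0) : S u' z < 0 := by
  have hc : ContinuousOn (fun u => S u z) (Ioo p Q) := by
    refine Metric.continuousOn_iff.2 fun v hv η hη => ?_
    obtain ⟨δ, hδ, h1⟩ := hDep A B (S v) hs.anA hs.anB (hS v hv).1 (min z x0) (max z x0) x0
      ⟨min_le_right _ _, le_max_right _ _⟩ (fun y _ => (hS v hv).2.1 y (mem_univ _)) η hη
    refine ⟨δ, hδ, fun w hw hwv => ?_⟩
    rw [Real.dist_eq] at hwv ⊢
    exact h1 (S w) (hS w hw).1 (by rwa [hS0 w hw, hS0 v hv]) z ⟨min_le_left _ _, le_max_left _ _⟩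
  by_contra hn
  obtain ⟨w, hw, hw0⟩ := isPreconnected_Ioo.intermediate_value hu hu' hc ⟨h.le, not_lt.1 hn⟩
  exact (hS w hw).2.1 z (mem_univ _) hz hw0

lemma max_good {V : ℝ → ℝ} (hA : Continuous A) (hV : Continuous V) {a b : ℝ}
    (h : GoodOn A V (Icc a b)) :
    ∃ η > 0, ∀ U : ℝ → ℝ, (∀ x ∈ Icc a b, |U x - V x| < η) → GoodOn A U (Icc a b) := by
  obtain ⟨η, hη, h1⟩ := (isCompact_Icc (a := a) (b := b)).exists_forall_le'
    (f := fun x => |A x| + |V x|) (by fun_prop) (a := 0) (fun x hx => by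
      by_cases h0 : A x = 0
      · have := abs_pos.2 (h x hx h0); positivity
      · have := abs_pos.2 h0; positivity)
  refine ⟨η, hη, fun U hU x hx h0 hU0 => ?_⟩
  have h2 := hU x hx
  have h3 := h1 x hx
  simp only [h0, hU0, abs_zero, zero_add, zero_sub, abs_neg] at h2 h3
  linarith

/-- a good periodic solution approximated by periodic solutions lies inside a family -/
lemma max_open (hExist : ExistStmt) (hDep : DepStmt) (hTransit : TransitStmt) (hExt : ExtStmt)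
    (hs : Sys A B) {V : ℝ → ℝ} {U : ℕ → ℝ → ℝ} (h : Top0 A B V U) (hV : GP A B V)
    (hU : ∀ n, Function.Periodic (U n) (2 * π)) (x0 : ℝ) :
    ∃ δ > 0, ∀ u, |u - V x0| < δ → ∃ W, GP A B W ∧ W x0 = u := by
  obtain ⟨x1, hx1⟩ : ∃ x1, V x1 ≠ 0 := by
    by_contra hc
    push Not at hc
    have h1 := hV.1.2 0
    simp only [hc] at h1
    have h2 := h1.unique (hasDerivAt_const (0 : ℝ) ((0 : ℝ) ^ 3))
    exact hV.2.1 0 (mem_univ _) (by linarith) (hc 0)
  have hpi : x1 ≤ x1 + 2 * π := by linarith [pi_pos]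
  have hg : ∀ s, GoodOn A V s := fun s y _ => hV.2.1 y (mem_univ _)
  obtain ⟨R, hR, -, -, η, hη, hT⟩ := hTransit A B V hs.anA hs.anB hV.1 x1 (x1 + 2 * π) hpi
    (hg _) hx1 (by rwa [hV.2.2])
  have h1 : ∀ᶠ n in atTop, R (U n x1) = U n x1 := by
    filter_upwards [Metric.tendstoUniformly_iff.1 h.unif η hη] with n hn
    rw [← hT (U n) (h.solU n) fun x _ => by
      rw [abs_sub_comm, ← Real.dist_eq]; exact hn x, hU n]
  have h2 : Tendsto (fun n => U n x1) atTop (𝓝[≠] (V x1)) :=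
    tendsto_nhdsWithin_iff.2 ⟨h.tendsto x1, Eventually.of_forall fun n => (h.lt n x1).ne⟩
  have h3 : ∀ᶠ y in 𝓝 (V x1), R y = id y :=
    (hR.frequently_eq_iff_eventually_eq analyticAt_id).1 (h2.frequently h1.frequently)
  obtain ⟨ε, hε, h4⟩ := Metric.eventually_nhds_iff.1 h3
  obtain ⟨η1, hη1, h5⟩ := max_good hs.anA.continuous hV.1.1 (hg (Icc x1 (x1 + 2 * π)))
  obtain ⟨δ, hδ, h6⟩ := hDep A B V hs.anA hs.anB hV.1 (min x0 x1) (max x0 (x1 + 2 * π)) x0
    ⟨min_le_left _ _, le_max_left _ _⟩ (hg _) (min η (min ε η1)) (by positivity)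
  refine ⟨δ, hδ, fun u hu => ?_⟩
  obtain ⟨W, hW, hW0⟩ := hExist A B hs.anA.continuous hs.anB.continuous x0 u
  have h7 : ∀ x ∈ Icc x1 (x1 + 2 * π), |W x - V x| < min η (min ε η1) := fun x hx =>
    h6 W hW (by rwa [hW0]) x ⟨(min_le_right _ _).trans hx.1, hx.2.trans (le_max_right _ _)⟩
  simp only [lt_min_iff] at h7
  refine ⟨W, hExt A B W hs hW x1 (h5 W fun x hx => (h7 x hx).2.2) ?_, hW0⟩
  rw [hT W hW fun x hx => (h7 x hx).1]
  exact h4 (by rw [Real.dist_eq]; exact (h7 x1 (left_mem_Icc.2 hpi)).2.1)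

lemma max_upper (hUniq : UniqStmt) (hBound : BoundStmt) (hLim : LimStmt) (hExist : ExistStmt)
    (hDep : DepStmt) (hTransit : TransitStmt) (hExt : ExtStmt) (hs : Sys A B) (hP : ¬ Pole A B)
    {x0 p q : ℝ} (hpq : p < q) (hF : ∀ u ∈ Ioo p q, ∃ U, GP A B U ∧ U x0 = u) :
    ∃ V U, Top A B V U ∧ ∀ W, GP A B W → W x0 ∈ Ioo p q → ∀ z, A z = 0 →
      (U 0 z < 0 ↔ W z < 0) := by
  obtain ⟨M, hM⟩ : ∃ M, ∀ U, GP A B U → |U x0| < M := by
    by_contra hc
    push Not at hc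
    exact hP ⟨x0, hc⟩
  set T : Set ℝ := {q' | ∀ u ∈ Ioo p q', ∃ U, GP A B U ∧ U x0 = u} with hT
  have hqT : q ∈ T := hF
  have hbd : BddAbove T := by
    refine ⟨max p M, fun q' hq' => ?_⟩
    by_contra hc
    obtain ⟨u, hu1, hu2⟩ := exists_between (not_le.1 hc)
    obtain ⟨U, hU, rfl⟩ := hq' u ⟨(le_max_left _ _).trans_lt hu1, hu2⟩
    linarith [hM U hU, le_abs_self (U x0), le_max_right p M]
  set Q := sSup T with hQ
  have hqQ : q ≤ Q := le_csSup hbd hqT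
  have hpQ : p < Q := hpq.trans_le hqQ
  have hG : ∀ u ∈ Ioo p Q, ∃ U, GP A B U ∧ U x0 = u := fun u hu => by
    obtain ⟨q', hq', h1⟩ := exists_lt_of_lt_csSup ⟨q, hqT⟩ hu.2
    exact hq' u ⟨hu.1, h1⟩
  choose! S hS hS0 using hG
  set u : ℕ → ℝ := fun n => Q - (Q - p) / ((n : ℝ) + 2) with hu
  have hd : 0 < Q - p := sub_pos.2 hpQ
  have hum : ∀ n, u n ∈ Ioo p Q := fun n => by
    have h1 : (Q - p) / ((n : ℝ) + 2) < Q - p :=
      div_lt_self hd (by linarith [Nat.cast_nonneg (α := ℝ) n])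
    have h2 : 0 < (Q - p) / ((n : ℝ) + 2) := by positivity
    exact ⟨by simp only [hu]; linarith, by simp only [hu]; linarith⟩
  have hmono : StrictMono u := fun m n hmn => by
    have h1 : (m : ℝ) < n := by exact_mod_cast hmn
    exact sub_lt_sub_left (div_lt_div_of_pos_left hd (by positivity) (by linarith)) _
  have hlim : Tendsto u atTop (𝓝 Q) := by
    have h1 : Tendsto (fun n : ℕ => (Q - p) / ((n : ℝ) + 2)) atTop (𝓝 0) :=
      tendsto_const_nhds.div_atTop (tendsto_atTop_add_const_right _ _ tendsto_natCast_atTop_atTop)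
    simpa using h1.const_sub Q
  set U : ℕ → ℝ → ℝ := fun n => S (u n) with hU
  have hUG : ∀ n, GP A B (U n) := fun n => hS _ (hum n)
  have hU0 : ∀ n, U n x0 = u n := fun n => hS0 _ (hum n)
  have hUm : ∀ x, StrictMono fun n => U n x := fun x m n hmn =>
    max_lt hUniq hs (hUG m).1 (hUG n) (x0 := x0) (by rw [hU0, hU0]; exact hmono hmn) x
  have hUb : ∀ x, BddAbove (range fun n => U n x) := fun x => by
    obtain ⟨M', h1⟩ := hBound A B hs.anA.continuous hs.anB.continuous (min x x0) (max x x0) M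
    refine ⟨M', ?_⟩
    rintro _ ⟨n, rfl⟩
    exact (le_abs_self _).trans (h1 _ (hUG n).1 x0 ⟨min_le_right _ _, le_max_right _ _⟩
      (hM _ (hUG n)).le x ⟨min_le_left _ _, le_max_left _ _⟩)
  set V : ℝ → ℝ := fun x => ⨆ n, U n x with hV
  have hVl : ∀ x, Tendsto (fun n => U n x) atTop (𝓝 (V x)) := fun x =>
    tendsto_atTop_ciSup (hUm x).monotone (hUb x)
  obtain ⟨hVs, hVu⟩ := hLim A B hs.anA.continuous hs.anB.continuous atTop U V inferInstance
    (fun n => (hUG n).1) hVl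
  have hVp : Function.Periodic V (2 * π) := fun x => by
    simp only [hV, fun n => (hUG n).2.2 x]
  have hT0 : Top0 A B V U := by
    refine ⟨hVs, fun n => (hUG n).1, fun n x =>
      (hUm x (Nat.lt_succ_self n)).trans_le (le_ciSup (hUb x) (n + 1)), ?_⟩
    refine Metric.tendstoUniformly_iff.2 fun ε hε => ?_
    filter_upwards [Metric.tendstoUniformlyOn_iff.1 (hVu 0 (2 * π)) ε hε] with n hn x
    have hp : Function.Periodic (fun x => dist (V x) (U n x)) (2 * π) := fun x => by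
      simp only [hVp x, (hUG n).2.2 x]
    obtain ⟨y, hy, e⟩ := hp.exists_mem_Ico₀ two_pi_pos x
    exact e.trans_lt (hn y (Ico_subset_Icc_self hy))
  have hV0 : V x0 = Q := tendsto_nhds_unique (hVl x0) (by simpa only [hU0] using hlim)
  refine ⟨V, U, ⟨hT0, hVp, fun n => (hUG n).2.2, fun n => (hUG n).2.1, fun z hz n =>
    ⟨max_sign hDep hs hS hS0 hz (hum n) (hum 0), max_sign hDep hs hS hS0 hz (hum 0) (hum n)⟩,
    ?_⟩, fun W hW hW0 z hz => ?_⟩
  · by_contra hc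
    have hVG : GP A B V := ⟨hVs, fun z _ hz h0 => hc ⟨z, hz, h0⟩, hVp⟩
    obtain ⟨δ, hδ, h1⟩ := max_open hExist hDep hTransit hExt hs hT0 hVG (fun n => (hUG n).2.2) x0
    have h2 : Q + δ ∈ T := fun w hw => by
      by_cases h3 : w < Q
      · exact ⟨S w, hS w ⟨hw.1, h3⟩, hS0 w ⟨hw.1, h3⟩⟩
      · refine h1 w ?_
        rw [hV0, abs_lt]
        constructor <;> linarith [hw.2, not_lt.1 h3]
    linarith [le_csSup hbd h2]
  · have h1 : W x0 ∈ Ioo p Q := ⟨hW0.1, hW0.2.trans_le hqQ⟩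
    rw [max_uniq hUniq hs hW.1 (hS _ h1) (hS0 _ h1).symm z]
    exact ⟨max_sign hDep hs hS hS0 hz (hum 0) h1, max_sign hDep hs hS hS0 hz h1 (hum 0)⟩

theorem maxS (hUniq : UniqStmt) (hBound : BoundStmt) (hLim : LimStmt) (hExist : ExistStmt) (hDep : DepStmt) (hTransit : TransitStmt) (hExt : ExtStmt) : MaxStmt := by
  rintro A B hs ⟨x0, p, q, hpq, hF⟩
  refine or_iff_not_imp_left.2 fun hP => ?_
  obtain ⟨V, U, h1, h2⟩ := max_upper hUniq hBound hLim hExist hDep hTransit hExt hs hP hpq hF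
  obtain ⟨V2, U2, h3, h4⟩ := max_upper hUniq hBound hLim hExist hDep hTransit hExt hs hP
    (x0 := x0 - π) (neg_lt_neg hpq) fun u hu => by
      obtain ⟨W, hW, hW0⟩ := hF (-u) ⟨by linarith [hu.2], by linarith [hu.1]⟩
      exact ⟨_, hW.sigma hs, by simp [hW0]⟩
  refine ⟨V, U, V2, U2, h1, h3, fun z hz => ?_⟩
  obtain ⟨W, hW, hW0⟩ := hF ((p + q) / 2) ⟨by linarith, by linarith⟩
  have hz' : A (z + π) = 0 := by rw [hs.antiA, hz, neg_zero]
  have h5 := h2 W hW (by rw [hW0]; exact ⟨by linarith, by linarith⟩) _ hz'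
  have h6 := h4 _ (hW.sigma hs)
    (by simp only [sub_add_cancel, hW0]; exact ⟨by linarith, by linarith⟩) z hz
  have h7 := hW.2.1 _ (mem_univ _) hz'
  have h8 := h1.good 0 _ (mem_univ _) hz'
  rw [h6, neg_lt_zero]
  constructor
  · intro h
    exact lt_of_le_of_ne (not_lt.1 fun h' => lt_asymm h (h5.1 h')) h8.symm
  · intro h
    exact lt_of_le_of_ne (not_lt.1 fun h' => lt_asymm h (h5.2 h')) h7.symm

end Pool.Agent.MP_c2f0e4_an
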