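import Pool.Agent.MP_c2f0e4_an.Iface

open Set Filter Topology Real Asymptotics

namespace Pool.Agent.MP_c2f0e4_an

lemma modelf_icc {p : ℝ → Prop} (h : ∀ᶠ x in 𝓝 (0 : ℝ), p x) :
    ∃ d : ℝ, 0 < d ∧ ∀ x ∈ Icc (-d) d, p x := by
  obtain ⟨d, hd, h1⟩ := Metric.nhds_basis_closedBall.eventually_iff.1 h
  refine ⟨d, hd, fun x hx => h1 ?_⟩
  rw [mem_closedBall_zero_iff, Real.norm_eq_abs]
  exact abs_le.2 hx

lemma modelf_inv {V : ℝ → ℝ} (hV : AnalyticAt ℝ V 0) (h0 : V 0 = 0) (h1 : deriv V 0 ≠ 0) :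
    ∃ h : ℝ → ℝ, AnalyticAt ℝ h 0 ∧ h 0 = 0 ∧ (∀ᶠ y in 𝓝 (0 : ℝ), V (h y) = y) ∧
      ∀ᶠ x in 𝓝 (0 : ℝ), h (V x) = x := by
  have ha := hV.analyticAt_localInverse h1
  have hl := hV.hasStrictDerivAt.eventually_left_inverse h1
  have hr := hV.hasStrictDerivAt.eventually_right_inverse h1
  have h2 := hl.self_of_nhds
  rw [h0] at ha hr h2
  exact ⟨_, ha, h2, hr, hl⟩

theorem modelS : ModelStmt := by
  intro A B V κ U hB hT hκ hκ0 hV
  have hVa : AnalyticAt ℝ V 0 := (analyticAt_id.mul hκ).congr (hV.mono fun x hx => hx.symm)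
  have hV0 : V 0 = 0 := by simpa using hV.self_of_nhds
  have hV1 : deriv V 0 ≠ 0 := by
    have h1 := ((hasDerivAt_id (0 : ℝ)).mul hκ.differentiableAt.hasDerivAt).congr_of_eventuallyEq hV
    rw [h1.deriv]
    simpa using hκ0.ne
  obtain ⟨h, ha, h0, hr, hl⟩ := modelf_inv hVa hV0 hV1
  have ht : Tendsto h (𝓝 0) (𝓝 0) := by simpa only [ContinuousAt, h0] using ha.continuousAt
  have htV : Tendsto V (𝓝 0) (𝓝 0) := by simpa only [ContinuousAt, hV0] using hVa.continuousAt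
  have h1 : ∀ᶠ y in 𝓝 (0 : ℝ), |h y| < 1 := ht.abs.eventually_lt_const (by simp)
  obtain ⟨d, hd, hall⟩ := modelf_icc (ha.eventually_analyticAt.and (hr.eventually_nhds.and
    (h1.and ((ht.eventually hV).and
      (ht.eventually (hκ.continuousAt.eventually_lt_const hκ0))))))
  refine ⟨fun y => B (h y) * deriv h y, h, d, ⟨hd, ?_, fun n y hy => ?_, fun n y hy => ?_, ?_⟩,
    fun y hy => ?_, ?_⟩
  · exact ((h0.symm ▸ hB : AnalyticAt ℝ B (h 0)).comp ha).mul ha.deriv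
  · obtain ⟨e1, e2, -⟩ := hall y hy
    have d1 := e1.differentiableAt.hasDerivAt
    have d2 := (hT.solV.2 (h y)).comp y d1
    have d3 : HasDerivAt ((fun z => V z ^ 3) ∘ h) (3 * y ^ 2) y := by
      refine HasDerivAt.congr_of_eventuallyEq (f := fun z => z ^ 3) ?_
        (e2.mono fun z hz => by simp [hz])
      simpa using hasDerivAt_pow 3 y
    have d4 := d2.unique d3
    rw [e2.self_of_nhds] at d4
    refine HasDerivAt.congr_deriv (f' := _) (((hT.solU n).2 (h y)).comp y d1) ?_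
    linear_combination d4
  · exact (hT.lt n _).trans_eq (hall y hy).2.1.self_of_nhds
  · exact (hT.unif.comp h).tendstoUniformlyOn.congr_right fun y hy =>
      (hall y hy).2.1.self_of_nhds
  · obtain ⟨-, e2, e3, e4, e5⟩ := hall y hy
    refine ⟨e2.self_of_nhds, e3, fun hy0 => ?_⟩
    rw [e2.self_of_nhds] at e4
    have e6 : h y ≠ 0 := fun h' => hy0 (by rw [e4, h', zero_mul])
    nth_rewrite 1 [e4]
    nlinarith [mul_pos (neg_pos.2 e5) (sq_pos_of_ne_zero e6)]
  · filter_upwards [hVa.eventually_analyticAt, htV.eventually ha.eventually_analyticAt,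
      hl.eventually_nhds] with x e1 e2 e3
    have d1 := e2.differentiableAt.hasDerivAt.comp x e1.differentiableAt.hasDerivAt
    have d2 : HasDerivAt (h ∘ V) 1 x := (hasDerivAt_id x).congr_of_eventuallyEq e3
    rw [e3.self_of_nhds, mul_assoc, d1.unique d2, mul_one]

lemma modelf_ineq {z m L : ℝ} (hz : 0 < z) (hL : 0 ≤ L) (hzL : 7 * (1 + L) * z ≤ 1)
    (hm : 3 - m ≤ L * z ^ 2) : (1 + m) - m * (-2 + z) ^ 2 < (-2 + z + z / 2) * (-2 + z) ^ 2 := by
  have h1 : z ≤ 1 / 7 := by nlinarith [mul_nonneg hL hz.le]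
  have h2 : (3 - m) * (1 - z) ≤ L * z ^ 2 := by
    have := mul_le_mul_of_nonneg_right hm (show 0 ≤ 1 - z by linarith)
    nlinarith [mul_nonneg (mul_nonneg hL (sq_nonneg z)) hz.le]
  have h3 : (3 - z) * (z ^ 2 + (3 - m) * (1 - z)) ≤ 3 * ((1 + L) * z ^ 2) := by
    have := mul_le_mul_of_nonneg_left h2 (show 0 ≤ 3 - z by linarith)
    nlinarith [mul_nonneg (mul_nonneg hL (sq_nonneg z)) hz.le, mul_nonneg (sq_nonneg z) hz.le]
  have h4 : (1 + L) * z ^ 2 ≤ z / 7 := by nlinarith [mul_le_mul_of_nonneg_right hzL hz.le]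
  have h5 : z / 2 * 1 ≤ z / 2 * (-2 + z) ^ 2 :=
    mul_le_mul_of_nonneg_left (by nlinarith) (by linarith)
  nlinarith

theorem barS : BarStmt := by
  intro m d0 u hM
  by_contra hc
  obtain ⟨L, hL, hb⟩ := hM.an.differentiableAt.isBigO_sub.exists_nonneg
  obtain ⟨d1, hd1, h1⟩ := modelf_icc hb.bound
  have hd0 := hM.dpos
  obtain ⟨d, hd, e0, e1, e2⟩ : ∃ d : ℝ, 0 < d ∧ d ≤ d0 ∧ d ≤ d1 ∧ d ≤ (1 / (7 * (1 + L))) ^ 2 :=
    ⟨min d0 (min d1 _), by positivity, min_le_left _ _,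
      (min_le_right _ _).trans (min_le_left _ _), (min_le_right _ _).trans (min_le_right _ _)⟩
  have hs : ∀ x ∈ Icc 0 d, x ∈ Icc (-d0) d0 := fun x hx => ⟨by linarith [hx.1], hx.2.trans e0⟩
  have hz : ∀ x ∈ Icc 0 d, 7 * (1 + L) * √x ≤ 1 := fun x hx => by
    rw [← le_div_iff₀' (by positivity)]
    exact Real.sqrt_le_iff.2 ⟨by positivity, hx.2.trans e2⟩
  have key : ∀ n, u n d ≤ 0 := by
    intro n
    have h0 : u n 0 < 0 := hM.lt n 0 (hs 0 ⟨le_rfl, hd.le⟩)
    have h2 := pos_of_deriv_pos_at_zeros (f := fun x => (-2 + √x) * x - u n x) (a := 0) (b := d)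
      (ContinuousOn.sub (by fun_prop) fun x hx =>
        (continuousAt_of_cube (hM.ode n x (hs x hx)).continuousAt).continuousWithinAt)
      (by simpa using h0.le) (fun x hx hf => by
        have hx0 : 0 < x := hx.1.lt_of_ne fun h' => by
          rw [← h'] at hf; simp at hf; linarith
        have hr := Real.sqrt_pos.2 hx0
        have hsq : x = √x ^ 2 := (Real.sq_sqrt hx.1).symm
        have hu : u n x = (-2 + √x) * x := by linarith
        have hv : -2 + √x < 0 := by nlinarith [hz x hx, mul_nonneg hL hr.le]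
        have hu0 : u n x ≠ 0 := by rw [hu]; exact (mul_neg_of_neg_of_pos hv hx0).ne
        refine ⟨_, (((hasDerivAt_sqrt hx0.ne').const_add (-2)).mul (hasDerivAt_id x)).sub
          (hasDerivAt_of_cube (hM.ode n x (hs x hx)) hu0), ?_⟩
        have h3 := h1 x ⟨by linarith, hx.2.trans e1⟩
        rw [sub_zero, Real.norm_eq_abs, Real.norm_of_nonneg hx.1] at h3
        have h4 := modelf_ineq (m := m x) hr hL (hz x hx) (by
          rw [← hsq]; linarith [(abs_le.1 h3).1])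
        have h5 : 1 / (2 * √x) * x = √x / 2 := by
          nth_rewrite 2 [hsq]; field_simp
        rw [sub_pos, div_lt_iff₀ (by positivity), id, h5, hu]
        nlinarith [mul_lt_mul_of_pos_right h4 (pow_pos hx0 2)]) d ⟨hd, le_rfl⟩
    have hv : -2 + √d < 0 := by
      nlinarith [hz d ⟨hd.le, le_rfl⟩, mul_nonneg hL (Real.sqrt_nonneg d)]
    nlinarith [mul_neg_of_neg_of_pos hv hd]
  exact absurd (le_of_tendsto' (hM.unif.tendsto_at (hs d ⟨hd.le, le_rfl⟩)) key) (not_le.2 hd)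

end Pool.Agent.MP_c2f0e4_an
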