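import Pool.Agent.MP_c2f0e4_an.Iface

open Set Filter Topology Real Asymptotics

namespace Pool.Agent.MP_c2f0e4_an

lemma mono_sin {a0 a1 a2 a3 x y : ℝ} (h1 : x < y) (h2 : y < x + 2 * π)
    (hx : deriv (Cub a0 a1 a2 a3) x < 0) (hy : deriv (Cub a0 a1 a2 a3) y < 0) :
    sin y * cos x ≠ cos y * sin x := by
  intro h
  have h3 : sin (y - x - π) = 0 := by rw [sin_sub_pi, sin_sub, h, sub_self, neg_zero]
  have h4 := (sin_eq_zero_iff_of_lt_of_lt (by linarith) (by linarith)).1 h3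
  have h5 : y = x + π := by linarith
  rw [h5, Cub.deriv, Cub.anti, ← Cub.deriv] at hy
  linarith

lemma mono_tan {x y : ℝ} (h : sin y * cos x ≠ cos y * sin x) (hx : cos x ≠ 0) (hy : cos y ≠ 0) :
    tan x ≠ tan y := by
  intro h1
  rw [tan_eq_sin_div_cos, tan_eq_sin_div_cos, div_eq_div_iff hx hy] at h1
  exact h (by linarith)

lemma mono_gp {a0 a1 a2 a3 p q : ℝ} (h3 : 0 < a3) (h1 : a1 ≤ 2 * a3) (h : p < q) :
    Gp a0 a1 a2 a3 p < Gp a0 a1 a2 a3 q := by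
  have e3 : p ^ 3 < q ^ 3 := cube_strictMono h
  have e5 : p ^ 5 < q ^ 5 := Odd.strictMono_pow (by decide) h
  have k1 := mul_le_mul_of_nonneg_left h.le (show 0 ≤ 2 * a3 - a1 by linarith)
  have k3 := mul_lt_mul_of_pos_left e3 (show 0 < 7 * a3 - a1 by linarith)
  have k5 := mul_lt_mul_of_pos_left e5 h3
  unfold Gp
  linarith

lemma mono_gp_ne {a0 a1 a2 a3 p q : ℝ} (ha : (0 < a3 ∧ a1 ≤ 2 * a3) ∨ (a3 = 0 ∧ a1 ≠ 0))
    (h : p ≠ q) : Gp a0 a1 a2 a3 p ≠ Gp a0 a1 a2 a3 q := by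
  wlog hl : p < q generalizing p q
  · exact (this h.symm (lt_of_le_of_ne (not_lt.1 hl) h.symm)).symm
  rcases ha with ⟨h3, h1⟩ | ⟨rfl, h1⟩
  · exact (mono_gp h3 h1 hl).ne
  · intro e
    have e3 : p ^ 3 < q ^ 3 := cube_strictMono hl
    have k : a1 * (3 * (q - p) + (q ^ 3 - p ^ 3)) = 0 := by unfold Gp at e; linarith
    rcases mul_eq_zero.1 k with k | k
    · exact h1 k
    · linarith

lemma mono_gam (hGam : GamStmt) {a0 a1 a2 a3 b x y : ℝ} (hb : b ≠ 0)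
    (ha : (0 < a3 ∧ a1 ≤ 2 * a3) ∨ (a3 = 0 ∧ a1 ≠ 0)) (h : sin y * cos x ≠ cos y * sin x)
    (hx : cos x ≠ 0) (hy : cos y ≠ 0) (zx : Cub a0 a1 a2 a3 x = 0) (zy : Cub a0 a1 a2 a3 y = 0) :
    gam (Cub a0 a1 a2 a3) (Lin b 0) x ≠ gam (Cub a0 a1 a2 a3) (Lin b 0) y := by
  rw [(hGam _ _ _ _ b x hb hx zx).1, (hGam _ _ _ _ b y hb hy zy).1]
  intro e
  refine mono_gp_ne (a0 := a0) (a2 := a2) ha (mono_tan h hx hy) ?_
  exact (div_left_inj' (by positivity)).1 (add_right_cancel e)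

lemma mono_lin (b x : ℝ) : Lin b 0 x = b * cos x := by simp [Lin]

theorem mono2S (hGam : GamStmt) : Mono2Stmt := by
  rintro a0 a1 a2 a3 b z1 z2 V hb ha ⟨l1, l2, t1, t2, d1, d2, -⟩ ⟨w1, w2, p1, p2, hs, hg⟩
  have h := mono_sin l1 l2 d1 d2
  rw [mono_lin, mono_lin] at hs
  rw [mono_lin] at hg
  have c1 : cos z1 ≠ 0 := by
    intro c
    have c2 : cos z2 = 0 := by simpa [c, p2.ne', hb] using hs
    exact h (by rw [c, c2]; simp)
  have c2 : cos z2 ≠ 0 := by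
    intro c
    exact c1 (by simpa [c, p1.ne', hb] using hs)
  exact mono_gam hGam hb ha h c1 c2 t1.1 t2.1 (hg (mul_ne_zero hb c1))

lemma mono_alg {g1 g2 g3 m1 m2 m3 : ℝ} (hg : (g1 < g2 ∧ g2 < g3) ∨ (g3 < g2 ∧ g2 < g1))
    (h1 : 0 < m1) (h3 : 0 < m3) (k1 : m1 < m2) (k3 : m3 < m2) (e1 : g1 * m1 = g2 * m2)
    (e3 : g3 * m3 = g2 * m2) : False := by
  rcases le_total 0 g2 with h | h
  · have a1 : g2 ≤ g1 := le_of_mul_le_mul_right (by nlinarith) h1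
    have a3 : g2 ≤ g3 := le_of_mul_le_mul_right (by nlinarith) h3
    rcases hg with hg | hg <;> linarith [hg.1, hg.2]
  · have a1 : g1 ≤ g2 := le_of_mul_le_mul_right (by nlinarith) h1
    have a3 : g3 ≤ g2 := le_of_mul_le_mul_right (by nlinarith) h3
    rcases hg with hg | hg <;> linarith [hg.1, hg.2]

lemma mono_roots {a0 a1 a2 a3 p q r : ℝ} (hp : a0 + a1 * p + a2 * p ^ 2 + a3 * p ^ 3 = 0)
    (hq : a0 + a1 * q + a2 * q ^ 2 + a3 * q ^ 3 = 0)
    (hr : a0 + a1 * r + a2 * r ^ 2 + a3 * r ^ 3 = 0) (h1 : p < q) (h2 : q < r) :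
    a2 = -a3 * (p + q + r) ∧ a1 = a3 * (p * q + p * r + q * r) := by
  have e1 : a1 + a2 * (p + q) + a3 * (p ^ 2 + p * q + q ^ 2) = 0 :=
    mul_left_cancel₀ (sub_pos.2 h1).ne' (by linear_combination hq - hp)
  have e2 : a1 + a2 * (q + r) + a3 * (q ^ 2 + q * r + r ^ 2) = 0 :=
    mul_left_cancel₀ (sub_pos.2 h2).ne' (by linear_combination hr - hq)
  have e3 : a2 = -a3 * (p + q + r) :=
    mul_left_cancel₀ (sub_pos.2 (h1.trans h2)).ne' (by linear_combination e2 - e1)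
  exact ⟨e3, by linear_combination e1 - (p + q) * e3⟩

lemma mono_ord (hGam : GamStmt) {a0 a1 a2 a3 b x y z u v w : ℝ} (hb : b ≠ 0)
    (ha : (0 < a3 ∧ a1 ≤ 2 * a3) ∨ (a3 = 0 ∧ a1 ≠ 0))
    (hx : cos x ≠ 0) (hy : cos y ≠ 0) (hz : cos z ≠ 0)
    (zx : Cub a0 a1 a2 a3 x = 0) (zy : Cub a0 a1 a2 a3 y = 0) (zz : Cub a0 a1 a2 a3 z = 0)
    (dx : deriv (Cub a0 a1 a2 a3) x < 0) (dy : deriv (Cub a0 a1 a2 a3) y < 0)
    (dz : deriv (Cub a0 a1 a2 a3) z < 0) (hu : 0 < u) (hv : 0 < v) (hw : 0 < w)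
    (hs : u * (b * cos x) + v * (b * cos y) + w * (b * cos z) = 0)
    (e1 : gam (Cub a0 a1 a2 a3) (Lin b 0) x * (u * (b * cos x)) ^ 6 =
      gam (Cub a0 a1 a2 a3) (Lin b 0) y * (v * (b * cos y)) ^ 6)
    (e2 : gam (Cub a0 a1 a2 a3) (Lin b 0) z * (w * (b * cos z)) ^ 6 =
      gam (Cub a0 a1 a2 a3) (Lin b 0) y * (v * (b * cos y)) ^ 6)
    (h1 : tan x < tan y) (h2 : tan y < tan z) : False := by
  obtain ⟨gx, rx, fx⟩ := hGam _ _ _ _ b x hb hx zx
  obtain ⟨gy, ry, fy⟩ := hGam _ _ _ _ b y hb hy zy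
  obtain ⟨gz, rz, fz⟩ := hGam _ _ _ _ b z hb hz zz
  obtain ⟨k2, k1⟩ := mono_roots rx ry rz h1 h2
  obtain ⟨h3, h4⟩ : 0 < a3 ∧ a1 ≤ 2 * a3 := ha.resolve_right fun h => h.2 (by rw [k1, h.1]; simp)
  have s1 := sub_pos.2 h1
  have s2 := sub_pos.2 h2
  have s3 := sub_pos.2 (h1.trans h2)
  have cx : cos x < 0 := by
    rw [fx, show a1 + 2 * a2 * tan x + 3 * a3 * tan x ^ 2 =
      a3 * ((tan y - tan x) * (tan z - tan x)) by rw [k1, k2]; ring] at dx
    exact neg_of_mul_neg_left dx (by positivity)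
  have cz : cos z < 0 := by
    rw [fz, show a1 + 2 * a2 * tan z + 3 * a3 * tan z ^ 2 =
      a3 * ((tan z - tan y) * (tan z - tan x)) by rw [k1, k2]; ring] at dz
    exact neg_of_mul_neg_left dz (by positivity)
  have hs' : v * cos y = u * -cos x + w * -cos z :=
    mul_left_cancel₀ hb (by linear_combination hs)
  have px : 0 < u * -cos x := mul_pos hu (neg_pos.2 cx)
  have pz : 0 < w * -cos z := mul_pos hw (neg_pos.2 cz)
  have hb6 : 0 < b ^ 6 := by positivity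
  refine mono_alg (g1 := gam (Cub a0 a1 a2 a3) (Lin b 0) x) (g2 := gam (Cub a0 a1 a2 a3) (Lin b 0) y)
    (g3 := gam (Cub a0 a1 a2 a3) (Lin b 0) z) (m1 := (u * -cos x) ^ 6) (m2 := (v * cos y) ^ 6)
    (m3 := (w * -cos z) ^ 6) ?_ (by positivity) (by positivity)
    (pow_lt_pow_left₀ (by linarith) px.le (by norm_num))
    (pow_lt_pow_left₀ (by linarith) pz.le (by norm_num))
    (mul_left_cancel₀ hb6.ne' (by linear_combination e1))
    (mul_left_cancel₀ hb6.ne' (by linear_combination e2))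
  have q1 := mono_gp (a0 := a0) (a2 := a2) h3 h4 h1
  have q2 := mono_gp (a0 := a0) (a2 := a2) h3 h4 h2
  rw [gx, gy, gz]
  rcases lt_or_gt_of_ne hb with h | h
  · have hn : 2 * b ^ 3 < 0 := by nlinarith [Odd.pow_neg (show Odd 3 by decide) h]
    exact Or.inr ⟨by linarith [(div_lt_div_right_of_neg hn).2 q2],
      by linarith [(div_lt_div_right_of_neg hn).2 q1]⟩
  · have hn : 0 < 2 * b ^ 3 := by positivity
    exact Or.inl ⟨by linarith [div_lt_div_of_pos_right q1 hn],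
      by linarith [div_lt_div_of_pos_right q2 hn]⟩

lemma mono_opp {g1 g2 m1 m2 : ℝ} (h : m1 + m2 = 0) (h1 : m1 ≠ 0)
    (e : g1 * m1 ^ 6 = g2 * m2 ^ 6) : g1 = g2 := by
  rw [show m2 = -m1 by linarith, Even.neg_pow (by decide)] at e
  exact mul_right_cancel₀ (pow_ne_zero 6 h1) e

theorem mono3S (hGam : GamStmt) : Mono3Stmt := by
  rintro a0 a1 a2 a3 b z1 z2 z3 V hb ha ⟨l1, l2, l3, t1, t2, t3, d1, d2, d3, -⟩
    ⟨w1, w2, w3, p1, p2, p3, hs, e12, e13, e23⟩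
  have s12 := mono_sin l1 (by linarith) d1 d2
  have s13 := mono_sin (l1.trans l2) l3 d1 d3
  have s23 := mono_sin l2 (by linarith) d2 d3
  simp only [mono_lin] at hs e12 e13 e23
  have two : ∀ {x y : ℝ}, sin y * cos x ≠ cos y * sin x → cos x = 0 → cos y = 0 → False :=
    fun h hx hy => h (by rw [hx, hy]; simp)
  have c1 : cos z1 ≠ 0 := fun c => by
    have c2 : cos z2 ≠ 0 := two s12 c
    have c3 : cos z3 ≠ 0 := two s13 c
    refine mono_gam hGam hb ha s23 c2 c3 t2.1 t3.1 (mono_opp ?_ (by positivity)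
      (e23 (by positivity) (by positivity)))
    simpa [c] using hs
  have c2 : cos z2 ≠ 0 := fun c => by
    have c3 : cos z3 ≠ 0 := two s23 c
    refine mono_gam hGam hb ha s13 c1 c3 t1.1 t3.1 (mono_opp ?_ (by positivity)
      (e13 (by positivity) (by positivity)))
    simpa [c] using hs
  have c3 : cos z3 ≠ 0 := fun c => by
    refine mono_gam hGam hb ha s12 c1 c2 t1.1 t2.1 (mono_opp ?_ (by positivity)
      (e12 (by positivity) (by positivity)))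
    simpa [c] using hs
  have f12 := e12 (by positivity) (by positivity)
  have f13 := e13 (by positivity) (by positivity)
  have f23 := e23 (by positivity) (by positivity)
  rcases lt_or_gt_of_ne (mono_tan s12 c1 c2) with h12 | h12 <;>
    rcases lt_or_gt_of_ne (mono_tan s13 c1 c3) with h13 | h13 <;>
    rcases lt_or_gt_of_ne (mono_tan s23 c2 c3) with h23 | h23
  · exact mono_ord hGam hb ha c1 c2 c3 t1.1 t2.1 t3.1 d1 d2 d3 p1 p2 p3 hs f12 f23.symm h12 h23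
  · exact mono_ord hGam hb ha c1 c3 c2 t1.1 t3.1 t2.1 d1 d3 d2 p1 p3 p2 (by linarith) f13 f23
      h13 h23
  · linarith
  · exact mono_ord hGam hb ha c3 c1 c2 t3.1 t1.1 t2.1 d3 d1 d2 p3 p1 p2 (by linarith) f13.symm
      f12.symm h13 h12
  · exact mono_ord hGam hb ha c2 c1 c3 t2.1 t1.1 t3.1 d2 d1 d3 p2 p1 p3 (by linarith) f12.symm
      f13.symm h12 h13
  · linarith
  · exact mono_ord hGam hb ha c2 c3 c1 t2.1 t3.1 t1.1 d2 d3 d1 p2 p3 p1 (by linarith) f23 f13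
      h23 h13
  · exact mono_ord hGam hb ha c3 c2 c1 t3.1 t2.1 t1.1 d3 d2 d1 p3 p2 p1 (by linarith) f23.symm f12
      h23 h12

end Pool.Agent.MP_c2f0e4_an
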