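import Pool.Agent.MP_c2f0e4_an.Iface

open Set Filter Topology Real Asymptotics

namespace Pool.Agent.MP_c2f0e4_an

/-- a touch at which `A` decreases -/
def nonGood (A V : ℝ → ℝ) (y : ℝ) : Prop := V y = 0 ∧ A y = 0 ∧ deriv A y < 0

lemma non_L (hSign : SignStmt) {A B V : ℝ → ℝ} (hA : An A) (hB : Continuous B) (hV : Sol A B V)
    {l y r : ℝ} (hl : l < y) (hr : y < r) (hy : nonGood A V y) (h1 : ∀ x ∈ Ioo l y, 0 < A x)
    (h2 : ∀ x ∈ Ioo y r, A x < 0) : ∀ x ∈ Icc l r, 0 ≤ V x := by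
  have hs : ∀ᶠ x in 𝓝[≠] y, 0 < V x :=
    (hSign A B V hA hB hV y ⟨hy.2.1, hy.1⟩ hy.2.2.ne).mono fun x hx =>
      pos_of_mul_neg_right hx hy.2.2.le
  have key : Ioo l r ⊆ {x | 0 ≤ V x} := by
    intro x hx
    rcases lt_trichotomy x y with h | h | h
    · obtain ⟨t, ht, ht'⟩ := ((hs.filter_mono (nhdsLT_le_nhdsNE y)).and (Ioo_mem_nhdsLT h)).exists
      exact (hV.pos_backward (a := x) (b := t)
        (fun s hs _ => h1 s ⟨hx.1.trans_le hs.1, hs.2.trans_lt ht'.2⟩) ht.le x ⟨le_rfl, ht'.1⟩).le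
    · rw [h]; exact hy.1.ge
    · obtain ⟨t, ht, ht'⟩ := ((hs.filter_mono (nhdsGT_le_nhdsNE y)).and (Ioo_mem_nhdsGT h)).exists
      exact (hV.pos_forward (a := t) (b := x)
        (fun s hs _ => h2 s ⟨ht'.1.trans_le hs.1, hs.2.trans_lt hx.2⟩) ht.le x ⟨ht'.2, le_rfl⟩).le
  have := closure_minimal key (isClosed_le continuous_const hV.1)
  rw [closure_Ioo (hl.trans hr).ne] at this
  exact fun x hx => this hx

lemma non_red {f : ℝ → ℝ} (hf : Function.Periodic f (2 * π)) {z : ℝ} (hz : 0 < cos z) :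
    f (arctan (tan z)) = f z := by
  have h1 : cos (arctan (tan z)) = cos z := by
    rw [cos_arctan, one_div, inv_sqrt_one_add_tan_sq hz]
  have h2 : sin (arctan (tan z)) = sin z := by
    rw [← tan_mul_cos (cos_arctan_pos _).ne', tan_arctan, h1, tan_mul_cos hz.ne']
  have h3 : cos (z - arctan (tan z)) = 1 := by
    rw [cos_sub, h1, h2]; linarith [sin_sq_add_cos_sq z]
  obtain ⟨n, hn⟩ := (cos_eq_one_iff _).1 h3
  rw [← hf.int_mul n (arctan (tan z)), hn, add_sub_cancel]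

lemma non_red' {f : ℝ → ℝ} (hf : Function.Periodic f (2 * π)) {z : ℝ} (hz : cos z < 0) :
    f (arctan (tan z) + π) = f z := by
  have := non_red (periodic_shift hf π) (z := z - π) (by rw [cos_sub_pi]; linarith)
  simpa only [tan_sub_pi, sub_add_cancel] using this

lemma non_per (a0 a1 a2 a3 : ℝ) : Function.Periodic (Cub a0 a1 a2 a3) (2 * π) :=
  (sys_cub a0 a1 a2 a3 0 0).perA

lemma non_per' (a0 a1 a2 a3 : ℝ) : Function.Periodic (deriv (Cub a0 a1 a2 a3)) (2 * π) := by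
  rw [Cub.deriv]; exact non_per _ _ _ _

variable {a0 a1 a2 a3 b : ℝ} {V : ℝ → ℝ}

lemma non_good_pos (hV : Function.Periodic V (2 * π)) {z : ℝ}
    (h : nonGood (Cub a0 a1 a2 a3) V z) (hz : 0 < cos z) :
    nonGood (Cub a0 a1 a2 a3) V (arctan (tan z)) := by
  unfold nonGood
  rwa [non_red hV hz, non_red (non_per _ _ _ _) hz, non_red (non_per' _ _ _ _) hz]

lemma non_good_neg (hV : Function.Periodic V (2 * π)) {z : ℝ}
    (h : nonGood (Cub a0 a1 a2 a3) V z) (hz : cos z < 0) :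
    nonGood (Cub a0 a1 a2 a3) V (arctan (tan z) + π) := by
  unfold nonGood
  rwa [non_red' hV hz, non_red' (non_per _ _ _ _) hz, non_red' (non_per' _ _ _ _) hz]

lemma non_good_sub (hV : Function.Periodic V (2 * π)) {z : ℝ}
    (h : nonGood (Cub a0 a1 a2 a3) V (z + π)) : nonGood (Cub a0 a1 a2 a3) V (z - π) := by
  unfold nonGood at h ⊢
  rwa [show z + π = z - π + 2 * π by ring, hV, non_per, non_per'] at h

lemma non_cos_ne (h3 : 0 < a3) {z : ℝ} (h : Cub a0 a1 a2 a3 z = 0) : cos z ≠ 0 := by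
  intro h0
  have h1 := sin_sq_add_cos_sq z
  rw [Cub, h0] at h
  rw [h0] at h1
  have h2 : sin z ^ 3 = 0 := by
    have : a3 * sin z ^ 3 = 0 := by linarith
    exact (mul_eq_zero.1 this).resolve_left h3.ne'
  rw [pow_eq_zero_iff (by norm_num)] at h2
  rw [h2] at h1
  norm_num at h1

lemma non_s (p x : ℝ) : (sin x - p * cos x) * cos (arctan p) = sin (x - arctan p) := by
  rw [sin_sub, ← tan_mul_cos (cos_arctan_pos p).ne', tan_arctan]; ring

lemma non_s1 {p x : ℝ} (h1 : arctan p < x) (h2 : x < arctan p + π) : 0 < sin x - p * cos x :=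
  pos_of_mul_pos_left (by
    rw [non_s]; exact sin_pos_of_pos_of_lt_pi (by linarith) (by linarith)) (cos_arctan_pos p).le

lemma non_s2 {p x : ℝ} (h1 : arctan p - π < x) (h2 : x < arctan p) : sin x - p * cos x < 0 := by
  have := non_s1 (p := p) (x := x + π) (by linarith) (by linarith)
  rw [sin_add_pi, cos_add_pi] at this
  linarith

lemma non_s3 {p x : ℝ} (h1 : arctan p + π < x) (h2 : x < arctan p + 2 * π) :
    sin x - p * cos x < 0 := by
  have := non_s1 (p := p) (x := x - π) (by linarith) (by linarith)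
  rw [sin_sub_pi, cos_sub_pi] at this
  linarith

lemma non_s4 {p x : ℝ} (h1 : arctan p - 2 * π < x) (h2 : x < arctan p - π) :
    0 < sin x - p * cos x := by
  have := non_s2 (p := p) (x := x + π) (by linarith) (by linarith)
  rw [sin_add_pi, cos_add_pi] at this
  linarith

/-- three real roots in increasing order -/
structure nonRoots (a0 a1 a2 a3 p q r : ℝ) : Prop where
  pos : 0 < a3
  pq : p < q
  qr : q < r
  e0 : a0 = -(a3 * (p * q * r))
  e1 : a1 = a3 * (p * q + p * r + q * r)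
  e2 : a2 = -(a3 * (p + q + r))

lemma non_three (hSign : SignStmt) {p q r : ℝ} (h : nonRoots a0 a1 a2 a3 p q r)
    (hV : Sol (Cub a0 a1 a2 a3) (Lin b 0) V) :
    (nonGood (Cub a0 a1 a2 a3) V (arctan q) → ∀ x ∈ Icc (arctan p) (arctan r), 0 ≤ V x) ∧
    (nonGood (Cub a0 a1 a2 a3) V (arctan p + π) →
      ∀ x ∈ Icc (arctan r) (arctan q + π), 0 ≤ V x) ∧
    (nonGood (Cub a0 a1 a2 a3) V (arctan r - π) →
      ∀ x ∈ Icc (arctan q - π) (arctan p), 0 ≤ V x) := by
  have hA : ∀ x, Cub a0 a1 a2 a3 x =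
      a3 * ((sin x - p * cos x) * (sin x - q * cos x) * (sin x - r * cos x)) := fun x => by
    rw [Cub]
    conv_lhs => rw [h.e0, h.e1, h.e2]
    ring
  have k1 := arctan_strictMono h.pq
  have k2 := arctan_strictMono h.qr
  have k3 := neg_pi_div_two_lt_arctan p
  have k4 := arctan_lt_pi_div_two r
  have k5 := pi_pos
  have hL := fun l y r => non_L hSign (Cub.an a0 a1 a2 a3) (Lin.an b 0).continuous hV
    (l := l) (y := y) (r := r)
  refine ⟨fun hy => hL _ _ _ k1 k2 hy ?_ ?_,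
    fun hy => hL _ _ _ (by linarith) (by linarith) hy ?_ ?_,
    fun hy => hL _ _ _ (by linarith) (by linarith) hy ?_ ?_⟩ <;> intro x ⟨h1, h2⟩ <;> rw [hA]
  · exact mul_pos h.pos (mul_pos_of_neg_of_neg (mul_neg_of_pos_of_neg
      (non_s1 h1 (by linarith)) (non_s2 (by linarith) h2)) (non_s2 (by linarith) (by linarith)))
  · exact mul_neg_of_pos_of_neg h.pos (mul_neg_of_pos_of_neg (mul_pos
      (non_s1 (by linarith) (by linarith)) (non_s1 h1 (by linarith))) (non_s2 (by linarith) h2))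
  · exact mul_pos h.pos (mul_pos (mul_pos
      (non_s1 (by linarith) h2) (non_s1 (by linarith) (by linarith))) (non_s1 h1 (by linarith)))
  · exact mul_neg_of_pos_of_neg h.pos (mul_neg_of_neg_of_pos (mul_neg_of_neg_of_pos
      (non_s3 h1 (by linarith)) (non_s1 (by linarith) h2)) (non_s1 (by linarith) (by linarith)))
  · exact mul_pos h.pos (mul_pos (mul_pos_of_neg_of_neg
      (non_s2 (by linarith) (by linarith)) (non_s2 h1 (by linarith))) (non_s4 (by linarith) h2))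
  · exact mul_neg_of_pos_of_neg h.pos (mul_neg_of_pos_of_neg (mul_pos_of_neg_of_neg
      (non_s2 (by linarith) h2) (non_s2 (by linarith) (by linarith))) (non_s2 h1 (by linarith)))

/-- two touches to the right: the middle root is not positive -/
lemma non_right (hDelta : DeltaStmt) (hSign : SignStmt) {p q r : ℝ}
    (h : nonRoots a0 a1 a2 a3 p q r) (h1 : 0 ≤ a1) (hV : Sol (Cub a0 a1 a2 a3) (Lin b 0) V)
    (hp : Function.Periodic V (2 * π)) (g2 : nonGood (Cub a0 a1 a2 a3) V (arctan q))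
    (g1 : nonGood (Cub a0 a1 a2 a3) V (arctan p + π)) : q ≤ 0 := by
  by_contra hq
  have k0 : 0 < arctan q := arctan_pos.2 (not_le.1 hq)
  have k1 := arctan_lt_pi_div_two q
  have k2 := arctan_lt_pi_div_two r
  have k3 := hDelta a0 a1 a2 a3 b V h1 h.pos hV hp (arctan q)
    ⟨neg_pi_div_two_lt_arctan q, k1⟩ k0.ne'
  have k4 := (non_three hSign h hV).2.1 g1 (π - arctan q) ⟨by linarith, by linarith⟩
  linarith [g2.1]

/-- two touches to the left: the middle root is not negative -/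
lemma non_left (hDelta : DeltaStmt) (hSign : SignStmt) {p q r : ℝ}
    (h : nonRoots a0 a1 a2 a3 p q r) (h1 : 0 ≤ a1) (hV : Sol (Cub a0 a1 a2 a3) (Lin b 0) V)
    (hp : Function.Periodic V (2 * π)) (g2 : nonGood (Cub a0 a1 a2 a3) V (arctan q))
    (g3 : nonGood (Cub a0 a1 a2 a3) V (arctan r + π)) : 0 ≤ q := by
  by_contra hq
  have k0 : arctan q < 0 := arctan_lt_zero.2 (not_le.1 hq)
  have k1 := neg_pi_div_two_lt_arctan q
  have k2 := neg_pi_div_two_lt_arctan p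
  have k3 := hDelta a0 a1 a2 a3 b V h1 h.pos hV hp (arctan q)
    ⟨k1, arctan_lt_pi_div_two q⟩ k0.ne
  have k4 := (non_three hSign h hV).2.2 (non_good_sub hp g3) (-π - arctan q)
    ⟨by linarith, by linarith⟩
  rw [← hp, show -π - arctan q + 2 * π = π - arctan q by ring] at k4
  linarith [g2.1]

/-- Vieta's formulas from two distinct roots -/
lemma non_vieta (h3 : 0 < a3) {p q : ℝ} (hne : p ≠ q)
    (hp : a0 + a1 * p + a2 * p ^ 2 + a3 * p ^ 3 = 0)
    (hq : a0 + a1 * q + a2 * q ^ 2 + a3 * q ^ 3 = 0) :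
    ∃ r, a0 = -(a3 * (p * q * r)) ∧ a1 = a3 * (p * q + p * r + q * r) ∧
      a2 = -(a3 * (p + q + r)) := by
  obtain ⟨r, e2⟩ : ∃ r, a2 = -(a3 * (p + q + r)) := ⟨-a2 / a3 - p - q, by field_simp; ring⟩
  have e1 : a1 = a3 * (p * q + p * r + q * r) :=
    mul_left_cancel₀ (sub_ne_zero.2 hne) (by rw [e2] at hp hq; linear_combination hp - hq)
  exact ⟨r, by rw [e1, e2] at hp; linear_combination hp, e1, e2⟩

lemma non_alg (h3 : 0 < a3) {p q e : ℝ} (hne : p ≠ q) (hpq : 0 ≤ p * q) (h1 : a1 = a3 * e)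
    (he : e ≤ p ^ 2 + p * q + q ^ 2) : Gp a0 a1 a2 a3 p ≠ Gp a0 a1 a2 a3 q := by
  intro hG
  have k1 : e * (3 + (p ^ 2 + p * q + q ^ 2)) = 6 + 7 * (p ^ 2 + p * q + q ^ 2)
      + 3 * (p ^ 4 + p ^ 3 * q + p ^ 2 * q ^ 2 + p * q ^ 3 + q ^ 4) :=
    mul_left_cancel₀ (mul_ne_zero h3.ne' (sub_ne_zero.2 hne)) (by
      unfold Gp at hG; rw [h1] at hG; linear_combination -hG)
  have k2 : 0 ≤ p ^ 2 + p * q + q ^ 2 := by positivity
  have k3 := mul_le_mul_of_nonneg_right he (show 0 ≤ 3 + (p ^ 2 + p * q + q ^ 2) by linarith)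
  have k4 : 0 ≤ p * q * (p ^ 2 + q ^ 2) := by positivity
  have k5 : 0 ≤ p ^ 4 + q ^ 4 := by positivity
  nlinarith

lemma non_two (hGam : GamStmt) (hDelta : DeltaStmt) (hSign : SignStmt) (h3 : 0 < a3)
    (h1 : 0 ≤ a1) (hV : Sol (Cub a0 a1 a2 a3) (Lin b 0) V) (hp : Function.Periodic V (2 * π))
    {y y' : ℝ} (g : nonGood (Cub a0 a1 a2 a3) V y) (g' : nonGood (Cub a0 a1 a2 a3) V y')
    (c : 0 < cos y) (c' : cos y' < 0) : Gp a0 a1 a2 a3 (tan y) ≠ Gp a0 a1 a2 a3 (tan y') := by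
  obtain ⟨-, r1, d1⟩ := hGam a0 a1 a2 a3 1 y one_ne_zero c.ne' g.2.1
  obtain ⟨-, r2, d2⟩ := hGam a0 a1 a2 a3 1 y' one_ne_zero c'.ne g'.2.1
  have s1 := neg_of_mul_neg_right (d1 ▸ g.2.2) c.le
  have s2 := pos_of_mul_neg_right (d2 ▸ g'.2.2) c'.le
  have G := non_good_pos hp g c
  have G' := non_good_neg hp g' c'
  generalize tan y = p at *
  generalize tan y' = q at *
  have hne : p ≠ q := fun h => by rw [h] at s1; linarith
  obtain ⟨r, e0, e1, e2⟩ := non_vieta h3 hne r1 r2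
  have s3 : (p - q) * (p - r) < 0 :=
    neg_of_mul_neg_right (by rw [e1, e2] at s1; linarith) h3.le
  rcases mul_neg_iff.1 s3 with ⟨u, v⟩ | ⟨u, v⟩
  · have k := non_right hDelta hSign (p := q) (q := p) (r := r)
      ⟨h3, by linarith, by linarith, by linarith, by linarith, by linarith⟩ h1 hV hp G G'
    exact non_alg h3 hne (mul_nonneg_of_nonpos_of_nonpos k (by linarith)) e1 (by nlinarith)
  · have k := non_left hDelta hSign (p := r) (q := p) (r := q)
      ⟨h3, by linarith, by linarith, by linarith, by linarith, by linarith⟩ h1 hV hp G G'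
    exact non_alg h3 hne (mul_nonneg k (by linarith)) e1 (by nlinarith)

theorem non2S (hGam : GamStmt) (hDelta : DeltaStmt) (hSign : SignStmt) : Non2Stmt := by
  rintro a0 a1 a2 a3 b z1 z2 V hb h3 h1 hV hp ⟨-, -, t1, t2, d1, d2, -⟩ ⟨w1, w2, hw1, hw2, e, hg⟩
  have c1 := non_cos_ne h3 t1.1
  have c2 := non_cos_ne h3 t2.1
  have hG : Gp a0 a1 a2 a3 (tan z1) = Gp a0 a1 a2 a3 (tan z2) := by
    have := hg (by simpa [Lin, hb] using c1)
    rw [(hGam a0 a1 a2 a3 b z1 hb c1 t1.1).1, (hGam a0 a1 a2 a3 b z2 hb c2 t2.1).1,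
      add_left_inj, div_left_inj' (by positivity)] at this
    exact this
  have e' : w1 * cos z1 + w2 * cos z2 = 0 :=
    mul_left_cancel₀ hb (by simp only [Lin] at e; linear_combination e)
  rcases lt_or_gt_of_ne c1 with c | c
  · have c' : 0 < cos z2 := pos_of_mul_pos_right (by nlinarith) hw2.le
    exact non_two hGam hDelta hSign h3 (by linarith) hV hp ⟨t2.2, t2.1, d2⟩ ⟨t1.2, t1.1, d1⟩ c' c
      hG.symm
  · have c' : cos z2 < 0 := neg_of_mul_neg_right (by nlinarith) hw2.le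
    exact non_two hGam hDelta hSign h3 (by linarith) hV hp ⟨t1.2, t1.1, d1⟩ ⟨t2.2, t2.1, d2⟩ c c'
      hG

lemma non_sorted (hGam : GamStmt) (hDelta : DeltaStmt) (hSign : SignStmt) (h3 : 0 < a3)
    (h1 : 0 ≤ a1) (hV : Sol (Cub a0 a1 a2 a3) (Lin b 0) V) (hp : Function.Periodic V (2 * π))
    {x y z : ℝ} (gx : nonGood (Cub a0 a1 a2 a3) V x) (gy : nonGood (Cub a0 a1 a2 a3) V y)
    (gz : nonGood (Cub a0 a1 a2 a3) V z) (hxy : tan x < tan y) (hyz : tan y < tan z) : False := by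
  obtain ⟨-, r1, d1⟩ := hGam a0 a1 a2 a3 1 x one_ne_zero (non_cos_ne h3 gx.2.1) gx.2.1
  obtain ⟨-, r2, d2⟩ := hGam a0 a1 a2 a3 1 y one_ne_zero (non_cos_ne h3 gy.2.1) gy.2.1
  obtain ⟨-, r3, d3⟩ := hGam a0 a1 a2 a3 1 z one_ne_zero (non_cos_ne h3 gz.2.1) gz.2.1
  have s1 := d1 ▸ gx.2.2
  have s2 := d2 ▸ gy.2.2
  have s3 := d3 ▸ gz.2.2
  have G1 := non_good_neg hp gx
  have G2 := non_good_pos hp gy
  have G3 := non_good_neg hp gz
  generalize tan x = p at *
  generalize tan y = q at *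
  generalize tan z = r at *
  obtain ⟨r', e0, e1, e2⟩ := non_vieta h3 hxy.ne r1 r2
  have hpr : 0 < r - p := by linarith
  have hqr : 0 < r - q := by linarith
  have hpq : 0 < q - p := by linarith
  have hr : r' = r := by
    have : a3 * (r - p) * (r - q) * (r - r') = 0 := by
      rw [e0, e1, e2] at r3; linear_combination r3
    exact (sub_eq_zero.1 ((mul_eq_zero.1 this).resolve_left (by positivity))).symm
  subst hr
  have f1 : a1 + 2 * a2 * p + 3 * a3 * p ^ 2 = a3 * (q - p) * (r' - p) := by rw [e1, e2]; ring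
  have f2 : a1 + 2 * a2 * q + 3 * a3 * q ^ 2 = -(a3 * (q - p) * (r' - q)) := by rw [e1, e2]; ring
  have f3 : a1 + 2 * a2 * r' + 3 * a3 * r' ^ 2 = a3 * (r' - p) * (r' - q) := by rw [e1, e2]; ring
  have f4 : 0 < a3 * (q - p) * (r' - q) := by positivity
  have c1 : cos x < 0 := neg_of_mul_neg_left s1 (by rw [f1]; positivity)
  have c2 : 0 < cos y := pos_of_mul_neg_left s2 (by rw [f2]; linarith)
  have c3 : cos z < 0 := neg_of_mul_neg_left s3 (by rw [f3]; positivity)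
  have R : nonRoots a0 a1 a2 a3 p q r' := ⟨h3, hxy, hyz, e0, e1, e2⟩
  have q0 : q = 0 := le_antisymm (non_right hDelta hSign R h1 hV hp (G2 c2) (G1 c1))
    (non_left hDelta hSign R h1 hV hp (G2 c2) (G3 c3))
  subst q0
  linarith

lemma non_tan_ne (h3 : 0 < a3) {x y : ℝ} (hxy : x < y) (hyx : y < x + 2 * π)
    (gx : nonGood (Cub a0 a1 a2 a3) V x) (gy : nonGood (Cub a0 a1 a2 a3) V y) :
    tan x ≠ tan y := by
  intro h
  have cx := non_cos_ne h3 gx.2.1
  have cy := non_cos_ne h3 gy.2.1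
  have h1 : sin (y - x - π) = 0 := by
    rw [sin_sub_pi, sin_sub, ← tan_mul_cos cx, ← tan_mul_cos cy, h]; ring
  rw [sin_eq_zero_iff_of_lt_of_lt (by linarith) (by linarith)] at h1
  have h2 := gy.2.2
  have h4 := gx.2.2
  rw [show y = x + π by linarith, Cub.deriv, Cub.anti] at h2
  rw [Cub.deriv] at h4
  linarith

theorem non3S (hGam : GamStmt) (hDelta : DeltaStmt) (hSign : SignStmt) : Non3Stmt := by
  rintro a0 a1 a2 a3 b z1 z2 z3 V h3 h1 hV hp ⟨l1, l2, l3, t1, t2, t3, d1, d2, d3, -⟩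
  have g1 : nonGood (Cub a0 a1 a2 a3) V z1 := ⟨t1.2, t1.1, d1⟩
  have g2 : nonGood (Cub a0 a1 a2 a3) V z2 := ⟨t2.2, t2.1, d2⟩
  have g3 : nonGood (Cub a0 a1 a2 a3) V z3 := ⟨t3.2, t3.1, d3⟩
  have key := fun x y z => non_sorted hGam hDelta hSign h3 h1 hV hp (x := x) (y := y) (z := z)
  rcases lt_or_gt_of_ne (non_tan_ne h3 l1 (by linarith) g1 g2) with a | a <;>
    rcases lt_or_gt_of_ne (non_tan_ne h3 l2 (by linarith) g2 g3) with c | c <;>
    rcases lt_or_gt_of_ne (non_tan_ne h3 (l1.trans l2) l3 g1 g3) with d | d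
  · exact key _ _ _ g1 g2 g3 a c
  · exact key _ _ _ g1 g2 g3 a c
  · exact key _ _ _ g1 g3 g2 d c
  · exact key _ _ _ g3 g1 g2 d a
  · exact key _ _ _ g2 g1 g3 a d
  · exact key _ _ _ g2 g3 g1 c d
  · exact key _ _ _ g3 g2 g1 c a
  · exact key _ _ _ g3 g2 g1 c a

end Pool.Agent.MP_c2f0e4_an
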