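import Pool.Agent.MP_c2f0e4_an.Iface

open Set Filter Topology Real Asymptotics

namespace Pool.Agent.MP_c2f0e4_an

theorem pbd_phi (i : ℕ) {τ t : ℝ} (hτ : τ ≠ 0) (ht : 0 < t) :
    phi i (τ * t) * t⁻¹ ^ i = phi i τ * t⁻¹ ^ 5 + if i = 5 then t⁻¹ ^ 5 * Real.log t else 0 := by
  unfold phi
  split_ifs with h
  · subst h
    rw [abs_mul, abs_of_pos ht, Real.log_mul (abs_pos.2 hτ).ne' ht.ne']
    ring
  · rw [mul_pow, mul_pow, inv_pow, inv_pow]
    have := ht.ne'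
    field_simp
    ring

theorem pbd_side (f : ℕ → ℝ → ℝ) (c : ℕ → ℝ) (C τ : ℝ) (hτ : τ ≠ 0) (T : ℕ → ℝ)
    (hT : Tendsto T atTop atTop) (h : ∀ i ≤ 6, ∀ t, 0 < t → 1 ≤ |τ| * t →
      |f i (τ * t) - c i * phi i (τ * t)| * |τ * t| ^ 7 ≤ C * |τ * t| ^ i) :
    (fun n => ∑ i ∈ Finset.range 7, f i (τ * T n) * (T n)⁻¹ ^ i
      - (∑ i ∈ Finset.range 7, c i * phi i τ) * (T n)⁻¹ ^ 5
      - c 5 * (T n)⁻¹ ^ 5 * Real.log (T n)) =O[atTop] fun n => (T n)⁻¹ ^ 7 := by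
  have ha : 0 < |τ| := abs_pos.2 hτ
  have e0 : ∀ᶠ n in atTop, 0 < T n := hT.eventually_gt_atTop 0
  have e1 : ∀ᶠ n in atTop, 1 ≤ |τ| * T n := (hT.const_mul_atTop ha).eventually_ge_atTop 1
  have h1 : ∀ i ∈ Finset.range 7,
      (fun n => (f i (τ * T n) - c i * phi i (τ * T n)) * (T n)⁻¹ ^ i) =O[atTop]
        fun n => (T n)⁻¹ ^ 7 := by
    intro i hi
    refine IsBigO.of_bound (C * |τ| ^ i / |τ| ^ 7) ?_
    filter_upwards [e0, e1] with n a0 a1
    have a2 := h i (Nat.lt_succ_iff.1 (Finset.mem_range.1 hi)) (T n) a0 a1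
    rw [abs_mul, abs_of_pos a0, ← le_div_iff₀ (by positivity)] at a2
    rw [norm_mul, Real.norm_eq_abs, Real.norm_of_nonneg (by positivity),
      Real.norm_of_nonneg (by positivity)]
    refine (mul_le_mul_of_nonneg_right a2 (by positivity)).trans (le_of_eq ?_)
    rw [mul_pow, mul_pow, inv_pow, inv_pow]
    field_simp
  refine (IsBigO.sum h1).congr' ?_ EventuallyEq.rfl
  filter_upwards [e0] with n a0
  simp only [Finset.sum_apply, sub_mul, mul_assoc, pbd_phi _ hτ a0]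
  simp only [Finset.sum_range_succ, Finset.sum_range_zero]
  norm_num
  ring

theorem pBdS : PBdStmt := by
  intro χ ci q P p c e C a b Λa Λb k Ta Tb hP ha hb hk hab hTa h
  have hTb : Tendsto Tb atTop atTop := tendsto_atTop_mono hab (hTa.const_mul_atTop hk)
  have h0 : (fun n => (Tb n)⁻¹ ^ 7) =O[atTop] fun n => (Ta n)⁻¹ ^ 7 := by
    refine IsBigO.of_bound (k⁻¹ ^ 7) ?_
    filter_upwards [hTa.eventually_gt_atTop 0, hTb.eventually_gt_atTop 0] with n a0 b0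
    rw [Real.norm_of_nonneg (by positivity), Real.norm_of_nonneg (by positivity), ← mul_pow,
      ← mul_inv]
    exact pow_le_pow_left₀ (by positivity) (inv_anti₀ (by positivity) (hab n)) 7
  have h1 := (pbd_side P c C b hb.ne' Tb hTb fun i hi t ht h1 => by
    rw [abs_of_pos hb] at h1
    rw [abs_of_pos (mul_pos hb ht)]
    exact hP.pos i hi _ h1).trans h0
  have h2 := pbd_side (fun i ρ => P i ρ + e i) c C a ha.ne Ta hTa fun i hi t ht h1 => by
    rw [abs_of_neg ha] at h1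
    exact hP.neg i hi _ (by linarith)
  refine ⟨∑ i ∈ Finset.range 7, c i * phi i a + Λa, ∑ i ∈ Finset.range 7, c i * phi i b + Λb,
    ((h.add h1).sub h2).congr_left fun n => ?_⟩
  simp only [PInt, add_mul, Finset.sum_add_distrib]
  ring

theorem passS (hPData : PDataStmt) (hPEst : PEstStmt) (hPInv : PInvStmt) : PassStmt := by
  intro χ ci q R a b T hχ hH
  obtain ⟨P, p, c, e, C, hP⟩ := hPData χ ci q hχ
  obtain ⟨Λa, Λb, k, hk, hab, h⟩ := hPEst χ ci q P p c e C R a b T hχ hP hH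
  obtain ⟨ca, cb, h1⟩ := pBdS χ ci q P p c e C a b Λa Λb k _ _ hP hH.ha hH.hb hk hab hH.lim h
  obtain ⟨e', a1, a2, a3⟩ := hPInv _ _ e ca cb (c 5) hH.lim
    (tendsto_atTop_mono hab (hH.lim.const_mul_atTop hk)) hP.e1 h1
  refine ⟨e', ?_, a2.trans hP.e0, fun q0 q1 q2 => ?_⟩
  · rw [a2, ← hP.c5]; exact a1
  · rw [a3 (by rw [hP.e0, q0, zero_mul]), hP.e6 q0 q1 q2]

end Pool.Agent.MP_c2f0e4_an
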