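import Pool.Agent.MP_c2f0e4_an.Iface

open Set Filter Topology Real Asymptotics

namespace Pool.Agent.MP_c2f0e4_an

namespace pdat

open MeasureTheory

/-- growth of order at most `k` -/
def Bd (f : ℝ → ℝ) (k : ℤ) : Prop := ∃ C : ℝ, 0 ≤ C ∧ ∀ ρ, |f ρ| ≤ C * (1 + |ρ|) ^ k

lemma wpos (ρ : ℝ) : 0 < 1 + |ρ| := by positivity

lemma one_le_w (ρ : ℝ) : 1 ≤ 1 + |ρ| := le_add_of_nonneg_right (abs_nonneg ρ)

namespace Bd

variable {f g : ℝ → ℝ} {k l : ℤ}

lemma congr (h : Bd f k) (e : ∀ ρ, g ρ = f ρ) : Bd g k := by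
  rwa [show g = f from funext e]

lemma mono (h : Bd f k) (hk : k ≤ l) : Bd f l := by
  obtain ⟨C, h0, h⟩ := h
  exact ⟨C, h0, fun ρ => (h ρ).trans
    (mul_le_mul_of_nonneg_left (zpow_le_zpow_right₀ (one_le_w ρ) hk) h0)⟩

lemma add (h : Bd f k) (h' : Bd g k) : Bd (fun ρ => f ρ + g ρ) k := by
  obtain ⟨C, h0, h⟩ := h
  obtain ⟨D, h0', h'⟩ := h'
  refine ⟨C + D, add_nonneg h0 h0', fun ρ => (abs_add_le _ _).trans ?_⟩
  rw [add_mul]
  exact add_le_add (h ρ) (h' ρ)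

lemma mul (h : Bd f k) (h' : Bd g l) : Bd (fun ρ => f ρ * g ρ) (k + l) := by
  obtain ⟨C, h0, h⟩ := h
  obtain ⟨D, h0', h'⟩ := h'
  refine ⟨C * D, mul_nonneg h0 h0', fun ρ => ?_⟩
  rw [abs_mul, zpow_add₀ (wpos ρ).ne', mul_mul_mul_comm]
  exact mul_le_mul (h ρ) (h' ρ) (abs_nonneg _) ((abs_nonneg _).trans (h ρ))

lemma const (c : ℝ) : Bd (fun _ => c) 0 := ⟨|c|, abs_nonneg c, fun _ => by simp⟩

lemma cmul (c : ℝ) (h : Bd f k) : Bd (fun ρ => c * f ρ) k := by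
  simpa using (const c).mul h

lemma sub (h : Bd f k) (h' : Bd g k) : Bd (fun ρ => f ρ - g ρ) k :=
  (h.add (h'.cmul (-1))).congr fun ρ => by ring

lemma pow (n : ℕ) : Bd (fun ρ => ρ ^ n) n :=
  ⟨1, zero_le_one, fun ρ => by
    rw [one_mul, zpow_natCast, abs_pow]
    exact pow_le_pow_left₀ (abs_nonneg ρ) (by linarith) n⟩

lemma id : Bd (fun ρ => ρ) 1 := by simpa using pow 1

lemma zero (k : ℤ) : Bd (fun _ => 0) k := ⟨0, le_rfl, fun _ => by simp⟩

lemma sum {ι : Type} (s : Finset ι) {F : ι → ℝ → ℝ} (h : ∀ i ∈ s, Bd (F i) k) :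
    Bd (fun ρ => ∑ i ∈ s, F i ρ) k := by
  classical
  induction s using Finset.induction_on with
  | empty => simpa using zero k
  | insert a s ha ih =>
    refine ((h a (Finset.mem_insert_self a s)).add
      (ih fun i hi => h i (Finset.mem_insert_of_mem hi))).congr fun ρ => ?_
    rw [Finset.sum_insert ha]

lemma of_mul {C : ℝ} {n : ℕ} (h : ∀ ρ, |f ρ| * (1 + |ρ|) ^ n ≤ C) : Bd f (-n) := by
  refine ⟨C, le_trans (by positivity) (h 0), fun ρ => ?_⟩
  rw [zpow_neg, zpow_natCast, ← div_eq_mul_inv, le_div_iff₀ (pow_pos (wpos ρ) n)]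
  exact h ρ

lemma inv : Bd (fun ρ => (1 + ρ ^ 6)⁻¹) (-6) := by
  refine of_mul (n := 6) (C := 32) fun ρ => ?_
  have h := add_pow_le zero_le_one (abs_nonneg ρ) 6
  have h6 : |ρ| ^ 6 = ρ ^ 6 := by rw [← abs_pow]; exact abs_of_nonneg (by positivity)
  rw [abs_of_pos (by positivity), inv_mul_le_iff₀ (by positivity)]
  rw [h6] at h
  norm_num at h
  linarith

lemma neg_arg (h : Bd f k) : Bd (fun ρ => f (-ρ)) k := by
  obtain ⟨C, h0, h⟩ := h
  exact ⟨C, h0, fun ρ => by simpa using h (-ρ)⟩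

lemma integrable (h : Bd f (-2)) (hf : Continuous f) : Integrable f := by
  obtain ⟨C, h0, h⟩ := h
  refine (integrable_inv_one_add_sq.const_mul C).mono' hf.aestronglyMeasurable
    (Eventually.of_forall fun ρ => (h ρ).trans (mul_le_mul_of_nonneg_left ?_ h0))
  rw [zpow_neg]
  refine inv_anti₀ (by positivity) ?_
  have h1 : (1 + |ρ|) ^ (2 : ℤ) = (1 + |ρ|) ^ (2 : ℕ) := zpow_natCast _ 2
  rw [h1, ← sq_abs ρ]
  nlinarith [abs_nonneg ρ]

lemma tendsto (h : Bd f (-1)) : Tendsto f atTop (𝓝 0) := by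
  obtain ⟨C, h0, h⟩ := h
  have h1 : Tendsto (fun ρ : ℝ => C * (1 + |ρ|) ^ (-1 : ℤ)) atTop (𝓝 0) := by
    simp only [zpow_neg_one]
    rw [← mul_zero C]
    exact (tendsto_inv_atTop_zero.comp
      (tendsto_atTop_add_const_left _ 1 tendsto_abs_atTop_atTop)).const_mul C
  exact squeeze_zero_norm h h1

/-- the tail integral -/
lemma tail {j : ℕ} (h : Bd f (-(j + 2 : ℕ))) :
    ∃ C : ℝ, 0 ≤ C ∧ ∀ ρ, 1 ≤ ρ → |∫ x in Ioi ρ, f x| * ρ ^ (j + 1) ≤ C := by
  obtain ⟨C, h0, h⟩ := h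
  refine ⟨C, h0, fun ρ hρ => ?_⟩
  have hρ0 : 0 < ρ := by linarith
  have h1 : ‖∫ x in Ioi ρ, f x‖ ≤ ∫ x in Ioi ρ, C / ρ ^ j * x ^ (-2 : ℝ) := by
    refine norm_integral_le_of_norm_le
      ((integrableOn_Ioi_rpow_of_lt (by norm_num) hρ0).const_mul _)
      (ae_restrict_of_forall_mem measurableSet_Ioi fun x hx => (h x).trans ?_)
    have hx' : ρ < x := hx
    have hx0 : 0 < x := by linarith
    rw [zpow_neg, zpow_natCast, Real.rpow_neg hx0.le, Real.rpow_two, div_eq_mul_inv, mul_assoc,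
      ← mul_inv, abs_of_pos hx0]
    refine mul_le_mul_of_nonneg_left (inv_anti₀ (by positivity) ?_) h0
    rw [pow_add]
    gcongr <;> linarith
  rw [integral_const_mul, integral_Ioi_rpow_of_lt (by norm_num) hρ0, Real.norm_eq_abs] at h1
  have h2 : -ρ ^ ((-2 : ℝ) + 1) / (-2 + 1) = ρ⁻¹ := by
    norm_num [Real.rpow_neg_one]
  rw [h2] at h1
  refine (mul_le_mul_of_nonneg_right h1 (by positivity)).trans (le_of_eq ?_)
  field_simp
  ring

end Bd

/-- the primitive vanishing at plus infinity -/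
noncomputable def HH (h : ℝ → ℝ) (ρ : ℝ) : ℝ := -∫ x in Ioi ρ, h x

lemma HH_add {h : ℝ → ℝ} (hi : Integrable h) (ρ : ℝ) : HH h ρ + ∫ x, h x = ∫ x in Iic ρ, h x := by
  rw [HH, ← intervalIntegral.integral_Iic_add_Ioi (b := ρ) hi.integrableOn hi.integrableOn]
  ring

lemma HH_der {h : ℝ → ℝ} (hi : Integrable h) (hc : Continuous h) (ρ : ℝ) :
    HasDerivAt (HH h) (h ρ) ρ := by
  have e : HH h = fun u => (∫ x in (0 : ℝ)..u, h x) + ((∫ x in Iic 0, h x) - ∫ x, h x) := by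
    funext u
    rw [← intervalIntegral.integral_Iic_sub_Iic hi.integrableOn hi.integrableOn, ← HH_add hi u]
    ring
  rw [e]
  exact (hc.integral_hasStrictDerivAt 0 ρ).hasDerivAt.add_const _

lemma HH_bd {h : ℝ → ℝ} (hi : Integrable h) : Bd (HH h) 0 := by
  refine ⟨∫ x, ‖h x‖, integral_nonneg fun _ => norm_nonneg _, fun ρ => ?_⟩
  rw [zpow_zero, mul_one, HH, abs_neg, ← Real.norm_eq_abs]
  exact (norm_integral_le_integral_norm _).trans
    (setIntegral_le_integral hi.norm (Eventually.of_forall fun _ => norm_nonneg _))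

lemma HH_tail {h : ℝ → ℝ} {j : ℕ} (hb : Bd h (-(j + 2 : ℕ))) (hc : Continuous h) :
    ∃ C : ℝ, 0 ≤ C ∧ (∀ ρ, 1 ≤ ρ → |HH h ρ| * ρ ^ (j + 1) ≤ C) ∧
      ∀ ρ, ρ ≤ -1 → |HH h ρ + ∫ x, h x| * |ρ| ^ (j + 1) ≤ C := by
  have hi : Integrable h := (hb.mono (by omega)).integrable hc
  obtain ⟨C, h0, hC⟩ := hb.tail
  obtain ⟨D, h0', hD⟩ := hb.neg_arg.tail
  refine ⟨C + D, add_nonneg h0 h0', fun ρ hρ => ?_, fun ρ hρ => ?_⟩
  · rw [HH, abs_neg]
    linarith [hC ρ hρ]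
  · have := hD (-ρ) (by linarith)
    rw [integral_comp_neg_Ioi, neg_neg] at this
    rw [HH_add hi, abs_of_neg (a := ρ) (by linarith)]
    linarith

lemma HH_bd_one {h : ℝ → ℝ} (hb : Bd h (-2)) (hc : Continuous h) (h0 : ∫ x, h x = 0) :
    Bd (HH h) (-1) := by
  obtain ⟨B, hB0, hB⟩ := HH_bd (hb.integrable hc)
  obtain ⟨C, hC0, h1, h2⟩ := HH_tail (j := 0) hb hc
  simp only [zpow_zero, mul_one, h0, add_zero, zero_add, pow_one] at hB h1 h2
  refine Bd.of_mul (n := 1) (C := 2 * B + C) fun ρ => ?_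
  have h3 := hB ρ
  have h4 := abs_nonneg (HH h ρ)
  rw [pow_one, mul_add, mul_one]
  rcases le_total 1 ρ with h5 | h5
  · have := h1 ρ h5
    rw [abs_of_pos (a := ρ) (by linarith)]
    linarith
  · rcases le_total ρ (-1) with h6 | h6
    · linarith [h2 ρ h6]
    · have : |ρ| ≤ 1 := abs_le.2 ⟨h6, h5⟩
      nlinarith

noncomputable def th (n : ℕ) (ρ : ℝ) : ℝ :=
  if n = 5 then Real.log (1 + ρ ^ 6) / 6 else ρ ^ (n + 1) * (1 + ρ ^ 6)⁻¹

noncomputable def td (n : ℕ) (ρ : ℝ) : ℝ :=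
  if n = 5 then ρ ^ 5 * (1 + ρ ^ 6)⁻¹
  else ((n + 1) * ρ ^ n + (n - 5) * ρ ^ (n + 6)) * ((1 + ρ ^ 6)⁻¹ * (1 + ρ ^ 6)⁻¹)

lemma th_der (n : ℕ) (ρ : ℝ) : HasDerivAt (th n) (td n ρ) ρ := by
  have h0 : (1 + ρ ^ 6) ≠ 0 := by positivity
  have h1 : HasDerivAt (fun x : ℝ => 1 + x ^ 6) (6 * ρ ^ 5) ρ := by
    simpa using (hasDerivAt_pow 6 ρ).const_add 1
  unfold th td
  split_ifs
  · refine ((h1.log h0).div_const 6).congr_deriv ?_
    field_simp
  · refine ((hasDerivAt_pow (n + 1) ρ).mul (h1.inv h0)).congr_deriv ?_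
    simp only [Pi.inv_apply, Nat.add_sub_cancel]
    push_cast
    field_simp
    ring

lemma inv_cont : Continuous fun ρ : ℝ => (1 + ρ ^ 6)⁻¹ :=
  Continuous.inv₀ (by fun_prop) fun ρ => by positivity

lemma td_cont (n : ℕ) : Continuous (td n) := by
  have := inv_cont
  unfold td
  split_ifs <;> fun_prop

lemma td_bd (n : ℕ) : Bd (td n) (n - 6) := by
  unfold td
  split_ifs with h
  · subst h
    exact ((Bd.pow 5).mul Bd.inv).mono (by norm_num)
  · exact (((((Bd.pow n).mono (l := (n + 6 : ℕ)) (by omega)).cmul _).add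
      ((Bd.pow (n + 6)).cmul _)).mul (Bd.inv.mul Bd.inv)).mono (by omega)

lemma th_bd' {n : ℕ} (h : n ≠ 5) : Bd (th n) (n - 5) := by
  unfold th
  simp only [if_neg h]
  exact ((Bd.pow (n + 1)).mul Bd.inv).mono (by omega)

lemma th_bd (n : ℕ) : Bd (th n) (n - 4) := by
  rcases eq_or_ne n 5 with rfl | h
  · refine ⟨1, zero_le_one, fun ρ => ?_⟩
    have h6 : |ρ| ^ 6 = ρ ^ 6 := by rw [← abs_pow]; exact abs_of_nonneg (by positivity)
    have h1 : 0 ≤ Real.log (1 + ρ ^ 6) := Real.log_nonneg (le_add_of_nonneg_right (by positivity))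
    have h2 : 1 + ρ ^ 6 ≤ (1 + |ρ|) ^ 6 := by
      have := pow_add_pow_le zero_le_one (abs_nonneg ρ) (n := 6) (by norm_num)
      rwa [one_pow, h6] at this
    have h3 := Real.log_le_log (by positivity) h2
    rw [Real.log_pow] at h3
    have h4 := Real.log_le_sub_one_of_pos (wpos ρ)
    simp only [th, if_true]
    rw [abs_of_nonneg (by positivity)]
    norm_num at h3 ⊢
    linarith
  · exact (th_bd' h).mono (by omega)

lemma th_phi {n : ℕ} (hn : n ≤ 5) {ρ : ℝ} (hρ : 1 ≤ |ρ|) :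
    |th n ρ - phi n ρ| * |ρ| ^ 7 ≤ |ρ| ^ n := by
  have h0 : 0 < |ρ| := by linarith
  have hρ0 : ρ ≠ 0 := abs_pos.1 h0
  have h6 : |ρ| ^ 6 = ρ ^ 6 := by rw [← abs_pow]; exact abs_of_nonneg (by positivity)
  have hp : 0 < ρ ^ 6 := by positivity
  unfold th phi
  split_ifs with h
  · subst h
    have e : Real.log (1 + ρ ^ 6) / 6 - Real.log |ρ| = Real.log ((1 + ρ ^ 6) / ρ ^ 6) / 6 := by
      rw [Real.log_div (by positivity) hp.ne', ← h6, Real.log_pow]
      push_cast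
      ring
    have h1 : 0 ≤ Real.log ((1 + ρ ^ 6) / ρ ^ 6) :=
      Real.log_nonneg ((one_le_div hp).2 (by linarith))
    have h2 := Real.log_le_sub_one_of_pos (show 0 < (1 + ρ ^ 6) / ρ ^ 6 by positivity)
    have h3 : (1 + ρ ^ 6) / ρ ^ 6 - 1 = 1 / |ρ| ^ 6 := by rw [h6]; field_simp; ring
    rw [h3] at h2
    rw [e, abs_of_nonneg (by positivity)]
    calc Real.log ((1 + ρ ^ 6) / ρ ^ 6) / 6 * |ρ| ^ 7 ≤ 1 / |ρ| ^ 6 * |ρ| ^ 7 := by
          exact mul_le_mul_of_nonneg_right (by linarith) (by positivity)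
      _ = |ρ| ^ 1 := by field_simp
      _ ≤ |ρ| ^ 5 := pow_le_pow_right₀ hρ (by norm_num)
  · have e : ρ ^ (n + 1) * (1 + ρ ^ 6)⁻¹ - ρ ^ n / ρ ^ 5 = -(ρ ^ n / (ρ ^ 5 * (1 + ρ ^ 6))) := by
      field_simp
      ring
    rw [e, abs_neg, abs_div, abs_mul, abs_pow, abs_pow, abs_of_pos (a := 1 + ρ ^ 6) (by positivity),
      div_mul_eq_mul_div, div_le_iff₀ (by positivity), ← h6]
    refine mul_le_mul_of_nonneg_left ?_ (by positivity)
    calc |ρ| ^ 7 ≤ |ρ| ^ (5 + 6) := pow_le_pow_right₀ hρ (by norm_num)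
      _ = |ρ| ^ 5 * |ρ| ^ 6 := pow_add _ _ _
      _ ≤ |ρ| ^ 5 * (1 + |ρ| ^ 6) := by gcongr; linarith

variable (χ : ℝ → ℝ) (ci : ℝ) (q : ℕ → ℝ)

noncomputable def cc (n : ℕ) : ℝ :=
  if n = 5 then q 5 * ci else if n = 6 then 0 else q n * ci / (n - 5)

noncomputable def PP (n : ℕ) (p : ℝ → ℝ) (ρ : ℝ) : ℝ :=
  cc ci q n * th n ρ + HH (fun x => p x - cc ci q n * td n x) ρ

noncomputable def pp (n : ℕ) (ρ : ℝ) : ℝ :=
  q n * (ρ ^ n * χ ρ - if n = 6 then ci else 0) +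
    ∑ i : Fin n, q (n - 1 - i) * ρ ^ (n - 1 - i) * χ ρ * (i * PP ci q i (pp i) ρ - ρ * pp i ρ)
termination_by n

noncomputable def WW (i : ℕ) (ρ : ℝ) : ℝ := i * PP ci q i (pp χ ci q i) ρ - ρ * pp χ ci q i ρ

noncomputable def hh (n : ℕ) (x : ℝ) : ℝ := pp χ ci q n x - cc ci q n * td n x

lemma pp_eq (n : ℕ) (ρ : ℝ) : pp χ ci q n ρ = q n * (ρ ^ n * χ ρ - if n = 6 then ci else 0) +
    ∑ i ∈ Finset.range n, q (n - 1 - i) * ρ ^ (n - 1 - i) * χ ρ * WW χ ci q i ρ := by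
  rw [pp, ← Fin.sum_univ_eq_sum_range
    (fun i => q (n - 1 - i) * ρ ^ (n - 1 - i) * χ ρ * WW χ ci q i ρ) n]
  rfl

lemma PP_eq (n : ℕ) (ρ : ℝ) :
    PP ci q n (pp χ ci q n) ρ = cc ci q n * th n ρ + HH (hh χ ci q n) ρ := rfl

lemma pp_zero (ρ : ℝ) : pp χ ci q 0 ρ = q 0 * χ ρ := by simp [pp_eq]

lemma pp_one (ρ : ℝ) : pp χ ci q 1 ρ = q 1 * (ρ * χ ρ) - q 0 * χ ρ * (ρ * (q 0 * χ ρ)) := by
  rw [pp_eq, Finset.sum_range_one, WW, pp_zero]
  simp [sub_eq_add_neg]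

variable {χ ci}

lemma chi_bd (h : ChiOK χ ci) : Bd χ (-6) :=
  let ⟨_, hC⟩ := h.bd; Bd.of_mul (n := 6) fun ρ => (hC ρ).1

lemma chi_bd' (h : ChiOK χ ci) : Bd (fun ρ => ρ ^ 6 * χ ρ - ci) (-6) :=
  let ⟨_, hC⟩ := h.bd; Bd.of_mul (n := 6) fun ρ => (hC ρ).2

lemma main_bd (h : ChiOK χ ci) {n : ℕ} (hn : n ≤ 6) :
    Bd (fun ρ => q n * (ρ ^ n * χ ρ - if n = 6 then ci else 0) - cc ci q n * td n ρ) (n - 8) := by
  have hδ := (chi_bd h).add (chi_bd' h)
  by_cases h5 : n = 5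
  · subst h5
    refine (((((Bd.pow 5).mul hδ).mul Bd.inv).cmul (q 5)).mono (by norm_num)).congr fun ρ => ?_
    have h0 : (1 + ρ ^ 6) ≠ 0 := by positivity
    simp only [cc, td, if_true]
    norm_num
    field_simp
    ring
  · by_cases h6 : n = 6
    · subst h6
      refine (((chi_bd' h).cmul (q 6)).mono (by norm_num)).congr fun ρ => ?_
      simp [cc]
    · have h7 : (n : ℝ) - 5 ≠ 0 := by
        rw [sub_ne_zero]
        exact_mod_cast h5
      refine ((((((Bd.pow n).mul hδ).mul Bd.inv).cmul (q n)).mono (l := n - 8) (by omega)).add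
        ((((Bd.pow n).mul (Bd.inv.mul Bd.inv)).cmul (q n * ci * (1 - (n + 1) / (n - 5)))).mono
          (by omega))).congr fun ρ => ?_
      have h0 : (1 + ρ ^ 6) ≠ 0 := by positivity
      simp only [cc, td, if_neg h5, if_neg h6]
      field_simp
      ring

lemma int_hh_one (h : ChiOK χ ci) : ∫ x, hh χ ci q 1 x = 0 := by
  have h1 : ∀ x, hh χ ci q 1 (-x) = -hh χ ci q 1 x := fun x => by
    simp only [hh, pp_one, td, h.even]
    norm_num
    ring
  have h2 := integral_neg_eq_self (hh χ ci q 1) volume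
  simp only [h1, integral_neg] at h2
  linarith

lemma good (h : ChiOK χ ci) (n : ℕ) (hn : n ≤ 6) :
    Continuous (hh χ ci q n) ∧ Bd (hh χ ci q n) (n - 8) ∧ Continuous (WW χ ci q n) ∧
      Bd (WW χ ci q n) (n - 2) := by
  induction n using Nat.strong_induction_on with
  | _ n ih =>
  have hχ := h.cont
  have hp : Continuous (pp χ ci q n) := by
    rw [funext (pp_eq χ ci q n)]
    refine Continuous.add (by fun_prop) (continuous_finsetSum _ fun i hi => ?_)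
    have := (ih i (Finset.mem_range.1 hi) (by have := Finset.mem_range.1 hi; omega)).2.2.1
    fun_prop
  have h1 : Continuous (hh χ ci q n) := hp.sub (continuous_const.mul (td_cont n))
  have h2 : Bd (hh χ ci q n) (n - 8) := by
    refine ((main_bd q h hn).add (Bd.sum (Finset.range n) (F := fun i ρ =>
      q (n - 1 - i) * ρ ^ (n - 1 - i) * χ ρ * WW χ ci q i ρ) fun i hi => ?_)).congr fun ρ => ?_
    · have hi' := Finset.mem_range.1 hi
      exact ((((Bd.pow (n - 1 - i)).cmul _).mul (chi_bd h)).mul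
        (ih i hi' (by omega)).2.2.2).mono (by omega)
    · rw [hh, pp_eq]
      ring
  have hi : Integrable (hh χ ci q n) := (h2.mono (by omega)).integrable h1
  have hP : Continuous (PP ci q n (pp χ ci q n)) :=
    continuous_iff_continuousAt.2 fun ρ =>
      (((th_der n ρ).const_mul (cc ci q n)).add (HH_der hi h1 ρ)).continuousAt
  refine ⟨h1, h2, (continuous_const.mul hP).sub (continuous_id.mul hp), Bd.sub ?_ ?_⟩
  · rcases Nat.lt_or_ge n 2 with h3 | h3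
    · interval_cases n
      · simpa using Bd.zero _
      · exact ((((th_bd 1).cmul _).mono (by norm_num)).add
          (HH_bd_one (h2.mono (by norm_num)) h1 (int_hh_one q h))).cmul _
    · exact ((((th_bd n).cmul _).mono (by omega)).add ((HH_bd hi).mono (by omega))).cmul _
  · refine ((Bd.id.mul ((h2.mono (l := n - 6) (by omega)).add
      ((td_bd n).cmul (cc ci q n)))).mono (by omega)).congr fun ρ => ?_
    rw [hh]
    ring

lemma bounds (h : ChiOK χ ci) (i : ℕ) : ∃ C : ℝ, 0 ≤ C ∧ (i ≤ 6 →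
    (∀ ρ, |WW χ ci q i ρ| * (1 + |ρ|) ^ 2 ≤ C * (1 + |ρ|) ^ i) ∧
    (∀ ρ, 1 ≤ ρ → |PP ci q i (pp χ ci q i) ρ - cc ci q i * phi i ρ| * ρ ^ 7 ≤ C * ρ ^ i) ∧
    ∀ ρ, ρ ≤ -1 → |PP ci q i (pp χ ci q i) ρ + (∫ x, hh χ ci q i x) - cc ci q i * phi i ρ|
      * |ρ| ^ 7 ≤ C * |ρ| ^ i) := by
  by_cases hi : i ≤ 6
  swap
  · exact ⟨0, le_rfl, fun h => absurd h hi⟩
  obtain ⟨h1, h2, -, A, hA0, hA⟩ := good q h i hi
  obtain ⟨B, hB0, hB1, hB2⟩ := HH_tail (j := 6 - i) (h2.mono (by omega)) h1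
  have hc0 := abs_nonneg (cc ci q i)
  have key : ∀ ρ H : ℝ, 1 ≤ |ρ| → |H| * |ρ| ^ (6 - i + 1) ≤ B →
      |cc ci q i * (th i ρ - phi i ρ) + H| * |ρ| ^ 7 ≤ (A + B + |cc ci q i|) * |ρ| ^ i := by
    intro ρ H hρ hH
    have h3 : |cc ci q i * (th i ρ - phi i ρ)| * |ρ| ^ 7 ≤ |cc ci q i| * |ρ| ^ i := by
      rcases hi.lt_or_eq with h4 | rfl
      · rw [abs_mul, mul_assoc]
        exact mul_le_mul_of_nonneg_left (th_phi (by omega) hρ) hc0
      · simp [cc]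
    have h4 : |H| * |ρ| ^ 7 ≤ B * |ρ| ^ i := by
      rw [show 7 = 6 - i + 1 + i by omega, pow_add, ← mul_assoc]
      exact mul_le_mul_of_nonneg_right hH (by positivity)
    have h5 : 0 ≤ A * |ρ| ^ i := by positivity
    have h6 := mul_le_mul_of_nonneg_right (abs_add_le (cc ci q i * (th i ρ - phi i ρ)) H)
      (show 0 ≤ |ρ| ^ 7 by positivity)
    linarith
  refine ⟨A + B + |cc ci q i|, by positivity, fun _ => ⟨fun ρ => ?_, fun ρ hρ => ?_,
    fun ρ hρ => ?_⟩⟩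
  · have h3 := mul_le_mul_of_nonneg_right (hA ρ) (show 0 ≤ (1 + |ρ|) ^ 2 by positivity)
    have h4 : (1 + |ρ|) ^ ((i : ℤ) - 2) * (1 + |ρ|) ^ 2 = (1 + |ρ|) ^ i := by
      rw [← zpow_natCast, ← zpow_natCast, ← zpow_add₀ (wpos ρ).ne']
      congr 1
      omega
    rw [mul_assoc, h4] at h3
    refine h3.trans (mul_le_mul_of_nonneg_right (by linarith) (by positivity))
  · have e : |ρ| = ρ := abs_of_pos (by linarith)
    have := key ρ (HH (hh χ ci q i) ρ) (by rwa [e]) (by rw [e]; exact hB1 ρ hρ)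
    rw [e] at this
    convert this using 3
    rw [PP_eq]
    ring
  · have := key ρ _ (by rw [abs_of_neg (by linarith)]; linarith) (hB2 ρ hρ)
    convert this using 3
    rw [PP_eq]
    ring

lemma int_hh_zero (h : ChiOK χ ci) : ∫ x, hh χ ci q 0 x = q 0 * ∫ ρ, χ ρ := by
  have i1 : Integrable χ := ((chi_bd h).mono (by norm_num)).integrable h.cont
  have i2 : Integrable (td 0) := ((td_bd 0).mono (by norm_num)).integrable (td_cont 0)
  have b : Bd (th 0) (-1) := (th_bd' (by norm_num)).mono (by norm_num)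
  have t : Tendsto (th 0) atBot (𝓝 0) := by
    simpa [Function.comp_def] using b.neg_arg.tendsto.comp tendsto_neg_atBot_atTop
  have := integral_of_hasDerivAt_of_tendsto (th_der 0) i2 t b.tendsto
  simp only [hh, pp_zero]
  rw [integral_sub (i1.const_mul _) (i2.const_mul _), integral_const_mul, integral_const_mul, this]
  ring

lemma int_hh_six (h0 : q 0 = 0) (h1 : q 1 = 0) (h2 : q 2 = 0) :
    ∫ x, hh χ ci q 6 x = q 6 * ∫ ρ, (ρ ^ 6 * χ ρ - ci) := by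
  have key : ∀ i, q i = 0 → i ≠ 5 → (∀ ρ, pp χ ci q i ρ = 0) → ∀ ρ, WW χ ci q i ρ = 0 := by
    intro i hq hi hp ρ
    have hc : cc ci q i = 0 := by simp [cc, hq, hi]
    simp [WW, PP, HH, hp, hc]
  have w0 := key 0 h0 (by norm_num) fun ρ => by simp [pp_zero, h0]
  have w1 := key 1 h1 (by norm_num) fun ρ => by simp [pp_one, h0, h1]
  have w2 := key 2 h2 (by norm_num) fun ρ => by simp [pp_eq, h2, w0, w1, Finset.sum_range_succ]
  rw [← integral_const_mul]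
  congr 1
  funext x
  simp [hh, pp_eq, cc, Finset.sum_range_succ, w0, w1, w2, h0, h1, h2]

end pdat

open pdat in
theorem pDataS : PDataStmt := by
  intro χ ci q h
  choose C hC0 hC using bounds q h
  have hle : ∀ i ≤ 6, C i ≤ ∑ j ∈ Finset.range 7, C j := fun i hi =>
    Finset.single_le_sum (fun j _ => hC0 j) (Finset.mem_range.2 (by omega))
  refine ⟨fun i => PP ci q i (pp χ ci q i), pp χ ci q, cc ci q, fun i => ∫ x, hh χ ci q i x,
    ∑ j ∈ Finset.range 7, C j, fun i hi ρ => ?_, fun n _ ρ => pp_eq χ ci q n ρ,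
    fun i hi ρ => ?_, fun i hi ρ hρ => ?_, fun i hi ρ hρ => ?_, by simp [cc], int_hh_zero q h,
    int_hh_one q h, int_hh_six q⟩
  · obtain ⟨h1, h2, -⟩ := good q h i hi
    refine (((th_der i ρ).const_mul (cc ci q i)).add
      (HH_der ((h2.mono (by omega)).integrable h1) h1 ρ)).congr_deriv ?_
    rw [hh]
    ring
  · exact ((hC i hi).1 ρ).trans (mul_le_mul_of_nonneg_right (hle i hi) (by positivity))
  · exact ((hC i hi).2.1 ρ hρ).trans
      (mul_le_mul_of_nonneg_right (hle i hi) (pow_nonneg (by linarith) _))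
  · exact ((hC i hi).2.2 ρ hρ).trans (mul_le_mul_of_nonneg_right (hle i hi) (by positivity))

end Pool.Agent.MP_c2f0e4_an
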