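import Pool.Agent.MP_c2f0e4_an.Iface

open Set Filter Topology Real Asymptotics

namespace Pool.Agent.MP_c2f0e4_an

lemma pest_term {M c ρ x W z : ℝ} {i k : ℕ} (hM : 1 ≤ M) (hz : 0 < z) (h6 : 6 ≤ i + k)
    (h12 : i + k ≤ 12) (hc : |c| ≤ M) (hx : |x| * (1 + |ρ|) ^ 6 ≤ M)
    (hW : |W| * (1 + |ρ|) ^ 2 ≤ M * (1 + |ρ|) ^ i) (hu : (1 + |ρ|) * z ≤ M) :
    |c * ρ ^ k * x * W * z ^ (i + k + 1)| * (1 + |ρ|) ^ 2 ≤ M ^ 9 * z ^ 7 := by
  obtain ⟨j, hj⟩ := Nat.exists_eq_add_of_le h6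
  have h1 : ((1 + |ρ|) * z) ^ j ≤ M ^ 6 :=
    (pow_le_pow_left₀ (by positivity) hu j).trans (pow_le_pow_right₀ hM (by omega))
  have h2 : (1 + |ρ|) ^ k * (1 + |ρ|) ^ i = (1 + |ρ|) ^ 6 * (1 + |ρ|) ^ j := by
    rw [← pow_add, ← pow_add, ← hj, add_comm k]
  calc _ = |c| * |ρ| ^ k * |x| * (|W| * (1 + |ρ|) ^ 2) * z ^ (6 + j + 1) := by
        rw [hj]
        simp only [abs_mul, abs_pow, abs_of_pos hz]
        ring
    _ ≤ M * (1 + |ρ|) ^ k * |x| * (M * (1 + |ρ|) ^ i) * z ^ (6 + j + 1) := by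
        gcongr
        linarith
    _ = M ^ 2 * (|x| * (1 + |ρ|) ^ 6) * ((1 + |ρ|) * z) ^ j * z ^ 7 := by
        rw [mul_pow]
        linear_combination M ^ 2 * |x| * z ^ (6 + j + 1) * h2
    _ ≤ M ^ 2 * M * M ^ 6 * z ^ 7 := by gcongr
    _ = _ := by ring

lemma pest_lin {M c ρ x y z : ℝ} (hz : 0 < z) (hc : 0 ≤ c) (hx : |x| * (1 + |ρ|) ^ 6 ≤ M)
    (hy : |y| ≤ c * |ρ * z|) : |z ^ 6 * x * y| * (1 + |ρ|) ^ 2 ≤ c * M * z ^ 7 := by
  have h0 : 1 ≤ 1 + |ρ| := by linarith [abs_nonneg ρ]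
  have h1 : |ρ| * (1 + |ρ|) ^ 2 ≤ (1 + |ρ|) ^ 6 :=
    calc _ ≤ (1 + |ρ|) * (1 + |ρ|) ^ 2 := by gcongr; linarith
      _ = (1 + |ρ|) ^ 3 := by ring
      _ ≤ _ := pow_le_pow_right₀ h0 (by norm_num)
  rw [abs_mul, abs_of_pos hz] at hy
  calc _ = z ^ 6 * |x| * |y| * (1 + |ρ|) ^ 2 := by simp only [abs_mul, abs_pow, abs_of_pos hz]
    _ ≤ z ^ 6 * |x| * (c * (|ρ| * z)) * (1 + |ρ|) ^ 2 := by gcongr
    _ = c * (|x| * (|ρ| * (1 + |ρ|) ^ 2)) * z ^ 7 := by ring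
    _ ≤ c * (|x| * (1 + |ρ|) ^ 6) * z ^ 7 := by gcongr
    _ ≤ _ := by gcongr

lemma pest_id {ρ z T x ci R Λ Q : ℝ} {q a b : ℕ → ℝ} (hT : T * z = 1)
    (hQ : Q = ∑ k ∈ Finset.range 6, q k * (ρ * z) ^ k + (ρ * z) ^ 6 * R)
    (hrec : ∀ n ≤ 6, b n = q n * (ρ ^ n * x - if n = 6 then ci else 0)
      + ∑ i ∈ Finset.range n, q (n - 1 - i) * ρ ^ (n - 1 - i) * x * (i * a i - ρ * b i)) :
    (T * Q * x - ∑ i ∈ Finset.range 7, (b i * (T + ρ * Q * x) * z ^ i - a i * (i * (Q * x) * z ^ i))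
      - (z ^ 5 * (ci * R) - 5 * (Q * x) * z ^ 5 * Λ)) * z =
    z ^ 6 * (ρ ^ 6 * x - ci) * (R - q 6) + z ^ 6 * x * (5 * Q * Λ) +
      ∑ i ∈ Finset.range 7, ∑ k ∈ Finset.range 7, if 6 ≤ i + k then
        (if k = 6 then R else q k) * ρ ^ k * x * (i * a i - ρ * b i) * z ^ (i + k + 1) else 0 := by
  have h0 := hrec 0 (by norm_num)
  have h1 := hrec 1 (by norm_num)
  have h2 := hrec 2 (by norm_num)
  have h3 := hrec 3 (by norm_num)
  have h4 := hrec 4 (by norm_num)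
  have h5 := hrec 5 (by norm_num)
  have h6 := hrec 6 (by norm_num)
  simp only [Finset.sum_range_succ, Finset.sum_range_zero] at h0 h1 h2 h3 h4 h5 h6 hQ ⊢
  norm_num at h0 h1 h2 h3 h4 h5 h6 hQ ⊢
  linear_combination (Q * x - (b 0 + b 1 * z + b 2 * z ^ 2 + b 3 * z ^ 3 + b 4 * z ^ 4 + b 5 * z ^ 5
      + b 6 * z ^ 6)) * hT - h0 - z * h1 - z ^ 2 * h2 - z ^ 3 * h3 - z ^ 4 * h4 - z ^ 5 * h5
    - z ^ 6 * h6 + (x + x * z * (-ρ * b 0 + (a 1 - ρ * b 1) * z + (2 * a 2 - ρ * b 2) * z ^ 2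
      + (3 * a 3 - ρ * b 3) * z ^ 3 + (4 * a 4 - ρ * b 4) * z ^ 4 + (5 * a 5 - ρ * b 5) * z ^ 5
      + (6 * a 6 - ρ * b 6) * z ^ 6)) * hQ

lemma pest_pt {M ρ z T x ci R Λ Q : ℝ} {q a b : ℕ → ℝ} (hM : 1 ≤ M) (hz : 0 < z) (hT : T * z = 1)
    (hQ : Q = ∑ k ∈ Finset.range 6, q k * (ρ * z) ^ k + (ρ * z) ^ 6 * R)
    (hrec : ∀ n ≤ 6, b n = q n * (ρ ^ n * x - if n = 6 then ci else 0)
      + ∑ i ∈ Finset.range n, q (n - 1 - i) * ρ ^ (n - 1 - i) * x * (i * a i - ρ * b i))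
    (hq : ∀ k < 6, |q k| ≤ M) (hR : |R| ≤ M) (hQM : |Q| ≤ M) (hL : |R - q 6| ≤ M * |ρ * z|)
    (hΛ : |Λ| ≤ M * |ρ * z|) (hx : |x| * (1 + |ρ|) ^ 6 ≤ M)
    (hy : |ρ ^ 6 * x - ci| * (1 + |ρ|) ^ 6 ≤ M)
    (hW : ∀ i ≤ 6, |i * a i - ρ * b i| * (1 + |ρ|) ^ 2 ≤ M * (1 + |ρ|) ^ i)
    (hu : (1 + |ρ|) * z ≤ M) :
    |T * Q * x - ∑ i ∈ Finset.range 7, (b i * (T + ρ * Q * x) * z ^ i - a i * (i * (Q * x) * z ^ i))
      - (z ^ 5 * (ci * R) - 5 * (Q * x) * z ^ 5 * Λ)| * (1 + ρ ^ 2) ≤ 55 * M ^ 9 * z ^ 6 := by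
  have e := pest_id (Λ := Λ) hT hQ hrec
  generalize T * Q * x - _ - _ = E at e ⊢
  have hM0 : 0 ≤ M := by linarith
  have h1 := pest_lin hz hM0 hy hL
  have h2 := pest_lin (c := 5 * M * M) (y := 5 * Q * Λ) hz (by positivity) hx (by
    rw [abs_mul, abs_mul, mul_assoc (5 * M), abs_of_pos (show (0 : ℝ) < 5 by norm_num)]
    gcongr)
  have h3 : |∑ i ∈ Finset.range 7, ∑ k ∈ Finset.range 7, if 6 ≤ i + k then
        (if k = 6 then R else q k) * ρ ^ k * x * (i * a i - ρ * b i) * z ^ (i + k + 1) else 0|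
      * (1 + |ρ|) ^ 2 ≤ ∑ i ∈ Finset.range 7, ∑ k ∈ Finset.range 7, M ^ 9 * z ^ 7 := by
    refine (mul_le_mul_of_nonneg_right ((Finset.abs_sum_le_sum_abs _ _).trans
      (Finset.sum_le_sum fun i _ => Finset.abs_sum_le_sum_abs _ _)) (by positivity)).trans ?_
    simp only [Finset.sum_mul]
    refine Finset.sum_le_sum fun i hi => Finset.sum_le_sum fun k hk => ?_
    rw [Finset.mem_range] at hi hk
    by_cases h : 6 ≤ i + k
    · rw [if_pos h]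
      refine pest_term hM hz h (by omega) ?_ hx (hW i (by omega)) hu
      split_ifs with h'
      exacts [hR, hq k (by omega)]
    · rw [if_neg h, abs_zero, zero_mul]
      positivity
  simp only [Finset.sum_const, Finset.card_range, nsmul_eq_mul, Nat.cast_ofNat] at h3
  have h4 := mul_le_mul_of_nonneg_right ((congrArg abs e).trans_le (abs_add_three _ _ _))
    (show 0 ≤ (1 + |ρ|) ^ 2 by positivity)
  have h5 : M * M * z ^ 7 ≤ M ^ 9 * z ^ 7 := by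
    rw [← sq]
    gcongr
    norm_num
  have h6 : M ^ 3 * z ^ 7 ≤ M ^ 9 * z ^ 7 := by
    gcongr
    norm_num
  have h7 : |E * z| * (1 + ρ ^ 2) ≤ |E * z| * (1 + |ρ|) ^ 2 := by
    gcongr
    nlinarith [abs_nonneg ρ, sq_abs ρ]
  refine le_of_mul_le_mul_right ?_ hz
  rw [abs_mul, abs_of_pos hz] at h4 h7
  nlinarith

lemma pest_cmp {f g f' g' : ℝ → ℝ} {a b K : ℝ} (hab : a ≤ b) (hK : 0 ≤ K)
    (hf : ∀ x ∈ Icc a b, HasDerivAt f (f' x) x) (hg : ∀ x ∈ Icc a b, HasDerivAt g (g' x) x)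
    (h : ∀ x ∈ Icc a b, |f' x| * (1 + g x ^ 2) ≤ K * g' x) : |f b - f a| ≤ π * K := by
  have key : ∀ s : ℝ, |s| = 1 → s * f b - s * f a ≤ π * K := fun s hs => by
    have hd := fun x hx => ((hf x hx).const_mul s).fun_sub ((hg x hx).arctan.const_mul K)
    have := sub_le_of_deriv_le (c := 0) finite_empty hab
      (fun x hx => (hd x hx).continuousAt.continuousWithinAt) fun x hx _ =>
        ⟨_, hd x (Ioo_subset_Icc_self hx), by
          have h1 := h x (Ioo_subset_Icc_self hx)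
          have h2 : s * f' x ≤ |f' x| := by
            simpa [abs_mul, hs] using le_abs_self (s * f' x)
          rw [← le_div_iff₀ (by positivity)] at h1
          have h3 : K * g' x / (1 + g x ^ 2) = K * (1 / (1 + g x ^ 2) * g' x) := by ring
          linarith⟩
    have h1 := mul_le_mul_of_nonneg_left (arctan_lt_pi_div_two (g b)).le hK
    have h2 := mul_le_mul_of_nonneg_left (neg_pi_div_two_lt_arctan (g a)).le hK
    linarith
  have h1 := key 1 abs_one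
  have h2 := key (-1) (by simp)
  rw [abs_le]
  constructor <;> linarith

lemma pest_pow {T : ℝ → ℝ} {g τ : ℝ} (h : HasDerivAt T (T τ * g) τ) (h0 : T τ ≠ 0) (i : ℕ) :
    HasDerivAt (fun t => (T t)⁻¹ ^ i) (-(i * g * (T τ)⁻¹ ^ i)) τ := by
  refine ((h.fun_inv h0).fun_pow i).congr_deriv ?_
  rcases i with _ | i
  · simp
  · rw [Nat.add_sub_cancel, pow_succ _ i]
    field_simp

theorem pEstS : PEstStmt := by
  intro χ ci q P p c e C R a b T hχ hP hH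
  have hab : a ≤ b := (hH.ha.trans hH.hb).le
  obtain ⟨C1, hC1⟩ := hχ.bd
  obtain ⟨L, hL⟩ := hH.lipR
  obtain ⟨MR, hMR⟩ := isCompact_Icc.exists_bound_of_continuousOn hH.contR
  obtain ⟨MQ, hMQ⟩ := isCompact_Icc.exists_bound_of_continuousOn
    (f := fun τ => ∑ k ∈ Finset.range 6, q k * τ ^ k + τ ^ 6 * R τ)
    ((Continuous.continuousOn (by fun_prop)).add
      ((Continuous.continuousOn (by fun_prop)).mul hH.contR))
  obtain ⟨M, ⟨⟨m1, m2⟩, m3, m4⟩, ⟨m5, m6⟩, ⟨m7, m8⟩, m9⟩ := ((((eventually_ge_atTop (1 : ℝ)).and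
    (eventually_ge_atTop C1)).and ((eventually_ge_atTop L).and (eventually_ge_atTop MR))).and
    (((eventually_ge_atTop MQ).and (eventually_ge_atTop C)).and
    (((eventually_ge_atTop (1 + (b - a))).and (eventually_ge_atTop (|ci| * MR))).and
    (eventually_ge_atTop (∑ k ∈ Finset.range 6, |q k|))))).exists
  have hRc : Continuous fun x => R (projIcc a b hab x) :=
    hH.contR.comp_continuous (continuous_subtype_val.comp continuous_projIcc)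
      fun x => (projIcc a b hab x).2
  set Λ : ℝ → ℝ := fun τ => ci * ∫ x in (0 : ℝ)..τ, R (projIcc a b hab x) with hΛ
  have dΛ : ∀ τ ∈ Icc a b, HasDerivAt Λ (ci * R τ) τ := fun τ hτ => by
    have := (hRc.integral_hasStrictDerivAt 0 τ).hasDerivAt.const_mul ci
    rwa [projIcc_of_mem hab hτ] at this
  have bΛ : ∀ τ, |Λ τ| ≤ M * |τ| := fun τ => by
    have := intervalIntegral.norm_integral_le_of_norm_le_const (a := 0) (b := τ)
      (f := fun x => R (projIcc a b hab x)) fun x _ => hMR _ (projIcc a b hab x).2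
    rw [sub_zero, Real.norm_eq_abs] at this
    rw [hΛ, abs_mul]
    exact (mul_le_mul_of_nonneg_left this (abs_nonneg _)).trans (by rw [← mul_assoc]; gcongr)
  have hσ : ∀ ρ : ℝ, 1 + |ρ| ≤ (1 + |ρ|) ^ 6 := fun ρ =>
    le_self_pow₀ (by linarith [abs_nonneg ρ]) (by norm_num)
  have hχ1 : ∀ ρ, |χ ρ| * (1 + |ρ|) ≤ M := fun ρ =>
    (mul_le_mul_of_nonneg_left (hσ ρ) (abs_nonneg _)).trans ((hC1 ρ).1.trans m2)
  set Q : ℝ → ℝ := fun τ => ∑ k ∈ Finset.range 6, q k * τ ^ k + τ ^ 6 * R τ with hQ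
  have bQ : ∀ τ ∈ Icc a b, |Q τ| ≤ M := fun τ hτ => (hMQ τ hτ).trans m5
  have dT : ∀ n, ∀ τ ∈ Icc a b, HasDerivAt (T n) (T n τ * (Q τ * χ (τ * T n τ))) τ :=
    fun n τ hτ => (hH.ode n τ hτ).congr_deriv (mul_assoc _ _ _)
  have hg : ∀ τ ∈ Icc a b, ∀ ρ, |Q τ * χ ρ| * (1 + |ρ|) ≤ M * M := fun τ hτ ρ => by
    rw [abs_mul, mul_assoc]
    exact mul_le_mul (bQ τ hτ) (hχ1 ρ) (by positivity) (by linarith)
  set k := Real.exp (-(M * M) * (b - a)) with hk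
  have hk0 : 0 < k := Real.exp_pos _
  have hlow : ∀ n, ∀ τ ∈ Icc a b, k * T n a ≤ T n τ := fun n τ hτ => by
    have hs : Icc a τ ⊆ Icc a b := Icc_subset_Icc_right hτ.2
    have hd := fun x hx => (dT n x (hs hx)).log (hH.pos n x (hs hx)).ne'
    have := le_sub_of_le_deriv (c := -(M * M)) finite_empty hτ.1
      (fun x hx => (hd x hx).continuousAt.continuousWithinAt) fun x hx _ =>
        ⟨_, hd x (Ioo_subset_Icc_self hx), by
          have hx' := hs (Ioo_subset_Icc_self hx)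
          rw [mul_div_cancel_left₀ _ (hH.pos n x hx').ne']
          have h1 := hg x hx' (x * T n x)
          have h2 := neg_abs_le (Q x * χ (x * T n x))
          nlinarith [abs_nonneg (Q x * χ (x * T n x)), abs_nonneg (x * T n x)]⟩
    have ha := hH.pos n a (left_mem_Icc.2 hab)
    rw [← Real.log_le_log_iff (mul_pos hk0 ha) (hH.pos n τ hτ), Real.log_mul hk0.ne' ha.ne', hk,
      Real.log_exp]
    nlinarith [mul_nonneg (mul_self_nonneg M) (sub_nonneg.2 hτ.2)]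
  refine ⟨Λ a, Λ b, k, hk0, fun n => hlow n b (right_mem_Icc.2 hab),
    IsBigO.of_bound (π * (110 * M ^ 9 * k⁻¹ ^ 7)) ?_⟩
  filter_upwards [(hH.lim.const_mul_atTop hk0).eventually_ge_atTop (2 * (M * M))] with n hn
  have ha := hH.pos n a (left_mem_Icc.2 hab)
  rw [Real.norm_eq_abs, Real.norm_of_nonneg (by positivity), mul_assoc]
  have dρ : ∀ τ ∈ Icc a b, HasDerivAt (fun τ => τ * T n τ)
      (T n τ + τ * T n τ * Q τ * χ (τ * T n τ)) τ := fun τ hτ =>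
    ((hasDerivAt_id' τ).fun_mul (dT n τ hτ)).congr_deriv (by ring)
  refine pest_cmp (f := fun τ => PInt P τ (T n τ) (Λ τ)) hab (by positivity) (f' := fun τ =>
    T n τ * Q τ * χ (τ * T n τ) - ∑ i ∈ Finset.range 7,
      (p i (τ * T n τ) * (T n τ + τ * T n τ * Q τ * χ (τ * T n τ)) * (T n τ)⁻¹ ^ i
        - P i (τ * T n τ) * (i * (Q τ * χ (τ * T n τ)) * (T n τ)⁻¹ ^ i))
      - ((T n τ)⁻¹ ^ 5 * (ci * R τ) - 5 * (Q τ * χ (τ * T n τ)) * (T n τ)⁻¹ ^ 5 * Λ τ))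
    (fun τ hτ => ?_) dρ fun τ hτ => ?_
  · have h0 := (hH.pos n τ hτ).ne'
    refine ((hH.ode n τ hτ).fun_sub (HasDerivAt.fun_sum fun i hi => ?_)).fun_sub ?_
    · exact (((hP.der i (Nat.lt_succ_iff.1 (Finset.mem_range.1 hi)) _).comp τ (dρ τ hτ)).fun_mul
        (pest_pow (dT n τ hτ) h0 i)).congr_deriv (by simp only [Function.comp]; ring)
    · exact ((pest_pow (dT n τ hτ) h0 5).fun_mul (dΛ τ hτ)).congr_deriv (by push_cast; ring)
  · have h0 := hH.pos n τ hτ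
    have h1 := hn.trans (hlow n τ hτ)
    have e1 : τ * T n τ * (T n τ)⁻¹ = τ := mul_inv_cancel_right₀ h0.ne' τ
    have hz : (T n τ)⁻¹ ≤ 1 := inv_le_one_of_one_le₀ (by nlinarith)
    have hz' : (T n τ)⁻¹ ≤ k⁻¹ * (T n a)⁻¹ := by
      rw [← mul_inv]
      exact inv_anti₀ (mul_pos hk0 ha) (hlow n τ hτ)
    refine (pest_pt (q := q) (a := fun i => P i (τ * T n τ)) (b := fun i => p i (τ * T n τ)) m1
      (inv_pos.2 h0) (mul_inv_cancel₀ h0.ne') (by rw [e1]) (fun i hi => hP.recur i hi _)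
      (fun j hj => (Finset.single_le_sum (f := fun j => |q j|) (fun _ _ => abs_nonneg _)
        (Finset.mem_range.2 hj)).trans m9) ((hMR τ hτ).trans m4) (bQ τ hτ)
      (by rw [e1]; exact (hL τ hτ).trans (by gcongr)) (by rw [e1]; exact bΛ τ)
      ((hC1 _).1.trans m2) ((hC1 _).2.trans m2)
      (fun i hi => (hP.wbd i hi _).trans (by gcongr)) ?_).trans ?_
    · rw [add_mul, one_mul, ← abs_of_pos (inv_pos.2 h0), ← abs_mul, e1, abs_of_pos (inv_pos.2 h0)]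
      have : |τ| ≤ b - a := abs_le.2 ⟨by linarith [hτ.1, hH.hb], by linarith [hτ.2, hH.ha]⟩
      linarith
    · have h2 := hg τ hτ (τ * T n τ)
      have h3 := neg_abs_le (τ * T n τ * (Q τ * χ (τ * T n τ)))
      rw [abs_mul] at h3
      have h4 : T n τ / 2 ≤ T n τ + τ * T n τ * Q τ * χ (τ * T n τ) := by
        nlinarith [abs_nonneg (Q τ * χ (τ * T n τ))]
      calc _ = 110 * M ^ 9 * (T n τ)⁻¹ ^ 7 * (T n τ / 2) := by field_simp; norm_num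
        _ ≤ 110 * M ^ 9 * (k⁻¹ * (T n a)⁻¹) ^ 7 * (T n τ + τ * T n τ * Q τ * χ (τ * T n τ)) := by
          gcongr
        _ = _ := by ring

end Pool.Agent.MP_c2f0e4_an
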