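import Pool.Agent.MP_c2f0e4_an.Iface

open Set Filter Topology Real Asymptotics

namespace Pool.Agent.MP_c2f0e4_an

/-- order of magnitude `z ^ k` -/
def pinvO (z : ℕ → ℝ) (k : ℕ) (f : ℕ → ℝ) : Prop := f =O[atTop] fun n => z n ^ k

theorem pinv_bdd {z u : ℕ → ℝ} {a : ℝ} (hu : Tendsto u atTop (𝓝 a)) : pinvO z 0 u := by
  unfold pinvO
  simpa using hu.isBigO_one ℝ

theorem pinv_const (z : ℕ → ℝ) (a : ℝ) : pinvO z 0 fun _ => a := pinv_bdd tendsto_const_nhds

theorem pinv_pow (z : ℕ → ℝ) (k : ℕ) : pinvO z k fun n => z n ^ k := isBigO_refl _ _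

theorem pinv_mul {z f g : ℕ → ℝ} {k l : ℕ} (hf : pinvO z k f) (hg : pinvO z l g) :
    pinvO z (k + l) fun n => f n * g n := by
  unfold pinvO at *
  simpa [pow_add] using hf.mul hg

theorem pinv_cmul {z f : ℕ → ℝ} {k : ℕ} (c : ℝ) (hf : pinvO z k f) :
    pinvO z k fun n => c * f n := hf.const_mul_left c

theorem pinv_add {z f g : ℕ → ℝ} {k : ℕ} (hf : pinvO z k f) (hg : pinvO z k g) :
    pinvO z k fun n => f n + g n := hf.add hg

theorem pinv_mono {z f : ℕ → ℝ} (hz : Tendsto z atTop (𝓝 0)) {k : ℕ} (l : ℕ) (h : l ≤ k)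
    (hf : pinvO z k f) : pinvO z l f := by
  obtain ⟨c, rfl⟩ := Nat.exists_eq_add_of_le h
  have h1 := pinv_mul (pinv_pow z l) (pinv_bdd (z := z) (hz.pow c))
  unfold pinvO at *
  refine hf.trans ?_
  simpa [pow_add] using h1

theorem pinv_congr {z f g : ℕ → ℝ} {k : ℕ} (hf : pinvO z k f) (h : ∀ᶠ n in atTop, f n = g n) :
    pinvO z k g := hf.congr' h EventuallyEq.rfl

theorem pinv_log {T : ℕ → ℝ} (hT : Tendsto T atTop atTop) :
    Tendsto (fun n => (T n)⁻¹ * Real.log (T n)) atTop (𝓝 0) := by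
  have h := (Real.isLittleO_log_id_atTop.tendsto_div_nhds_zero).comp hT
  refine h.congr fun n => ?_
  simp [div_eq_inv_mul]

theorem pinv_log_one {x : ℕ → ℝ} (hx : Tendsto x atTop (𝓝 0)) :
    (fun n => Real.log (1 + x n) - x n) =O[atTop] fun n => x n ^ 2 := by
  refine IsBigO.of_bound 2 ?_
  filter_upwards [hx.eventually (Ioo_mem_nhds (show (-1 / 2 : ℝ) < 0 by norm_num)
    (show (0 : ℝ) < 1 / 2 by norm_num))] with n hn
  obtain ⟨h1, h2⟩ := hn
  have hp : 0 < 1 + x n := by linarith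
  have a1 := Real.log_le_sub_one_of_pos hp
  have a2 := Real.one_sub_inv_le_log_of_pos hp
  have a3 : (1 + x n)⁻¹ ≤ 1 - x n + 2 * x n ^ 2 := by
    rw [inv_eq_one_div, div_le_iff₀ hp]
    nlinarith [sq_nonneg (x n), mul_nonneg (sq_nonneg (x n)) (show 0 ≤ 1 + 2 * x n by linarith)]
  rw [Real.norm_eq_abs, Real.norm_eq_abs, abs_of_nonneg (sq_nonneg (x n)), abs_le]
  constructor <;> nlinarith [sq_nonneg (x n)]

theorem pInvS : PInvStmt := by
  intro Ta Tb e ca cb κ hTa hTb he1 H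
  obtain ⟨z, hzd⟩ : ∃ z : ℕ → ℝ, z = fun n => (Ta n)⁻¹ := ⟨_, rfl⟩
  obtain ⟨w, hwd⟩ : ∃ w : ℕ → ℝ, w = fun n => (Tb n)⁻¹ := ⟨_, rfl⟩
  obtain ⟨L, hLd⟩ : ∃ L : ℕ → ℝ, L = fun n => Real.log (Ta n) := ⟨_, rfl⟩
  obtain ⟨N, hNd⟩ : ∃ N : ℕ → ℝ, N = fun n => Real.log (Tb n) := ⟨_, rfl⟩
  obtain ⟨D, hDd⟩ : ∃ D : ℕ → ℝ, D = fun n => Tb n - Ta n := ⟨_, rfl⟩
  obtain ⟨R, hRd⟩ : ∃ R : ℕ → ℝ, R = fun n => D n - cb * w n ^ 5 - κ * w n ^ 5 * N n -
    (e 0 + e 2 * z n ^ 2 + e 3 * z n ^ 3 + e 4 * z n ^ 4 + e 5 * z n ^ 5 + e 6 * z n ^ 6) +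
      ca * z n ^ 5 + κ * z n ^ 5 * L n := ⟨_, rfl⟩
  have hz : Tendsto z atTop (𝓝 0) := by rw [hzd]; exact hTa.inv_tendsto_atTop
  have hw : Tendsto w atTop (𝓝 0) := by rw [hwd]; exact hTb.inv_tendsto_atTop
  have hzL : Tendsto (fun n => z n * L n) atTop (𝓝 0) := by
    rw [hzd, hLd]; exact pinv_log hTa
  have hwN : Tendsto (fun n => w n * N n) atTop (𝓝 0) := by
    rw [hwd, hNd]; exact pinv_log hTb
  have hR : pinvO z 7 R := by
    unfold pinvO
    rw [hzd]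
    refine H.congr_left fun n => ?_
    simp only [hRd, hDd, hwd, hzd, hLd, hNd, Finset.sum_range_succ, Finset.range_zero,
      Finset.sum_empty, he1]
    ring
  have hR0 : Tendsto R atTop (𝓝 0) := by
    have h7 : Tendsto (fun n => z n ^ 7) atTop (𝓝 0) := by simpa using hz.pow 7
    exact hR.trans_tendsto h7
  have hDe : ∀ n, D n - e 0 = R n + cb * w n ^ 5 + κ * (w n ^ 4 * (w n * N n)) +
      z n ^ 2 * (e 2 + e 3 * z n + e 4 * z n ^ 2 + (e 5 - ca) * z n ^ 3 + e 6 * z n ^ 4 -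
        κ * z n ^ 2 * (z n * L n)) := by
    intro n
    simp only [hRd]
    ring
  have hP : Tendsto (fun n => e 2 + e 3 * z n + e 4 * z n ^ 2 + (e 5 - ca) * z n ^ 3 +
      e 6 * z n ^ 4 - κ * z n ^ 2 * (z n * L n)) atTop
      (𝓝 (e 2 + e 3 * 0 + e 4 * 0 ^ 2 + (e 5 - ca) * 0 ^ 3 + e 6 * 0 ^ 4 - κ * 0 ^ 2 * 0)) :=
    (((((tendsto_const_nhds.add (hz.const_mul _)).add ((hz.pow 2).const_mul _)).add
      ((hz.pow 3).const_mul _)).add ((hz.pow 4).const_mul _))).sub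
      (((hz.pow 2).const_mul _).mul hzL)
  have hD : Tendsto D atTop (𝓝 (e 0)) := by
    have h1 := ((hR0.add ((hw.pow 5).const_mul cb)).add
      (((hw.pow 4).mul hwN).const_mul κ)).add ((hz.pow 2).mul hP)
    have h2 : Tendsto (fun n => D n - e 0) atTop (𝓝 0) := by
      simp only [hDe]
      convert h1 using 2
      simp
    simpa using h2.add_const (e 0)
  obtain ⟨x, hxd⟩ : ∃ x : ℕ → ℝ, x = fun n => D n * z n := ⟨_, rfl⟩
  obtain ⟨v, hvd⟩ : ∃ v : ℕ → ℝ, v = fun n => (1 + x n)⁻¹ := ⟨_, rfl⟩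
  have hx : Tendsto x atTop (𝓝 0) := by rw [hxd]; simpa using hD.mul hz
  have hv : Tendsto v atTop (𝓝 1) := by
    rw [hvd]
    simpa using (hx.const_add 1).inv₀ (by norm_num)
  have hev : ∀ᶠ n in atTop, w n = z n * v n ∧ N n = L n + Real.log (1 + x n) ∧
      v n * (1 + x n) = 1 := by
    filter_upwards [hTa.eventually_gt_atTop 0, hTb.eventually_gt_atTop 0] with n h1 h2
    have h3 : 1 + x n = Tb n / Ta n := by
      simp only [hxd, hDd, hzd]
      field_simp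
      ring
    refine ⟨?_, ?_, ?_⟩
    · simp only [hvd, h3, hwd, hzd]
      field_simp
    · simp only [h3, hNd, hLd]
      rw [Real.log_div h2.ne' h1.ne']
      ring
    · simp only [hvd]
      exact inv_mul_cancel₀ (by rw [h3]; positivity)
  have z1 : pinvO z 1 z := by simpa using pinv_pow z 1
  have w1 : pinvO z 1 w :=
    pinv_congr (pinv_mul z1 (pinv_bdd hv)) (hev.mono fun n h => h.1.symm)
  have w4 : pinvO z 4 fun n => w n ^ 4 := by
    unfold pinvO at *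
    simpa using w1.pow 4
  have D2 : pinvO z 2 fun n => D n - e 0 := by
    simp only [hDe]
    refine pinv_add (pinv_add (pinv_add (pinv_mono hz 2 (by norm_num) hR) (pinv_cmul _ ?_))
      (pinv_cmul _ ?_)) (pinv_mul (pinv_pow z 2) (pinv_bdd hP))
    · exact pinv_mono hz 2 (by norm_num)
        (pinv_congr (pinv_mul w4 w1) (Eventually.of_forall fun n => by ring))
    · exact pinv_mono hz 2 (by norm_num) (pinv_mul w4 (pinv_bdd hwN))
  have x1 : pinvO z 1 x := by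
    rw [hxd]
    exact pinv_mul (pinv_bdd hD) z1
  have x3 : pinvO z 3 fun n => x n - e 0 * z n :=
    pinv_congr (pinv_mul D2 z1) (Eventually.of_forall fun n => by simp only [hxd]; ring)
  have hQ : Tendsto (fun n => -((35 + 105 * x n + 126 * x n ^ 2 + 70 * x n ^ 3 + 15 * x n ^ 4) *
      v n ^ 5)) atTop (𝓝 (-((35 + 105 * 0 + 126 * 0 ^ 2 + 70 * 0 ^ 3 + 15 * 0 ^ 4) * 1 ^ 5))) :=
    (((((tendsto_const_nhds.add (hx.const_mul _)).add ((hx.pow 2).const_mul _)).add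
      ((hx.pow 3).const_mul _)).add ((hx.pow 4).const_mul _)).mul (hv.pow 5)).neg
  have V3 : pinvO z 3 fun n => v n ^ 5 - (1 - 5 * x n + 15 * x n ^ 2) := by
    refine pinv_congr (pinv_mul (pinv_mul (pinv_mul x1 x1) x1) (pinv_bdd hQ))
      (hev.mono fun n h => ?_)
    have h5 : v n ^ 5 * (1 + x n) ^ 5 = 1 := by rw [← mul_pow, h.2.2, one_pow]
    linear_combination (-(1 - 5 * x n + 15 * x n ^ 2)) * h5
  have A3 : pinvO z 3 fun n => v n ^ 5 - 1 + 5 * e 0 * z n - 15 * e 0 ^ 2 * z n ^ 2 := by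
    have h1 := pinv_mono hz 3 (by norm_num)
      (pinv_cmul 15 (pinv_mul x3 (pinv_add x1 (pinv_cmul (e 0) z1))))
    exact pinv_congr (pinv_add (pinv_add V3 (pinv_cmul (-5) x3)) h1)
      (Eventually.of_forall fun n => by ring)
  have A2 : pinvO z 2 fun n => v n ^ 5 - 1 + 5 * e 0 * z n :=
    pinv_congr (pinv_add (pinv_mono hz 2 (by norm_num) A3) (pinv_cmul (15 * e 0 ^ 2) (pinv_pow z 2)))
      (Eventually.of_forall fun n => by ring)
  have A1 : pinvO z 1 fun n => v n ^ 5 - 1 :=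
    pinv_congr (pinv_add (pinv_mono hz 1 (by norm_num) A2) (pinv_cmul (-5 * e 0) z1))
      (Eventually.of_forall fun n => by ring)
  have l2 : pinvO z 2 fun n => Real.log (1 + x n) - x n := by
    have h1 : pinvO z 2 fun n => x n ^ 2 :=
      pinv_congr (pinv_mul x1 x1) (Eventually.of_forall fun n => by ring)
    exact (pinv_log_one hx).trans h1
  have l1 : pinvO z 1 fun n => Real.log (1 + x n) :=
    pinv_congr (pinv_add (pinv_mono hz 1 (by norm_num) l2) x1)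
      (Eventually.of_forall fun n => by ring)
  have B2 : pinvO z 2 fun n => v n ^ 5 * Real.log (1 + x n) - e 0 * z n :=
    pinv_congr (pinv_add (pinv_add (pinv_mul A1 l1) l2) (pinv_mono hz 2 (by norm_num) x3))
      (Eventually.of_forall fun n => by ring)
  refine ⟨fun i => if i = 5 then e 5 - ca + cb else if i = 6 then e 6 + κ * e 0 - 5 * cb * e 0
    else e i, ?_, by simp, fun h => by simp [h]⟩
  have t1 := pinv_cmul cb (pinv_mul (pinv_pow z 5) A2)
  have t2 := pinv_cmul κ (pinv_mul (pinv_mul (pinv_pow z 4) (pinv_bdd (z := z) hzL)) A3)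
  have t3 := pinv_cmul κ (pinv_mul (pinv_pow z 5) B2)
  have tot : pinvO z 7 fun n => D n - (e 0 + e 2 * z n ^ 2 + e 3 * z n ^ 3 + e 4 * z n ^ 4 +
      (e 5 - ca + cb) * z n ^ 5 + (e 6 + κ * e 0 - 5 * cb * e 0) * z n ^ 6 +
      -5 * κ * e 0 * z n ^ 6 * L n + 15 * κ * e 0 ^ 2 * z n ^ 7 * L n) := by
    refine pinv_congr (pinv_add (pinv_add (pinv_add hR t1) t2) t3) (hev.mono fun n h => ?_)
    simp only [hRd, h.1, h.2.1]
    ring
  unfold AsyP
  unfold pinvO at tot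
  rw [hzd] at tot
  refine tot.congr_left fun n => ?_
  simp only [hDd, hLd, Finset.sum_range_succ, Finset.range_zero, Finset.sum_empty]
  norm_num [he1]
  ring

end Pool.Agent.MP_c2f0e4_an
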