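import Pool.Agent.MP_c2f0e4_an.Iface

open Set Filter Topology Real Asymptotics

namespace Pool.Agent.MP_c2f0e4_an

def polef_p (c0 c1 c2 c3 c4 c5 c6 u : ℝ) : ℝ :=
  c0 + c1 * u + c2 * u ^ 2 + c3 * u ^ 3 + c4 * u ^ 4 + c5 * u ^ 5 + c6 * u ^ 6

lemma polef_poly (c0 c1 c2 c3 c4 c5 c6 x : ℝ) :
    HasDerivAt (fun x => polef_p c0 c1 c2 c3 c4 c5 c6 (sin x))
      (polef_p c1 (2 * c2) (3 * c3) (4 * c4) (5 * c5) (6 * c6) 0 (sin x) * cos x) x := by
  have h := hasDerivAt_sin x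
  refine HasDerivAt.congr_deriv (f' := _) ((((((((h.const_mul c1).const_add c0).add
    ((h.pow 2).const_mul c2)).add ((h.pow 3).const_mul c3)).add ((h.pow 4).const_mul c4)).add
    ((h.pow 5).const_mul c5)).add ((h.pow 6).const_mul c6))) ?_
  simp only [polef_p]
  push_cast
  ring

lemma polef_prim (a0 a1 a2 a3 l1 l2 l3 : ℝ) : ∃ G : ℝ → ℝ, Function.Periodic G (2 * π) ∧
    ∀ x, HasDerivAt G (Cub a0 a1 a2 a3 x * (1 + l1 * sin x + l2 * sin x ^ 2 + l3 * sin x ^ 3) -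
      (l1 * (a1 + 3 * a3) / 8 + l3 * (a1 + 5 * a3) / 16)) x := by
  refine ⟨fun x => polef_p 0 a0 (a0 * l1 / 2) ((a0 * l2 + (a2 - a0)) / 3)
    ((a0 * l3 + (a2 - a0) * l1) / 4) ((a2 - a0) * l2 / 5) ((a2 - a0) * l3 / 6) (sin x) -
    cos x * polef_p (a1 + 2 * (a1 * l2 + (a3 - a1)) / 3 + 8 * ((a3 - a1) * l2) / 15)
      (a1 * l1 / 2 + 3 * (a1 * l3 + (a3 - a1) * l1) / 8 + 5 * ((a3 - a1) * l3) / 16)
      ((a1 * l2 + (a3 - a1)) / 3 + 4 * ((a3 - a1) * l2) / 15)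
      ((a1 * l3 + (a3 - a1) * l1) / 4 + 5 * ((a3 - a1) * l3) / 24)
      ((a3 - a1) * l2 / 5) ((a3 - a1) * l3 / 6) 0 (sin x),
    fun x => by simp only [sin_add_two_pi, cos_add_two_pi], fun x => ?_⟩
  refine HasDerivAt.congr_deriv (f' := _) ((polef_poly _ _ _ _ _ _ _ x).sub
    ((hasDerivAt_cos x).mul (polef_poly _ _ _ _ _ _ _ x))) ?_
  have h : cos x ^ 2 = 1 - sin x ^ 2 := cos_sq' x
  have h3 : cos x ^ 3 = cos x * (1 - sin x ^ 2) := by rw [← h]; ring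
  rw [mul_left_comm (cos x), ← pow_two, Cub, h, h3]
  simp only [polef_p]
  ring

lemma polef_low {A B U : ℝ → ℝ} (h : Sol A B U) {α β : ℝ} (hA : ∀ x, |A x| ≤ α)
    (hB : ∀ x, |B x| ≤ β) {x0 : ℝ} (h0 : 7 * (α + β + 1) + 1 ≤ U x0) :
    ∀ x ∈ Icc x0 (x0 + 2 * π), U x0 - 7 * (α + β + 1) ≤ U x := by
  have hα := (abs_nonneg _).trans (hA 0)
  have hβ := (abs_nonneg _).trans (hB 0)
  have h1 : ∀ x ∈ Icc x0 (x0 + 2 * π),
      U x0 - 7 * (α + β + 1) ≤ U x0 - (α + β + 1) * (x - x0) := fun x hx => by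
    nlinarith [hx.2, pi_lt_d2]
  have h2 := pos_of_deriv_pos_at_zeros
    (f := fun x => U x ^ 3 - (U x0 - (α + β + 1) * (x - x0)) ^ 3) (a := x0) (b := x0 + 2 * π)
    ((h.1.pow 3).sub (by fun_prop)).continuousOn (by simp) fun x hx h3 => by
      have h4 : U x = U x0 - (α + β + 1) * (x - x0) := cube_inj (sub_eq_zero.1 h3)
      have h5 := ((((hasDerivAt_id' x).sub_const x0).const_mul (α + β + 1)).const_sub (U x0)).pow 3
      refine ⟨_, (h.2 x).sub h5, ?_⟩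
      rw [← h4]
      have h6 : 1 ≤ U x ^ 2 := one_le_pow₀ (by linarith [h1 x hx])
      have h7 := (abs_le.1 (hA x)).2
      have h8 := (abs_le.1 (hB x)).2
      push_cast
      nlinarith
  intro x hx
  rcases hx.1.eq_or_lt with h3 | h3
  · rw [← h3]
    linarith
  · exact (h1 x hx).trans (cube_lt.1 (sub_pos.1 (h2 x ⟨h3, hx.2⟩))).le

lemma polef_low' {A B U : ℝ → ℝ} (h : Sol A B U) {α β : ℝ} (hA : ∀ x, |A x| ≤ α)
    (hB : ∀ x, |B x| ≤ β) {x0 : ℝ} (h0 : 7 * (α + β + 1) + 1 ≤ |U x0|) :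
    ∀ x ∈ Icc x0 (x0 + 2 * π), |U x0| - 7 * (α + β + 1) ≤ |U x| := fun x hx => by
  rcases le_total 0 (U x0) with h1 | h1
  · rw [abs_of_nonneg h1] at h0 ⊢
    exact (polef_low h hA hB h0 x hx).trans (le_abs_self _)
  · rw [abs_of_nonpos h1] at h0 ⊢
    exact (polef_low h.neg (by simpa using hA) (by simpa using hB) h0 x hx).trans (neg_le_abs _)

lemma polef_alg {z d : ℝ} (hz : |z| ≤ 1) (hd : |d| ≤ 1) :
    |(1 + d) ^ 2 - (1 + d - z) ^ 2 * (1 + 2 * z + 3 * z ^ 2 + 4 * z ^ 3)| ≤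
      9 * z ^ 4 + 23 * (|d| * |z|) := by
  have e : (1 + d) ^ 2 - (1 + d - z) ^ 2 * (1 + 2 * z + 3 * z ^ 2 + 4 * z ^ 3) =
      z ^ 4 * (5 - 4 * z) + d * z * (2 * (-1 - z - z ^ 2 + 4 * z ^ 3) -
        d * (2 + 3 * z + 4 * z ^ 2)) := by ring
  have h1 := abs_le.1 hz
  have h2 : |z ^ 2| ≤ 1 := by rw [abs_pow]; exact pow_le_one₀ (abs_nonneg _) hz
  have h3 : |z ^ 3| ≤ 1 := by rw [abs_pow]; exact pow_le_one₀ (abs_nonneg _) hz
  have h4 : |d * (2 + 3 * z + 4 * z ^ 2)| ≤ 1 * 9 := by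
    rw [abs_mul]
    refine mul_le_mul hd (abs_le.2 ⟨?_, ?_⟩) (abs_nonneg _) zero_le_one <;>
      linarith [abs_le.1 h2]
  have h5 : |2 * (-1 - z - z ^ 2 + 4 * z ^ 3) - d * (2 + 3 * z + 4 * z ^ 2)| ≤ 23 := by
    refine abs_le.2 ⟨?_, ?_⟩ <;> linarith [abs_le.1 h2, abs_le.1 h3, abs_le.1 h4]
  have h6 : |5 - 4 * z| ≤ 9 := abs_le.2 ⟨by linarith, by linarith⟩
  rw [e]
  refine (abs_add_le _ _).trans (add_le_add ?_ ?_)
  · rw [abs_mul, abs_of_nonneg (by positivity : 0 ≤ z ^ 4), mul_comm]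
    exact mul_le_mul_of_nonneg_right h6 (by positivity)
  · rw [abs_mul, abs_mul, mul_comm]
    exact mul_le_mul_of_nonneg_right h5 (by positivity)

lemma polef_fin {p q C : ℝ}
    (h : ∀ ε : ℝ, 0 < ε → ∃ e : ℝ, e ≠ 0 ∧ |e| ≤ ε ∧ |p * e + q * e ^ 3| ≤ C * e ^ 4) :
    p = 0 ∧ q = 0 := by
  have key : ∀ r D : ℝ, (∀ ε : ℝ, 0 < ε → ε ≤ 1 → |r| ≤ D * ε) → r = 0 := fun r D h1 => by
    have h2 : Tendsto (fun ε : ℝ => D * ε) (𝓝[>] 0) (𝓝 (D * 0)) :=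
      tendsto_nhdsWithin_of_tendsto_nhds (by fun_prop : Continuous fun ε : ℝ => D * ε).continuousAt
    rw [mul_zero] at h2
    refine abs_nonpos_iff.1 (ge_of_tendsto h2 ?_)
    filter_upwards [Ioc_mem_nhdsGT one_pos] with ε hε using h1 ε hε.1 hε.2
  have h3 : ∀ ε : ℝ, 0 < ε → ∃ e : ℝ, 0 < |e| ∧ |e| ≤ ε ∧ |p + q * e ^ 2| ≤ |C| * |e| ^ 3 :=
    fun ε hε => by
    obtain ⟨e, h1, h2, h3⟩ := h ε hε
    refine ⟨e, abs_pos.2 h1, h2, le_of_mul_le_mul_right ?_ (abs_pos.2 h1)⟩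
    rw [← abs_mul, mul_assoc, ← pow_succ, ← abs_pow, ← abs_mul]
    exact (le_of_eq (by congr 1; ring)).trans (h3.trans (le_abs_self _))
  have hp : p = 0 := key p (|q| + |C|) fun ε h0 h1 => by
    obtain ⟨e, h4, h5, h6⟩ := h3 ε h0
    have h7 := abs_sub (p + q * e ^ 2) (q * e ^ 2)
    rw [add_sub_cancel_right, abs_mul, abs_pow] at h7
    have h8 : |e| ^ 2 ≤ ε := (pow_le_of_le_one h4.le (h5.trans h1) two_ne_zero).trans h5
    have h9 : |e| ^ 3 ≤ ε := (pow_le_of_le_one h4.le (h5.trans h1) three_ne_zero).trans h5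
    nlinarith [mul_le_mul_of_nonneg_left h8 (abs_nonneg q),
      mul_le_mul_of_nonneg_left h9 (abs_nonneg C)]
  refine ⟨hp, key q |C| fun ε h0 _ => ?_⟩
  obtain ⟨e, h4, h5, h6⟩ := h3 ε h0
  rw [hp, zero_add, abs_mul, abs_pow, pow_succ' |e| 2, ← mul_assoc] at h6
  exact (le_of_mul_le_mul_right h6 (by positivity)).trans
    (mul_le_mul_of_nonneg_left h5 (abs_nonneg C))

lemma polef_main {a0 a1 a2 a3 b α x0 e : ℝ} {U : ℝ → ℝ} (h : GP (Cub a0 a1 a2 a3) (Lin b 0) U)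
    (hA : ∀ x, |Cub a0 a1 a2 a3 x| ≤ α) (he : e * (U x0 + b * sin x0) = 1) (h1 : |e| ≤ 1)
    (h2 : |e| * |b| ≤ 1) (h3 : |e| * (28 * α) ≤ 1)
    (hU : ∀ x ∈ Icc x0 (x0 + 2 * π), 1 ≤ 4 * (e * U x) ^ 2) :
    |2 * b * e * (a1 + 3 * a3) / 8 + 4 * b ^ 3 * e ^ 3 * (a1 + 5 * a3) / 16| ≤
      α * (4 * (9 * b ^ 4 + 23 * (28 * α * |b|))) * e ^ 4 := by
  have hα := (abs_nonneg _).trans (hA 0)
  have hU0 : ∀ x ∈ Icc x0 (x0 + 2 * π), U x ≠ 0 := fun x hx h0 => by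
    have := hU x hx
    rw [h0] at this
    norm_num at this
  have hy : ∀ x ∈ Icc x0 (x0 + 2 * π), HasDerivAt (fun x => U x + b * sin x)
      (-(Cub a0 a1 a2 a3 x / U x ^ 2)) x := fun x hx =>
    ((h.1.hasDerivAt (hU0 x hx)).add ((hasDerivAt_sin x).const_mul b)).congr_deriv
      (by simp only [Lin]; ring)
  have hη : ∀ x ∈ Icc x0 (x0 + 2 * π),
      |U x + b * sin x - (U x0 + b * sin x0)| ≤ 28 * α * e ^ 2 := fun x hx => by
    have h4 := norm_image_sub_le_of_norm_deriv_le_segment' (C := 4 * α * e ^ 2)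
      (fun x hx => (hy x hx).hasDerivWithinAt) (fun x hx => by
        have h5 := hU0 x (Ico_subset_Icc_self hx)
        rw [norm_neg, Real.norm_eq_abs, abs_div, abs_of_nonneg (sq_nonneg (U x)),
          div_le_iff₀ (by positivity)]
        nlinarith [hA x, mul_le_mul_of_nonneg_left (hU x (Ico_subset_Icc_self hx)) hα]) x hx
    have h5 : 0 ≤ α * e ^ 2 := by positivity
    rw [Real.norm_eq_abs] at h4
    nlinarith [hx.2, pi_lt_d2]
  obtain ⟨G, hG, hG'⟩ := polef_prim a0 a1 a2 a3 (2 * b * e) (3 * b ^ 2 * e ^ 2) (4 * b ^ 3 * e ^ 3)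
  have hΦ := fun x hx => (((hy x hx).pow 3).div_const 3).add (hG' x)
  obtain ⟨x, hx, h4⟩ := exists_hasDerivAt_eq_zero (by linarith [pi_pos] : x0 < x0 + 2 * π)
    (fun x hx => (hΦ x hx).continuousAt.continuousWithinAt)
    (by simp only [Pi.add_apply, Pi.pow_apply, h.2.2 x0, hG x0, sin_add_two_pi])
    fun x hx => hΦ x (Ioo_subset_Icc_self hx)
  have hx' := Ioo_subset_Icc_self hx
  have h5 := hU0 x hx'
  have h6 := hU x hx'
  have h7 := hη x hx'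
  have hs : |b * sin x| ≤ |b| := by
    rw [abs_mul]
    exact mul_le_of_le_one_right (abs_nonneg _) (abs_sin_le_one x)
  have he2 : e ^ 2 = |e| * |e| := by rw [abs_mul_abs_self, pow_two]
  have hz : |e * (b * sin x)| ≤ |e| * |b| := by
    rw [abs_mul]
    exact mul_le_mul_of_nonneg_left hs (abs_nonneg _)
  have hd : |e * (U x + b * sin x - (U x0 + b * sin x0))| ≤ |e| * (28 * α * e ^ 2) := by
    rw [abs_mul]
    exact mul_le_mul_of_nonneg_left h7 (abs_nonneg _)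
  have hd1 : |e| * (28 * α * e ^ 2) ≤ 1 := by
    rw [← mul_assoc]
    exact mul_le_one₀ h3 (sq_nonneg _) (he2 ▸ mul_le_one₀ h1 (abs_nonneg _) h1)
  have h8 := polef_alg (hz.trans h2) (hd.trans hd1)
  have h9 := mul_le_mul hd hz (abs_nonneg _) (by positivity)
  have h10 : (e * (b * sin x)) ^ 4 ≤ b ^ 4 * e ^ 4 := by
    have := pow_le_pow_left₀ (abs_nonneg _) hz 4
    rwa [mul_pow, Even.pow_abs (by decide), Even.pow_abs (by decide), Even.pow_abs (by decide),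
      mul_comm (e ^ 4)] at this
  have h11 : |e| * (28 * α * e ^ 2) * (|e| * |b|) = 28 * α * |b| * e ^ 4 := by
    linear_combination (-(28 * α * e ^ 2 * |b|)) * he2
  have h12 : 1 + e * (U x + b * sin x - (U x0 + b * sin x0)) = e * (U x + b * sin x) := by
    linear_combination -he
  rw [h12] at h8
  generalize 2 * b * e * (a1 + 3 * a3) / 8 + 4 * b ^ 3 * e ^ 3 * (a1 + 5 * a3) / 16 = m at h4 ⊢
  have h13 : m * (e * U x) ^ 2 = -(Cub a0 a1 a2 a3 x * ((e * (U x + b * sin x)) ^ 2 -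
      (e * (U x + b * sin x) - e * (b * sin x)) ^ 2 * (1 + 2 * (e * (b * sin x)) +
        3 * (e * (b * sin x)) ^ 2 + 4 * (e * (b * sin x)) ^ 3))) := by
    have h14 : Cub a0 a1 a2 a3 x / U x ^ 2 * U x ^ 2 = Cub a0 a1 a2 a3 x :=
      div_mul_cancel₀ _ (pow_ne_zero 2 h5)
    push_cast at h4
    linear_combination (-(e * U x) ^ 2) * h4 - (e * (U x + b * sin x)) ^ 2 * h14
  have h14 := congrArg abs h13
  rw [abs_mul, abs_neg, abs_mul, abs_of_nonneg (sq_nonneg (e * U x))] at h14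
  have h15 := mul_le_mul (hA x) h8 (abs_nonneg _) hα
  have h16 := mul_le_mul_of_nonneg_left h6 (abs_nonneg m)
  have h17 := mul_le_mul_of_nonneg_left h9 hα
  have h18 := mul_le_mul_of_nonneg_left h10 hα
  rw [h11] at h17
  linarith

theorem poleS : PoleStmt := by
  rintro a0 a1 a2 a3 b hb ⟨x0, h⟩
  obtain ⟨α, hA⟩ : ∃ α, ∀ x, |Cub a0 a1 a2 a3 x| ≤ α := by
    obtain ⟨α, hα⟩ := isBounded_iff_forall_norm_le.1 ((sys_cub a0 a1 a2 a3 0 0).perA.isBounded_of_continuous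
      (by positivity) (Cub.an a0 a1 a2 a3).continuous)
    exact ⟨α, fun x => hα _ (mem_range_self x)⟩
  have hα := (abs_nonneg _).trans (hA 0)
  have hβ := abs_nonneg b
  have hB : ∀ x, |Lin b 0 x| ≤ |b| := fun x => by
    rw [Lin, zero_mul, add_zero, abs_mul]
    exact mul_le_of_le_one_right hβ (abs_cos_le_one x)
  have key := polef_fin (p := 2 * b * (a1 + 3 * a3) / 8) (q := 4 * b ^ 3 * (a1 + 5 * a3) / 16)
    (C := α * (4 * (9 * b ^ 4 + 23 * (28 * α * |b|)))) fun ε hε => by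
      obtain ⟨U, hU, h0⟩ := h (ε⁻¹ + 28 * (α + |b| + 1))
      have hε' := inv_pos.2 hε
      have hs : |b * sin x0| ≤ |b| := by
        rw [abs_mul]
        exact mul_le_of_le_one_right hβ (abs_sin_le_one x0)
      have h1 := abs_sub (U x0 + b * sin x0) (b * sin x0)
      have h2 := abs_add_le (U x0) (b * sin x0)
      rw [add_sub_cancel_right] at h1
      set y := U x0 + b * sin x0 with hy
      have h3 : 0 < |y| := by linarith
      have h4 : ∀ t : ℝ, t ≤ |y| → |y⁻¹| * t ≤ 1 := fun t ht => by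
        rwa [abs_inv, inv_mul_le_iff₀ h3, mul_one]
      refine ⟨y⁻¹, inv_ne_zero (abs_pos.1 h3), ?_, (le_of_eq (by congr 1; ring)).trans
        (polef_main hU hA (inv_mul_cancel₀ (abs_pos.1 h3)) ((mul_one _).symm.trans_le
          (h4 1 (by linarith))) (h4 _ (by linarith)) (h4 _ (by linarith)) fun x hx => ?_)⟩
      · rw [abs_inv]
        exact inv_le_of_inv_le₀ hε (by linarith)
      · have h5 := polef_low' hU.1 hA hB (by linarith) x hx
        have h6 : 1 ≤ 2 * |y⁻¹ * U x| := by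
          rw [abs_mul, abs_inv, mul_left_comm, le_inv_mul_iff₀ h3]
          linarith
        nlinarith [sq_abs (y⁻¹ * U x)]
  have h1 : a1 + 3 * a3 = 0 := by simpa [hb] using key.1
  have h2 : a1 + 5 * a3 = 0 := by simpa [hb] using key.2
  constructor <;> linarith

end Pool.Agent.MP_c2f0e4_an
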