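import Pool.Agent.MP_c2f0e4_an.Iface

open Set Filter Topology Real Asymptotics

namespace Pool.Agent.MP_c2f0e4_an

lemma ratio_est {φ θ g w : ℝ → ℝ} (hθ : ∀ t, HasDerivAt θ (w t) t) (hw : ∀ t, 0 ≤ w t)
    (hφ : ∀ t, HasDerivAt φ (g t * w t) t) {k ε a b : ℝ} (hab : a ≤ b)
    (hg : ∀ t ∈ Ioo a b, |g t - k| ≤ ε) :
    |φ b - φ a - k * (θ b - θ a)| ≤ ε * (θ b - θ a) := by
  have hd : ∀ c t, HasDerivAt (fun t => φ t - c * θ t) ((g t - c) * w t) t := fun c t =>
    ((hφ t).sub ((hθ t).const_mul c)).congr_deriv (by ring)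
  have hc : ∀ c, ContinuousOn (fun t => φ t - c * θ t) (Icc a b) := fun c t _ =>
    (hd c t).continuousAt.continuousWithinAt
  have h1 := sub_le_of_deriv_le (c := 0) Set.finite_empty hab (hc (k + ε)) fun t ht _ =>
    ⟨_, hd _ t, mul_nonpos_of_nonpos_of_nonneg (by linarith [(abs_le.1 (hg t ht)).2]) (hw t)⟩
  have h2 := le_sub_of_le_deriv (c := 0) Set.finite_empty hab (hc (k - ε)) fun t ht _ =>
    ⟨_, hd _ t, mul_nonneg (by linarith [(abs_le.1 (hg t ht)).1]) (hw t)⟩
  rw [abs_le]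
  constructor <;> nlinarith

lemma ratio_ev {φ θ g w : ℝ → ℝ} (hθ : ∀ t, HasDerivAt θ (w t) t) (hw : ∀ t, 0 ≤ w t)
    (hφ : ∀ t, HasDerivAt φ (g t * w t) t) (hg : Continuous g) (t0 : ℝ) {ε : ℝ} (hε : 0 < ε) :
    ∀ᶠ t in 𝓝 t0, |φ t - φ t0 - g t0 * (θ t - θ t0)| ≤ ε * |θ t - θ t0| := by
  obtain ⟨δ, hδ, hb⟩ := Metric.continuousAt_iff.1 (hg.continuousAt (x := t0)) ε hε
  filter_upwards [Metric.ball_mem_nhds t0 hδ] with t ht
  rw [Metric.mem_ball, Real.dist_eq, abs_lt] at ht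
  have key : ∀ s, |s - t0| < δ → |g s - g t0| ≤ ε := fun s hs => (hb hs).le
  rcases le_total t0 t with h | h
  · refine (ratio_est hθ hw hφ h fun s hs => key s ?_).trans
      (mul_le_mul_of_nonneg_left (le_abs_self _) hε.le)
    rw [abs_lt]; constructor <;> linarith [hs.1, hs.2]
  · have h1 := ratio_est hθ hw hφ (k := g t0) (ε := ε) h fun s hs => key s (by
      rw [abs_lt]; constructor <;> linarith [hs.1, hs.2])
    have h2 : φ t - φ t0 - g t0 * (θ t - θ t0) = -(φ t0 - φ t - g t0 * (θ t0 - θ t)) := by ring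
    rw [h2, abs_neg, abs_sub_comm (θ t)]
    exact h1.trans (mul_le_mul_of_nonneg_left (le_abs_self _) hε.le)

theorem ratioS : RatioStmt := by
  intro A B θ u hA hB hmono hsurj hθ hu
  set e := hmono.orderIsoOfSurjective θ hsurj with he
  have he1 : ∀ t, e.symm (θ t) = t := fun t => e.symm_apply_apply t
  have he2 : ∀ x, θ (e.symm x) = x := fun x => e.apply_symm_apply x
  have hec : Continuous e.symm := e.symm.continuous
  have huc : Continuous u := continuous_iff_continuousAt.2 fun t => (hu t).continuousAt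
  have hθc : Continuous θ := continuous_iff_continuousAt.2 fun t => (hθ t).continuousAt
  refine ⟨fun x => u (e.symm x), ⟨huc.comp hec, fun x => ?_⟩, fun t => by simp only [he1]⟩
  have hφ : ∀ t, HasDerivAt (fun t => u t ^ 3)
      ((-3 * (A (θ t) + B (θ t) * u t ^ 2)) * (u t ^ 2 / (1 + u t ^ 2))) t := fun t =>
    ((hu t).pow 3).congr_deriv (by push_cast; ring)
  have hg : Continuous fun t => -3 * (A (θ t) + B (θ t) * u t ^ 2) := by fun_prop
  rw [hasDerivAt_iff_isLittleO, isLittleO_iff]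
  intro ε hε
  have h1 := ratio_ev hθ (fun t => by positivity) hφ hg (e.symm x) hε
  filter_upwards [hec.continuousAt.eventually h1] with y hy
  simp only [he2] at hy
  rw [Real.norm_eq_abs, Real.norm_eq_abs, smul_eq_mul, mul_comm (y - x)]
  exact hy

end Pool.Agent.MP_c2f0e4_an
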