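import Pool.Agent.MP_c2f0e4_an.Iface

open Set Filter Topology Real Asymptotics

namespace Pool.Agent.MP_c2f0e4_an

section RedAux
variable {A B V W : ℝ → ℝ} {U : ℕ → ℝ → ℝ}

lemma red_deriv_anti (hs : Sys A B) (x : ℝ) : deriv A (x + π) = -deriv A x := by
  rw [← deriv_comp_add_const, show (fun x => A (x + π)) = fun x => -A x from funext hs.antiA,
    deriv.fun_neg]

lemma red_deriv_per (hs : Sys A B) : Function.Periodic (deriv A) (2 * π) := fun x => by
  rw [two_mul, ← add_assoc, red_deriv_anti hs, red_deriv_anti hs, neg_neg]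

lemma red_window (z x : ℝ) : ∃ y ∈ Ico z (z + 2 * π),
    ∀ f : ℝ → ℝ, Function.Periodic f (2 * π) → f y = f x :=
  ⟨toIcoMod two_pi_pos z x, toIcoMod_mem_Ico _ _ _, fun f hf => by
    rw [← self_sub_toIcoDiv_zsmul]; exact hf.sub_zsmul_eq _⟩

lemma red_half (hs : Sys A B) {z : ℝ} {Q : ℝ → Prop} (h : ∀ x ∈ Ioo z (z + π), A x = 0 → Q x)
    {x : ℝ} (hx : x ∈ Ioo z (z + 2 * π)) (h0 : A x = 0) : Q x ∨ x = z + π ∨ Q (x - π) := by
  rcases lt_trichotomy x (z + π) with h1 | h1 | h1
  · exact Or.inl (h x ⟨hx.1, h1⟩ h0)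
  · exact Or.inr (Or.inl h1)
  · refine Or.inr (Or.inr (h _ ⟨by linarith, by linarith [hx.2]⟩ ?_))
    have := hs.antiA (x - π)
    rw [sub_add_cancel, h0] at this
    linarith

lemma red_zeros1 (hs : Sys A B) {z d : ℝ} (h : ∀ x ∈ Ioo z (z + π), 0 < d * A x)
    {x : ℝ} (hx : x ∈ Ioo z (z + 2 * π)) (h0 : A x = 0) : x = z + π := by
  have := red_half hs (Q := fun _ => False) (fun x hx h0 => by
    have := h x hx
    rw [h0, mul_zero] at this
    exact lt_irrefl _ this) hx h0
  tauto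

lemma red_zeros2 (hs : Sys A B) {z z' z'' d : ℝ} (h1 : ∀ x ∈ Ioo z z', 0 < d * A x)
    (h2 : ∀ x ∈ Ioo z' z'', d * A x < 0) (h3 : ∀ x ∈ Ioo z'' (z + π), 0 < d * A x)
    {x : ℝ} (hx : x ∈ Ioo z (z + 2 * π)) (h0 : A x = 0) :
    x = z' ∨ x = z'' ∨ x = z + π ∨ x = z' + π ∨ x = z'' + π := by
  have := red_half hs (Q := fun x => x = z' ∨ x = z'') (fun x hx h0 => by
    by_contra hn
    push Not at hn
    rcases lt_or_gt_of_ne hn.1 with h4 | h4
    · have := h1 x ⟨hx.1, h4⟩
      rw [h0, mul_zero] at this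
      exact lt_irrefl _ this
    · rcases lt_or_gt_of_ne hn.2 with h5 | h5
      · have := h2 x ⟨h4, h5⟩
        rw [h0, mul_zero] at this
        exact lt_irrefl _ this
      · have := h3 x ⟨h5, hx.2⟩
        rw [h0, mul_zero] at this
        exact lt_irrefl _ this) hx h0
  rcases this with (h | h) | h | h | h
  · exact Or.inl h
  · exact Or.inr (Or.inl h)
  · exact Or.inr (Or.inr (Or.inl h))
  · exact Or.inr (Or.inr (Or.inr (Or.inl (by linarith))))
  · exact Or.inr (Or.inr (Or.inr (Or.inr (by linarith))))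

lemma red_count (hClass : ClassStmt) (hA : IsCub A) (hs : Sys A B) (hsim : Simple A)
    (h : Top A B V U) (hneg : ∀ x, Touch A V x → deriv A x < 0) :
    (∃ z, One A V z) ∨ (∃ z1 z2, Two A V z1 z2) ∨ ∃ z1 z2 z3, Three A V z1 z2 z3 := by
  obtain ⟨y, hy⟩ := h.touch
  have hd := hneg y hy
  have hpi : ¬ Touch A V (y + π) := fun ht => by
    have := hneg _ ht
    rw [red_deriv_anti hs] at this
    linarith
  rcases hClass A y hA hsim hy.1 with h1 | ⟨y', y'', a1, a2, a3, -, -, a6, a7, a8, a9, a10⟩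
  · refine Or.inl ⟨y, hy, fun x hx ht => hpi ?_⟩
    rw [← red_zeros1 hs h1 hx ht.1]; exact ht
  · have b1 : 0 < deriv A y' := by nlinarith
    have b2 : deriv A y'' < 0 := by nlinarith
    have key : ∀ x ∈ Ioo y (y + 2 * π), Touch A V x → x = y'' ∨ x = y' + π := by
      intro x hx ht
      have b3 := hneg x ht
      rcases red_zeros2 hs a8 a9 a10 hx ht.1 with e | e | e | e | e
      · rw [e] at b3; linarith
      · exact Or.inl e
      · exact absurd (e ▸ ht) hpi
      · exact Or.inr e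
      · rw [e, red_deriv_anti hs] at b3; linarith
    have hp := pi_pos
    by_cases t1 : Touch A V y'' <;> by_cases t2 : Touch A V (y' + π)
    · exact Or.inr (Or.inr ⟨y, y'', y' + π, by linarith, by linarith, by linarith, hy, t1, t2, hd,
        b2, hneg _ t2, key⟩)
    · exact Or.inr (Or.inl ⟨y, y'', by linarith, by linarith, hy, t1, hd, b2, fun x hx ht =>
        (key x hx ht).resolve_right fun e => t2 (e ▸ ht)⟩)
    · exact Or.inr (Or.inl ⟨y, y' + π, by linarith, by linarith, hy, t2, hd, hneg _ t2,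
        fun x hx ht => (key x hx ht).resolve_left fun e => t1 (e ▸ ht)⟩)
    · exact Or.inl ⟨y, hy, fun x hx ht =>
        (key x hx ht).elim (fun e => t1 (e ▸ ht)) fun e => t2 (e ▸ ht)⟩

lemma red_fwd (h : Sol A B W) (hg : GoodOn A W univ) {a b : ℝ} (hab : a < b)
    (hA : ∀ x ∈ Ioo a b, 0 < A x) (hb : A b = 0) (ha : W a < 0) : W b < 0 := by
  refine h.neg_forward (a := a) (b := b) (fun x hx h0 => ?_) ha.le b ⟨hab, le_rfl⟩
  refine hA x ⟨lt_of_le_of_ne hx.1 ?_, lt_of_le_of_ne hx.2 ?_⟩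
  · rintro rfl; exact ha.ne h0
  · rintro rfl; exact hg _ (mem_univ _) hb h0

lemma red_bwd (h : Sol A B W) (hg : GoodOn A W univ) {a b : ℝ} (hab : a < b)
    (hA : ∀ x ∈ Ioo a b, A x < 0) (ha : A a = 0) (hb : W b < 0) : W a < 0 := by
  refine h.neg_backward (a := a) (b := b) (fun x hx h0 => ?_) hb.le a ⟨le_rfl, hab⟩
  refine hA x ⟨lt_of_le_of_ne hx.1 ?_, lt_of_le_of_ne hx.2 ?_⟩
  · rintro rfl; exact hg _ (mem_univ _) ha h0
  · rintro rfl; exact hb.ne h0

end RedAux

theorem redS (hSign : SignStmt) (hClass : ClassStmt) : RedStmt := by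
  rintro A B hA hB hsim ⟨V, U, V2, U2, h1, h2, hlink⟩
  have hs := sys_of hA hB
  have hp := pi_pos
  by_cases hneg : ∀ x, Touch A V x → deriv A x < 0
  · exact ⟨V, U, h1, red_count hClass hA hs hsim h1 hneg⟩
  push Not at hneg
  obtain ⟨z, hz, hd⟩ := hneg
  have hd' : 0 < deriv A z := lt_of_le_of_ne hd (hsim z hz.1).symm
  have Pz : U 0 z < 0 := by have := h1.lt 0 z; rwa [hz.2] at this
  have hnP : ∀ y, Touch A V2 y → 0 < U 0 (y + π) := fun y hy =>
    (hlink y hy.1).1 (by have := h2.lt 0 y; rwa [hy.2] at this)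
  have hwin : ∀ y, Touch A V2 y → ∃ y0 ∈ Ico z (z + 2 * π), Touch A V2 y0 ∧
      deriv A y0 = deriv A y := by
    intro y hy
    obtain ⟨y0, hy0, hf⟩ := red_window z y
    exact ⟨y0, hy0, ⟨by rw [hf A hs.perA]; exact hy.1, by rw [hf V2 h2.perV]; exact hy.2⟩,
      hf _ (red_deriv_per hs)⟩
  have hper : ∀ x, U 0 (x + π + π) = U 0 x := fun x => by
    rw [add_assoc, ← two_mul]; exact h1.perU 0 x
  have hzpi : A (z + π) = 0 := by rw [hs.antiA, hz.1, neg_zero]
  rcases hClass A z hA hsim hz.1 with c1 | ⟨z', z'', a1, a2, a3, a4, a5, a6, a7, a8, a9, a10⟩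
  · exfalso
    have Pz1 : U 0 (z + π) < 0 := red_fwd (h1.solU 0) (h1.good 0) (by linarith)
      (fun x hx => (pos_iff_pos_of_mul_pos (c1 x hx)).1 hd') hzpi Pz
    obtain ⟨y, hy⟩ := h2.touch
    obtain ⟨y0, hy0, ht, -⟩ := hwin y hy
    have b1 := hnP y0 ht
    rcases hy0.1.eq_or_lt with e | e
    · rw [← e] at b1; linarith
    · rw [red_zeros1 hs c1 ⟨e, hy0.2⟩ ht.1, hper] at b1; linarith
  · have b1 : deriv A z' < 0 := by nlinarith
    have b2 : 0 < deriv A z'' := by nlinarith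
    have p1 : ∀ x ∈ Ioo z z', 0 < A x := fun x hx => (pos_iff_pos_of_mul_pos (a8 x hx)).1 hd'
    have p2 : ∀ x ∈ Ioo (z'' - π) z, A x < 0 := fun x hx => by
      have := (pos_iff_pos_of_mul_pos (a10 (x + π) ⟨by linarith [hx.1], by linarith [hx.2]⟩)).1 hd'
      rw [hs.antiA] at this
      linarith
    have z0 : A (z'' - π) = 0 := by
      have := hs.antiA (z'' - π)
      rw [sub_add_cancel, a5] at this
      linarith
    have d0 : deriv A (z'' - π) < 0 := by
      have := red_deriv_anti hs (z'' - π)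
      rw [sub_add_cancel] at this
      linarith
    have P1 : U 0 z' < 0 := red_fwd (h1.solU 0) (h1.good 0) a1 p1 a4 Pz
    have P2 : U 0 (z'' + π) < 0 := by
      have := red_bwd (h1.solU 0) (h1.good 0) (by linarith) p2 z0 Pz
      rwa [← hper, sub_add_cancel] at this
    have key : ∀ x ∈ Ioo z (z + 2 * π), Touch A V2 x → x = z' ∨ x = z'' + π := by
      intro x hx ht
      have b3 := hnP x ht
      rcases red_zeros2 hs a8 a9 a10 hx ht.1 with e | e | e | e | e
      · exact Or.inl e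
      · rw [e] at b3; linarith
      · rw [e, hper] at b3; linarith
      · rw [e, hper] at b3; linarith
      · exact Or.inr e
    refine ⟨V2, U2, h2, ?_⟩
    by_cases tz : Touch A V2 z
    · have n0 : ∀ n, U2 n z < 0 := fun n => by have := h2.lt n z; rwa [tz.2] at this
      refine Or.inl ⟨z, tz, fun x hx ht => ?_⟩
      rcases key x hx ht with e | e
      · rw [e] at ht
        have s1 := (hSign A B V2 hs.anA hs.anB.continuous h2.solV z' ht b1.ne).filter_mono
          (nhdsLT_le_nhdsNE z')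
        obtain ⟨w, w1, w2⟩ := (s1.and (Ioo_mem_nhdsLT a1)).exists
        have := h2.toTop0.nonpos fun n => (h2.solU n).neg_of_neg_left p1 (n0 n) w ⟨w2.1.le, w2.2⟩
        nlinarith
      · have ht' : Touch A V2 (z'' - π) := ⟨z0, by
          rw [← h2.perV, show z'' - π + 2 * π = z'' + π by ring, ← e]; exact ht.2⟩
        have s1 := (hSign A B V2 hs.anA hs.anB.continuous h2.solV _ ht' d0.ne).filter_mono
          (nhdsGT_le_nhdsNE _)
        obtain ⟨w, w1, w2⟩ := (s1.and (Ioo_mem_nhdsGT (show z'' - π < z by linarith))).exists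
        have := h2.toTop0.nonpos fun n => (h2.solU n).neg_of_neg_right p2 (n0 n) w ⟨w2.1, w2.2.le⟩
        nlinarith
    · refine red_count hClass hA hs hsim h2 fun y hy => ?_
      obtain ⟨y0, hy0, ht, hdy⟩ := hwin y hy
      rw [← hdy]
      rcases hy0.1.eq_or_lt with e | e
      · exact absurd (e ▸ ht) tz
      · rcases key y0 ⟨e, hy0.2⟩ ht with e' | e'
        · rw [e']; exact b1
        · rw [e', red_deriv_anti hs]; linarith

end Pool.Agent.MP_c2f0e4_an
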