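import Pool.Agent.MP_c2f0e4_an.Iface
import Pool.Agent.MP_402458_gt.ODE

open Set Filter Topology Real Asymptotics

namespace Pool.Agent.MP_c2f0e4_an

lemma sph_not_eq {b1 b2 a1 a2 a3 : ℝ} {z : ℝ × ℝ × ℝ} (h : OnCycle (fieldS b1 b2 a1 a2 a3) z) :
    fieldS b1 b2 a1 a2 a3 z ≠ 0 := by
  intro h0
  obtain ⟨γ, hγ, hz, -, t, ht⟩ := h
  have hX : ContDiff ℝ 1 (fieldS b1 b2 a1 a2 a3) := by
    unfold fieldS polyG
    fun_prop
  have := Pool.Agent.MP_402458_gt.ode_unique hX (β := fun _ => z) hγ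
    (fun s => by rw [h0]; exact hasDerivAt_const s z) hz
  exact ht (congrFun this t)

lemma sph_sqrt_pos (u : ℝ) : 0 < √(1 + u ^ 2) := Real.sqrt_pos.2 (by positivity)

lemma sph_mem (θ u : ℝ) : Pt θ u ∈ sph := by
  have h1 := sph_sqrt_pos u
  have h2 : √(1 + u ^ 2) ^ 2 = 1 + u ^ 2 := Real.sq_sqrt (by positivity)
  have h3 := cos_sq_add_sin_sq θ
  simp only [sph, Pt, mem_ofPred_eq, div_pow, h2]
  field_simp
  linarith

lemma sph_inj {θ u θ' u' : ℝ} (h : Pt θ u = Pt θ' u') :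
    u = u' ∧ cos θ = cos θ' ∧ sin θ = sin θ' := by
  have h1 := sph_sqrt_pos u
  have h2 := sph_sqrt_pos u'
  simp only [Pt, Prod.mk.injEq] at h
  obtain ⟨e1, e2, e3⟩ := h
  set s := √(1 + u ^ 2)
  set s' := √(1 + u' ^ 2)
  have f1 := (div_eq_div_iff h1.ne' h2.ne').1 e1
  have f2 := (div_eq_div_iff h1.ne' h2.ne').1 e2
  have h3 := cos_sq_add_sin_sq θ
  have h4 := cos_sq_add_sin_sq θ'
  have e : s' ^ 2 = s ^ 2 := by
    calc s' ^ 2 = (cos θ * s') ^ 2 + (sin θ * s') ^ 2 := by linear_combination (-s' ^ 2) * h3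
      _ = s ^ 2 := by rw [f1, f2]; linear_combination (s ^ 2) * h4
  have e' : s' = s := (pow_left_inj₀ h2.le h1.le two_ne_zero).1 e
  rw [e'] at e1 e2 e3
  exact ⟨(div_left_inj' h1.ne').1 e3, (div_left_inj' h1.ne').1 e1, (div_left_inj' h1.ne').1 e2⟩

lemma sph_polar {z : ℝ × ℝ × ℝ} (hz : z ∈ sph) (h0 : ¬ (z.1 = 0 ∧ z.2.1 = 0)) :
    ∃ θ u, z = Pt θ u := by
  obtain ⟨x, y, w⟩ := z
  simp only [sph, mem_ofPred_eq] at hz h0
  let c : ℂ := ⟨x, y⟩
  have hc : c ≠ 0 := fun e => h0 ⟨congrArg Complex.re e, congrArg Complex.im e⟩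
  have hr : 0 < ‖c‖ := norm_pos_iff.2 hc
  have hr2 : ‖c‖ ^ 2 = x ^ 2 + y ^ 2 := by
    rw [Complex.sq_norm, Complex.normSq_apply]
    ring
  have hs : √(1 + (w / ‖c‖) ^ 2) = 1 / ‖c‖ := by
    rw [Real.sqrt_eq_iff_mul_self_eq (by positivity) (by positivity)]
    field_simp
    linarith
  refine ⟨c.arg, w / ‖c‖, ?_⟩
  simp only [Pt, hs, Complex.cos_arg hc, Complex.sin_arg, Prod.mk.injEq]
  refine ⟨?_, ?_, ?_⟩ <;> field_simp <;> rfl

lemma sph_good {b1 b2 a1 a2 a3 θ u : ℝ} (h : OnCycle (fieldS b1 b2 a1 a2 a3) (Pt θ u))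
    (hA : Cub a1 a2 a3 0 θ = 0) : u ≠ 0 := by
  rintro rfl
  apply sph_not_eq h
  simp only [Cub] at hA
  simp only [fieldS, polyG, Pt, Prod.mk_eq_zero]
  norm_num
  linarith

lemma sph_one (hSphCore : SphCoreStmt) (hRatio : RatioStmt) (hMul : MulStmt)
    {b1 b2 a1 a2 a3 θ0 u0 : ℝ} (h : OnCycle (fieldS b1 b2 a1 a2 a3) (Pt θ0 u0)) :
    ∃ U, GP (Cub a1 a2 a3 0) (Lin b1 b2) U ∧ U θ0 = u0 := by
  have hg := sph_good h
  obtain ⟨γ, hγ, hz, ⟨T, hT, hper⟩, -⟩ := h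
  obtain ⟨θ, u, t0, v0, hmono, hpt, hgood, hθ, hu⟩ :=
    hSphCore b1 b2 a1 a2 a3 γ θ0 u0 hγ hz hg
  have hinj : ∀ t, u (t + T) = u t ∧ cos (θ (t + T)) = cos (θ t) ∧ sin (θ (t + T)) = sin (θ t) :=
    fun t => sph_inj (by rw [← hpt, ← hpt, hper])
  have hd : ∀ t, HasDerivAt (fun s => θ (s + T) - θ s) 0 t := fun t => by
    have h1 := ((hθ (t + T)).comp_add_const t T).sub (hθ t)
    rw [(hinj t).1, sub_self] at h1
    exact h1
  set w := θ (0 + T) - θ 0 with hw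
  have hc : ∀ t, θ (t + T) - θ t = w := fun t =>
    is_const_of_deriv_eq_zero (f := fun s => θ (s + T) - θ s)
      (fun s => (hd s).differentiableAt) (fun s => (hd s).deriv) t 0
  have hw0 : 0 < w := sub_pos.2 (hmono (by linarith))
  have hcos : cos w = 1 := by
    rw [hw, cos_sub, (hinj 0).2.1, (hinj 0).2.2]
    linear_combination cos_sq_add_sin_sq (θ 0)
  obtain ⟨n, hn⟩ := (Real.cos_eq_one_iff w).1 hcos
  have hn0 : 0 < n := by
    have : (0 : ℝ) < n := by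
      rw [← hn] at hw0
      exact (mul_pos_iff_of_pos_right (by positivity)).1 hw0
    exact_mod_cast this
  obtain ⟨m, rfl⟩ := Int.eq_ofNat_of_zero_le hn0.le
  have hm0 : 0 < m := by exact_mod_cast hn0
  have hm : (m : ℝ) * (2 * π) = w := by exact_mod_cast hn
  have hgp : Function.Periodic (fun t => θ t - w / T * t) T := fun t => by
    have := hc t
    simp only [mul_add, div_mul_cancel₀ w hT.ne']
    linarith
  have hk : ∀ k : ℤ, θ (k * T) = θ 0 + k * w := fun k => by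
    have := hgp.int_mul_eq k
    simp only [mul_zero, sub_zero] at this
    have e : w / T * (k * T) = k * w := by field_simp
    linarith
  have hcont : Continuous θ := continuous_iff_continuousAt.2 fun t => (hθ t).continuousAt
  have hsurj : Function.Surjective θ := by
    refine hcont.surjective (tendsto_atTop_atTop_of_monotone hmono.monotone fun b => ?_)
      (tendsto_atBot_atBot_of_monotone hmono.monotone fun b => ?_)
    · refine ⟨(⌈(b - θ 0) / w⌉ : ℤ) * T, ?_⟩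
      rw [hk]
      have := (div_le_iff₀ hw0).1 (Int.le_ceil ((b - θ 0) / w))
      linarith
    · refine ⟨(⌊(b - θ 0) / w⌋ : ℤ) * T, ?_⟩
      rw [hk]
      have := (le_div_iff₀ hw0).1 (Int.floor_le ((b - θ 0) / w))
      linarith
  have hs := sys_cub a1 a2 a3 0 b1 b2
  obtain ⟨U, hU, hUθ⟩ := hRatio _ _ θ u hs.anA.continuous hs.anB.continuous hmono hsurj hθ hu
  refine ⟨U, hMul _ _ U hs hU (fun x _ hx => ?_) m hm0 fun x => ?_, by rw [← t0, hUθ, v0]⟩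
  · obtain ⟨t, rfl⟩ := hsurj x
    rw [hUθ]
    exact hgood t hx
  · obtain ⟨t, rfl⟩ := hsurj x
    rw [hm, ← hc t, add_sub_cancel, hUθ, hUθ, (hinj t).1]

theorem sphS (hSphCore : SphCoreStmt) (hRatio : RatioStmt) (hMul : MulStmt) : SphStmt := by
  intro b1 b2 a1 a2 a3 O hO ⟨z, hz⟩ hcyc
  have hpole : ¬ (z.1 = 0 ∧ z.2.1 = 0) := by
    rintro ⟨h1, h2⟩
    apply sph_not_eq (hcyc z hz)
    have h3 : z.1 ^ 2 + z.2.1 ^ 2 + z.2.2 ^ 2 = 1 := hz.2
    rw [h1, h2] at h3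
    have h4 : z.2.2 ^ 2 - 1 = 0 := by linarith
    simp only [fieldS, h1, h2, h4, Prod.mk_eq_zero]
    norm_num
  obtain ⟨θ0, u0, rfl⟩ := sph_polar hz.2 hpole
  have hcont : Continuous (Pt θ0) := by
    unfold Pt
    refine Continuous.prodMk ?_ (Continuous.prodMk ?_ ?_) <;>
      exact Continuous.div (by fun_prop) (by fun_prop) fun u => (sph_sqrt_pos u).ne'
  obtain ⟨p, q, hpq, hsub⟩ := mem_nhds_iff_exists_Ioo_subset.1
    ((hO.preimage hcont).mem_nhds (show u0 ∈ Pt θ0 ⁻¹' O from hz.1))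
  exact ⟨θ0, p, q, hpq.1.trans hpq.2, fun u hu =>
    sph_one hSphCore hRatio hMul (hcyc _ ⟨hsub hu, sph_mem _ _⟩)⟩

end Pool.Agent.MP_c2f0e4_an
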