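import Pool.Agent.MP_c2f0e4_an.Iface

open Set Filter Topology Real Asymptotics

namespace Pool.Agent.MP_c2f0e4_an

lemma sphcore_prim {c : ℝ → ℝ} (hc : Continuous c) (t : ℝ) :
    HasDerivAt (fun s => ∫ x in (0 : ℝ)..s, c x) (c t) t :=
  (hc.integral_hasStrictDerivAt 0 t).hasDerivAt

lemma sphcore_lin {y c : ℝ → ℝ} (hc : Continuous c) (hy : ∀ t, HasDerivAt y (c t * y t) t)
    (t : ℝ) : y t = y 0 * exp (∫ x in (0 : ℝ)..t, c x) := by
  have h1 : ∀ s, HasDerivAt (fun s => y s * exp (-∫ x in (0 : ℝ)..s, c x)) 0 s := fun s =>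
    ((hy s).mul (sphcore_prim hc s).neg.exp).congr_deriv (by simp only [Pi.neg_apply]; ring)
  have h2 := is_const_of_deriv_eq_zero (fun s => (h1 s).differentiableAt)
    (fun s => (h1 s).deriv) t 0
  simp only [intervalIntegral.integral_same, neg_zero, exp_zero, mul_one] at h2
  rw [← h2, mul_assoc, ← exp_add, neg_add_cancel, exp_zero, mul_one]

lemma sphcore_gron {E E' c : ℝ → ℝ} (hc : Continuous c) (hE : ∀ t, HasDerivAt E (E' t) t)
    (hb : ∀ t, |E' t| ≤ c t * E t) {t1 : ℝ} (h1 : E t1 = 0) : E 0 ≤ 0 := by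
  rcases le_total t1 0 with h | h
  · have h2 : ∀ s, HasDerivAt (fun s => E s * exp (-∫ x in (0 : ℝ)..s, c x))
        ((E' s - c s * E s) * exp (-∫ x in (0 : ℝ)..s, c x)) s := fun s =>
      ((hE s).mul (sphcore_prim hc s).neg.exp).congr_deriv (by simp only [Pi.neg_apply]; ring)
    have h3 := antitone_of_deriv_nonpos (fun s => (h2 s).differentiableAt) (fun s => by
      rw [(h2 s).deriv]
      exact mul_nonpos_of_nonpos_of_nonneg (by linarith [(abs_le.1 (hb s)).2]) (exp_pos _).le) h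
    simpa [h1] using h3
  · have h2 : ∀ s, HasDerivAt (fun s => E s * exp (∫ x in (0 : ℝ)..s, c x))
        ((E' s + c s * E s) * exp (∫ x in (0 : ℝ)..s, c x)) s := fun s =>
      ((hE s).mul (sphcore_prim hc s).exp).congr_deriv (by ring)
    have h3 := monotone_of_deriv_nonneg (fun s => (h2 s).differentiableAt) (fun s => by
      rw [(h2 s).deriv]
      exact mul_nonneg (by linarith [(abs_le.1 (hb s)).1]) (exp_pos _).le) h
    simpa [h1] using h3

lemma sphcore_bound (u a B D : ℝ) :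
    |2 * u * (-(a + B * u ^ 2) / (1 + u ^ 2)) + 2 * a * (D * (u ^ 2 / (1 + u ^ 2)))| ≤
      (1 + 2 * |B * u| + |D * u|) * (u ^ 2 + a ^ 2) := by
  have h0 : 0 < 1 + u ^ 2 := by positivity
  have h1 : 2 * u * (-(a + B * u ^ 2) / (1 + u ^ 2)) + 2 * a * (D * (u ^ 2 / (1 + u ^ 2))) =
      (-(2 * u * a) - 2 * (B * u) * u ^ 2 + (D * u) * (2 * u * a)) / (1 + u ^ 2) := by
    field_simp
    ring
  have h2 : |2 * u * a| ≤ u ^ 2 + a ^ 2 :=
    abs_le.2 ⟨by nlinarith [sq_nonneg (u + a)], by nlinarith [sq_nonneg (u - a)]⟩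
  have h3 : |2 * (B * u) * u ^ 2| ≤ 2 * |B * u| * (u ^ 2 + a ^ 2) := by
    rw [abs_mul, abs_mul, abs_two, abs_of_nonneg (sq_nonneg u)]
    exact mul_le_mul_of_nonneg_left (by nlinarith [sq_nonneg a]) (by positivity)
  have h4 : |(D * u) * (2 * u * a)| ≤ |D * u| * (u ^ 2 + a ^ 2) := by
    rw [abs_mul]
    exact mul_le_mul_of_nonneg_left h2 (abs_nonneg _)
  have h5 : |-(2 * u * a) - 2 * (B * u) * u ^ 2 + (D * u) * (2 * u * a)| ≤
      (1 + 2 * |B * u| + |D * u|) * (u ^ 2 + a ^ 2) := by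
    have := abs_le.1 h2
    have := abs_le.1 h3
    have := abs_le.1 h4
    exact abs_le.2 ⟨by linarith, by linarith⟩
  rw [h1, abs_div, abs_of_pos h0]
  exact (div_le_self (abs_nonneg _) (by nlinarith [sq_nonneg u])).trans h5

/-- The part of the argument that only uses the reduced system. -/
lemma sphcore_red {A B θ u : ℝ → ℝ} (hA : ContDiff ℝ 1 A) (hB : Continuous B)
    (hθ : ∀ t, HasDerivAt θ (u t ^ 2 / (1 + u t ^ 2)) t)
    (hu : ∀ t, HasDerivAt u (-(A (θ t) + B (θ t) * u t ^ 2) / (1 + u t ^ 2)) t)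
    (h0 : A (θ 0) = 0 → u 0 ≠ 0) : (∀ t, A (θ t) = 0 → u t ≠ 0) ∧ StrictMono θ := by
  have cθ : Continuous θ := continuous_iff_continuousAt.2 fun t => (hθ t).continuousAt
  have cu : Continuous u := continuous_iff_continuousAt.2 fun t => (hu t).continuousAt
  have cD : Continuous (deriv A) := hA.continuous_deriv le_rfl
  have dA : ∀ x, HasDerivAt A (deriv A x) x := fun x =>
    (hA.differentiable one_ne_zero x).hasDerivAt
  have hns : ∀ t, A (θ t) = 0 → u t ≠ 0 := by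
    intro t1 ha hu1
    have hE : ∀ t, HasDerivAt (fun t => u t ^ 2 + A (θ t) ^ 2)
        (2 * u t * (-(A (θ t) + B (θ t) * u t ^ 2) / (1 + u t ^ 2)) +
          2 * A (θ t) * (deriv A (θ t) * (u t ^ 2 / (1 + u t ^ 2)))) t := fun t =>
      (((hu t).pow 2).add (((dA (θ t)).comp t (hθ t)).pow 2)).congr_deriv (by simp)
    have h1 := sphcore_gron (c := fun t => 1 + 2 * |B (θ t) * u t| + |deriv A (θ t) * u t|)
      (by fun_prop) hE (fun t => sphcore_bound _ _ _ _) (t1 := t1) (by simp [ha, hu1])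
    have h2 : A (θ 0) = 0 := by nlinarith [sq_nonneg (u 0), sq_nonneg (A (θ 0))]
    exact h0 h2 (by nlinarith [sq_nonneg (u 0), sq_nonneg (A (θ 0))])
  refine ⟨hns, ?_⟩
  have hmono : Monotone θ := monotone_of_deriv_nonneg (fun t => (hθ t).differentiableAt)
    fun t => by rw [(hθ t).deriv]; positivity
  intro t1 t2 h12
  refine (hmono h12.le).lt_of_ne fun heq => ?_
  have hconst : ∀ t ∈ Ioo t1 t2, θ t = θ t1 := fun t ht =>
    le_antisymm (heq ▸ hmono ht.2.le) (hmono ht.1.le)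
  have hu0 : ∀ t ∈ Ioo t1 t2, u t = 0 := by
    intro t ht
    have h1 : HasDerivAt θ 0 t := (hasDerivAt_const t (θ t1)).congr_of_eventuallyEq (by
      filter_upwards [Ioo_mem_nhds ht.1 ht.2] with s hs using hconst s hs)
    have h2 := (hθ t).unique h1
    rw [div_eq_zero_iff] at h2
    rcases h2 with h2 | h2
    · exact pow_eq_zero_iff two_ne_zero |>.1 h2
    · nlinarith [sq_nonneg (u t)]
  obtain ⟨t, ht1, ht2⟩ := exists_between h12
  have h1 : HasDerivAt u 0 t := (hasDerivAt_const t (0 : ℝ)).congr_of_eventuallyEq (by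
    filter_upwards [Ioo_mem_nhds ht1 ht2] with s hs using hu0 s hs)
  have h2 := (hu t).unique h1
  rw [hu0 t ⟨ht1, ht2⟩] at h2
  exact hns t (by simpa using h2) (hu0 t ⟨ht1, ht2⟩)

theorem sphCoreS : SphCoreStmt := by
  intro b1 b2 a1 a2 a3 γ θ0 u0 hγ h0 hns
  set z1 : ℝ → ℝ := fun t => (γ t).1 with hz1
  set z2 : ℝ → ℝ := fun t => (γ t).2.1 with hz2
  set z3 : ℝ → ℝ := fun t => (γ t).2.2 with hz3
  set G : ℝ → ℝ := fun t => polyG b1 b2 a1 a2 a3 (γ t) with hG
  have d1 : ∀ t, HasDerivAt z1 (z3 t * (-z2 t * z3 t + z1 t * G t)) t := fun t => (hγ t).fst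
  have d2 : ∀ t, HasDerivAt z2 (z3 t * (z1 t * z3 t + z2 t * G t)) t := fun t => (hγ t).snd.fst
  have d3 : ∀ t, HasDerivAt z3 ((z3 t ^ 2 - 1) * G t) t := fun t => (hγ t).snd.snd
  have c1 : Continuous z1 := continuous_iff_continuousAt.2 fun t => (d1 t).continuousAt
  have c2 : Continuous z2 := continuous_iff_continuousAt.2 fun t => (d2 t).continuousAt
  have c3 : Continuous z3 := continuous_iff_continuousAt.2 fun t => (d3 t).continuousAt
  have hG' : ∀ t, G t = b1 * z1 t * z3 t ^ 2 + b2 * z2 t * z3 t ^ 2 + a1 * z1 t ^ 3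
      + a2 * z1 t ^ 2 * z2 t + a3 * z1 t * z2 t ^ 2 := fun t => rfl
  have cG : Continuous G := by
    rw [show G = _ from funext hG']
    fun_prop
  have hs0 : 0 < √(1 + u0 ^ 2) := sqrt_pos.2 (by positivity)
  have hs2 : √(1 + u0 ^ 2) ^ 2 = 1 + u0 ^ 2 := sq_sqrt (by positivity)
  have e1 : z1 0 = cos θ0 / √(1 + u0 ^ 2) := by simp only [hz1, h0, Pt]
  have e2 : z2 0 = sin θ0 / √(1 + u0 ^ 2) := by simp only [hz2, h0, Pt]
  have e3 : z3 0 = u0 / √(1 + u0 ^ 2) := by simp only [hz3, h0, Pt]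
  have hN : ∀ t, z1 t ^ 2 + z2 t ^ 2 + z3 t ^ 2 - 1 = 0 := by
    intro t
    have h1 := sphcore_lin (y := fun t => z1 t ^ 2 + z2 t ^ 2 + z3 t ^ 2 - 1)
      (c := fun t => 2 * z3 t * G t) (by fun_prop) (fun s =>
        (((((d1 s).pow 2).add ((d2 s).pow 2)).add ((d3 s).pow 2)).sub_const 1).congr_deriv
          (by simp only [Nat.cast_ofNat, Nat.add_one_sub_one, pow_one]; ring)) t
    have h2 : z1 0 ^ 2 + z2 0 ^ 2 + z3 0 ^ 2 - 1 = 0 := by
      rw [e1, e2, e3, div_pow, div_pow, div_pow, hs2]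
      field_simp
      nlinarith [sin_sq_add_cos_sq θ0]
    simp only [h2, zero_mul] at h1
    exact h1
  set θ : ℝ → ℝ := fun t => θ0 + ∫ x in (0 : ℝ)..t, z3 x ^ 2 with hθ
  have dθ : ∀ t, HasDerivAt θ (z3 t ^ 2) t := fun t =>
    (sphcore_prim (c := fun x => z3 x ^ 2) (by fun_prop) t).const_add θ0
  have θ0' : θ 0 = θ0 := by simp [hθ]
  set f1 : ℝ → ℝ := fun t => z1 t * cos (θ t) + z2 t * sin (θ t) with hf1
  set f2 : ℝ → ℝ := fun t => -z1 t * sin (θ t) + z2 t * cos (θ t) with hf2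
  have df1 : ∀ t, HasDerivAt f1 (z3 t * G t * f1 t) t := fun t =>
    (((d1 t).mul (dθ t).cos).add ((d2 t).mul (dθ t).sin)).congr_deriv (by simp only [hf1]; ring)
  have df2 : ∀ t, HasDerivAt f2 (z3 t * G t * f2 t) t := fun t =>
    (((d1 t).neg.mul (dθ t).sin).add ((d2 t).mul (dθ t).cos)).congr_deriv
      (by simp only [hf2, Pi.neg_apply]; ring)
  have hf10 : f1 0 = 1 / √(1 + u0 ^ 2) := by
    simp only [hf1, θ0', e1, e2]
    field_simp
    nlinarith [sin_sq_add_cos_sq θ0]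
  have hf20 : f2 0 = 0 := by
    simp only [hf2, θ0', e1, e2]
    ring
  have f1pos : ∀ t, 0 < f1 t := fun t => by
    rw [sphcore_lin (c := fun t => z3 t * G t) (by fun_prop) df1 t, hf10]
    positivity
  have f2z : ∀ t, f2 t = 0 := fun t => by
    rw [sphcore_lin (c := fun t => z3 t * G t) (by fun_prop) df2 t, hf20, zero_mul]
  have p1 : ∀ t, z1 t = f1 t * cos (θ t) := fun t => by
    have h1 := f2z t
    simp only [hf2] at h1
    simp only [hf1]
    linear_combination (-z1 t) * sin_sq_add_cos_sq (θ t) - sin (θ t) * h1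
  have p2 : ∀ t, z2 t = f1 t * sin (θ t) := fun t => by
    have h1 := f2z t
    simp only [hf2] at h1
    simp only [hf1]
    linear_combination (-z2 t) * sin_sq_add_cos_sq (θ t) + cos (θ t) * h1
  clear_value f1 f2
  set u : ℝ → ℝ := fun t => z3 t / f1 t with hu
  have p3 : ∀ t, z3 t = f1 t * u t := fun t => by
    have := (f1pos t).ne'
    simp only [hu]
    field_simp
  have q1 : ∀ t, f1 t ^ 2 * (1 + u t ^ 2) = 1 := fun t => by
    have h1 := hN t
    rw [p1, p2, p3] at h1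
    linear_combination h1 - f1 t ^ 2 * sin_sq_add_cos_sq (θ t)
  have q2 : ∀ t, f1 t = 1 / √(1 + u t ^ 2) := fun t => by
    have h1 : 0 < √(1 + u t ^ 2) := sqrt_pos.2 (by positivity)
    have h2 : √(1 + u t ^ 2) ^ 2 = 1 + u t ^ 2 := sq_sqrt (by positivity)
    have h3 : (f1 t * √(1 + u t ^ 2)) ^ 2 = 1 ^ 2 := by rw [mul_pow, h2, q1, one_pow]
    have h4 := (pow_left_inj₀ (mul_pos (f1pos t) h1).le zero_le_one two_ne_zero).1 h3
    rw [eq_div_iff h1.ne', h4]
  have q3 : ∀ t, f1 t ^ 2 = 1 / (1 + u t ^ 2) := fun t => by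
    rw [eq_div_iff (by positivity), q1]
  have u0' : u 0 = u0 := by
    simp only [hu, e3, hf10]
    field_simp
  have dθ' : ∀ t, HasDerivAt θ (u t ^ 2 / (1 + u t ^ 2)) t := fun t =>
    (dθ t).congr_deriv (by rw [p3, mul_pow, q3]; ring)
  have du : ∀ t, HasDerivAt u
      (-(Cub a1 a2 a3 0 (θ t) + Lin b1 b2 (θ t) * u t ^ 2) / (1 + u t ^ 2)) t := fun t => by
    refine ((d3 t).div (df1 t) (f1pos t).ne').congr_deriv ?_
    have h1 := (f1pos t).ne'
    have h2 : G t = f1 t ^ 3 * (Cub a1 a2 a3 0 (θ t) + Lin b1 b2 (θ t) * u t ^ 2) := by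
      rw [hG', p1, p2, p3]
      simp only [Cub, Lin]
      ring
    rw [div_eq_mul_one_div _ (1 + u t ^ 2), ← q3, h2]
    field_simp
    ring
  have hred := sphcore_red (A := Cub a1 a2 a3 0) (B := Lin b1 b2)
    (by unfold Cub; fun_prop) (by unfold Lin; fun_prop) dθ' du (by rw [θ0', u0']; exact hns)
  refine ⟨θ, u, θ0', u0', hred.2, fun t => ?_, hred.1, dθ', du⟩
  refine Prod.ext ?_ (Prod.ext ?_ ?_)
  · change z1 t = cos (θ t) / √(1 + u t ^ 2)
    rw [p1, q2]; ring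
  · change z2 t = sin (θ t) / √(1 + u t ^ 2)
    rw [p2, q2]; ring
  · change z3 t = u t / √(1 + u t ^ 2)
    rw [p3 t]
    nth_rewrite 1 [q2 t]
    ring

end Pool.Agent.MP_c2f0e4_an
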