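import Pool.Agent.MP_c2f0e4_an.Iface

open Set Filter Topology Real Asymptotics

namespace Pool.Agent.MP_c2f0e4_an

lemma t2a_neg {V u : ℝ} (h : u < V) (h1 : V + 2 * u < 0) :
    (V - u) * -(V + 2 * u) / u ^ 2 ≤ 9 ∧ -(V + 2 * u) / u ^ 2 * |u| ≤ 3 := by
  have hu : u < 0 := by linarith
  have h2 : 0 < u ^ 2 := by nlinarith
  rw [div_le_iff₀ h2, div_mul_eq_mul_div, div_le_iff₀ h2, abs_of_neg hu]
  constructor <;> nlinarith

lemma t2a_alg1 {C V u E al : ℝ} (h : u < V) (hE : 0 ≤ E) (h0 : 0 ≤ al) (h1 : al ≤ C) :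
    -E * al * (V - u) ^ 2 * (V + 2 * u) / u ^ 2 ≤ 9 * C * (E * (V - u)) := by
  have hs := sub_pos.2 h
  have hC := h0.trans h1
  rcases lt_or_ge (V + 2 * u) 0 with h2 | h2
  · have h3 := mul_le_mul h1 (t2a_neg h h2).1
      (div_nonneg (mul_nonneg hs.le (by linarith)) (sq_nonneg _)) hC
    calc _ = al * ((V - u) * -(V + 2 * u) / u ^ 2) * (E * (V - u)) := by ring
      _ ≤ C * 9 * (E * (V - u)) := mul_le_mul_of_nonneg_right h3 (by positivity)
      _ = _ := by ring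
  · have : 0 ≤ E * al * (V - u) ^ 2 * (V + 2 * u) / u ^ 2 := by positivity
    have : 0 ≤ 9 * C * (E * (V - u)) := by positivity
    rw [neg_mul, neg_mul, neg_mul, neg_div]
    linarith

lemma t2a_alg2 {C K s V u E al : ℝ} (h : u < V) (hE : 0 ≤ E) (hE' : E ≤ C) (h0 : 0 ≤ al)
    (h1 : al ≤ C) (hK : 1 ≤ K) (hs0 : 0 < s) (hs : V - u ≤ K * s) :
    -E * al * (V - u) ^ 2 * (V + 2 * u) / u ^ 2 * (|u| + s) ≤ 12 * C ^ 2 * K ^ 2 * s ^ 2 := by
  have hs' := sub_pos.2 h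
  have hC := h0.trans h1
  rcases lt_or_ge (V + 2 * u) 0 with h2 | h2
  · have h3 := mul_le_mul_of_nonneg_right (t2a_alg1 h hE h0 h1) hs0.le
    have h4 : E * (V - u) ≤ C * (K ^ 2 * s) :=
      mul_le_mul hE' (hs.trans (by nlinarith)) hs'.le hC
    have h5 := mul_le_mul (mul_le_mul (mul_le_mul hE' h1 h0 hC) (pow_le_pow_left₀ hs'.le hs 2)
      (by positivity) (by positivity)) (t2a_neg h h2).2
      (mul_nonneg (div_nonneg (by linarith) (sq_nonneg _)) (abs_nonneg _)) (by positivity)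
    have h6 := mul_le_mul_of_nonneg_left h4 (by positivity : 0 ≤ 9 * C * s)
    calc _ = E * al * (V - u) ^ 2 * (-(V + 2 * u) / u ^ 2 * |u|) +
          -E * al * (V - u) ^ 2 * (V + 2 * u) / u ^ 2 * s := by ring
      _ ≤ _ := by linarith
  · have : 0 ≤ E * al * (V - u) ^ 2 * (V + 2 * u) / u ^ 2 * (|u| + s) := by positivity
    have : 0 ≤ 12 * C ^ 2 * K ^ 2 * s ^ 2 := by positivity
    rw [neg_mul, neg_mul, neg_mul, neg_div, neg_mul]
    linarith

lemma t2a_alg3 {c C K s h V u E al be D : ℝ} (hc : 0 < c) (hV : u < V) (hE : 0 ≤ E) (hE' : E ≤ C)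
    (h0 : 0 ≤ al) (h1 : al ≤ C) (hK : 1 ≤ K) (hs0 : 0 < s) (hs : V - u ≤ K * s) (hu : u ≠ 0)
    (hbe : c ≤ be) (hu' : c ≤ be + al * V ^ 3 / u ^ 2) (hh : h ^ 2 = s ^ 3)
    (hD : c ≤ D * (|u| + s)) :
    E * al * (V - u) ^ 2 * (V + 2 * u) / u ^ 2 ≤ 12 * C ^ 2 * K ^ 3 / c * s ^ 2 * D +
      7 * C * (8 * C * K ^ 3 / c + 1) *
        ((be + al * V ^ 3 / u ^ 2) * h ^ 2 / (h ^ 2 + u ^ 2)) := by
  have hs' := sub_pos.2 hV
  have hC := h0.trans h1
  have hu2 : 0 < u ^ 2 := by positivity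
  have hD0 : 0 < D := (mul_pos_iff_of_pos_right (by positivity)).1 (hc.trans_le hD)
  have hp := hc.trans_le hu'
  have t1 : 0 ≤ 12 * C ^ 2 * K ^ 3 / c * s ^ 2 * D := by positivity
  have t2 : 0 ≤ 7 * C * (8 * C * K ^ 3 / c + 1) *
      ((be + al * V ^ 3 / u ^ 2) * h ^ 2 / (h ^ 2 + u ^ 2)) := by positivity
  rcases le_or_gt (V + 2 * u) 0 with h2 | h2
  · exact (div_nonpos_of_nonpos_of_nonneg (mul_nonpos_of_nonneg_of_nonpos (by positivity) h2)
      hu2.le).trans (add_nonneg t1 t2)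
  have hV0 : 0 < V := by linarith
  rcases le_or_gt s u with h3 | h3
  · have hu0 : 0 < u := hs0.trans_le h3
    rw [abs_of_pos hu0] at hD
    have h4 : V + 2 * u ≤ 6 * K * u := by nlinarith
    have h5 := mul_le_mul (mul_le_mul (mul_le_mul hE' h1 h0 hC) (pow_le_pow_left₀ hs'.le hs 2)
      (by positivity) (by positivity)) h4 h2.le (by positivity)
    have h6 : c ≤ 2 * D * u := by nlinarith
    refine le_add_of_le_of_nonneg ?_ t2
    rw [div_le_iff₀ hu2]
    refine h5.trans ?_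
    have h7 := mul_le_mul_of_nonneg_left h6 (by positivity : 0 ≤ 6 * C ^ 2 * K ^ 3 / c * s ^ 2 * u)
    refine le_trans (le_of_eq ?_) (h7.trans (le_of_eq (by ring)))
    field_simp
  · refine le_add_of_nonneg_of_le t1 ?_
    have h4 : V ≤ 2 * K * s := by nlinarith
    have h5 : al * V ^ 3 ≤ 8 * C * K ^ 3 * h ^ 2 := by
      rw [hh]
      exact (mul_le_mul h1 (pow_le_pow_left₀ hV0.le h4 3) (by positivity) hC).trans_eq (by ring)
    have h6 : (V - u) ^ 2 * (V + 2 * u) ≤ 7 * V ^ 3 := by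
      have := mul_le_mul (pow_le_pow_left₀ hs'.le (by linarith : V - u ≤ 3 / 2 * V) 2)
        (by linarith : V + 2 * u ≤ 3 * V) h2.le (by positivity)
      nlinarith [pow_pos hV0 3]
    have h7 : E * al * (V - u) ^ 2 * (V + 2 * u) ≤ 7 * C * (al * V ^ 3) := by
      have := mul_le_mul (mul_le_mul_of_nonneg_right hE' h0) h6 (by positivity) (by positivity)
      linarith
    have ht : 0 ≤ al * V ^ 3 := by positivity
    generalize al * V ^ 3 = t at *
    refine (div_le_div_of_nonneg_right h7 hu2.le).trans ?_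
    rw [mul_div_assoc, mul_assoc (7 * C)]
    refine mul_le_mul_of_nonneg_left ?_ (by positivity)
    rw [← mul_div_assoc, le_div_iff₀ (by positivity)]
    have h8 : t / u ^ 2 * u ^ 2 = t := div_mul_cancel₀ _ hu2.ne'
    have h9 : 0 ≤ t / u ^ 2 := by positivity
    have h10 : 8 * C * K ^ 3 / c * c = 8 * C * K ^ 3 := div_mul_cancel₀ _ hc.ne'
    have h11 : 0 ≤ 8 * C * K ^ 3 / c := by positivity
    generalize 8 * C * K ^ 3 / c = T at *
    generalize t / u ^ 2 = w at *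
    have h12 : 0 ≤ h ^ 2 := sq_nonneg h
    nlinarith [mul_nonneg (mul_nonneg h11 h9) h12, mul_nonneg (mul_nonneg h11 (sub_nonneg.2 hbe)) h12,
      mul_nonneg (hc.le.trans hbe) h12]

lemma t2a_sqrt (r : ℝ) : √(1 + r ^ 2) ≤ 1 + |r| :=
  Real.sqrt_le_iff.2 ⟨by positivity, by nlinarith [sq_abs r, abs_nonneg r]⟩

lemma t2a_arsinh {u : ℝ → ℝ} {u' x c s : ℝ} (hu : HasDerivAt u u' x) (hc : 0 < c) (h : c ≤ u')
    (hs : 0 < s) :
    ∃ D, HasDerivAt (fun y => arsinh (u y / s)) D x ∧ c ≤ D * (|u x| + s) := by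
  refine ⟨_, (hu.div_const s).arsinh, h.trans ?_⟩
  have h1 := t2a_sqrt (u x / s)
  have h2 : 0 < √(1 + (u x / s) ^ 2) := by positivity
  have h3 : u' / s * (|u x| + s) = u' * (1 + |u x / s|) := by
    rw [abs_div, abs_of_pos hs]
    field_simp
    ring
  rw [smul_eq_mul, mul_assoc, le_inv_mul_iff₀ h2, h3, mul_comm]
  exact mul_le_mul_of_nonneg_left h1 (hc.le.trans h)

lemma t2a_arsinh_le {u B s : ℝ} (hu : |u| ≤ B) (hs : 0 < s) (h1 : s ≤ 1) :
    |arsinh (u / s)| ≤ (2 * B + 1) * (1 + |Real.log s|) := by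
  have hB := (abs_nonneg u).trans hu
  have h2 : arsinh (B / s) ≤ (2 * B + 1) * (1 + |Real.log s|) := by
    have h3 := t2a_sqrt (B / s)
    rw [abs_of_nonneg (by positivity)] at h3
    have h4 : B / s + √(1 + (B / s) ^ 2) ≤ (2 * B + 1) / s := by
      have : 1 ≤ 1 / s := one_le_one_div hs h1
      rw [add_div, mul_div_assoc]
      linarith
    have h5 := Real.log_le_log (by positivity) h4
    rw [Real.log_div (by positivity) hs.ne'] at h5
    have h6 := Real.log_le_sub_one_of_pos (by positivity : 0 < 2 * B + 1)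
    have h7 := neg_le_abs (Real.log s)
    rw [arsinh]
    nlinarith [mul_nonneg hB (abs_nonneg (Real.log s))]
  refine abs_le.2 ⟨?_, (arsinh_le_arsinh.2 ?_).trans h2⟩
  · rw [neg_le, ← arsinh_neg, ← neg_div]
    exact (arsinh_le_arsinh.2 (div_le_div_of_nonneg_right ((neg_le_abs u).trans hu) hs.le)).trans h2
  · exact div_le_div_of_nonneg_right ((le_abs_self u).trans hu) hs.le

lemma t2a_log {s : ℝ} (hs : 0 < s) (h1 : s ≤ 1) : s * (1 + |Real.log s|) ≤ 3 * √s := by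
  have h2 : 0 < √s := by positivity
  have h3 : √s ≤ 1 := Real.sqrt_le_one.2 h1
  have h4 := Real.one_sub_inv_le_log_of_pos h2
  rw [Real.log_sqrt hs.le] at h4
  rw [abs_of_nonpos (Real.log_nonpos hs.le h1)]
  have h5 : s * (√s)⁻¹ = √s := by
    rw [← div_eq_mul_inv, Real.div_sqrt]
  have h6 := Real.mul_self_sqrt hs.le
  nlinarith [mul_le_mul_of_nonneg_left h4 hs.le]

variable {d c C : ℝ} {V al be E : ℝ → ℝ} {U : ℕ → ℝ → ℝ}

lemma t2a_anti (h : TSeq d c C V al be E U) (n : ℕ) {f : ℝ → ℝ}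
    (hf : ContinuousOn f (Icc (-d) d))
    (hd : ∀ x ∈ Ioo (-d) d, x ≠ 0 → U n x ≠ 0 → ∃ f', HasDerivAt f f' x ∧ f' ≤ 0) :
    ∀ x ∈ Icc (-d) d, ∀ y ∈ Icc x d, f y ≤ f x := fun x hx y hy => by
  have := sub_le_of_deriv_le ((h.fin n).insert 0) hy.1 (hf.mono (Icc_subset_Icc hx.1 hy.2))
    fun z hz hS => by
      have h1 : z ∈ Ioo (-d) d := ⟨hx.1.trans_lt hz.1, hz.2.trans_le hy.2⟩
      exact hd z h1 (fun h0 => hS (Or.inl h0)) fun h0 => hS (Or.inr ⟨Ioo_subset_Icc_self h1, h0⟩)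
  linarith

lemma t2a_step1 (h : TSeq d c C V al be E U) :
    ∃ K : ℝ, 1 ≤ K ∧ ∀ n, ∀ x ∈ Icc (-d) d, V x - U n x ≤ K * (V (-d) - U n (-d)) := by
  have hd := h.dpos
  have hc := h.cpos
  have hm : -d ∈ Icc (-d) d := left_mem_Icc.2 (by linarith)
  have hC : c ≤ C := (h.bdE _ hm).1.trans (h.bdE _ hm).2
  have hC0 := hc.trans_le hC
  refine ⟨C / c * exp (18 * C * d), one_le_mul_of_one_le_of_one_le ((one_le_div hc).2 hC)
    (one_le_exp (by positivity)), fun n x hx => ?_⟩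
  have h1 := t2a_anti h n (f := fun y => E y * (V y - U n y) * exp (-(9 * C) * y))
    ((h.contE.mul (h.contV.sub (h.contU n))).mul (by fun_prop)) (fun y hy h0 hu => by
      have hy' := Ioo_subset_Icc_self hy
      refine ⟨_, (h.derP n y hy h0 hu).mul ((hasDerivAt_id' y).const_mul (-(9 * C))).exp, ?_⟩
      have h2 := t2a_alg1 (h.lt n y hy') (hc.le.trans (h.bdE y hy').1)
        (hc.le.trans (h.bdal y hy' h0).1) (h.bdal y hy' h0).2
      nlinarith [mul_le_mul_of_nonneg_right h2 (exp_pos (-(9 * C) * y)).le]) _ hm x hx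
  have h2 := sub_pos.2 (h.lt n x hx)
  have h3 := sub_pos.2 (h.lt n _ hm)
  have h4 : exp (-(9 * C) * -d) ≤ exp (18 * C * d) * exp (-(9 * C) * x) := by
    rw [← exp_add, exp_le_exp]
    nlinarith [hx.2]
  have h5 := mul_le_mul (mul_le_mul_of_nonneg_right (h.bdE _ hm).2 h3.le) h4 (exp_pos _).le
    (by positivity)
  have h6 := le_of_mul_le_mul_right ((h1.trans h5).trans_eq (mul_assoc _ _ _).symm) (exp_pos _)
  rw [div_mul_eq_mul_div, div_mul_eq_mul_div, le_div_iff₀ hc]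
  nlinarith [mul_le_mul_of_nonneg_right (h.bdE x hx).1 h2.le]

theorem t2aS : T2aStmt := by
  intro d c C V al be E U h
  obtain ⟨K, hK, h1⟩ := t2a_step1 h
  have hd := h.dpos
  have hc := h.cpos
  have hm : -d ∈ Icc (-d) d := left_mem_Icc.2 (by linarith)
  have hC := hc.trans_le ((h.bdE _ hm).1.trans (h.bdE _ hm).2)
  obtain ⟨B, hB⟩ := isCompact_Icc.exists_bound_of_continuousOn h.contV
  have hB0 := (norm_nonneg _).trans (hB _ hm)
  obtain ⟨P, hP0, hP, hP'⟩ : ∃ P : ℝ, 0 ≤ P ∧ P = 12 * C ^ 2 * K ^ 3 / c ∧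
      12 * C ^ 2 * K ^ 2 ≤ P * c := by
    refine ⟨_, by positivity, rfl, ?_⟩
    rw [div_mul_cancel₀ _ hc.ne']
    exact mul_le_mul_of_nonneg_left (pow_le_pow_right₀ hK (by norm_num)) (by positivity)
  obtain ⟨Q, hQ0, hQ⟩ : ∃ Q : ℝ, 0 ≤ Q ∧ Q = 7 * C * (8 * C * K ^ 3 / c + 1) :=
    ⟨_, by positivity, rfl⟩
  obtain ⟨R, hR0, hR⟩ : ∃ R : ℝ, 0 ≤ R ∧ R = 2 * P * (2 * (B + K) + 1) :=
    ⟨_, by positivity, rfl⟩
  refine ⟨K + 3 * R + 4 * Q, by positivity, ?_⟩
  filter_upwards [(h.unif.tendsto_at hm).eventually (lt_mem_nhds (sub_one_lt (V (-d))))] with n hn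
  have hs := sub_pos.2 (h.lt n _ hm)
  have hs1 : V (-d) - U n (-d) ≤ 1 := by linarith
  have h2 := h1 n
  set s := V (-d) - U n (-d) with hsd
  have hL : ∀ x ∈ Icc (-d) d, |P * s ^ 2 * arsinh (U n x / s)| ≤
      R / 2 * s ^ 2 * (1 + |Real.log s|) := fun x hx => by
    have h3 : |U n x| ≤ B + K := by
      have h4 := abs_le.1 (hB x hx)
      have h5 := h.lt n x hx
      exact abs_le.2 ⟨by nlinarith [h2 x hx], by linarith⟩
    rw [abs_mul, abs_of_nonneg (by positivity), hR]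
    exact (mul_le_mul_of_nonneg_left (t2a_arsinh_le h3 hs hs1) (by positivity)).trans_eq (by ring)
  have cψ := h.contE.mul (h.contV.sub (h.contU n))
  have cL : ContinuousOn (fun y => P * s ^ 2 * arsinh (U n y / s)) (Icc (-d) d) :=
    continuousOn_const.mul (continuous_arsinh.comp_continuousOn ((h.contU n).div_const s))
  have h3 := t2a_anti h n (cψ.sub cL) fun y hy h0 hu => by
    have hy' := Ioo_subset_Icc_self hy
    obtain ⟨D, hD, hD'⟩ := t2a_arsinh (h.derU n y hy h0 hu).1 hc (h.derU n y hy h0 hu).2 hs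
    refine ⟨_, (h.derP n y hy h0 hu).sub (hD.const_mul _), sub_nonpos.2 ?_⟩
    refine le_of_mul_le_mul_right ((t2a_alg2 (h.lt n y hy') (hc.le.trans (h.bdE y hy').1)
      (h.bdE y hy').2 (hc.le.trans (h.bdal y hy' h0).1) (h.bdal y hy' h0).2 hK hs
      (h2 y hy')).trans ?_) (by positivity)
    nlinarith [mul_le_mul_of_nonneg_left hD' (by positivity : 0 ≤ P * s ^ 2),
      mul_le_mul_of_nonneg_right hP' (sq_nonneg s)]
  have h4 : ∀ x ∈ Icc (-d) d, ∀ y ∈ Icc x d, E y * (V y - U n y) - E x * (V x - U n x) ≤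
      R * s ^ 2 * (1 + |Real.log s|) := fun x hx y hy => by
    have h5 := h3 x hx y hy
    simp only [Pi.sub_apply, Pi.mul_apply] at h5
    linarith [abs_le.1 (hL x hx), abs_le.1 (hL y ⟨hx.1.trans hy.1, hy.2⟩)]
  have hh : 0 < s * √s := by positivity
  have hh2 : (s * √s) ^ 2 = s ^ 3 := by rw [mul_pow, Real.sq_sqrt hs.le, ← pow_succ]
  have h6 : R * s ^ 2 * (1 + |Real.log s|) ≤ 3 * R * (s * √s) := by
    nlinarith [mul_le_mul_of_nonneg_left (t2a_log hs hs1) (by positivity : 0 ≤ R * s)]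
  generalize hg : s * √s = g at hh hh2 h6
  have h5 := t2a_anti h n (f := fun y => -(E y * (V y - U n y)) -
      P * s ^ 2 * arsinh (U n y / s) - Q * (g * arctan (U n y / g)))
    ((cψ.neg.sub cL).sub (continuousOn_const.mul (continuousOn_const.mul
      (continuous_arctan.comp_continuousOn ((h.contU n).div_const g))))) fun y hy h0 hu => by
    have hy' := Ioo_subset_Icc_self hy
    obtain ⟨D, hD, hD'⟩ := t2a_arsinh (h.derU n y hy h0 hu).1 hc (h.derU n y hy h0 hu).2 hs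
    refine ⟨_, ((h.derP n y hy h0 hu).neg.sub (hD.const_mul _)).sub
      ((((h.derU n y hy h0 hu).1.div_const g).arctan.const_mul g).const_mul Q), ?_⟩
    have h7 := t2a_alg3 hc (h.lt n y hy') (hc.le.trans (h.bdE y hy').1)
      (h.bdE y hy').2 (hc.le.trans (h.bdal y hy' h0).1) (h.bdal y hy' h0).2 hK hs (h2 y hy') hu
      (h.bdbe y hy').1 (h.derU n y hy h0 hu).2 hh2 hD'
    have h8 : g * (1 / (1 + (U n y / g) ^ 2) * ((be y + al y * V y ^ 3 / U n y ^ 2) / g)) =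
        (be y + al y * V y ^ 3 / U n y ^ 2) * g ^ 2 / (g ^ 2 + U n y ^ 2) := by field_simp
    rw [h8, neg_mul, neg_mul, neg_mul, neg_div, neg_neg]
    rw [← hP, ← hQ] at h7
    linarith
  have h7 : ∀ t : ℝ, |Q * (g * arctan t)| ≤ 2 * Q * g := fun t => by
    have h8 : |arctan t| ≤ 2 := abs_le.2
      ⟨by linarith [neg_pi_div_two_lt_arctan t, pi_le_four], by
        linarith [arctan_lt_pi_div_two t, pi_le_four]⟩
    rw [← mul_assoc, abs_mul, abs_of_nonneg (by positivity)]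
    nlinarith [mul_le_mul_of_nonneg_left h8 (by positivity : 0 ≤ Q * g)]
  intro x hx
  refine ⟨(h2 x hx).trans (mul_le_mul_of_nonneg_right (by linarith) hs.le), ?_,
    fun y hy => (h4 x hx y hy).trans (mul_le_mul_of_nonneg_right
      (mul_le_mul_of_nonneg_right (by linarith) (sq_nonneg s)) (by positivity))⟩
  have h8 := h4 _ hm x hx
  have h9 := h5 _ hm x hx
  have h10 : 0 ≤ K * g := by positivity
  have h11 : 0 ≤ Q * g := by positivity
  rw [mul_assoc, hg]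
  refine abs_le.2 ⟨?_, by linarith⟩
  linarith [abs_le.1 (hL x hx), abs_le.1 (hL _ hm), abs_le.1 (h7 (U n x / g)),
    abs_le.1 (h7 (U n (-d) / g))]

end Pool.Agent.MP_c2f0e4_an
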