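import Pool.Agent.MP_c2f0e4_an.Iface

open Set Filter Topology Real Asymptotics

namespace Pool.Agent.MP_c2f0e4_an

lemma t2b_mono {d c C : ℝ} {V al be E : ℝ → ℝ} {U : ℕ → ℝ → ℝ} (h : TSeq d c C V al be E U)
    (n : ℕ) {x y : ℝ} (hx : -d ≤ x) (hxy : x ≤ y) (hy : y ≤ d) : U n x ≤ U n y := by
  have := le_sub_of_le_deriv (f := U n) (c := c) ((h.fin n).insert 0) hxy
    ((h.contU n).mono (Icc_subset_Icc hx hy)) fun z hz hzS => by
      have hz' : z ∈ Ioo (-d) d := ⟨hx.trans_lt hz.1, hz.2.trans_le hy⟩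
      have h0 : z ≠ 0 := fun e => hzS (Or.inl e)
      have h1 : U n z ≠ 0 := fun e => hzS (Or.inr ⟨Ioo_subset_Icc_self hz', e⟩)
      exact ⟨_, h.derU n z hz' h0 h1⟩
  nlinarith [h.cpos]

/-- the pointwise inequality between the two derivatives -/
lemma t2b_alg {c C K c1 r e a b v u : ℝ} (hc : 0 < c) (hK : 0 < K) (hc1 : 0 < c1) (hr : 0 < r)
    (hr1 : r ≤ 1) (hr2 : 6 * r ≤ c1) (he : c ≤ e) (ha : c ≤ a) (ha' : a ≤ C) (hb : b ≤ C)
    (hs : c1 * r ^ 2 ≤ v - u) (hs' : v - u ≤ K * r ^ 2) (hu : -r ^ 3 ≤ u) (hu' : u ≤ r ^ 3)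
    (hu0 : u ≠ 0) :
    -e * a * (v - u) ^ 2 * (v + 2 * u) / u ^ 2 +
      c ^ 2 * c1 ^ 3 / 2 / (C * (1 + (K + 1) ^ 3)) * (b + a * v ^ 3 / u ^ 2) ≤ 0 := by
  have hC : 0 < C := hc.trans_le (ha.trans ha')
  have hu2 : 0 < u ^ 2 := by positivity
  have hr3 : 6 * r ^ 3 ≤ c1 * r ^ 2 := by nlinarith [sq_nonneg r]
  have hr4 : r ^ 3 ≤ r ^ 2 := pow_le_pow_of_le_one hr.le hr1 (by norm_num)
  have hr5 : 0 < r ^ 3 := by positivity
  have h1 : c1 * r ^ 2 / 2 ≤ v + 2 * u := by linarith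
  have h2 : 0 ≤ v := by linarith
  have h3 : v ≤ (K + 1) * r ^ 2 := by linarith
  have h4 : u ^ 2 ≤ r ^ 6 := by
    rw [show r ^ 6 = (r ^ 3) ^ 2 by ring]
    exact sq_le_sq' hu hu'
  have h5 : c * c * (c1 * r ^ 2) ^ 2 * (c1 * r ^ 2 / 2) ≤ e * a * (v - u) ^ 2 * (v + 2 * u) := by
    have : 0 < e := hc.trans_le he
    have : 0 < a := hc.trans_le ha
    gcongr
  have h6 : a * v ^ 3 ≤ C * ((K + 1) * r ^ 2) ^ 3 := by gcongr
  have h7 : b * u ^ 2 ≤ C * r ^ 6 :=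
    (mul_le_mul_of_nonneg_right hb hu2.le).trans (mul_le_mul_of_nonneg_left h4 hC.le)
  have h8 : b + a * v ^ 3 / u ^ 2 ≤ C * (1 + (K + 1) ^ 3) * r ^ 6 / u ^ 2 := by
    rw [le_div_iff₀ hu2, add_mul, div_mul_cancel₀ _ hu2.ne']
    nlinarith
  have hD : 0 < C * (1 + (K + 1) ^ 3) := by positivity
  have h9 := mul_le_mul_of_nonneg_left h8
    (show 0 ≤ c ^ 2 * c1 ^ 3 / 2 / (C * (1 + (K + 1) ^ 3)) by positivity)
  have h10 : c ^ 2 * c1 ^ 3 / 2 / (C * (1 + (K + 1) ^ 3)) *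
      (C * (1 + (K + 1) ^ 3) * r ^ 6 / u ^ 2) = c ^ 2 * c1 ^ 3 / 2 * r ^ 6 / u ^ 2 := by
    field_simp
  have h11 : c ^ 2 * c1 ^ 3 / 2 * r ^ 6 / u ^ 2 ≤ e * a * (v - u) ^ 2 * (v + 2 * u) / u ^ 2 :=
    div_le_div_of_nonneg_right (le_of_eq_of_le (by ring) h5) hu2.le
  have h12 : -e * a * (v - u) ^ 2 * (v + 2 * u) / u ^ 2 =
      -(e * a * (v - u) ^ 2 * (v + 2 * u) / u ^ 2) := by ring
  linarith

/-- the drop of `ψ` across the zero -/
lemma t2b_drop {d c C K L r : ℝ} {V al be E : ℝ → ℝ} {U : ℕ → ℝ → ℝ}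
    (h : TSeq d c C V al be E U) (n : ℕ) (hK : 0 < K) (hr : 0 < r)
    (hs0 : V (-d) - U n (-d) = r ^ 2) (hr1 : r ≤ 1) (hr2 : 6 * r ≤ c / (2 * C))
    (hr3 : K * r ≤ c / 2) (hr4 : (K + 1) * r ≤ c * d)
    (H : ∀ x ∈ Icc (-d) d, V x - U n x ≤ K * r ^ 2 ∧
      |E x * (V x - U n x) - E (-d) * r ^ 2| ≤ K * r ^ 2 * r ∧
      ∀ y ∈ Icc x d, E y * (V y - U n y) - E x * (V x - U n x) ≤ L) :
    E d * (V d - U n d) - E (-d) * r ^ 2 ≤
      2 * L - 2 * (c ^ 2 * (c / (2 * C)) ^ 3 / 2 / (C * (1 + (K + 1) ^ 3))) * r ^ 3 := by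
  have hd := h.dpos
  have hc := h.cpos
  have ml : -d ∈ Icc (-d) d := left_mem_Icc.2 (by linarith)
  have mr : d ∈ Icc (-d) d := right_mem_Icc.2 (by linarith)
  have hC : 0 < C := hc.trans_le ((h.bdE d mr).1.trans (h.bdE d mr).2)
  have hr2' : 0 < r ^ 2 := by positivity
  have hr3' : 0 < r ^ 3 := by positivity
  have p2 : r ^ 2 ≤ r := by nlinarith
  have p3 : r ^ 3 ≤ r ^ 2 := pow_le_pow_of_le_one hr.le hr1 (by norm_num)
  have hlow : ∀ x ∈ Icc (-d) d, c / (2 * C) * r ^ 2 ≤ V x - U n x := by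
    intro x hx
    have h1 := (abs_le.1 (H x hx).2.1).1
    have h2 := mul_le_mul_of_nonneg_right (h.bdE _ ml).1 hr2'.le
    have h3 := mul_le_mul_of_nonneg_right hr3 hr2'.le
    have h4 := mul_le_mul_of_nonneg_right (h.bdE _ hx).2 (sub_pos.2 (h.lt n x hx)).le
    rw [div_mul_eq_mul_div, div_le_iff₀ (by positivity)]
    nlinarith
  have hVl : V (-d) ≤ -(c * d) := by
    have := (h.bdV _ ml).1
    nlinarith
  have hVr : c * d ≤ V d := by
    have := (h.bdV _ mr).1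
    nlinarith
  have hUl : U n (-d) ≤ -r ^ 3 := by
    have := h.lt n _ ml
    nlinarith
  have hUr : r ^ 3 ≤ U n d := by
    have := (H d mr).1
    nlinarith
  obtain ⟨x1, hx1, e1⟩ := intermediate_value_Icc (by linarith : -d ≤ d) (h.contU n)
    (show -r ^ 3 ∈ Icc (U n (-d)) (U n d) from ⟨hUl, by linarith⟩)
  obtain ⟨x2, hx2, e2⟩ := intermediate_value_Icc hx1.2
    ((h.contU n).mono (Icc_subset_Icc_left hx1.1))
    (show r ^ 3 ∈ Icc (U n x1) (U n d) from ⟨by linarith, hUr⟩)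
  have hsub : Icc x1 x2 ⊆ Icc (-d) d := Icc_subset_Icc hx1.1 hx2.2
  set k := c ^ 2 * (c / (2 * C)) ^ 3 / 2 / (C * (1 + (K + 1) ^ 3)) with hk
  have key := sub_le_of_deriv_le (f := fun y => E y * (V y - U n y) + k * U n y) (c := 0)
    ((h.fin n).insert 0) hx2.1
    (((h.contE.mul (h.contV.sub (h.contU n))).add (continuousOn_const.mul (h.contU n))).mono hsub)
    fun z hz hzS => by
      have hz' : z ∈ Ioo (-d) d := ⟨hx1.1.trans_lt hz.1, hz.2.trans_le hx2.2⟩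
      have hz'' := Ioo_subset_Icc_self hz'
      have h0 : z ≠ 0 := fun e => hzS (Or.inl e)
      have h1 : U n z ≠ 0 := fun e => hzS (Or.inr ⟨hz'', e⟩)
      refine ⟨_, (h.derP n z hz' h0 h1).add ((h.derU n z hz' h0 h1).1.const_mul k), ?_⟩
      exact t2b_alg hc hK (by positivity) hr hr1 hr2 (h.bdE z hz'').1 (h.bdal z hz'' h0).1
        (h.bdal z hz'' h0).2 (h.bdbe z hz'').2 (hlow z hz'') (H z hz'').1
        (e1 ▸ t2b_mono h n hx1.1 hz.1.le hz''.2) (e2 ▸ t2b_mono h n hz''.1 hz.2.le hx2.2) h1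
  have a1 := (H _ ml).2.2 x1 hx1
  have a2 := (H x2 (hsub (right_mem_Icc.2 hx2.1))).2.2 d (right_mem_Icc.2 hx2.2)
  rw [hs0] at a1
  have e3 : k * U n x1 = -(k * r ^ 3) := by rw [e1]; ring
  have e4 : k * U n x2 = k * r ^ 3 := by rw [e2]
  linarith

lemma t2b_taylor {Φ : ℝ → ℝ} (h : AnalyticAt ℝ Φ 0) (h0 : Φ 0 = 0) :
    ∃ M : ℝ, 0 ≤ M ∧ ∀ᶠ t in 𝓝 (0 : ℝ), |Φ t - deriv Φ 0 * t| ≤ M * t ^ 2 := by
  obtain ⟨p, hp⟩ := h
  have hg : AnalyticAt ℝ (dslope Φ 0) 0 := ⟨_, hp.has_fpower_series_dslope_fslope⟩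
  obtain ⟨M, hM, hb⟩ := hg.differentiableAt.isBigO_sub.exists_nonneg
  refine ⟨M, hM, ?_⟩
  filter_upwards [hb.bound] with t ht
  have e := sub_smul_dslope Φ 0 t
  rw [h0, sub_zero, sub_zero, smul_eq_mul] at e
  rw [dslope_same, sub_zero, Real.norm_eq_abs, Real.norm_eq_abs] at ht
  rw [← e, show t * dslope Φ 0 t - deriv Φ 0 * t = t * (dslope Φ 0 t - deriv Φ 0) by ring, abs_mul,
    ← sq_abs t]
  nlinarith [abs_nonneg t]

theorem t2bS : T2bStmt := by
  intro d c C V al be E U h ⟨K, hK, hV⟩ Φ hΦ hΦ0 hp hev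
  obtain ⟨M, hM, hT⟩ := t2b_taylor hΦ hΦ0
  set p := deriv Φ 0
  have hd := h.dpos
  have hc := h.cpos
  have ml : -d ∈ Icc (-d) d := left_mem_Icc.2 (by linarith)
  have mr : d ∈ Icc (-d) d := right_mem_Icc.2 (by linarith)
  have hE : 0 < E d := hc.trans_le (h.bdE d mr).1
  have hC : 0 < C := hE.trans_le (h.bdE d mr).2
  have lim : ∀ x ∈ Icc (-d) d, Tendsto (fun n => V x - U n x) atTop (𝓝 0) := fun x hx => by
    have := (tendsto_const_nhds (x := V x)).sub (h.unif.tendsto_at hx)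
    rwa [sub_self] at this
  set r : ℕ → ℝ := fun n => √(V (-d) - U n (-d)) with hr
  have rpos : ∀ n, 0 < r n := fun n => Real.sqrt_pos.2 (sub_pos.2 (h.lt n _ ml))
  have rsq : ∀ n, V (-d) - U n (-d) = r n ^ 2 := fun n =>
    (Real.sq_sqrt (sub_pos.2 (h.lt n _ ml)).le).symm
  have rlim : Tendsto r atTop (𝓝 0) := by
    have := (lim _ ml).sqrt
    rwa [Real.sqrt_zero] at this
  have small : ∀ a b : ℝ, 0 < b → ∀ᶠ n in atTop, a * r n ≤ b := fun a b hb => by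
    have := rlim.const_mul a
    rw [mul_zero] at this
    exact this.eventually (ge_mem_nhds hb)
  set c0 := E d / p - E (-d)
  set A := E d / p * (M * K ^ 2)
  have hA : ∀ᶠ n in atTop, |E d * (V d - U n d) - E (-d) * r n ^ 2 - c0 * r n ^ 2| ≤
      A * r n ^ 4 := by
    filter_upwards [hV, hev, (lim d mr).eventually hT] with n h1 h2 h3
    have h4 := (h1 d mr).1
    rw [← h2, rsq] at h3
    rw [rsq] at h4
    have h5 : (V d - U n d) ^ 2 ≤ (K * r n ^ 2) ^ 2 :=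
      pow_le_pow_left₀ (sub_pos.2 (h.lt n d mr)).le h4 2
    have e : E d * (V d - U n d) - E (-d) * r n ^ 2 - c0 * r n ^ 2 =
        -(E d / p) * (r n ^ 2 - p * (V d - U n d)) := by
      simp only [c0]
      field_simp
      ring
    rw [e, abs_mul, abs_neg, abs_of_pos (div_pos hE hp), mul_assoc]
    refine mul_le_mul_of_nonneg_left (h3.trans ?_) (div_pos hE hp).le
    nlinarith
  have hc0 : c0 = 0 := by
    have l1 : Tendsto (fun n => K * r n + A * r n ^ 2) atTop (𝓝 (K * 0 + A * 0 ^ 2)) :=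
      (rlim.const_mul K).add ((rlim.pow 2).const_mul A)
    have := ge_of_tendsto l1 (b := |c0|) (by
      filter_upwards [hV, hA] with n h1 h2
      have h3 : |E d * (V d - U n d) - E (-d) * (V (-d) - U n (-d))| ≤
        K * (V (-d) - U n (-d)) * r n := (h1 d mr).2.1
      rw [rsq] at h3
      have h4 : |c0| * r n ^ 2 ≤ (K * r n + A * r n ^ 2) * r n ^ 2 := by
        rw [← abs_of_nonneg (sq_nonneg (r n)), ← abs_mul, abs_of_nonneg (sq_nonneg (r n))]
        have := abs_le.1 h2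
        have := abs_le.1 h3
        rw [abs_le]
        constructor <;> nlinarith
      exact le_of_mul_le_mul_right h4 (pow_pos (rpos n) 2))
    rw [mul_zero, zero_add, zero_pow two_ne_zero, mul_zero] at this
    exact abs_nonpos_iff.1 this
  set k := c ^ 2 * (c / (2 * C)) ^ 3 / 2 / (C * (1 + (K + 1) ^ 3)) with hk
  have kpos : 0 < k := by positivity
  have l2 : Tendsto (fun n => (A + 2 * K) * r n + 4 * K * |r n * Real.log (r n)|) atTop
      (𝓝 ((A + 2 * K) * 0 + 4 * K * |0 * Real.log 0|)) :=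
    (rlim.const_mul _).add
      (((Real.continuous_mul_log.tendsto 0).comp rlim).abs.const_mul _)
  have := ge_of_tendsto l2 (b := 2 * k) (by
    filter_upwards [hV, hA, small 1 1 one_pos, small 6 (c / (2 * C)) (by positivity),
      small K (c / 2) (by positivity), small (K + 1) (c * d) (by positivity)]
      with n h1 h2 s1 s2 s3 s4
    have h3 := t2b_drop (L := K * (r n ^ 2) ^ 2 * (1 + |Real.log (r n ^ 2)|)) h n hK (rpos n)
      (rsq n) (by linarith) s2 s3 s4 fun x hx => by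
        have := h1 x hx
        change _ ∧ _ ≤ _ * r n ∧ _ at this
        rwa [rsq] at this
    rw [hc0, zero_mul, sub_zero] at h2
    have h4 := (abs_le.1 h2).1
    rw [Real.log_pow, abs_mul, Nat.cast_ofNat, abs_two, ← hk] at h3
    rw [abs_mul, abs_of_pos (rpos n)]
    refine le_of_mul_le_mul_right ?_ (pow_pos (rpos n) 3)
    nlinarith)
  rw [mul_zero, zero_mul, abs_zero, mul_zero, add_zero] at this
  linarith

lemma t2b_sin {x : ℝ} (hx : |x| ≤ 1) : x ^ 4 / 8 ≤ x * sin x ^ 3 ∧ x * sin x ^ 3 ≤ x ^ 4 := by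
  have key : ∀ y : ℝ, 0 ≤ y → y ≤ 1 → y ^ 4 / 8 ≤ y * sin y ^ 3 ∧ y * sin y ^ 3 ≤ y ^ 4 := by
    intro y h0 h1
    have h2 := Real.mul_le_sin h0 (by linarith [Real.pi_gt_three])
    have h3 : 1 / 2 ≤ 2 / π := by
      rw [div_le_div_iff₀ two_pos Real.pi_pos]
      linarith [Real.pi_le_four]
    have h4 : y / 2 ≤ sin y := by nlinarith
    have h5 := Real.sin_le h0
    have h6 : (y / 2) ^ 3 ≤ sin y ^ 3 := pow_le_pow_left₀ (by linarith) h4 3
    have h7 : sin y ^ 3 ≤ y ^ 3 := pow_le_pow_left₀ (by linarith) h5 3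
    constructor <;> nlinarith
  rcases le_total 0 x with h | h
  · exact key x h (abs_le.1 hx).2
  · have := key (-x) (by linarith) (by linarith [(abs_le.1 hx).1])
    rw [sin_neg] at this
    constructor <;> nlinarith [this.1, this.2]

theorem tplCoreS (hTSeq : TSeqStmt) (hT2a : T2aStmt) (hTr : TrStmt) : TplCoreStmt := by
  intro K b0 b1 V U hK hb hT hO
  have hB : ∀ᶠ x in 𝓝 (0 : ℝ), Lin b0 b1 x ∈ Icc (2 * b0) (b0 / 2) :=
    (Lin.an b0 b1).continuous.continuousAt.eventually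
      (Icc_mem_nhds (by rw [Lin.zero]; linarith) (by rw [Lin.zero]; linarith))
  obtain ⟨ε, hε, hB⟩ := Metric.eventually_nhds_iff.1 hB
  obtain ⟨d, c, C, al, be, E, hdδ, hS⟩ := hTSeq _ _ V U (min 1 (ε / 2)) (min (-K / 8) (-b0 / 2))
    (max (-K) (-2 * b0)) (Cub.an 0 0 0 K).continuous hT.toTop0 (lt_min one_pos (half_pos hε))
    (lt_min (by linarith) (by linarith)) (fun x hx => by
      have h1 : |x| ≤ min 1 (ε / 2) := abs_le.2 hx
      have h2 := t2b_sin (h1.trans (min_le_left _ _))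
      have h3 := hB (y := x) (by
        rw [Real.dist_eq, sub_zero]
        linarith [h1.trans (min_le_right _ _)])
      have h4 : 0 ≤ x ^ 4 := by positivity
      have e : -x * Cub 0 0 0 K x = -K * (x * sin x ^ 3) := by unfold Cub; ring
      have m1 := min_le_left (-K / 8) (-b0 / 2)
      have m2 := min_le_right (-K / 8) (-b0 / 2)
      have m3 := le_max_left (-K) (-2 * b0)
      have m4 := le_max_right (-K) (-2 * b0)
      rw [e]
      refine ⟨?_, ?_, by linarith [h3.2], by linarith [h3.1]⟩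
      · nlinarith [h2.1]
      · nlinarith [h2.2]) hO.1.2
  have hd := hS.dpos
  have hc := hS.cpos
  have hd1 : d ≤ 1 := hdδ.trans (min_le_left _ _)
  have hpi := Real.pi_gt_three
  have v1 : V d ≠ 0 := fun e => by
    have := (hS.bdV d (right_mem_Icc.2 (by linarith))).1
    rw [e, mul_zero] at this
    exact absurd this (not_le.2 (by positivity))
  have v2 : V (-d + 2 * π) ≠ 0 := fun e => by
    have := (hS.bdV (-d) (left_mem_Icc.2 (by linarith))).1
    rw [hT.perV] at e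
    rw [e, mul_zero, neg_sq] at this
    exact absurd this (not_le.2 (by positivity))
  obtain ⟨-, Φ, h1, h2, h3, h4⟩ := hTr _ _ V U d (-d + 2 * π) (Cub.an 0 0 0 K) (Lin.an b0 b1)
    hT.toTop0 (by linarith)
    (fun x hx hA hV => hO.2 x ⟨by linarith [hx.1], by linarith [hx.2]⟩ ⟨hA, hV⟩) v1 v2
  refine t2bS d c C V al be E U hS (hT2a d c C V al be E U hS) Φ h1 h2 h3 ?_
  filter_upwards [h4] with n hn
  rwa [hT.perV, hT.perU n] at hn

end Pool.Agent.MP_c2f0e4_an
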