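import Pool.Agent.MP_c2f0e4_an.Iface

open Set Filter Topology Real Asymptotics

namespace Pool.Agent.MP_c2f0e4_an

lemma tr_pos {f : ℝ → ℝ} {f' : ℝ} (hf : HasDerivAt f f' 0) (h0 : f 0 = 0) (hne : f' ≠ 0)
    {s : ℕ → ℝ} (hs : Tendsto s atTop (𝓝 0)) (hp : ∀ n, 0 < s n)
    (hfp : ∀ᶠ n in atTop, 0 < f (s n)) : 0 < f' := by
  have h1 : Tendsto s atTop (𝓝[≠] 0) :=
    tendsto_nhdsWithin_iff.2 ⟨hs, Eventually.of_forall fun n => (hp n).ne'⟩
  have h2 := (hasDerivAt_iff_tendsto_slope.1 hf).comp h1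
  refine lt_of_le_of_ne (ge_of_tendsto h2 ?_) hne.symm
  filter_upwards [hfp] with n hn
  rw [Function.comp_apply, slope_def_field, h0, sub_zero, sub_zero]
  exact (div_pos hn (hp n)).le

lemma tr_two {f : ℝ → ℝ} (hf : AnalyticAt ℝ f 0) :
    ∃ G : ℝ → ℝ, AnalyticAt ℝ G 0 ∧ ∀ z, f z = f 0 + z * deriv f 0 + z ^ 2 * G z := by
  obtain ⟨G, hG, h⟩ := hf.exists_eq_sum_add_pow_mul 2
  refine ⟨G, hG, fun z => ?_⟩
  rw [h z]
  simp [Finset.sum_range_succ]

lemma tr_asy {f : ℝ → ℝ} (hf : AnalyticAt ℝ f 0) (h0 : f 0 = 0) (hd : 0 < deriv f 0)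
    {s t : ℕ → ℝ} (hs : Tendsto s atTop (𝓝 0)) (hp : ∀ n, 0 < s n)
    (ht : ∀ᶠ n in atTop, t n = f (s n)) :
    ∃ lam c : ℝ, 0 < lam ∧ AsyP (fun n => s n ^ (-(1 / 6) : ℝ)) (fun n => t n ^ (-(1 / 6) : ℝ))
      lam (fun i => if i = 5 then c else 0) 0 0 := by
  obtain ⟨G, hG, hfG⟩ := tr_two hf
  set g : ℝ → ℝ := fun z => deriv f 0 + z * G z with hg
  have hga : AnalyticAt ℝ g 0 := analyticAt_const.add (analyticAt_id.mul hG)
  have hg0 : 0 < g 0 := by simpa [hg] using hd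
  have hfg : ∀ z, f z = z * g z := fun z => by rw [hfG z, h0, hg]; ring
  set h : ℝ → ℝ := fun z => Real.exp (Real.log (g z) * (-(1 / 6))) with hh
  have hha : AnalyticAt ℝ h 0 := ((hga.log hg0).mul analyticAt_const).rexp
  have hh0 : 0 < h 0 := Real.exp_pos _
  obtain ⟨K, hK, hhK⟩ := tr_two hha
  refine ⟨h 0, deriv h 0 / h 0, hh0, ?_⟩
  set z : ℕ → ℝ := fun n => (s n ^ (-(1 / 6) : ℝ))⁻¹ with hz
  have hz' : ∀ n, z n = s n ^ (1 / 6 : ℝ) := fun n => by
    simp only [hz]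
    rw [Real.rpow_neg (hp n).le, inv_inv]
  have hz6 : ∀ n, z n ^ 6 = s n := fun n => by
    rw [hz', ← Real.rpow_natCast, ← Real.rpow_mul (hp n).le]; norm_num
  have hz0 : ∀ n, z n ≠ 0 := fun n => by
    rw [hz']; exact (Real.rpow_pos_of_pos (hp n) _).ne'
  have hzt : Tendsto z atTop (𝓝 0) := by
    have := hs.rpow_const (p := (1 / 6 : ℝ)) (Or.inr (by norm_num))
    rw [Real.zero_rpow (by norm_num)] at this
    exact this.congr fun n => (hz' n).symm
  have hb : (fun n => z n ^ 4 * K (s n)) =O[atTop] fun _ => (1 : ℝ) :=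
    ((hzt.pow 4).mul (hK.continuousAt.tendsto.comp hs)).isBigO_one ℝ
  have hb' := (isBigO_refl (fun n => z n ^ 7) atTop).mul hb
  simp only [mul_one] at hb'
  refine IsBigO.congr' hb' ?_ EventuallyEq.rfl
  have hgp : ∀ᶠ n in atTop, 0 < g (s n) :=
    (hga.continuousAt.tendsto.comp hs).eventually (lt_mem_nhds hg0)
  filter_upwards [ht, hgp] with n h1 h2
  have e1 : t n ^ (-(1 / 6) : ℝ) = (z n)⁻¹ * h (s n) := by
    rw [h1, hfg, Real.mul_rpow (hp n).le h2.le, Real.rpow_def_of_pos h2]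
    simp only [hz, hh, inv_inv]
  have e2 : s n ^ (-(1 / 6) : ℝ) = (z n)⁻¹ := by simp only [hz, inv_inv]
  have e3 : h (s n) = h 0 + z n ^ 6 * deriv h 0 + (z n ^ 6) ^ 2 * K (s n) := by
    rw [hz6]; exact hhK (s n)
  have e4 := hz0 n
  have e5 : ∑ i ∈ Finset.range 7, (if i = 5 then deriv h 0 / h 0 else 0) * z n ^ i =
      deriv h 0 / h 0 * z n ^ 5 := by
    simp
  show _ = t n ^ (-(1 / 6) : ℝ) - h 0 * (s n ^ (-(1 / 6) : ℝ) +
    ∑ i ∈ Finset.range 7, (if i = 5 then deriv h 0 / h 0 else 0) * z n ^ i + 0 * _ * _ + 0 * _ * _)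
  rw [e5, e1, e2, e3]
  field_simp
  ring

theorem trS (hTransit : TransitStmt) : TrStmt := by
  intro A B V U a b hA hB hT hab hg ha hb
  obtain ⟨R, hR, hRa, hR', η, hη, hRU⟩ := hTransit A B V hA hB hT.solV a b hab hg ha hb
  have hev : ∀ᶠ n in atTop, U n b = R (U n a) := by
    filter_upwards [Metric.tendstoUniformly_iff.1 hT.unif η hη] with n hn
    refine hRU _ (hT.solU n) fun x _ => ?_
    rw [abs_sub_comm]
    exact hn x
  have hRd := hR.differentiableAt.hasDerivAt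
  constructor
  · have hs : Tendsto (fun n => V a ^ 3 - U n a ^ 3) atTop (𝓝 0) := by
      have := ((hT.tendsto a).pow 3).const_sub (V a ^ 3)
      rwa [sub_self] at this
    have h3 : V a ^ 3 ≠ 0 := pow_ne_zero 3 ha
    have hi : AnalyticAt ℝ (fun s : ℝ => cb (V a ^ 3 - s)) 0 :=
      (cb_analyticAt h3).comp_of_eq (f := fun s : ℝ => V a ^ 3 - s) (by fun_prop) (by simp)
    have hi0 : cb (V a ^ 3 - 0) = V a := by rw [sub_zero, cb_cube]
    have hf : AnalyticAt ℝ (fun s => V b ^ 3 - R (cb (V a ^ 3 - s)) ^ 3) 0 :=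
      analyticAt_const.sub ((hR.comp_of_eq hi hi0).pow 3)
    have hf0 : V b ^ 3 - R (cb (V a ^ 3 - 0)) ^ 3 = 0 := by rw [hi0, hRa, sub_self]
    have hid : HasDerivAt (fun s : ℝ => cb (V a ^ 3 - s)) (1 / (3 * V a ^ 2) * -1) 0 := by
      have := (cb_hasDerivAt h3).comp_of_eq (0 : ℝ) ((hasDerivAt_id' (0 : ℝ)).const_sub (V a ^ 3))
        (by simp)
      rwa [cb_cube] at this
    have hfd := ((hRd.comp_of_eq (0 : ℝ) hid hi0.symm).fun_pow 3).const_sub (V b ^ 3)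
    have hev' : ∀ᶠ n in atTop, V b ^ 3 - U n b ^ 3 =
        V b ^ 3 - R (cb (V a ^ 3 - (V a ^ 3 - U n a ^ 3))) ^ 3 := by
      filter_upwards [hev] with n hn
      rw [sub_sub_cancel, cb_cube, hn]
    have hpos := tr_pos (f := fun s => V b ^ 3 - R (cb (V a ^ 3 - s)) ^ 3) hfd hf0 (by
      simp only [Function.comp_apply, hi0, hRa]
      exact neg_ne_zero.2 (mul_ne_zero (mul_ne_zero (by norm_num) (pow_ne_zero _ hb))
        (mul_ne_zero hR' (mul_ne_zero (by positivity) (by norm_num))))) hs (hT.cube_pos a)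
      (hev'.mono fun n hn => hn ▸ hT.cube_pos b n)
    exact tr_asy hf hf0 (hpos.trans_eq (HasDerivAt.deriv hfd).symm) hs (hT.cube_pos a) hev'
  · have hs : Tendsto (fun n => V a - U n a) atTop (𝓝 0) := by
      have := (hT.tendsto a).const_sub (V a)
      rwa [sub_self] at this
    have hf0 : V b - R (V a - 0) = 0 := by rw [sub_zero, hRa, sub_self]
    have hfd := (hRd.comp_of_eq (0 : ℝ) ((hasDerivAt_id' (0 : ℝ)).const_sub (V a))
      (by simp)).const_sub (V b)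
    have hev' : ∀ᶠ n in atTop, V b - U n b = V b - R (V a - (V a - U n a)) := by
      filter_upwards [hev] with n hn
      rw [sub_sub_cancel, hn]
    have hpos := tr_pos (f := fun s => V b - R (V a - s)) hfd hf0 (by simpa using hR') hs
      (fun n => sub_pos.2 (hT.lt n a)) (hev'.mono fun n hn => hn ▸ sub_pos.2 (hT.lt n b))
    exact ⟨fun s => V b - R (V a - s), analyticAt_const.sub
      (hR.comp_of_eq (f := fun s : ℝ => V a - s) (by fun_prop) (by simp)), hf0,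
      hpos.trans_eq (HasDerivAt.deriv hfd).symm, hev'⟩

end Pool.Agent.MP_c2f0e4_an
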