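import Pool.Agent.MP_c2f0e4_an.Iface

open Set Filter Topology Real Asymptotics

namespace Pool.Agent.MP_c2f0e4_an

/-- the transition map from `a` to `b` along `V` -/
def transitT (A B V : ℝ → ℝ) (a b : ℝ) : Prop :=
  ∃ R : ℝ → ℝ, AnalyticAt ℝ R (V a) ∧ R (V a) = V b ∧ deriv R (V a) ≠ 0 ∧
    ∃ η : ℝ, 0 < η ∧ ∀ U, Sol A B U → (∀ x ∈ Icc a b, |U x - V x| < η) → U b = R (U a)

variable {A B V : ℝ → ℝ}

lemma transit_trans {a x y : ℝ} (h1 : transitT A B V a x) (h2 : transitT A B V x y) (k1 : a ≤ x)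
    (k2 : x ≤ y) : transitT A B V a y := by
  obtain ⟨R, r1, r2, r3, η, r4, r5⟩ := h1
  obtain ⟨S, s1, s2, s3, ε, s4, s5⟩ := h2
  rw [← r2] at s1 s2 s3
  refine ⟨S ∘ R, s1.comp r1, s2, ?_, min η ε, lt_min r4 s4, fun U hU h => ?_⟩
  · rw [deriv_comp _ s1.differentiableAt r1.differentiableAt]
    exact mul_ne_zero s3 r3
  · rw [s5 U hU fun t ht => (h t ⟨k1.trans ht.1, ht.2⟩).trans_le (min_le_right _ _),
      r5 U hU fun t ht => (h t ⟨ht.1, ht.2.trans k2⟩).trans_le (min_le_left _ _)]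
    rfl

lemma transit_slice {H : ℝ × ℝ → ℝ} {x u : ℝ} (h : AnalyticAt ℝ H (x, u))
    (h' : fderiv ℝ H (x, u) (0, 1) ≠ 0) :
    AnalyticAt ℝ (fun v => H (x, v)) u ∧ deriv (fun v => H (x, v)) u ≠ 0 := by
  refine ⟨h.comp (f := fun v : ℝ => (x, v)) (by fun_prop), ?_⟩
  have h1 : HasDerivAt (fun v : ℝ => (x, v)) (0, 1) u :=
    (hasDerivAt_const u x).prodMk (hasDerivAt_id u)
  have h2 := h.differentiableAt.hasFDerivAt.comp_hasDerivAt u h1
  exact h2.deriv ▸ h'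

lemma transit_loc (hLoc : LocStmt) (hA : An A) (hB : An B) (hV : Sol A B V) {c : ℝ}
    (hc : A c = 0 → V c ≠ 0) : ∃ δ, 0 < δ ∧ ∀ x y, x ≤ y → c - δ < x → y < c + δ → V x ≠ 0 →
      V y ≠ 0 → transitT A B V x y := by
  obtain ⟨H, r, hr, h1, -, h3⟩ := hLoc A B hA hB c (V c) hc
  obtain ⟨δ, hδ, h4⟩ := Metric.continuousAt_iff.1 (hV.1.continuousAt (x := c)) (r / 2) (by linarith)
  refine ⟨min δ r, lt_min hδ hr, fun x y hxy hx hy vx vy => ?_⟩
  have h5 : ∀ t ∈ Icc x y, |t - c| < r ∧ |V t - V c| < r / 2 := fun t ht => by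
    have k : |t - c| < min δ r := abs_sub_lt_iff.2 ⟨by linarith [ht.2], by linarith [ht.1]⟩
    exact ⟨k.trans_le (min_le_right _ _), h4 (k.trans_le (min_le_left _ _))⟩
  have kx := h5 x (left_mem_Icc.2 hxy)
  have ky := h5 y (right_mem_Icc.2 hxy)
  obtain ⟨a1, a2⟩ := h1 x (V x) kx.1 (by linarith [kx.2])
  obtain ⟨b1, b2⟩ := h1 y (V y) ky.1 (by linarith [ky.2])
  obtain ⟨f1, f2⟩ := transit_slice a1 (a2 vx)
  obtain ⟨g1, g2⟩ := transit_slice b1 (b2 vy)
  have e : H (x, V x) = H (y, V y) :=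
    h3 V hV x y hxy fun t ht => ⟨(h5 t ht).1, by linarith [(h5 t ht).2]⟩
  have k1 := g1.analyticAt_localInverse g2
  have k2 := (g1.hasStrictDerivAt.to_localInverse g2).hasDerivAt.deriv
  have k3 := g1.hasStrictDerivAt.eventually_left_inverse g2
  generalize g1.hasStrictDerivAt.localInverse _ _ _ g2 = k at k1 k2 k3
  simp only [← e] at k1 k2
  obtain ⟨ε, hε, k4⟩ := Metric.eventually_nhds_iff.1 k3
  refine ⟨k ∘ fun v => H (x, v), AnalyticAt.comp (f := fun v => H (x, v)) k1 f1, ?_, ?_,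
    min ε (r / 2), lt_min hε (by linarith), fun U hU h => ?_⟩
  · simp only [Function.comp, e]
    exact k3.self_of_nhds
  · rw [deriv_comp (h := fun v => H (x, v)) (V x) k1.differentiableAt f1.differentiableAt, k2]
    exact mul_ne_zero (inv_ne_zero g2) f2
  · have := h3 U hU x y hxy fun t ht => ⟨(h5 t ht).1, by
      have := abs_sub_le (U t) (V t) (V c)
      linarith [(h5 t ht).2, (h t ht).trans_le (min_le_right _ _)]⟩
    simp only [Function.comp, this]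
    exact (k4 ((h y (right_mem_Icc.2 hxy)).trans_le (min_le_left _ _))).symm

lemma transit_ne (hV : Sol A B V) {c : ℝ} (hc : A c = 0 → V c ≠ 0) : ∀ᶠ x in 𝓝[<] c, V x ≠ 0 := by
  by_cases h : V c = 0
  · have h1 := (hV.2 c).eventually_ne (c := 0) (by
      rw [h]
      simpa using fun k => hc k h)
    filter_upwards [nhdsLT_le_nhdsNE c h1] with x hx k
    exact hx (by simp [k])
  · exact nhdsWithin_le_nhds (hV.1.continuousAt.eventually_ne h)

theorem transitS (hLoc : LocStmt) : TransitStmt := by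
  intro A B V hA hB hV a b hab hG va vb
  let S : Set ℝ := {c | c ∈ Icc a b ∧ ∀ y ∈ Icc a c, V y ≠ 0 → transitT A B V a y}
  have h0 : a ∈ S := ⟨left_mem_Icc.2 hab, fun y hy _ => by
    obtain rfl : y = a := le_antisymm hy.2 hy.1
    exact ⟨id, analyticAt_id, rfl, by simp, 1, one_pos, fun _ _ _ => rfl⟩⟩
  have hb : BddAbove S := ⟨b, fun c hc => hc.1.2⟩
  have s1 : a ≤ sSup S := le_csSup hb h0
  have s2 : sSup S ≤ b := csSup_le ⟨a, h0⟩ fun c hc => hc.1.2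
  have s3 : ∀ y, a ≤ y → y < sSup S → V y ≠ 0 → transitT A B V a y := fun y k1 k2 k3 => by
    obtain ⟨c, hc, k⟩ := exists_lt_of_lt_csSup ⟨a, h0⟩ k2
    exact hc.2 y ⟨k1, k.le⟩ k3
  obtain ⟨δ, hδ, hl⟩ := transit_loc hLoc hA hB hV (hG _ ⟨s1, s2⟩)
  have s4 : ∀ y, a ≤ y → y < sSup S + δ → V y ≠ 0 → transitT A B V a y := fun y k1 k2 k3 => by
    rcases lt_or_ge y (sSup S) with k | k
    · exact s3 y k1 k k3
    rcases s1.eq_or_lt with e | e
    · exact hl a y k1 (by linarith) k2 va k3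
    obtain ⟨x, x1, x2⟩ := ((transit_ne hV (hG _ ⟨s1, s2⟩)).and
      (Ioo_mem_nhdsLT (max_lt e (sub_lt_self _ hδ)))).exists
    have x3 := max_lt_iff.1 x2.1
    exact transit_trans (s3 x x3.1.le x2.2 x1) (hl x y (x2.2.le.trans k) x3.2 k2 x1 k3) x3.1.le
      (x2.2.le.trans k)
  have s5 : min b (sSup S + δ / 2) ∈ S := ⟨⟨le_min hab (by linarith), min_le_left _ _⟩,
    fun y hy => s4 y hy.1 (by linarith [hy.2.trans (min_le_right _ _)])⟩
  have s6 := min_le_iff.1 (le_csSup hb s5)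
  exact s4 b hab (by rcases s6 with k | k <;> linarith) vb

end Pool.Agent.MP_c2f0e4_an
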