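import Pool.Agent.MP_c2f0e4_an.Iface

open Set Filter Topology Real Asymptotics

namespace Pool.Agent.MP_c2f0e4_an

lemma trig_coef {g : ℝ → ℝ} (k j : ℕ) (hg : ContinuousAt g 0)
    (h : (fun t => t ^ k * g t) =o[𝓝 0] fun t : ℝ => t ^ (k + j)) : g 0 = 0 := by
  have h1 : (fun t : ℝ => t ^ (k + j)) =O[𝓝 0] fun t : ℝ => t ^ k :=
    ((isBigO_refl (fun t : ℝ => t ^ k) _).mul
      (((continuous_pow j).tendsto (0 : ℝ)).isBigO_one ℝ)).congr (fun t => (pow_add _ _ _).symm)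
      fun t => mul_one _
  have h2 := ((h.trans_isBigO h1).tendsto_div_nhds_zero).mono_left
    (nhdsWithin_le_nhds (s := {0}ᶜ))
  refine tendsto_nhds_unique (hg.tendsto.mono_left (nhdsWithin_le_nhds (s := {0}ᶜ)))
    (h2.congr' ?_)
  filter_upwards [self_mem_nhdsWithin] with t ht
  exact mul_div_cancel_left₀ _ (pow_ne_zero k ht)

lemma trig_cos (t : ℝ) : cos (2 * arctan t) = (1 - t ^ 2) / (1 + t ^ 2) := by
  rw [cos_two_mul, cos_sq_arctan]
  field_simp
  ring

lemma trig_sin (t : ℝ) : sin (2 * arctan t) = 2 * t / (1 + t ^ 2) := by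
  rw [sin_two_mul, ← tan_mul_cos (cos_arctan_pos t).ne', tan_arctan, mul_assoc, mul_assoc, ← sq,
    cos_sq_arctan]
  ring

lemma trig_poly {p0 p1 p2 p3 p4 : ℝ}
    (h : (fun t : ℝ => t ^ 2 * (p0 + t * (p1 + t * (p2 + t * (p3 + t * p4))))) =o[𝓝 0]
      fun t : ℝ => t ^ 4) : p0 = 0 ∧ p1 = 0 ∧ p2 = 0 := by
  have h0 : p0 = 0 := by simpa using trig_coef 2 2 (by fun_prop) h
  have h1 : p1 = 0 := by
    simpa using trig_coef (g := fun t => p1 + t * (p2 + t * (p3 + t * p4))) 3 1 (by fun_prop)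
      (h.congr_left fun t => by rw [h0]; ring)
  have h2 : p2 = 0 := by
    simpa using trig_coef (g := fun t => p2 + t * (p3 + t * p4)) 4 0 (by fun_prop)
      (h.congr_left fun t => by rw [h0, h1]; ring)
  exact ⟨h0, h1, h2⟩

theorem trigS : TrigStmt := by
  intro a a' b0 b1 m0 V m mt ha hV hV0 _ hA hB hmt hm hm0
  have hVd : HasDerivAt V (deriv V 0) 0 := hV.differentiableAt.hasDerivAt
  have hmV : AnalyticAt ℝ (fun x => mt (V x)) 0 := AnalyticAt.comp (f := V) (by rwa [hV0]) hV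
  by_cases h0 : m0 = 0
  · have hg : AnalyticAt ℝ (fun x => V x * mt (V x) * deriv V x) 0 := (hV.mul hmV).mul hV.deriv
    have hB' : Lin b0 b1 =ᶠ[𝓝 0] fun x => V x * (V x * mt (V x) * deriv V x) := by
      filter_upwards [hB] with x hx
      rw [hx, hm, h0]
      ring
    have e0 : b0 = 0 := by simpa [Lin.zero, hV0] using hB'.self_of_nhds
    have h1 := (Lin.hasDerivAt b0 b1 0).unique
      ((hVd.mul hg.differentiableAt.hasDerivAt).congr_of_eventuallyEq hB')
    exact Or.inl ⟨e0, by simpa [Lin.zero, hV0] using h1⟩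
  right
  have hO : V =O[𝓝 0] fun x : ℝ => x := by simpa [hV0] using hVd.isBigO_sub
  set V0 : ℝ → ℝ := fun x => (b0 * sin x + b1 * (1 - cos x)) / m0 with hV0def
  have hV0d : ∀ x, HasDerivAt V0 (Lin b0 b1 x / m0) x := fun x =>
    ((((hasDerivAt_sin x).const_mul b0).add
      (((hasDerivAt_cos x).const_sub 1).const_mul b1)).div_const m0).congr_deriv (by simp [Lin])
  have hV00 : V0 0 = 0 := by simp [hV0def]
  have hO0 : V0 =O[𝓝 0] fun x : ℝ => x := by simpa [hV00] using (hV0d 0).isBigO_sub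
  have hD : (fun x => deriv V x - Lin b0 b1 x / m0) =o[𝓝 0] fun x : ℝ => x ^ 2 := by
    have h1 : Tendsto (fun x => -(mt (V x) * deriv V x) / m0) (𝓝 0) (𝓝 0) := by
      have := ((hmV.mul hV.deriv).continuousAt.neg.div_const m0).tendsto
      simpa [hV0, hm0 h0] using this
    refine ((hO.pow 2).mul_isLittleO ((isLittleO_one_iff ℝ).2 h1)).congr' ?_
      (Eventually.of_forall fun x => mul_one _)
    filter_upwards [hB] with x hx
    rw [hx, hm]
    field_simp
    ring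
  have hW : (fun x => V x - V0 x) =o[𝓝 0] fun x : ℝ => x ^ 3 := by
    obtain ⟨r, hr, hb⟩ := Metric.eventually_nhds_iff_ball.1 hV.eventually_analyticAt
    have h1 := (convex_ball (0 : ℝ) r).isLittleO_pow_succ_real (n := 2)
      (f := fun x => V x - V0 x) (f' := fun x => deriv V x - Lin b0 b1 x / m0)
      (Metric.mem_ball_self hr)
      (fun x hx => ((hb x hx).differentiableAt.hasDerivAt.sub (hV0d x)).hasDerivWithinAt)
      (by simpa using hD.mono nhdsWithin_le_nhds)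
    rw [nhdsWithin_eq_nhds.2 (Metric.ball_mem_nhds _ hr)] at h1
    simpa [hV0, hV00] using h1
  have hF : (fun x => Cub 0 0 a a' x + (1 + 1 / m0) * V0 x ^ 2 * Lin b0 b1 x) =o[𝓝 0]
      fun x : ℝ => x ^ 4 := by
    have h1 : (fun x => V x ^ 2 * (deriv V x - Lin b0 b1 x / m0)) =o[𝓝 0] fun x : ℝ => x ^ 4 :=
      ((hO.pow 2).mul_isLittleO hD).congr_right fun x => by ring
    have h2 : (fun x => Lin b0 b1 x * (V x + V0 x) * (V x - V0 x)) =o[𝓝 0] fun x : ℝ => x ^ 4 :=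
      ((((Lin.hasDerivAt b0 b1 0).continuousAt.tendsto.isBigO_one ℝ).mul
        (hO.add hO0)).mul_isLittleO hW).congr_right fun x => by ring
    refine (h1.neg_left.sub (h2.const_mul_left (1 + 1 / m0))).congr' ?_ EventuallyEq.rfl
    filter_upwards [hA] with x hx
    rw [hx]
    ring
  have hat : HasDerivAt (fun t : ℝ => 2 * arctan t) (2 * (1 / (1 + 0 ^ 2))) 0 :=
    (hasDerivAt_arctan 0).const_mul 2
  have ht : Tendsto (fun t : ℝ => 2 * arctan t) (𝓝 0) (𝓝 0) := by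
    simpa using hat.continuousAt.tendsto
  have hO2 : (fun t : ℝ => 2 * arctan t) =O[𝓝 0] fun t : ℝ => t := by simpa using hat.isBigO_sub
  have hc : ContinuousAt (fun t : ℝ => (1 + t ^ 2) ^ 3 / 4) 0 := by fun_prop
  have hG := (hc.tendsto.isBigO_one ℝ).mul_isLittleO
    ((hF.comp_tendsto ht).trans_isBigO (hO2.pow 4))
  set c := (1 + 1 / m0) / m0 ^ 2 with hcdef
  obtain ⟨e0, e1, e2⟩ := trig_poly (p0 := a + c * b0 ^ 3) (p1 := 2 * a' + 4 * c * b0 ^ 2 * b1)
    (p2 := -a + c * (5 * b0 * b1 ^ 2 - b0 ^ 3)) (p3 := c * (2 * b1 ^ 3 - 2 * b0 ^ 2 * b1))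
    (p4 := -(c * b0 * b1 ^ 2)) (hG.congr (fun t => by
      have : 1 + t ^ 2 ≠ 0 := by positivity
      simp only [Function.comp, Cub, Lin, hV0def, trig_cos, trig_sin, hcdef]
      field_simp
      ring) fun t => one_mul _)
  have h1 : c * b0 ≠ 0 := fun h => ha (by linear_combination e0 - b0 ^ 2 * h)
  have h2 : b1 = 0 := by
    have : c * b0 * b1 ^ 2 = 0 := by linear_combination (e0 + e2) / 5
    exact pow_eq_zero_iff two_ne_zero |>.1 ((mul_eq_zero.1 this).resolve_left h1)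
  exact ⟨h2, by rw [h2] at e1; linarith⟩

end Pool.Agent.MP_c2f0e4_an
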