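import Pool.Agent.MP_c2f0e4_an.Iface

open Set Filter Topology Real Asymptotics

namespace Pool.Agent.MP_c2f0e4_an

lemma uniq_loc (hLoc : LocStmt) {A B U V : ℝ → ℝ} (hA : An A) (hB : An B) (hU : Sol A B U)
    (hV : Sol A B V) {c : ℝ} (hc : A c = 0 → V c ≠ 0) (h : U c = V c) :
    ∀ᶠ x in 𝓝 c, U x = V x := by
  obtain ⟨H, r, hr, -, hi, hH⟩ := hLoc A B hA hB c (V c) hc
  have e : ∀ W : ℝ → ℝ, Continuous W → W c = V c → ∀ᶠ x in 𝓝 c, |W x - V c| < r := by
    intro W hW h0
    refine ContinuousAt.eventually_lt (by fun_prop) continuousAt_const ?_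
    simpa [h0] using hr
  have e0 : ∀ᶠ x in 𝓝 c, |x - c| < r :=
    ContinuousAt.eventually_lt (by fun_prop) continuousAt_const (by simpa using hr)
  obtain ⟨⟨l, u⟩, hlu, hs⟩ := (nhds_basis_Ioo c).eventually_iff.1
    (e0.and ((e U hU.1 h).and (e V hV.1 rfl)))
  filter_upwards [Ioo_mem_nhds hlu.1 hlu.2] with x hx
  have k : ∀ W, Sol A B W → (∀ y ∈ Ioo l u, |W y - V c| < r) → H (x, W x) = H (c, W c) := by
    intro W hW hw
    rcases le_total x c with h1 | h1
    · exact hH W hW x c h1 fun y hy =>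
        ⟨(hs (Icc_subset_Ioo hx.1 hlu.2 hy)).1, hw y (Icc_subset_Ioo hx.1 hlu.2 hy)⟩
    · exact (hH W hW c x h1 fun y hy =>
        ⟨(hs (Icc_subset_Ioo hlu.1 hx.2 hy)).1, hw y (Icc_subset_Ioo hlu.1 hx.2 hy)⟩).symm
  obtain ⟨h1, h2, h3⟩ := hs hx
  rw [abs_lt] at h2 h3
  refine hi x h1 ⟨by linarith [h2.1], by linarith [h2.2]⟩ ⟨by linarith [h3.1], by linarith [h3.2]⟩ ?_
  simp only
  rw [k U hU fun y hy => (hs hy).2.1, k V hV fun y hy => (hs hy).2.2, h]

theorem uniqS (hLoc : LocStmt) : UniqStmt := by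
  intro A B U V hA hB hU hV a b x0 hx0 hg h0 x hx
  have h1 : closure {y | ∀ᶠ z in 𝓝 y, U z = V z} ⊆ {y | U y = V y} :=
    closure_minimal (fun y hy => hy.self_of_nhds) (isClosed_eq hU.1 hV.1)
  exact ((isPreconnected_Icc (a := a) (b := b)).subset_of_closure_inter_subset
    (isOpen_setOfPred_eventually_nhds (p := fun z => U z = V z))
    ⟨x0, hx0, uniq_loc hLoc hA hB hU hV (hg x0 hx0) h0⟩
    (fun y hy => uniq_loc hLoc hA hB hU hV (hg y hy.2) (h1 hy.1)) hx).self_of_nhds

lemma uniq_cover (a x : ℝ) {T : ℝ} (hT : 0 < T) : ∃ k : ℤ, x ∈ Icc (a + k * T) (a + k * T + T) := by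
  refine ⟨⌊(x - a) / T⌋, ?_, ?_⟩
  · linarith [(le_div_iff₀ hT).1 (Int.floor_le ((x - a) / T))]
  · linarith [(div_lt_iff₀ hT).1 (Int.lt_floor_add_one ((x - a) / T))]

theorem extS (hUniq : UniqStmt) : ExtStmt := by
  intro A B U hs hU a hg h0
  have hT : 0 < 2 * π := two_pi_pos
  have fw : ∀ c, GoodOn A U (Icc c (c + 2 * π)) ∧ U (c + 2 * π) = U c →
      ∀ x ∈ Icc c (c + 2 * π), U (x + 2 * π) = U x := fun c hc =>
    hUniq A B _ U hs.anA hs.anB (hU.shift_two_pi hs) hU _ _ c (left_mem_Icc.2 (by linarith))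
      hc.1 hc.2
  have hW : Sol A B fun x => U (x - 2 * π) := by
    simpa only [← sub_eq_add_neg, hs.perA.sub_eq, hs.perB.sub_eq] using hU.shift (-(2 * π))
  have bw : ∀ c, GoodOn A U (Icc c (c + 2 * π)) ∧ U (c + 2 * π) = U c →
      ∀ x ∈ Icc c (c + 2 * π), U (x - 2 * π) = U x := fun c hc =>
    hUniq A B _ U hs.anA hs.anB hW hU _ _ (c + 2 * π) (right_mem_Icc.2 (by linarith))
      hc.1 (by rw [add_sub_cancel_right, hc.2])
  have key : ∀ k : ℤ, GoodOn A U (Icc (a + k * (2 * π)) (a + k * (2 * π) + 2 * π)) ∧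
      U (a + k * (2 * π) + 2 * π) = U (a + k * (2 * π)) := by
    intro k
    induction k using Int.induction_on with
    | zero => simpa using ⟨hg, h0⟩
    | succ n ih =>
      rw [Int.cast_add, Int.cast_one, add_mul, one_mul, ← add_assoc]
      generalize a + ((n : ℤ) : ℝ) * (2 * π) = c at ih
      refine ⟨fun x hx hA => ?_, fw c ih _ (right_mem_Icc.2 (by linarith))⟩
      have hy : x - 2 * π ∈ Icc c (c + 2 * π) := ⟨by linarith [hx.1], by linarith [hx.2]⟩
      have := fw c ih _ hy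
      rw [sub_add_cancel] at this
      rw [this]
      exact ih.1 _ hy (by rw [hs.perA.sub_eq, hA])
    | pred n ih =>
      rw [Int.cast_sub, Int.cast_one, sub_mul, one_mul, ← add_sub_assoc, sub_add_cancel]
      generalize a + ((-n : ℤ) : ℝ) * (2 * π) = c at ih
      refine ⟨fun x hx hA => ?_, (bw c ih _ (left_mem_Icc.2 (by linarith))).symm⟩
      have hy : x + 2 * π ∈ Icc c (c + 2 * π) := ⟨by linarith [hx.1], by linarith [hx.2]⟩
      have := bw c ih _ hy
      rw [add_sub_cancel_right] at this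
      rw [this]
      exact ih.1 _ hy (by rw [hs.perA, hA])
  refine ⟨hU, fun x _ => ?_, fun x => ?_⟩
  · obtain ⟨k, hk⟩ := uniq_cover a x hT
    exact (key k).1 x hk
  · obtain ⟨k, hk⟩ := uniq_cover a x hT
    exact fw _ (key k) x hk

lemma uniq_rev {A B : ℝ → ℝ} (hs : Sys A B) {c : ℝ} (h : Rev A B c) (k : ℤ) :
    Rev A B (c + k * π) := by
  induction k using Int.induction_on with
  | zero => simpa using h
  | succ n ih =>
    rw [Int.cast_add, Int.cast_one, add_mul, one_mul, ← add_assoc]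
    intro x
    rw [add_sub_right_comm, add_right_comm _ π x, hs.antiA, hs.antiA, hs.antiB, hs.antiB,
      (ih x).1, (ih x).2]
    exact ⟨rfl, rfl⟩
  | pred n ih =>
    rw [Int.cast_sub, Int.cast_one, sub_mul, one_mul, ← add_sub_assoc]
    generalize c + ((-n : ℤ) : ℝ) * π = d at ih
    intro x
    have := ih x
    rw [show d - x = d - π - x + π by ring, show d + x = d - π + x + π by ring, hs.antiA,
      hs.antiA, hs.antiB, hs.antiB] at this
    exact ⟨neg_injective this.1, neg_injective this.2⟩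

theorem perS (hUniq : UniqStmt) (hExt : ExtStmt) : PerStmt := by
  intro A B U hs hc hU a hg
  have hπ := pi_pos
  rcases hc with hB | ⟨c, hc⟩
  · refine hExt A B U hs hU a (fun x hx => hg x ⟨hx.1, by linarith [hx.2]⟩) (cube_inj ?_)
    have h1 : ∀ x, HasDerivAt (fun y => U (y + π) ^ 3 + U y ^ 3) 0 x := fun x =>
      (((hU.shift π).2 x).fun_add (hU.2 x)).congr_deriv (by simp only [hs.antiA, hB]; ring)
    have h2 := is_const_of_deriv_eq_zero (fun x => (h1 x).differentiableAt)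
      (fun x => (h1 x).deriv) (a + π) a
    rw [add_assoc, ← two_mul] at h2
    linarith
  · obtain ⟨k, hk⟩ := uniq_cover c (a + 2 * π) hπ
    have hr := uniq_rev hs hc k
    generalize c + k * π = d at hk hr
    have hW : Sol A B fun x => U (2 * d - x) := by
      have e : ∀ x, -A (2 * d - x) = A x ∧ -B (2 * d - x) = B x := fun x => by
        have := hr (x - d)
        rw [show d - (x - d) = 2 * d - x by ring, add_sub_cancel] at this
        exact ⟨by rw [this.1, neg_neg], by rw [this.2, neg_neg]⟩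
      simpa only [(e _).1, (e _).2] using hU.refl (2 * d)
    have hg' : GoodOn A U (Icc (d - π) (d - π + 2 * π)) := fun x hx =>
      hg x ⟨by linarith [hx.1, hk.2], by linarith [hx.2, hk.1]⟩
    refine hExt A B U hs hU (d - π) hg' ?_
    have := hUniq A B _ U hs.anA hs.anB hW hU _ _ d ⟨by linarith, by linarith⟩ hg'
      (by rw [two_mul, add_sub_cancel_right]) (d - π) (left_mem_Icc.2 (by linarith))
    rwa [show 2 * d - (d - π) = d - π + 2 * π by ring] at this

theorem mulS (hUniq : UniqStmt) (hExt : ExtStmt) : MulStmt := by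
  intro A B U hs hU hg m hm hp
  by_cases h : ∃ x, U (x + 2 * π) = U x
  · obtain ⟨x, hx⟩ := h
    exact hExt A B U hs hU x (fun y _ => hg y (mem_univ _)) hx
  exfalso
  have hc : Continuous fun x => U (x + 2 * π) - U x := (hU.shift_two_pi hs).1.sub hU.1
  have h1 : ∀ x y, U (x + 2 * π) - U x ≤ 0 → 0 ≤ U (y + 2 * π) - U y → False := fun x y hx hy => by
    obtain ⟨z, hz⟩ := intermediate_value_univ x y hc ⟨hx, hy⟩
    exact h ⟨z, sub_eq_zero.1 hz⟩
  have h2 : U ((m : ℕ) * (2 * π)) = U (((0 : ℕ) : ℝ) * (2 * π)) := by simpa using hp 0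
  have e : ∀ n : ℕ, ((n + 1 : ℕ) : ℝ) * (2 * π) = n * (2 * π) + 2 * π := fun n => by
    push_cast; ring
  rcases le_total (U (0 + 2 * π) - U 0) 0 with h0 | h0
  · refine (strictAnti_nat_of_succ_lt (f := fun n : ℕ => U (n * (2 * π))) (fun n => ?_) hm).ne h2
    rw [e]
    exact sub_neg.1 (not_le.1 (h1 0 _ h0))
  · refine (strictMono_nat_of_lt_succ (f := fun n : ℕ => U (n * (2 * π))) (fun n => ?_) hm).ne' h2
    rw [e]
    exact sub_pos.1 (not_le.1 fun h3 => h1 _ 0 h3 h0)

end Pool.Agent.MP_c2f0e4_an
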