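import Pool.Agent.MP_c2f0e4_an.Sup
import Pool.Agent.MP_c2f0e4_an.FP
import Pool.Agent.MP_c2f0e4_an.AF
import Pool.Agent.MP_c2f0e4_an.BB
import Pool.Agent.MP_c2f0e4_an.Loc
import Pool.Agent.MP_c2f0e4_an.Uniq
import Pool.Agent.MP_c2f0e4_an.Lim
import Pool.Agent.MP_c2f0e4_an.Exist
import Pool.Agent.MP_c2f0e4_an.Transit
import Pool.Agent.MP_c2f0e4_an.Max
import Pool.Agent.MP_c2f0e4_an.PoleF
import Pool.Agent.MP_c2f0e4_an.SphCore
import Pool.Agent.MP_c2f0e4_an.Ratio
import Pool.Agent.MP_c2f0e4_an.Sph
import Pool.Agent.MP_c2f0e4_an.Centre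
import Pool.Agent.MP_c2f0e4_an.Glob
import Pool.Agent.MP_c2f0e4_an.AsyComp
import Pool.Agent.MP_c2f0e4_an.AsyId
import Pool.Agent.MP_c2f0e4_an.PDat
import Pool.Agent.MP_c2f0e4_an.PEst
import Pool.Agent.MP_c2f0e4_an.PBd
import Pool.Agent.MP_c2f0e4_an.PInv
import Pool.Agent.MP_c2f0e4_an.Chi
import Pool.Agent.MP_c2f0e4_an.ChiInt
import Pool.Agent.MP_c2f0e4_an.Boot
import Pool.Agent.MP_c2f0e4_an.CuspXD
import Pool.Agent.MP_c2f0e4_an.CuspODE
import Pool.Agent.MP_c2f0e4_an.Jet
import Pool.Agent.MP_c2f0e4_an.Cusp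
import Pool.Agent.MP_c2f0e4_an.Tr
import Pool.Agent.MP_c2f0e4_an.C123
import Pool.Agent.MP_c2f0e4_an.D1
import Pool.Agent.MP_c2f0e4_an.Kappa
import Pool.Agent.MP_c2f0e4_an.ModelF
import Pool.Agent.MP_c2f0e4_an.LLder
import Pool.Agent.MP_c2f0e4_an.LLbd
import Pool.Agent.MP_c2f0e4_an.CoreF
import Pool.Agent.MP_c2f0e4_an.J1
import Pool.Agent.MP_c2f0e4_an.J2a
import Pool.Agent.MP_c2f0e4_an.J2b
import Pool.Agent.MP_c2f0e4_an.J2c
import Pool.Agent.MP_c2f0e4_an.Trig
import Pool.Agent.MP_c2f0e4_an.DblCore
import Pool.Agent.MP_c2f0e4_an.T1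
import Pool.Agent.MP_c2f0e4_an.T2a
import Pool.Agent.MP_c2f0e4_an.T2b
import Pool.Agent.MP_c2f0e4_an.Class
import Pool.Agent.MP_c2f0e4_an.Red
import Pool.Agent.MP_c2f0e4_an.Fin
import Pool.Agent.MP_c2f0e4_an.Mono
import Pool.Agent.MP_c2f0e4_an.Non
import Pool.Agent.MP_c2f0e4_an.Main

namespace Pool.Agent.MP_c2f0e4_an

theorem allSup : SupStmt := supS
theorem allFP : FPStmt := fpS allSup
theorem allAF : AFStmt := afS allFP
theorem allBB : BBStmt := bbS allFP
theorem allLoc : LocStmt := locS allAF
theorem allUniq : UniqStmt := uniqS allLoc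
theorem allExt : ExtStmt := extS allUniq
theorem allPer : PerStmt := perS allUniq allExt
theorem allMul : MulStmt := mulS allUniq allExt
theorem allBound : BoundStmt := boundS
theorem allLim : LimStmt := limS
theorem allDep : DepStmt := depS allUniq
theorem allExist : ExistStmt := existS
theorem allTransit : TransitStmt := transitS allLoc
theorem allMax : MaxStmt := maxS allUniq allBound allLim allExist allDep allTransit allExt
theorem allPole : PoleStmt := poleS
theorem allSphCore : SphCoreStmt := sphCoreS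
theorem allRatio : RatioStmt := ratioS
theorem allSph : SphStmt := sphS allSphCore allRatio allMul
theorem allCentre : CentreStmt := centreS allExist allPer
theorem allGlob : GlobStmt := globS allSphCore allRatio allPer
theorem allAsyComp : AsyCompStmt := asyCompS
theorem allAsyId : AsyIdStmt := asyIdS
theorem allAsyBTr : AsyBTrStmt := asyBTrS
theorem allAsyScale : AsyScaleStmt := asyScaleS
theorem allPData : PDataStmt := pDataS
theorem allPEst : PEstStmt := pEstS
theorem allPBd : PBdStmt := pBdS
theorem allPInv : PInvStmt := pInvS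
theorem allChi : ChiStmt := chiS
theorem allChiInt : ChiIntStmt := chiIntS allChi
theorem allBoot : BootStmt := bootS
theorem allSign : SignStmt := signS
theorem allCuspW : CuspWStmt := cuspWS allBB
theorem allCuspXD : CuspXDStmt := cuspXDS allCuspW allBB
theorem allCuspODE : CuspODEStmt := cuspODES
theorem allJet : JetStmt := jetS
theorem allTr : TrStmt := trS allTransit
theorem allD1 : D1Stmt := d1S
theorem allKappa : KappaStmt := kappaS allBB
theorem allModel : ModelStmt := modelS
theorem allBar : BarStmt := barS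
theorem allLLder : LLderStmt := llderS
theorem allPi2 : Pi2Stmt := pi2S
theorem allLLbd : LLbdStmt := llbdS
theorem allCore : CoreStmt := coreS allLLder allLLbd
theorem allJ1 : J1Stmt := j1S allLLder
theorem allJ2a : J2aStmt := j2aS allLLder allPi2
theorem allJ2b : J2bStmt := j2bS allLLder
theorem allJ2c : J2cStmt := j2cS allLLder allPi2 allBB
theorem allTrig : TrigStmt := trigS
theorem allDblCore : DblCoreStmt := dblCoreS allD1 allKappa allModel allBar allCore allJ1 allJ2a allJ2b allJ2c allTrig allTr
theorem allT1 : T1Stmt := t1S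
theorem allTSeq : TSeqStmt := tSeqS
theorem allT2a : T2aStmt := t2aS
theorem allT2b : T2bStmt := t2bS
theorem allTplCore : TplCoreStmt := tplCoreS allTSeq allT2a allTr
theorem allClass : ClassStmt := classS
theorem allGam : GamStmt := gamS
theorem allDelta : DeltaStmt := deltaS
theorem allRed : RedStmt := redS allSign allClass
theorem allTplFin : TplFinStmt := tplFinS allTplCore
theorem allMono2 : Mono2Stmt := mono2S allGam
theorem allMono3 : Mono3Stmt := mono3S allGam
theorem allNon2 : Non2Stmt := non2S allGam allDelta allSign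
theorem allNon3 : Non3Stmt := non3S allGam allDelta allSign
theorem allPass : PassStmt := passS allPData allPEst allPInv
theorem allCusp : CuspStmt := cuspS allCuspXD allCuspODE allJet allPass allChi allChiInt allAsyScale
theorem allC1 : C1Stmt := c1S allCusp allTr allAsyComp allAsyId allAsyBTr
theorem allC2 : C2Stmt := c2S allCusp allTr allAsyComp allAsyId
theorem allC3 : C3Stmt := c3S allCusp allTr allAsyComp allAsyId
theorem allSingle : SingleStmt := singleS allC1
theorem allDblFin : DblFinStmt := dblFinS allSign allSingle allDblCore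
theorem allMain : MainStmt :=
  mainS allMax allPole allRed allSingle allDblFin allTplFin allC2 allC3 allMono2 allMono3 allNon2
    allNon3

end Pool.Agent.MP_c2f0e4_an
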