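import Pool.Agent.MP_c2f0e4_an.Defs

open Set Filter Topology Real

namespace Pool.Agent.MP_c2f0e4_an

/-! ### real cube root -/

noncomputable def cb (x : ℝ) : ℝ := if 0 ≤ x then x ^ (1 / 3 : ℝ) else -(-x) ^ (1 / 3 : ℝ)

lemma cb_pow (x : ℝ) : cb x ^ 3 = x := by
  have h : ∀ y : ℝ, 0 ≤ y → (y ^ (1 / 3 : ℝ)) ^ 3 = y := fun y hy => by
    rw [← Real.rpow_natCast, ← Real.rpow_mul hy]; norm_num
  unfold cb
  split_ifs with hx
  · exact h x hx
  · have := h (-x) (by linarith)
    rw [Odd.neg_pow (by decide), this]; ring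

lemma cube_strictMono : StrictMono fun x : ℝ => x ^ 3 := Odd.strictMono_pow (by decide)

lemma cube_inj {x y : ℝ} (h : x ^ 3 = y ^ 3) : x = y := cube_strictMono.injective h

lemma cube_lt {x y : ℝ} : x ^ 3 < y ^ 3 ↔ x < y := cube_strictMono.lt_iff_lt

lemma cube_le {x y : ℝ} : x ^ 3 ≤ y ^ 3 ↔ x ≤ y := cube_strictMono.le_iff_le

lemma cb_cube (x : ℝ) : cb (x ^ 3) = x := cube_inj (cb_pow _)

lemma cb_eq_iff {x y : ℝ} : cb x = y ↔ x = y ^ 3 :=
  ⟨fun h => by rw [← h, cb_pow], fun h => by rw [h, cb_cube]⟩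

lemma cb_strictMono : StrictMono cb := fun x y h => by
  rw [← cube_lt, cb_pow, cb_pow]; exact h

lemma cb_zero : cb 0 = 0 := cb_eq_iff.2 (by norm_num)

lemma cb_one : cb 1 = 1 := cb_eq_iff.2 (by norm_num)

lemma cb_neg (x : ℝ) : cb (-x) = -cb x := cb_eq_iff.2 (by rw [Odd.neg_pow (by decide), cb_pow])

lemma cb_mul (x y : ℝ) : cb (x * y) = cb x * cb y :=
  cb_eq_iff.2 (by rw [mul_pow, cb_pow, cb_pow])

lemma cb_pos {x : ℝ} : 0 < cb x ↔ 0 < x := by
  rw [← cb_zero, cb_strictMono.lt_iff_lt, cb_zero]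

lemma cb_neg_iff {x : ℝ} : cb x < 0 ↔ x < 0 := by
  rw [← cb_zero, cb_strictMono.lt_iff_lt, cb_zero]

lemma cb_eq_zero {x : ℝ} : cb x = 0 ↔ x = 0 := by rw [cb_eq_iff]; norm_num

lemma cb_continuous : Continuous cb :=
  cb_strictMono.monotone.continuous_of_surjective fun y => ⟨y ^ 3, cb_cube y⟩

lemma cb_analyticAt {x : ℝ} (hx : x ≠ 0) : AnalyticAt ℝ cb x := by
  have h : ∀ y : ℝ, 0 < y → AnalyticAt ℝ cb y := fun y hy => by
    have h1 : AnalyticAt ℝ (fun t : ℝ => Real.exp (Real.log t * (1 / 3))) y :=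
      ((analyticAt_log hy).mul analyticAt_const).rexp
    refine h1.congr ?_
    filter_upwards [lt_mem_nhds hy] with t ht
    simp only [cb, if_pos ht.le, Real.rpow_def_of_pos ht]
  rcases lt_or_gt_of_ne hx with h0 | h0
  · have h1 : AnalyticAt ℝ (fun t : ℝ => -cb (-t)) x :=
      ((h (-x) (by linarith)).comp (f := fun t : ℝ => -t) analyticAt_id.neg).neg
    simpa only [cb_neg, neg_neg] using h1
  · exact h x h0

lemma cb_hasDerivAt {x : ℝ} (hx : x ≠ 0) : HasDerivAt cb (1 / (3 * cb x ^ 2)) x := by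
  have h1 := (cb_analyticAt hx).differentiableAt.hasDerivAt
  have h2 : HasDerivAt (fun y => cb y ^ 3) (((3 : ℕ) : ℝ) * cb x ^ (3 - 1) * deriv cb x) x :=
    h1.pow 3
  have h3 : HasDerivAt (fun y => cb y ^ 3) 1 x := by
    simpa only [cb_pow] using hasDerivAt_id' x
  have h4 := h2.unique h3
  have h5 : cb x ≠ 0 := fun h => hx (cb_eq_zero.1 h)
  have h6 : 1 / (3 * cb x ^ 2) = deriv cb x := by
    field_simp
    norm_num at h4
    linarith
  rw [h6]; exact h1

/-- a function whose cube is differentiable is differentiable where it does not vanish -/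
lemma hasDerivAt_of_cube {u : ℝ → ℝ} {w x : ℝ} (h : HasDerivAt (fun y => u y ^ 3) w x)
    (hx : u x ≠ 0) : HasDerivAt u (w / (3 * u x ^ 2)) x := by
  have h1 := (cb_hasDerivAt (pow_ne_zero 3 hx)).comp x h
  have h2 : (cb ∘ fun y => u y ^ 3) = u := funext fun y => cb_cube _
  rw [h2, cb_cube] at h1
  exact h1.congr_deriv (by ring)

lemma continuousAt_of_cube {u : ℝ → ℝ} {x : ℝ} (h : ContinuousAt (fun y => u y ^ 3) x) :
    ContinuousAt u x := by
  have h1 := cb_continuous.continuousAt.comp h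
  have h2 : (cb ∘ fun y => u y ^ 3) = u := funext fun y => cb_cube _
  rwa [h2] at h1

/-! ### two one-variable lemmas -/

/-- mean value inequality with finitely many exceptional points -/
lemma sub_le_of_deriv_le {f : ℝ → ℝ} {S : Set ℝ} (hS : S.Finite) {c a b : ℝ} (hab : a ≤ b)
    (hf : ContinuousOn f (Icc a b))
    (hd : ∀ x ∈ Ioo a b, x ∉ S → ∃ f', HasDerivAt f f' x ∧ f' ≤ c) :
    f b - f a ≤ c * (b - a) := by
  induction S, hS using Set.Finite.induction_on generalizing a b with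
  | empty =>
    refine (convex_Icc a b).image_sub_le_mul_sub_of_deriv_le hf ?_ ?_ a (left_mem_Icc.2 hab) b
      (right_mem_Icc.2 hab) hab
    · intro x hx
      rw [interior_Icc] at hx
      obtain ⟨f', h1, -⟩ := hd x hx (by simp)
      exact h1.differentiableAt.differentiableWithinAt
    · intro x hx
      rw [interior_Icc] at hx
      obtain ⟨f', h1, h2⟩ := hd x hx (by simp)
      rwa [h1.deriv]
  | @insert p S hp hS ih =>
    by_cases hpm : p ∈ Ioo a b
    · have h1 := ih hpm.1.le (hf.mono (Icc_subset_Icc_right hpm.2.le)) fun x hx hxS =>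
        hd x ⟨hx.1, hx.2.trans hpm.2⟩ (by
          rintro (h | h)
          · exact hx.2.ne h
          · exact hxS h)
      have h2 := ih hpm.2.le (hf.mono (Icc_subset_Icc_left hpm.1.le)) fun x hx hxS =>
        hd x ⟨hpm.1.trans hx.1, hx.2⟩ (by
          rintro (h | h)
          · exact hx.1.ne' h
          · exact hxS h)
      linarith
    · exact ih hab hf fun x hx hxS => hd x hx (by
        rintro (h | h)
        · exact hpm (h ▸ hx)
        · exact hxS h)

lemma le_sub_of_le_deriv {f : ℝ → ℝ} {S : Set ℝ} (hS : S.Finite) {c a b : ℝ} (hab : a ≤ b)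
    (hf : ContinuousOn f (Icc a b))
    (hd : ∀ x ∈ Ioo a b, x ∉ S → ∃ f', HasDerivAt f f' x ∧ c ≤ f') :
    c * (b - a) ≤ f b - f a := by
  have := sub_le_of_deriv_le (f := fun x => -f x) (c := -c) hS hab hf.neg fun x hx hxS => by
    obtain ⟨f', h1, h2⟩ := hd x hx hxS
    exact ⟨-f', h1.neg, by linarith⟩
  linarith

/-- a function with positive derivative at each of its zeros can only cross upwards -/
lemma pos_of_deriv_pos_at_zeros {f : ℝ → ℝ} {a b : ℝ} (hf : ContinuousOn f (Icc a b))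
    (ha : 0 ≤ f a) (hd : ∀ x ∈ Icc a b, f x = 0 → ∃ f', HasDerivAt f f' x ∧ 0 < f') :
    ∀ x ∈ Ioc a b, 0 < f x := by
  have key : ∀ x ∈ Icc a b, f x = 0 →
      (∀ᶠ y in 𝓝[>] x, 0 < f y) ∧ ∀ᶠ y in 𝓝[<] x, f y < 0 := by
    intro x hx h0
    obtain ⟨f', h1, h2⟩ := hd x hx h0
    have h3 := (hasDerivAt_iff_tendsto_slope.1 h1).eventually (lt_mem_nhds h2)
    constructor
    · filter_upwards [nhdsGT_le_nhdsNE x h3, self_mem_nhdsWithin] with y hy hy'
      rw [slope_def_field, h0, sub_zero] at hy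
      exact (div_pos_iff_of_pos_right (sub_pos.2 hy')).1 hy
    · filter_upwards [nhdsLT_le_nhdsNE x h3, self_mem_nhdsWithin] with y hy hy'
      rw [slope_def_field, h0, sub_zero] at hy
      have : y - x < 0 := sub_neg.2 hy'
      by_contra hc
      exact absurd hy (not_lt.2 (div_nonpos_of_nonneg_of_nonpos (not_lt.1 hc) this.le))
  intro x hx
  by_contra hneg
  push Not at hneg
  have hab : a < b := hx.1.trans_le hx.2
  -- a point just to the right of `a` with positive values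
  have hright : ∀ᶠ y in 𝓝[>] a, 0 < f y := by
    rcases ha.eq_or_lt with h | h
    · exact (key a (left_mem_Icc.2 hab.le) h.symm).1
    · have h1 := (hf a (left_mem_Icc.2 hab.le)).eventually (lt_mem_nhds h)
      exact nhdsWithin_le_of_mem (mem_of_superset (Ioo_mem_nhdsGT hab) Ioo_subset_Icc_self) h1
  obtain ⟨a', ha', hpos⟩ := (nhdsGT_basis a).eventually_iff.1 hright
  have hax : a' ≤ x := by
    by_contra h
    exact absurd (hpos ⟨hx.1, not_le.1 h⟩) (not_lt.2 hneg)
  obtain ⟨a0, ha0, ha0'⟩ := exists_between ha'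
  have hsub : Icc a0 x ⊆ Icc a b := Icc_subset_Icc ha0.le hx.2
  set S : Set ℝ := Icc a0 x ∩ f ⁻¹' Iic 0 with hSdef
  have hScl : IsClosed S := (hf.mono hsub).preimage_isClosed_of_isClosed isClosed_Icc isClosed_Iic
  have hSne : S.Nonempty := ⟨x, ⟨(ha0'.le.trans hax), le_rfl⟩, hneg⟩
  have hSbd : BddBelow S := ⟨a0, fun y hy => hy.1.1⟩
  have hc := hScl.csInf_mem hSne hSbd
  set c := sInf S
  have hca : a0 < c := by
    rcases hc.1.1.eq_or_lt with h | h
    · have := hc.2
      rw [← h] at this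
      exact absurd (hpos ⟨ha0, ha0'⟩) (not_lt.2 this)
    · exact h
  have hlt : ∀ y ∈ Ioo a0 c, 0 < f y := by
    intro y hy
    by_contra h
    exact absurd (csInf_le hSbd ⟨⟨hy.1.le, hy.2.le.trans hc.1.2⟩, not_lt.1 h⟩) (not_le.2 hy.2)
  have hleft : ∀ᶠ y in 𝓝[<] c, f y < 0 := by
    rcases (show f c ≤ 0 from hc.2).eq_or_lt with h | h
    · exact (key c (hsub hc.1) h).2
    · have h1 := (hf c (hsub hc.1)).eventually (gt_mem_nhds h)
      refine nhdsWithin_le_of_mem (mem_of_superset (Ioo_mem_nhdsLT hca) ?_) h1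
      exact fun y hy => hsub ⟨hy.1.le, hy.2.le.trans hc.1.2⟩
  obtain ⟨y, hy1, hy2⟩ := (hleft.and (Ioo_mem_nhdsLT hca)).exists
  exact absurd (hlt y hy2) (not_lt.2 hy1.le)

end Pool.Agent.MP_c2f0e4_an
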