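import Pool.Agent.MP_c2f0e4_an.Iface

open Set Filter Topology Real Asymptotics

namespace Pool.Agent.MP_c2f0e4_an

lemma centre_polar (p : ℝ × ℝ) :
    ∃ ρ t0 : ℝ, 0 ≤ ρ ∧ ρ ≤ 2 * ‖p‖ ∧ p.1 = ρ * cos t0 ∧ p.2 = ρ * sin t0 := by
  refine ⟨‖(⟨p.1, p.2⟩ : ℂ)‖, Complex.arg ⟨p.1, p.2⟩, norm_nonneg _, ?_,
    (Complex.norm_mul_cos_arg ⟨p.1, p.2⟩).symm, (Complex.norm_mul_sin_arg ⟨p.1, p.2⟩).symm⟩
  have h := Complex.norm_le_abs_re_add_abs_im ⟨p.1, p.2⟩
  have h1 := norm_fst_le p
  have h2 := norm_snd_le p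
  rw [Real.norm_eq_abs] at h1 h2
  simp only at h
  linarith

lemma centre_lin {f F : ℝ → ℝ} (hF : Continuous F) (hf : ∀ t, HasDerivAt f (F t * f t) t) (t : ℝ) :
    f t = f 0 * Real.exp (∫ s in (0 : ℝ)..t, F s) := by
  have hI : ∀ t, HasDerivAt (fun t => ∫ s in (0 : ℝ)..t, F s) (F t) t := fun t =>
    (hF.integral_hasStrictDerivAt 0 t).hasDerivAt
  have hg : ∀ t, HasDerivAt (fun t => f t * Real.exp (-∫ s in (0 : ℝ)..t, F s)) 0 t := fun t =>
    ((hf t).mul (hI t).neg.exp).congr_deriv (by simp only [Pi.neg_apply]; ring)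
  have hc := is_const_of_deriv_eq_zero (fun t => (hg t).differentiableAt)
    (fun t => (hg t).deriv) t 0
  simp only [intervalIntegral.integral_same, neg_zero, Real.exp_zero, mul_one] at hc
  rw [← hc, mul_assoc, ← Real.exp_add]; simp

lemma centre_bd (b1 b2 a1 a2 a3 x u : ℝ) (hu : 1 ≤ u) :
    Lin b1 b2 x + Cub a1 a2 a3 0 x / u ^ 2 ≤ |b1| + |b2| + |a1| + |a2| + |a3| := by
  have hc := abs_cos_le_one x
  have hs := abs_sin_le_one x
  have hc0 := abs_nonneg (cos x)
  have hs0 := abs_nonneg (sin x)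
  have key : ∀ a w : ℝ, |w| ≤ 1 → |a * w| ≤ |a| := fun a w hw => by
    rw [abs_mul]; exact mul_le_of_le_one_right (abs_nonneg a) hw
  have h1 := key b1 _ hc
  have h2 := key b2 _ hs
  have h3 := key a1 (cos x ^ 3) (by rw [abs_pow]; exact pow_le_one₀ hc0 hc)
  have h4 := key a2 (cos x ^ 2 * sin x) (by
    rw [abs_mul, abs_pow]; exact mul_le_one₀ (pow_le_one₀ hc0 hc) hs0 hs)
  have h5 := key a3 (cos x * sin x ^ 2) (by
    rw [abs_mul, abs_pow]; exact mul_le_one₀ hc (by positivity) (pow_le_one₀ hs0 hs))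
  have h6 : |Cub a1 a2 a3 0 x| ≤ |a1| + |a2| + |a3| := by
    have e : Cub a1 a2 a3 0 x = a1 * cos x ^ 3 + a2 * (cos x ^ 2 * sin x)
      + a3 * (cos x * sin x ^ 2) := by unfold Cub; ring
    rw [e]
    exact (abs_add_three _ _ _).trans (by linarith)
  have h7 : Cub a1 a2 a3 0 x / u ^ 2 ≤ |Cub a1 a2 a3 0 x| :=
    (div_le_div_of_nonneg_right (le_abs_self _) (by positivity)).trans
      (div_le_self (abs_nonneg _) (one_le_pow₀ hu))
  have h8 := le_abs_self (b1 * cos x)
  have h9 := le_abs_self (b2 * sin x)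
  unfold Lin
  linarith

theorem centreS (hExist : ExistStmt) (hPer : PerStmt) : CentreStmt := by
  intro b1 b2 a1 a2 a3 hC
  have hsys := sys_cub a1 a2 a3 0 b1 b2
  constructor
  · obtain ⟨C, hCe⟩ : ∃ C, C = |b1| + |b2| + |a1| + |a2| + |a3| := ⟨_, rfl⟩
    have hC0 : 0 ≤ C := by rw [hCe]; positivity
    have hK : 0 < 1 + 3 * π * (C + 1) := by positivity
    refine ⟨1 / (2 * (1 + 3 * π * (C + 1))), by positivity, fun p hp hr => ?_⟩
    obtain ⟨ρ, t0, h0, hρ, e1, e2⟩ := centre_polar p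
    have hρ0 : 0 < ρ := h0.lt_of_ne fun h => hp (Prod.ext (by simp [e1, ← h]) (by simp [e2, ← h]))
    have hbig : 1 + 3 * π * (C + 1) < 1 / ρ := by
      rw [lt_div_iff₀ (by positivity)] at hr
      rw [lt_div_iff₀ hρ0]
      nlinarith
    obtain ⟨U, hU, hU0⟩ := hExist _ _ (Cub.an a1 a2 a3 0).continuous (Lin.an b1 b2).continuous t0
      (1 / ρ)
    have hlow : ∀ x ∈ Icc t0 (t0 + 3 * π), 1 < 1 / ρ - (C + 1) * (x - t0) := fun x hx => by
      nlinarith [hx.1, hx.2]
    have hpos := pos_of_deriv_pos_at_zeros (a := t0) (b := t0 + 3 * π)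
      (f := fun x => U x - (1 / ρ - (C + 1) * (x - t0)))
      (hU.1.sub (by fun_prop)).continuousOn (by simp [hU0]) fun x hx h => by
        have h1 : 1 < U x := by have := hlow x hx; linarith
        have h2 := hU.hasDerivAt (x := x) (by linarith)
        have h3 : HasDerivAt (fun x => 1 / ρ - (C + 1) * (x - t0)) (-(C + 1)) x := by
          simpa using (((hasDerivAt_id x).sub_const t0).const_mul (C + 1)).const_sub (1 / ρ)
        refine ⟨_, h2.sub h3, ?_⟩
        have := centre_bd b1 b2 a1 a2 a3 x (U x) h1.le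
        linarith
    have hpos' : ∀ x ∈ Icc t0 (t0 + 3 * π), 0 < U x := fun x hx => by
      rcases hx.1.eq_or_lt with h | h
      · rw [← h, hU0]; positivity
      · have := hpos x ⟨h, hx.2⟩
        have := hlow x hx
        linarith
    obtain ⟨-, -, hper⟩ := hPer _ _ U hsys hC hU t0 fun x hx _ => (hpos' x hx).ne'
    have hall : ∀ x, 0 < U x := fun x => by
      obtain ⟨y, hy, e⟩ := hper.exists_mem_Ico two_pi_pos x t0
      rw [e]
      exact hpos' y ⟨hy.1, by linarith [hy.2, pi_pos]⟩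
    refine ⟨fun t => (cos (t0 + t) / U (t0 + t), sin (t0 + t) / U (t0 + t)), fun t => ?_, ?_,
      ⟨2 * π, two_pi_pos, fun t => ?_⟩, π, fun h => ?_⟩
    · have hne := (hall (t0 + t)).ne'
      have h1 := (hU.hasDerivAt hne).comp_const_add t0 t
      have h2 := (hasDerivAt_cos (t0 + t)).comp_const_add t0 t
      have h3 := (hasDerivAt_sin (t0 + t)).comp_const_add t0 t
      refine ((h2.div h1 hne).prodMk (h3.div h1 hne)).congr_deriv (Prod.ext ?_ ?_)
      · simp only [fieldP, Lin, Cub]; field_simp; ring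
      · simp only [fieldP, Lin, Cub]; field_simp; ring
    · refine Prod.ext ?_ ?_
      · simp only [add_zero, hU0, e1]; field_simp
      · simp only [add_zero, hU0, e2]; field_simp
    · simp only [← add_assoc, cos_add_two_pi, sin_add_two_pi, hper (t0 + t)]
    · have h1 := congrArg Prod.fst h
      have h2 := congrArg Prod.snd h
      simp only [cos_add_pi, sin_add_pi, e1, e2] at h1 h2
      have h3 := hall (t0 + π)
      rw [div_eq_iff h3.ne'] at h1 h2
      have h4 := sin_sq_add_cos_sq t0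
      have h5 : -1 = ρ * U (t0 + π) := by
        linear_combination cos t0 * h1 + sin t0 * h2 + (1 + ρ * U (t0 + π)) * h4
      nlinarith [mul_pos hρ0 h3]
  · intro γ hγ
    obtain ⟨ρ, t0, h0, -, e1, e2⟩ := centre_polar (γ 0)
    have hcont : Continuous γ := continuous_iff_continuousAt.2 fun t => (hγ t).continuousAt
    obtain ⟨F, hFe⟩ : ∃ F : ℝ → ℝ, F = fun t => b1 * (γ t).1 + b2 * (γ t).2 + a1 * (γ t).1 ^ 3
      + a2 * (γ t).1 ^ 2 * (γ t).2 + a3 * (γ t).1 * (γ t).2 ^ 2 := ⟨_, rfl⟩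
    have hF : Continuous F := by rw [hFe]; fun_prop
    have hx : ∀ t, HasDerivAt (fun t => (γ t).1) (-(γ t).2 + (γ t).1 * F t) t := fun t => by
      rw [hFe]; exact (hγ t).fst
    have hy : ∀ t, HasDerivAt (fun t => (γ t).2) ((γ t).1 + (γ t).2 * F t) t := fun t => by
      rw [hFe]; exact (hγ t).snd
    have hc := fun t => (hasDerivAt_cos (t0 + t)).comp_const_add t0 t
    have hs := fun t => (hasDerivAt_sin (t0 + t)).comp_const_add t0 t
    obtain ⟨f, hfe⟩ : ∃ f : ℝ → ℝ,
      f = fun t => (γ t).1 * cos (t0 + t) + (γ t).2 * sin (t0 + t) := ⟨_, rfl⟩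
    have hf : ∀ t, HasDerivAt f (F t * f t) t := fun t => by
      rw [hfe]
      exact (((hx t).mul (hc t)).add ((hy t).mul (hs t))).congr_deriv (by ring)
    have hg : ∀ t, HasDerivAt (fun t => (γ t).2 * cos (t0 + t) - (γ t).1 * sin (t0 + t))
        (F t * ((γ t).2 * cos (t0 + t) - (γ t).1 * sin (t0 + t))) t := fun t =>
      (((hy t).mul (hc t)).sub ((hx t).mul (hs t))).congr_deriv (by ring)
    have hg0 : ∀ t, (γ t).2 * cos (t0 + t) - (γ t).1 * sin (t0 + t) = 0 := fun t => by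
      have := centre_lin hF hg t
      simp only [add_zero, e1, e2] at this
      rw [this]; ring
    have hf0 : ∀ t, f t = ρ * Real.exp (∫ s in (0 : ℝ)..t, F s) := fun t => by
      rw [centre_lin hF hf t, hfe]
      simp only [add_zero, e1, e2]
      congr 1
      linear_combination ρ * sin_sq_add_cos_sq t0
    have g1 : ∀ t, (γ t).1 = f t * cos (t0 + t) := fun t => by
      rw [hfe]
      linear_combination (-sin (t0 + t)) * hg0 t - (γ t).1 * sin_sq_add_cos_sq (t0 + t)
    have g2 : ∀ t, (γ t).2 = f t * sin (t0 + t) := fun t => by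
      rw [hfe]
      linear_combination cos (t0 + t) * hg0 t - (γ t).2 * sin_sq_add_cos_sq (t0 + t)
    have hfp : Function.Periodic f (2 * π) := by
      rcases h0.eq_or_lt with h | h
      · intro t; rw [hf0, hf0, ← h]; simp
      · have hne : ∀ t, f t ≠ 0 := fun t => by rw [hf0]; positivity
        have hd : ∀ x, HasDerivAt (fun x => (f (x - t0))⁻¹)
            (-(F (x - t0) * f (x - t0)) / f (x - t0) ^ 2) x := fun x =>
          ((hf (x - t0)).comp_sub_const x t0).inv (hne _)
        have hsol : Sol (Cub a1 a2 a3 0) (Lin b1 b2) fun x => (f (x - t0))⁻¹ := by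
          refine ⟨continuous_iff_continuousAt.2 fun x => (hd x).continuousAt, fun x => ?_⟩
          refine ((hd x).pow 3).congr_deriv ?_
          have := hne (x - t0)
          rw [hFe]
          simp only [g1 (x - t0), g2 (x - t0), add_sub_cancel, Cub, Lin, Nat.add_one_sub_one,
            Nat.cast_ofNat]
          field_simp
          ring
        obtain ⟨-, -, hper⟩ := hPer _ _ _ hsys hC hsol 0 fun x _ _ => inv_ne_zero (hne _)
        intro t
        have := hper (t + t0)
        simp only [add_sub_cancel_right, add_right_comm t t0] at this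
        exact inv_injective this
    intro t
    refine Prod.ext ?_ ?_
    · rw [g1, g1, hfp, ← add_assoc, cos_add_two_pi]
    · rw [g2, g2, hfp, ← add_assoc, sin_add_two_pi]

end Pool.Agent.MP_c2f0e4_an
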