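import Pool.Agent.MP_c2f0e4_an.Iface

open Set Filter Topology Real Asymptotics

namespace Pool.Agent.MP_c2f0e4_an

lemma cusp_an {f : ℝ → ℝ} (h : An f) : An (deriv f) := fun x => (h x).deriv

lemma cusp_deriv {f : ℝ → ℝ} (h : An f) (k c l : ℝ) :
    deriv (fun x => l * f (k * x + c)) = fun x => l * k * deriv f (k * x + c) := by
  funext x
  have h1 : HasDerivAt (fun x : ℝ => k * x + c) k x := by
    simpa using ((hasDerivAt_id x).const_mul k).add_const c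
  have h2 := ((h (k * x + c)).differentiableAt.hasDerivAt.comp x h1).const_mul l
  exact h2.deriv.trans (by ring)

lemma cusp_alg {ε k I a1 a2 b0 b1 : ℝ} (hε : ε ^ 2 = 1) (hk : k * k * a1 = -2 * ε / 3)
    (hI : I ≠ 0) :
    23328 / 1925 * (k * b0) ^ 2 * (k * k * k * a2 / 2 * (k * b0) + ε * (k * k * b1) +
      36 / 343 * (k * b0) ^ 4) * (- -ε / 9) * (3 / 2 * ε * (k * b0) * I) =
    23328 / 1925 * (ε / 9) / ((3 / 2) ^ 6 * I ^ 6) *
      ((a2 / 2 * b0 - 3 / 2 * a1 * b1) / b0 ^ 4 + 36 / 343) * (3 / 2 * ε * (k * b0) * I) ^ 7 := by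
  by_cases hb : b0 = 0
  · simp [hb]
  have h1 : ε * (k * k * b1) = -(3 / 2) * k ^ 4 * a1 * b1 := by
    linear_combination (3 / 2 * k * k * b1) * hk
  have h2 : (3 / 2 * ε * (k * b0) * I) ^ 7 =
      (3 / 2 * (k * b0) * I) ^ 6 * (3 / 2 * ε * (k * b0) * I) := by
    rw [show (3 / 2 * ε * (k * b0) * I) ^ 7 = (ε ^ 2) ^ 3 * ((3 / 2 * (k * b0) * I) ^ 6 *
      (3 / 2 * ε * (k * b0) * I)) by ring, hε, one_pow, one_mul]
  rw [h1, h2]
  field_simp
  ring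

theorem cuspS (hCuspXD : CuspXDStmt) (hCuspODE : CuspODEStmt) (hJet : JetStmt) (hPass : PassStmt) (hChi : ChiStmt) (hChiInt : ChiIntStmt) (hAsyScale : AsyScaleStmt) : CuspStmt := by
  intro ε hε
  have hε' : -ε = 1 ∨ -ε = -1 := by rcases hε with h | h <;> simp [h]
  have hε2 : ε ^ 2 = 1 := by rcases hε with h | h <;> simp [h]
  have hε0 : ε ≠ 0 := by rcases hε with h | h <;> simp [h]
  obtain ⟨hI, hJ⟩ := hChiInt _ hε'
  refine ⟨23328 / 1925 * (ε / 9) / ((3 / 2) ^ 6 * (∫ ρ, chi (-ε) ρ) ^ 6),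
    div_ne_zero (mul_ne_zero (by norm_num) (div_ne_zero hε0 (by norm_num)))
      (mul_ne_zero (by norm_num) (pow_ne_zero _ hI.ne)), ?_⟩
  intro A B V U z hA hB hT hz hs η hη
  obtain ⟨k, hk0, hk⟩ : ∃ k : ℝ, 0 < k ∧ k * k * deriv A z = -2 * ε / 3 := by
    have h1 : 0 < 2 / (3 * -(ε * deriv A z)) := div_pos two_pos (by linarith)
    refine ⟨√(2 / (3 * -(ε * deriv A z))), sqrt_pos.2 h1, ?_⟩
    rw [mul_self_sqrt h1.le, div_mul_eq_mul_div, div_eq_iff (by linarith)]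
    linear_combination (-2 * deriv A z) * hε2
  have hT' := hT.affine k z
  have hA' := hA.affine k z k
  have hB' := hB.affine k z k
  have hA0 : (fun x => k * A (k * x + z)) 0 = 0 := by simp [hz.1]
  have hA1 : deriv (fun x => k * A (k * x + z)) 0 = -2 * ε / 3 := by
    rw [cusp_deriv hA]
    simpa using hk
  obtain ⟨X, D, hX, hD, hX0, hD0, hXD⟩ := hCuspXD ε _ _ _ hε hA' hB' hT'.solV hA0 hA1
    (by simp [hz.2])
  obtain ⟨q, R, hR, hR0, hq, hq0, hq5, hq6⟩ := hJet ε _ _ X D hε (hA' 0) (hB' 0) hX hD hA0 hA1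
    hX0 hD0 (hXD.mono fun _ h => h.2)
  simp only [cusp_deriv hA, cusp_deriv hB, cusp_deriv (cusp_an hA), cusp_deriv (cusp_an hB),
    mul_zero, zero_add] at hq0 hq5 hq6
  obtain ⟨L, hL⟩ := hR.differentiableAt.isBigO_sub.bound
  have cX := hX.continuousAt
  have e1 : ∀ᶠ τ in 𝓝 (0 : ℝ), 0 < X τ := continuousAt_const.eventually_lt cX (by simp [hX0])
  have e2 : ∀ᶠ τ in 𝓝 (0 : ℝ), 0 < D τ :=
    continuousAt_const.eventually_lt hD.continuousAt (by simp [hD0])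
  have e3 : ∀ᶠ τ in 𝓝 (0 : ℝ), |k * (τ ^ 3 * X τ)| < η :=
    ContinuousAt.eventually_lt (by fun_prop) continuousAt_const (by simpa using hη)
  obtain ⟨r, hr, H⟩ := Metric.eventually_nhds_iff.1 ((hXD.and hq).and ((e1.and e2).and
    ((e3.and hL).and (hX.eventually_analyticAt.and
      (hD.eventually_analyticAt.and hR.eventually_analyticAt)))))
  obtain ⟨δ, hδ, hδr⟩ := exists_between hr
  replace H := fun τ (hτ : τ ∈ Icc (-δ) δ) =>
    @H τ (by rw [dist_zero_right]; exact (abs_le.2 hτ).trans_lt hδr)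
  have ma : -δ ∈ Icc (-δ) δ := left_mem_Icc.2 (by linarith)
  have mb : δ ∈ Icc (-δ) δ := right_mem_Icc.2 (by linarith)
  have hP : PHyp (chi (-ε)) q R (-δ) δ
      fun n τ => √(D τ) * Yv V U (k * (τ ^ 3 * X τ) + z) n := by
    refine ⟨by linarith, hδ, fun τ hτ => (H τ hτ).2.2.2.2.2.continuousAt.continuousWithinAt,
      ⟨L, fun τ hτ => ?_⟩, fun n τ hτ => mul_pos (sqrt_pos.2 (H τ hτ).2.1.2) (hT.Yv_pos _ n),
      fun n τ hτ => ?_, (hT.Yv_tendsto _).const_mul_atTop (sqrt_pos.2 (H _ ma).2.1.2)⟩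
    · simpa [hR0] using (H τ hτ).2.2.1.2
    · obtain ⟨⟨h1, h2⟩, h3, -, h4, h5, -⟩ := H τ hτ
      rw [← h2]
      have := hCuspODE ε _ _ _ _ X D τ _ _ hε hT'.solV (hT'.solU n) h4.differentiableAt.hasDerivAt
        h5.differentiableAt.hasDerivAt h3.2 h1.1 h1.2.1 (hT'.lt n _)
      simpa only [Yv] using this
  obtain ⟨f, hf, hf0, hf6⟩ := hPass _ _ q R _ _ _ (hChi _ hε') hP
  have hμ := sqrt_pos.2 (H _ ma).2.1.2
  have hν := sqrt_pos.2 (H _ mb).2.1.2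
  have hS := hAsyScale _ _ _ _ _ _ _ _ (hT.Yv_tendsto _) hμ hν hf
  have ha := abs_lt.1 (H _ ma).2.2.1.1
  have hb := abs_lt.1 (H _ mb).2.2.1.1
  have ha' : 0 < k * (δ ^ 3 * X (-δ)) := by have := (H _ ma).2.1.1; positivity
  have hb' : 0 < k * (δ ^ 3 * X δ) := by have := (H _ mb).2.1.1; positivity
  have hV : ∀ τ ∈ Icc (-δ) δ, τ ≠ 0 → V (k * (τ ^ 3 * X τ) + z) ≠ 0 := fun τ hτ h0 =>
    (H τ hτ).1.1.1.trans_ne (mul_ne_zero (mul_ne_zero hε0 (pow_ne_zero _ h0)) (H τ hτ).2.1.2.ne')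
  have key := cusp_alg (a2 := deriv (deriv A) z) (b0 := B z) (b1 := deriv B z) hε2 hk hI.ne
  rw [← hq5, ← hq0, ← hf0, ← gam] at key
  generalize √(D (-δ)) = μ at hμ hS
  generalize 23328 / 1925 * (ε / 9) / ((3 / 2) ^ 6 * (∫ ρ, chi (-ε) ρ) ^ 6) * gam A B z = G
    at key ⊢
  set e : ℕ → ℝ := fun i => f i / μ ^ (i + 1) +
    if i = 6 then -5 * (q 5 * (- -ε / 9)) * f 0 * Real.log μ / μ ^ 7 else 0 with he
  have e0 : e 0 = f 0 / μ := by simp [he]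
  have k7 : -5 * (q 5 * (- -ε / 9)) * f 0 / μ ^ 7 = -5 * G * e 0 ^ 7 := by
    rw [e0]
    linear_combination (-5 / μ ^ 7) * key
  have k8 : 15 * (q 5 * (- -ε / 9)) * f 0 ^ 2 / μ ^ 8 = 15 * G * e 0 ^ 8 := by
    rw [e0]
    linear_combination (15 * f 0 / μ ^ 8) * key
  rw [k7, k8] at hS
  have ha'' : k * ((-δ) ^ 3 * X (-δ)) = -(k * (δ ^ 3 * X (-δ))) := by ring
  have hw : 0 < -(3 / 2) * k * ∫ ρ, chi (-ε) ρ := mul_pos_of_neg_of_neg (by linarith) hI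
  refine ⟨k * ((-δ) ^ 3 * X (-δ)) + z, k * (δ ^ 3 * X δ) + z, by linarith [ha.1], by linarith [ha''],
    by linarith, by linarith [hb.2], hV _ ma (by linarith), hV _ mb hδ.ne', _,
    -(3 / 2) * k * (∫ ρ, chi (-ε) ρ) / μ, e, by positivity, div_pos hw hμ, ?_, hS,
    fun hb0 h6 => ?_⟩
  · rw [e0, hf0, hq0]
    ring
  · obtain ⟨h1, h2, h3⟩ := hq6 (by rw [hb0, mul_zero])
    have h0 : q 0 = 0 := by rw [hq0, hb0, mul_zero, mul_zero]
    simp only [he, hf0, hf6 h0 h1 h2, h0, zero_mul, mul_zero, zero_div, ite_self, add_zero] at h6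
    have h4 := (mul_eq_zero.1 ((div_eq_zero_iff.1 h6).resolve_right
      (by positivity))).resolve_right hJ
    refine mul_left_cancel₀ (pow_ne_zero 5 hk0.ne') ?_
    linear_combination 8 / 9 * (h4 - h3) - k ^ 3 * deriv (deriv B) z * hk

end Pool.Agent.MP_c2f0e4_an
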