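import Mathlib

namespace Pool.Agent.MP_c2f0e4_an

/-- The planar vector field (P). -/
def fieldP (b1 b2 a1 a2 a3 : ℝ) (p : ℝ × ℝ) : ℝ × ℝ :=
  (-p.2 + p.1 * (b1 * p.1 + b2 * p.2 + a1 * p.1 ^ 3 + a2 * p.1 ^ 2 * p.2 + a3 * p.1 * p.2 ^ 2),
    p.1 + p.2 * (b1 * p.1 + b2 * p.2 + a1 * p.1 ^ 3 + a2 * p.1 ^ 2 * p.2 + a3 * p.1 * p.2 ^ 2))

/-- The polynomial `G` of the compactified system. -/
def polyG (b1 b2 a1 a2 a3 : ℝ) (z : ℝ × ℝ × ℝ) : ℝ :=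
  b1 * z.1 * z.2.2 ^ 2 + b2 * z.2.1 * z.2.2 ^ 2 + a1 * z.1 ^ 3 + a2 * z.1 ^ 2 * z.2.1
    + a3 * z.1 * z.2.1 ^ 2

/-- The vector field (S). -/
def fieldS (b1 b2 a1 a2 a3 : ℝ) (z : ℝ × ℝ × ℝ) : ℝ × ℝ × ℝ :=
  (z.2.2 * (-z.2.1 * z.2.2 + z.1 * polyG b1 b2 a1 a2 a3 z),
    z.2.2 * (z.1 * z.2.2 + z.2.1 * polyG b1 b2 a1 a2 a3 z),
    (z.2.2 ^ 2 - 1) * polyG b1 b2 a1 a2 a3 z)

/-- The unit sphere. -/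
def sph : Set (ℝ × ℝ × ℝ) := {z | z.1 ^ 2 + z.2.1 ^ 2 + z.2.2 ^ 2 = 1}

/-- `γ` is a solution of `γ' = X γ` defined for all real times. -/
def IsSol {E : Type} [NormedAddCommGroup E] [NormedSpace ℝ E] (X : E → E) (γ : ℝ → E) : Prop :=
  ∀ t, HasDerivAt γ (X (γ t)) t

/-- `p` lies on a non-constant periodic orbit of `X`. -/
def OnCycle {E : Type} [NormedAddCommGroup E] [NormedSpace ℝ E] (X : E → E) (p : E) : Prop :=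
  ∃ γ : ℝ → E, IsSol X γ ∧ γ 0 = p ∧ (∃ T : ℝ, 0 < T ∧ Function.Periodic γ T) ∧ ∃ t, γ t ≠ p

end Pool.Agent.MP_c2f0e4_an
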