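import Pool.Agent.MP_c2f0e4_an.Sys

open Set Filter Topology Real Asymptotics

namespace Pool.Agent.MP_c2f0e4_an

/-! ## 1. analytic fixed point machinery -/

def SupStmt : Prop :=
  ∀ (G : (ℝ × ℝ) × ℝ → ℝ) (e0 : (ℝ × ℝ) × ℝ), AnalyticAt ℝ G e0 →
    ∃ N : C(unitInterval, (ℝ × ℝ) × ℝ) → C(unitInterval, ℝ),
      AnalyticAt ℝ N (ContinuousMap.const unitInterval e0) ∧
      ∀ᶠ z in 𝓝 (ContinuousMap.const unitInterval e0), ∀ t, N z t = G (z t)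

def FPStmt : Prop :=
  ∀ (K : C(unitInterval, ℝ) →L[ℝ] C(unitInterval, ℝ))
    (l : (ℝ × ℝ) →L[ℝ] C(unitInterval, ℝ × ℝ)) (c : (ℝ × ℝ) →L[ℝ] C(unitInterval, ℝ))
    (c0 : C(unitInterval, ℝ)) (G : (ℝ × ℝ) × ℝ → ℝ) (y0 : ℝ),
    AnalyticAt ℝ G (0, y0) → HasDerivAt (fun y => G (0, y)) 0 y0 →
    c0 + K (ContinuousMap.const unitInterval (G (0, y0))) = ContinuousMap.const unitInterval y0 →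
    ∃ Z : ℝ × ℝ → C(unitInterval, ℝ), AnalyticAt ℝ Z 0 ∧
      Z 0 = ContinuousMap.const unitInterval y0 ∧
      (∀ᶠ p in 𝓝 (0 : ℝ × ℝ), ∃ g : C(unitInterval, ℝ),
        (∀ t, g t = G (l p t, Z p t)) ∧ Z p = c0 + c p + K g) ∧
      ∃ η : ℝ, 0 < η ∧ ∀ (p : ℝ × ℝ) (z g : C(unitInterval, ℝ)), ‖p‖ < η →
        ‖z - ContinuousMap.const unitInterval y0‖ < η → (∀ t, g t = G (l p t, z t)) →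
        z = c0 + c p + K g → z = Z p

/-- analytic local first integral of `y' = F (x, y)` -/
def AFStmt : Prop :=
  ∀ (F : ℝ × ℝ → ℝ) (p0 : ℝ × ℝ), AnalyticAt ℝ F p0 →
    ∃ H : ℝ × ℝ → ℝ, AnalyticAt ℝ H p0 ∧ fderiv ℝ H p0 (0, 1) ≠ 0 ∧
      ∀ᶠ p in 𝓝 p0, fderiv ℝ H p (1, F p) = 0

/-- Briot-Bouquet: existence of an analytic solution, and uniqueness among solutions with a limit -/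
def BBStmt : Prop :=
  ∀ (Ψ : ℝ × ℝ → ℝ) (ν y0 : ℝ), 1 ≤ ν → AnalyticAt ℝ Ψ (0, y0) → Ψ (0, y0) = ν * y0 →
    HasDerivAt (fun y => Ψ (0, y)) 0 y0 →
    ∃ Y : ℝ → ℝ, AnalyticAt ℝ Y 0 ∧ Y 0 = y0 ∧
      (∀ᶠ t in 𝓝 (0 : ℝ), t * deriv Y t + ν * Y t = Ψ (t, Y t)) ∧
      ∀ y : ℝ → ℝ, Tendsto y (𝓝[≠] 0) (𝓝 y0) →
        (∀ᶠ t in 𝓝[≠] (0 : ℝ), ∃ y', HasDerivAt y y' t ∧ t * y' + ν * y t = Ψ (t, y t)) →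
        ∀ᶠ t in 𝓝[≠] (0 : ℝ), y t = Y t

/-! ## 2. general theory of the scalar equation -/

def LocStmt : Prop :=
  ∀ A B : ℝ → ℝ, An A → An B → ∀ x0 u0 : ℝ, (A x0 = 0 → u0 ≠ 0) →
    ∃ (H : ℝ × ℝ → ℝ) (r : ℝ), 0 < r ∧
      (∀ x u, |x - x0| < r → |u - u0| < r →
        AnalyticAt ℝ H (x, u) ∧ (u ≠ 0 → fderiv ℝ H (x, u) (0, 1) ≠ 0)) ∧
      (∀ x, |x - x0| < r → InjOn (fun u => H (x, u)) (Ioo (u0 - r) (u0 + r))) ∧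
      ∀ U, Sol A B U → ∀ a b, a ≤ b → (∀ x ∈ Icc a b, |x - x0| < r ∧ |U x - u0| < r) →
        H (a, U a) = H (b, U b)

def UniqStmt : Prop :=
  ∀ A B U V : ℝ → ℝ, An A → An B → Sol A B U → Sol A B V → ∀ a b x0 : ℝ, x0 ∈ Icc a b →
    GoodOn A V (Icc a b) → U x0 = V x0 → ∀ x ∈ Icc a b, U x = V x

def BoundStmt : Prop :=
  ∀ A B : ℝ → ℝ, Continuous A → Continuous B → ∀ a b M : ℝ, ∃ M' : ℝ, ∀ U, Sol A B U →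
    ∀ x0 ∈ Icc a b, |U x0| ≤ M → ∀ x ∈ Icc a b, |U x| ≤ M'

def LimStmt : Prop :=
  ∀ A B : ℝ → ℝ, Continuous A → Continuous B → ∀ (l : Filter ℕ) (U : ℕ → ℝ → ℝ) (V : ℝ → ℝ),
    l.NeBot → (∀ n, Sol A B (U n)) → (∀ x, Tendsto (fun n => U n x) l (𝓝 (V x))) →
    Sol A B V ∧ ∀ a b, TendstoUniformlyOn U V l (Icc a b)

def ExistStmt : Prop :=
  ∀ A B : ℝ → ℝ, Continuous A → Continuous B → ∀ x0 u0 : ℝ, ∃ U, Sol A B U ∧ U x0 = u0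

def DepStmt : Prop :=
  ∀ A B V : ℝ → ℝ, An A → An B → Sol A B V → ∀ a b x0 : ℝ, x0 ∈ Icc a b →
    GoodOn A V (Icc a b) → ∀ η : ℝ, 0 < η → ∃ δ : ℝ, 0 < δ ∧ ∀ U, Sol A B U →
      |U x0 - V x0| < δ → ∀ x ∈ Icc a b, |U x - V x| < η

def TransitStmt : Prop :=
  ∀ A B V : ℝ → ℝ, An A → An B → Sol A B V → ∀ a b : ℝ, a ≤ b → GoodOn A V (Icc a b) →
    V a ≠ 0 → V b ≠ 0 →
    ∃ R : ℝ → ℝ, AnalyticAt ℝ R (V a) ∧ R (V a) = V b ∧ deriv R (V a) ≠ 0 ∧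
      ∃ η : ℝ, 0 < η ∧ ∀ U, Sol A B U → (∀ x ∈ Icc a b, |U x - V x| < η) → U b = R (U a)

def ExtStmt : Prop :=
  ∀ A B U : ℝ → ℝ, Sys A B → Sol A B U → ∀ a : ℝ, GoodOn A U (Icc a (a + 2 * π)) →
    U (a + 2 * π) = U a → GP A B U

def PerStmt : Prop :=
  ∀ A B U : ℝ → ℝ, Sys A B → Concl A B → Sol A B U → ∀ a : ℝ,
    GoodOn A U (Icc a (a + 3 * π)) → GP A B U

def MulStmt : Prop :=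
  ∀ A B U : ℝ → ℝ, Sys A B → Sol A B U → GoodOn A U univ → ∀ m : ℕ, 0 < m →
    Function.Periodic U (m * (2 * π)) → GP A B U

def MaxStmt : Prop := ∀ A B : ℝ → ℝ, Sys A B → Fam A B → Pole A B ∨ Conf A B

def PoleStmt : Prop :=
  ∀ a0 a1 a2 a3 b : ℝ, b ≠ 0 → Pole (Cub a0 a1 a2 a3) (Lin b 0) → a1 = 0 ∧ a3 = 0

/-! ## 3. the sphere and the plane -/

/-- the point of the sphere with longitude `θ` and slope `u` -/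
noncomputable def Pt (θ u : ℝ) : ℝ × ℝ × ℝ :=
  (cos θ / √(1 + u ^ 2), sin θ / √(1 + u ^ 2), u / √(1 + u ^ 2))

def SphCoreStmt : Prop :=
  ∀ (b1 b2 a1 a2 a3 : ℝ) (γ : ℝ → ℝ × ℝ × ℝ) (θ0 u0 : ℝ), IsSol (fieldS b1 b2 a1 a2 a3) γ →
    γ 0 = Pt θ0 u0 → (Cub a1 a2 a3 0 θ0 = 0 → u0 ≠ 0) →
    ∃ θ u : ℝ → ℝ, θ 0 = θ0 ∧ u 0 = u0 ∧ StrictMono θ ∧ (∀ t, γ t = Pt (θ t) (u t)) ∧
      (∀ t, Cub a1 a2 a3 0 (θ t) = 0 → u t ≠ 0) ∧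
      (∀ t, HasDerivAt θ (u t ^ 2 / (1 + u t ^ 2)) t) ∧
      ∀ t, HasDerivAt u
        (-(Cub a1 a2 a3 0 (θ t) + Lin b1 b2 (θ t) * u t ^ 2) / (1 + u t ^ 2)) t

def RatioStmt : Prop :=
  ∀ A B θ u : ℝ → ℝ, Continuous A → Continuous B → StrictMono θ → Function.Surjective θ →
    (∀ t, HasDerivAt θ (u t ^ 2 / (1 + u t ^ 2)) t) →
    (∀ t, HasDerivAt u (-(A (θ t) + B (θ t) * u t ^ 2) / (1 + u t ^ 2)) t) →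
    ∃ U, Sol A B U ∧ ∀ t, U (θ t) = u t

def SphStmt : Prop :=
  ∀ (b1 b2 a1 a2 a3 : ℝ) (O : Set (ℝ × ℝ × ℝ)), IsOpen O → (O ∩ sph).Nonempty →
    (∀ z ∈ O ∩ sph, OnCycle (fieldS b1 b2 a1 a2 a3) z) → Fam (Cub a1 a2 a3 0) (Lin b1 b2)

def CentreStmt : Prop :=
  ∀ b1 b2 a1 a2 a3 : ℝ, Concl (Cub a1 a2 a3 0) (Lin b1 b2) →
    (∃ r : ℝ, 0 < r ∧ ∀ p : ℝ × ℝ, p ≠ 0 → ‖p‖ < r → OnCycle (fieldP b1 b2 a1 a2 a3) p) ∧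
      ∀ γ : ℝ → ℝ × ℝ, IsSol (fieldP b1 b2 a1 a2 a3) γ → Function.Periodic γ (2 * π)

def GlobStmt : Prop :=
  ∀ b1 b2 a1 a2 a3 : ℝ, Concl (Cub a1 a2 a3 0) (Lin b1 b2) →
    ∀ γ : ℝ → ℝ × ℝ × ℝ, IsSol (fieldS b1 b2 a1 a2 a3) γ → γ 0 ∈ sph →
      (∃ T : ℝ, 0 < T ∧ Function.Periodic γ T) ∨
        ∃ e ∈ closure (range γ), e.2.2 = 0 ∧ fieldS b1 b2 a1 a2 a3 e = 0

/-! ## 4. asymptotic expansions of passage maps -/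

def AsyP (Ta Tb : ℕ → ℝ) (lam : ℝ) (e : ℕ → ℝ) (k7 k8 : ℝ) : Prop :=
  (fun n => Tb n - lam * (Ta n + ∑ i ∈ Finset.range 7, e i * (Ta n)⁻¹ ^ i
    + k7 * (Ta n)⁻¹ ^ 6 * Real.log (Ta n) + k8 * (Ta n)⁻¹ ^ 7 * Real.log (Ta n)))
    =O[atTop] fun n => (Ta n)⁻¹ ^ 7

def Asy (Ta Tb : ℕ → ℝ) (lam m k7 k8 : ℝ) : Prop := ∃ e : ℕ → ℝ, e 0 = m ∧ AsyP Ta Tb lam e k7 k8

def AsyCompStmt : Prop :=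
  ∀ (Ta Tb Tc : ℕ → ℝ) (l1 m1 k7 k8 l2 m2 j7 j8 : ℝ), Tendsto Ta atTop atTop → 0 < l1 →
    Asy Ta Tb l1 m1 k7 k8 → Asy Tb Tc l2 m2 j7 j8 →
    Asy Ta Tc (l1 * l2) (m1 + m2 / l1) (k7 + j7 / l1 ^ 7)
      (k8 + j8 / l1 ^ 8 - 6 * m1 * j7 / l1 ^ 7)

def AsyIdStmt : Prop :=
  ∀ (T : ℕ → ℝ) (lam : ℝ) (e : ℕ → ℝ) (k7 k8 : ℝ), Tendsto T atTop atTop →
    AsyP T T lam e k7 k8 → lam = 1 ∧ (∀ i < 7, e i = 0) ∧ k7 = 0 ∧ k8 = 0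

def AsyBTrStmt : Prop :=
  ∀ (Ta Tb : ℕ → ℝ) (l1 l2 c : ℝ) (e : ℕ → ℝ), Tendsto Ta atTop atTop → 0 < l1 →
    AsyP Ta Tb l1 e 0 0 → e 0 = 0 → AsyP Tb Ta l2 (fun i => if i = 5 then c else 0) 0 0 →
    e 6 = 0

def AsyScaleStmt : Prop :=
  ∀ (Ya Yb : ℕ → ℝ) (μ ν lam : ℝ) (e : ℕ → ℝ) (k7 k8 : ℝ), Tendsto Ya atTop atTop → 0 < μ →
    0 < ν → AsyP (fun n => μ * Ya n) (fun n => ν * Yb n) lam e k7 k8 →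
    AsyP Ya Yb (lam * μ / ν)
      (fun i => e i / μ ^ (i + 1) + if i = 6 then k7 * Real.log μ / μ ^ 7 else 0)
      (k7 / μ ^ 7) (k8 / μ ^ 8)

/-! ## 5. the passing lemma -/

structure ChiOK (χ : ℝ → ℝ) (ci : ℝ) : Prop where
  cont : Continuous χ
  even : ∀ ρ, χ (-ρ) = χ ρ
  bd : ∃ C : ℝ, ∀ ρ, |χ ρ| * (1 + |ρ|) ^ 6 ≤ C ∧ |ρ ^ 6 * χ ρ - ci| * (1 + |ρ|) ^ 6 ≤ C

noncomputable def phi (i : ℕ) (ρ : ℝ) : ℝ := if i = 5 then Real.log |ρ| else ρ ^ i / ρ ^ 5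

structure PData (χ : ℝ → ℝ) (ci : ℝ) (q : ℕ → ℝ) (P p : ℕ → ℝ → ℝ) (c e : ℕ → ℝ) (C : ℝ) :
    Prop where
  der : ∀ i ≤ 6, ∀ ρ, HasDerivAt (P i) (p i ρ) ρ
  recur : ∀ n ≤ 6, ∀ ρ, p n ρ = q n * (ρ ^ n * χ ρ - if n = 6 then ci else 0)
    + ∑ i ∈ Finset.range n, q (n - 1 - i) * ρ ^ (n - 1 - i) * χ ρ * (i * P i ρ - ρ * p i ρ)
  wbd : ∀ i ≤ 6, ∀ ρ, |i * P i ρ - ρ * p i ρ| * (1 + |ρ|) ^ 2 ≤ C * (1 + |ρ|) ^ i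
  pos : ∀ i ≤ 6, ∀ ρ, 1 ≤ ρ → |P i ρ - c i * phi i ρ| * ρ ^ 7 ≤ C * ρ ^ i
  neg : ∀ i ≤ 6, ∀ ρ, ρ ≤ -1 → |P i ρ + e i - c i * phi i ρ| * |ρ| ^ 7 ≤ C * |ρ| ^ i
  c5 : c 5 = q 5 * ci
  e0 : e 0 = q 0 * ∫ ρ, χ ρ
  e1 : e 1 = 0
  e6 : q 0 = 0 → q 1 = 0 → q 2 = 0 → e 6 = q 6 * ∫ ρ, (ρ ^ 6 * χ ρ - ci)

def PDataStmt : Prop :=
  ∀ (χ : ℝ → ℝ) (ci : ℝ) (q : ℕ → ℝ), ChiOK χ ci → ∃ P p c e C, PData χ ci q P p c e C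

/-- the hypotheses of the passing lemma -/
structure PHyp (χ : ℝ → ℝ) (q : ℕ → ℝ) (R : ℝ → ℝ) (a b : ℝ) (T : ℕ → ℝ → ℝ) : Prop where
  ha : a < 0
  hb : 0 < b
  contR : ContinuousOn R (Icc a b)
  lipR : ∃ L : ℝ, ∀ τ ∈ Icc a b, |R τ - q 6| ≤ L * |τ|
  pos : ∀ n, ∀ τ ∈ Icc a b, 0 < T n τ
  ode : ∀ n, ∀ τ ∈ Icc a b, HasDerivAt (T n)
    (T n τ * (∑ k ∈ Finset.range 6, q k * τ ^ k + τ ^ 6 * R τ) * χ (τ * T n τ)) τ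
  lim : Tendsto (fun n => T n a) atTop atTop

/-- the approximate first integral -/
noncomputable def PInt (P : ℕ → ℝ → ℝ) (τ T Λ : ℝ) : ℝ :=
  T - ∑ i ∈ Finset.range 7, P i (τ * T) * T⁻¹ ^ i - T⁻¹ ^ 5 * Λ

def PEstStmt : Prop :=
  ∀ (χ : ℝ → ℝ) (ci : ℝ) (q : ℕ → ℝ) (P p : ℕ → ℝ → ℝ) (c e : ℕ → ℝ) (C : ℝ) (R : ℝ → ℝ)
    (a b : ℝ) (T : ℕ → ℝ → ℝ), ChiOK χ ci → PData χ ci q P p c e C → PHyp χ q R a b T →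
    ∃ Λa Λb k : ℝ, 0 < k ∧ (∀ n, k * T n a ≤ T n b) ∧
      (fun n => PInt P b (T n b) Λb - PInt P a (T n a) Λa) =O[atTop] fun n => (T n a)⁻¹ ^ 7

def PBdStmt : Prop :=
  ∀ (χ : ℝ → ℝ) (ci : ℝ) (q : ℕ → ℝ) (P p : ℕ → ℝ → ℝ) (c e : ℕ → ℝ) (C : ℝ) (a b Λa Λb k : ℝ)
    (Ta Tb : ℕ → ℝ), PData χ ci q P p c e C → a < 0 → 0 < b → 0 < k → (∀ n, k * Ta n ≤ Tb n) →
    Tendsto Ta atTop atTop →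
    ((fun n => PInt P b (Tb n) Λb - PInt P a (Ta n) Λa) =O[atTop] fun n => (Ta n)⁻¹ ^ 7) →
    ∃ ca cb : ℝ, (fun n => Tb n - cb * (Tb n)⁻¹ ^ 5 - c 5 * (Tb n)⁻¹ ^ 5 * Real.log (Tb n)
      - (Ta n + ∑ i ∈ Finset.range 7, e i * (Ta n)⁻¹ ^ i - ca * (Ta n)⁻¹ ^ 5
        - c 5 * (Ta n)⁻¹ ^ 5 * Real.log (Ta n))) =O[atTop] fun n => (Ta n)⁻¹ ^ 7

def PInvStmt : Prop :=
  ∀ (Ta Tb : ℕ → ℝ) (e : ℕ → ℝ) (ca cb κ : ℝ), Tendsto Ta atTop atTop → Tendsto Tb atTop atTop →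
    e 1 = 0 →
    ((fun n => Tb n - cb * (Tb n)⁻¹ ^ 5 - κ * (Tb n)⁻¹ ^ 5 * Real.log (Tb n)
      - (Ta n + ∑ i ∈ Finset.range 7, e i * (Ta n)⁻¹ ^ i - ca * (Ta n)⁻¹ ^ 5
        - κ * (Ta n)⁻¹ ^ 5 * Real.log (Ta n))) =O[atTop] fun n => (Ta n)⁻¹ ^ 7) →
    ∃ e' : ℕ → ℝ, AsyP Ta Tb 1 e' (-5 * κ * e 0) (15 * κ * e 0 ^ 2) ∧ e' 0 = e 0 ∧
      (e 0 = 0 → e' 6 = e 6)

def PassStmt : Prop :=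
  ∀ (χ : ℝ → ℝ) (ci : ℝ) (q : ℕ → ℝ) (R : ℝ → ℝ) (a b : ℝ) (T : ℕ → ℝ → ℝ), ChiOK χ ci →
    PHyp χ q R a b T →
    ∃ e : ℕ → ℝ, AsyP (fun n => T n a) (fun n => T n b) 1 e (-5 * (q 5 * ci) * e 0)
        (15 * (q 5 * ci) * e 0 ^ 2) ∧ e 0 = q 0 * ∫ ρ, χ ρ ∧
      (q 0 = 0 → q 1 = 0 → q 2 = 0 → e 6 = q 6 * ∫ ρ, (ρ ^ 6 * χ ρ - ci))

/-- the concrete kernel; `s = 1` or `s = -1` -/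
noncomputable def chi (s ρ : ℝ) : ℝ :=
  ρ ^ 2 * (ρ ^ 2 + cb (ρ ^ 6 + s)) / (ρ ^ 4 + ρ ^ 2 * cb (ρ ^ 6 + s) + cb (ρ ^ 6 + s) ^ 2) - 2 / 3

def ChiStmt : Prop := ∀ s : ℝ, (s = 1 ∨ s = -1) → ChiOK (chi s) (-s / 9)

def ChiIntStmt : Prop :=
  ∀ s : ℝ, (s = 1 ∨ s = -1) → (∫ ρ, chi s ρ) < 0 ∧ (∫ ρ, (ρ ^ 6 * chi s ρ - -s / 9)) ≠ 0

/-! ## 6. simple cusps -/

def BootStmt : Prop :=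
  ∀ A B V : ℝ → ℝ, An A → Continuous B → Sol A B V → A 0 = 0 → V 0 = 0 →
    (fun t => V (t ^ 3) ^ 3 + 3 / 2 * deriv A 0 * t ^ 6) =O[𝓝 0] fun t : ℝ => t ^ 7

def SignStmt : Prop :=
  ∀ A B V : ℝ → ℝ, An A → Continuous B → Sol A B V → ∀ z : ℝ, Touch A V z → deriv A z ≠ 0 →
    ∀ᶠ x in 𝓝[≠] z, deriv A z * V x < 0

def CuspWStmt : Prop :=
  ∀ (ε : ℝ) (A B V : ℝ → ℝ), (ε = 1 ∨ ε = -1) → An A → An B → Sol A B V → A 0 = 0 →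
    deriv A 0 = -2 * ε / 3 → V 0 = 0 →
    ∃ W : ℝ → ℝ, AnalyticAt ℝ W 0 ∧ W 0 = ε ∧ ∀ᶠ t in 𝓝 (0 : ℝ), V (t ^ 3) = t ^ 2 * W t

def CuspXDStmt : Prop :=
  ∀ (ε : ℝ) (A B V : ℝ → ℝ), (ε = 1 ∨ ε = -1) → An A → An B → Sol A B V → A 0 = 0 →
    deriv A 0 = -2 * ε / 3 → V 0 = 0 →
    ∃ X D : ℝ → ℝ, AnalyticAt ℝ X 0 ∧ AnalyticAt ℝ D 0 ∧ X 0 = 1 ∧ D 0 = 1 ∧
      ∀ᶠ τ in 𝓝 (0 : ℝ), V (τ ^ 3 * X τ) = ε * τ ^ 2 * D τ ∧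
        B (τ ^ 3 * X τ) * (3 * X τ + τ * deriv X τ) = -(3 / 2) * ε * deriv D τ ∧
        A (τ ^ 3 * X τ) * (3 * X τ + τ * deriv X τ)
          = -ε * τ ^ 3 * D τ ^ 2 * (2 * D τ - τ * deriv D τ / 2)

def CuspODEStmt : Prop :=
  ∀ (ε : ℝ) (A B V U X D : ℝ → ℝ) (τ X' D' : ℝ), (ε = 1 ∨ ε = -1) → Sol A B V → Sol A B U →
    HasDerivAt X X' τ → HasDerivAt D D' τ → 0 < D τ → V (τ ^ 3 * X τ) = ε * τ ^ 2 * D τ →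
    B (τ ^ 3 * X τ) * (3 * X τ + τ * X') = -(3 / 2) * ε * D' →
    U (τ ^ 3 * X τ) < V (τ ^ 3 * X τ) →
    HasDerivAt (fun σ => √(D σ) * (V (σ ^ 3 * X σ) ^ 3 - U (σ ^ 3 * X σ) ^ 3) ^ (-(1 / 6) : ℝ))
      (√(D τ) * (V (τ ^ 3 * X τ) ^ 3 - U (τ ^ 3 * X τ) ^ 3) ^ (-(1 / 6) : ℝ)
        * (-(3 / 4) * D' / D τ)
        * chi (-ε) (τ * (√(D τ) * (V (τ ^ 3 * X τ) ^ 3 - U (τ ^ 3 * X τ) ^ 3) ^ (-(1 / 6) : ℝ))))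
      τ

def JetStmt : Prop :=
  ∀ (ε : ℝ) (A B X D : ℝ → ℝ), (ε = 1 ∨ ε = -1) → AnalyticAt ℝ A 0 → AnalyticAt ℝ B 0 →
    AnalyticAt ℝ X 0 → AnalyticAt ℝ D 0 → A 0 = 0 → deriv A 0 = -2 * ε / 3 → X 0 = 1 → D 0 = 1 →
    (∀ᶠ τ in 𝓝 (0 : ℝ),
        B (τ ^ 3 * X τ) * (3 * X τ + τ * deriv X τ) = -(3 / 2) * ε * deriv D τ ∧
        A (τ ^ 3 * X τ) * (3 * X τ + τ * deriv X τ)
          = -ε * τ ^ 3 * D τ ^ 2 * (2 * D τ - τ * deriv D τ / 2)) →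
    ∃ (q : ℕ → ℝ) (R : ℝ → ℝ), AnalyticAt ℝ R 0 ∧ R 0 = q 6 ∧
      (∀ᶠ τ in 𝓝 (0 : ℝ), -(3 / 4) * deriv D τ / D τ
        = ∑ k ∈ Finset.range 6, q k * τ ^ k + τ ^ 6 * R τ) ∧
      q 0 = 3 / 2 * ε * B 0 ∧
      q 5 = 23328 / 1925 * B 0 ^ 2 *
        (deriv (deriv A) 0 / 2 * B 0 + ε * deriv B 0 + 36 / 343 * B 0 ^ 4) ∧
      (B 0 = 0 → q 1 = 0 ∧ q 2 = 0 ∧
        q 6 = 9 / 8 * deriv (deriv A) 0 * deriv B 0 + 3 / 4 * ε * deriv (deriv B) 0)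

/-- the invariant of a simple cusp -/
noncomputable def gam (A B : ℝ → ℝ) (z : ℝ) : ℝ :=
  (deriv (deriv A) z / 2 * B z - 3 / 2 * deriv A z * deriv B z) / B z ^ 4 + 36 / 343

def CuspStmt : Prop :=
  ∀ ε : ℝ, (ε = 1 ∨ ε = -1) → ∃ Cε : ℝ, Cε ≠ 0 ∧
    ∀ (A B V : ℝ → ℝ) (U : ℕ → ℝ → ℝ) (z : ℝ), An A → An B → Top0 A B V U → Touch A V z →
      ε * deriv A z < 0 → ∀ η : ℝ, 0 < η →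
      ∃ a b : ℝ, z - η < a ∧ a < z ∧ z < b ∧ b < z + η ∧ V a ≠ 0 ∧ V b ≠ 0 ∧
        ∃ (lam w : ℝ) (e : ℕ → ℝ), 0 < lam ∧ 0 < w ∧ e 0 = -ε * w * B z ∧
          AsyP (Yv V U a) (Yv V U b) lam e (-5 * (Cε * gam A B z) * e 0 ^ 7)
            (15 * (Cε * gam A B z) * e 0 ^ 8) ∧
          (B z = 0 → e 6 = 0 →
            deriv (deriv A) z * deriv B z = deriv A z * deriv (deriv B) z)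

/-- regular transit, in the two section coordinates -/
def TrStmt : Prop :=
  ∀ (A B V : ℝ → ℝ) (U : ℕ → ℝ → ℝ) (a b : ℝ), An A → An B → Top0 A B V U → a ≤ b →
    GoodOn A V (Icc a b) → V a ≠ 0 → V b ≠ 0 →
    (∃ lam c : ℝ, 0 < lam ∧
      AsyP (Yv V U a) (Yv V U b) lam (fun i => if i = 5 then c else 0) 0 0) ∧
    ∃ Φ : ℝ → ℝ, AnalyticAt ℝ Φ 0 ∧ Φ 0 = 0 ∧ 0 < deriv Φ 0 ∧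
      ∀ᶠ n in atTop, V b - U n b = Φ (V a - U n a)

def C1Stmt : Prop :=
  ∀ (A B V : ℝ → ℝ) (U : ℕ → ℝ → ℝ) (z : ℝ), An A → An B → Top A B V U → One A V z →
    Function.Periodic A (2 * π) → deriv A z ≠ 0 →
    B z = 0 ∧ deriv (deriv A) z * deriv B z = deriv A z * deriv (deriv B) z

/-- the relation forced by two touches -/
def Rel2 (A B : ℝ → ℝ) (z1 z2 : ℝ) : Prop :=
  ∃ w1 w2 : ℝ, 0 < w1 ∧ 0 < w2 ∧ w1 * B z1 + w2 * B z2 = 0 ∧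
    (B z1 ≠ 0 → gam A B z1 = gam A B z2)

/-- the relations forced by three touches -/
def Rel3 (A B : ℝ → ℝ) (z1 z2 z3 : ℝ) : Prop :=
  ∃ w1 w2 w3 : ℝ, 0 < w1 ∧ 0 < w2 ∧ 0 < w3 ∧ w1 * B z1 + w2 * B z2 + w3 * B z3 = 0 ∧
    (B z1 ≠ 0 → B z2 ≠ 0 → gam A B z1 * (w1 * B z1) ^ 6 = gam A B z2 * (w2 * B z2) ^ 6) ∧
    (B z1 ≠ 0 → B z3 ≠ 0 → gam A B z1 * (w1 * B z1) ^ 6 = gam A B z3 * (w3 * B z3) ^ 6) ∧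
    (B z2 ≠ 0 → B z3 ≠ 0 → gam A B z2 * (w2 * B z2) ^ 6 = gam A B z3 * (w3 * B z3) ^ 6)

def C2Stmt : Prop :=
  ∀ (A B V : ℝ → ℝ) (U : ℕ → ℝ → ℝ) (z1 z2 : ℝ), An A → An B → Top A B V U →
    Function.Periodic A (2 * π) → Two A V z1 z2 → Rel2 A B z1 z2

def C3Stmt : Prop :=
  ∀ (A B V : ℝ → ℝ) (U : ℕ → ℝ → ℝ) (z1 z2 z3 : ℝ), An A → An B → Top A B V U →
    Function.Periodic A (2 * π) → Three A V z1 z2 z3 → Rel3 A B z1 z2 z3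

/-! ## 7. double zeros -/

def D1Stmt : Prop :=
  ∀ (A B V : ℝ → ℝ) (U : ℕ → ℝ → ℝ) (δ c C : ℝ), Continuous A → Continuous B → Top0 A B V U →
    0 < δ → 0 < c → (∀ x ∈ Icc (-δ) δ, c * x ^ 2 ≤ A x ∧ A x ≤ C * x ^ 2) → V 0 = 0 →
    (∀ x ∈ Icc (-δ) δ, x ≠ 0 → V x < 0) → ∀ a ∈ Ico (-δ) 0, ∀ b ∈ Ioc 0 δ,
      Tendsto (fun n => (V b - U n b) / (V a - U n a)) atTop (𝓝 0)

def KappaStmt : Prop :=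
  ∀ A B G V : ℝ → ℝ, AnalyticAt ℝ G 0 → AnalyticAt ℝ B 0 → 0 < G 0 →
    (∀ᶠ x in 𝓝 (0 : ℝ), A x = x ^ 2 * G x) → Sol A B V → V 0 = 0 →
    (∀ᶠ x in 𝓝[≠] (0 : ℝ), x * V x < 0) →
    ∃ κ : ℝ → ℝ, AnalyticAt ℝ κ 0 ∧ κ 0 < 0 ∧ κ 0 ^ 3 + B 0 * κ 0 ^ 2 + G 0 = 0 ∧
      ∀ᶠ x in 𝓝 (0 : ℝ), V x = x * κ x

/-- the local model at a double zero, in the coordinate `ξ = V` -/
structure Model (m : ℝ → ℝ) (d0 : ℝ) (u : ℕ → ℝ → ℝ) : Prop where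
  dpos : 0 < d0
  an : AnalyticAt ℝ m 0
  ode : ∀ n, ∀ ξ ∈ Icc (-d0) d0, HasDerivAt (fun y => u n y ^ 3)
    (3 * ((1 + m ξ) * ξ ^ 2 - m ξ * u n ξ ^ 2)) ξ
  lt : ∀ n, ∀ ξ ∈ Icc (-d0) d0, u n ξ < ξ
  unif : TendstoUniformlyOn u (fun ξ => ξ) atTop (Icc (-d0) d0)

/-- the return along the regular part of the polycycle -/
def ModelTr (d0 : ℝ) (u : ℕ → ℝ → ℝ) : Prop :=
  ∀ d ∈ Ioc 0 d0, ∃ Φ : ℝ → ℝ, AnalyticAt ℝ Φ 0 ∧ Φ 0 = 0 ∧ 0 < deriv Φ 0 ∧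
    ∀ᶠ n in atTop, d - u n d = Φ (-d - u n (-d))

def ModelStmt : Prop :=
  ∀ (A B V κ : ℝ → ℝ) (U : ℕ → ℝ → ℝ), AnalyticAt ℝ B 0 → Top0 A B V U → AnalyticAt ℝ κ 0 →
    κ 0 < 0 → (∀ᶠ x in 𝓝 (0 : ℝ), V x = x * κ x) →
    ∃ (m h : ℝ → ℝ) (d0 : ℝ), Model m d0 (fun n ξ => U n (h ξ)) ∧
      (∀ ξ ∈ Icc (-d0) d0, V (h ξ) = ξ ∧ |h ξ| < 1 ∧ (ξ ≠ 0 → ξ * h ξ < 0)) ∧
      ∀ᶠ x in 𝓝 (0 : ℝ), B x = m (V x) * deriv V x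

def BarStmt : Prop := ∀ (m : ℝ → ℝ) (d0 : ℝ) (u : ℕ → ℝ → ℝ), Model m d0 u → m 0 < 3

def Dh (m0 u ξ : ℝ) : ℝ := u ^ 2 + (1 + m0) * ξ * (u + ξ)

noncomputable def Theta (m0 w : ℝ) : ℝ :=
  2 / √((3 - m0) * (1 + m0)) *
    arctan ((2 * (3 + 2 * m0) * w - (3 + m0)) / √((3 - m0) * (1 + m0)))

/-- first integral of the frozen model -/
noncomputable def LL (m0 u ξ : ℝ) : ℝ :=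
  1 / (3 + 2 * m0) * Real.log (ξ - u) + (1 + m0) / (3 + 2 * m0) * Real.log (Dh m0 u ξ)
    - (1 + m0) * m0 / (3 + 2 * m0) * Theta m0 (ξ / (ξ - u))

def LLderStmt : Prop :=
  ∀ m0 : ℝ, -1 < m0 → m0 < 3 →
    (∃ c C : ℝ, 0 < c ∧ ∀ u ξ : ℝ, c * (ξ ^ 2 + (ξ - u) ^ 2) ≤ Dh m0 u ξ ∧
      Dh m0 u ξ ≤ C * (ξ ^ 2 + (ξ - u) ^ 2)) ∧
    ContinuousOn (fun p : ℝ × ℝ => LL m0 p.1 p.2) {p | p.1 < p.2} ∧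
    ∀ (u : ℝ → ℝ) (u' ξ m : ℝ), HasDerivAt u u' ξ → u ξ < ξ → u ξ ≠ 0 →
      u ξ ^ 2 * u' = (1 + m) * ξ ^ 2 - m * u ξ ^ 2 →
      HasDerivAt (fun y => LL m0 (u y) y) (-(m - m0) * (u ξ + ξ) / Dh m0 (u ξ) ξ) ξ

def LLbdStmt : Prop :=
  ∀ (m0 d : ℝ) (Φ : ℝ → ℝ), -1 < m0 → m0 < 3 → 0 < d → AnalyticAt ℝ Φ 0 → Φ 0 = 0 →
    0 < deriv Φ 0 → ∃ c0 c1 C : ℝ, ∀ᶠ s in 𝓝[>] (0 : ℝ),
      |LL m0 (d - Φ s) d - LL m0 (-d - s) (-d) - c0 - c1 * s| ≤ C * s ^ 2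

/-- the corrected first integral `K` and the size of `s = ξ - u` in terms of `s0 = - u 0` -/
structure Core (m0 : ℝ) (mu : ℝ → ℝ) (d : ℝ) (u K : ℕ → ℝ → ℝ) : Prop where
  cont : ∀ n, ContinuousOn (K n) (Icc (-d) d)
  der : ∀ n, ∀ ξ ∈ Ioo (-d) d, u n ξ ≠ 0 → HasDerivAt (K n)
    (-mu ξ * (ξ - u n ξ) * (2 * u n ξ + ξ) / ((3 + 2 * m0) * Dh m0 (u n ξ) ξ)) ξ
  fin : ∀ n, {ξ ∈ Icc (-d) d | u n ξ = 0}.Finite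
  size : ∃ C : ℝ, 0 < C ∧ ∀ n, ∀ ξ ∈ Icc (-d) d,
    ξ - u n ξ ≤ C * (-u n 0) ∧ (|ξ| ≤ -u n 0 → -u n 0 ≤ C * (ξ - u n ξ)) ∧
    (ξ - u n ξ) * |ξ| ^ (2 + 2 * m0) ≤ C * (-u n 0) ^ (3 + 2 * m0) ∧
    (-u n 0 ≤ |ξ| → (-u n 0) ^ (3 + 2 * m0) ≤ C * ((ξ - u n ξ) * |ξ| ^ (2 + 2 * m0)))
  bdry : ∃ c1 C : ℝ, ∀ᶠ n in atTop,
    |K n d - K n (-d) - c1 * (-d - u n (-d))| ≤ C * (-d - u n (-d)) ^ 2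

def CoreAll (m0 : ℝ) (mu : ℝ → ℝ) (d0 : ℝ) (u : ℕ → ℝ → ℝ) : Prop :=
  ∃ d1 : ℝ, 0 < d1 ∧ d1 ≤ d0 ∧ ∀ d ∈ Ioc 0 d1, ∃ K, Core m0 mu d u K

def CoreStmt : Prop :=
  ∀ (m mu : ℝ → ℝ) (m0 d0 : ℝ) (u : ℕ → ℝ → ℝ), Model m d0 u → ModelTr d0 u → -1 < m0 → m0 < 3 →
    AnalyticAt ℝ mu 0 → (∀ ξ, m ξ = m0 + ξ * mu ξ) → CoreAll m0 mu d0 u

def J1Stmt : Prop :=
  ∀ (m mu : ℝ → ℝ) (m0 d0 : ℝ) (u : ℕ → ℝ → ℝ), Model m d0 u → -1 < m0 → m0 < 3 →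
    AnalyticAt ℝ mu 0 → (∀ ξ, m ξ = m0 + ξ * mu ξ) → CoreAll m0 mu d0 u → mu 0 = 0

def J2aStmt : Prop :=
  ∀ (m mt : ℝ → ℝ) (m0 d0 : ℝ) (u : ℕ → ℝ → ℝ), Model m d0 u → -1 / 2 < m0 → m0 < 3 → m0 ≠ 0 →
    AnalyticAt ℝ mt 0 → (∀ ξ, m ξ = m0 + ξ * (ξ * mt ξ)) →
    CoreAll m0 (fun ξ => ξ * mt ξ) d0 u → mt 0 = 0

def J2bStmt : Prop :=
  ∀ (m mt : ℝ → ℝ) (d0 : ℝ) (u : ℕ → ℝ → ℝ), Model m d0 u → AnalyticAt ℝ mt 0 →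
    CoreAll (-1 / 2) (fun ξ => ξ * mt ξ) d0 u → mt 0 = 0

def J2cStmt : Prop :=
  ∀ (m mt : ℝ → ℝ) (m0 d0 : ℝ) (u : ℕ → ℝ → ℝ), Model m d0 u → ModelTr d0 u → -1 < m0 →
    m0 < -1 / 2 → AnalyticAt ℝ mt 0 → (∀ ξ, m ξ = m0 + ξ * (ξ * mt ξ)) →
    CoreAll m0 (fun ξ => ξ * mt ξ) d0 u → mt 0 = 0

/-- the second-order corrector and its derivative along solutions of the model -/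
noncomputable def Pi2 (m0 u ξ : ℝ) : ℝ :=
  (u - ξ) * ((1 + m0) * (4 + 5 * m0) * ξ ^ 3 + 2 * (1 + m0) * (4 + 5 * m0) * u * ξ ^ 2
      + (4 + 5 * m0) * (3 + 2 * m0) * u ^ 2 * ξ + (2 + m0) * (3 + 2 * m0) * u ^ 3)
    / ((1 + m0) * (3 + 2 * m0) * (1 + 2 * m0) * (10 + 9 * m0) * Dh m0 u ξ)

noncomputable def Gam2 (m0 u ξ : ℝ) : ℝ :=
  (6 * (1 + m0) * (1 + 2 * m0) * ξ ^ 3 + 12 * (1 + m0) ^ 2 * u * ξ ^ 2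
      + (8 + 13 * m0 + 3 * m0 ^ 2) * u ^ 2 * ξ + 2 * (2 + m0) * u ^ 3)
    / ((1 + m0) * (1 + 2 * m0) * (10 + 9 * m0) * Dh m0 u ξ ^ 2)

def Pi2Stmt : Prop :=
  ∀ (m0 : ℝ) (u : ℝ → ℝ) (u' ξ m : ℝ), -1 < m0 → m0 ≠ -1 / 2 → Dh m0 (u ξ) ξ ≠ 0 →
    HasDerivAt u u' ξ → u ξ ≠ 0 → u ξ ^ 2 * u' = (1 + m) * ξ ^ 2 - m * u ξ ^ 2 →
    HasDerivAt (fun y => Pi2 m0 (u y) y)
      (ξ * (ξ - u ξ) * (2 * u ξ + ξ) / ((3 + 2 * m0) * Dh m0 (u ξ) ξ)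
        + 3 * m0 / ((1 + 2 * m0) * (10 + 9 * m0)) * (ξ - u ξ) ^ 3 / Dh m0 (u ξ) ξ
        + (m - m0) * Gam2 m0 (u ξ) ξ * (ξ ^ 2 - u ξ ^ 2)) ξ

def TrigStmt : Prop :=
  ∀ (a a' b0 b1 m0 : ℝ) (V m mt : ℝ → ℝ), a ≠ 0 → AnalyticAt ℝ V 0 → V 0 = 0 → deriv V 0 ≠ 0 →
    (∀ᶠ x in 𝓝 (0 : ℝ), Cub 0 0 a a' x = -V x ^ 2 * (deriv V x + Lin b0 b1 x)) →
    (∀ᶠ x in 𝓝 (0 : ℝ), Lin b0 b1 x = m (V x) * deriv V x) → AnalyticAt ℝ mt 0 →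
    (∀ ξ, m ξ = m0 + ξ * (ξ * mt ξ)) → (m0 ≠ 0 → mt 0 = 0) →
    (b0 = 0 ∧ b1 = 0) ∨ (b1 = 0 ∧ a' = 0)

def DblCoreStmt : Prop :=
  ∀ (a a' b0 b1 : ℝ) (V : ℝ → ℝ) (U : ℕ → ℝ → ℝ), 0 < a → Top (Cub 0 0 a a') (Lin b0 b1) V U →
    One (Cub 0 0 a a') V 0 → (b0 = 0 ∧ b1 = 0) ∨ (b1 = 0 ∧ a' = 0)

/-! ## 8. triple zeros -/

def T1Stmt : Prop :=
  ∀ (A B V : ℝ → ℝ) (U : ℕ → ℝ → ℝ) (δ c C : ℝ), Top0 A B V U → 0 < δ → 0 < c →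
    (∀ x ∈ Icc (-δ) δ, c * x ^ 4 ≤ -x * A x ∧ -x * A x ≤ C * x ^ 4 ∧ c ≤ -B x ∧ -B x ≤ C) →
    V 0 = 0 → ∃ d c' C' : ℝ, 0 < d ∧ d ≤ δ ∧ 0 < c' ∧
      ∀ x ∈ Icc (-d) d, c' * x ^ 2 ≤ x * V x ∧ x * V x ≤ C' * x ^ 2

/-- data near a triple zero: `al = -A / V^3`, `be = -B`, `E = exp (∫ 2 al)`, `ψ = E (V - U)` -/
structure TSeq (d c C : ℝ) (V al be E : ℝ → ℝ) (U : ℕ → ℝ → ℝ) : Prop where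
  dpos : 0 < d
  cpos : 0 < c
  contV : ContinuousOn V (Icc (-d) d)
  contE : ContinuousOn E (Icc (-d) d)
  contU : ∀ n, ContinuousOn (U n) (Icc (-d) d)
  bdV : ∀ x ∈ Icc (-d) d, c * x ^ 2 ≤ x * V x ∧ x * V x ≤ C * x ^ 2
  V0 : V 0 = 0
  bdE : ∀ x ∈ Icc (-d) d, c ≤ E x ∧ E x ≤ C
  bdal : ∀ x ∈ Icc (-d) d, x ≠ 0 → c ≤ al x ∧ al x ≤ C
  bdbe : ∀ x ∈ Icc (-d) d, c ≤ be x ∧ be x ≤ C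
  lt : ∀ n, ∀ x ∈ Icc (-d) d, U n x < V x
  unif : TendstoUniformlyOn U V atTop (Icc (-d) d)
  fin : ∀ n, {x ∈ Icc (-d) d | U n x = 0}.Finite
  derU : ∀ n, ∀ x ∈ Ioo (-d) d, x ≠ 0 → U n x ≠ 0 →
    HasDerivAt (U n) (be x + al x * V x ^ 3 / U n x ^ 2) x ∧
      c ≤ be x + al x * V x ^ 3 / U n x ^ 2
  derP : ∀ n, ∀ x ∈ Ioo (-d) d, x ≠ 0 → U n x ≠ 0 →
    HasDerivAt (fun y => E y * (V y - U n y))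
      (-E x * al x * (V x - U n x) ^ 2 * (V x + 2 * U n x) / U n x ^ 2) x

def TSeqStmt : Prop :=
  ∀ (A B V : ℝ → ℝ) (U : ℕ → ℝ → ℝ) (δ c C : ℝ), Continuous A → Top0 A B V U → 0 < δ → 0 < c →
    (∀ x ∈ Icc (-δ) δ, c * x ^ 4 ≤ -x * A x ∧ -x * A x ≤ C * x ^ 4 ∧ c ≤ -B x ∧ -B x ≤ C) →
    V 0 = 0 → ∃ (d c' C' : ℝ) (al be E : ℝ → ℝ), d ≤ δ ∧ TSeq d c' C' V al be E U

/-- variation bounds, `s0 = V (-d) - U n (-d)` -/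
def TVar (d : ℝ) (V E : ℝ → ℝ) (U : ℕ → ℝ → ℝ) : Prop :=
  ∃ K : ℝ, 0 < K ∧ ∀ᶠ n in atTop, ∀ x ∈ Icc (-d) d,
    V x - U n x ≤ K * (V (-d) - U n (-d)) ∧
    |E x * (V x - U n x) - E (-d) * (V (-d) - U n (-d))|
      ≤ K * (V (-d) - U n (-d)) * √(V (-d) - U n (-d)) ∧
    ∀ y ∈ Icc x d, E y * (V y - U n y) - E x * (V x - U n x)
      ≤ K * (V (-d) - U n (-d)) ^ 2 * (1 + |Real.log (V (-d) - U n (-d))|)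

def T2aStmt : Prop :=
  ∀ (d c C : ℝ) (V al be E : ℝ → ℝ) (U : ℕ → ℝ → ℝ), TSeq d c C V al be E U → TVar d V E U

def T2bStmt : Prop :=
  ∀ (d c C : ℝ) (V al be E : ℝ → ℝ) (U : ℕ → ℝ → ℝ), TSeq d c C V al be E U → TVar d V E U →
    ∀ Φ : ℝ → ℝ, AnalyticAt ℝ Φ 0 → Φ 0 = 0 → 0 < deriv Φ 0 →
      ¬ ∀ᶠ n in atTop, V (-d) - U n (-d) = Φ (V d - U n d)

def TplCoreStmt : Prop :=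
  ∀ (K b0 b1 : ℝ) (V : ℝ → ℝ) (U : ℕ → ℝ → ℝ), K < 0 → b0 < 0 →
    Top (Cub 0 0 0 K) (Lin b0 b1) V U → ¬ One (Cub 0 0 0 K) V 0

/-! ## 9. global combinatorics -/

def Simple (A : ℝ → ℝ) : Prop := ∀ x, A x = 0 → deriv A x ≠ 0

def ClassStmt : Prop :=
  ∀ (A : ℝ → ℝ) (z : ℝ), IsCub A → Simple A → A z = 0 →
    (∀ x ∈ Ioo z (z + π), 0 < deriv A z * A x) ∨
      ∃ z' z'' : ℝ, z < z' ∧ z' < z'' ∧ z'' < z + π ∧ A z' = 0 ∧ A z'' = 0 ∧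
        deriv A z * deriv A z' < 0 ∧ 0 < deriv A z * deriv A z'' ∧
        (∀ x ∈ Ioo z z', 0 < deriv A z * A x) ∧ (∀ x ∈ Ioo z' z'', deriv A z * A x < 0) ∧
        ∀ x ∈ Ioo z'' (z + π), 0 < deriv A z * A x

def RedStmt : Prop :=
  ∀ A B : ℝ → ℝ, IsCub A → IsLin B → Simple A → Conf A B →
    ∃ V U, Top A B V U ∧ ((∃ z, One A V z) ∨ (∃ z1 z2, Two A V z1 z2) ∨
      ∃ z1 z2 z3, Three A V z1 z2 z3)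

def SingleStmt : Prop :=
  ∀ (A B V : ℝ → ℝ) (U : ℕ → ℝ → ℝ) (z : ℝ), IsCub A → IsLin B → Top A B V U → One A V z →
    deriv A z ≠ 0 → Concl A B

def DblFinStmt : Prop :=
  ∀ a a' b0 b1 : ℝ, a ≠ 0 → Conf (Cub 0 0 a a') (Lin b0 b1) → Concl (Cub 0 0 a a') (Lin b0 b1)

def TplFinStmt : Prop :=
  ∀ K b0 b1 : ℝ, K ≠ 0 → Conf (Cub 0 0 0 K) (Lin b0 b1) → Concl (Cub 0 0 0 K) (Lin b0 b1)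

def DeltaStmt : Prop :=
  ∀ (a0 a1 a2 a3 b : ℝ) (V : ℝ → ℝ), 0 ≤ a1 → 0 < a3 → Sol (Cub a0 a1 a2 a3) (Lin b 0) V →
    Function.Periodic V (2 * π) → ∀ x ∈ Ioo (-(π / 2)) (π / 2), x ≠ 0 → V (π - x) < V x

/-- the cusp invariant as a polynomial in `tan z` -/
def Gp (a0 a1 a2 a3 p : ℝ) : ℝ :=
  2 * (a2 - a0) + 3 * (2 * a3 - a1) * p + (7 * a3 - a1) * p ^ 3 + 3 * a3 * p ^ 5

def GamStmt : Prop :=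
  ∀ a0 a1 a2 a3 b z : ℝ, b ≠ 0 → cos z ≠ 0 → Cub a0 a1 a2 a3 z = 0 →
    gam (Cub a0 a1 a2 a3) (Lin b 0) z = Gp a0 a1 a2 a3 (tan z) / (2 * b ^ 3) + 36 / 343 ∧
    a0 + a1 * tan z + a2 * tan z ^ 2 + a3 * tan z ^ 3 = 0 ∧
    deriv (Cub a0 a1 a2 a3) z = cos z * (a1 + 2 * a2 * tan z + 3 * a3 * tan z ^ 2)

def Mono2Stmt : Prop :=
  ∀ (a0 a1 a2 a3 b z1 z2 : ℝ) (V : ℝ → ℝ), b ≠ 0 →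
    ((0 < a3 ∧ a1 ≤ 2 * a3) ∨ (a3 = 0 ∧ a1 ≠ 0)) → Two (Cub a0 a1 a2 a3) V z1 z2 →
    ¬ Rel2 (Cub a0 a1 a2 a3) (Lin b 0) z1 z2

def Mono3Stmt : Prop :=
  ∀ (a0 a1 a2 a3 b z1 z2 z3 : ℝ) (V : ℝ → ℝ), b ≠ 0 →
    ((0 < a3 ∧ a1 ≤ 2 * a3) ∨ (a3 = 0 ∧ a1 ≠ 0)) → Three (Cub a0 a1 a2 a3) V z1 z2 z3 →
    ¬ Rel3 (Cub a0 a1 a2 a3) (Lin b 0) z1 z2 z3

def Non2Stmt : Prop :=
  ∀ (a0 a1 a2 a3 b z1 z2 : ℝ) (V : ℝ → ℝ), b ≠ 0 → 0 < a3 → 2 * a3 < a1 →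
    Sol (Cub a0 a1 a2 a3) (Lin b 0) V → Function.Periodic V (2 * π) →
    Two (Cub a0 a1 a2 a3) V z1 z2 → ¬ Rel2 (Cub a0 a1 a2 a3) (Lin b 0) z1 z2

def Non3Stmt : Prop :=
  ∀ (a0 a1 a2 a3 b z1 z2 z3 : ℝ) (V : ℝ → ℝ), 0 < a3 → 0 ≤ a1 →
    Sol (Cub a0 a1 a2 a3) (Lin b 0) V → Function.Periodic V (2 * π) →
    ¬ Three (Cub a0 a1 a2 a3) V z1 z2 z3

def MainStmt : Prop :=
  ∀ A B : ℝ → ℝ, IsCub A → IsLin B → (∃ x, A x ≠ 0) → Fam A B → Concl A B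

end Pool.Agent.MP_c2f0e4_an
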