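import Pool.Agent.MP_c2f0e4_an.Iface

open Set Filter Topology Real Asymptotics

namespace Pool.Agent.MP_c2f0e4_an

/-- the cubic form left after removing the diagonal value of `Gam2 * (u + ξ)` -/
def j2cP (m0 ξ s : ℝ) : ℝ :=
  (90 + 291 * m0 + 229 * m0 ^ 2 - 4 * m0 ^ 3 - 36 * m0 ^ 4) * ξ ^ 3
    + (-180 - 504 * m0 - 346 * m0 ^ 2 + 10 * m0 ^ 3 + 42 * m0 ^ 4) * ξ ^ 2 * s
    + (108 + 261 * m0 + 137 * m0 ^ 2 - 20 * m0 ^ 3 - 12 * m0 ^ 4) * ξ * s ^ 2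
    + (-24 - 48 * m0 - 14 * m0 ^ 2 + 8 * m0 ^ 3) * s ^ 3

noncomputable def j2cK (m0 : ℝ) : ℝ :=
  (1 + m0) * (1 + 2 * m0) * (10 + 9 * m0) * (3 + 2 * m0) ^ 2

noncomputable def j2cE (m0 μ ξ r mt : ℝ) : ℝ :=
  -(3 / (3 + 2 * m0) ^ 2) * r + 6 / ((1 + 2 * m0) * (3 + 2 * m0) ^ 2) * μ * ξ * mt

noncomputable def j2cT (m0 μ ξ u r mt th th' : ℝ) : ℝ :=
  -(r / (3 + 2 * m0) ^ 2) * (ξ * ((3 - m0) * ξ - 3 * (ξ - u)) / Dh m0 u ξ)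
    + μ * mt / j2cK m0 * (ξ ^ 2 * j2cP m0 ξ (ξ - u) / Dh m0 u ξ ^ 2)
    + (3 * (m0 + ξ * (ξ * mt)) * th - 3 * ξ * th' + (ξ - u) * th')

lemma j2c_h1 {m0 ξ u : ℝ} (h1 : -1 < m0) (hD : Dh m0 u ξ ≠ 0) :
    ξ * (2 * u + ξ) / ((3 + 2 * m0) * Dh m0 u ξ) = 3 / (3 + 2 * m0) ^ 2
      + (ξ - u) * (((3 - m0) * ξ - 3 * (ξ - u)) / Dh m0 u ξ) / (3 + 2 * m0) ^ 2 := by
  have hν : (3 + 2 * m0) ≠ 0 := by linarith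
  field_simp
  unfold Dh
  ring

lemma j2c_h2 {m0 ξ u : ℝ} (h1 : -1 < m0) (h2 : m0 < -1 / 2) (hD : Dh m0 u ξ ≠ 0) :
    Gam2 m0 u ξ * (u + ξ) = 6 / ((1 + 2 * m0) * (3 + 2 * m0) ^ 2)
      + (ξ - u) * (j2cP m0 ξ (ξ - u) / Dh m0 u ξ ^ 2) / j2cK m0 := by
  have hν : (3 + 2 * m0) ≠ 0 := by linarith
  have ha : (1 + m0) ≠ 0 := by linarith
  have hb : (1 + 2 * m0) ≠ 0 := by linarith
  have hc : (10 + 9 * m0) ≠ 0 := by linarith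
  have key : (3 + 2 * m0) ^ 2 * ((6 * (1 + m0) * (1 + 2 * m0) * ξ ^ 3 + 12 * (1 + m0) ^ 2 * u * ξ ^ 2
      + (8 + 13 * m0 + 3 * m0 ^ 2) * u ^ 2 * ξ + 2 * (2 + m0) * u ^ 3) * (u + ξ))
      = 6 * (1 + m0) * (10 + 9 * m0) * Dh m0 u ξ ^ 2 + (ξ - u) * j2cP m0 ξ (ξ - u) := by
    unfold Dh j2cP
    ring
  unfold Gam2 j2cK
  generalize (6 * (1 + m0) * (1 + 2 * m0) * ξ ^ 3 + 12 * (1 + m0) ^ 2 * u * ξ ^ 2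
      + (8 + 13 * m0 + 3 * m0 ^ 2) * u ^ 2 * ξ + 2 * (2 + m0) * u ^ 3) = N at key ⊢
  generalize j2cP m0 ξ (ξ - u) = P at key ⊢
  generalize Dh m0 u ξ = D at key hD ⊢
  generalize 3 + 2 * m0 = ν at key hν ⊢
  generalize 1 + 2 * m0 = b at key hb ⊢
  generalize 10 + 9 * m0 = c at key hc ⊢
  generalize 1 + m0 = a at key ha ⊢
  field_simp
  linear_combination key

/-- the derivative of the fully corrected first integral -/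
lemma j2c_alg {m0 μ ξ u r mt th th' : ℝ} (h1 : -1 < m0) (h2 : m0 < -1 / 2) (hD : Dh m0 u ξ ≠ 0)
    (hmt : mt = μ + ξ * r)
    (hth : ξ * th' + -2 * m0 * th = 2 * ξ ^ 2 * mt * th - j2cE m0 μ ξ r mt / 3) :
    -(ξ * mt) * (ξ - u) * (2 * u + ξ) / ((3 + 2 * m0) * Dh m0 u ξ)
      + μ * (ξ * (ξ - u) * (2 * u + ξ) / ((3 + 2 * m0) * Dh m0 u ξ)
        + 3 * m0 / ((1 + 2 * m0) * (10 + 9 * m0)) * (ξ - u) ^ 3 / Dh m0 u ξ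
        + (m0 + ξ * (ξ * mt) - m0) * Gam2 m0 u ξ * (ξ ^ 2 - u ^ 2))
      + ((3 * ξ ^ 2 - 3 * ((1 + (m0 + ξ * (ξ * mt))) * ξ ^ 2 - (m0 + ξ * (ξ * mt)) * u ^ 2)) * th
        + (ξ ^ 3 - u ^ 3) * th')
    = μ * (3 * m0 / ((1 + 2 * m0) * (10 + 9 * m0))) * ((ξ - u) ^ 3 / Dh m0 u ξ)
      + (ξ - u) ^ 2 * j2cT m0 μ ξ u r mt th th' := by
  have e1 := j2c_h1 h1 hD
  have e2 := j2c_h2 h1 h2 hD
  unfold j2cE at hth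
  unfold j2cT
  have e3 : -(ξ * mt) * (ξ - u) * (2 * u + ξ) / ((3 + 2 * m0) * Dh m0 u ξ)
      = -mt * (ξ - u) * (ξ * (2 * u + ξ) / ((3 + 2 * m0) * Dh m0 u ξ)) := by ring
  have e4 : ξ * (ξ - u) * (2 * u + ξ) / ((3 + 2 * m0) * Dh m0 u ξ)
      = (ξ - u) * (ξ * (2 * u + ξ) / ((3 + 2 * m0) * Dh m0 u ξ)) := by ring
  have e5 : (m0 + ξ * (ξ * mt) - m0) * Gam2 m0 u ξ * (ξ ^ 2 - u ^ 2)
      = ξ ^ 2 * mt * (ξ - u) * (Gam2 m0 u ξ * (u + ξ)) := by ring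
  have e6 : ξ * ((3 - m0) * ξ - 3 * (ξ - u)) / Dh m0 u ξ
      = ξ * (((3 - m0) * ξ - 3 * (ξ - u)) / Dh m0 u ξ) := by ring
  have e7 : ξ ^ 2 * j2cP m0 ξ (ξ - u) / Dh m0 u ξ ^ 2
      = ξ ^ 2 * (j2cP m0 ξ (ξ - u) / Dh m0 u ξ ^ 2) := by ring
  have e8 : 3 * m0 / ((1 + 2 * m0) * (10 + 9 * m0)) * (ξ - u) ^ 3 / Dh m0 u ξ
      = 3 * m0 / ((1 + 2 * m0) * (10 + 9 * m0)) * ((ξ - u) ^ 3 / Dh m0 u ξ) := by ring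
  rw [e3, e4, e5, e6, e7, e8, e1, e2]
  generalize ((3 - m0) * ξ - 3 * (ξ - u)) / Dh m0 u ξ = a1
  generalize j2cP m0 ξ (ξ - u) / Dh m0 u ξ ^ 2 = a2
  generalize (ξ - u) ^ 3 / Dh m0 u ξ = a3
  generalize 3 * m0 / ((1 + 2 * m0) * (10 + 9 * m0)) = c2
  generalize 6 / ((1 + 2 * m0) * (3 + 2 * m0) ^ 2) = g at hth ⊢
  have e9 : r / (3 + 2 * m0) ^ 2 = r * ((3 + 2 * m0) ^ 2)⁻¹ := div_eq_mul_inv _ _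
  have e10 : 3 / (3 + 2 * m0) ^ 2 = 3 * ((3 + 2 * m0) ^ 2)⁻¹ := div_eq_mul_inv _ _
  rw [e10] at hth
  simp only [div_eq_mul_inv] at *
  generalize ((3 + 2 * m0) ^ 2)⁻¹ = w at *
  generalize (j2cK m0)⁻¹ = k at *
  have e11 : μ = mt - ξ * r := by linarith
  linear_combination (3 * ξ * (ξ - u)) * hth - ((ξ - u) * (3 * w + (ξ - u) * a1 * w)) * hmt

lemma j2c_q1 {m0 ξ s : ℝ} (h1 : -1 < m0) (h2 : m0 < -1 / 2) :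
    |ξ * ((3 - m0) * ξ - 3 * s)| ≤ 7 * (ξ ^ 2 + s ^ 2) := by
  rw [abs_le]
  constructor <;> nlinarith [sq_nonneg (ξ - s), sq_nonneg (ξ + s), sq_nonneg ξ, sq_nonneg s,
    mul_nonneg (show 0 ≤ 1 + m0 by linarith) (sq_nonneg ξ),
    mul_nonneg (show 0 ≤ -m0 by linarith) (sq_nonneg ξ)]

lemma j2c_q2 (p0 p1 p2 p3 : ℝ) {ξ s : ℝ} (h1 : |ξ| ≤ 1) (h2 : |s| ≤ 1) :
    |ξ ^ 2 * (p0 * ξ ^ 3 + p1 * ξ ^ 2 * s + p2 * ξ * s ^ 2 + p3 * s ^ 3)|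
      ≤ (|p0| + |p1| + |p2| + |p3|) * (ξ ^ 2 + s ^ 2) ^ 2 := by
  have a1 : ξ ^ 4 ≤ (ξ ^ 2 + s ^ 2) ^ 2 := by nlinarith [sq_nonneg (ξ * s), sq_nonneg (s ^ 2)]
  have a2 : ξ ^ 2 * s ^ 2 ≤ (ξ ^ 2 + s ^ 2) ^ 2 := by
    nlinarith [sq_nonneg (ξ * s), sq_nonneg (s ^ 2), sq_nonneg (ξ ^ 2)]
  have key : ∀ p x y : ℝ, |x| ≤ 1 → 0 ≤ y → y ≤ (ξ ^ 2 + s ^ 2) ^ 2 →
      |p * x * y| ≤ |p| * (ξ ^ 2 + s ^ 2) ^ 2 := by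
    intro p x y hx hy hy'
    rw [abs_mul, abs_mul, abs_of_nonneg hy, mul_assoc]
    refine mul_le_mul_of_nonneg_left ?_ (abs_nonneg p)
    calc |x| * y ≤ 1 * y := mul_le_mul_of_nonneg_right hx hy
      _ ≤ _ := by linarith
  have b0 := key p0 ξ (ξ ^ 4) h1 (by positivity) a1
  have b1 := key p1 s (ξ ^ 4) h2 (by positivity) a1
  have b2 := key p2 ξ (ξ ^ 2 * s ^ 2) h1 (by positivity) a2
  have b3 := key p3 s (ξ ^ 2 * s ^ 2) h2 (by positivity) a2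
  have e : ξ ^ 2 * (p0 * ξ ^ 3 + p1 * ξ ^ 2 * s + p2 * ξ * s ^ 2 + p3 * s ^ 3)
      = p0 * ξ * ξ ^ 4 + p1 * s * ξ ^ 4 + p2 * ξ * (ξ ^ 2 * s ^ 2)
        + p3 * s * (ξ ^ 2 * s ^ 2) := by ring
  rw [e]
  have t1 := abs_add_le (p0 * ξ * ξ ^ 4 + p1 * s * ξ ^ 4 + p2 * ξ * (ξ ^ 2 * s ^ 2))
    (p3 * s * (ξ ^ 2 * s ^ 2))
  have t2 := abs_add_le (p0 * ξ * ξ ^ 4 + p1 * s * ξ ^ 4) (p2 * ξ * (ξ ^ 2 * s ^ 2))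
  have t3 := abs_add_le (p0 * ξ * ξ ^ 4) (p1 * s * ξ ^ 4)
  nlinarith

lemma j2c_div_bd {a D Q c L : ℝ} (hc : 0 < c) (hQ : 0 < Q) (hD : c * Q ≤ D) (ha : |a| ≤ L * Q) :
    |a / D| ≤ L / c := by
  have hD0 : 0 < D := (mul_pos hc hQ).trans_le hD
  have hL : 0 ≤ L := by
    by_contra h
    push Not at h
    have := mul_neg_of_neg_of_pos h hQ
    linarith [abs_nonneg a]
  rw [abs_div, abs_of_pos hD0, div_le_div_iff₀ hD0 hc]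
  nlinarith [mul_le_mul_of_nonneg_left hD hL]

/-- uniform bound for the remainder -/
lemma j2c_Tbd {m0 c : ℝ} {M : ℝ} (hM : 0 ≤ M) (h1 : -1 < m0) (h2 : m0 < -1 / 2) (hc : 0 < c)
    (hDh : ∀ u ξ : ℝ, c * (ξ ^ 2 + (ξ - u) ^ 2) ≤ Dh m0 u ξ) :
    ∃ B : ℝ, 0 < B ∧ ∀ μ ξ u r mt th th' : ℝ, |ξ| ≤ 1 → u < ξ → ξ - u ≤ 1 → |μ| ≤ M → |r| ≤ M →
      |mt| ≤ M → |th| ≤ M → |th'| ≤ M → |j2cT m0 μ ξ u r mt th th'| ≤ B := by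
  obtain ⟨L, hL0, hL⟩ : ∃ L : ℝ, 0 ≤ L ∧ ∀ ξ s : ℝ, |ξ| ≤ 1 → |s| ≤ 1 →
      |ξ ^ 2 * j2cP m0 ξ s| ≤ L * (ξ ^ 2 + s ^ 2) ^ 2 :=
    ⟨_, by positivity, fun ξ s h1 h2 => j2c_q2 _ _ _ _ h1 h2⟩
  refine ⟨M * (7 / c) + M * M / |j2cK m0| * (L / c ^ 2) + (3 * (1 + M) * M + 4 * M) + 1,
    by positivity, ?_⟩
  intro μ ξ u r mt th th' hξ hu hs hμ hr hmt hth hth'
  have hs0 : 0 < ξ - u := by linarith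
  have hQ : 0 < ξ ^ 2 + (ξ - u) ^ 2 := by positivity
  have hs' : |ξ - u| ≤ 1 := by rw [abs_of_pos hs0]; exact hs
  have b1 : |ξ * ((3 - m0) * ξ - 3 * (ξ - u)) / Dh m0 u ξ| ≤ 7 / c :=
    j2c_div_bd hc hQ (hDh u ξ) (j2c_q1 h1 h2)
  have b2 : |ξ ^ 2 * j2cP m0 ξ (ξ - u) / Dh m0 u ξ ^ 2| ≤ L / c ^ 2 := by
    refine j2c_div_bd (Q := (ξ ^ 2 + (ξ - u) ^ 2) ^ 2) (by positivity) (by positivity) ?_
      (hL _ _ hξ hs')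
    rw [← mul_pow]
    exact pow_le_pow_left₀ (by positivity) (hDh u ξ) 2
  have c1 : |-(r / (3 + 2 * m0) ^ 2)| ≤ M := by
    rw [abs_neg, abs_div, abs_of_pos (show 0 < (3 + 2 * m0) ^ 2 by nlinarith)]
    refine (div_le_self (abs_nonneg r) (by nlinarith)).trans hr
  have c2 : |μ * mt / j2cK m0| ≤ M * M / |j2cK m0| := by
    rw [abs_div, abs_mul]
    gcongr
  have d1 : |-(r / (3 + 2 * m0) ^ 2) * (ξ * ((3 - m0) * ξ - 3 * (ξ - u)) / Dh m0 u ξ)|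
      ≤ M * (7 / c) := by
    rw [abs_mul]; gcongr
  have d2 : |μ * mt / j2cK m0 * (ξ ^ 2 * j2cP m0 ξ (ξ - u) / Dh m0 u ξ ^ 2)|
      ≤ M * M / |j2cK m0| * (L / c ^ 2) := by
    rw [abs_mul]
    gcongr
  have c3 : |m0 + ξ * (ξ * mt)| ≤ 1 + M := by
    have t1 := abs_add_le m0 (ξ * (ξ * mt))
    have t2 : |m0| ≤ 1 := by rw [abs_le]; constructor <;> linarith
    have t3 : |ξ * (ξ * mt)| ≤ 1 * (1 * M) := by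
      rw [abs_mul, abs_mul]
      gcongr
    linarith
  have d3 : |3 * (m0 + ξ * (ξ * mt)) * th| ≤ 3 * (1 + M) * M := by
    rw [abs_mul, abs_mul, abs_of_pos (show (0 : ℝ) < 3 by norm_num)]
    gcongr
  have d4 : |3 * ξ * th'| ≤ 3 * 1 * M := by
    rw [abs_mul, abs_mul, abs_of_pos (show (0 : ℝ) < 3 by norm_num)]
    gcongr
  have d5 : |(ξ - u) * th'| ≤ 1 * M := by
    rw [abs_mul]
    gcongr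
  unfold j2cT
  rw [abs_le] at d1 d2 d3 d4 d5 ⊢
  constructor <;> linarith [d1.1, d1.2, d2.1, d2.2, d3.1, d3.2, d4.1, d4.2, d5.1, d5.2]

end Pool.Agent.MP_c2f0e4_an
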