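import Pool.Agent.MP_c2f0e4_an.Iface

open Set Filter Topology Real Asymptotics

namespace Pool.Agent.MP_c2f0e4_an

section SupAux

variable {X E F : Type} [TopologicalSpace X] [CompactSpace X] [NormedAddCommGroup E]
  [NormedSpace ℝ E] [NormedAddCommGroup F] [NormedSpace ℝ F]

/-- A multilinear map applied pointwise to continuous functions. -/
noncomputable def supMl {n : ℕ} (a : ContinuousMultilinearMap ℝ (fun _ : Fin n => E) F) :
    MultilinearMap ℝ (fun _ : Fin n => C(X, E)) C(X, F) :=
  MultilinearMap.mk' (fun z => ⟨fun t => a fun i => z i t,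
      a.cont.comp (continuous_pi fun i => (z i).continuous)⟩)
    (fun z i x y => by
      ext t
      have h : ∀ w : C(X, E), (fun j => (Function.update z i w) j t) =
          Function.update (fun j => z j t) i (w t) := fun w => by
        funext j
        by_cases hj : j = i
        · subst hj; simp
        · simp [Function.update_of_ne hj]
      simp only [ContinuousMap.coe_mk, ContinuousMap.add_apply, h, a.map_update_add])
    (fun z i c x => by
      ext t
      have h : ∀ w : C(X, E), (fun j => (Function.update z i w) j t) =
          Function.update (fun j => z j t) i (w t) := fun w => by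
        funext j
        by_cases hj : j = i
        · subst hj; simp
        · simp [Function.update_of_ne hj]
      simp only [ContinuousMap.coe_mk, ContinuousMap.smul_apply, h, a.map_update_smul])

omit [CompactSpace X] in
lemma supMl_apply {n : ℕ} (a : ContinuousMultilinearMap ℝ (fun _ : Fin n => E) F)
    (z : Fin n → C(X, E)) (t : X) : supMl a z t = a fun i => z i t := rfl

lemma supMl_bound {n : ℕ} (a : ContinuousMultilinearMap ℝ (fun _ : Fin n => E) F)
    (z : Fin n → C(X, E)) : ‖supMl a z‖ ≤ ‖a‖ * ∏ i, ‖z i‖ := by
  refine (ContinuousMap.norm_le _ (by positivity)).2 fun t => ?_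
  rw [supMl_apply]
  refine (a.le_opNorm _).trans (mul_le_mul_of_nonneg_left ?_ (norm_nonneg _))
  exact Finset.prod_le_prod (fun i _ => norm_nonneg _) fun i _ => (z i).norm_coe_le_norm t

/-- The pointwise power series. -/
noncomputable def supSer (X : Type) [TopologicalSpace X] [CompactSpace X]
    (p : FormalMultilinearSeries ℝ E F) : FormalMultilinearSeries ℝ C(X, E) C(X, F) :=
  fun n => (supMl (X := X) (p n)).mkContinuous ‖p n‖ (supMl_bound (p n))

lemma supSer_radius (p : FormalMultilinearSeries ℝ E F) : p.radius ≤ (supSer X p).radius :=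
  FormalMultilinearSeries.radius_le_of_le fun _ =>
    MultilinearMap.mkContinuous_norm_le _ (norm_nonneg _) _

lemma sup_general [CompleteSpace F] (G : E → F) (e0 : E) (hG : AnalyticAt ℝ G e0) :
    ∃ N : C(X, E) → C(X, F), AnalyticAt ℝ N (ContinuousMap.const X e0) ∧
      ∀ᶠ z in 𝓝 (ContinuousMap.const X e0), ∀ t, N z t = G (z t) := by
  obtain ⟨p, r, hp⟩ := hG
  have hr : r ≤ (supSer X p).radius := hp.r_le.trans (supSer_radius p)
  have hq := (supSer X p).hasFPowerSeriesOnBall (hp.r_pos.trans_le hr)
  refine ⟨fun z => (supSer X p).sum (z - ContinuousMap.const X e0), ?_, ?_⟩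
  · have h1 : AnalyticAt ℝ (supSer X p).sum
        ((fun z => z - ContinuousMap.const X e0) (ContinuousMap.const X e0)) := by
      simpa using hq.analyticAt
    exact AnalyticAt.comp (f := fun z => z - ContinuousMap.const X e0) h1
      (analyticAt_id.sub analyticAt_const)
  · have h2 : ∀ᶠ z in 𝓝 (ContinuousMap.const X e0), z ∈ Metric.eball (ContinuousMap.const X e0) r :=
      Metric.eball_mem_nhds _ hp.r_pos
    filter_upwards [h2] with z hz t
    have h3 : z - ContinuousMap.const X e0 ∈ Metric.eball (0 : C(X, E)) r := by
      rw [Metric.mem_eball, edist_zero_right]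
      rwa [Metric.mem_eball, edist_eq_enorm_sub] at hz
    have h4 := (supSer X p).hasSum (Metric.eball_subset_eball hr h3)
    have h5 := (ContinuousMap.evalCLM ℝ t).hasSum h4
    have h6 : z t - e0 ∈ Metric.eball (0 : E) r := by
      rw [Metric.mem_eball, edist_zero_right] at h3 ⊢
      refine lt_of_le_of_lt ?_ h3
      rw [enorm_le_iff_norm_le]
      exact (z - ContinuousMap.const X e0).norm_coe_le_norm t
    have h7 := hp.hasSum h6
    rw [add_sub_cancel] at h7
    exact h5.unique h7

end SupAux

theorem supS : SupStmt := by
  intro G e0 hG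
  exact sup_general G e0 hG

end Pool.Agent.MP_c2f0e4_an
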