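import Pool.Agent.MP_c2f0e4_an.Basic

open Set Filter Topology Real

namespace Pool.Agent.MP_c2f0e4_an

/-! ### the scalar equation `(U^3)' = -3 (A + B U^2)` -/

/-- global solutions of the scalar equation -/
def Sol (A B U : ℝ → ℝ) : Prop :=
  Continuous U ∧ ∀ x, HasDerivAt (fun y => U y ^ 3) (-3 * (A x + B x * U x ^ 2)) x

/-- analytic on the whole line -/
def An (A : ℝ → ℝ) : Prop := ∀ x, AnalyticAt ℝ A x

/-- `U` does not pass through a singular point `(z, 0)`, `A z = 0`, over the set `s` -/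
def GoodOn (A U : ℝ → ℝ) (s : Set ℝ) : Prop := ∀ x ∈ s, A x = 0 → U x ≠ 0

/-- good periodic solutions -/
def GP (A B U : ℝ → ℝ) : Prop := Sol A B U ∧ GoodOn A U univ ∧ Function.Periodic U (2 * π)

/-- analytic antiperiodic coefficients -/
structure Sys (A B : ℝ → ℝ) : Prop where
  anA : An A
  anB : An B
  antiA : ∀ x, A (x + π) = -A x
  antiB : ∀ x, B (x + π) = -B x

/-- an interval of good periodic solutions -/
def Fam (A B : ℝ → ℝ) : Prop :=
  ∃ x0 p q : ℝ, p < q ∧ ∀ u ∈ Ioo p q, ∃ U, GP A B U ∧ U x0 = u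

/-- an unbounded family of good periodic solutions -/
def Pole (A B : ℝ → ℝ) : Prop := ∃ x0 : ℝ, ∀ M : ℝ, ∃ U, GP A B U ∧ M ≤ |U x0|

/-- `V` is a solution approximated uniformly from below by solutions `U n` -/
structure Top0 (A B V : ℝ → ℝ) (U : ℕ → ℝ → ℝ) : Prop where
  solV : Sol A B V
  solU : ∀ n, Sol A B (U n)
  lt : ∀ n x, U n x < V x
  unif : TendstoUniformly U V atTop

/-- `V` passes through the singular point `(x, 0)` -/
def Touch (A V : ℝ → ℝ) (x : ℝ) : Prop := A x = 0 ∧ V x = 0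

/-- upper boundary of a family of good periodic solutions -/
structure Top (A B V : ℝ → ℝ) (U : ℕ → ℝ → ℝ) : Prop extends Top0 A B V U where
  perV : Function.Periodic V (2 * π)
  perU : ∀ n, Function.Periodic (U n) (2 * π)
  good : ∀ n, GoodOn A (U n) univ
  sgn : ∀ z, A z = 0 → ∀ n, (U n z < 0 ↔ U 0 z < 0)
  touch : ∃ z, Touch A V z

/-- upper boundary and (mirrored) lower boundary of a bounded family -/
def Conf (A B : ℝ → ℝ) : Prop :=
  ∃ V U V2 U2, Top A B V U ∧ Top A B V2 U2 ∧ ∀ z, A z = 0 → (U2 0 z < 0 ↔ 0 < U 0 (z + π))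

/-- exactly one touch per period -/
def One (A V : ℝ → ℝ) (z : ℝ) : Prop :=
  Touch A V z ∧ ∀ x ∈ Ioo z (z + 2 * π), ¬ Touch A V x

/-- exactly two touches per period, both with `A' < 0` -/
def Two (A V : ℝ → ℝ) (z1 z2 : ℝ) : Prop :=
  z1 < z2 ∧ z2 < z1 + 2 * π ∧ Touch A V z1 ∧ Touch A V z2 ∧ deriv A z1 < 0 ∧ deriv A z2 < 0 ∧
    ∀ x ∈ Ioo z1 (z1 + 2 * π), Touch A V x → x = z2

/-- exactly three touches per period, all with `A' < 0` -/
def Three (A V : ℝ → ℝ) (z1 z2 z3 : ℝ) : Prop :=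
  z1 < z2 ∧ z2 < z3 ∧ z3 < z1 + 2 * π ∧ Touch A V z1 ∧ Touch A V z2 ∧ Touch A V z3 ∧
    deriv A z1 < 0 ∧ deriv A z2 < 0 ∧ deriv A z3 < 0 ∧
    ∀ x ∈ Ioo z1 (z1 + 2 * π), Touch A V x → x = z2 ∨ x = z3

/-- reversibility about `c` -/
def Rev (A B : ℝ → ℝ) (c : ℝ) : Prop := ∀ x, A (c - x) = -A (c + x) ∧ B (c - x) = -B (c + x)

/-- the centre conditions -/
def Concl (A B : ℝ → ℝ) : Prop := (∀ x, B x = 0) ∨ ∃ c, Rev A B c

noncomputable def Cub (a0 a1 a2 a3 x : ℝ) : ℝ :=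
  a0 * cos x ^ 3 + a1 * cos x ^ 2 * sin x + a2 * cos x * sin x ^ 2 + a3 * sin x ^ 3

noncomputable def Lin (b1 b2 x : ℝ) : ℝ := b1 * cos x + b2 * sin x

def IsCub (A : ℝ → ℝ) : Prop := ∃ a0 a1 a2 a3, A = Cub a0 a1 a2 a3

def IsLin (B : ℝ → ℝ) : Prop := ∃ b1 b2, B = Lin b1 b2

/-- the section coordinate `(V^3 - U^3)^(-1/6)` -/
noncomputable def Yv (V : ℝ → ℝ) (U : ℕ → ℝ → ℝ) (x : ℝ) (n : ℕ) : ℝ :=
  (V x ^ 3 - U n x ^ 3) ^ (-(1 / 6) : ℝ)

lemma An.continuous {A : ℝ → ℝ} (h : An A) : Continuous A :=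
  continuous_iff_continuousAt.2 fun x => (h x).continuousAt

lemma An.affine {A : ℝ → ℝ} (h : An A) (k c l : ℝ) : An fun x => l * A (k * x + c) := fun x =>
  analyticAt_const.mul ((h (k * x + c)).comp (f := fun x : ℝ => k * x + c) (by fun_prop))

section Sol
variable {A B U V : ℝ → ℝ}

lemma Sol.hasDerivAt (h : Sol A B U) {x : ℝ} (hx : U x ≠ 0) :
    HasDerivAt U (-B x - A x / U x ^ 2) x :=
  (hasDerivAt_of_cube (h.2 x) hx).congr_deriv (by field_simp; ring)

lemma Sol.neg (h : Sol A B U) : Sol (fun x => -A x) (fun x => -B x) (fun x => -U x) := by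
  refine ⟨h.1.neg, fun x => ?_⟩
  have h1 : (fun y => (-U y) ^ 3) = fun y => -(U y ^ 3) := funext fun y => by ring
  rw [h1]
  exact (h.2 x).neg.congr_deriv (by ring)

/-- affine change of the independent variable -/
lemma Sol.affine (h : Sol A B U) (k c : ℝ) :
    Sol (fun x => k * A (k * x + c)) (fun x => k * B (k * x + c)) (fun x => U (k * x + c)) := by
  refine ⟨h.1.comp (by fun_prop), fun x => ?_⟩
  have h1 : HasDerivAt (fun x : ℝ => k * x + c) k x := by
    simpa using ((hasDerivAt_id x).const_mul k).add_const c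
  have h2 := (h.2 (k * x + c)).comp x h1
  refine HasDerivAt.congr_deriv (f' := _) h2 ?_
  ring

lemma Sol.shift (h : Sol A B U) (c : ℝ) :
    Sol (fun x => A (x + c)) (fun x => B (x + c)) (fun x => U (x + c)) := by
  simpa using h.affine 1 c

lemma Sol.refl (h : Sol A B U) (c : ℝ) :
    Sol (fun x => -A (c - x)) (fun x => -B (c - x)) (fun x => U (c - x)) := by
  have := h.affine (-1) c
  simpa only [neg_mul, one_mul, neg_add_eq_sub] using this

/-- where `A < 0` at the zeros of `U`, crossings go upwards -/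
lemma Sol.pos_forward (h : Sol A B U) {a b : ℝ} (hA : ∀ x ∈ Icc a b, U x = 0 → A x < 0)
    (ha : 0 ≤ U a) : ∀ x ∈ Ioc a b, 0 < U x := by
  intro x hx
  have := pos_of_deriv_pos_at_zeros (f := fun y => U y ^ 3) (a := a) (b := b)
    (h.1.pow 3).continuousOn (pow_nonneg ha 3) (fun y hy h0 => by
      have h1 : U y = 0 := pow_eq_zero_iff (by norm_num) |>.1 h0
      refine ⟨_, h.2 y, ?_⟩
      rw [h1]; have := hA y hy h1; linarith) x hx
  exact (Odd.pow_pos_iff (by decide)).1 this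

lemma Sol.neg_forward (h : Sol A B U) {a b : ℝ} (hA : ∀ x ∈ Icc a b, U x = 0 → 0 < A x)
    (ha : U a ≤ 0) : ∀ x ∈ Ioc a b, U x < 0 := fun x hx => by
  have := h.neg.pos_forward (a := a) (b := b) (fun y hy h0 => by
    have := hA y hy (by simpa using h0); linarith) (by linarith) x hx
  linarith

lemma Sol.pos_backward (h : Sol A B U) {a b : ℝ} (hA : ∀ x ∈ Icc a b, U x = 0 → 0 < A x)
    (hb : 0 ≤ U b) : ∀ x ∈ Ico a b, 0 < U x := fun x hx => by
  have := (h.refl 0).pos_forward (a := -b) (b := -a) (fun y hy h0 => by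
    have := hA (0 - y) ⟨by linarith [hy.2], by linarith [hy.1]⟩ h0; linarith) (by simpa using hb)
    (-x) ⟨by linarith [hx.2], by linarith [hx.1]⟩
  simpa using this

lemma Sol.neg_backward (h : Sol A B U) {a b : ℝ} (hA : ∀ x ∈ Icc a b, U x = 0 → A x < 0)
    (hb : U b ≤ 0) : ∀ x ∈ Ico a b, U x < 0 := fun x hx => by
  have := h.neg.pos_backward (a := a) (b := b) (fun y hy h0 => by
    have := hA y hy (by simpa using h0); linarith) (by linarith) x hx
  linarith

/-- negative values propagate forward through an interval where `A > 0` -/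
lemma Sol.neg_of_neg_left (h : Sol A B U) {a b : ℝ} (hA : ∀ x ∈ Ioo a b, 0 < A x)
    (ha : U a < 0) : ∀ x ∈ Ico a b, U x < 0 := fun x hx => by
  rcases hx.1.eq_or_lt with h0 | h0
  · rwa [← h0]
  · refine h.neg_forward (a := a) (b := x) (fun y hy h1 => ?_) ha.le x ⟨h0, le_rfl⟩
    rcases hy.1.eq_or_lt with h2 | h2
    · rw [← h2] at h1; exact absurd h1 ha.ne
    · exact hA y ⟨h2, hy.2.trans_lt hx.2⟩

/-- negative values propagate backward through an interval where `A < 0` -/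
lemma Sol.neg_of_neg_right (h : Sol A B U) {a b : ℝ} (hA : ∀ x ∈ Ioo a b, A x < 0)
    (hb : U b < 0) : ∀ x ∈ Ioc a b, U x < 0 := fun x hx => by
  rcases hx.2.eq_or_lt with h0 | h0
  · rwa [h0]
  · refine h.neg_backward (a := x) (b := b) (fun y hy h1 => ?_) hb.le x ⟨le_rfl, h0⟩
    rcases hy.2.eq_or_lt with h2 | h2
    · rw [h2] at h1; exact absurd h1 hb.ne
    · exact hA y ⟨hx.1.trans_le hy.1, h2⟩

end Sol

section Trig

lemma Cub.an (a0 a1 a2 a3 : ℝ) : An (Cub a0 a1 a2 a3) := fun x => by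
  unfold Cub; fun_prop

lemma Lin.an (b1 b2 : ℝ) : An (Lin b1 b2) := fun x => by
  unfold Lin; fun_prop

lemma Cub.anti (a0 a1 a2 a3 x : ℝ) : Cub a0 a1 a2 a3 (x + π) = -Cub a0 a1 a2 a3 x := by
  simp only [Cub, cos_add_pi, sin_add_pi]; ring

lemma Lin.anti (b1 b2 x : ℝ) : Lin b1 b2 (x + π) = -Lin b1 b2 x := by
  simp only [Lin, cos_add_pi, sin_add_pi]; ring

lemma Cub.hasDerivAt (a0 a1 a2 a3 x : ℝ) :
    HasDerivAt (Cub a0 a1 a2 a3)
      (Cub a1 (2 * a2 - 3 * a0) (3 * a3 - 2 * a1) (-a2) x) x := by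
  have hc := hasDerivAt_cos x
  have hs := hasDerivAt_sin x
  have := ((((hc.pow 3).const_mul a0).add (((hc.pow 2).const_mul a1).mul hs)).add
    ((hc.const_mul a2).mul (hs.pow 2))).add ((hs.pow 3).const_mul a3)
  refine HasDerivAt.congr_deriv (f' := _) this ?_
  simp only [Cub, Pi.pow_apply]; push_cast; ring

lemma Cub.deriv (a0 a1 a2 a3 : ℝ) :
    deriv (Cub a0 a1 a2 a3) = Cub a1 (2 * a2 - 3 * a0) (3 * a3 - 2 * a1) (-a2) :=
  funext fun x => (Cub.hasDerivAt a0 a1 a2 a3 x).deriv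

lemma Lin.hasDerivAt (b1 b2 x : ℝ) : HasDerivAt (Lin b1 b2) (Lin b2 (-b1) x) x := by
  have := ((hasDerivAt_cos x).const_mul b1).add ((hasDerivAt_sin x).const_mul b2)
  refine HasDerivAt.congr_deriv (f' := _) this ?_
  simp only [Lin]; ring

lemma Lin.deriv (b1 b2 : ℝ) : deriv (Lin b1 b2) = Lin b2 (-b1) :=
  funext fun x => (Lin.hasDerivAt b1 b2 x).deriv

lemma Cub.zero (a0 a1 a2 a3 : ℝ) : Cub a0 a1 a2 a3 0 = a0 := by simp [Cub]

lemma Lin.zero (b1 b2 : ℝ) : Lin b1 b2 0 = b1 := by simp [Lin]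

/-- Taylor form of the shift of a linear form -/
lemma IsLin.shift_eq {B : ℝ → ℝ} (h : IsLin B) (c : ℝ) :
    (fun x => B (x + c)) = Lin (B c) (deriv B c) := by
  obtain ⟨b1, b2, rfl⟩ := h
  funext x
  simp only [Lin.deriv, Lin, cos_add, sin_add]; ring

/-- Taylor form of the shift of a cubic form -/
lemma IsCub.shift_eq {A : ℝ → ℝ} (h : IsCub A) (c : ℝ) :
    ∃ a3, (fun x => A (x + c))
      = Cub (A c) (deriv A c) ((deriv (deriv A) c + 3 * A c) / 2) a3 := by
  obtain ⟨a0, a1, a2, a3, rfl⟩ := h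
  refine ⟨Cub a3 (-a2) a1 (-a0) c, ?_⟩
  funext x
  simp only [Cub.deriv, Cub, cos_add, sin_add]; ring

lemma IsLin.shift {B : ℝ → ℝ} (h : IsLin B) (c : ℝ) : IsLin fun x => B (x + c) :=
  ⟨_, _, h.shift_eq c⟩

lemma IsCub.shift {A : ℝ → ℝ} (h : IsCub A) (c : ℝ) : IsCub fun x => A (x + c) :=
  let ⟨_, h1⟩ := h.shift_eq c; ⟨_, _, _, _, h1⟩

lemma Cub.refl_pi (a0 a1 a2 a3 : ℝ) :
    (fun x => -Cub a0 a1 a2 a3 (π - x)) = Cub a0 (-a1) a2 (-a3) := by
  funext x; simp only [Cub, cos_pi_sub, sin_pi_sub]; ring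

lemma Lin.refl_pi (b1 b2 : ℝ) : (fun x => -Lin b1 b2 (π - x)) = Lin b1 (-b2) := by
  funext x; simp only [Lin, cos_pi_sub, sin_pi_sub]; ring

lemma Cub.refl_zero (a0 a1 a2 a3 : ℝ) :
    (fun x => -Cub a0 a1 a2 a3 (0 - x)) = Cub (-a0) a1 (-a2) a3 := by
  funext x; simp only [Cub, zero_sub, cos_neg, sin_neg]; ring

lemma Lin.refl_zero (b1 b2 : ℝ) : (fun x => -Lin b1 b2 (0 - x)) = Lin (-b1) b2 := by
  funext x; simp only [Lin, zero_sub, cos_neg, sin_neg]; ring

lemma Cub.shift_pi (a0 a1 a2 a3 : ℝ) :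
    (fun x => Cub a0 a1 a2 a3 (x + π)) = Cub (-a0) (-a1) (-a2) (-a3) := by
  funext x; simp only [Cub, cos_add_pi, sin_add_pi]; ring

lemma Lin.shift_pi (b1 b2 : ℝ) : (fun x => Lin b1 b2 (x + π)) = Lin (-b1) (-b2) := by
  funext x; simp only [Lin, cos_add_pi, sin_add_pi]; ring

lemma sys_of {A B : ℝ → ℝ} (hA : IsCub A) (hB : IsLin B) : Sys A B := by
  obtain ⟨a0, a1, a2, a3, rfl⟩ := hA
  obtain ⟨b1, b2, rfl⟩ := hB
  exact ⟨Cub.an _ _ _ _, Lin.an _ _, Cub.anti _ _ _ _, Lin.anti _ _⟩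

lemma sys_cub (a0 a1 a2 a3 b1 b2 : ℝ) : Sys (Cub a0 a1 a2 a3) (Lin b1 b2) :=
  sys_of ⟨_, _, _, _, rfl⟩ ⟨_, _, rfl⟩

end Trig

section Symm
variable {A B V : ℝ → ℝ} {U : ℕ → ℝ → ℝ}

lemma Sys.perA (h : Sys A B) : Function.Periodic A (2 * π) := fun x => by
  rw [two_mul, ← add_assoc, h.antiA, h.antiA, neg_neg]

lemma Sys.perB (h : Sys A B) : Function.Periodic B (2 * π) := fun x => by
  rw [two_mul, ← add_assoc, h.antiB, h.antiB, neg_neg]

lemma Sys.shift (h : Sys A B) (c : ℝ) : Sys (fun x => A (x + c)) (fun x => B (x + c)) :=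
  ⟨by simpa using h.anA.affine 1 c 1, by simpa using h.anB.affine 1 c 1,
    fun x => by rw [add_right_comm, h.antiA], fun x => by rw [add_right_comm, h.antiB]⟩

/-- the symmetry `U ↦ -U (· + π)` -/
lemma Sol.sigma {W : ℝ → ℝ} (hs : Sys A B) (h : Sol A B W) : Sol A B fun x => -W (x + π) := by
  have := (h.shift π).neg
  simpa only [hs.antiA, hs.antiB, neg_neg] using this

lemma Sol.shift_two_pi {W : ℝ → ℝ} (hs : Sys A B) (h : Sol A B W) :
    Sol A B fun x => W (x + 2 * π) := by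
  have := h.shift (2 * π)
  simpa only [hs.perA _, hs.perB _] using this

lemma Top0.affine (h : Top0 A B V U) (k c : ℝ) :
    Top0 (fun x => k * A (k * x + c)) (fun x => k * B (k * x + c)) (fun x => V (k * x + c))
      (fun n x => U n (k * x + c)) :=
  ⟨h.solV.affine k c, fun n => (h.solU n).affine k c, fun n _ => h.lt n _,
    h.unif.comp fun x => k * x + c⟩

lemma Top0.shift (h : Top0 A B V U) (c : ℝ) :
    Top0 (fun x => A (x + c)) (fun x => B (x + c)) (fun x => V (x + c))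
      (fun n x => U n (x + c)) :=
  ⟨h.solV.shift c, fun n => (h.solU n).shift c, fun n _ => h.lt n _, h.unif.comp fun x => x + c⟩

lemma Top0.refl (h : Top0 A B V U) (c : ℝ) :
    Top0 (fun x => -A (c - x)) (fun x => -B (c - x)) (fun x => V (c - x))
      (fun n x => U n (c - x)) :=
  ⟨h.solV.refl c, fun n => (h.solU n).refl c, fun n _ => h.lt n _, h.unif.comp fun x => c - x⟩

lemma periodic_shift {f : ℝ → ℝ} {T : ℝ} (h : Function.Periodic f T) (c : ℝ) :
    Function.Periodic (fun x => f (x + c)) T := fun x => by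
  simp only [add_right_comm x T c, h _]

lemma periodic_refl {f : ℝ → ℝ} {T : ℝ} (h : Function.Periodic f T) (c : ℝ) :
    Function.Periodic (fun x => f (c - x)) T := fun x => by
  simp only [← sub_sub, h.sub_eq]

lemma Top.shift (h : Top A B V U) (c : ℝ) :
    Top (fun x => A (x + c)) (fun x => B (x + c)) (fun x => V (x + c))
      (fun n x => U n (x + c)) :=
  ⟨h.toTop0.shift c, periodic_shift h.perV c, fun n => periodic_shift (h.perU n) c,
    fun n x _ hx => h.good n _ (mem_univ _) hx, fun z hz => h.sgn _ hz, by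
      obtain ⟨z, hz⟩ := h.touch
      exact ⟨z - c, by simpa [Touch] using hz⟩⟩

lemma Top.refl (h : Top A B V U) (c : ℝ) :
    Top (fun x => -A (c - x)) (fun x => -B (c - x)) (fun x => V (c - x))
      (fun n x => U n (c - x)) :=
  ⟨h.toTop0.refl c, periodic_refl h.perV c, fun n => periodic_refl (h.perU n) c,
    fun n x _ hx => h.good n _ (mem_univ _) (neg_eq_zero.1 hx),
    fun z hz => h.sgn _ (neg_eq_zero.1 hz), by
      obtain ⟨z, hz⟩ := h.touch
      exact ⟨c - z, by simpa [Touch] using hz⟩⟩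

lemma Conf.shift (h : Conf A B) (c : ℝ) : Conf (fun x => A (x + c)) (fun x => B (x + c)) := by
  obtain ⟨V, U, V2, U2, h1, h2, h3⟩ := h
  refine ⟨_, _, _, _, h1.shift c, h2.shift c, fun z hz => ?_⟩
  simpa only [add_right_comm z π c] using h3 _ hz

lemma GP.shift {W : ℝ → ℝ} (h : GP A B W) (c : ℝ) :
    GP (fun x => A (x + c)) (fun x => B (x + c)) (fun x => W (x + c)) :=
  ⟨h.1.shift c, fun _ _ hx => h.2.1 _ (mem_univ _) hx, periodic_shift h.2.2 c⟩

lemma GP.refl {W : ℝ → ℝ} (h : GP A B W) (c : ℝ) :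
    GP (fun x => -A (c - x)) (fun x => -B (c - x)) (fun x => W (c - x)) :=
  ⟨h.1.refl c, fun _ _ hx => h.2.1 _ (mem_univ _) (neg_eq_zero.1 hx), periodic_refl h.2.2 c⟩

lemma GP.sigma {W : ℝ → ℝ} (hs : Sys A B) (h : GP A B W) : GP A B fun x => -W (x + π) :=
  ⟨h.1.sigma hs, fun x _ hx => neg_ne_zero.2 (h.2.1 _ (mem_univ _) (by rw [hs.antiA, hx, neg_zero])),
    fun x => by simp only [add_right_comm x (2 * π) π, h.2.2 _]⟩

lemma Fam.shift (h : Fam A B) (c : ℝ) : Fam (fun x => A (x + c)) (fun x => B (x + c)) := by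
  obtain ⟨x0, p, q, hpq, h⟩ := h
  refine ⟨x0 - c, p, q, hpq, fun u hu => ?_⟩
  obtain ⟨W, h1, h2⟩ := h u hu
  exact ⟨_, h1.shift c, by simpa using h2⟩

lemma Fam.refl (h : Fam A B) (c : ℝ) : Fam (fun x => -A (c - x)) (fun x => -B (c - x)) := by
  obtain ⟨x0, p, q, hpq, h⟩ := h
  refine ⟨c - x0, p, q, hpq, fun u hu => ?_⟩
  obtain ⟨W, h1, h2⟩ := h u hu
  exact ⟨_, h1.refl c, by simpa using h2⟩

lemma Concl.of_shift {c : ℝ} (h : Concl (fun x => A (x + c)) (fun x => B (x + c))) :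
    Concl A B := by
  rcases h with h | ⟨d, h⟩
  · exact Or.inl fun x => by simpa using h (x - c)
  · refine Or.inr ⟨d + c, fun x => ?_⟩
    have := h x
    simp only at this
    rwa [show d - x + c = d + c - x by ring, show d + x + c = d + c + x by ring] at this

lemma Concl.of_refl {c : ℝ} (h : Concl (fun x => -A (c - x)) (fun x => -B (c - x))) :
    Concl A B := by
  rcases h with h | ⟨d, h⟩
  · exact Or.inl fun x => by simpa using h (c - x)
  · refine Or.inr ⟨c - d, fun x => ?_⟩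
    have := h (-x)
    simp only at this
    rw [show c - (d - -x) = c - d - x by ring, show c - (d + -x) = c - d + x by ring] at this
    constructor <;> linarith [this.1, this.2]

lemma One.shift {z : ℝ} (h : One A V z) (c : ℝ) :
    One (fun x => A (x + c)) (fun x => V (x + c)) (z - c) :=
  ⟨by simpa [Touch] using h.1, fun x hx hT =>
    h.2 (x + c) ⟨by linarith [hx.1], by linarith [hx.2]⟩ hT⟩

lemma One.refl {z : ℝ} (h : One A V z) (hA : Function.Periodic A (2 * π))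
    (hV : Function.Periodic V (2 * π)) (c : ℝ) :
    One (fun x => -A (c - x)) (fun x => V (c - x)) (c - z) :=
  ⟨by simpa [Touch] using h.1, fun x hx hT =>
    h.2 (c - x + 2 * π) ⟨by linarith [hx.2], by linarith [hx.1]⟩
      ⟨by rw [hA]; exact neg_eq_zero.1 hT.1, by rw [hV]; exact hT.2⟩⟩

lemma rev_pi_div_two (a0 a2 b : ℝ) : Rev (Cub a0 0 a2 0) (Lin b 0) (π / 2) := fun x => by
  simp only [Cub, Lin, cos_pi_div_two_sub, sin_pi_div_two_sub, add_comm (π / 2) x,
    cos_add_pi_div_two, sin_add_pi_div_two]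
  constructor <;> ring

lemma rev_zero (a1 a3 b : ℝ) : Rev (Cub 0 a1 0 a3) (Lin 0 b) 0 := fun x => by
  simp only [Cub, Lin, zero_sub, zero_add, cos_neg, sin_neg]
  constructor <;> ring

lemma Top0.tendsto (h : Top0 A B V U) (x : ℝ) : Tendsto (fun n => U n x) atTop (𝓝 (V x)) :=
  h.unif.tendsto_at x

/-- a limit of negative values is nonpositive -/
lemma Top0.nonpos (h : Top0 A B V U) {x : ℝ} (hx : ∀ n, U n x < 0) : V x ≤ 0 :=
  le_of_tendsto' (h.tendsto x) fun n => (hx n).le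

lemma Top0.cube_pos (h : Top0 A B V U) (x : ℝ) (n : ℕ) : 0 < V x ^ 3 - U n x ^ 3 :=
  sub_pos.2 (cube_lt.2 (h.lt n x))

lemma Top0.Yv_pos (h : Top0 A B V U) (x : ℝ) (n : ℕ) : 0 < Yv V U x n :=
  Real.rpow_pos_of_pos (h.cube_pos x n) _

lemma Top0.Yv_tendsto (h : Top0 A B V U) (x : ℝ) : Tendsto (Yv V U x) atTop atTop := by
  have h1 : Tendsto (fun n => V x ^ 3 - U n x ^ 3) atTop (𝓝[>] 0) := by
    refine tendsto_nhdsWithin_iff.2 ⟨?_, Eventually.of_forall fun n => h.cube_pos x n⟩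
    have := ((h.tendsto x).pow 3).const_sub (V x ^ 3)
    rwa [sub_self] at this
  exact (tendsto_rpow_neg_nhdsGT_zero (by norm_num)).comp h1

lemma Top.Yv_per (h : Top A B V U) (x : ℝ) : Yv V U (x + 2 * π) = Yv V U x :=
  funext fun n => by simp only [Yv, h.perV x, h.perU n x]

end Symm

end Pool.Agent.MP_c2f0e4_an
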