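import Pool.Agent.MP_c2f0e4_an.Iface

open Set Filter Topology Real Asymptotics

namespace Pool.Agent.MP_c2f0e4_an

theorem t1_left {a x c C u : ℝ} (hc : 0 < c) (hx : x < 0) (h : -x * a ≤ C * x ^ 4)
    (hd : 16 * C * -x ≤ c ^ 3) (hu : u ≤ c / 2 * x) : a / u ^ 2 ≤ c / 4 := by
  have h0 : c / 2 * x < 0 := by nlinarith
  have h1 : a ≤ C * -x * x ^ 2 := by
    by_contra hcon
    have := mul_lt_mul_of_pos_left (not_le.1 hcon) (neg_pos.2 hx)
    nlinarith
  have h2 : (c / 2 * x) ^ 2 ≤ u ^ 2 := by nlinarith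
  have h3 : 0 < u ^ 2 := by nlinarith
  rw [div_le_iff₀ h3]
  have h4 : C * -x * x ^ 2 ≤ c ^ 3 / 16 * x ^ 2 := by
    have := sq_nonneg x
    nlinarith
  nlinarith

theorem t1_right {a x c C u : ℝ} (hc : 0 < c) (hx : 0 < x) (h : -x * a ≤ C * x ^ 4)
    (hd : 16 * C * x ≤ c ^ 3) (hu : c * x ≤ u) : -a / u ^ 2 ≤ c / 4 := by
  have := t1_left (a := -a) (x := -x) (C := C) (u := -u) hc (by linarith) (by nlinarith)
    (by linarith) (by nlinarith)
  rwa [neg_sq] at this

theorem t1_sign {a x c : ℝ} (hc : 0 < c) (h : c * x ^ 4 ≤ -x * a) :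
    (x < 0 → 0 < a) ∧ (0 < x → a < 0) := by
  constructor
  · intro hx
    have : 0 < c * x ^ 4 := mul_pos hc (Even.pow_pos (by decide) hx.ne)
    by_contra hcon
    nlinarith
  · intro hx
    have : 0 < c * x ^ 4 := by positivity
    by_contra hcon
    nlinarith

theorem t1_main {A B V : ℝ → ℝ} {U : ℕ → ℝ → ℝ} {d c C : ℝ} (hT : Top0 A B V U) (hc : 0 < c)
    (h : ∀ x ∈ Icc (-d) d, c * x ^ 4 ≤ -x * A x ∧ -x * A x ≤ C * x ^ 4 ∧ c ≤ -B x ∧ -B x ≤ C)
    (hd : 0 < d) (hdC : 16 * C * d ≤ c ^ 3) (h0 : V 0 = 0) :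
    ∀ x ∈ Icc (-d) d, c / 2 * x ^ 2 ≤ x * V x ∧ x * V x ≤ 2 * C * x ^ 2 := by
  have hcC : c ≤ C := by
    have := h 0 ⟨by linarith, hd.le⟩
    linarith [this.2.2.1, this.2.2.2]
  have hC : 0 < C := by linarith
  have hl1 : ∀ x ∈ Ico (-d) 0, V x ≤ c / 2 * x := by
    intro x hx
    refine le_of_tendsto' (hT.tendsto x) fun n => ?_
    by_contra hcon
    have hU0 : U n 0 < 0 := (hT.lt n 0).trans_eq h0
    have := pos_of_deriv_pos_at_zeros (f := fun y => U n y - c / 2 * y) (a := x) (b := 0)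
      ((hT.solU n).1.sub (by fun_prop)).continuousOn (by linarith) (fun y hy hy0 => by
        have hy1 : y < 0 := by
          refine lt_of_le_of_ne hy.2 fun h1 => ?_
          rw [h1] at hy0
          linarith
        have hy2 : y ∈ Icc (-d) d := ⟨hx.1.trans hy.1, by linarith⟩
        have hU : U n y = c / 2 * y := by linarith
        have hne : U n y ≠ 0 := by rw [hU]; exact mul_ne_zero (by positivity) hy1.ne
        refine ⟨_, ((hT.solU n).hasDerivAt hne).sub ((hasDerivAt_id y).const_mul (c / 2)), ?_⟩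
        have h3 := t1_left hc hy1 (h y hy2).2.1 (by nlinarith [hy2.1]) hU.le
        linarith [(h y hy2).2.2.1]) 0 ⟨hx.2, le_rfl⟩
    linarith
  have hl2 : ∀ x ∈ Ico (-d) 0, C * x ≤ V x := by
    intro x hx
    have := sub_le_of_deriv_le (f := V) (c := C) finite_empty hx.2.le hT.solV.1.continuousOn
      fun y hy _ => by
        have hy2 : y ∈ Icc (-d) d := ⟨hx.1.trans hy.1.le, by linarith [hy.2]⟩
        have h1 := hl1 y ⟨hy2.1, hy.2⟩
        have hne : V y ≠ 0 := by nlinarith [hy.2]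
        refine ⟨_, hT.solV.hasDerivAt hne, ?_⟩
        have h2 := (t1_sign hc (h y hy2).1).1 hy.2
        have h3 : 0 ≤ A y / V y ^ 2 := by positivity
        linarith [(h y hy2).2.2.2]
    rw [h0] at this
    linarith
  have hr0 : ∀ x ∈ Ioc 0 d, 0 < V x := by
    intro x hx
    have hm : StrictMonoOn (fun y => V y ^ 3) (Icc 0 d) := by
      refine strictMonoOn_of_deriv_pos (convex_Icc 0 d) (hT.solV.1.pow 3).continuousOn ?_
      intro y hy
      rw [interior_Icc] at hy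
      have hy2 : y ∈ Icc (-d) d := ⟨by linarith [hy.1], hy.2.le⟩
      rw [(hT.solV.2 y).deriv]
      have h2 := (t1_sign hc (h y hy2).1).2 hy.1
      have h3 := (h y hy2).2.2.1
      nlinarith [sq_nonneg (V y)]
    have := hm ⟨le_rfl, hd.le⟩ ⟨hx.1.le, hx.2⟩ hx.1
    simp only [h0] at this
    exact (Odd.pow_pos_iff (n := 3) (by decide)).1 (by simpa using this)
  have hr1 : ∀ x ∈ Ioc 0 d, c * x ≤ V x := by
    intro x hx
    have := le_sub_of_le_deriv (f := V) (c := c) finite_empty hx.1.le hT.solV.1.continuousOn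
      fun y hy _ => by
        have hy2 : y ∈ Icc (-d) d := ⟨by linarith [hy.1], hy.2.le.trans hx.2⟩
        have h1 := hr0 y ⟨hy.1, hy2.2⟩
        refine ⟨_, hT.solV.hasDerivAt h1.ne', ?_⟩
        have h2 := (t1_sign hc (h y hy2).1).2 hy.1
        have h3 : A y / V y ^ 2 ≤ 0 := div_nonpos_of_nonpos_of_nonneg h2.le (sq_nonneg _)
        linarith [(h y hy2).2.2.1]
    rw [h0] at this
    linarith
  have hr2 : ∀ x ∈ Ioc 0 d, V x ≤ 2 * C * x := by
    intro x hx
    have := sub_le_of_deriv_le (f := V) (c := 2 * C) finite_empty hx.1.le hT.solV.1.continuousOn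
      fun y hy _ => by
        have hy2 : y ∈ Icc (-d) d := ⟨by linarith [hy.1], hy.2.le.trans hx.2⟩
        have h1 := hr0 y ⟨hy.1, hy2.2⟩
        refine ⟨_, hT.solV.hasDerivAt h1.ne', ?_⟩
        have h2 := t1_right hc hy.1 (h y hy2).2.1 (by nlinarith [hy2.2]) (hr1 y ⟨hy.1, hy2.2⟩)
        rw [neg_div] at h2
        linarith [(h y hy2).2.2.2]
    rw [h0] at this
    linarith
  intro x hx
  rcases lt_trichotomy x 0 with h1 | h1 | h1
  · have h2 := hl1 x ⟨hx.1, h1⟩
    have h3 := hl2 x ⟨hx.1, h1⟩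
    constructor <;> nlinarith [sq_nonneg x]
  · simp [h1]
  · have h2 := hr1 x ⟨h1, hx.2⟩
    have h3 := hr2 x ⟨h1, hx.2⟩
    constructor <;> nlinarith [sq_nonneg x]

theorem t1_d {δ c C : ℝ} (hδ : 0 < δ) (hc : 0 < c) (hC : 0 < C) :
    ∃ d, 0 < d ∧ d ≤ δ ∧ 16 * C * d ≤ c ^ 3 := by
  refine ⟨min δ (c ^ 3 / (16 * C)), lt_min hδ (by positivity), min_le_left _ _, ?_⟩
  have := min_le_right δ (c ^ 3 / (16 * C))
  rw [le_div_iff₀ (by positivity)] at this
  linarith

theorem t1S : T1Stmt := by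
  intro A B V U δ c C hT hδ hc h h0
  have hC : 0 < C := by
    have := h 0 ⟨by linarith, hδ.le⟩
    linarith [this.2.2.1, this.2.2.2]
  obtain ⟨d, hd, hdδ, hdC⟩ := t1_d hδ hc hC
  exact ⟨d, c / 2, 2 * C, hd, hdδ, by positivity,
    t1_main hT hc (fun x hx => h x ⟨by linarith [hx.1], hx.2.trans hdδ⟩) hd hdC h0⟩

theorem t1_al {a v x c C : ℝ} (hc : 0 < c) (hC : 0 < C) (hx : x ≠ 0) (h1 : c * x ^ 4 ≤ -x * a)
    (h2 : -x * a ≤ C * x ^ 4) (h3 : c / 2 * x ^ 2 ≤ x * v) (h4 : x * v ≤ 2 * C * x ^ 2) :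
    v ≠ 0 ∧ c / (2 * C) ^ 3 ≤ -a / v ^ 3 ∧ -a / v ^ 3 ≤ C / (c / 2) ^ 3 := by
  have hx2 : 0 < x ^ 2 := by positivity
  have hxv : 0 < x * v := lt_of_lt_of_le (by positivity) h3
  have hv : v ≠ 0 := by
    rintro rfl
    simp at hxv
  have e : -a / v ^ 3 = (-x * a * x ^ 2) / (x * v) ^ 3 := by field_simp
  have e1 : c / (2 * C) ^ 3 = (c * x ^ 4 * x ^ 2) / (2 * C * x ^ 2) ^ 3 := by field_simp
  have e2 : C / (c / 2) ^ 3 = (C * x ^ 4 * x ^ 2) / (c / 2 * x ^ 2) ^ 3 := by field_simp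
  have h5 : 0 ≤ -x * a := le_trans (by positivity) h1
  refine ⟨hv, ?_, ?_⟩
  · rw [e, e1]
    gcongr
  · rw [e, e2]
    gcongr

theorem tSeqS : TSeqStmt := by
  intro A B V U δ c C hA hT hδ hc h' h0
  have hcC : c ≤ C := by
    have := h' 0 ⟨by linarith, hδ.le⟩
    linarith [this.2.2.1, this.2.2.2]
  have hC : 0 < C := by linarith
  obtain ⟨d, hd, hdδ, hdC⟩ := t1_d hδ hc hC
  have h : ∀ x ∈ Icc (-d) d,
      c * x ^ 4 ≤ -x * A x ∧ -x * A x ≤ C * x ^ 4 ∧ c ≤ -B x ∧ -B x ≤ C :=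
    fun x hx => h' x ⟨by linarith [hx.1], hx.2.trans hdδ⟩
  have hV := t1_main hT hc h hd hdC h0
  have hal := fun x (hx : x ∈ Icc (-d) d) (hx0 : x ≠ 0) =>
    t1_al hc hC hx0 (h x hx).1 (h x hx).2.1 (hV x hx).1 (hV x hx).2
  set M := C / (c / 2) ^ 3 with hM
  have hM0 : 0 < M := by positivity
  have hm0 : 0 < c / (2 * C) ^ 3 := by positivity
  let f : ℝ → ℝ := fun x => 2 * (-A x / V x ^ 3)
  have hfm : Measurable f :=
    (hA.measurable.neg.div (hT.solV.1.measurable.pow_const 3)).const_mul 2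
  have hfb : ∀ x ∈ Icc (-d) d, ‖f x‖ ≤ 2 * M := by
    intro x hx
    by_cases hx0 : x = 0
    · simp only [f, hx0, h0]
      simp [hM0.le]
    · obtain ⟨-, h1, h2⟩ := hal x hx hx0
      rw [Real.norm_eq_abs, abs_le]
      simp only [f]
      constructor <;> linarith
  have hfi : MeasureTheory.IntegrableOn f (Icc (-d) d) :=
    MeasureTheory.Measure.integrableOn_of_bounded (M := 2 * M) measure_Icc_lt_top.ne
      hfm.aestronglyMeasurable
      ((MeasureTheory.ae_restrict_iff' measurableSet_Icc).2 (Eventually.of_forall hfb))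
  have h0m : (0 : ℝ) ∈ Icc (-d) d := ⟨by linarith, hd.le⟩
  have hfi' : ∀ x ∈ Icc (-d) d, IntervalIntegrable f MeasureTheory.volume 0 x := fun x hx =>
    (hfi.mono_set (uIcc_subset_Icc h0m hx)).intervalIntegrable
  have hI : ∀ x ∈ Icc (-d) d, |∫ t in (0 : ℝ)..x, f t| ≤ 2 * M * d := by
    intro x hx
    have h1 := intervalIntegral.norm_integral_le_of_norm_le_const (a := 0) (b := x) (f := f)
      (C := 2 * M) fun t ht => hfb t (uIcc_subset_Icc h0m hx (uIoc_subset_uIcc ht))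
    rw [Real.norm_eq_abs, sub_zero] at h1
    have h2 : |x| ≤ d := abs_le.2 hx
    nlinarith
  have hcont : ContinuousOn (fun x => ∫ t in (0 : ℝ)..x, f t) (Icc (-d) d) := by
    have h1 : IntervalIntegrable f MeasureTheory.volume (-d) d :=
      (hfi.mono_set (by rw [uIcc_of_le (by linarith)])).intervalIntegrable
    have h2 := intervalIntegral.continuousOn_primitive_interval' h1
      (a := 0) (by rw [uIcc_of_le (by linarith)]; exact h0m)
    rwa [uIcc_of_le (by linarith)] at h2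
  refine ⟨d, min (c / 2) (min (c / (2 * C) ^ 3) (Real.exp (-(2 * M * d)))),
    max (2 * C) (max M (Real.exp (2 * M * d))), fun x => -A x / V x ^ 3, fun x => -B x,
    fun x => Real.exp (∫ t in (0 : ℝ)..x, f t), hdδ, ?_⟩
  set c' := min (c / 2) (min (c / (2 * C) ^ 3) (Real.exp (-(2 * M * d)))) with hc'
  set C' := max (2 * C) (max M (Real.exp (2 * M * d))) with hC'
  have a1 : c' ≤ c / 2 := min_le_left _ _
  have a2 : c' ≤ c / (2 * C) ^ 3 := (min_le_right _ _).trans (min_le_left _ _)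
  have a3 : c' ≤ Real.exp (-(2 * M * d)) := (min_le_right _ _).trans (min_le_right _ _)
  have b1 : 2 * C ≤ C' := le_max_left _ _
  have b2 : M ≤ C' := (le_max_left _ _).trans (le_max_right _ _)
  have b3 : Real.exp (2 * M * d) ≤ C' := (le_max_right _ _).trans (le_max_right _ _)
  have hneg : ∀ n, ∀ x ∈ Icc (-d) d, x < 0 → U n x ≤ c / 2 * x := by
    intro n x hx hx0
    have h1 := (hV x hx).1
    have h2 := hT.lt n x
    by_contra hcon
    nlinarith
  have hzero : ∀ n, ∀ x ∈ Icc (-d) d, U n x = 0 → 0 < x := by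
    intro n x hx hU
    rcases lt_trichotomy x 0 with h1 | h1 | h1
    · have := hneg n x hx h1
      nlinarith
    · have := hT.lt n x
      rw [hU, h1, h0] at this
      exact absurd this (lt_irrefl _)
    · exact h1
  refine ⟨hd, lt_min (by positivity) (lt_min hm0 (Real.exp_pos _)), hT.solV.1.continuousOn,
    hcont.rexp, fun n => (hT.solU n).1.continuousOn, fun x hx => ?_, h0, fun x hx => ?_,
    fun x hx hx0 => ?_, fun x hx => ?_, fun n x _ => hT.lt n x, hT.unif.tendstoUniformlyOn,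
    fun n => ?_, fun n x hx hx0 hU => ?_, fun n x hx hx0 hU => ?_⟩
  · obtain ⟨h1, h2⟩ := hV x hx
    constructor <;> nlinarith [sq_nonneg x]
  · obtain ⟨h1, h2⟩ := abs_le.1 (hI x hx)
    exact ⟨a3.trans (Real.exp_le_exp.2 h1), (Real.exp_le_exp.2 h2).trans b3⟩
  · obtain ⟨-, h1, h2⟩ := hal x hx hx0
    exact ⟨a2.trans h1, h2.trans b2⟩
  · obtain ⟨-, -, h1, h2⟩ := h x hx
    constructor <;> linarith
  · have key : ∀ a ∈ Icc (-d) d, ∀ b ∈ Icc (-d) d, U n a = 0 → U n b = 0 → ¬ a < b := by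
      intro a ha b hb hUa hUb hab
      have := (hT.solU n).pos_forward (a := a) (b := b) (fun y hy hy0 => by
        have hy2 : y ∈ Icc (-d) d := ⟨ha.1.trans hy.1, hy.2.trans hb.2⟩
        exact (t1_sign hc (h y hy2).1).2 (hzero n y hy2 hy0)) hUa.ge b ⟨hab, le_rfl⟩
      exact this.ne' hUb
    refine Set.Subsingleton.finite fun a ha b hb => ?_
    exact le_antisymm (not_lt.1 (key b hb.1 a ha.1 hb.2 ha.2)) (not_lt.1 (key a ha.1 b hb.1 ha.2 hb.2))
  · have hx' := Ioo_subset_Icc_self hx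
    obtain ⟨hv, -, -⟩ := hal x hx' hx0
    have e : -B x + -A x / V x ^ 3 * V x ^ 3 / U n x ^ 2 = -B x - A x / U n x ^ 2 := by
      field_simp
      ring
    simp only [e]
    refine ⟨(hT.solU n).hasDerivAt hU, ?_⟩
    have h1 := (h x hx').2.2.1
    rcases lt_or_gt_of_ne hx0 with h2 | h2
    · have := t1_left hc h2 (h x hx').2.1 (by nlinarith [hx'.1]) (hneg n x hx' h2)
      linarith
    · have h3 := (t1_sign hc (h x hx').1).2 h2
      have h4 : A x / U n x ^ 2 ≤ 0 := div_nonpos_of_nonpos_of_nonneg h3.le (sq_nonneg _)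
      linarith
  · have hx' := Ioo_subset_Icc_self hx
    obtain ⟨hv, -, -⟩ := hal x hx' hx0
    have hfc : ContinuousAt f x :=
      continuousAt_const.mul (hA.continuousAt.neg.div (hT.solV.1.continuousAt.pow 3)
        (pow_ne_zero 3 hv))
    have h1 := (intervalIntegral.integral_hasDerivAt_right (hfi' x hx')
      hfm.stronglyMeasurable.stronglyMeasurableAtFilter hfc).exp
    refine (h1.mul ((hT.solV.hasDerivAt hv).sub ((hT.solU n).hasDerivAt hU))).congr_deriv ?_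
    simp only [f, Pi.sub_apply]
    field_simp
    ring

end Pool.Agent.MP_c2f0e4_an
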